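import Mathlib

/-! Definitions for the theorem on small, nearly symmetric noise (helper91): relaxed pair
configurations of the nearest neighbour majority rule, single marks, the four functionals. -/

set_option autoImplicit false

namespace Pool.Agent.T3M

/-- the states of a site of the pair process: both `0` (`z`), different (`s`, a star), both `1` -/
inductive Sy : Type
  | z : Sy
  | s : Sy
  | o : Sy
  deriving DecidableEq, Fintype

/-- the higher and the lower of the two states -/
def Sy.hi : Sy → Bool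
  | .z => false
  | _ => true

def Sy.lo : Sy → Bool
  | .o => true
  | _ => false

/-- the symbol from the lower and the higher state -/
def mk (lo hi : Bool) : Sy := if lo then .o else if hi then .s else .z

/-- majority of three -/
def maj3 (a b c : Bool) : Bool := (a && b) || (b && c) || (a && c)

/-- median of three symbols -/
def med (a b c : Sy) : Sy := mk (maj3 a.lo b.lo c.lo) (maj3 a.hi b.hi c.hi)

/-- one noiseless step, for pairs and for one binary configuration -/
def M (u : ℤ → Sy) (i : ℤ) : Sy := med (u (i - 1)) (u i) (u (i + 1))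

def Mb (x : ℤ → Bool) (i : ℤ) : Bool := maj3 (x (i - 1)) (x i) (x (i + 1))

/-- roots: the fixed points -/
def Rt (u : ℤ → Sy) : Prop := ∀ i, M u i = u i

def Rtb (x : ℤ → Bool) : Prop := ∀ i, Mb x i = x i

/-- symbol of a mark -/
def bs (b : Bool) : Sy := if b then .o else .z

/-- the effect of the single mark `b` at `i` -/
def Rf (i : ℤ) (b : Bool) (u : ℤ → Sy) : ℤ → Sy := M (M (Function.update u i (bs b)))

def Rfb (i : ℤ) (b : Bool) (x : ℤ → Bool) : ℤ → Bool := Mb (Mb (Function.update x i b))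

/-- `u` is `z` outside `[-n, n]` -/
def Sup (n : ℕ) (u : ℤ → Sy) : Prop := ∀ i : ℤ, (n : ℤ) < |i| → u i = .z

/-- the projections -/
def x1 (u : ℤ → Sy) (i : ℤ) : Bool := (u i).hi

def x0 (u : ℤ → Sy) (i : ℤ) : Bool := (u i).lo

/-- indicator as a real number -/
noncomputable def ind (p : Prop) : ℝ := by
  classical exact if p then 1 else 0

/-- indicator of a star -/
noncomputable def st (u : ℤ → Sy) (i : ℤ) : ℝ := ind (u i = .s)

/-- star edge between `i` and `i + 1` -/
def SE (u : ℤ → Sy) (i : ℤ) : Prop := ¬ (u i = .s ↔ u (i + 1) = .s)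

/-- number of stars, number of star edges -/
noncomputable def nst (u : ℤ → Sy) : ℝ := ∑ᶠ i, st u i

noncomputable def Bn (u : ℤ → Sy) : ℝ := ∑ᶠ i, ind (SE u i)

/-- a killable star run starts at `i` (`u` a root): length `1`, or length `2` or `3` with equal
neighbours -/
def Kl (u : ℤ → Sy) (i : ℤ) : Prop :=
  u i = .s ∧ u (i - 1) ≠ .s ∧
    (u (i + 1) ≠ .s ∨
      (u (i + 1) = .s ∧ u (i + 2) ≠ .s ∧ u (i + 2) = u (i - 1)) ∨
      (u (i + 1) = .s ∧ u (i + 2) = .s ∧ u (i + 3) ≠ .s ∧ u (i + 3) = u (i - 1)))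

noncomputable def kl (u : ℤ → Sy) : ℝ := ∑ᶠ i, ind (Kl u i)

/-- a common run of length exactly `3` starts at `i` and exactly one of its neighbours is a star -/
def F3 (u : ℤ → Sy) (i : ℤ) : Prop :=
  u i ≠ .s ∧ u (i + 1) = u i ∧ u (i + 2) = u i ∧ u (i - 1) ≠ u i ∧ u (i + 3) ≠ u i ∧
    ¬ (u (i - 1) = .s ↔ u (i + 3) = .s)

noncomputable def f3 (u : ℤ → Sy) : ℝ := ∑ᶠ i, ind (F3 u i)

/-- number of stars plus number of star runs -/
noncomputable def Psi (u : ℤ → Sy) : ℝ := nst u + Bn u / 2

/-- the quadratic functional with the triangular kernel of width `R` -/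
noncomputable def Tq (R : ℕ) (u : ℤ → Sy) : ℝ :=
  1 / (2 * R) * ∑ᶠ x : ℤ, (∑ j ∈ Finset.range R, st u (x + j)) ^ 2

/-- the weight of a run of length `l`: decreasing, concave up to `D`, convex from `D` to `2 D`,
zero from `2 D` on -/
noncomputable def kap (D l : ℕ) : ℝ :=
  if l ≤ D then 1 - (l : ℝ) ^ 2 / (2 * D ^ 2)
  else if l ≤ 2 * D then (2 * D - (l : ℝ)) ^ 2 / (2 * D ^ 2) else 0

/-- length of the run of `u` which ends at `p` (`0` if it is infinite) -/
noncomputable def ll (u : ℤ → Sy) (p : ℤ) : ℕ := sInf {j : ℕ | u (p - j) ≠ u p}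

/-- distance from `p` to the nearest star on the left (`0` if there is none or if `p` is a star) -/
noncomputable def dl (u : ℤ → Sy) (p : ℤ) : ℕ := sInf {j : ℕ | u (p - j) = .s}

/-- sum over the star runs of the weight of the length -/
noncomputable def Zs (D : ℕ) (u : ℤ → Sy) : ℝ :=
  ∑ᶠ p, ind (u p = .s ∧ u (p + 1) ≠ .s) * kap D (ll u p)

/-- a common wall between `p` and `p + 1` -/
def CW (u : ℤ → Sy) (p : ℤ) : Prop := u p ≠ .s ∧ u (p + 1) ≠ .s ∧ u p ≠ u (p + 1)

/-- the discount factor -/
noncomputable def th (D : ℕ) : ℝ := 1 - 1 / (2 * D)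

/-- sum over the common walls `p` with a star on the left: discounted weight of the run which ends
at `p`; the exponent is the distance from the left end of the gap to the start of this run -/
noncomputable def ZL (D : ℕ) (u : ℤ → Sy) : ℝ :=
  ∑ᶠ p, ind (CW u p ∧ dl u p ≠ 0) * (th D ^ (dl u p - ll u p) * kap D (ll u p))

/-- the same sum over the runs of length at most `3`, without weight -/
noncomputable def SL (D : ℕ) (u : ℤ → Sy) : ℝ :=
  ∑ᶠ p, ind (CW u p ∧ dl u p ≠ 0 ∧ ll u p ≤ 3) * th D ^ (dl u p - ll u p)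

/-- reflection -/
def rev (u : ℤ → Sy) : ℤ → Sy := fun i => u (-i)

noncomputable def Zg (D : ℕ) (u : ℤ → Sy) : ℝ := ZL D u + ZL D (rev u)

noncomputable def Sg (D : ℕ) (u : ℤ → Sy) : ℝ := SL D u + SL D (rev u)

/-- the first order generator, all marks; and only the marks `b` -/
noncomputable def Lg (F : (ℤ → Sy) → ℝ) (u : ℤ → Sy) : ℝ :=
  ∑ᶠ i, ((F (Rf i false u) - F u) + (F (Rf i true u) - F u))

noncomputable def Lb (b : Bool) (F : (ℤ → Sy) → ℝ) (u : ℤ → Sy) : ℝ :=
  ∑ᶠ i, (F (Rf i b u) - F u)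

end Pool.Agent.T3M
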