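import Mathlib
import Pool.Agent.T3M.Defs

/-! Basic facts on indicators, sums over the integers, roots and single marks (helper91). -/

set_option autoImplicit false

namespace Pool.Agent.T3M

/-! ### Indicators -/

lemma ind_true {p : Prop} (h : p) : ind p = 1 := by unfold ind; exact if_pos h

lemma ind_false {p : Prop} (h : ¬ p) : ind p = 0 := by unfold ind; exact if_neg h

lemma ind_cases (p : Prop) : ind p = 0 ∨ ind p = 1 := by
  by_cases h : p
  · exact Or.inr (ind_true h)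
  · exact Or.inl (ind_false h)

lemma ind_nonneg (p : Prop) : 0 ≤ ind p := by
  rcases ind_cases p with h | h <;> rw [h]
  norm_num

lemma ind_le_one (p : Prop) : ind p ≤ 1 := by
  rcases ind_cases p with h | h <;> rw [h]
  norm_num

lemma ind_mono {p q : Prop} (h : p → q) : ind p ≤ ind q := by
  by_cases hp : p
  · rw [ind_true hp, ind_true (h hp)]
  · rw [ind_false hp]; exact ind_nonneg q

lemma ind_congr {p q : Prop} (h : p ↔ q) : ind p = ind q := by rw [propext h]

lemma ind_and (p q : Prop) : ind (p ∧ q) = ind p * ind q := by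
  by_cases hp : p
  · by_cases hq : q
    · rw [ind_true ⟨hp, hq⟩, ind_true hp, ind_true hq, one_mul]
    · rw [ind_false (fun h => hq h.2), ind_false hq, mul_zero]
  · rw [ind_false (fun h => hp h.1), ind_false hp, zero_mul]

lemma ind_not (p : Prop) : ind (¬ p) = 1 - ind p := by
  by_cases hp : p
  · rw [ind_false (not_not.2 hp), ind_true hp, sub_self]
  · rw [ind_true hp, ind_false hp, sub_zero]

lemma ind_or_le (p q : Prop) : ind (p ∨ q) ≤ ind p + ind q := by
  by_cases hp : p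
  · rw [ind_true (Or.inl hp), ind_true hp]; linarith [ind_nonneg q]
  · rw [ind_congr (show p ∨ q ↔ q from by tauto)]; linarith [ind_nonneg p]

lemma ind_sq (p : Prop) : ind p ^ 2 = ind p := by rcases ind_cases p with h | h <;> rw [h] <;> norm_num

lemma st_def (u : ℤ → Sy) (i : ℤ) : st u i = ind (u i = .s) := rfl

lemma st_nonneg (u : ℤ → Sy) (i : ℤ) : 0 ≤ st u i := ind_nonneg _

lemma st_le_one (u : ℤ → Sy) (i : ℤ) : st u i ≤ 1 := ind_le_one _

/-! ### Sums over the integers -/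

lemma mem_Icc_abs {n : ℕ} {i : ℤ} : i ∈ Finset.Icc (-(n : ℤ)) (n : ℤ) ↔ |i| ≤ (n : ℤ) := by
  rw [Finset.mem_Icc, abs_le]

/-- a sum over the integers of a function which vanishes outside an interval -/
lemma fs_eq {f : ℤ → ℝ} (n : ℕ) (h : ∀ i : ℤ, (n : ℤ) < |i| → f i = 0) :
    ∑ᶠ i, f i = ∑ i ∈ Finset.Icc (-(n : ℤ)) (n : ℤ), f i := by
  apply finsum_eq_sum_of_support_subset
  intro i hi
  rw [Function.mem_support] at hi
  rw [Finset.mem_coe, mem_Icc_abs]
  by_contra hc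
  exact hi (h i (by omega))

lemma fs_fin {f : ℤ → ℝ} (n : ℕ) (h : ∀ i : ℤ, (n : ℤ) < |i| → f i = 0) :
    (Function.support f).Finite := by
  apply Set.Finite.subset (Finset.finite_toSet (Finset.Icc (-(n : ℤ)) (n : ℤ)))
  intro i hi
  rw [Function.mem_support] at hi
  rw [Finset.mem_coe, mem_Icc_abs]
  by_contra hc
  exact hi (h i (by omega))

lemma fs_le {f g : ℤ → ℝ} (n : ℕ) (hf : ∀ i : ℤ, (n : ℤ) < |i| → f i = 0)
    (hg : ∀ i : ℤ, (n : ℤ) < |i| → g i = 0) (h : ∀ i, f i ≤ g i) : ∑ᶠ i, f i ≤ ∑ᶠ i, g i := by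
  rw [fs_eq n hf, fs_eq n hg]
  exact Finset.sum_le_sum fun i _ => h i

lemma fs_nonneg {f : ℤ → ℝ} (h : ∀ i, 0 ≤ f i) : 0 ≤ ∑ᶠ i, f i := finsum_nonneg h

lemma fs_add {f g : ℤ → ℝ} (n : ℕ) (hf : ∀ i : ℤ, (n : ℤ) < |i| → f i = 0)
    (hg : ∀ i : ℤ, (n : ℤ) < |i| → g i = 0) : ∑ᶠ i, (f i + g i) = ∑ᶠ i, f i + ∑ᶠ i, g i :=
  finsum_add_distrib (fs_fin n hf) (fs_fin n hg)

lemma fs_sub {f g : ℤ → ℝ} (n : ℕ) (hf : ∀ i : ℤ, (n : ℤ) < |i| → f i = 0)
    (hg : ∀ i : ℤ, (n : ℤ) < |i| → g i = 0) : ∑ᶠ i, (f i - g i) = ∑ᶠ i, f i - ∑ᶠ i, g i :=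
  finsum_sub_distrib (fs_fin n hf) (fs_fin n hg)

lemma fs_mul (c : ℝ) (f : ℤ → ℝ) : ∑ᶠ i, c * f i = c * ∑ᶠ i, f i := by
  by_cases hc : c = 0
  · simp [hc]
  · rw [← smul_eq_mul, smul_finsum]
    simp

lemma fs_shift (f : ℤ → ℝ) (c : ℤ) : ∑ᶠ i, f (i + c) = ∑ᶠ i, f i :=
  finsum_comp_equiv (Equiv.addRight c)

lemma fs_neg (f : ℤ → ℝ) : ∑ᶠ i, f (-i) = ∑ᶠ i, f i := finsum_comp_equiv (Equiv.neg ℤ)

/-! ### Symbols and projections -/

@[simp] lemma hi_mk (a b : Bool) (h : a = true → b = true) : (mk a b).hi = b := by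
  cases a <;> cases b <;> simp_all [mk, Sy.hi]

@[simp] lemma lo_mk (a b : Bool) : (mk a b).lo = a := by
  cases a <;> cases b <;> simp [mk, Sy.lo]

lemma lo_le_hi (a : Sy) : a.lo = true → a.hi = true := by cases a <;> simp [Sy.lo, Sy.hi]

lemma mk_lo_hi (a : Sy) : mk a.lo a.hi = a := by cases a <;> rfl

lemma sy_ext {a b : Sy} (h0 : a.lo = b.lo) (h1 : a.hi = b.hi) : a = b := by
  rw [← mk_lo_hi a, ← mk_lo_hi b, h0, h1]

lemma med_hi (a b c : Sy) : (med a b c).hi = maj3 a.hi b.hi c.hi := by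
  cases a <;> cases b <;> cases c <;> rfl

lemma med_lo (a b c : Sy) : (med a b c).lo = maj3 a.lo b.lo c.lo := by
  cases a <;> cases b <;> cases c <;> rfl

lemma x1_M (u : ℤ → Sy) : x1 (M u) = Mb (x1 u) := by
  funext i; unfold x1 M Mb; exact med_hi _ _ _

lemma x0_M (u : ℤ → Sy) : x0 (M u) = Mb (x0 u) := by
  funext i; unfold x0 M Mb; exact med_lo _ _ _

lemma bs_hi (b : Bool) : (bs b).hi = b := by cases b <;> rfl

lemma bs_lo (b : Bool) : (bs b).lo = b := by cases b <;> rfl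

lemma x1_update (u : ℤ → Sy) (i : ℤ) (a : Sy) :
    x1 (Function.update u i a) = Function.update (x1 u) i a.hi := by
  funext k
  by_cases h : k = i
  · subst h; simp [x1]
  · simp [x1, Function.update_of_ne h]

lemma x0_update (u : ℤ → Sy) (i : ℤ) (a : Sy) :
    x0 (Function.update u i a) = Function.update (x0 u) i a.lo := by
  funext k
  by_cases h : k = i
  · subst h; simp [x0]
  · simp [x0, Function.update_of_ne h]

lemma x1_Rf (i : ℤ) (b : Bool) (u : ℤ → Sy) : x1 (Rf i b u) = Rfb i b (x1 u) := by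
  unfold Rf Rfb
  rw [x1_M, x1_M, x1_update, bs_hi]

lemma x0_Rf (i : ℤ) (b : Bool) (u : ℤ → Sy) : x0 (Rf i b u) = Rfb i b (x0 u) := by
  unfold Rf Rfb
  rw [x0_M, x0_M, x0_update, bs_lo]

lemma ext_x {u v : ℤ → Sy} (h0 : x0 u = x0 v) (h1 : x1 u = x1 v) : u = v := by
  funext k
  exact sy_ext (congrFun h0 k) (congrFun h1 k)

/-- stars in terms of the projections -/
lemma star_iff (u : ℤ → Sy) (i : ℤ) : u i = .s ↔ x1 u i = true ∧ x0 u i = false := by
  unfold x1 x0
  cases u i <;> simp [Sy.hi, Sy.lo]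

lemma z_iff (u : ℤ → Sy) (i : ℤ) : u i = .z ↔ x1 u i = false := by
  unfold x1
  cases u i <;> simp [Sy.hi]

lemma o_iff (u : ℤ → Sy) (i : ℤ) : u i = .o ↔ x0 u i = true := by
  unfold x0
  cases u i <;> simp [Sy.lo]

lemma st_eq (u : ℤ → Sy) (i : ℤ) :
    st u i = (if x1 u i then (1 : ℝ) else 0) - (if x0 u i then (1 : ℝ) else 0) := by
  unfold st x1 x0
  cases h : u i <;> simp [Sy.hi, Sy.lo, ind]

/-! ### Roots -/

lemma rt_iff (u : ℤ → Sy) : Rt u ↔ Rtb (x1 u) ∧ Rtb (x0 u) := by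
  constructor
  · intro h
    have hM : M u = u := funext h
    refine ⟨fun i => ?_, fun i => ?_⟩
    · rw [← x1_M, hM]
    · rw [← x0_M, hM]
  · rintro ⟨h1, h0⟩ i
    have : M u = u := ext_x (by rw [x0_M]; exact funext h0) (by rw [x1_M]; exact funext h1)
    rw [this]

/-- a binary configuration is a root iff every site agrees with a neighbour -/
lemma rtb_iff (x : ℤ → Bool) : Rtb x ↔ ∀ i, x i = x (i - 1) ∨ x i = x (i + 1) := by
  unfold Rtb Mb maj3
  refine forall_congr' fun i => ?_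
  cases x (i - 1) <;> cases x i <;> cases x (i + 1) <;> simp

lemma Rtb.nb {x : ℤ → Bool} (h : Rtb x) (i : ℤ) : x i = x (i - 1) ∨ x i = x (i + 1) :=
  (rtb_iff x).1 h i

lemma Rt.one {u : ℤ → Sy} (h : Rt u) : Rtb (x1 u) := ((rt_iff u).1 h).1

lemma Rt.zero {u : ℤ → Sy} (h : Rt u) : Rtb (x0 u) := ((rt_iff u).1 h).2

lemma Rt.M_eq {u : ℤ → Sy} (h : Rt u) : M u = u := funext h

/-- a single mark of the same colour has no effect -/
lemma Rfb_same {x : ℤ → Bool} (h : Rtb x) {i : ℤ} {b : Bool} (hb : x i = b) : Rfb i b x = x := by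
  unfold Rfb
  subst hb
  rw [Function.update_eq_self, funext h, funext h]

lemma Rf_same {u : ℤ → Sy} (h : Rt u) {i : ℤ} {b : Bool} (hb : u i = bs b) : Rf i b u = u := by
  unfold Rf
  rw [← hb, Function.update_eq_self, h.M_eq, h.M_eq]

/-- one step after the update, away from the mark -/
lemma Mb_update_of_ne {x : ℤ → Bool} (h : Rtb x) {i : ℤ} (b : Bool) {k : ℤ} (h1 : k ≠ i - 1)
    (h2 : k ≠ i) (h3 : k ≠ i + 1) : Mb (Function.update x i b) k = x k := by
  unfold Mb
  rw [Function.update_of_ne (by omega), Function.update_of_ne h2, Function.update_of_ne (by omega)]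
  exact h k

lemma Mb_update_self {x : ℤ → Bool} {i : ℤ} (b : Bool) :
    Mb (Function.update x i b) i = maj3 (x (i - 1)) b (x (i + 1)) := by
  unfold Mb
  rw [Function.update_of_ne (by omega), Function.update_self, Function.update_of_ne (by omega)]

lemma Mb_update_left {x : ℤ → Bool} {i : ℤ} (b : Bool) :
    Mb (Function.update x i b) (i - 1) = maj3 (x (i - 2)) (x (i - 1)) b := by
  unfold Mb
  rw [Function.update_of_ne (by omega), Function.update_of_ne (by omega),
    show i - 1 + 1 = i by ring, Function.update_self, show i - 1 - 1 = i - 2 by ring]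

lemma Mb_update_right {x : ℤ → Bool} {i : ℤ} (b : Bool) :
    Mb (Function.update x i b) (i + 1) = maj3 b (x (i + 1)) (x (i + 2)) := by
  unfold Mb
  rw [show i + 1 - 1 = i by ring, Function.update_self, Function.update_of_ne (by omega),
    Function.update_of_ne (by omega), show i + 1 + 1 = i + 2 by ring]

/-- FLIP TABLE, at the mark -/
lemma Rfb_self {x : ℤ → Bool} (h : Rtb x) {i : ℤ} {b : Bool} (hb : x i = !b) :
    Rfb i b x i = if x (i - 1) = b ∨ x (i + 1) = b then b else maj3 (x (i - 2)) (!b) (x (i + 2)) := by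
  have e : Rfb i b x i = maj3 (Mb (Function.update x i b) (i - 1)) (Mb (Function.update x i b) i)
    (Mb (Function.update x i b) (i + 1)) := rfl
  rw [e, Mb_update_self, Mb_update_left, Mb_update_right]
  have h0 := h.nb i
  revert h0 hb
  cases x (i - 2) <;> cases x (i - 1) <;> cases x i <;> cases x (i + 1) <;> cases x (i + 2) <;>
    cases b <;> simp [maj3]

/-- FLIP TABLE, left of the mark -/
lemma Rfb_left {x : ℤ → Bool} (h : Rtb x) {i : ℤ} {b : Bool} (hb : x i = !b) :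
    Rfb i b x (i - 1) = if x (i - 1) = b then b else x (i - 2) := by
  have e : Rfb i b x (i - 1) = maj3 (Mb (Function.update x i b) (i - 1 - 1))
    (Mb (Function.update x i b) (i - 1)) (Mb (Function.update x i b) (i - 1 + 1)) := rfl
  rw [e, show i - 1 + 1 = i by ring, show i - 1 - 1 = i - 2 by ring, Mb_update_self,
    Mb_update_left, Mb_update_of_ne h b (by omega) (by omega) (by omega)]
  have h0 := h.nb i
  revert h0 hb
  cases x (i - 2) <;> cases x (i - 1) <;> cases x i <;> cases x (i + 1) <;>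
    cases b <;> simp [maj3]

/-- FLIP TABLE, right of the mark -/
lemma Rfb_right {x : ℤ → Bool} (h : Rtb x) {i : ℤ} {b : Bool} (hb : x i = !b) :
    Rfb i b x (i + 1) = if x (i + 1) = b then b else x (i + 2) := by
  have e : Rfb i b x (i + 1) = maj3 (Mb (Function.update x i b) (i + 1 - 1))
    (Mb (Function.update x i b) (i + 1)) (Mb (Function.update x i b) (i + 1 + 1)) := rfl
  rw [e, show i + 1 - 1 = i by ring, show i + 1 + 1 = i + 2 by ring, Mb_update_self,
    Mb_update_right, Mb_update_of_ne h b (by omega) (by omega) (by omega)]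
  have h0 := h.nb i
  revert h0 hb
  cases x (i - 1) <;> cases x i <;> cases x (i + 1) <;> cases x (i + 2) <;>
    cases b <;> simp [maj3]

/-- FLIP TABLE, elsewhere -/
lemma Rfb_far {x : ℤ → Bool} (h : Rtb x) {i : ℤ} (b : Bool) {k : ℤ} (hk : 2 ≤ |k - i|) :
    Rfb i b x k = x k := by
  have e : Rfb i b x k = maj3 (Mb (Function.update x i b) (k - 1))
    (Mb (Function.update x i b) k) (Mb (Function.update x i b) (k + 1)) := rfl
  have hk' : k ≤ i - 2 ∨ i + 2 ≤ k := by
    rcases abs_cases (k - i) with ⟨h1, _⟩ | ⟨h1, _⟩ <;> omega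
  rw [e, Mb_update_of_ne h b (k := k) (by omega) (by omega) (by omega)]
  rcases hk' with h1 | h1
  · rw [Mb_update_of_ne h b (k := k - 1) (by omega) (by omega) (by omega)]
    rcases eq_or_lt_of_le h1 with h2 | h2
    · subst h2
      rw [show i - 2 + 1 = i - 1 by ring, Mb_update_left]
      have h3 := h.nb (i - 2)
      rw [show i - 2 + 1 = i - 1 by ring] at h3
      revert h3
      cases x (i - 2 - 1) <;> cases x (i - 2) <;> cases x (i - 1) <;> cases b <;> simp [maj3]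
    · rw [Mb_update_of_ne h b (k := k + 1) (by omega) (by omega) (by omega)]
      exact h k
  · rw [Mb_update_of_ne h b (k := k + 1) (by omega) (by omega) (by omega)]
    rcases eq_or_lt_of_le h1 with h2 | h2
    · subst h2
      rw [show i + 2 - 1 = i + 1 by ring, Mb_update_right]
      have h3 := h.nb (i + 2)
      rw [show i + 2 - 1 = i + 1 by ring] at h3
      revert h3
      cases x (i + 2 + 1) <;> cases x (i + 2) <;> cases x (i + 1) <;> cases b <;> simp [maj3]
    · rw [Mb_update_of_ne h b (k := k - 1) (by omega) (by omega) (by omega)]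
      exact h k

lemma Rf_far {u : ℤ → Sy} (h : Rt u) {i : ℤ} (b : Bool) {k : ℤ} (hk : 2 ≤ |k - i|) :
    Rf i b u k = u k := by
  apply sy_ext
  · have := Rfb_far h.zero b hk (i := i)
    rw [← x0_Rf] at this
    exact this
  · have := Rfb_far h.one b hk (i := i)
    rw [← x1_Rf] at this
    exact this

/-- the result of a single mark is a root -/
lemma Rfb_root {x : ℤ → Bool} (h : Rtb x) (i : ℤ) (b : Bool) : Rtb (Rfb i b x) := by
  by_cases hb : x i = b
  · rw [Rfb_same h hb]; exact h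
  have hb' : x i = !b := by revert hb; cases x i <;> cases b <;> simp
  rw [rtb_iff]
  intro k
  have h0 := h.nb i
  by_cases h1 : 3 ≤ |k - i|
  · have h2 : k ≤ i - 3 ∨ i + 3 ≤ k := by
      rcases abs_cases (k - i) with ⟨h3, _⟩ | ⟨h3, _⟩ <;> omega
    rw [Rfb_far h b (k := k) (by omega), Rfb_far h b (k := k - 1), Rfb_far h b (k := k + 1)]
    · exact h.nb k
    · rcases abs_cases (k + 1 - i) with ⟨h3, _⟩ | ⟨h3, _⟩ <;> omega
    · rcases abs_cases (k - 1 - i) with ⟨h3, _⟩ | ⟨h3, _⟩ <;> omega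
  · have h2 : k = i - 2 ∨ k = i - 1 ∨ k = i ∨ k = i + 1 ∨ k = i + 2 := by
      rcases abs_cases (k - i) with ⟨h3, _⟩ | ⟨h3, _⟩ <;> omega
    have eL2 : Rfb i b x (i - 2) = x (i - 2) := Rfb_far h b (by
      rw [show i - 2 - i = -2 by ring]; norm_num)
    have eR2 : Rfb i b x (i + 2) = x (i + 2) := Rfb_far h b (by
      rw [show i + 2 - i = 2 by ring]; norm_num)
    have eL3 : Rfb i b x (i - 3) = x (i - 3) := Rfb_far h b (by
      rw [show i - 3 - i = -3 by ring]; norm_num)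
    have eR3 : Rfb i b x (i + 3) = x (i + 3) := Rfb_far h b (by
      rw [show i + 3 - i = 3 by ring]; norm_num)
    have hL := h.nb (i - 2)
    have hR := h.nb (i + 2)
    have e1 : i - 2 - 1 = i - 3 := by ring
    have e2 : i - 2 + 1 = i - 1 := by ring
    have e3 : i + 2 - 1 = i + 1 := by ring
    have e4 : i + 2 + 1 = i + 3 := by ring
    have e5 : i - 1 - 1 = i - 2 := by ring
    have e6 : i - 1 + 1 = i := by ring
    have e7 : i + 1 - 1 = i := by ring
    have e8 : i + 1 + 1 = i + 2 := by ring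
    have eS := Rfb_self h hb'
    have eL := Rfb_left h hb'
    have eR := Rfb_right h hb'
    rw [e1, e2] at hL
    rw [e3, e4] at hR
    rcases h2 with h2 | h2 | h2 | h2 | h2
    · rw [h2, e1, e2, eL2, eL3, eL]
      revert hL
      cases x (i - 3) <;> cases x (i - 2) <;> cases x (i - 1) <;> cases b <;> simp
    · rw [h2, e5, e6, eL2, eL, eS]
      cases x (i - 2) <;> cases x (i - 1) <;> cases b <;> simp
    · rw [h2, eL, eS, eR]
      cases x (i - 2) <;> cases x (i - 1) <;> cases x (i + 1) <;> cases x (i + 2) <;> cases b <;>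
        simp [maj3]
    · rw [h2, e7, e8, eR2, eR, eS]
      cases x (i + 2) <;> cases x (i + 1) <;> cases b <;> simp
    · rw [h2, e3, e4, eR2, eR3, eR]
      revert hR
      cases x (i + 3) <;> cases x (i + 2) <;> cases x (i + 1) <;> cases b <;> simp

lemma Rf_root {u : ℤ → Sy} (h : Rt u) (i : ℤ) (b : Bool) : Rt (Rf i b u) := by
  rw [rt_iff, x1_Rf, x0_Rf]
  exact ⟨Rfb_root h.one i b, Rfb_root h.zero i b⟩

/-! ### Supports -/

lemma Sup.mono {n n' : ℕ} {u : ℤ → Sy} (h : Sup n u) (hn : n ≤ n') : Sup n' u :=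
  fun i hi => h i (by omega)

lemma Sup.M {n : ℕ} {u : ℤ → Sy} (h : Sup n u) : Sup n (M u) := by
  intro i hi
  have hi' : i < -(n : ℤ) ∨ (n : ℤ) < i := by
    rcases abs_cases i with ⟨h1, _⟩ | ⟨h1, _⟩ <;> omega
  unfold Pool.Agent.T3M.M
  rw [h i hi]
  rcases hi' with h1 | h1
  · rw [h (i - 1) (by rcases abs_cases (i - 1) with ⟨h2, _⟩ | ⟨h2, _⟩ <;> omega)]
    cases u (i + 1) <;> rfl
  · rw [h (i + 1) (by rcases abs_cases (i + 1) with ⟨h2, _⟩ | ⟨h2, _⟩ <;> omega)]
    cases u (i - 1) <;> rfl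

lemma Sup.Rf {n : ℕ} {u : ℤ → Sy} (h : Sup n u) {i : ℤ} (hi : |i| ≤ n) (b : Bool) :
    Sup n (Rf i b u) := by
  unfold Pool.Agent.T3M.Rf
  apply Sup.M
  apply Sup.M
  intro k hk
  rw [Function.update_of_ne (by rintro rfl; omega)]
  exact h k hk

/-- far marks have no effect -/
lemma Rf_out {n : ℕ} {u : ℤ → Sy} (hr : Rt u) (h : Sup n u) {i : ℤ} (hi : (n : ℤ) + 2 < |i|)
    (b : Bool) : Rf i b u = u := by
  have hz : ∀ k : ℤ, |k - i| ≤ 2 → u k = .z := by
    intro k hk
    apply h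
    rcases abs_cases i with ⟨h1, _⟩ | ⟨h1, _⟩ <;> rcases abs_cases k with ⟨h2, _⟩ | ⟨h2, _⟩ <;>
      rcases abs_cases (k - i) with ⟨h3, _⟩ | ⟨h3, _⟩ <;> omega
  cases b
  · exact Rf_same hr (hz i (by simp))
  · have key : ∀ x : ℤ → Bool, Rtb x → (∀ k : ℤ, |k - i| ≤ 2 → x k = false) →
        Rfb i true x = x := by
      intro x hx h0
      have a0 := h0 i (by simp)
      have a1 := h0 (i - 1) (by rw [show i - 1 - i = -1 by ring]; norm_num)
      have a2 := h0 (i + 1) (by rw [show i + 1 - i = 1 by ring]; norm_num)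
      have a3 := h0 (i - 2) (by rw [show i - 2 - i = -2 by ring]; norm_num)
      have a4 := h0 (i + 2) (by rw [show i + 2 - i = 2 by ring]; norm_num)
      funext k
      by_cases hk : 2 ≤ |k - i|
      · exact Rfb_far hx true hk
      · have hk2 : k = i - 1 ∨ k = i ∨ k = i + 1 := by
          rcases abs_cases (k - i) with ⟨h3, _⟩ | ⟨h3, _⟩ <;> omega
        rcases hk2 with h2 | h2 | h2
        · rw [h2, Rfb_left hx (by rw [a0]; rfl), a1, a3]; simp
        · rw [h2, Rfb_self hx (by rw [a0]; rfl), a1, a2, a3, a4, a0]; simp [maj3]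
        · rw [h2, Rfb_right hx (by rw [a0]; rfl), a2, a4]; simp
    apply ext_x
    · rw [x0_Rf]
      exact key _ hr.zero fun k hk => by unfold x0; rw [hz k hk]; rfl
    · rw [x1_Rf]
      exact key _ hr.one fun k hk => by unfold x1; rw [hz k hk]; rfl

/-! ### The functionals as finite sums -/

lemma st_out {n : ℕ} {u : ℤ → Sy} (h : Sup n u) {i : ℤ} (hi : (n : ℤ) < |i|) : st u i = 0 := by
  unfold st
  rw [h i hi]
  exact ind_false (by simp)

lemma nst_eq {n : ℕ} {u : ℤ → Sy} (h : Sup n u) :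
    nst u = ∑ i ∈ Finset.Icc (-(n : ℤ)) (n : ℤ), st u i := fs_eq n fun _ hi => st_out h hi

lemma SE_out {n : ℕ} {u : ℤ → Sy} (h : Sup n u) {i : ℤ} (hi : ((n + 1 : ℕ) : ℤ) < |i|) :
    ind (SE u i) = 0 := by
  apply ind_false
  unfold SE
  push_cast at hi
  rw [h i (by omega), h (i + 1) (by
    rcases abs_cases i with ⟨h1, _⟩ | ⟨h1, _⟩ <;>
      rcases abs_cases (i + 1) with ⟨h2, _⟩ | ⟨h2, _⟩ <;> omega)]
  simp

lemma Bn_eq {n : ℕ} {u : ℤ → Sy} (h : Sup n u) :
    Bn u = ∑ i ∈ Finset.Icc (-((n + 1 : ℕ) : ℤ)) ((n + 1 : ℕ) : ℤ), ind (SE u i) :=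
  fs_eq (n + 1) fun _ hi => SE_out h hi

lemma nst_nonneg (u : ℤ → Sy) : 0 ≤ nst u := fs_nonneg fun _ => ind_nonneg _

lemma Bn_nonneg (u : ℤ → Sy) : 0 ≤ Bn u := fs_nonneg fun _ => ind_nonneg _

lemma kl_nonneg (u : ℤ → Sy) : 0 ≤ kl u := fs_nonneg fun _ => ind_nonneg _

lemma f3_nonneg (u : ℤ → Sy) : 0 ≤ f3 u := fs_nonneg fun _ => ind_nonneg _

/-- the generator as a finite sum -/
lemma Lg_eq {n : ℕ} {u : ℤ → Sy} (hr : Rt u) (h : Sup n u) (F : (ℤ → Sy) → ℝ) :
    Lg F u = ∑ i ∈ Finset.Icc (-((n + 2 : ℕ) : ℤ)) ((n + 2 : ℕ) : ℤ),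
      ((F (Rf i false u) - F u) + (F (Rf i true u) - F u)) := by
  unfold Lg
  refine fs_eq (n + 2) fun i hi => ?_
  push_cast at hi
  rw [Rf_out hr h hi, Rf_out hr h hi]
  ring

lemma Lb_eq {n : ℕ} {u : ℤ → Sy} (hr : Rt u) (h : Sup n u) (b : Bool) (F : (ℤ → Sy) → ℝ) :
    Lb b F u = ∑ i ∈ Finset.Icc (-((n + 2 : ℕ) : ℤ)) ((n + 2 : ℕ) : ℤ), (F (Rf i b u) - F u) := by
  unfold Lb
  refine fs_eq (n + 2) fun i hi => ?_
  push_cast at hi
  rw [Rf_out hr h hi]
  ring

lemma Lg_add {n : ℕ} {u : ℤ → Sy} (hr : Rt u) (h : Sup n u) (F : (ℤ → Sy) → ℝ) :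
    Lg F u = Lb false F u + Lb true F u := by
  rw [Lg_eq hr h, Lb_eq hr h, Lb_eq hr h, ← Finset.sum_add_distrib]

/-! ### Reflection -/

lemma rev_rev (u : ℤ → Sy) : rev (rev u) = u := by
  funext i
  unfold rev
  rw [neg_neg]

lemma M_rev (u : ℤ → Sy) : M (rev u) = rev (M u) := by
  funext i
  show med (u (-(i - 1))) (u (-i)) (u (-(i + 1))) = med (u (-i - 1)) (u (-i)) (u (-i + 1))
  rw [show -(i - 1) = -i + 1 by ring, show -(i + 1) = -i - 1 by ring]
  generalize u (-i + 1) = a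
  generalize u (-i) = b
  generalize u (-i - 1) = c
  cases a <;> cases b <;> cases c <;> rfl

lemma update_rev (u : ℤ → Sy) (i : ℤ) (a : Sy) :
    Function.update (rev u) i a = rev (Function.update u (-i) a) := by
  funext k
  unfold rev
  by_cases h : k = i
  · subst h; simp
  · rw [Function.update_of_ne h, Function.update_of_ne (by omega)]

lemma Rf_rev (u : ℤ → Sy) (i : ℤ) (b : Bool) : Rf i b (rev u) = rev (Rf (-i) b u) := by
  unfold Rf
  rw [update_rev, M_rev, M_rev]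

lemma Rt.rev {u : ℤ → Sy} (h : Rt u) : Rt (rev u) := by
  intro i
  rw [M_rev, h.M_eq]

lemma Sup.rev {n : ℕ} {u : ℤ → Sy} (h : Sup n u) : Sup n (rev u) := by
  intro i hi
  unfold Pool.Agent.T3M.rev
  exact h _ (by rw [abs_neg]; exact hi)

lemma Lg_rev (F : (ℤ → Sy) → ℝ) (u : ℤ → Sy) : Lg F (rev u) = Lg (fun v => F (rev v)) u := by
  unfold Lg
  rw [← fs_neg]
  refine finsum_congr fun i => ?_
  rw [Rf_rev, Rf_rev, neg_neg]

lemma nst_rev (u : ℤ → Sy) : nst (rev u) = nst u := by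
  unfold nst
  rw [← fs_neg]
  refine finsum_congr fun i => ?_
  unfold st rev
  rw [neg_neg]

lemma Bn_rev (u : ℤ → Sy) : Bn (rev u) = Bn u := by
  unfold Bn
  rw [← fs_neg, ← fs_shift _ 1]
  refine finsum_congr fun i => ?_
  apply ind_congr
  unfold SE rev
  rw [show -(-(i + 1)) = i + 1 by ring, show -(-(i + 1) + 1) = i by ring]
  tauto

end Pool.Agent.T3M
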