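import Mathlib
import Pool.Agent.T3M.Defs
import Pool.Agent.Helper55.Vote.Defs

/-! The finite noisy system, product expectations, good noise (helper91). -/

set_option autoImplicit false

namespace Pool.Agent.T3M

open Pool.Agent.Helper55.Vote

/-- the neighbourhood -/
def N1 : Finset ℤ := {-1, 0, 1}

/-- noise fields: `w t i` is used in the step from time `t` to time `t + 1` at the site `i` -/
abbrev Nz := ℕ → ℤ → Option Bool

/-- one noisy step -/
def stp (v : ℤ → Option Bool) (u : ℤ → Sy) (i : ℤ) : Sy :=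
  match v i with
  | none => M u i
  | some b => bs b

/-- the pair process started from stars on `[-L, L]` and `z` elsewhere -/
def cf (L : ℕ) (w : Nz) : ℕ → ℤ → Sy
  | 0 => fun i => if |i| ≤ (L : ℤ) then .s else .z
  | t + 1 => stp (w t) (cf L w t)

/-- relaxation: `n` noiseless steps -/
def rel (n : ℕ) (u : ℤ → Sy) : ℤ → Sy := M^[n] u

/-- weight of one noise variable -/
noncomputable def wt (e d : ℝ) : Option Bool → ℝ
  | none => 1 - e - d
  | some false => e
  | some true => d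

/-- noise field from finitely many noise variables -/
noncomputable def ext (J : Finset (ℕ × ℤ)) (η : J → Option Bool) : Nz := by
  classical exact fun t i => if h : (t, i) ∈ J then η ⟨(t, i), h⟩ else none

/-- expectation over independent noise variables at the places of `J`, with the rates
`p c * e` (mark `false`) and `p c * d` (mark `true`) at the place `c` -/
noncomputable def Ex (J : Finset (ℕ × ℤ)) (e d : ℝ) (p : ℕ × ℤ → ℝ) (f : Nz → ℝ) : ℝ := by
  classical exact ∑ η : J → Option Bool, (∏ c : J, wt (p c * e) (p c * d) (η c)) * f (ext J η)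

/-- the noise places -/
noncomputable def JJ (T A : ℕ) : Finset (ℕ × ℤ) :=
  Finset.range T ×ˢ Finset.Icc (-(A : ℤ)) (A : ℤ)

/-- the hybrid law: full rates before the slice `t`, the fraction `r` of them in the slice `t`,
no noise afterwards -/
noncomputable def hyb (t : ℕ) (r : ℝ) (c : ℕ × ℤ) : ℝ :=
  if c.1 < t then 1 else if c.1 = t then r else 0

/-- `f` depends only on the noise at the places of `X` -/
def Dep (X : Set (ℕ × ℤ)) (f : Nz → ℝ) : Prop :=
  ∀ w w' : Nz, (∀ c ∈ X, w c.1 c.2 = w' c.1 c.2) → f w = f w'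

/-- set the noise at one place -/
def sw (w : Nz) (t : ℕ) (i : ℤ) (v : Option Bool) : Nz :=
  Function.update w t (Function.update (w t) i v)

/-- the places of marks of `w` in the box of radius `W` around `i` and the slices `[t - H, t)` -/
def box (t : ℕ) (i : ℤ) (W H : ℕ) : Set (ℕ × ℤ) := {c | c.1 < t ∧ t ≤ c.1 + H ∧ |c.2 - i| ≤ (W : ℤ)}

/-- every box of radius `W` and height `H` contains fewer than `k` marks -/
def GoodB (k W H : ℕ) (w : Nz) : Prop :=
  ∀ (t : ℕ) (i : ℤ) (S : Finset (ℕ × ℤ)),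
    (∀ c ∈ S, c ∈ box t i W H ∧ w c.1 c.2 ≠ none) → S.card < k

/-- height and radius of the boxes -/
def HH (k : ℕ) : ℕ := k * (4 * k + 1)

def WW (k : ℕ) : ℕ := HH k + 4 * k

/-- good noise: fewer than `m` marks in every box of the size which belongs to `m + 1` -/
def Good (m : ℕ) (w : Nz) : Prop := GoodB m (WW (m + 1)) (HH (m + 1)) w

/-- the relaxation time for good noise -/
def KK (m : ℕ) : ℕ := 2 * m + 2

/-- the law with full rates -/
noncomputable def pone : ℕ × ℤ → ℝ := fun _ => 1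

/-- parameters of the finite system: rates `e ≤ d`, horizon `T`, noise in `[-A, A]`, initial stars
in `[-L, L]`, number `n` of relaxation steps -/
structure Par where
  (e d : ℝ)
  (T A L n : ℕ)
  (he : 0 < e)
  (hed : e ≤ d)
  (hd : d ≤ 1 / 4)
  (hT : 1 ≤ T)
  (hA : L + 20 * T + 100 ≤ A)
  (hn : A + 2 ≤ n)

/-- the relaxed configuration at time `t` -/
noncomputable def Par.W (P : Par) (w : Nz) (t : ℕ) : ℤ → Sy := rel P.n (cf P.L w t)

/-- expectation of a functional of the relaxed configuration at time `t` -/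
noncomputable def Par.EF (P : Par) (F : (ℤ → Sy) → ℝ) (t : ℕ) : ℝ :=
  Ex (JJ P.T P.A) P.e P.d pone fun w => F (P.W w t)

/-- expected number of stars, expected number of star edges of the relaxed configuration -/
noncomputable def Par.Q (P : Par) (t : ℕ) : ℝ := Ex (JJ P.T P.A) P.e P.d pone fun w => nst (cf P.L w t)

noncomputable def Par.bc (P : Par) (t : ℕ) : ℝ := Ex (JJ P.T P.A) P.e P.d pone fun w => Bn (cf P.L w t)

noncomputable def Par.b (P : Par) (t : ℕ) : ℝ := P.EF Bn t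

/-- average over the fraction `r` of the noise in the slice `t` of a functional of the relaxed
configuration at time `t + 1` -/
noncomputable def Par.AV (P : Par) (F : (ℤ → Sy) → ℝ) (t : ℕ) : ℝ :=
  ∫ r in (0 : ℝ)..1, Ex (JJ P.T P.A) P.e P.d (hyb t r) fun w => F (P.W w (t + 1))

/-- the drift of `F`: marks `false` have the rate `e`, marks `true` the rate `d` -/
noncomputable def Par.dr (P : Par) (F : (ℤ → Sy) → ℝ) (t : ℕ) : ℝ :=
  P.d * P.AV (Lg F) t - (P.d - P.e) * P.AV (Lb false F) t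

/-- the rate of the marks `b` -/
noncomputable def Par.rt (P : Par) (b : Bool) : ℝ := if b then P.d else P.e

/-- there is a mark near `(t, i)` (possibly at `(t, i)`) -/
def Dty (m t : ℕ) (i : ℤ) (w : Nz) : Prop :=
  ∃ (s : ℕ) (j : ℤ), t ≤ s + KK m ∧ s ≤ t ∧ |j - i| ≤ 3 * (KK m : ℤ) ∧ w s j ≠ none

/-- there are two marks in a bigger box -/
def Two (m t : ℕ) (i : ℤ) (w : Nz) : Prop :=
  ∃ (s s' : ℕ) (j j' : ℤ), (s, j) ≠ (s', j') ∧ t ≤ s + 2 * KK m ∧ s ≤ t ∧ |j - i| ≤ 12 * (KK m : ℤ) ∧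
    t ≤ s' + 2 * KK m ∧ s' ≤ t ∧ |j' - i| ≤ 12 * (KK m : ℤ) ∧ w s j ≠ none ∧ w s' j' ≠ none

/-- a star edge near `i` at time `t - K` -/
def SEn (L m t : ℕ) (i : ℤ) (w : Nz) : Prop :=
  ∃ k : ℤ, |k - i| ≤ 8 * (KK m : ℤ) ∧ SE (cf L w (t - KK m)) k

/-- a star near `i` at time `t - 2 K` -/
def Stn (L m t : ℕ) (i : ℤ) (w : Nz) : Prop :=
  ∃ k : ℤ, |k - i| ≤ 12 * (KK m : ℤ) ∧ cf L w (t - 2 * KK m) k = .s

/-- no star near `i` at time `t - K` -/
def NoS (L m t : ℕ) (i : ℤ) (w : Nz) : Prop :=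
  ∀ k : ℤ, |k - i| ≤ 8 * (KK m : ℤ) → cf L w (t - KK m) k ≠ .s

/-- nucleation: the mark `b` at `(t, y)` is the only mark near `(t, i)`, all sites near `i` are
stars at time `t - K` -/
def NU (L m t : ℕ) (i y : ℤ) (b : Bool) (w : Nz) : Prop :=
  w t y = some b ∧
    (∀ (s : ℕ) (j : ℤ), t ≤ s + 2 * KK m → s ≤ t → |j - i| ≤ 12 * (KK m : ℤ) → (s, j) ≠ (t, y) →
      w s j = none) ∧
    ∀ k : ℤ, |k - i| ≤ 8 * (KK m : ℤ) → cf L w (t - KK m) k = .s

/-- discounted distance to the next star on the left -/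
noncomputable def Gd (D : ℕ) (u : ℤ → Sy) (i : ℤ) : ℝ := ind (dl u i ≠ 0) * th D ^ dl u i

/-- the contribution of the nucleations -/
noncomputable def Par.NUC (P : Par) (m : ℕ) (ν : (ℤ → Sy) → ℤ → ℝ) (t : ℕ) : ℝ :=
  ∫ r in (0 : ℝ)..1, ∑ i ∈ Finset.Icc (-(P.A : ℤ)) (P.A : ℤ),
    (P.e * (Ex (JJ P.T P.A) P.e P.d (hyb t r) (fun w => ind (NU P.L m t i (i - 1) false w) *
        ν (P.W w (t + 1)) i) + Ex (JJ P.T P.A) P.e P.d (hyb t r) (fun w =>
          ind (NU P.L m t i (i + 1) false w) * ν (P.W w (t + 1)) i)) +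
      P.d * (Ex (JJ P.T P.A) P.e P.d (hyb t r) (fun w => ind (NU P.L m t i (i - 1) true w) *
        ν (P.W w (t + 1)) i) + Ex (JJ P.T P.A) P.e P.d (hyb t r) (fun w =>
          ind (NU P.L m t i (i + 1) true w) * ν (P.W w (t + 1)) i)))

/-- what the drift inequality uses about a functional `F`: influence `c` in general, influence
`c' * Gd` where there are no stars, and at most `ν` for the nucleation of a hole of length two -/
structure Infl (m : ℕ) (F : (ℤ → Sy) → ℝ) (c c' : ℝ) (D : ℕ) (ν : (ℤ → Sy) → ℤ → ℝ) : Prop where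
  gen : ∀ (u u' : ℤ → Sy) (N : ℕ) (i : ℤ), Rt u → Rt u' → Sup N u → Sup N u' →
    (∀ k : ℤ, (KK m : ℤ) < |k - i| → u k = u' k) → |F u - F u'| ≤ c
  nost : ∀ (u u' : ℤ → Sy) (N : ℕ) (i : ℤ), Rt u → Rt u' → Sup N u → Sup N u' →
    (∀ k : ℤ, (KK m : ℤ) < |k - i| → u k = u' k) →
    (∀ k : ℤ, |k - i| ≤ KK m + 2 → u k ≠ .s ∧ u' k ≠ .s) → |F u - F u'| ≤ c' * Gd D u i
  nuc : ∀ (u : ℤ → Sy) (N : ℕ) (i y : ℤ) (b : Bool), Rt u → Sup N u → |y - i| = 1 →
    (∀ k : ℤ, |k - i| ≤ KK m → u k = .s) →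
    F (Function.update (Function.update u i (bs b)) y (bs b)) - F u ≤ ν u i

/-- bound for the contribution of noise which is not good -/
noncomputable def Par.bad (P : Par) (m : ℕ) : ℝ := P.T * (P.A : ℝ) ^ 7 * (2 * P.d) ^ m

end Pool.Agent.T3M
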