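import Mathlib
import Pool.Agent.T3M.Ba
import Pool.Agent.T3M.Proc

/-! Product expectations: linearity, monotonicity, independence, probabilities of marks, light
cones (helper91). -/

set_option autoImplicit false

namespace Pool.Agent.T3M

/-! ### Noise fields with finitely many places -/

lemma ext_mem {J : Finset (ℕ × ℤ)} (η : J → Option Bool) {c : ℕ × ℤ} (h : c ∈ J) :
    ext J η c.1 c.2 = η ⟨c, h⟩ := by
  unfold ext
  rw [dif_pos (show ((c.1, c.2) : ℕ × ℤ) ∈ J from h)]

lemma ext_out {J : Finset (ℕ × ℤ)} (η : J → Option Bool) {c : ℕ × ℤ} (h : c ∉ J) :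
    ext J η c.1 c.2 = none := by
  unfold ext
  rw [dif_neg (show ((c.1, c.2) : ℕ × ℤ) ∉ J from h)]

lemma nz_ext {w w' : Nz} (h : ∀ c : ℕ × ℤ, w c.1 c.2 = w' c.1 c.2) : w = w' := by
  funext t i
  exact h (t, i)

lemma sw_self (w : Nz) (t : ℕ) (i : ℤ) (v : Option Bool) : sw w t i v t i = v := by
  unfold sw
  rw [Function.update_self, Function.update_self]

lemma sw_of_ne (w : Nz) {t s : ℕ} {i j : ℤ} (v : Option Bool) (h : (s, j) ≠ (t, i)) :
    sw w t i v s j = w s j := by
  unfold sw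
  by_cases h1 : s = t
  · subst h1
    rw [Function.update_self, Function.update_of_ne]
    rintro rfl
    exact h rfl
  · rw [Function.update_of_ne h1]

lemma sw_eq_self (w : Nz) (t : ℕ) (i : ℤ) : sw w t i (w t i) = w := by
  unfold sw
  rw [Function.update_eq_self, Function.update_eq_self]

lemma sw_sw (w : Nz) (t : ℕ) (i : ℤ) (v v' : Option Bool) : sw (sw w t i v) t i v' = sw w t i v' := by
  unfold sw
  rw [Function.update_self, Function.update_idem, Function.update_idem]

/-- weights written with the noise field -/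
lemma Ex_eq (J : Finset (ℕ × ℤ)) (e d : ℝ) (p : ℕ × ℤ → ℝ) (f : Nz → ℝ) :
    Ex J e d p f = ∑ η : J → Option Bool,
      (∏ c ∈ J, wt (p c * e) (p c * d) (ext J η c.1 c.2)) * f (ext J η) := by
  unfold Ex
  refine Finset.sum_congr rfl fun η _ => ?_
  congr 1
  rw [← Finset.prod_coe_sort J fun c => wt (p c * e) (p c * d) (ext J η c.1 c.2)]
  refine Finset.prod_congr rfl fun c _ => ?_
  rw [ext_mem η c.2]

lemma wt_sum (e d : ℝ) : ∑ v : Option Bool, wt e d v = 1 := by
  rw [Fintype.sum_option, Fintype.sum_bool]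
  simp only [wt]
  ring

lemma wt_sum_mul (e d x : ℝ) : ∑ v : Option Bool, wt e d v * x = x := by
  rw [← Finset.sum_mul, wt_sum, one_mul]

lemma wt_nonneg {e d : ℝ} (he : 0 ≤ e) (hd : 0 ≤ d) (h : e + d ≤ 1) (v : Option Bool) :
    0 ≤ wt e d v := by
  rcases v with _ | v
  · simp only [wt]; linarith
  · cases v
    · exact he
    · exact hd

lemma Ex_empty (e d : ℝ) (p : ℕ × ℤ → ℝ) (f : Nz → ℝ) :
    Ex ∅ e d p f = f (fun _ _ => none) := by
  rw [Ex_eq]
  have h : ∀ η : (∅ : Finset (ℕ × ℤ)) → Option Bool, ext ∅ η = fun _ _ => none := by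
    intro η
    exact nz_ext fun c => ext_out η (Finset.notMem_empty c)
  simp only [h, Finset.prod_empty, one_mul]
  rw [Finset.sum_const, Finset.card_univ, Fintype.card_pi]
  simp

/-- conditioning on one place -/
lemma Ex_insert {J : Finset (ℕ × ℤ)} {c : ℕ × ℤ} (hc : c ∉ J) (e d : ℝ) (p : ℕ × ℤ → ℝ)
    (f : Nz → ℝ) : Ex (insert c J) e d p f =
      ∑ v : Option Bool, wt (p c * e) (p c * d) v * Ex J e d p (fun w => f (sw w c.1 c.2 v)) := by
  classical
  rw [Ex_eq]
  let E : ((x : {x // x ∈ insert c J}) → Option Bool) ≃ Option Bool × ((x : {x // x ∈ J}) → Option Bool) :=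
    { toFun := fun η => (η ⟨c, Finset.mem_insert_self c J⟩,
        fun x => η ⟨x.1, Finset.mem_insert_of_mem x.2⟩)
      invFun := fun q x => if h : x.1 = c then q.1 else
        q.2 ⟨x.1, Finset.mem_of_mem_insert_of_ne x.2 h⟩
      left_inv := by
        intro η
        funext x
        by_cases h : x.1 = c
        · have hx : x = ⟨c, Finset.mem_insert_self c J⟩ := Subtype.ext h
          simp only [h, dite_true]
          rw [hx]
        · simp only [h, dite_false]
      right_inv := by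
        rintro ⟨v, η⟩
        ext1
        · simp
        · funext x
          have h : x.1 ≠ c := fun h => hc (h ▸ x.2)
          simp only [h, dite_false] }
  have key : ∀ (v : Option Bool) (η : J → Option Bool),
      ext (insert c J) (E.symm (v, η)) = sw (ext J η) c.1 c.2 v := by
    intro v η
    refine nz_ext fun c' => ?_
    by_cases h : c' = c
    · subst h
      rw [ext_mem _ (Finset.mem_insert_self c' J), sw_self]
      show (if h : c' = c' then v else _) = v
      rw [dif_pos rfl]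
    · rw [sw_of_ne _ v (s := c'.1) (j := c'.2) h]
      by_cases h2 : c' ∈ J
      · rw [ext_mem _ (Finset.mem_insert_of_mem h2), ext_mem _ h2]
        show (if h : c' = c then v else _) = _
        rw [dif_neg h]
      · rw [ext_out _ h2, ext_out]
        intro h3
        exact h2 (Finset.mem_of_mem_insert_of_ne h3 h)
  rw [← E.symm.sum_comp, Fintype.sum_prod_type]
  refine Finset.sum_congr rfl fun v _ => ?_
  rw [Ex_eq, Finset.mul_sum]
  refine Finset.sum_congr rfl fun η _ => ?_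
  rw [key, Finset.prod_insert hc, sw_self]
  have hprod : ∏ c' ∈ J, wt (p c' * e) (p c' * d) (sw (ext J η) c.1 c.2 v c'.1 c'.2) =
      ∏ c' ∈ J, wt (p c' * e) (p c' * d) (ext J η c'.1 c'.2) := by
    refine Finset.prod_congr rfl fun c' hc' => ?_
    rw [sw_of_ne]
    intro h
    exact hc (show c ∈ J from (show c' = c from h) ▸ hc')
  rw [hprod]
  ring

/-! ### Linearity, monotonicity -/

/-- supported noise -/
def SupJ (J : Finset (ℕ × ℤ)) (w : Nz) : Prop := ∀ c : ℕ × ℤ, c ∉ J → w c.1 c.2 = none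

lemma supJ_ext {J : Finset (ℕ × ℤ)} (η : J → Option Bool) : SupJ J (ext J η) :=
  fun _ h => ext_out η h

lemma Ex_congr {J : Finset (ℕ × ℤ)} {e d : ℝ} {p : ℕ × ℤ → ℝ} {f g : Nz → ℝ}
    (h : ∀ w, SupJ J w → f w = g w) : Ex J e d p f = Ex J e d p g := by
  unfold Ex
  exact Finset.sum_congr rfl fun η _ => by rw [h _ (supJ_ext η)]

lemma Ex_mono {J : Finset (ℕ × ℤ)} {e d : ℝ} {p : ℕ × ℤ → ℝ} {f g : Nz → ℝ} (he : 0 ≤ e)
    (hd : 0 ≤ d) (hed : e + d ≤ 1) (hp : ∀ c, 0 ≤ p c ∧ p c ≤ 1)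
    (h : ∀ w, SupJ J w → f w ≤ g w) : Ex J e d p f ≤ Ex J e d p g := by
  unfold Ex
  refine Finset.sum_le_sum fun η _ => mul_le_mul_of_nonneg_left (h _ (supJ_ext η)) ?_
  refine Finset.prod_nonneg fun c _ => wt_nonneg (mul_nonneg (hp _).1 he) (mul_nonneg (hp _).1 hd) ?_ _
  rw [← mul_add]
  nlinarith [(hp c).1, (hp c).2, add_nonneg he hd]

lemma Ex_add (J : Finset (ℕ × ℤ)) (e d : ℝ) (p : ℕ × ℤ → ℝ) (f g : Nz → ℝ) :
    Ex J e d p (fun w => f w + g w) = Ex J e d p f + Ex J e d p g := by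
  unfold Ex
  rw [← Finset.sum_add_distrib]
  exact Finset.sum_congr rfl fun η _ => by ring

lemma Ex_smul (J : Finset (ℕ × ℤ)) (e d : ℝ) (p : ℕ × ℤ → ℝ) (c : ℝ) (f : Nz → ℝ) :
    Ex J e d p (fun w => c * f w) = c * Ex J e d p f := by
  unfold Ex
  rw [Finset.mul_sum]
  exact Finset.sum_congr rfl fun η _ => by ring

lemma Ex_neg (J : Finset (ℕ × ℤ)) (e d : ℝ) (p : ℕ × ℤ → ℝ) (f : Nz → ℝ) :
    Ex J e d p (fun w => - f w) = - Ex J e d p f := by
  have := Ex_smul J e d p (-1) f
  simpa using this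

lemma Ex_sub (J : Finset (ℕ × ℤ)) (e d : ℝ) (p : ℕ × ℤ → ℝ) (f g : Nz → ℝ) :
    Ex J e d p (fun w => f w - g w) = Ex J e d p f - Ex J e d p g := by
  have h1 := Ex_add J e d p f (fun w => - g w)
  rw [Ex_neg] at h1
  rw [sub_eq_add_neg, ← h1]
  exact Ex_congr fun w _ => by ring

lemma Ex_const (J : Finset (ℕ × ℤ)) (e d : ℝ) (p : ℕ × ℤ → ℝ) (x : ℝ) :
    Ex J e d p (fun _ => x) = x := by
  classical
  induction J using Finset.induction_on with
  | empty => rw [Ex_empty]
  | insert c J hc ih => rw [Ex_insert hc]; simp only [ih]; exact wt_sum_mul _ _ _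

lemma Ex_sum {ι : Type*} (J : Finset (ℕ × ℤ)) (e d : ℝ) (p : ℕ × ℤ → ℝ) (s : Finset ι)
    (f : ι → Nz → ℝ) :
    Ex J e d p (fun w => ∑ k ∈ s, f k w) = ∑ k ∈ s, Ex J e d p (f k) := by
  classical
  induction s using Finset.induction_on with
  | empty => simp only [Finset.sum_empty]; exact Ex_const J e d p 0
  | insert k s hk ih =>
    rw [Finset.sum_insert hk, ← ih, ← Ex_add]
    exact Ex_congr fun w _ => Finset.sum_insert hk

lemma Ex_nonneg {J : Finset (ℕ × ℤ)} {e d : ℝ} {p : ℕ × ℤ → ℝ} {f : Nz → ℝ} (he : 0 ≤ e)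
    (hd : 0 ≤ d) (hed : e + d ≤ 1) (hp : ∀ c, 0 ≤ p c ∧ p c ≤ 1)
    (h : ∀ w, SupJ J w → 0 ≤ f w) : 0 ≤ Ex J e d p f := by
  rw [← Ex_const J e d p 0]
  exact Ex_mono he hd hed hp h

/-! ### Dependence on few places, independence -/

lemma Dep.mono {X Y : Set (ℕ × ℤ)} {f : Nz → ℝ} (h : Dep X f) (hXY : X ⊆ Y) : Dep Y f :=
  fun w w' hw => h w w' fun c hc => hw c (hXY hc)

lemma Dep_const (X : Set (ℕ × ℤ)) (x : ℝ) : Dep X (fun _ => x) := fun _ _ _ => rfl

lemma Dep.mul {X : Set (ℕ × ℤ)} {f g : Nz → ℝ} (hf : Dep X f) (hg : Dep X g) :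
    Dep X (fun w => f w * g w) := fun w w' h => by
  show f w * g w = f w' * g w'
  rw [hf w w' h, hg w w' h]

lemma Dep.add {X : Set (ℕ × ℤ)} {f g : Nz → ℝ} (hf : Dep X f) (hg : Dep X g) :
    Dep X (fun w => f w + g w) := fun w w' h => by
  show f w + g w = f w' + g w'
  rw [hf w w' h, hg w w' h]

lemma Dep_ind {X : Set (ℕ × ℤ)} {A : Nz → Prop}
    (h : ∀ w w' : Nz, (∀ c ∈ X, w c.1 c.2 = w' c.1 c.2) → (A w ↔ A w')) :
    Dep X (fun w => ind (A w)) := fun w w' hw => ind_congr (h w w' hw)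

lemma Dep.sw {X : Set (ℕ × ℤ)} {f : Nz → ℝ} (h : Dep X f) {c : ℕ × ℤ} (hc : c ∉ X) (w : Nz)
    (v : Option Bool) : f (sw w c.1 c.2 v) = f w :=
  h _ _ fun c' hc' => sw_of_ne w v fun h2 => hc ((show c' = c from h2) ▸ hc')

/-- setting the noise at one place preserves dependence -/
lemma Dep.comp_sw {X : Set (ℕ × ℤ)} {f : Nz → ℝ} (h : Dep X f) (t : ℕ) (i : ℤ) (v : Option Bool) :
    Dep X (fun w => f (Pool.Agent.T3M.sw w t i v)) := by
  intro w w' hw
  refine h _ _ fun c hc => ?_
  by_cases h1 : (c.1, c.2) = (t, i)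
  · have h2 : c.1 = t := congrArg Prod.fst h1
    have h3 : c.2 = i := congrArg Prod.snd h1
    rw [h2, h3, sw_self, sw_self]
  · rw [sw_of_ne _ _ h1, sw_of_ne _ _ h1]
    exact hw c hc

/-- independence -/
lemma Ex_indep (J : Finset (ℕ × ℤ)) (e d : ℝ) (p : ℕ × ℤ → ℝ) {X Y : Set (ℕ × ℤ)}
    (hXY : Disjoint X Y) {f g : Nz → ℝ} (hf : Dep X f) (hg : Dep Y g) :
    Ex J e d p (fun w => f w * g w) = Ex J e d p f * Ex J e d p g := by
  classical
  induction J using Finset.induction_on generalizing f g with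
  | empty => rw [Ex_empty, Ex_empty, Ex_empty]
  | insert c J hc ih =>
    rw [Ex_insert hc, Ex_insert hc, Ex_insert hc]
    by_cases hX : c ∈ X
    · have hY : c ∉ Y := fun h => Set.disjoint_left.1 hXY hX h
      have e1 : ∀ v, Ex J e d p (fun w => f (sw w c.1 c.2 v) * g (sw w c.1 c.2 v)) =
          Ex J e d p (fun w => f (sw w c.1 c.2 v)) * Ex J e d p g := by
        intro v
        rw [← ih (hf.comp_sw c.1 c.2 v) hg]
        exact Ex_congr fun w _ => by rw [hg.sw hY]
      have e2 : ∀ v, Ex J e d p (fun w => g (sw w c.1 c.2 v)) = Ex J e d p g := by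
        intro v
        exact Ex_congr fun w _ => by rw [hg.sw hY]
      simp only [e1, e2]
      rw [wt_sum_mul, Finset.sum_mul]
      exact Finset.sum_congr rfl fun v _ => by ring
    · have e1 : ∀ v, Ex J e d p (fun w => f (sw w c.1 c.2 v) * g (sw w c.1 c.2 v)) =
          Ex J e d p f * Ex J e d p (fun w => g (sw w c.1 c.2 v)) := by
        intro v
        rw [← ih hf (hg.comp_sw c.1 c.2 v)]
        exact Ex_congr fun w _ => by rw [hf.sw hX]
      have e2 : ∀ v, Ex J e d p (fun w => f (sw w c.1 c.2 v)) = Ex J e d p f := by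
        intro v
        exact Ex_congr fun w _ => by rw [hf.sw hX]
      simp only [e1, e2]
      rw [wt_sum_mul, Finset.mul_sum]
      exact Finset.sum_congr rfl fun v _ => by ring

/-- only the rates at the places on which `f` depends matter -/
lemma Ex_rates (J : Finset (ℕ × ℤ)) (e d : ℝ) {p p' : ℕ × ℤ → ℝ} {X : Set (ℕ × ℤ)}
    (hp : ∀ c ∈ X, p c = p' c) {f : Nz → ℝ} (hf : Dep X f) :
    Ex J e d p f = Ex J e d p' f := by
  classical
  induction J using Finset.induction_on generalizing f with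
  | empty => rw [Ex_empty, Ex_empty]
  | insert c J hc ih =>
    rw [Ex_insert hc, Ex_insert hc]
    by_cases hX : c ∈ X
    · rw [hp c hX]
      exact Finset.sum_congr rfl fun v _ => by rw [ih (hf.comp_sw c.1 c.2 v)]
    · have e2 : ∀ (q : ℕ × ℤ → ℝ) v, Ex J e d q (fun w => f (sw w c.1 c.2 v)) = Ex J e d q f := by
        intro q v
        exact Ex_congr fun w _ => by rw [hf.sw hX]
      simp only [e2]
      rw [wt_sum_mul, wt_sum_mul, ih hf]

/-- the law at one place -/
lemma Ex_one {J : Finset (ℕ × ℤ)} (e d : ℝ) (p : ℕ × ℤ → ℝ) {c : ℕ × ℤ} (hc : c ∈ J)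
    (g : Option Bool → ℝ) :
    Ex J e d p (fun w => g (w c.1 c.2)) = ∑ v : Option Bool, wt (p c * e) (p c * d) v * g v := by
  classical
  rw [← Finset.insert_erase hc, Ex_insert (Finset.notMem_erase c J)]
  refine Finset.sum_congr rfl fun v _ => ?_
  congr 1
  rw [← Ex_const (J.erase c) e d p (g v)]
  exact Ex_congr fun w _ => by rw [sw_self]

/-- the noise at one place is independent of the other places -/
lemma Ex_cond {J : Finset (ℕ × ℤ)} (e d : ℝ) (p : ℕ × ℤ → ℝ) {c : ℕ × ℤ} (hc : c ∈ J)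
    (f : Nz → ℝ) : Ex J e d p f =
      ∑ v : Option Bool, wt (p c * e) (p c * d) v * Ex J e d p (fun w => f (sw w c.1 c.2 v)) := by
  classical
  have h1 := Ex_insert (Finset.notMem_erase c J) e d p f
  rw [Finset.insert_erase hc] at h1
  rw [h1]
  refine Finset.sum_congr rfl fun v _ => ?_
  congr 1
  have h2 := Ex_insert (Finset.notMem_erase c J) e d p (fun w => f (sw w c.1 c.2 v))
  rw [Finset.insert_erase hc] at h2
  rw [h2]
  simp only [sw_sw]
  rw [wt_sum_mul]

lemma Ex_mark {J : Finset (ℕ × ℤ)} (e d : ℝ) (p : ℕ × ℤ → ℝ) {c : ℕ × ℤ} (hc : c ∈ J) (b : Bool) :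
    Ex J e d p (fun w => ind (w c.1 c.2 = some b)) = p c * (if b then d else e) := by
  rw [Ex_one e d p hc fun v => ind (v = some b), Fintype.sum_option, Fintype.sum_bool]
  cases b
  · rw [ind_false (by simp), ind_false (by simp), ind_true rfl]
    simp [wt]
  · rw [ind_false (by simp), ind_true rfl, ind_false (by simp)]
    simp [wt]

lemma Ex_nomark {J : Finset (ℕ × ℤ)} (e d : ℝ) (p : ℕ × ℤ → ℝ) {c : ℕ × ℤ} (hc : c ∈ J) :
    Ex J e d p (fun w => ind (w c.1 c.2 = none)) = 1 - p c * (e + d) := by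
  rw [Ex_one e d p hc fun v => ind (v = none), Fintype.sum_option, Fintype.sum_bool]
  rw [ind_true rfl, ind_false (by simp), ind_false (by simp)]
  simp [wt]
  ring

/-- the probability of a mark -/
lemma Ex_mark_le (J : Finset (ℕ × ℤ)) {e d : ℝ} (p : ℕ × ℤ → ℝ) (c : ℕ × ℤ) (he : 0 ≤ e)
    (hed : e ≤ d) (hp : 0 ≤ p c ∧ p c ≤ 1) :
    Ex J e d p (fun w => ind (w c.1 c.2 ≠ none)) ≤ 2 * d := by
  by_cases hc : c ∈ J
  · have h1 := Ex_nomark e d p hc
    have h2 : Ex J e d p (fun w => ind (w c.1 c.2 ≠ none)) =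
        Ex J e d p (fun w => 1 - ind (w c.1 c.2 = none)) :=
      Ex_congr fun w _ => ind_not _
    rw [h2, Ex_sub, Ex_const, h1]
    nlinarith [hp.1, hp.2]
  · rw [Ex_congr (g := fun _ => (0 : ℝ)) fun w hw => ind_false (by rw [hw c hc]; simp), Ex_const]
    linarith

/-- union bound -/
lemma Ex_union {ι : Type*} (J : Finset (ℕ × ℤ)) {e d : ℝ} {p : ℕ × ℤ → ℝ} (he : 0 ≤ e)
    (hd : 0 ≤ d) (hed : e + d ≤ 1) (hp : ∀ c, 0 ≤ p c ∧ p c ≤ 1) (s : Finset ι)
    {A : Nz → Prop} {B : ι → Nz → Prop} (h : ∀ w, SupJ J w → A w → ∃ k ∈ s, B k w) :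
    Ex J e d p (fun w => ind (A w)) ≤ ∑ k ∈ s, Ex J e d p (fun w => ind (B k w)) := by
  rw [← Ex_sum]
  refine Ex_mono he hd hed hp fun w hw => ?_
  by_cases hA : A w
  · obtain ⟨k, hk, hB⟩ := h w hw hA
    rw [ind_true hA, ← ind_true hB]
    exact Finset.single_le_sum (f := fun k => ind (B k w)) (fun k _ => ind_nonneg _) hk
  · rw [ind_false hA]
    exact Finset.sum_nonneg fun k _ => ind_nonneg _

/-! ### Hybrid law -/

lemma hyb_mem (t : ℕ) {r : ℝ} (h0 : 0 ≤ r) (h1 : r ≤ 1) (c : ℕ × ℤ) :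
    0 ≤ hyb t r c ∧ hyb t r c ≤ 1 := by
  unfold hyb
  split_ifs
  · exact ⟨zero_le_one, le_rfl⟩
  · exact ⟨h0, h1⟩
  · exact ⟨le_rfl, zero_le_one⟩

lemma pone_mem (c : ℕ × ℤ) : 0 ≤ pone c ∧ pone c ≤ 1 := ⟨zero_le_one, le_rfl⟩

lemma Ex_cont (J : Finset (ℕ × ℤ)) (e d : ℝ) (t : ℕ) (f : Nz → ℝ) :
    Continuous fun r : ℝ => Ex J e d (hyb t r) f := by
  unfold Ex
  refine continuous_finsetSum _ fun η _ => Continuous.mul ?_ continuous_const
  refine continuous_finsetProd _ fun c _ => ?_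
  have h : Continuous fun r : ℝ => hyb t r c := by
    unfold hyb
    split_ifs
    · exact continuous_const
    · exact continuous_id
    · exact continuous_const
  generalize η c = v
  rcases v with _ | v
  · exact (continuous_const.sub (h.mul continuous_const)).sub (h.mul continuous_const)
  · cases v
    · exact h.mul continuous_const
    · exact h.mul continuous_const

/-! ### Light cones -/

/-- one step depends on the noise at the site and on the three neighbouring states -/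
lemma cf_succ (L : ℕ) (w : Nz) (t : ℕ) (i : ℤ) :
    cf L w (t + 1) i = match w t i with
      | none => med (cf L w t (i - 1)) (cf L w t i) (cf L w t (i + 1))
      | some b => bs b := rfl

/-- if the noises agree in the backward light cone, above the time `s`, and the states agree at the
time `s`, then the states at the tip agree -/
lemma cf_congr {L L' : ℕ} {w w' : Nz} {s t : ℕ} (hst : s ≤ t) {i : ℤ}
    (h0 : ∀ j : ℤ, |j - i| ≤ (t : ℤ) - s → cf L w s j = cf L' w' s j)
    (h : ∀ (a : ℕ) (j : ℤ), s ≤ a → a < t → |j - i| ≤ (t : ℤ) - 1 - a → w a j = w' a j) :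
    cf L w t i = cf L' w' t i := by
  induction t generalizing i with
  | zero =>
    have : s = 0 := by omega
    subst this
    exact h0 i (by simp)
  | succ t ih =>
    rcases Nat.lt_or_ge t s with h1 | h1
    · have : s = t + 1 := by omega
      subst this
      exact h0 i (by simp)
    · have key : ∀ k : ℤ, |k - i| ≤ 1 → cf L w t k = cf L' w' t k := by
        intro k hk
        apply ih h1
        · intro j hj
          apply h0
          push_cast
          rcases abs_cases (j - k) with ⟨h3, _⟩ | ⟨h3, _⟩ <;>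
            rcases abs_cases (k - i) with ⟨h4, _⟩ | ⟨h4, _⟩ <;>
            rcases abs_cases (j - i) with ⟨h5, _⟩ | ⟨h5, _⟩ <;> omega
        · intro a j ha hat hj
          apply h a j ha (by omega)
          push_cast
          rcases abs_cases (j - k) with ⟨h3, _⟩ | ⟨h3, _⟩ <;>
            rcases abs_cases (k - i) with ⟨h4, _⟩ | ⟨h4, _⟩ <;>
            rcases abs_cases (j - i) with ⟨h5, _⟩ | ⟨h5, _⟩ <;> omega
      rw [cf_succ, cf_succ, h t i h1 (by omega) (by simp)]
      rw [key (i - 1) (by rw [show i - 1 - i = -1 by ring]; norm_num), key i (by simp),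
        key (i + 1) (by rw [show i + 1 - i = 1 by ring]; norm_num)]

/-- `cf L w t i` depends on the slices before `t` -/
lemma cf_dep {L : ℕ} {w w' : Nz} {t : ℕ} (h : ∀ (a : ℕ) (j : ℤ), a < t → w a j = w' a j) :
    cf L w t = cf L w' t := by
  funext i
  exact cf_congr (Nat.zero_le t) (fun _ _ => rfl) fun a j _ ha _ => h a j ha

lemma rel_zero (u : ℤ → Sy) : rel 0 u = u := rfl

lemma rel_succ (n : ℕ) (u : ℤ → Sy) : rel (n + 1) u = rel n (M u) := by
  unfold rel; exact Function.iterate_succ_apply M n u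

lemma rel_succ_out (n : ℕ) (u : ℤ → Sy) : rel (n + 1) u = M (rel n u) := by
  unfold rel; exact Function.iterate_succ_apply' M n u

lemma rel_add (m n : ℕ) (u : ℤ → Sy) : rel (m + n) u = rel m (rel n u) := by
  unfold rel; exact Function.iterate_add_apply M m n u

lemma rel_root {u : ℤ → Sy} (h : Rt u) (n : ℕ) : rel n u = u := by
  induction n with
  | zero => rfl
  | succ n ih => rw [rel_succ, h.M_eq, ih]

/-- locality of the relaxation -/
lemma rel_congr {u u' : ℤ → Sy} (n : ℕ) {i : ℤ} (h : ∀ j : ℤ, |j - i| ≤ (n : ℤ) → u j = u' j) :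
    rel n u i = rel n u' i := by
  induction n generalizing i with
  | zero => exact h i (by simp)
  | succ n ih =>
    rw [rel_succ_out, rel_succ_out]
    have key : ∀ k : ℤ, |k - i| ≤ 1 → rel n u k = rel n u' k := by
      intro k hk
      apply ih
      intro j hj
      apply h
      push_cast
      rcases abs_cases (j - k) with ⟨h3, _⟩ | ⟨h3, _⟩ <;>
        rcases abs_cases (k - i) with ⟨h4, _⟩ | ⟨h4, _⟩ <;>
        rcases abs_cases (j - i) with ⟨h5, _⟩ | ⟨h5, _⟩ <;> omega
    show med (rel n u (i - 1)) (rel n u i) (rel n u (i + 1)) =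
      med (rel n u' (i - 1)) (rel n u' i) (rel n u' (i + 1))
    rw [key (i - 1) (by rw [show i - 1 - i = -1 by ring]; norm_num), key i (by simp),
      key (i + 1) (by rw [show i + 1 - i = 1 by ring]; norm_num)]

/-- stars come from stars -/
lemma star_M {u : ℤ → Sy} {i : ℤ} (h : M u i = .s) :
    u (i - 1) = .s ∨ u i = .s ∨ u (i + 1) = .s := by
  unfold M at h
  revert h
  cases u (i - 1) <;> cases u i <;> cases u (i + 1) <;> simp [med, mk, maj3, Sy.lo, Sy.hi]

lemma star_rel {u : ℤ → Sy} (n : ℕ) {i : ℤ} (h : rel n u i = .s) :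
    ∃ j : ℤ, |j - i| ≤ (n : ℤ) ∧ u j = .s := by
  induction n generalizing i with
  | zero => exact ⟨i, by simp, h⟩
  | succ n ih =>
    rw [rel_succ_out] at h
    have h1 : ∃ k : ℤ, |k - i| ≤ 1 ∧ rel n u k = .s := by
      rcases star_M h with h2 | h2 | h2
      · exact ⟨i - 1, by rw [show i - 1 - i = -1 by ring]; norm_num, h2⟩
      · exact ⟨i, by simp, h2⟩
      · exact ⟨i + 1, by rw [show i + 1 - i = 1 by ring]; norm_num, h2⟩
    obtain ⟨k, hk, h2⟩ := h1
    obtain ⟨j, hj, h3⟩ := ih h2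
    refine ⟨j, ?_, h3⟩
    push_cast
    rcases abs_cases (j - k) with ⟨h3, _⟩ | ⟨h3, _⟩ <;>
      rcases abs_cases (k - i) with ⟨h4, _⟩ | ⟨h4, _⟩ <;>
      rcases abs_cases (j - i) with ⟨h5, _⟩ | ⟨h5, _⟩ <;> omega

/-- stars of the noisy process come from stars -/
lemma star_cf {L : ℕ} {w : Nz} {s t : ℕ} (hst : s ≤ t) {i : ℤ} (h : cf L w t i = .s) :
    ∃ j : ℤ, |j - i| ≤ (t : ℤ) - s ∧ cf L w s j = .s := by
  induction t generalizing i with
  | zero =>
    have : s = 0 := by omega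
    subst this
    exact ⟨i, by simp, h⟩
  | succ t ih =>
    rcases Nat.lt_or_ge t s with h1 | h1
    · have : s = t + 1 := by omega
      subst this
      exact ⟨i, by simp, h⟩
    · have h2 : M (cf L w t) i = .s := by
        rw [cf_succ] at h
        rcases hw : w t i with _ | b
        · rw [hw] at h; exact h
        · rw [hw] at h; cases b <;> simp [bs] at h
      have h3 : ∃ k : ℤ, |k - i| ≤ 1 ∧ cf L w t k = .s := by
        rcases star_M h2 with h4 | h4 | h4
        · exact ⟨i - 1, by rw [show i - 1 - i = -1 by ring]; norm_num, h4⟩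
        · exact ⟨i, by simp, h4⟩
        · exact ⟨i + 1, by rw [show i + 1 - i = 1 by ring]; norm_num, h4⟩
      obtain ⟨k, hk, h4⟩ := h3
      obtain ⟨j, hj, h5⟩ := ih h1 h4
      refine ⟨j, ?_, h5⟩
      push_cast
      rcases abs_cases (j - k) with ⟨h3, _⟩ | ⟨h3, _⟩ <;>
        rcases abs_cases (k - i) with ⟨h4, _⟩ | ⟨h4, _⟩ <;>
        rcases abs_cases (j - i) with ⟨h5, _⟩ | ⟨h5, _⟩ <;> omega

/-- the noisy process stays in the noise interval -/
lemma cf_sup {L A T : ℕ} (hLA : L ≤ A) {w : Nz} (hw : SupJ (JJ T A) w) (t : ℕ) :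
    Sup A (cf L w t) := by
  induction t with
  | zero =>
    intro i hi
    show (if |i| ≤ (L : ℤ) then Sy.s else Sy.z) = .z
    rw [if_neg (by omega)]
  | succ t ih =>
    intro i hi
    rw [cf_succ]
    have h1 : w t i = none := by
      apply hw (t, i)
      unfold JJ
      rw [Finset.mem_product, mem_Icc_abs]
      rintro ⟨_, h⟩
      have h' : |i| ≤ (A : ℤ) := h
      omega
    rw [h1]
    exact ih.M i hi

lemma Sup.rel {n : ℕ} {u : ℤ → Sy} (h : Sup n u) (k : ℕ) : Sup n (rel k u) := by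
  induction k with
  | zero => exact h
  | succ k ih => rw [rel_succ_out]; exact ih.M

end Pool.Agent.T3M
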