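import Mathlib
import Pool.Agent.T3M.Defs
import Pool.Agent.T3M.Proc

/-! Statements of the modules of the proof for small, nearly symmetric noise (helper91). -/

set_option autoImplicit false

namespace Pool.Agent.T3M

open Pool.Agent.Helper55.Vote

/-! ### Deterministic inequalities -/

def St_Root : Prop := ∀ (u : ℤ → Sy) (N n : ℕ), Sup N u → N + 2 ≤ n → Rt (rel n u) ∧ Sup N (rel n u)

def St_D1 : Prop := ∀ (u : ℤ → Sy) (N : ℕ), Rt u → Sup N u → Lg Psi u ≤ f3 u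

def St_D2 : Prop := ∃ C : ℝ, 0 < C ∧ ∀ (u : ℤ → Sy) (N R : ℕ), 3 ≤ R → Rt u → Sup N u →
  Bn u - C / R * nst u - C * R * kl u ≤ Lg (Tq R) u

def St_D3 : Prop := ∃ C : ℝ, 0 < C ∧ ∀ (u : ℤ → Sy) (N D : ℕ), 8 ≤ D → Rt u → Sup N u →
  Lg (Zs D) u + 1 / C * kl u ≤ C / (D : ℝ) ^ 2 * Bn u

def St_D4 : Prop := ∃ C : ℝ, 0 < C ∧ ∀ (u : ℤ → Sy) (N D : ℕ), 100 ≤ D → Rt u → Sup N u →
  Lg (ZL D) u + 1 / C * SL D u ≤ C * kl u + C / (D : ℝ) ^ 2 * Bn u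

def St_D5a : Prop := ∃ C : ℝ, 0 < C ∧ ∀ (u : ℤ → Sy) (N : ℕ), Rt u → Sup N u →
  -C * Bn u ≤ Lb false Psi u

def St_D5b : Prop := ∃ C : ℝ, 0 < C ∧ ∀ (u : ℤ → Sy) (N R : ℕ), 3 ≤ R → Rt u → Sup N u →
  Lb false (Tq R) u ≤ C * R * Bn u

def St_D5c : Prop := ∃ C : ℝ, 0 < C ∧ ∀ (u : ℤ → Sy) (N D : ℕ), 8 ≤ D → Rt u → Sup N u →
  -C * Bn u ≤ Lb false (Zs D) u

def St_D5d : Prop := ∃ C : ℝ, 0 < C ∧ ∀ (u : ℤ → Sy) (N D : ℕ), 100 ≤ D → Rt u → Sup N u →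
  -C * (SL D u + D * kl u + Bn u) ≤ Lb false (ZL D) u

def St_F3 : Prop := ∀ (u : ℤ → Sy) (N D : ℕ), 2 ≤ D → Rt u → Sup N u →
  f3 u ≤ SL D u + SL D (rev u)

def St_Gd : Prop := ∀ (u : ℤ → Sy) (N A D : ℕ), 1 ≤ D → Sup N u →
  ∑ i ∈ Finset.Icc (-(A : ℤ)) (A : ℤ), Gd D u i ≤ 2 * D * Bn u

/-! ### Influence of a local change -/

def St_InfPsi (m : ℕ) : Prop := ∃ C : ℝ, 0 < C ∧ ∀ D : ℕ, Infl m Psi C 0 D (fun _ _ => -1)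

def St_InfT (m : ℕ) : Prop := ∃ C : ℝ, 0 < C ∧ ∀ D R : ℕ, 1 ≤ R →
  Infl m (fun u => -Tq R u) (C * R) 0 D (fun _ _ => 2 * R)

def St_InfZs (m : ℕ) : Prop := ∃ C : ℝ, 0 < C ∧ ∀ D : ℕ, 1 ≤ D →
  Infl m (Zs D) C 0 D (fun u i => 2 * ind (∃ k : ℤ, |k - i| ≤ 2 * D + 1 ∧ SE u k))

def St_InfZL (m : ℕ) : Prop := ∃ C : ℝ, 0 < C ∧ ∀ D : ℕ, 100 ≤ D →
  Infl m (ZL D) (C * D) C D (fun _ _ => 0)

/-! ### Product expectations -/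

def St_Russo : Prop := ∀ (T A t : ℕ) (e d : ℝ) (f : Nz → ℝ), t < T →
  Ex (JJ T A) e d (hyb t 1) f - Ex (JJ T A) e d (hyb t 0) f =
    ∫ r in (0 : ℝ)..1, ∑ i ∈ Finset.Icc (-(A : ℤ)) (A : ℤ),
      (e * Ex (JJ T A) e d (hyb t r) (fun w => f (sw w t i (some false)) - f (sw w t i none)) +
        d * Ex (JJ T A) e d (hyb t r) (fun w => f (sw w t i (some true)) - f (sw w t i none)))

def St_Link : Prop := ∀ (e d : ℝ) (T A L t : ℕ) (i : ℤ), 0 ≤ e → 0 ≤ d → e + d ≤ 1 → t ≤ T →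
  |i| + t ≤ (L : ℤ) → |i| + t ≤ (A : ℤ) →
  Ex (JJ T A) e d pone (fun w => st (cf L w t) i) = D (law e d) N1 t

/-- the probability that the noise is not good, for all laws with smaller rates -/
def St_PG (m : ℕ) : Prop := ∃ C : ℝ, 0 < C ∧ ∀ (T A : ℕ) (e d : ℝ) (p : ℕ × ℤ → ℝ), 0 ≤ e → e ≤ d →
  d ≤ 1 / 4 → 1 ≤ T → 1 ≤ A → (∀ c, 0 ≤ p c ∧ p c ≤ 1) →
  Ex (JJ T A) e d p (fun w => ind (¬ Good m w)) ≤ C * T * A * (2 * d) ^ m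

/-! ### Locality of the noisy dynamics -/

def St_L1 : Prop := ∀ (k W H L : ℕ) (w : Nz), 1 ≤ k → HH k ≤ H → H + 4 * k ≤ W → GoodB k W H w →
  ∀ t, Rt (rel (2 * k) (cf L w t))

/-- clean mark: no other mark near `(t, i)` -/
def St_L2 : Prop := ∀ (m L n t : ℕ) (w : Nz) (i : ℤ) (b : Bool), 1 ≤ m → Good m w → KK m ≤ t →
  KK m ≤ n →
  (∀ (t' : ℕ) (i' : ℤ), t ≤ t' + KK m → t' ≤ t → |i' - i| ≤ 3 * (KK m : ℤ) → (t', i') ≠ (t, i) →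
    w t' i' = none) →
  rel n (cf L (sw w t i (some b)) (t + 1)) = Rf i b (rel n (cf L (sw w t i none) (t + 1)))

/-- exactly one other mark, at `(t', y)`, all stars near `i` before: nothing happens, except the
nucleation of a run of length two by two equal neighbouring marks in the slice `t` -/
def St_L3 : Prop := ∀ (m L n t t' : ℕ) (w : Nz) (i y : ℤ) (b : Bool), 1 ≤ m → Good m w →
  2 * KK m ≤ t → KK m ≤ n → t ≤ t' + KK m → t' ≤ t → |y - i| ≤ 6 * (KK m : ℤ) → (t', y) ≠ (t, i) →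
  (∀ (t1 : ℕ) (i1 : ℤ), t ≤ t1 + 2 * KK m → t1 ≤ t → |i1 - i| ≤ 6 * (KK m : ℤ) →
    (t1, i1) ≠ (t, i) → (t1, i1) ≠ (t', y) → w t1 i1 = none) →
  (∀ k : ℤ, |k - i| ≤ 4 * (KK m : ℤ) → cf L w (t - KK m) k = .s) →
  (∀ k : ℤ, |k - i| ≤ (KK m : ℤ) → rel n (cf L (sw w t i none) (t + 1)) k = .s) ∧
  (if t' = t ∧ |y - i| = 1 ∧ w t' y = some b then
    rel n (cf L (sw w t i (some b)) (t + 1)) =
      Function.update (Function.update (rel n (cf L (sw w t i none) (t + 1))) i (bs b)) y (bs b)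
  else
    rel n (cf L (sw w t i (some b)) (t + 1)) = rel n (cf L (sw w t i none) (t + 1)))

/-! ### One mark: comparison with the generator, path by path -/

def St_Path (m : ℕ) : Prop := ∀ (P : Par) (F : (ℤ → Sy) → ℝ) (c c' : ℝ) (D : ℕ)
  (ν : (ℤ → Sy) → ℤ → ℝ) (t : ℕ) (i : ℤ) (b : Bool) (w : Nz), Infl m F c c' D ν → 0 ≤ c → 0 ≤ c' →
  Good m w → (∀ (s : ℕ) (j : ℤ), (s, j) ∉ JJ P.T P.A → w s j = none) → 2 * KK m ≤ t → t < P.T →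
  i ∈ Finset.Icc (-(P.A : ℤ)) (P.A : ℤ) →
  (F (P.W (sw w t i (some b)) (t + 1)) - F (P.W (sw w t i none) (t + 1))) -
      (F (Rf i b (P.W w (t + 1))) - F (P.W w (t + 1))) ≤
    2 * c' * (ind (Dty m t i w ∧ NoS P.L m t i w) * Gd D (P.W w (t + 1)) i) +
      2 * c * ind (Dty m t i w ∧ SEn P.L m t i w) + 2 * c * ind (Two m t i w ∧ Stn P.L m t i w) +
      ind (NU P.L m t i (i - 1) b w) * ν (P.W w (t + 1)) i +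
      ind (NU P.L m t i (i + 1) b w) * ν (P.W w (t + 1)) i

/-! ### Expected numbers of exceptional sites -/

def St_Alpha (m : ℕ) : Prop := ∃ C : ℝ, 0 < C ∧ ∀ (P : Par) (D t : ℕ) (r : ℝ), 0 ≤ r → r ≤ 1 →
  1 ≤ D → 2 * KK m ≤ t → t < P.T →
  ∑ i ∈ Finset.Icc (-(P.A : ℤ)) (P.A : ℤ), Ex (JJ P.T P.A) P.e P.d (hyb t r)
      (fun w => ind (Dty m t i w ∧ NoS P.L m t i w) * Gd D (P.W w (t + 1)) i) ≤
    C * (P.d * ∑ i ∈ Finset.Icc (-(P.A : ℤ)) (P.A : ℤ), Ex (JJ P.T P.A) P.e P.d (hyb t r)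
      (fun w => Gd D (P.W w (t + 1)) i) + P.bad m)

def St_Beta (m : ℕ) : Prop := ∃ C : ℝ, 0 < C ∧ ∀ (P : Par) (t : ℕ) (r : ℝ), 0 ≤ r → r ≤ 1 →
  2 * KK m ≤ t → t < P.T →
  ∑ i ∈ Finset.Icc (-(P.A : ℤ)) (P.A : ℤ), Ex (JJ P.T P.A) P.e P.d (hyb t r)
      (fun w => ind (Dty m t i w ∧ SEn P.L m t i w)) ≤ C * (P.d * P.bc (t - KK m))

def St_Gamma (m : ℕ) : Prop := ∃ C : ℝ, 0 < C ∧ ∀ (P : Par) (t : ℕ) (r : ℝ), 0 ≤ r → r ≤ 1 →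
  2 * KK m ≤ t → t < P.T →
  ∑ i ∈ Finset.Icc (-(P.A : ℤ)) (P.A : ℤ), Ex (JJ P.T P.A) P.e P.d (hyb t r)
      (fun w => ind (Two m t i w ∧ Stn P.L m t i w)) ≤ C * (P.d ^ 2 * P.Q (t - 2 * KK m))

def St_NucPsi (m : ℕ) : Prop := ∃ C : ℝ, 0 < C ∧ ∀ (P : Par) (t : ℕ), 2 * KK m ≤ t → t < P.T →
  P.NUC m (fun _ _ => -1) t ≤ -(P.e ^ 2 + P.d ^ 2) * P.Q (t - KK m) +
    C * (P.d ^ 2 * P.bc (t - KK m) + P.d ^ 3 * P.Q (t - 2 * KK m))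

def St_NucT (m : ℕ) : Prop := ∃ C : ℝ, 0 < C ∧ ∀ (P : Par) (x : ℝ) (t : ℕ), 0 ≤ x →
  2 * KK m ≤ t → t < P.T →
  P.NUC m (fun _ _ => x) t ≤ C * x * (P.d ^ 2 * P.Q (t - 2 * KK m))

def St_NucZs (m : ℕ) : Prop := ∃ C : ℝ, 0 < C ∧ ∀ (P : Par) (D t : ℕ), 1 ≤ D →
  2 * KK m ≤ t → t < P.T →
  P.NUC m (fun u i => 2 * ind (∃ k : ℤ, |k - i| ≤ 2 * D + 1 ∧ SE u k)) t ≤
    C * (P.d ^ 2 * D * P.AV Bn t + P.bad m)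

/-- star edges of the configuration and of the relaxed configuration -/
def St_BnC (m : ℕ) : Prop := ∃ C : ℝ, 0 < C ∧ ∀ (P : Par) (t : ℕ), KK m ≤ t → t ≤ P.T →
  P.bc t ≤ P.b t + C * (P.d * P.Q (t - KK m) + P.bad m)

/-! ### Drift inequalities in expectation (`m` fixed, constants depend on `m` only) -/

/-- the general drift inequality -/
def St_P6M (m : ℕ) : Prop := ∃ C : ℝ, 0 < C ∧ ∀ (P : Par) (F : (ℤ → Sy) → ℝ) (c c' : ℝ) (D : ℕ)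
  (ν : (ℤ → Sy) → ℤ → ℝ) (t : ℕ), Infl m F c c' D ν → 0 ≤ c → 0 ≤ c' →
  (∀ u, Sup (P.A + 2) u → |F u| ≤ (P.A : ℝ) ^ 4 ∧ ∀ i, |ν u i| ≤ (P.A : ℝ) ^ 4) →
  1 ≤ D → 2 * KK m ≤ t → t < P.T →
  P.EF F (t + 1) - P.EF F t ≤ P.dr F t + P.NUC m ν t +
    C * (c * (P.d ^ 2 * P.bc (t - KK m) + P.d ^ 3 * P.Q (t - 2 * KK m)) +
      c' * (P.d ^ 2 * D * P.AV Bn t + P.d) + (1 + c') * P.bad m)

def St_P6Psi (m : ℕ) : Prop := ∃ C : ℝ, 0 < C ∧ ∀ (P : Par) (t : ℕ), 2 * KK m ≤ t → t < P.T →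
  P.EF Psi (t + 1) - P.EF Psi t ≤ P.dr Psi t - (P.e ^ 2 + P.d ^ 2) * P.Q (t - KK m) +
    C * (P.d ^ 2 * P.b (t - KK m) + P.d ^ 3 * P.Q (t - 2 * KK m) + P.bad m)

def St_P6T (m : ℕ) : Prop := ∃ C : ℝ, 0 < C ∧ ∀ (P : Par) (R t : ℕ), 3 ≤ R → R ≤ P.A →
  2 * KK m ≤ t → t < P.T →
  P.dr (Tq R) t - C * (P.d ^ 2 * R * P.Q (t - 2 * KK m) + P.bad m) ≤
    P.EF (Tq R) (t + 1) - P.EF (Tq R) t

def St_P6Zs (m : ℕ) : Prop := ∃ C : ℝ, 0 < C ∧ ∀ (P : Par) (D t : ℕ), 8 ≤ D → D ≤ P.A →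
  2 * KK m ≤ t → t < P.T →
  P.EF (Zs D) (t + 1) - P.EF (Zs D) t ≤ P.dr (Zs D) t +
    C * (P.d ^ 2 * D * P.AV Bn t + P.d ^ 2 * P.b (t - KK m) + P.d ^ 3 * P.Q (t - 2 * KK m) + P.bad m)

def St_P6ZL (m : ℕ) : Prop := ∃ C : ℝ, 0 < C ∧ ∀ (P : Par) (D t : ℕ), 100 ≤ D → D ≤ P.A →
  2 * KK m ≤ t → t < P.T →
  P.EF (ZL D) (t + 1) - P.EF (ZL D) t ≤ P.dr (ZL D) t +
    C * (P.d ^ 2 * D * (P.AV Bn t + P.b (t - KK m)) + P.d ^ 3 * D * P.Q (t - 2 * KK m) + P.d +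
      D * P.bad m)

/-- star edges persist -/
def St_Bt (m : ℕ) : Prop := ∃ C : ℝ, 0 < C ∧ ∀ (P : Par) (t : ℕ), C * P.d ≤ 1 → t < P.T →
  P.b t ≤ 2 * P.AV Bn t + C * P.bad m

/-- bounds by the expected number of stars -/
def St_Bd (m : ℕ) : Prop := ∃ C : ℝ, 0 < C ∧ ∀ (P : Par) (D t : ℕ), 8 ≤ D → D ≤ P.A → t < P.T →
  P.AV nst t ≤ C * (P.Q t + P.bad m) ∧ P.b t ≤ C * (P.Q t + P.bad m) ∧
  P.EF Psi t ≤ C * (P.Q t + P.bad m) ∧ P.EF (Zs D) t ≤ C * (P.Q t + P.bad m) ∧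
  P.EF (ZL D) t ≤ C * D * (P.Q t + P.bad m) ∧ P.EF (Tq D) t ≤ C * D * (P.Q t + P.bad m)

def St_Refl : Prop := ∀ (P : Par) (F : (ℤ → Sy) → ℝ) (t : ℕ),
  P.AV (fun u => F (rev u)) t = P.AV F t

/-- the number of stars and the probability of a star in the infinite system -/
def St_Q : Prop := ∀ (P : Par) (t : ℕ), t ≤ P.T → P.T ≤ P.L →
  (2 * ((P.L : ℝ) - P.T) + 1) * D (law P.e P.d) N1 t ≤ P.Q t ∧
    P.Q t ≤ (2 * (P.L : ℝ) + 1) * D (law P.e P.d) N1 t + 4 * P.T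

/-! ### The conclusion -/

def St_Main : Prop := ∃ c : ℝ, 0 < c ∧ ∀ e d : ℝ, 0 < e → e ≤ d → d ≤ c →
  d - e ≤ c * d ^ (3 / 2 : ℝ) →
  ∃ T : ℕ, (2 * (T : ℝ) + 1) * D (law e d) N1 T < 1

end Pool.Agent.T3M
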