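import Mathlib
import Pool.Agent.T3M.PE
import Pool.Agent.T3M.St

/-! Linearity and monotonicity of the averages (helper91). -/

set_option autoImplicit false

namespace Pool.Agent.T3M

open MeasureTheory

variable (P : Par)

lemma Par.he' : 0 ≤ P.e := P.he.le

lemma Par.hd' : 0 ≤ P.d := P.he.le.trans P.hed

lemma Par.hsum : P.e + P.d ≤ 1 := by have h1 := P.hed; have h2 := P.hd; linarith

/-- the relaxed configurations are roots supported in the noise interval -/
lemma Par.W_root (h0 : St_Root) {w : Nz} (hw : SupJ (JJ P.T P.A) w) (t : ℕ) :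
    Rt (P.W w t) ∧ Sup P.A (P.W w t) := by
  have hLA : P.L ≤ P.A := by have := P.hA; omega
  exact h0 _ _ _ (cf_sup hLA hw t) P.hn

lemma AV_int (F : (ℤ → Sy) → ℝ) (t : ℕ) :
    IntervalIntegrable (fun r : ℝ => Ex (JJ P.T P.A) P.e P.d (hyb t r) fun w => F (P.W w (t + 1)))
      volume 0 1 :=
  (Ex_cont _ _ _ _ _).intervalIntegrable 0 1

lemma AV_add (F G : (ℤ → Sy) → ℝ) (t : ℕ) :
    P.AV (fun u => F u + G u) t = P.AV F t + P.AV G t := by
  unfold Par.AV
  rw [← intervalIntegral.integral_add (AV_int P F t) (AV_int P G t)]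
  exact intervalIntegral.integral_congr fun r _ => Ex_add _ _ _ _ _ _

lemma AV_smul (c : ℝ) (F : (ℤ → Sy) → ℝ) (t : ℕ) :
    P.AV (fun u => c * F u) t = c * P.AV F t := by
  unfold Par.AV
  rw [← intervalIntegral.integral_const_mul]
  exact intervalIntegral.integral_congr fun r _ => Ex_smul _ _ _ _ _ _

lemma AV_neg (F : (ℤ → Sy) → ℝ) (t : ℕ) : P.AV (fun u => - F u) t = - P.AV F t := by
  have h := AV_smul P (-1) F t
  simpa using h

lemma AV_sub (F G : (ℤ → Sy) → ℝ) (t : ℕ) :
    P.AV (fun u => F u - G u) t = P.AV F t - P.AV G t := by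
  have h := AV_add P F (fun u => - G u) t
  rw [AV_neg] at h
  rw [sub_eq_add_neg, ← h]
  rfl

lemma AV_const (c : ℝ) (t : ℕ) : P.AV (fun _ => c) t = c := by
  unfold Par.AV
  simp only [Ex_const]
  simp

/-- monotonicity on roots -/
lemma AV_le (h0 : St_Root) {F G : (ℤ → Sy) → ℝ} (h : ∀ u, Rt u → Sup P.A u → F u ≤ G u) (t : ℕ) :
    P.AV F t ≤ P.AV G t := by
  unfold Par.AV
  refine intervalIntegral.integral_mono_on zero_le_one (AV_int P F t) (AV_int P G t) ?_
  rintro r ⟨hr0, hr1⟩
  refine Ex_mono P.he' P.hd' P.hsum (hyb_mem t hr0 hr1) fun w hw => ?_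
  obtain ⟨h1, h2⟩ := P.W_root h0 hw (t + 1)
  exact h _ h1 h2

lemma AV_nonneg (h0 : St_Root) {F : (ℤ → Sy) → ℝ} (h : ∀ u, Rt u → Sup P.A u → 0 ≤ F u) (t : ℕ) :
    0 ≤ P.AV F t := by
  rw [← AV_const P 0 t]
  exact AV_le P h0 h t

lemma EF_le (h0 : St_Root) {F G : (ℤ → Sy) → ℝ} (h : ∀ u, Rt u → Sup P.A u → F u ≤ G u) (t : ℕ) :
    P.EF F t ≤ P.EF G t := by
  unfold Par.EF
  refine Ex_mono P.he' P.hd' P.hsum pone_mem fun w hw => ?_
  obtain ⟨h1, h2⟩ := P.W_root h0 hw t
  exact h _ h1 h2

lemma EF_nonneg (h0 : St_Root) {F : (ℤ → Sy) → ℝ} (h : ∀ u, Rt u → Sup P.A u → 0 ≤ F u) (t : ℕ) :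
    0 ≤ P.EF F t := by
  unfold Par.EF
  refine Ex_nonneg P.he' P.hd' P.hsum pone_mem fun w hw => ?_
  obtain ⟨h1, h2⟩ := P.W_root h0 hw t
  exact h _ h1 h2

lemma Q_nonneg (t : ℕ) : 0 ≤ P.Q t :=
  Ex_nonneg P.he' P.hd' P.hsum pone_mem fun _ _ => nst_nonneg _

lemma bc_nonneg (t : ℕ) : 0 ≤ P.bc t :=
  Ex_nonneg P.he' P.hd' P.hsum pone_mem fun _ _ => Bn_nonneg _

/-- the full law and the hybrid law agree for functions of the slices before the time `t + 1` at
`r = 1` and of the slices before `t` at every `r` -/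
lemma Ex_hyb_one {f : Nz → ℝ} {t : ℕ} (hf : Dep {c : ℕ × ℤ | c.1 < t + 1} f) :
    Ex (JJ P.T P.A) P.e P.d pone f = Ex (JJ P.T P.A) P.e P.d (hyb t 1) f := by
  refine Ex_rates _ _ _ (fun c hc => ?_) hf
  have hc' : c.1 < t + 1 := hc
  unfold pone hyb
  by_cases h1 : c.1 < t
  · rw [if_pos h1]
  · rw [if_neg h1, if_pos (by omega)]

lemma Ex_hyb_r {f : Nz → ℝ} {t : ℕ} (hf : Dep {c : ℕ × ℤ | c.1 < t} f) (r : ℝ) :
    Ex (JJ P.T P.A) P.e P.d pone f = Ex (JJ P.T P.A) P.e P.d (hyb t r) f := by
  refine Ex_rates _ _ _ (fun c hc => ?_) hf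
  have hc' : c.1 < t := hc
  unfold pone hyb
  rw [if_pos hc']

lemma EF_succ (F : (ℤ → Sy) → ℝ) (t : ℕ) : P.EF F (t + 1) =
    Ex (JJ P.T P.A) P.e P.d (hyb t 1) fun w => F (P.W w (t + 1)) := by
  unfold Par.EF
  apply Ex_hyb_one
  intro w w' h
  show F (P.W w (t + 1)) = F (P.W w' (t + 1))
  unfold Par.W
  rw [cf_dep fun a j ha => h (a, j) (show a < t + 1 from ha)]

/-- time `t` as the hybrid law without noise in the slice `t` -/
lemma EF_zero (h0 : St_Root) (F : (ℤ → Sy) → ℝ) (t : ℕ) : P.EF F t =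
    Ex (JJ P.T P.A) P.e P.d (hyb t 0) fun w => F (P.W w (t + 1)) := by
  have hLA : P.L ≤ P.A := by have := P.hA; omega
  -- remove the noise of the slice `t`
  have h1 : Ex (JJ P.T P.A) P.e P.d (hyb t 0) (fun w => F (P.W w (t + 1))) =
      Ex (JJ P.T P.A) P.e P.d (hyb t 0) (fun w => F (P.W w t)) := by
    classical
    -- both sides agree on noise fields which vanish in the slice `t`
    have key : ∀ (J : Finset (ℕ × ℤ)) (f g : Nz → ℝ),
        (∀ w, (∀ i, w t i = none) → SupJ J w → f w = g w) →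
        Ex J P.e P.d (hyb t 0) f = Ex J P.e P.d (hyb t 0) g := by
      intro J
      induction J using Finset.induction_on with
      | empty =>
        intro f g h
        rw [Ex_empty, Ex_empty]
        exact h _ (fun _ => rfl) fun _ _ => rfl
      | insert c J hc ih =>
        intro f g h
        rw [Ex_insert hc, Ex_insert hc]
        refine Finset.sum_congr rfl fun v _ => ?_
        by_cases hct : c.1 = t
        · have hr : hyb t 0 c = 0 := by
            unfold hyb
            rw [if_neg (by omega), if_pos hct]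
          rw [hr]
          rcases v with _ | v
          · congr 1
            apply ih
            intro w hw hs
            apply h
            · intro i
              by_cases hi : (t, i) = (c.1, c.2)
              · have h2 : c.2 = i := (congrArg Prod.snd hi).symm
                have h3 : c.1 = t := hct
                rw [h2, h3, sw_self]
              · rw [sw_of_ne _ _ hi]; exact hw i
            · intro c' hc'
              by_cases hi : (c'.1, c'.2) = (c.1, c.2)
              · exact absurd (Finset.mem_insert.2 (Or.inl hi)) hc'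
              · rw [sw_of_ne _ _ hi]
                exact hs c' fun h4 => hc' (Finset.mem_insert_of_mem h4)
          · cases v <;> simp [wt]
        · congr 1
          apply ih
          intro w hw hs
          apply h
          · intro i
            rw [sw_of_ne]
            · exact hw i
            · intro h4
              exact hct (congrArg Prod.fst h4).symm
          · intro c' hc'
            by_cases hi : (c'.1, c'.2) = (c.1, c.2)
            · exact absurd (Finset.mem_insert.2 (Or.inl hi)) hc'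
            · rw [sw_of_ne _ _ hi]
              exact hs c' fun h4 => hc' (Finset.mem_insert_of_mem h4)
    apply key
    intro w hw hs
    have h2 : cf P.L w (t + 1) = M (cf P.L w t) := by
      funext i
      rw [cf_succ, hw i]
      rfl
    unfold Par.W
    rw [h2, ← rel_succ, rel_succ_out, (h0 _ _ _ (cf_sup hLA hs t) P.hn).1.M_eq]
  rw [h1, Par.EF]
  apply Ex_hyb_r
  intro w w' h
  show F (P.W w t) = F (P.W w' t)
  unfold Par.W
  rw [cf_dep fun a j ha => h (a, j) (show a < t from ha)]

end Pool.Agent.T3M
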