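import Mathlib
import Pool.Agent.T3M.AV

/-! The general drift inequality (helper91). -/

set_option autoImplicit false

namespace Pool.Agent.T3M

open MeasureTheory

/-- on good noise `rel n` is `rel K` -/
lemma p6_relK (h1 : St_L1) {m : ℕ} {w : Nz} (hw : Good m w) (L t n : ℕ) (hn : KK m ≤ n) :
    rel n (cf L w t) = rel (KK m) (cf L w t) ∧ Rt (rel (KK m) (cf L w t)) := by
  have hg : GoodB (m + 1) (WW (m + 1)) (HH (m + 1)) w := fun t' i S hS =>
    (hw t' i S hS).trans (Nat.lt_succ_self m)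
  have hr : Rt (rel (2 * (m + 1)) (cf L w t)) :=
    h1 (m + 1) (WW (m + 1)) (HH (m + 1)) L w (by omega) le_rfl (by unfold WW; omega) hg t
  have hK : 2 * (m + 1) = KK m := by unfold KK; ring
  rw [hK] at hr
  refine ⟨?_, hr⟩
  obtain ⟨k, rfl⟩ := Nat.exists_eq_add_of_le hn
  rw [Nat.add_comm, rel_add, rel_root hr]

lemma p6_st_far (h1 : St_L1) {m : ℕ} {w : Nz} (hw : Good m w) {L t n : ℕ} (hn : KK m ≤ n) {k : ℤ}
    (hk : (L : ℤ) + t + KK m < |k|) : rel n (cf L w t) k ≠ .s := by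
  intro hs
  rw [(p6_relK h1 hw L t n hn).1] at hs
  obtain ⟨j, hj, hj2⟩ := star_rel _ hs
  obtain ⟨l, hl, hl2⟩ := star_cf (Nat.zero_le t) hj2
  have hl3 : |l| ≤ (L : ℤ) := by
    by_contra hc
    have : cf L w 0 l = .z := by
      show (if |l| ≤ (L : ℤ) then Sy.s else Sy.z) = .z
      rw [if_neg hc]
    rw [this] at hl2
    simp at hl2
  have e1 : |k| ≤ |l| + |l - j| + |j - k| := by
    have h2 : k = l - (l - j) - (j - k) := by ring
    calc |k| = |l - (l - j) - (j - k)| := by rw [← h2]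
      _ ≤ |l - (l - j)| + |j - k| := abs_sub _ _
      _ ≤ |l| + |l - j| + |j - k| := by
        have := abs_sub l (l - j)
        linarith
  simp only [Nat.cast_zero, sub_zero] at hl
  omega

/-- no stars near `i`: none near `i` after a mark -/
lemma p6_Rf_nostar {u : ℤ → Sy} (hr : Rt u) {i : ℤ} {K : ℤ} (hK : 4 ≤ K)
    (h : ∀ k : ℤ, |k - i| ≤ K → u k ≠ .s) (b : Bool) : ∀ k : ℤ, |k - i| ≤ K → Rf i b u k ≠ .s := by
  intro k hk
  by_cases h2 : 2 ≤ |k - i|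
  · rw [Rf_far hr b h2]; exact h k hk
  · intro hs
    have hv : ∀ j : ℤ, |j - i| ≤ K → Function.update u i (bs b) j ≠ .s := by
      intro j hj
      by_cases h3 : j = i
      · subst h3
        rw [Function.update_self]
        cases b <;> simp [bs]
      · rw [Function.update_of_ne h3]; exact h j hj
    have h4 : ∀ j : ℤ, |j - i| ≤ 2 → M (Function.update u i (bs b)) j ≠ .s := by
      intro j hj hs2
      rcases star_M hs2 with h5 | h5 | h5
      · exact hv _ (by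
          rcases abs_cases (j - 1 - i) with ⟨h6, _⟩ | ⟨h6, _⟩ <;>
            rcases abs_cases (j - i) with ⟨h7, _⟩ | ⟨h7, _⟩ <;> omega) h5
      · exact hv _ (by omega) h5
      · exact hv _ (by
          rcases abs_cases (j + 1 - i) with ⟨h6, _⟩ | ⟨h6, _⟩ <;>
            rcases abs_cases (j - i) with ⟨h7, _⟩ | ⟨h7, _⟩ <;> omega) h5
    unfold Rf at hs
    rcases star_M hs with h5 | h5 | h5
    · exact h4 _ (by
          rcases abs_cases (k - 1 - i) with ⟨h6, _⟩ | ⟨h6, _⟩ <;>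
            rcases abs_cases (k - i) with ⟨h7, _⟩ | ⟨h7, _⟩ <;> omega) h5
    · exact h4 _ (by omega) h5
    · exact h4 _ (by
          rcases abs_cases (k + 1 - i) with ⟨h6, _⟩ | ⟨h6, _⟩ <;>
            rcases abs_cases (k - i) with ⟨h7, _⟩ | ⟨h7, _⟩ <;> omega) h5

lemma th_mem {D : ℕ} (hD : 1 ≤ D) : 0 < th D ∧ th D ≤ 1 := by
  have h1 : (1 : ℝ) ≤ D := by exact_mod_cast hD
  have h2 : 0 < 1 / (2 * (D : ℝ)) := by positivity
  have h3 : 1 / (2 * (D : ℝ)) ≤ 1 / 2 := by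
    apply div_le_div_of_nonneg_left (by norm_num) (by norm_num) (by linarith)
  unfold th
  constructor <;> linarith

lemma Gd_mem {D : ℕ} (hD : 1 ≤ D) (u : ℤ → Sy) (i : ℤ) : 0 ≤ Gd D u i ∧ Gd D u i ≤ 1 := by
  obtain ⟨h1, h2⟩ := th_mem hD
  have h3 := pow_le_one₀ (n := dl u i) h1.le h2
  have h4 := pow_nonneg h1.le (dl u i)
  unfold Gd
  rcases ind_cases (dl u i ≠ 0) with h | h <;> rw [h]
  · simp
  · rw [one_mul]; exact ⟨h4, h3⟩

lemma bad_nonneg (P : Par) (m : ℕ) : 0 ≤ P.bad m := by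
  have := P.hd'
  unfold Par.bad
  positivity

/-- splitting the sum over the sites -/
lemma p6_split (A : ℕ) (g : ℤ → ℝ) :
    ∑ i ∈ Finset.Icc (-((A + 2 : ℕ) : ℤ)) ((A + 2 : ℕ) : ℤ), g i =
      ∑ i ∈ Finset.Icc (-(A : ℤ)) (A : ℤ), g i +
        (g (-(A : ℤ) - 2) + g (-(A : ℤ) - 1) + g ((A : ℤ) + 1) + g ((A : ℤ) + 2)) := by
  have h1 : Finset.Icc (-((A + 2 : ℕ) : ℤ)) ((A + 2 : ℕ) : ℤ) =
      insert (-(A : ℤ) - 2) (insert (-(A : ℤ) - 1) (insert ((A : ℤ) + 1) (insert ((A : ℤ) + 2)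
        (Finset.Icc (-(A : ℤ)) (A : ℤ))))) := by
    ext i
    simp only [Finset.mem_insert, Finset.mem_Icc]
    push_cast
    omega
  rw [h1, Finset.sum_insert, Finset.sum_insert, Finset.sum_insert, Finset.sum_insert]
  · ring
  · simp only [Finset.mem_Icc]; omega
  · simp only [Finset.mem_insert, Finset.mem_Icc]; omega
  · simp only [Finset.mem_insert, Finset.mem_Icc]; omega
  · simp only [Finset.mem_insert, Finset.mem_Icc]; omega

/-- the generator with the two rates -/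
lemma p6_gen (P : Par) (F : (ℤ → Sy) → ℝ) {u : ℤ → Sy} (hr : Rt u) (hS : Sup P.A u) :
    P.d * Lg F u - (P.d - P.e) * Lb false F u =
      ∑ i ∈ Finset.Icc (-(P.A : ℤ)) (P.A : ℤ),
        (P.e * (F (Rf i false u) - F u) + P.d * (F (Rf i true u) - F u)) +
      ((P.e * (F (Rf (-(P.A : ℤ) - 2) false u) - F u) + P.d * (F (Rf (-(P.A : ℤ) - 2) true u) - F u)) +
        (P.e * (F (Rf (-(P.A : ℤ) - 1) false u) - F u) + P.d * (F (Rf (-(P.A : ℤ) - 1) true u) - F u)) +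
        (P.e * (F (Rf ((P.A : ℤ) + 1) false u) - F u) + P.d * (F (Rf ((P.A : ℤ) + 1) true u) - F u)) +
        (P.e * (F (Rf ((P.A : ℤ) + 2) false u) - F u) + P.d * (F (Rf ((P.A : ℤ) + 2) true u) - F u))) := by
  rw [← p6_split P.A fun i => P.e * (F (Rf i false u) - F u) + P.d * (F (Rf i true u) - F u)]
  rw [Lg_add hr hS, Lb_eq hr hS, Lb_eq hr hS, Finset.sum_add_distrib, ← Finset.mul_sum,
    ← Finset.mul_sum]
  ring

/-- the summand of the nucleation term -/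
noncomputable def p6_nu (P : Par) (m : ℕ) (ν : (ℤ → Sy) → ℤ → ℝ) (t : ℕ) (w : Nz) (i : ℤ) : ℝ :=
  P.e * (ind (NU P.L m t i (i - 1) false w) * ν (P.W w (t + 1)) i +
      ind (NU P.L m t i (i + 1) false w) * ν (P.W w (t + 1)) i) +
    P.d * (ind (NU P.L m t i (i - 1) true w) * ν (P.W w (t + 1)) i +
      ind (NU P.L m t i (i + 1) true w) * ν (P.W w (t + 1)) i)

/-- the exceptional terms -/
noncomputable def p6_ex (P : Par) (m : ℕ) (c c' : ℝ) (D t : ℕ) (w : Nz) (i : ℤ) : ℝ :=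
  4 * P.d * c' * (ind (Dty m t i w ∧ NoS P.L m t i w) * Gd D (P.W w (t + 1)) i) +
    4 * P.d * c * ind (Dty m t i w ∧ SEn P.L m t i w) +
    4 * P.d * c * ind (Two m t i w ∧ Stn P.L m t i w)

lemma p6_ex_nonneg (P : Par) (m : ℕ) {c c' : ℝ} (hc : 0 ≤ c) (hc' : 0 ≤ c') {D : ℕ} (hD : 1 ≤ D)
    (t : ℕ) (w : Nz) (i : ℤ) : 0 ≤ p6_ex P m c c' D t w i := by
  have hd := P.hd'
  unfold p6_ex
  have h1 := (Gd_mem hD (P.W w (t + 1)) i).1
  have h2 := ind_nonneg (Dty m t i w ∧ NoS P.L m t i w)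
  have h3 := ind_nonneg (Dty m t i w ∧ SEn P.L m t i w)
  have h4 := ind_nonneg (Two m t i w ∧ Stn P.L m t i w)
  have h5 : 0 ≤ 4 * P.d * c' := by positivity
  have h6 : 0 ≤ 4 * P.d * c := by positivity
  have := mul_nonneg h5 (mul_nonneg h2 h1)
  have := mul_nonneg h6 h3
  have := mul_nonneg h6 h4
  linarith

/-- path by path, good noise -/
lemma p6_good {m : ℕ} (hm : 1 ≤ m) (h0 : St_Root) (h1 : St_L1) (hP : St_Path m) (P : Par)
    (F : (ℤ → Sy) → ℝ) (c c' : ℝ) (D : ℕ) (ν : (ℤ → Sy) → ℤ → ℝ) (t : ℕ) (hI : Infl m F c c' D ν)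
    (hc : 0 ≤ c) (hc' : 0 ≤ c') (hD : 1 ≤ D) (ht : 2 * KK m ≤ t) (htT : t < P.T) {w : Nz}
    (hw : SupJ (JJ P.T P.A) w) (hg : Good m w) :
    ∑ i ∈ Finset.Icc (-(P.A : ℤ)) (P.A : ℤ),
      (P.e * (F (P.W (sw w t i (some false)) (t + 1)) - F (P.W (sw w t i none) (t + 1))) +
        P.d * (F (P.W (sw w t i (some true)) (t + 1)) - F (P.W (sw w t i none) (t + 1)))) ≤
    (P.d * Lg F (P.W w (t + 1)) - (P.d - P.e) * Lb false F (P.W w (t + 1))) +
      ∑ i ∈ Finset.Icc (-(P.A : ℤ)) (P.A : ℤ), p6_nu P m ν t w i +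
      ∑ i ∈ Finset.Icc (-(P.A : ℤ)) (P.A : ℤ), p6_ex P m c c' D t w i + 8 * P.d * c' := by
  have he := P.he'
  have hd := P.hd'
  have hed := P.hed
  have hA := P.hA
  have hn := P.hn
  have hK : 4 ≤ KK m := by unfold KK; omega
  have hw' : ∀ (s : ℕ) (j : ℤ), (s, j) ∉ JJ P.T P.A → w s j = none := fun s j h => hw (s, j) h
  obtain ⟨hroot, hsup⟩ := P.W_root h0 hw (t + 1)
  rw [p6_gen P F hroot hsup]
  set u := P.W w (t + 1) with hu
  -- boundary sites
  have hnk : KK m ≤ P.n := by omega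
  have hbd : ∀ i : ℤ, (P.A : ℤ) < |i| → |i| ≤ (P.A : ℤ) + 2 → ∀ b : Bool,
      |F (Rf i b u) - F u| ≤ c' := by
    intro i hi1 hi2 b
    have hns : ∀ k : ℤ, |k - i| ≤ (KK m : ℤ) + 2 → u k ≠ .s := by
      intro k hk
      apply p6_st_far h1 hg hnk
      push_cast
      rcases abs_cases i with ⟨a1, _⟩ | ⟨a1, _⟩ <;> rcases abs_cases k with ⟨a2, _⟩ | ⟨a2, _⟩ <;>
        rcases abs_cases (k - i) with ⟨a3, _⟩ | ⟨a3, _⟩ <;> omega
    have hns' : ∀ k : ℤ, |k - i| ≤ (KK m : ℤ) + 2 → Rf i b u k ≠ .s :=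
      p6_Rf_nostar hroot (by omega) hns b
    have h3 := hI.nost u (Rf i b u) (P.A + 2) i hroot (Rf_root hroot i b)
      (hsup.mono (by omega)) ((hsup.mono (by omega)).Rf (by push_cast; omega) b)
      (fun k hk => (Rf_far hroot b (by omega)).symm) (fun k hk => ⟨hns k hk, hns' k hk⟩)
    rw [abs_sub_comm] at h3
    have h4 := (Gd_mem hD u i).2
    exact h3.trans (by nlinarith [(Gd_mem hD u i).1])
  have hb2 : ∀ i : ℤ, (P.A : ℤ) < |i| → |i| ≤ (P.A : ℤ) + 2 →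
      -(2 * P.d * c') ≤ P.e * (F (Rf i false u) - F u) + P.d * (F (Rf i true u) - F u) := by
    intro i hi1 hi2
    have h3 := neg_le_of_abs_le (hbd i hi1 hi2 false)
    have h4 := neg_le_of_abs_le (hbd i hi1 hi2 true)
    have h5 : P.e * (-c') ≤ P.e * (F (Rf i false u) - F u) := mul_le_mul_of_nonneg_left h3 he
    have h6 : P.d * (-c') ≤ P.d * (F (Rf i true u) - F u) := mul_le_mul_of_nonneg_left h4 hd
    nlinarith
  have e1 := hb2 (-(P.A : ℤ) - 2) (by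
      rcases abs_cases (-(P.A : ℤ) - 2) with ⟨a1, _⟩ | ⟨a1, _⟩ <;> omega) (by
      rcases abs_cases (-(P.A : ℤ) - 2) with ⟨a1, _⟩ | ⟨a1, _⟩ <;> omega)
  have e2 := hb2 (-(P.A : ℤ) - 1) (by
      rcases abs_cases (-(P.A : ℤ) - 1) with ⟨a1, _⟩ | ⟨a1, _⟩ <;> omega) (by
      rcases abs_cases (-(P.A : ℤ) - 1) with ⟨a1, _⟩ | ⟨a1, _⟩ <;> omega)
  have e3 := hb2 ((P.A : ℤ) + 1) (by
      rcases abs_cases ((P.A : ℤ) + 1) with ⟨a1, _⟩ | ⟨a1, _⟩ <;> omega) (by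
      rcases abs_cases ((P.A : ℤ) + 1) with ⟨a1, _⟩ | ⟨a1, _⟩ <;> omega)
  have e4 := hb2 ((P.A : ℤ) + 2) (by
      rcases abs_cases ((P.A : ℤ) + 2) with ⟨a1, _⟩ | ⟨a1, _⟩ <;> omega) (by
      rcases abs_cases ((P.A : ℤ) + 2) with ⟨a1, _⟩ | ⟨a1, _⟩ <;> omega)
  have hmain : ∑ i ∈ Finset.Icc (-(P.A : ℤ)) (P.A : ℤ),
      (P.e * (F (P.W (sw w t i (some false)) (t + 1)) - F (P.W (sw w t i none) (t + 1))) +
        P.d * (F (P.W (sw w t i (some true)) (t + 1)) - F (P.W (sw w t i none) (t + 1)))) ≤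
      ∑ i ∈ Finset.Icc (-(P.A : ℤ)) (P.A : ℤ),
        ((P.e * (F (Rf i false u) - F u) + P.d * (F (Rf i true u) - F u)) +
          p6_nu P m ν t w i + p6_ex P m c c' D t w i) := by
    refine Finset.sum_le_sum fun i hi => ?_
    have hf := hP P F c c' D ν t i false w hI hc hc' hg hw' ht htT hi
    have ht' := hP P F c c' D ν t i true w hI hc hc' hg hw' ht htT hi
    rw [← hu] at hf ht'
    have hα : 0 ≤ c' * (ind (Dty m t i w ∧ NoS P.L m t i w) * Gd D u i) :=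
      mul_nonneg hc' (mul_nonneg (ind_nonneg _) (Gd_mem hD u i).1)
    have hβ : 0 ≤ c * ind (Dty m t i w ∧ SEn P.L m t i w) := mul_nonneg hc (ind_nonneg _)
    have hγ : 0 ≤ c * ind (Two m t i w ∧ Stn P.L m t i w) := mul_nonneg hc (ind_nonneg _)
    have hf2 := mul_le_mul_of_nonneg_left hf he
    have ht2 := mul_le_mul_of_nonneg_left ht' hd
    unfold p6_nu p6_ex
    rw [← hu]
    set α := ind (Dty m t i w ∧ NoS P.L m t i w) * Gd D u i
    set β := ind (Dty m t i w ∧ SEn P.L m t i w)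
    set γ := ind (Two m t i w ∧ Stn P.L m t i w)
    nlinarith [mul_le_mul_of_nonneg_right hed hα, mul_le_mul_of_nonneg_right hed hβ,
      mul_le_mul_of_nonneg_right hed hγ]
  have hs : ∑ i ∈ Finset.Icc (-(P.A : ℤ)) (P.A : ℤ),
        ((P.e * (F (Rf i false u) - F u) + P.d * (F (Rf i true u) - F u)) +
          p6_nu P m ν t w i + p6_ex P m c c' D t w i) =
      ∑ i ∈ Finset.Icc (-(P.A : ℤ)) (P.A : ℤ),
        (P.e * (F (Rf i false u) - F u) + P.d * (F (Rf i true u) - F u)) +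
      ∑ i ∈ Finset.Icc (-(P.A : ℤ)) (P.A : ℤ), p6_nu P m ν t w i +
      ∑ i ∈ Finset.Icc (-(P.A : ℤ)) (P.A : ℤ), p6_ex P m c c' D t w i := by
    rw [Finset.sum_add_distrib, Finset.sum_add_distrib]
  rw [hs] at hmain
  linarith

/-- path by path, all noise -/
lemma p6_all {m : ℕ} (hm : 1 ≤ m) (h0 : St_Root) (h1 : St_L1) (hP : St_Path m) (P : Par)
    (F : (ℤ → Sy) → ℝ) (c c' : ℝ) (D : ℕ) (ν : (ℤ → Sy) → ℤ → ℝ) (t : ℕ) (hI : Infl m F c c' D ν)
    (hc : 0 ≤ c) (hc' : 0 ≤ c')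
    (hb : ∀ u, Sup (P.A + 2) u → |F u| ≤ (P.A : ℝ) ^ 4 ∧ ∀ i, |ν u i| ≤ (P.A : ℝ) ^ 4)
    (hD : 1 ≤ D) (ht : 2 * KK m ≤ t) (htT : t < P.T) {w : Nz}
    (hw : SupJ (JJ P.T P.A) w) :
    ∑ i ∈ Finset.Icc (-(P.A : ℤ)) (P.A : ℤ),
      (P.e * (F (P.W (sw w t i (some false)) (t + 1)) - F (P.W (sw w t i none) (t + 1))) +
        P.d * (F (P.W (sw w t i (some true)) (t + 1)) - F (P.W (sw w t i none) (t + 1)))) ≤
    (P.d * Lg F (P.W w (t + 1)) - (P.d - P.e) * Lb false F (P.W w (t + 1))) +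
      ∑ i ∈ Finset.Icc (-(P.A : ℤ)) (P.A : ℤ), p6_nu P m ν t w i +
      ∑ i ∈ Finset.Icc (-(P.A : ℤ)) (P.A : ℤ), p6_ex P m c c' D t w i + 8 * P.d * c' +
      ind (¬ Good m w) * (30 * (P.A : ℝ) ^ 5) := by
  by_cases hg : Good m w
  · rw [ind_false (not_not.2 hg), zero_mul, add_zero]
    exact p6_good hm h0 h1 hP P F c c' D ν t hI hc hc' hD ht htT hw hg
  rw [ind_true hg, one_mul]
  have he := P.he'
  have hd := P.hd'
  have hed := P.hed
  have hd4 := P.hd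
  have hA := P.hA
  have hLA : P.L ≤ P.A := by omega
  have hA1 : (100 : ℝ) ≤ P.A := by
    have : 100 ≤ P.A := by omega
    exact_mod_cast this
  obtain ⟨hroot, hsup⟩ := P.W_root h0 hw (t + 1)
  rw [p6_gen P F hroot hsup]
  set u := P.W w (t + 1) with hu
  set X := (P.A : ℝ) ^ 4 with hX
  have hX0 : 0 ≤ X := by positivity
  have hFW : ∀ (i : ℤ) (v : Option Bool), i ∈ Finset.Icc (-(P.A : ℤ)) (P.A : ℤ) →
      |F (P.W (sw w t i v) (t + 1))| ≤ X := by
    intro i v hi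
    apply (hb _ _).1
    have h3 : SupJ (JJ P.T P.A) (sw w t i v) := by
      intro c hc
      rw [sw_of_ne]
      · exact hw c hc
      · intro h4
        apply hc
        have h5 : c = (t, i) := h4
        rw [h5]
        unfold JJ
        rw [Finset.mem_product]
        exact ⟨Finset.mem_range.2 htT, hi⟩
    exact (P.W_root h0 h3 (t + 1)).2.mono (by omega)
  have hFu : |F u| ≤ X := (hb u (hsup.mono (by omega))).1
  have hFR : ∀ (i : ℤ) (b : Bool), |i| ≤ (P.A : ℤ) + 2 → |F (Rf i b u)| ≤ X := fun i b hi =>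
    (hb _ ((hsup.mono (by omega)).Rf (by push_cast; omega) b)).1
  have hνu : ∀ i, |ν u i| ≤ X := (hb u (hsup.mono (by omega))).2
  have hdiff : ∀ {a b : ℝ}, |a| ≤ X → |b| ≤ X → |a - b| ≤ 2 * X := by
    intro a b ha hb
    have := abs_sub a b
    linarith
  have hcomb : ∀ {a b : ℝ}, |a| ≤ 2 * X → |b| ≤ 2 * X → |P.e * a + P.d * b| ≤ X := by
    intro a b ha hb
    have h3 : |P.e * a| ≤ P.e * (2 * X) := by
      rw [abs_mul, abs_of_nonneg he]; exact mul_le_mul_of_nonneg_left ha he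
    have h4 : |P.d * b| ≤ P.d * (2 * X) := by
      rw [abs_mul, abs_of_nonneg hd]; exact mul_le_mul_of_nonneg_left hb hd
    have h5 := abs_add_le (P.e * a) (P.d * b)
    nlinarith
  have hcard : ((Finset.Icc (-(P.A : ℤ)) (P.A : ℤ)).card : ℝ) = 2 * P.A + 1 := by
    rw [Int.card_Icc]
    have h3 : ((P.A : ℤ) + 1 - -(P.A : ℤ)).toNat = 2 * P.A + 1 := by omega
    rw [h3]
    push_cast
    ring
  have hS1 : ∑ i ∈ Finset.Icc (-(P.A : ℤ)) (P.A : ℤ),
      (P.e * (F (P.W (sw w t i (some false)) (t + 1)) - F (P.W (sw w t i none) (t + 1))) +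
        P.d * (F (P.W (sw w t i (some true)) (t + 1)) - F (P.W (sw w t i none) (t + 1)))) ≤
      (2 * P.A + 1) * X := by
    rw [← hcard, ← nsmul_eq_mul]
    apply Finset.sum_le_card_nsmul
    intro i hi
    exact (le_abs_self _).trans (hcomb (hdiff (hFW i _ hi) (hFW i _ hi))
      (hdiff (hFW i _ hi) (hFW i _ hi)))
  have hS2 : -((2 * P.A + 1) * X) ≤ ∑ i ∈ Finset.Icc (-(P.A : ℤ)) (P.A : ℤ),
      (P.e * (F (Rf i false u) - F u) + P.d * (F (Rf i true u) - F u)) := by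
    rw [← hcard, neg_le, ← Finset.sum_neg_distrib, ← nsmul_eq_mul]
    apply Finset.sum_le_card_nsmul
    intro i hi
    have hi' : |i| ≤ (P.A : ℤ) + 2 := by
      have := mem_Icc_abs.1 hi
      omega
    have h3 := neg_le_of_abs_le (hcomb (hdiff (hFR i false hi') hFu) (hdiff (hFR i true hi') hFu))
    linarith
  have hbd : ∀ i : ℤ, |i| ≤ (P.A : ℤ) + 2 →
      -X ≤ P.e * (F (Rf i false u) - F u) + P.d * (F (Rf i true u) - F u) := fun i hi' =>
    neg_le_of_abs_le (hcomb (hdiff (hFR i false hi') hFu) (hdiff (hFR i true hi') hFu))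
  have e1 := hbd (-(P.A : ℤ) - 2) (by
      rcases abs_cases (-(P.A : ℤ) - 2) with ⟨a1, _⟩ | ⟨a1, _⟩ <;> omega)
  have e2 := hbd (-(P.A : ℤ) - 1) (by
      rcases abs_cases (-(P.A : ℤ) - 1) with ⟨a1, _⟩ | ⟨a1, _⟩ <;> omega)
  have e3 := hbd ((P.A : ℤ) + 1) (by
      rcases abs_cases ((P.A : ℤ) + 1) with ⟨a1, _⟩ | ⟨a1, _⟩ <;> omega)
  have e4 := hbd ((P.A : ℤ) + 2) (by
      rcases abs_cases ((P.A : ℤ) + 2) with ⟨a1, _⟩ | ⟨a1, _⟩ <;> omega)
  have hS3 : -((2 * P.A + 1) * X) ≤ ∑ i ∈ Finset.Icc (-(P.A : ℤ)) (P.A : ℤ), p6_nu P m ν t w i := by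
    rw [← hcard, neg_le, ← Finset.sum_neg_distrib, ← nsmul_eq_mul]
    apply Finset.sum_le_card_nsmul
    intro i hi
    have h3 : ∀ A : Prop, |ind A * ν u i| ≤ X := by
      intro A
      rw [abs_mul, abs_of_nonneg (ind_nonneg A)]
      calc ind A * |ν u i| ≤ 1 * X :=
            mul_le_mul (ind_le_one A) (hνu i) (abs_nonneg _) zero_le_one
        _ = X := one_mul X
    have h4 : ∀ A B : Prop, |ind A * ν u i + ind B * ν u i| ≤ 2 * X := by
      intro A B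
      have := abs_add_le (ind A * ν u i) (ind B * ν u i)
      have := h3 A
      have := h3 B
      linarith
    unfold p6_nu
    rw [← hu]
    have h5 := neg_le_of_abs_le (hcomb (h4 (NU P.L m t i (i - 1) false w)
      (NU P.L m t i (i + 1) false w)) (h4 (NU P.L m t i (i - 1) true w)
      (NU P.L m t i (i + 1) true w)))
    linarith
  have hS4 : 0 ≤ ∑ i ∈ Finset.Icc (-(P.A : ℤ)) (P.A : ℤ), p6_ex P m c c' D t w i :=
    Finset.sum_nonneg fun i _ => p6_ex_nonneg P m hc hc' hD t w i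
  have h8 : 0 ≤ 8 * P.d * c' := by positivity
  have hX5 : (P.A : ℝ) ^ 5 = P.A * X := by rw [hX]; ring
  rw [hX5]
  have h9 : 3 * ((2 * P.A + 1) * X) + 4 * X ≤ 30 * (P.A * X) := by
    have : 3 * (2 * (P.A : ℝ) + 1) + 4 ≤ 30 * P.A := by linarith
    nlinarith
  linarith

/-- expectation of the nucleation summand -/
noncomputable def p6_NU (P : Par) (m : ℕ) (ν : (ℤ → Sy) → ℤ → ℝ) (t : ℕ) (r : ℝ) : ℝ :=
  ∑ i ∈ Finset.Icc (-(P.A : ℤ)) (P.A : ℤ),
    (P.e * (Ex (JJ P.T P.A) P.e P.d (hyb t r) (fun w => ind (NU P.L m t i (i - 1) false w) *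
        ν (P.W w (t + 1)) i) + Ex (JJ P.T P.A) P.e P.d (hyb t r) (fun w =>
          ind (NU P.L m t i (i + 1) false w) * ν (P.W w (t + 1)) i)) +
      P.d * (Ex (JJ P.T P.A) P.e P.d (hyb t r) (fun w => ind (NU P.L m t i (i - 1) true w) *
        ν (P.W w (t + 1)) i) + Ex (JJ P.T P.A) P.e P.d (hyb t r) (fun w =>
          ind (NU P.L m t i (i + 1) true w) * ν (P.W w (t + 1)) i)))

lemma p6_NU_eq (P : Par) (m : ℕ) (ν : (ℤ → Sy) → ℤ → ℝ) (t : ℕ) (r : ℝ) :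
    Ex (JJ P.T P.A) P.e P.d (hyb t r)
      (fun w => ∑ i ∈ Finset.Icc (-(P.A : ℤ)) (P.A : ℤ), p6_nu P m ν t w i) = p6_NU P m ν t r := by
  rw [Ex_sum]
  unfold p6_NU
  refine Finset.sum_congr rfl fun i _ => ?_
  unfold p6_nu
  rw [Ex_add, Ex_smul, Ex_smul, Ex_add, Ex_add]

lemma p6_NU_cont (P : Par) (m : ℕ) (ν : (ℤ → Sy) → ℤ → ℝ) (t : ℕ) :
    Continuous fun r => p6_NU P m ν t r := by
  unfold p6_NU
  refine continuous_finsetSum _ fun i _ => ?_
  refine Continuous.add (continuous_const.mul ?_) (continuous_const.mul ?_)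
  · exact (Ex_cont _ _ _ _ _).add (Ex_cont _ _ _ _ _)
  · exact (Ex_cont _ _ _ _ _).add (Ex_cont _ _ _ _ _)

/-- the left side -/
noncomputable def p6_DI (P : Par) (F : (ℤ → Sy) → ℝ) (t : ℕ) (r : ℝ) : ℝ :=
  ∑ i ∈ Finset.Icc (-(P.A : ℤ)) (P.A : ℤ),
    (P.e * Ex (JJ P.T P.A) P.e P.d (hyb t r) (fun w =>
        F (P.W (sw w t i (some false)) (t + 1)) - F (P.W (sw w t i none) (t + 1))) +
      P.d * Ex (JJ P.T P.A) P.e P.d (hyb t r) (fun w =>
        F (P.W (sw w t i (some true)) (t + 1)) - F (P.W (sw w t i none) (t + 1))))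

lemma p6_DI_eq (P : Par) (F : (ℤ → Sy) → ℝ) (t : ℕ) (r : ℝ) :
    Ex (JJ P.T P.A) P.e P.d (hyb t r) (fun w => ∑ i ∈ Finset.Icc (-(P.A : ℤ)) (P.A : ℤ),
      (P.e * (F (P.W (sw w t i (some false)) (t + 1)) - F (P.W (sw w t i none) (t + 1))) +
        P.d * (F (P.W (sw w t i (some true)) (t + 1)) - F (P.W (sw w t i none) (t + 1))))) =
      p6_DI P F t r := by
  rw [Ex_sum]
  unfold p6_DI
  refine Finset.sum_congr rfl fun i _ => ?_
  rw [Ex_add, Ex_smul, Ex_smul]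

lemma p6_DI_cont (P : Par) (F : (ℤ → Sy) → ℝ) (t : ℕ) : Continuous fun r => p6_DI P F t r := by
  unfold p6_DI
  refine continuous_finsetSum _ fun i _ => ?_
  exact (continuous_const.mul (Ex_cont _ _ _ _ _)).add (continuous_const.mul (Ex_cont _ _ _ _ _))

lemma p6_real {Ca Cb Cg Cp c c' d D B bd b q : ℝ} (hCa : 0 ≤ Ca) (hCb : 0 ≤ Cb) (hCg : 0 ≤ Cg)
    (hCp : 0 ≤ Cp) (hc : 0 ≤ c) (hc' : 0 ≤ c') (hd : 0 ≤ d) (hd4 : d ≤ 1 / 4) (hD : 0 ≤ D)
    (hB : 0 ≤ B) (hbd : 0 ≤ bd) (hb : 0 ≤ b) (hq : 0 ≤ q) :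
    (4 * d * c' * Ca * bd + 4 * c * Cb * (d ^ 2 * b) + 4 * c * Cg * (d ^ 3 * q) + 8 * d * c' +
      30 * Cp * bd) + 4 * d * c' * Ca * (d * (2 * D)) * B ≤
    (12 * Ca + 4 * Cb + 4 * Cg + 30 * Cp + 8) * (c * (d ^ 2 * b + d ^ 3 * q) +
      c' * (d ^ 2 * D * B + d) + (1 + c') * bd) := by
  have z0 : 0 ≤ Ca * (c' * bd) := mul_nonneg hCa (mul_nonneg hc' hbd)
  have y1 : 4 * d * c' * Ca * bd ≤ Ca * (c' * bd) := by
    have h1 : 4 * d ≤ 1 := by linarith
    calc 4 * d * c' * Ca * bd = 4 * d * (Ca * (c' * bd)) := by ring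
      _ ≤ 1 * (Ca * (c' * bd)) := mul_le_mul_of_nonneg_right h1 z0
      _ = Ca * (c' * bd) := one_mul _
  have x1 : 0 ≤ c * (d ^ 2 * b) := mul_nonneg hc (mul_nonneg (pow_nonneg hd 2) hb)
  have x2 : 0 ≤ c * (d ^ 3 * q) := mul_nonneg hc (mul_nonneg (pow_nonneg hd 3) hq)
  have x3 : 0 ≤ c' * (d ^ 2 * D * B) :=
    mul_nonneg hc' (mul_nonneg (mul_nonneg (pow_nonneg hd 2) hD) hB)
  have x4 : 0 ≤ c' * d := mul_nonneg hc' hd
  have x5 : 0 ≤ c' * bd := mul_nonneg hc' hbd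
  have w1 : 0 ≤ (12 * Ca + 4 * Cg + 30 * Cp + 8) * (c * (d ^ 2 * b)) :=
    mul_nonneg (by linarith) x1
  have w2 : 0 ≤ (12 * Ca + 4 * Cb + 30 * Cp + 8) * (c * (d ^ 3 * q)) :=
    mul_nonneg (by linarith) x2
  have w3 : 0 ≤ (4 * Ca + 4 * Cb + 4 * Cg + 30 * Cp + 8) * (c' * (d ^ 2 * D * B)) :=
    mul_nonneg (by linarith) x3
  have w4 : 0 ≤ (12 * Ca + 4 * Cb + 4 * Cg + 30 * Cp) * (c' * d) := mul_nonneg (by linarith) x4
  have w5 : 0 ≤ (11 * Ca + 4 * Cb + 4 * Cg + 30 * Cp + 8) * (c' * bd) := mul_nonneg (by linarith) x5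
  have w6 : 0 ≤ (12 * Ca + 4 * Cb + 4 * Cg + 8) * bd := mul_nonneg (by linarith) hbd
  linarith

theorem thm_P6M (m : ℕ) (hm : 1 ≤ m) (h0 : St_Root) (h1 : St_L1) (hP : St_Path m)
    (hA : St_Alpha m) (hB : St_Beta m) (hG : St_Gamma m) (hg : St_PG m) (hR : St_Russo)
    (hGd : St_Gd) : St_P6M m := by
  obtain ⟨Ca, hCa, hA⟩ := hA
  obtain ⟨Cb, hCb, hB⟩ := hB
  obtain ⟨Cg, hCg, hG⟩ := hG
  obtain ⟨Cp, hCp, hg⟩ := hg
  refine ⟨12 * Ca + 4 * Cb + 4 * Cg + 30 * Cp + 8, by positivity, ?_⟩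
  intro P F c c' D ν t hI hc hc' hb hD ht htT
  have he := P.he'
  have hd := P.hd'
  have hed := P.hed
  have hd4 := P.hd
  have hPA := P.hA
  have hsum := P.hsum
  have hLA : P.L ≤ P.A := by omega
  have hA1 : 1 ≤ P.A := by omega
  have hA1' : (1 : ℝ) ≤ P.A := by exact_mod_cast hA1
  have hbad := bad_nonneg P m
  have hbc := bc_nonneg P (t - KK m)
  have hQ := Q_nonneg P (t - 2 * KK m)
  set K1 : ℝ := 4 * P.d * c' * Ca * P.bad m + 4 * c * Cb * (P.d ^ 2 * P.bc (t - KK m)) +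
    4 * c * Cg * (P.d ^ 3 * P.Q (t - 2 * KK m)) + 8 * P.d * c' + 30 * Cp * P.bad m with hK1
  set K2 : ℝ := 4 * P.d * c' * Ca * (P.d * (2 * D)) with hK2
  -- the inequality for every `r`
  have hpt : ∀ r ∈ Set.Icc (0 : ℝ) 1, p6_DI P F t r ≤
      (P.d * Ex (JJ P.T P.A) P.e P.d (hyb t r) (fun w => Lg F (P.W w (t + 1))) -
        (P.d - P.e) * Ex (JJ P.T P.A) P.e P.d (hyb t r) (fun w => Lb false F (P.W w (t + 1)))) +
      p6_NU P m ν t r + (K1 + K2 * Ex (JJ P.T P.A) P.e P.d (hyb t r) (fun w => Bn (P.W w (t + 1)))) := by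
    rintro r ⟨hr0, hr1⟩
    have hh := hyb_mem t hr0 hr1
    have h2 : p6_DI P F t r ≤ Ex (JJ P.T P.A) P.e P.d (hyb t r) (fun w =>
        (P.d * Lg F (P.W w (t + 1)) - (P.d - P.e) * Lb false F (P.W w (t + 1))) +
        ∑ i ∈ Finset.Icc (-(P.A : ℤ)) (P.A : ℤ), p6_nu P m ν t w i +
        ∑ i ∈ Finset.Icc (-(P.A : ℤ)) (P.A : ℤ), p6_ex P m c c' D t w i + 8 * P.d * c' +
        ind (¬ Good m w) * (30 * (P.A : ℝ) ^ 5)) := by
      rw [← p6_DI_eq]
      exact Ex_mono he hd hsum hh fun w hw =>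
        p6_all hm h0 h1 hP P F c c' D ν t hI hc hc' hb hD ht htT hw
    rw [Ex_add, Ex_add, Ex_add, Ex_add, Ex_const, p6_NU_eq, Ex_sub, Ex_smul, Ex_smul] at h2
    have h3 : Ex (JJ P.T P.A) P.e P.d (hyb t r)
        (fun w => ∑ i ∈ Finset.Icc (-(P.A : ℤ)) (P.A : ℤ), p6_ex P m c c' D t w i) ≤
        4 * P.d * c' * (Ca * (P.d * (2 * D *
          Ex (JJ P.T P.A) P.e P.d (hyb t r) (fun w => Bn (P.W w (t + 1)))) + P.bad m)) +
        4 * P.d * c * (Cb * (P.d * P.bc (t - KK m))) +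
        4 * P.d * c * (Cg * (P.d ^ 2 * P.Q (t - 2 * KK m))) := by
      rw [Ex_sum]
      have h4 : ∀ i, Ex (JJ P.T P.A) P.e P.d (hyb t r) (fun w => p6_ex P m c c' D t w i) =
          4 * P.d * c' * Ex (JJ P.T P.A) P.e P.d (hyb t r) (fun w =>
            ind (Dty m t i w ∧ NoS P.L m t i w) * Gd D (P.W w (t + 1)) i) +
          4 * P.d * c * Ex (JJ P.T P.A) P.e P.d (hyb t r) (fun w =>
            ind (Dty m t i w ∧ SEn P.L m t i w)) +
          4 * P.d * c * Ex (JJ P.T P.A) P.e P.d (hyb t r) (fun w =>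
            ind (Two m t i w ∧ Stn P.L m t i w)) := by
        intro i
        unfold p6_ex
        rw [Ex_add, Ex_add, Ex_smul, Ex_smul, Ex_smul]
      simp only [h4]
      rw [Finset.sum_add_distrib, Finset.sum_add_distrib, ← Finset.mul_sum, ← Finset.mul_sum,
        ← Finset.mul_sum]
      have hα := hA P D t r hr0 hr1 hD ht htT
      have hβ := hB P t r hr0 hr1 ht htT
      have hγ := hG P t r hr0 hr1 ht htT
      have hgd : ∑ i ∈ Finset.Icc (-(P.A : ℤ)) (P.A : ℤ), Ex (JJ P.T P.A) P.e P.d (hyb t r)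
          (fun w => Gd D (P.W w (t + 1)) i) ≤
          2 * D * Ex (JJ P.T P.A) P.e P.d (hyb t r) (fun w => Bn (P.W w (t + 1))) := by
        rw [← Ex_sum, ← Ex_smul]
        exact Ex_mono he hd hsum hh fun w hw => hGd _ _ _ _ hD (P.W_root h0 hw (t + 1)).2
      have hα2 := hα.trans (mul_le_mul_of_nonneg_left (add_le_add
        (mul_le_mul_of_nonneg_left hgd hd) (le_refl (P.bad m))) hCa.le)
      have h5 : 0 ≤ 4 * P.d * c' := by positivity
      have h6 : 0 ≤ 4 * P.d * c := by positivity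
      exact add_le_add (add_le_add (mul_le_mul_of_nonneg_left hα2 h5)
        (mul_le_mul_of_nonneg_left hβ h6)) (mul_le_mul_of_nonneg_left hγ h6)
    have h7 : Ex (JJ P.T P.A) P.e P.d (hyb t r)
        (fun w => ind (¬ Good m w) * (30 * (P.A : ℝ) ^ 5)) ≤ 30 * Cp * P.bad m := by
      have h8 := hg P.T P.A P.e P.d (hyb t r) he hed hd4 P.hT hA1 hh
      have h9 : Ex (JJ P.T P.A) P.e P.d (hyb t r)
          (fun w => ind (¬ Good m w) * (30 * (P.A : ℝ) ^ 5)) =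
          30 * (P.A : ℝ) ^ 5 * Ex (JJ P.T P.A) P.e P.d (hyb t r) (fun w => ind (¬ Good m w)) := by
        rw [← Ex_smul]
        exact Ex_congr fun w _ => mul_comm _ _
      rw [h9]
      calc 30 * (P.A : ℝ) ^ 5 * Ex (JJ P.T P.A) P.e P.d (hyb t r) (fun w => ind (¬ Good m w))
          ≤ 30 * (P.A : ℝ) ^ 5 * (Cp * P.T * P.A * (2 * P.d) ^ m) :=
            mul_le_mul_of_nonneg_left h8 (by positivity)
        _ = 30 * Cp * (P.T * (P.A : ℝ) ^ 6 * (2 * P.d) ^ m) := by ring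
        _ ≤ 30 * Cp * P.bad m := by
            apply mul_le_mul_of_nonneg_left _ (by positivity)
            unfold Par.bad
            apply mul_le_mul_of_nonneg_right _ (by positivity)
            apply mul_le_mul_of_nonneg_left _ (by positivity)
            exact pow_le_pow_right₀ hA1' (by norm_num)
    rw [hK1, hK2]
    linarith
  -- integration over `r`
  have hint : P.EF F (t + 1) - P.EF F t ≤ P.dr F t + P.NUC m ν t + (K1 + K2 * P.AV Bn t) := by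
    have h2 := hR P.T P.A t P.e P.d (fun w => F (P.W w (t + 1))) htT
    rw [EF_succ, EF_zero P h0, h2]
    have hc1 : Continuous fun r => p6_DI P F t r := p6_DI_cont P F t
    have hc2 : Continuous fun r => p6_NU P m ν t r := p6_NU_cont P m ν t
    have h3 : (∫ r in (0 : ℝ)..1, p6_DI P F t r) ≤ ∫ r in (0 : ℝ)..1,
        ((P.d * Ex (JJ P.T P.A) P.e P.d (hyb t r) (fun w => Lg F (P.W w (t + 1))) -
          (P.d - P.e) * Ex (JJ P.T P.A) P.e P.d (hyb t r) (fun w => Lb false F (P.W w (t + 1)))) +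
        p6_NU P m ν t r +
          (K1 + K2 * Ex (JJ P.T P.A) P.e P.d (hyb t r) (fun w => Bn (P.W w (t + 1))))) := by
      refine intervalIntegral.integral_mono_on zero_le_one (hc1.intervalIntegrable 0 1) ?_ hpt
      apply Continuous.intervalIntegrable
      exact (((continuous_const.mul (Ex_cont _ _ _ _ _)).sub
        (continuous_const.mul (Ex_cont _ _ _ _ _))).add hc2).add
        (continuous_const.add (continuous_const.mul (Ex_cont _ _ _ _ _)))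
    refine h3.trans (le_of_eq ?_)
    rw [intervalIntegral.integral_add, intervalIntegral.integral_add,
      intervalIntegral.integral_sub, intervalIntegral.integral_add,
      intervalIntegral.integral_const_mul, intervalIntegral.integral_const_mul,
      intervalIntegral.integral_const_mul]
    · unfold Par.dr Par.AV Par.NUC p6_NU
      simp
    · exact continuous_const.intervalIntegrable 0 1
    · exact (continuous_const.mul (Ex_cont _ _ _ _ _)).intervalIntegrable 0 1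
    · exact (continuous_const.mul (Ex_cont _ _ _ _ _)).intervalIntegrable 0 1
    · exact (continuous_const.mul (Ex_cont _ _ _ _ _)).intervalIntegrable 0 1
    · exact ((continuous_const.mul (Ex_cont _ _ _ _ _)).sub
        (continuous_const.mul (Ex_cont _ _ _ _ _))).intervalIntegrable 0 1
    · exact hc2.intervalIntegrable 0 1
    · exact (((continuous_const.mul (Ex_cont _ _ _ _ _)).sub
        (continuous_const.mul (Ex_cont _ _ _ _ _))).add hc2).intervalIntegrable 0 1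
    · exact (continuous_const.add (continuous_const.mul (Ex_cont _ _ _ _ _))).intervalIntegrable 0 1
  refine hint.trans ?_
  have hBn : 0 ≤ P.AV Bn t := AV_nonneg P h0 (fun u _ _ => Bn_nonneg u) t
  have hfin := p6_real hCa.le hCb.le hCg.le hCp.le hc hc' hd hd4 (Nat.cast_nonneg D) hBn hbad hbc hQ
  rw [hK1, hK2]
  linarith

end Pool.Agent.T3M
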