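import Mathlib
import Pool.Agent.T3M.MP6M

/-! Short runs and discounted distances (helper91). -/

set_option autoImplicit false

namespace Pool.Agent.T3M

lemma ll_eq {u : ℤ → Sy} {p : ℤ} {k : ℕ} (h1 : u (p - k) ≠ u p)
    (h2 : ∀ j : ℕ, j < k → u (p - j) = u p) : ll u p = k := by
  unfold ll
  apply le_antisymm
  · exact Nat.sInf_le h1
  · apply le_csInf ⟨k, h1⟩
    intro j hj
    by_contra hc
    exact hj (h2 j (not_le.1 hc))

lemma dl_eq {u : ℤ → Sy} {p : ℤ} {k : ℕ} (h1 : u (p - k) = .s)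
    (h2 : ∀ j : ℕ, j < k → u (p - j) ≠ .s) : dl u p = k := by
  unfold dl
  apply le_antisymm
  · exact Nat.sInf_le h1
  · apply le_csInf ⟨k, h1⟩
    intro j hj
    by_contra hc
    exact h2 j (not_le.1 hc) hj

/-- the summand of `SL` -/
noncomputable def f3_t (D : ℕ) (u : ℤ → Sy) (p : ℤ) : ℝ :=
  ind (CW u p ∧ dl u p ≠ 0 ∧ ll u p ≤ 3) * th D ^ (dl u p - ll u p)

lemma f3_t_nonneg {D : ℕ} (hD : 1 ≤ D) (u : ℤ → Sy) (p : ℤ) : 0 ≤ f3_t D u p :=
  mul_nonneg (ind_nonneg _) (pow_nonneg (th_mem hD).1.le _)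

lemma f3_t_out {D N : ℕ} {u : ℤ → Sy} (h : Sup N u) {p : ℤ} (hp : ((N + 1 : ℕ) : ℤ) < |p|) :
    f3_t D u p = 0 := by
  unfold f3_t
  rw [ind_false, zero_mul]
  rintro ⟨⟨_, _, h3⟩, _⟩
  apply h3
  push_cast at hp
  rw [h p (by omega), h (p + 1) (by
    rcases abs_cases p with ⟨h1, _⟩ | ⟨h1, _⟩ <;>
      rcases abs_cases (p + 1) with ⟨h2, _⟩ | ⟨h2, _⟩ <;> omega)]

/-- a run of length three next to a star on the left -/
lemma f3_one {D : ℕ} {u : ℤ → Sy} {p : ℤ} (h0 : u p ≠ .s) (h1 : u (p - 1) = u p)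
    (h2 : u (p - 2) = u p) (h3 : u (p - 3) = .s) (h4 : u (p + 1) ≠ .s) (h5 : u (p + 1) ≠ u p) :
    f3_t D u p = 1 := by
  have hl : ll u p = 3 := by
    apply ll_eq
    · push_cast
      rw [h3]; exact h0.symm
    · intro j hj
      interval_cases j
      · simp
      · push_cast; exact h1
      · push_cast; exact h2
  have hd : dl u p = 3 := by
    apply dl_eq
    · push_cast
      exact h3
    · intro j hj
      interval_cases j
      · simpa using h0
      · push_cast; rw [h1]; exact h0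
      · push_cast; rw [h2]; exact h0
  unfold f3_t
  rw [hl, hd, ind_true ⟨⟨h0, h4, h5.symm⟩, by norm_num, le_rfl⟩]
  simp

lemma f3_pt {D : ℕ} (hD : 1 ≤ D) (u : ℤ → Sy) (i : ℤ) :
    ind (F3 u i) ≤ f3_t D u (i + 2) + f3_t D (rev u) (-i) := by
  have n1 := f3_t_nonneg hD u (i + 2)
  have n2 := f3_t_nonneg hD (rev u) (-i)
  by_cases h : F3 u i
  · rw [ind_true h]
    obtain ⟨a1, a2, a3, a4, a5, a6⟩ := h
    by_cases hs : u (i - 1) = .s
    · have hs' : u (i + 3) ≠ .s := fun h => a6 ⟨fun _ => h, fun _ => hs⟩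
      have := f3_one (D := D) (u := u) (p := i + 2) (by rw [a3]; exact a1)
        (by rw [show i + 2 - 1 = i + 1 by ring, a2, a3]) (by rw [show i + 2 - 2 = i by ring, a3])
        (by rw [show i + 2 - 3 = i - 1 by ring]; exact hs)
        (by rw [show i + 2 + 1 = i + 3 by ring]; exact hs')
        (by rw [show i + 2 + 1 = i + 3 by ring, a3]; exact a5)
      linarith
    · have hs' : u (i + 3) = .s := by
        by_contra h
        exact a6 ⟨fun h' => absurd h' hs, fun h' => absurd h' h⟩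
      have := f3_one (D := D) (u := rev u) (p := -i)
        (by unfold rev; rw [neg_neg]; exact a1)
        (by unfold rev; rw [neg_neg, show -(-i - 1) = i + 1 by ring]; exact a2)
        (by unfold rev; rw [neg_neg, show -(-i - 2) = i + 2 by ring]; exact a3)
        (by unfold rev; rw [show -(-i - 3) = i + 3 by ring]; exact hs')
        (by unfold rev; rw [show -(-i + 1) = i - 1 by ring]; exact hs)
        (by unfold rev; rw [neg_neg, show -(-i + 1) = i - 1 by ring]; exact a4)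
      linarith
  · rw [ind_false h]
    exact add_nonneg n1 n2

theorem thm_F3 : St_F3 := by
  intro u N D hD hr hS
  have hD1 : 1 ≤ D := by omega
  have e1 : SL D u = ∑ᶠ i, f3_t D u (i + 2) := (fs_shift (fun p => f3_t D u p) 2).symm
  have e2 : SL D (rev u) = ∑ᶠ i, f3_t D (rev u) (-i) := (fs_neg (fun p => f3_t D (rev u) p)).symm
  have o1 : ∀ i : ℤ, ((N + 4 : ℕ) : ℤ) < |i| → f3_t D u (i + 2) = 0 := by
    intro i hi
    apply f3_t_out hS
    push_cast at hi ⊢
    rcases abs_cases i with ⟨h1, _⟩ | ⟨h1, _⟩ <;>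
      rcases abs_cases (i + 2) with ⟨h2, _⟩ | ⟨h2, _⟩ <;> omega
  have o2 : ∀ i : ℤ, ((N + 4 : ℕ) : ℤ) < |i| → f3_t D (rev u) (-i) = 0 := by
    intro i hi
    apply f3_t_out hS.rev
    rw [abs_neg]
    push_cast at hi ⊢
    omega
  rw [e1, e2, ← fs_add (N + 4) o1 o2]
  unfold f3
  refine fs_le (N + 4) (fun i hi => ?_) (fun i hi => by rw [o1 i hi, o2 i hi, add_zero])
    fun i => f3_pt hD1 u i
  apply ind_false
  rintro ⟨a1, a2, a3, a4, a5, a6⟩
  push_cast at hi
  apply a6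
  rw [hS (i - 1) (by
    rcases abs_cases i with ⟨h1, _⟩ | ⟨h1, _⟩ <;>
      rcases abs_cases (i - 1) with ⟨h2, _⟩ | ⟨h2, _⟩ <;> omega), hS (i + 3) (by
    rcases abs_cases i with ⟨h1, _⟩ | ⟨h1, _⟩ <;>
      rcases abs_cases (i + 3) with ⟨h2, _⟩ | ⟨h2, _⟩ <;> omega)]

/-! ### Discounted distances -/

lemma gd_geom {D : ℕ} (hD : 1 ≤ D) (M : ℕ) : ∑ k ∈ Finset.range M, th D ^ k ≤ 2 * D := by
  obtain ⟨t0, t1⟩ := th_mem hD
  have h1 := geom_sum_mul_neg (th D) M
  have h2 : 0 ≤ th D ^ M := pow_nonneg t0.le M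
  have hD' : (1 : ℝ) ≤ D := by exact_mod_cast hD
  have h3 : 1 - th D = 1 / (2 * D) := by unfold th; ring
  rw [h3] at h1
  have h4 : (0 : ℝ) < 2 * D := by linarith
  have h5 : (∑ k ∈ Finset.range M, th D ^ k) = (1 - th D ^ M) * (2 * D) := by
    rw [← h1]
    field_simp
  rw [h5]
  nlinarith

/-- the sum over the sites to the right of `a` -/
lemma gd_right {D : ℕ} (hD : 1 ≤ D) (A : ℕ) (a : ℤ) :
    ∑ i ∈ (Finset.Icc (-(A : ℤ)) (A : ℤ)).filter (fun i => a < i), th D ^ (i - a).toNat ≤ 2 * D := by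
  classical
  obtain ⟨t0, t1⟩ := th_mem hD
  have hinj : Set.InjOn (fun i : ℤ => (i - a).toNat)
      ((Finset.Icc (-(A : ℤ)) (A : ℤ)).filter (fun i => a < i)) := by
    intro i hi j hj hij
    rw [Finset.coe_filter] at hi hj
    have h1 : a < i := hi.2
    have h2 : a < j := hj.2
    have h3 : (i - a).toNat = (j - a).toNat := hij
    omega
  have h1 := Finset.sum_image (f := fun k => th D ^ k) hinj
  rw [← h1]
  refine le_trans ?_ (gd_geom hD ((A : ℤ) - a).toNat.succ)
  apply Finset.sum_le_sum_of_subset_of_nonneg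
  · intro k hk
    rw [Finset.mem_image] at hk
    obtain ⟨i, hi, rfl⟩ := hk
    rw [Finset.mem_filter, Finset.mem_Icc] at hi
    rw [Finset.mem_range]
    omega
  · intro k _ _
    exact pow_nonneg t0.le k

lemma gd_pt {D N : ℕ} (hD : 1 ≤ D) {u : ℤ → Sy} (hS : Sup N u) (i : ℤ) :
    Gd D u i ≤ ∑ a ∈ Finset.Icc (-((N + 1 : ℕ) : ℤ)) ((N + 1 : ℕ) : ℤ),
      ind (SE u a) * (if a < i then th D ^ (i - a).toNat else 0) := by
  obtain ⟨t0, t1⟩ := th_mem hD
  have hnn : ∀ a ∈ Finset.Icc (-((N + 1 : ℕ) : ℤ)) ((N + 1 : ℕ) : ℤ),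
      0 ≤ ind (SE u a) * (if a < i then th D ^ (i - a).toNat else 0) := by
    intro a _
    refine mul_nonneg (ind_nonneg _) ?_
    split_ifs
    · exact pow_nonneg t0.le _
    · exact le_rfl
  by_cases h0 : dl u i = 0
  · unfold Gd
    rw [ind_false (not_not.2 h0), zero_mul]
    exact Finset.sum_nonneg hnn
  · have hne : {j : ℕ | u (i - j) = .s}.Nonempty := by
      by_contra hc
      rw [Set.not_nonempty_iff_eq_empty] at hc
      apply h0
      unfold dl
      rw [hc, Nat.sInf_empty]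
    have h1 : u (i - (dl u i : ℕ)) = .s := Nat.sInf_mem hne
    have h2 : u (i - ((dl u i - 1 : ℕ) : ℤ)) ≠ .s := by
      intro hc
      have h3 : dl u i ≤ dl u i - 1 := Nat.sInf_le hc
      omega
    have ha : (i - (dl u i : ℤ)) ∈ Finset.Icc (-((N + 1 : ℕ) : ℤ)) ((N + 1 : ℕ) : ℤ) := by
      rw [mem_Icc_abs]
      by_contra hc
      rw [hS _ (by push_cast at hc ⊢; omega)] at h1
      simp at h1
    have hSE : SE u (i - (dl u i : ℤ)) := by
      unfold SE
      have h4 : i - (dl u i : ℤ) + 1 = i - ((dl u i - 1 : ℕ) : ℤ) := by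
        have : 1 ≤ dl u i := Nat.one_le_iff_ne_zero.2 h0
        push_cast [Nat.cast_sub this]
        ring
      rw [h4]
      intro hc
      exact h2 (hc.1 h1)
    have h5 : Gd D u i = ind (SE u (i - (dl u i : ℤ))) *
        (if i - (dl u i : ℤ) < i then th D ^ (i - (i - (dl u i : ℤ))).toNat else 0) := by
      unfold Gd
      rw [ind_true h0, ind_true hSE, if_pos (by omega), show i - (i - (dl u i : ℤ)) = dl u i by ring]
      simp
    rw [h5]
    exact Finset.single_le_sum (f := fun a => ind (SE u a) *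
      (if a < i then th D ^ (i - a).toNat else 0)) hnn ha

theorem thm_Gd : St_Gd := by
  intro u N A D hD hS
  refine (Finset.sum_le_sum fun i _ => gd_pt hD hS i).trans ?_
  rw [Finset.sum_comm, Bn_eq hS, Finset.mul_sum]
  refine Finset.sum_le_sum fun a _ => ?_
  rw [← Finset.mul_sum, mul_comm (2 * (D : ℝ))]
  apply mul_le_mul_of_nonneg_left _ (ind_nonneg _)
  rw [← Finset.sum_filter]
  exact gd_right hD A a

end Pool.Agent.T3M
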