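import Mathlib
import Pool.Agent.T3M.MP6M

/-! The four drift inequalities (helper91). -/

set_option autoImplicit false

namespace Pool.Agent.T3M

open MeasureTheory

/-! ### Sizes -/

lemma p6x_kap {D : ℕ} (hD : 1 ≤ D) (l : ℕ) : 0 ≤ kap D l ∧ kap D l ≤ 1 := by
  have h1 : (1 : ℝ) ≤ D := by exact_mod_cast hD
  have h2 : (0 : ℝ) < 2 * (D : ℝ) ^ 2 := by positivity
  unfold kap
  split_ifs with h3 h4
  · have h5 : (l : ℝ) ≤ D := by exact_mod_cast h3
    have h6 : (0 : ℝ) ≤ l := Nat.cast_nonneg l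
    have h7 : (l : ℝ) ^ 2 / (2 * (D : ℝ) ^ 2) ≤ 1 := by
      rw [div_le_one h2]; nlinarith
    have h8 : 0 ≤ (l : ℝ) ^ 2 / (2 * (D : ℝ) ^ 2) := by positivity
    constructor <;> linarith
  · have h5 : (l : ℝ) ≤ 2 * D := by exact_mod_cast h4
    have h6 : (D : ℝ) ≤ l := by exact_mod_cast (not_le.1 h3).le
    refine ⟨by positivity, ?_⟩
    rw [div_le_one h2]
    nlinarith
  · exact ⟨le_rfl, zero_le_one⟩

lemma p6x_card (n : ℕ) : ((Finset.Icc (-(n : ℤ)) (n : ℤ)).card : ℝ) = 2 * n + 1 := by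
  rw [Int.card_Icc]
  have h3 : ((n : ℤ) + 1 - -(n : ℤ)).toNat = 2 * n + 1 := by omega
  rw [h3]
  push_cast
  ring

/-- a sum of terms in `[0, x]` which vanish outside an interval -/
lemma p6x_sum {f : ℤ → ℝ} {n : ℕ} {x : ℝ} (h0 : ∀ i : ℤ, (n : ℤ) < |i| → f i = 0)
    (h : ∀ i, 0 ≤ f i ∧ f i ≤ x) : 0 ≤ ∑ᶠ i, f i ∧ ∑ᶠ i, f i ≤ (2 * n + 1) * x := by
  refine ⟨fs_nonneg fun i => (h i).1, ?_⟩
  rw [fs_eq n h0, ← p6x_card, ← nsmul_eq_mul]
  exact Finset.sum_le_card_nsmul _ _ _ fun i _ => (h i).2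

lemma p6x_nst {n : ℕ} {u : ℤ → Sy} (h : Sup n u) : nst u ≤ 2 * n + 1 := by
  have := (p6x_sum (fun i hi => st_out h hi) fun i => ⟨st_nonneg u i, st_le_one u i⟩).2
  rw [mul_one] at this
  exact this

lemma p6x_Bn {n : ℕ} {u : ℤ → Sy} (h : Sup n u) : Bn u ≤ 2 * n + 3 := by
  have h1 := (p6x_sum (fun i hi => SE_out h hi) fun i => ⟨ind_nonneg (SE u i), ind_le_one _⟩).2
  rw [mul_one] at h1
  unfold Bn
  push_cast at h1
  linarith

lemma p6x_Psi {n : ℕ} {u : ℤ → Sy} (h : Sup n u) : 0 ≤ Psi u ∧ Psi u ≤ 3 * n + 3 := by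
  have h1 := p6x_nst h
  have h2 := p6x_Bn h
  have h3 := nst_nonneg u
  have h4 := Bn_nonneg u
  unfold Psi
  constructor <;> linarith

lemma p6x_Zs {n D : ℕ} (hD : 1 ≤ D) {u : ℤ → Sy} (h : Sup n u) :
    0 ≤ Zs D u ∧ Zs D u ≤ 2 * n + 1 := by
  have h1 := p6x_sum (f := fun p => ind (u p = .s ∧ u (p + 1) ≠ .s) * kap D (ll u p)) (n := n)
    (x := 1) (fun i hi => by
      show ind (u i = .s ∧ u (i + 1) ≠ .s) * kap D (ll u i) = 0
      rw [ind_false (by rw [h i hi]; simp), zero_mul]) (fun i => by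
      obtain ⟨a, b⟩ := p6x_kap hD (ll u i)
      have c := ind_nonneg (u i = .s ∧ u (i + 1) ≠ .s)
      have d := ind_le_one (u i = .s ∧ u (i + 1) ≠ .s)
      exact ⟨mul_nonneg c a, by nlinarith⟩)
  rw [mul_one] at h1
  exact h1

lemma p6x_ZL {n D : ℕ} (hD : 1 ≤ D) {u : ℤ → Sy} (h : Sup n u) :
    0 ≤ ZL D u ∧ ZL D u ≤ 2 * n + 3 := by
  obtain ⟨t0, t1⟩ := th_mem hD
  have h1 := p6x_sum (f := fun p => ind (CW u p ∧ dl u p ≠ 0) *
    (th D ^ (dl u p - ll u p) * kap D (ll u p))) (n := n + 1)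
    (x := 1) (fun i hi => by
      show ind (CW u i ∧ dl u i ≠ 0) * (th D ^ (dl u i - ll u i) * kap D (ll u i)) = 0
      rw [ind_false, zero_mul]
      rintro ⟨⟨_, _, h3⟩, _⟩
      apply h3
      push_cast at hi
      rw [h i (by omega), h (i + 1) (by
        rcases abs_cases i with ⟨h1, _⟩ | ⟨h1, _⟩ <;>
          rcases abs_cases (i + 1) with ⟨h2, _⟩ | ⟨h2, _⟩ <;> omega)]) (fun i => by
      obtain ⟨a, b⟩ := p6x_kap hD (ll u i)
      have c := ind_nonneg (CW u i ∧ dl u i ≠ 0)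
      have d := ind_le_one (CW u i ∧ dl u i ≠ 0)
      have e := pow_nonneg t0.le (dl u i - ll u i)
      have f := pow_le_one₀ (n := dl u i - ll u i) t0.le t1
      have g := mul_nonneg e a
      have k : th D ^ (dl u i - ll u i) * kap D (ll u i) ≤ 1 := mul_le_one₀ f a b
      exact ⟨mul_nonneg c g, mul_le_one₀ d g k⟩)
  rw [mul_one] at h1
  push_cast at h1
  refine ⟨h1.1, ?_⟩
  unfold ZL
  linarith [h1.2]

lemma p6x_Tq {n R : ℕ} (hR : 1 ≤ R) {u : ℤ → Sy} (h : Sup n u) :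
    0 ≤ Tq R u ∧ Tq R u ≤ R * (2 * (n + R) + 1) := by
  have hR' : (1 : ℝ) ≤ R := by exact_mod_cast hR
  have h1 := p6x_sum (f := fun x : ℤ => (∑ j ∈ Finset.range R, st u (x + j)) ^ 2) (n := n + R)
    (x := (R : ℝ) ^ 2) (fun i hi => by
      show (∑ j ∈ Finset.range R, st u (i + j)) ^ 2 = 0
      rw [Finset.sum_eq_zero, zero_pow two_ne_zero]
      intro j hj
      apply st_out h
      have hj' := Finset.mem_range.1 hj
      push_cast at hi
      rcases abs_cases i with ⟨h1, _⟩ | ⟨h1, _⟩ <;>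
          rcases abs_cases (i + (j : ℤ)) with ⟨h2, _⟩ | ⟨h2, _⟩ <;> omega) (fun i => by
      refine ⟨sq_nonneg _, ?_⟩
      have h2 : 0 ≤ ∑ j ∈ Finset.range R, st u (i + j) := Finset.sum_nonneg fun j _ => st_nonneg _ _
      have h3 : ∑ j ∈ Finset.range R, st u (i + j) ≤ R := by
        have := Finset.sum_le_card_nsmul (Finset.range R) (fun j => st u (i + j)) 1
          fun j _ => st_le_one _ _
        rw [Finset.card_range, nsmul_eq_mul, mul_one] at this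
        exact this
      exact pow_le_pow_left₀ h2 h3 2)
  unfold Tq
  push_cast at h1
  refine ⟨mul_nonneg (by positivity) h1.1, ?_⟩
  calc 1 / (2 * (R : ℝ)) * ∑ᶠ x : ℤ, (∑ j ∈ Finset.range R, st u (x + j)) ^ 2
      ≤ 1 / (2 * (R : ℝ)) * ((2 * (n + R) + 1) * (R : ℝ) ^ 2) :=
        mul_le_mul_of_nonneg_left h1.2 (by positivity)
    _ = (R : ℝ) * (2 * (n + R) + 1) / 2 := by field_simp
    _ ≤ R * (2 * (n + R) + 1) := by
        have : 0 ≤ (R : ℝ) * (2 * (n + R) + 1) := by positivity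
        linarith

/-! ### Star edges, stars, steps in time -/

lemma p6x_Bn_nst {n : ℕ} {u : ℤ → Sy} (h : Sup n u) : Bn u ≤ 2 * nst u := by
  have h0 : ∀ i : ℤ, ((n + 1 : ℕ) : ℤ) < |i| → st u i = 0 := fun i hi =>
    st_out h (by push_cast at hi; omega)
  have h0' : ∀ i : ℤ, ((n + 1 : ℕ) : ℤ) < |i| → st u (i + 1) = 0 := fun i hi =>
    st_out h (by
      push_cast at hi
      rcases abs_cases i with ⟨h1, _⟩ | ⟨h1, _⟩ <;>
          rcases abs_cases (i + 1) with ⟨h2, _⟩ | ⟨h2, _⟩ <;> omega)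
  have h1 : ∑ᶠ i, (st u i + st u (i + 1)) = 2 * nst u := by
    rw [fs_add (n + 1) h0 h0', fs_shift (fun i => st u i) 1]
    unfold nst
    ring
  rw [← h1]
  unfold Bn
  refine fs_le (n + 1) (fun i hi => SE_out h hi) (fun i hi => by rw [h0 i hi, h0' i hi, add_zero])
    fun i => ?_
  unfold st
  by_cases ha : SE u i
  · rw [ind_true ha]
    by_cases hb : u i = .s
    · rw [ind_true hb]; linarith [ind_nonneg (u (i + 1) = .s)]
    · have hc : u (i + 1) = .s := by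
        by_contra hc
        exact ha ⟨fun h => absurd h hb, fun h => absurd h hc⟩
      rw [ind_true hc]; linarith [ind_nonneg (u i = .s)]
  · rw [ind_false ha]
    exact add_nonneg (ind_nonneg _) (ind_nonneg _)

lemma p6x_nst_step {A : ℕ} {u v : ℤ → Sy} (hu : Sup A u) (hv : Sup A v) (k : ℕ)
    (h : ∀ i, v i = .s → ∃ j : ℤ, |j - i| ≤ (k : ℤ) ∧ u j = .s) :
    nst v ≤ (2 * k + 1) * nst u := by
  have h1 : ∀ i, st v i ≤ ∑ j ∈ Finset.Icc (-(k : ℤ)) (k : ℤ), st u (i + j) := by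
    intro i
    by_cases hi : v i = .s
    · obtain ⟨j, hj, hj2⟩ := h i hi
      rw [st_def, ind_true hi]
      have h2 : st u (i + (j - i)) = 1 := by
        rw [show i + (j - i) = j by ring]
        exact ind_true hj2
      rw [← h2]
      exact Finset.single_le_sum (f := fun j => st u (i + j)) (fun j _ => st_nonneg _ _)
        (mem_Icc_abs.2 hj)
    · rw [st_def, ind_false hi]
      exact Finset.sum_nonneg fun j _ => st_nonneg _ _
  have h2 : ∑ᶠ i, ∑ j ∈ Finset.Icc (-(k : ℤ)) (k : ℤ), st u (i + j) = (2 * k + 1) * nst u := by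
    rw [finsum_sum_comm]
    · have h3 : ∀ j ∈ Finset.Icc (-(k : ℤ)) (k : ℤ), ∑ᶠ i, st u (i + j) = nst u := fun j _ =>
        fs_shift (fun i => st u i) j
      rw [Finset.sum_congr rfl h3, Finset.sum_const, nsmul_eq_mul, p6x_card]
    · intro j hj
      have hj' := mem_Icc_abs.1 hj
      apply fs_fin (A + k)
      intro i hi
      apply st_out hu
      push_cast at hi
      rcases abs_cases i with ⟨h1, _⟩ | ⟨h1, _⟩ <;> rcases abs_cases j with ⟨h3, _⟩ | ⟨h3, _⟩ <;>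
          rcases abs_cases (i + j) with ⟨h2, _⟩ | ⟨h2, _⟩ <;> omega
  rw [← h2]
  unfold nst
  refine fs_le (A + k) (fun i hi => st_out hv (by push_cast at hi; omega)) (fun i hi => ?_) h1
  apply Finset.sum_eq_zero
  intro j hj
  have hj' := mem_Icc_abs.1 hj
  apply st_out hu
  push_cast at hi
  rcases abs_cases i with ⟨h1, _⟩ | ⟨h1, _⟩ <;> rcases abs_cases j with ⟨h3, _⟩ | ⟨h3, _⟩ <;>
    rcases abs_cases (i + j) with ⟨h2, _⟩ | ⟨h2, _⟩ <;> omega

lemma p6x_Q_step (P : Par) (s k : ℕ) : P.Q (s + k) ≤ (2 * k + 1) * P.Q s := by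
  have hLA : P.L ≤ P.A := by have := P.hA; omega
  unfold Par.Q
  rw [← Ex_smul]
  refine Ex_mono P.he' P.hd' P.hsum pone_mem fun w hw => ?_
  refine p6x_nst_step (cf_sup hLA hw s) (cf_sup hLA hw (s + k)) k fun i hi => ?_
  obtain ⟨j, hj, hj2⟩ := star_cf (Nat.le_add_right s k) hi
  exact ⟨j, by push_cast at hj; omega, hj2⟩

lemma p6x_bc_Q (P : Par) (s : ℕ) : P.bc s ≤ 2 * P.Q s := by
  have hLA : P.L ≤ P.A := by have := P.hA; omega
  unfold Par.bc Par.Q
  rw [← Ex_smul]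
  exact Ex_mono P.he' P.hd' P.hsum pone_mem fun w hw => p6x_Bn_nst (cf_sup hLA hw s)

lemma p6x_b_nonneg (P : Par) (s : ℕ) : 0 ≤ P.b s := by
  unfold Par.b Par.EF
  exact Ex_nonneg P.he' P.hd' P.hsum pone_mem fun _ _ => Bn_nonneg _

lemma p6x_AV_nonneg (P : Par) (t : ℕ) : 0 ≤ P.AV Bn t := by
  unfold Par.AV
  apply intervalIntegral.integral_nonneg zero_le_one
  rintro r ⟨hr0, hr1⟩
  exact Ex_nonneg P.he' P.hd' P.hsum (hyb_mem t hr0 hr1) fun _ _ => Bn_nonneg _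

/-- replacing the star edges of the configuration by those of the relaxed configuration -/
lemma p6x_real {C4 d b bc q bad : ℝ} (hC4 : 0 ≤ C4) (hd : 0 ≤ d) (hd4 : d ≤ 1 / 4)
    (hbad : 0 ≤ bad) (h : bc ≤ b + C4 * (d * q + bad)) :
    d ^ 2 * bc ≤ d ^ 2 * b + C4 * (d ^ 3 * q + bad) := by
  have h5 := mul_le_mul_of_nonneg_left h (pow_nonneg hd 2)
  have h6 : d ^ 2 * bad ≤ bad := by
    have : d ^ 2 ≤ 1 := by nlinarith
    nlinarith
  have h7 := mul_le_mul_of_nonneg_left h6 hC4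
  linarith

lemma p6x_A (P : Par) : (100 : ℝ) ≤ P.A := by
  have h1 : 100 ≤ P.A := by have := P.hA; omega
  exact_mod_cast h1

lemma p6x_size {A : ℝ} (hA : 100 ≤ A) : 8 * A ^ 2 ≤ A ^ 4 ∧ 3 * A + 9 ≤ A ^ 4 ∧ 1 ≤ A ^ 4 := by
  have h1 : (10000 : ℝ) ≤ A ^ 2 := by nlinarith
  have h2 : A ^ 4 = A ^ 2 * A ^ 2 := by ring
  rw [h2]
  refine ⟨by nlinarith, by nlinarith, by nlinarith⟩

/-! ### The four inequalities -/

theorem thm_P6Psi (m : ℕ) (hM : St_P6M m) (hI : St_InfPsi m) (hN : St_NucPsi m)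
    (hB : St_BnC m) : St_P6Psi m := by
  obtain ⟨C1, hC1, hM⟩ := hM
  obtain ⟨C2, hC2, hI⟩ := hI
  obtain ⟨C3, hC3, hN⟩ := hN
  obtain ⟨C4, hC4, hB⟩ := hB
  refine ⟨(C3 + C1 * C2) * (1 + C4) + C1, by positivity, ?_⟩
  intro P t ht htT
  have hd := P.hd'
  have hd4 := P.hd
  obtain ⟨_, hA2, hA3⟩ := p6x_size (p6x_A P)
  have h1 := hM P Psi C2 0 1 (fun _ _ => -1) t (hI 1) hC2.le le_rfl (fun u hu => by
      obtain ⟨a, b⟩ := p6x_Psi hu
      refine ⟨?_, fun i => by rw [abs_neg, abs_one]; exact hA3⟩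
      rw [abs_of_nonneg a]
      push_cast at b
      linarith) le_rfl ht htT
  have h2 := hN P t ht htT
  have h3 := hB P (t - KK m) (by omega) (by omega)
  have h4 : t - KK m - KK m = t - 2 * KK m := by omega
  rw [h4] at h3
  have hQ := Q_nonneg P (t - 2 * KK m)
  have hbd := bad_nonneg P m
  have hbc := bc_nonneg P (t - KK m)
  set b := P.b (t - KK m)
  set bc := P.bc (t - KK m)
  set q := P.Q (t - 2 * KK m)
  set bad := P.bad m
  set d := P.d
  have e1 : d ^ 2 * bc ≤ d ^ 2 * b + C4 * (d ^ 3 * q + bad) := by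
    have h5 := mul_le_mul_of_nonneg_left h3 (pow_nonneg hd 2)
    have h6 : d ^ 2 * bad ≤ bad := by
      have : d ^ 2 ≤ 1 := by nlinarith
      nlinarith
    calc d ^ 2 * bc ≤ d ^ 2 * (b + C4 * (d * q + bad)) := h5
      _ = d ^ 2 * b + C4 * (d ^ 3 * q + d ^ 2 * bad) := by ring
      _ ≤ d ^ 2 * b + C4 * (d ^ 3 * q + bad) := by
          have := mul_le_mul_of_nonneg_left h6 hC4.le
          linarith
  have x1 : 0 ≤ d ^ 3 * q := mul_nonneg (pow_nonneg hd 3) hQ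
  have hb0 : -(C4 * (d ^ 3 * q + bad)) ≤ d ^ 2 * b := by
    have : 0 ≤ d ^ 2 * bc := mul_nonneg (pow_nonneg hd 2) hbc
    linarith
  have e2 : (C3 + C1 * C2) * (d ^ 2 * bc) ≤
      (C3 + C1 * C2) * (d ^ 2 * b + C4 * (d ^ 3 * q + bad)) :=
    mul_le_mul_of_nonneg_left e1 (by positivity)
  have hbn : 0 ≤ b := p6x_b_nonneg P _
  have x2 : 0 ≤ d ^ 2 * b := mul_nonneg (pow_nonneg hd 2) hbn
  have y1 : 0 ≤ C3 * C4 := by positivity
  have y2 : 0 ≤ C1 * C2 * C4 := by positivity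
  have y3 : 0 ≤ C1 * C2 := by positivity
  have z1 := mul_nonneg y1 x2
  have z2 := mul_nonneg y2 x2
  have z3 := mul_nonneg hC1.le x2
  have z4 := mul_nonneg hC1.le x1
  have z5 := mul_nonneg hC3.le hbd
  have z6 := mul_nonneg y3 hbd
  nlinarith

theorem thm_P6T (m : ℕ) (hM : St_P6M m) (hI : St_InfT m) (hN : St_NucT m) : St_P6T m := by
  obtain ⟨C1, hC1, hM⟩ := hM
  obtain ⟨C2, hC2, hI⟩ := hI
  obtain ⟨C3, hC3, hN⟩ := hN
  refine ⟨2 * C3 + C1 * C2 * (2 * (2 * KK m + 1) + 1) + C1, by positivity, ?_⟩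
  intro P R t hR hRA ht htT
  have hd := P.hd'
  have hd4 := P.hd
  have hR1 : 1 ≤ R := by omega
  have hA := p6x_A P
  obtain ⟨hA1, hA2, hA3⟩ := p6x_size hA
  have hRA' : (R : ℝ) ≤ P.A := by exact_mod_cast hRA
  have hR0 : (0 : ℝ) ≤ R := Nat.cast_nonneg R
  have h1 := hM P (fun u => -Tq R u) (C2 * R) 0 1 (fun _ _ => 2 * R) t (hI 1 R hR1)
    (by positivity) le_rfl (fun u hu => by
      obtain ⟨a, b⟩ := p6x_Tq hR1 hu
      push_cast at b
      refine ⟨?_, fun i => ?_⟩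
      · rw [abs_neg, abs_of_nonneg a]
        refine b.trans (le_trans ?_ hA1)
        nlinarith
      · rw [abs_of_nonneg (by positivity)]
        nlinarith) le_rfl ht htT
  have h2 := hN P (2 * R) t (by positivity) ht htT
  have h3 : P.EF (fun u => -Tq R u) (t + 1) = -P.EF (Tq R) (t + 1) := by
    unfold Par.EF; exact Ex_neg _ _ _ _ _
  have h4 : P.EF (fun u => -Tq R u) t = -P.EF (Tq R) t := by
    unfold Par.EF; exact Ex_neg _ _ _ _ _
  have h5 : P.dr (fun u => -Tq R u) t = -P.dr (Tq R) t := by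
    unfold Par.dr
    have e1 : Lg (fun u => -Tq R u) = fun u => -Lg (Tq R) u := by
      funext u
      unfold Lg
      rw [← finsum_neg_distrib]
      exact finsum_congr fun i => by ring
    have e2 : Lb false (fun u => -Tq R u) = fun u => -Lb false (Tq R) u := by
      funext u
      unfold Lb
      rw [← finsum_neg_distrib]
      exact finsum_congr fun i => by ring
    rw [e1, e2, AV_neg, AV_neg]
    ring
  rw [h3, h4, h5] at h1
  have h6 := p6x_bc_Q P (t - KK m)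
  have h7 := p6x_Q_step P (t - 2 * KK m) (KK m)
  have h8 : t - 2 * KK m + KK m = t - KK m := by omega
  rw [h8] at h7
  have hQ := Q_nonneg P (t - 2 * KK m)
  have hbd := bad_nonneg P m
  set K : ℝ := (KK m : ℝ)
  set bc := P.bc (t - KK m)
  set q1 := P.Q (t - KK m)
  set q := P.Q (t - 2 * KK m)
  set bad := P.bad m
  set d := P.d
  have x0 : 0 ≤ d ^ 2 * q := mul_nonneg (pow_nonneg hd 2) hQ
  have e1 : d ^ 2 * bc ≤ 2 * (2 * K + 1) * (d ^ 2 * q) := by
    have h9 : bc ≤ 2 * ((2 * K + 1) * q) := by linarith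
    have := mul_le_mul_of_nonneg_left h9 (pow_nonneg hd 2)
    linarith
  have e2 : d ^ 3 * q ≤ d ^ 2 * q := by
    have h9 : d * (d ^ 2 * q) ≤ 1 * (d ^ 2 * q) := mul_le_mul_of_nonneg_right (by linarith) x0
    linarith
  have e3 : C1 * (C2 * R * (d ^ 2 * bc + d ^ 3 * q)) ≤
      C1 * C2 * (2 * (2 * K + 1) + 1) * (d ^ 2 * R * q) := by
    have h9 : d ^ 2 * bc + d ^ 3 * q ≤ (2 * (2 * K + 1) + 1) * (d ^ 2 * q) := by linarith
    have h10 : 0 ≤ C1 * (C2 * R) := by positivity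
    have := mul_le_mul_of_nonneg_left h9 h10
    linarith
  have x1 : 0 ≤ d ^ 2 * R * q := mul_nonneg (mul_nonneg (pow_nonneg hd 2) hR0) hQ
  have z1 := mul_nonneg hC1.le x1
  have hK0 : 0 ≤ K := Nat.cast_nonneg _
  have z2 : 0 ≤ (2 * C3 + C1 * C2 * (2 * (2 * K + 1) + 1)) * bad := by positivity
  linarith

theorem thm_P6Zs (m : ℕ) (hM : St_P6M m) (hI : St_InfZs m) (hN : St_NucZs m) (hB : St_BnC m) :
    St_P6Zs m := by
  obtain ⟨C1, hC1, hM⟩ := hM
  obtain ⟨C2, hC2, hI⟩ := hI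
  obtain ⟨C3, hC3, hN⟩ := hN
  obtain ⟨C4, hC4, hB⟩ := hB
  refine ⟨C3 + C1 * C2 * (1 + C4) + C1, by positivity, ?_⟩
  intro P D t hD hDA ht htT
  have hd := P.hd'
  have hd4 := P.hd
  have hD1 : 1 ≤ D := by omega
  obtain ⟨_, hA2, hA3⟩ := p6x_size (p6x_A P)
  have h1 := hM P (Zs D) C2 0 D (fun u i => 2 * ind (∃ k : ℤ, |k - i| ≤ 2 * D + 1 ∧ SE u k)) t
    (hI D hD1) hC2.le le_rfl (fun u hu => by
      obtain ⟨a, b⟩ := p6x_Zs hD1 hu
      push_cast at b
      have hA := p6x_A P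
      refine ⟨?_, fun i => ?_⟩
      · rw [abs_of_nonneg a]
        linarith
      · rw [abs_of_nonneg (mul_nonneg (by norm_num) (ind_nonneg _))]
        have := ind_le_one (∃ k : ℤ, |k - i| ≤ 2 * D + 1 ∧ SE u k)
        linarith) hD1 ht htT
  have h2 := hN P D t hD1 ht htT
  have h3 := hB P (t - KK m) (by omega) (by omega)
  have h4 : t - KK m - KK m = t - 2 * KK m := by omega
  rw [h4] at h3
  have hQ := Q_nonneg P (t - 2 * KK m)
  have hbd := bad_nonneg P m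
  have hbc := bc_nonneg P (t - KK m)
  have hbn := p6x_b_nonneg P (t - KK m)
  have hX : 0 ≤ P.d ^ 2 * D * P.AV Bn t :=
    mul_nonneg (mul_nonneg (pow_nonneg hd 2) (Nat.cast_nonneg D)) (p6x_AV_nonneg P t)
  set b := P.b (t - KK m)
  set bc := P.bc (t - KK m)
  set q := P.Q (t - 2 * KK m)
  set bad := P.bad m
  set X := P.d ^ 2 * D * P.AV Bn t
  set d := P.d
  have e1 : d ^ 2 * bc ≤ d ^ 2 * b + C4 * (d ^ 3 * q + bad) := by
    have h5 := mul_le_mul_of_nonneg_left h3 (pow_nonneg hd 2)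
    have h6 : d ^ 2 * bad ≤ bad := by
      have : d ^ 2 ≤ 1 := by nlinarith
      nlinarith
    calc d ^ 2 * bc ≤ d ^ 2 * (b + C4 * (d * q + bad)) := h5
      _ = d ^ 2 * b + C4 * (d ^ 3 * q + d ^ 2 * bad) := by ring
      _ ≤ d ^ 2 * b + C4 * (d ^ 3 * q + bad) := by
          have := mul_le_mul_of_nonneg_left h6 hC4.le
          linarith
  have x1 : 0 ≤ d ^ 3 * q := mul_nonneg (pow_nonneg hd 3) hQ
  have x2 : 0 ≤ d ^ 2 * b := mul_nonneg (pow_nonneg hd 2) hbn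
  have e2 : C1 * C2 * (d ^ 2 * bc) ≤ C1 * C2 * (d ^ 2 * b + C4 * (d ^ 3 * q + bad)) :=
    mul_le_mul_of_nonneg_left e1 (by positivity)
  have y2 : 0 ≤ C1 * C2 * C4 := by positivity
  have y3 : 0 ≤ C1 * C2 := by positivity
  have z1 := mul_nonneg y2 x2
  have z2 := mul_nonneg hC1.le x2
  have z3 := mul_nonneg hC3.le x2
  have z4 := mul_nonneg hC1.le x1
  have z5 := mul_nonneg hC3.le x1
  have z6 := mul_nonneg hC1.le hX
  have z7 := mul_nonneg y3 hX
  have z8 := mul_nonneg y2 hX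
  have z9 := mul_nonneg y3 hbd
  nlinarith

theorem thm_P6ZL (m : ℕ) (hM : St_P6M m) (hI : St_InfZL m) (hB : St_BnC m) : St_P6ZL m := by
  obtain ⟨C1, hC1, hM⟩ := hM
  obtain ⟨C2, hC2, hI⟩ := hI
  obtain ⟨C4, hC4, hB⟩ := hB
  refine ⟨C1 * C2 * (1 + C4) + C1 * (1 + C2) + C1 * C2 * C4, by positivity, ?_⟩
  intro P D t hD hDA ht htT
  have hd := P.hd'
  have hd4 := P.hd
  have hD1 : 1 ≤ D := by omega
  have hA := p6x_A P
  obtain ⟨_, hA2, hA3⟩ := p6x_size hA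
  have h1 := hM P (ZL D) (C2 * D) C2 D (fun _ _ => 0) t
    (hI D hD) (by positivity) hC2.le (fun u hu => by
      obtain ⟨a, b⟩ := p6x_ZL hD1 hu
      push_cast at b
      refine ⟨?_, fun i => ?_⟩
      · rw [abs_of_nonneg a]
        linarith
      · rw [abs_zero]; linarith) hD1 ht htT
  have hN : P.NUC m (fun _ _ => 0) t = 0 := by
    unfold Par.NUC
    simp only [mul_zero, Ex_const, add_zero, Finset.sum_const_zero]
    simp
  rw [hN] at h1
  have h3 := hB P (t - KK m) (by omega) (by omega)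
  have h4 : t - KK m - KK m = t - 2 * KK m := by omega
  rw [h4] at h3
  have hQ := Q_nonneg P (t - 2 * KK m)
  have hbd := bad_nonneg P m
  have hbc := bc_nonneg P (t - KK m)
  have hbn := p6x_b_nonneg P (t - KK m)
  have hav := p6x_AV_nonneg P t
  have e1 := p6x_real hC4.le hd hd4 hbd h3
  have hD0 : (1 : ℝ) ≤ D := by exact_mod_cast hD1
  revert h1 e1
  generalize P.EF (ZL D) (t + 1) = E1
  generalize P.EF (ZL D) t = E0
  generalize P.dr (ZL D) t = dr
  generalize P.b (t - KK m) = b at *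
  generalize P.bc (t - KK m) = bc at *
  generalize P.Q (t - 2 * KK m) = q at *
  generalize P.bad m = bad at *
  generalize P.AV Bn t = X at *
  generalize P.d = d at *
  generalize (D : ℝ) = D at *
  intro h1 e1
  have hD' : 0 ≤ D := by linarith
  have x1 : 0 ≤ D * (d ^ 3 * q) := mul_nonneg hD' (mul_nonneg (pow_nonneg hd 3) hQ)
  have x2 : 0 ≤ D * (d ^ 2 * b) := mul_nonneg hD' (mul_nonneg (pow_nonneg hd 2) hbn)
  have x3 : 0 ≤ D * (d ^ 2 * X) := mul_nonneg hD' (mul_nonneg (pow_nonneg hd 2) hav)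
  have x4 : 0 ≤ D * bad := mul_nonneg hD' hbd
  have x5 : bad ≤ D * bad := by nlinarith
  have e2 : C1 * C2 * D * (d ^ 2 * bc) ≤ C1 * C2 * D * (d ^ 2 * b + C4 * (d ^ 3 * q + bad)) :=
    mul_le_mul_of_nonneg_left e1 (by positivity)
  have y1 : 0 ≤ C1 * C2 * C4 := by positivity
  have y2 : 0 ≤ C1 * C2 := by positivity
  have z1 := mul_nonneg y1 x1
  have z2 := mul_nonneg y1 x2
  have z3 := mul_nonneg y1 x3
  have z4 := mul_nonneg y1 x4
  have z5 := mul_nonneg y2 x1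
  have z6 := mul_nonneg y2 x2
  have z7 := mul_nonneg y2 x3
  have z8 := mul_nonneg y2 x4
  have z9 := mul_nonneg hC1.le x1
  have z10 := mul_nonneg hC1.le x2
  have z11 := mul_nonneg hC1.le x3
  have z12 := mul_nonneg y2 hd
  have z13 := mul_nonneg y1 hd
  have z14 := mul_nonneg hC1.le hd
  have z15 : C1 * (1 + C2) * bad ≤ C1 * (1 + C2) * (D * bad) :=
    mul_le_mul_of_nonneg_left x5 (by positivity)
  linarith

end Pool.Agent.T3M
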