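import Mathlib
import Pool.Agent.T3M.MP6X
import Pool.Agent.T3M.MF3

/-! Persistence of star edges, bounds by the number of stars, reflection (helper91). -/

set_option autoImplicit false

namespace Pool.Agent.T3M

open MeasureTheory

/-! ### Reflection -/

/-- reflected noise -/
def rfl_w (w : Nz) : Nz := fun t i => w t (-i)

lemma cf_refl (L : ℕ) (w : Nz) (t : ℕ) : cf L (rfl_w w) t = rev (cf L w t) := by
  induction t with
  | zero =>
    funext i
    show (if |i| ≤ (L : ℤ) then Sy.s else Sy.z) = (if |-i| ≤ (L : ℤ) then Sy.s else Sy.z)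
    rw [abs_neg]
  | succ t ih =>
    funext i
    show stp (rfl_w w t) (cf L (rfl_w w) t) i = stp (w t) (cf L w t) (-i)
    unfold stp
    rw [ih, M_rev]
    rfl

lemma rel_rev (n : ℕ) (u : ℤ → Sy) : rel n (rev u) = rev (rel n u) := by
  induction n with
  | zero => rfl
  | succ n ih => rw [rel_succ_out, rel_succ_out, ih, M_rev]

lemma W_refl (P : Par) (w : Nz) (t : ℕ) : P.W (rfl_w w) t = rev (P.W w t) := by
  unfold Par.W
  rw [cf_refl, rel_rev]

/-- invariance of the product expectation under a permutation of the places -/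
lemma Ex_perm (J : Finset (ℕ × ℤ)) (e d : ℝ) (p : ℕ × ℤ → ℝ) (σ : (ℕ × ℤ) ≃ (ℕ × ℤ))
    (hJ : ∀ c, c ∈ J ↔ σ c ∈ J) (hp : ∀ c, p (σ c) = p c) (f : Nz → ℝ) :
    Ex J e d p (fun w => f (fun t i => w (σ (t, i)).1 (σ (t, i)).2)) = Ex J e d p f := by
  classical
  let σJ : {c // c ∈ J} ≃ {c // c ∈ J} := σ.subtypeEquiv hJ
  unfold Ex
  refine Fintype.sum_equiv (Equiv.arrowCongr σJ.symm (Equiv.refl (Option Bool))) _ _ fun η => ?_
  have h1 : (Equiv.arrowCongr σJ.symm (Equiv.refl (Option Bool))) η = fun c => η (σJ c) := by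
    funext c
    simp [Equiv.arrowCongr]
  rw [h1]
  congr 1
  · rw [← Equiv.prod_comp σJ]
    refine Finset.prod_congr rfl fun c _ => ?_
    have h2 : p (σJ c : ℕ × ℤ) = p (c : ℕ × ℤ) := hp _
    rw [h2]
  · show f (fun t i => ext J η (σ (t, i)).1 (σ (t, i)).2) = f (ext J fun c => η (σJ c))
    congr 1
    refine nz_ext fun c => ?_
    show ext J η (σ (c.1, c.2)).1 (σ (c.1, c.2)).2 = ext J (fun c => η (σJ c)) c.1 c.2
    by_cases hc : c ∈ J
    · rw [ext_mem _ hc, ext_mem η (c := σ c) ((hJ c).1 hc)]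
      rfl
    · rw [ext_out _ hc, ext_out η (c := σ c) (fun h => hc ((hJ c).2 h))]

theorem thm_Refl : St_Refl := by
  intro P F t
  unfold Par.AV
  refine intervalIntegral.integral_congr fun r _ => ?_
  let σ : (ℕ × ℤ) ≃ (ℕ × ℤ) := (Equiv.refl ℕ).prodCongr (Equiv.neg ℤ)
  have h1 := Ex_perm (JJ P.T P.A) P.e P.d (hyb t r) σ (fun c => by
      show c ∈ JJ P.T P.A ↔ (c.1, -c.2) ∈ JJ P.T P.A
      unfold JJ
      rw [Finset.mem_product, Finset.mem_product, mem_Icc_abs, mem_Icc_abs, abs_neg])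
    (fun c => rfl) (fun w => F (P.W w (t + 1)))
  show Ex (JJ P.T P.A) P.e P.d (hyb t r) (fun w => F (rev (P.W w (t + 1)))) =
    Ex (JJ P.T P.A) P.e P.d (hyb t r) (fun w => F (P.W w (t + 1)))
  rw [← h1]
  refine Ex_congr fun w _ => ?_
  rw [← W_refl]
  rfl

/-! ### Bounds of the functionals by the number of stars -/

lemma bt_th {D : ℕ} (hD : 1 ≤ D) : 1 / 4 ≤ th D ^ (2 * D) := by
  obtain ⟨t0, t1⟩ := th_mem hD
  have hD' : (1 : ℝ) ≤ D := by exact_mod_cast hD
  have h1 := one_add_mul_le_pow (a := -(1 / (2 * (D : ℝ)))) (by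
    have : 1 / (2 * (D : ℝ)) ≤ 1 / 2 :=
      div_le_div_of_nonneg_left (by norm_num) (by norm_num) (by linarith)
    linarith) D
  have h2 : 1 + (D : ℝ) * -(1 / (2 * (D : ℝ))) = 1 / 2 := by field_simp; norm_num
  rw [h2] at h1
  have h3 : (1 + -(1 / (2 * (D : ℝ)))) = th D := by unfold th; ring
  rw [h3] at h1
  rw [mul_comm 2 D, pow_mul]
  nlinarith

/-- the weight is at most four times the discount -/
lemma bt_kap {D : ℕ} (hD : 1 ≤ D) (l : ℕ) : kap D l ≤ 4 * th D ^ l := by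
  obtain ⟨t0, t1⟩ := th_mem hD
  by_cases h : l ≤ 2 * D
  · have h1 := bt_th hD
    have h2 : th D ^ (2 * D) ≤ th D ^ l := pow_le_pow_of_le_one t0.le t1 h
    linarith [(p6x_kap hD l).2]
  · have h1 : kap D l = 0 := by
      unfold kap
      rw [if_neg (by omega), if_neg h]
    rw [h1]
    have := pow_nonneg t0.le l
    linarith

lemma ll_le_dl {u : ℤ → Sy} {p : ℤ} (h0 : u p ≠ .s) (h : dl u p ≠ 0) : ll u p ≤ dl u p := by
  have hne : {j : ℕ | u (p - j) = .s}.Nonempty := by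
    by_contra hc
    rw [Set.not_nonempty_iff_eq_empty] at hc
    apply h
    unfold dl
    rw [hc, Nat.sInf_empty]
  have h1 : u (p - (dl u p : ℕ)) = .s := Nat.sInf_mem hne
  unfold ll
  apply Nat.sInf_le
  show u (p - (dl u p : ℕ)) ≠ u p
  rw [h1]
  exact h0.symm

/-- a term of `ZL` is at most four times the discounted distance -/
lemma bt_term {D : ℕ} (hD : 1 ≤ D) (u : ℤ → Sy) (p : ℤ) :
    ind (CW u p ∧ dl u p ≠ 0) * (th D ^ (dl u p - ll u p) * kap D (ll u p)) ≤ 4 * Gd D u p := by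
  obtain ⟨t0, t1⟩ := th_mem hD
  by_cases h : CW u p ∧ dl u p ≠ 0
  · rw [ind_true h, one_mul]
    unfold Gd
    rw [ind_true h.2, one_mul]
    have h1 := bt_kap hD (ll u p)
    have h2 := pow_nonneg t0.le (dl u p - ll u p)
    calc th D ^ (dl u p - ll u p) * kap D (ll u p)
        ≤ th D ^ (dl u p - ll u p) * (4 * th D ^ ll u p) := mul_le_mul_of_nonneg_left h1 h2
      _ = 4 * (th D ^ (dl u p - ll u p) * th D ^ ll u p) := by ring
      _ = 4 * th D ^ dl u p := by
          rw [← pow_add, Nat.sub_add_cancel (ll_le_dl h.1.1 h.2)]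
  · rw [ind_false h, zero_mul]
    exact mul_nonneg (by norm_num) (Gd_mem hD u p).1

lemma bt_ZL {D N : ℕ} (hD : 1 ≤ D) {u : ℤ → Sy} (hS : Sup N u) : ZL D u ≤ 8 * D * Bn u := by
  have h1 : ZL D u = ∑ p ∈ Finset.Icc (-((N + 1 : ℕ) : ℤ)) ((N + 1 : ℕ) : ℤ),
      ind (CW u p ∧ dl u p ≠ 0) * (th D ^ (dl u p - ll u p) * kap D (ll u p)) := by
    unfold ZL
    refine fs_eq (N + 1) fun i hi => ?_
    rw [ind_false, zero_mul]
    rintro ⟨⟨_, _, h3⟩, _⟩
    apply h3
    push_cast at hi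
    rw [hS i (by omega), hS (i + 1) (by
      rcases abs_cases i with ⟨h1, _⟩ | ⟨h1, _⟩ <;>
        rcases abs_cases (i + 1) with ⟨h2, _⟩ | ⟨h2, _⟩ <;> omega)]
  rw [h1]
  refine (Finset.sum_le_sum fun p _ => bt_term hD u p).trans ?_
  rw [← Finset.mul_sum]
  have := thm_Gd u N (N + 1) D hD hS
  linarith

lemma bt_Zs {D N : ℕ} (hD : 1 ≤ D) {u : ℤ → Sy} (hS : Sup N u) : Zs D u ≤ nst u := by
  unfold Zs nst
  refine fs_le N (fun i hi => ?_) (fun i hi => st_out hS hi) fun i => ?_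
  · rw [ind_false (by rw [hS i hi]; simp), zero_mul]
  · obtain ⟨a, b⟩ := p6x_kap hD (ll u i)
    have h1 : ind (u i = .s ∧ u (i + 1) ≠ .s) ≤ st u i := ind_mono fun h => h.1
    have h2 := ind_nonneg (u i = .s ∧ u (i + 1) ≠ .s)
    nlinarith

lemma bt_Tq {R N : ℕ} (hR : 1 ≤ R) {u : ℤ → Sy} (hS : Sup N u) : Tq R u ≤ R * nst u := by
  have hR' : (1 : ℝ) ≤ R := by exact_mod_cast hR
  have hout : ∀ (i : ℤ) (j : ℕ), ((N + R : ℕ) : ℤ) < |i| → j ∈ Finset.range R → st u (i + j) = 0 := by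
    intro i j hi hj
    apply st_out hS
    have hj' := Finset.mem_range.1 hj
    push_cast at hi
    rcases abs_cases i with ⟨h1, _⟩ | ⟨h1, _⟩ <;>
      rcases abs_cases (i + (j : ℤ)) with ⟨h2, _⟩ | ⟨h2, _⟩ <;> omega
  have h1 : ∑ᶠ x : ℤ, (∑ j ∈ Finset.range R, st u (x + j)) ^ 2 ≤
      ∑ᶠ x : ℤ, R * ∑ j ∈ Finset.range R, st u (x + j) := by
    refine fs_le (N + R) (fun i hi => ?_) (fun i hi => ?_) fun i => ?_
    · rw [Finset.sum_eq_zero fun j hj => hout i j hi hj, zero_pow two_ne_zero]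
    · rw [Finset.sum_eq_zero fun j hj => hout i j hi hj, mul_zero]
    · have h2 : 0 ≤ ∑ j ∈ Finset.range R, st u (i + j) := Finset.sum_nonneg fun j _ => st_nonneg _ _
      have h3 : ∑ j ∈ Finset.range R, st u (i + j) ≤ R := by
        have := Finset.sum_le_card_nsmul (Finset.range R) (fun j => st u (i + j)) 1
          fun j _ => st_le_one _ _
        rw [Finset.card_range, nsmul_eq_mul, mul_one] at this
        exact this
      rw [sq]
      exact mul_le_mul_of_nonneg_right h3 h2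
  rw [fs_mul, finsum_sum_comm] at h1
  · have h2 : ∀ j ∈ Finset.range R, ∑ᶠ x : ℤ, st u (x + (j : ℤ)) = nst u := fun j _ =>
      fs_shift (fun i => st u i) j
    rw [Finset.sum_congr rfl h2, Finset.sum_const, Finset.card_range, nsmul_eq_mul] at h1
    unfold Tq
    have h4 : 0 ≤ 1 / (2 * (R : ℝ)) := by positivity
    have h5 := mul_le_mul_of_nonneg_left h1 h4
    refine h5.trans ?_
    have h6 : 1 / (2 * (R : ℝ)) * (R * (R * nst u)) = R * nst u / 2 := by field_simp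
    rw [h6]
    have : 0 ≤ (R : ℝ) * nst u := mul_nonneg (by linarith) (nst_nonneg u)
    linarith
  · intro j hj
    exact fs_fin (N + R) fun i hi => hout i j hi hj

lemma bt_Psi {N : ℕ} {u : ℤ → Sy} (hS : Sup N u) : Psi u ≤ 2 * nst u := by
  have := p6x_Bn_nst hS
  unfold Psi
  linarith

/-! ### Stars of the relaxed configuration -/

lemma bt_nst (h0 : St_Root) (h1 : St_L1) {m : ℕ} (P : Par) {w : Nz} (hw : SupJ (JJ P.T P.A) w)
    (hg : Good m w) (s k : ℕ) :
    nst (P.W w (s + k)) ≤ (2 * (KK m + k) + 1) * nst (cf P.L w s) := by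
  have hLA : P.L ≤ P.A := by have := P.hA; omega
  have h2 := p6x_nst_step (cf_sup hLA hw s) (P.W_root h0 hw (s + k)).2 (KK m + k) fun i hi => by
    have h3 : ∃ j : ℤ, |j - i| ≤ (KK m : ℤ) ∧ cf P.L w (s + k) j = .s := by
      unfold Par.W at hi
      by_cases hK : KK m ≤ P.n
      · rw [(p6_relK h1 hg P.L (s + k) P.n hK).1] at hi
        exact star_rel _ hi
      · obtain ⟨j, hj, hj2⟩ := star_rel _ hi
        exact ⟨j, by omega, hj2⟩
    obtain ⟨j, hj, hj2⟩ := h3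
    obtain ⟨l, hl, hl2⟩ := star_cf (Nat.le_add_right s k) hj2
    refine ⟨l, ?_, hl2⟩
    push_cast at hl ⊢
    rcases abs_cases (l - i) with ⟨h1, _⟩ | ⟨h1, _⟩ <;>
      rcases abs_cases (l - j) with ⟨h2, _⟩ | ⟨h2, _⟩ <;>
      rcases abs_cases (j - i) with ⟨h3, _⟩ | ⟨h3, _⟩ <;> omega
  push_cast at h2
  exact h2

/-- expected contribution of noise which is not good -/
lemma bt_bad {m : ℕ} {Cp : ℝ} (hCp : 0 < Cp) (hg : ∀ (T A : ℕ) (e d : ℝ) (p : ℕ × ℤ → ℝ), 0 ≤ e →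
    e ≤ d → d ≤ 1 / 4 → 1 ≤ T → 1 ≤ A → (∀ c, 0 ≤ p c ∧ p c ≤ 1) →
    Ex (JJ T A) e d p (fun w => ind (¬ Good m w)) ≤ Cp * T * A * (2 * d) ^ m) (P : Par)
    {p : ℕ × ℤ → ℝ} (hp : ∀ c, 0 ≤ p c ∧ p c ≤ 1) {x : ℝ} (hx : 0 ≤ x) (hxA : x ≤ (P.A : ℝ) ^ 6) :
    Ex (JJ P.T P.A) P.e P.d p (fun w => ind (¬ Good m w) * x) ≤ Cp * P.bad m := by
  have hA1 : 1 ≤ P.A := by have := P.hA; omega
  have hd := P.hd'
  have h1 := hg P.T P.A P.e P.d p P.he' P.hed P.hd P.hT hA1 hp
  have h2 : Ex (JJ P.T P.A) P.e P.d p (fun w => ind (¬ Good m w) * x) =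
      x * Ex (JJ P.T P.A) P.e P.d p (fun w => ind (¬ Good m w)) := by
    rw [← Ex_smul]
    exact Ex_congr fun w _ => mul_comm _ _
  rw [h2]
  calc x * Ex (JJ P.T P.A) P.e P.d p (fun w => ind (¬ Good m w))
      ≤ x * (Cp * P.T * P.A * (2 * P.d) ^ m) := mul_le_mul_of_nonneg_left h1 hx
    _ ≤ (P.A : ℝ) ^ 6 * (Cp * P.T * P.A * (2 * P.d) ^ m) :=
        mul_le_mul_of_nonneg_right hxA (by positivity)
    _ = Cp * P.bad m := by unfold Par.bad; ring

/-- the number of stars, in every law -/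
lemma bt_Enst (h0 : St_Root) (h1 : St_L1) {m : ℕ} {Cp : ℝ} (hCp : 0 < Cp)
    (hg : ∀ (T A : ℕ) (e d : ℝ) (p : ℕ × ℤ → ℝ), 0 ≤ e →
    e ≤ d → d ≤ 1 / 4 → 1 ≤ T → 1 ≤ A → (∀ c, 0 ≤ p c ∧ p c ≤ 1) →
    Ex (JJ T A) e d p (fun w => ind (¬ Good m w)) ≤ Cp * T * A * (2 * d) ^ m) (P : Par)
    {p : ℕ × ℤ → ℝ} (hp : ∀ c, 0 ≤ p c ∧ p c ≤ 1) (s k : ℕ) :
    Ex (JJ P.T P.A) P.e P.d p (fun w => nst (P.W w (s + k))) ≤
      (2 * (KK m + k) + 1) * Ex (JJ P.T P.A) P.e P.d p (fun w => nst (cf P.L w s)) +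
        Cp * P.bad m := by
  have hA := p6x_A P
  have h2 : Ex (JJ P.T P.A) P.e P.d p (fun w => nst (P.W w (s + k))) ≤
      Ex (JJ P.T P.A) P.e P.d p (fun w => (2 * (KK m + k) + 1) * nst (cf P.L w s) +
        ind (¬ Good m w) * (2 * P.A + 1)) := by
    refine Ex_mono P.he' P.hd' P.hsum hp fun w hw => ?_
    by_cases hgw : Good m w
    · rw [ind_false (not_not.2 hgw), zero_mul, add_zero]
      exact bt_nst h0 h1 P hw hgw s k
    · rw [ind_true hgw, one_mul]
      have h3 := p6x_nst (P.W_root h0 hw (s + k)).2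
      have h4 : 0 ≤ (2 * ((KK m : ℝ) + k) + 1) * nst (cf P.L w s) :=
        mul_nonneg (by positivity) (nst_nonneg _)
      linarith
  rw [Ex_add, Ex_smul] at h2
  have h3 := bt_bad hCp hg P hp (x := 2 * P.A + 1) (by positivity) (by
    obtain ⟨a1, a2, a3⟩ := p6x_size hA
    have h4 : (P.A : ℝ) ^ 4 ≤ (P.A : ℝ) ^ 6 := pow_le_pow_right₀ (by linarith) (by norm_num)
    linarith)
  linarith

lemma bt_real {K Cp Q bad x : ℝ} (hK : 0 ≤ K) (hCp : 0 ≤ Cp) (hQ : 0 ≤ Q) (hbad : 0 ≤ bad)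
    (hx : x ≤ (2 * (K + 1) + 1) * Q + Cp * bad) : x ≤ (2 * K + 3 + Cp) * (Q + bad) := by
  have h1 : 0 ≤ (2 * K + 3) * bad := mul_nonneg (by linarith) hbad
  have h2 : 0 ≤ Cp * Q := mul_nonneg hCp hQ
  linarith

theorem thm_Bd (m : ℕ) (h0 : St_Root) (h1 : St_L1) (hg : St_PG m) : St_Bd m := by
  obtain ⟨Cp, hCp, hg⟩ := hg
  have hK0 : (0 : ℝ) ≤ (KK m : ℝ) := Nat.cast_nonneg _
  refine ⟨16 * (2 * (KK m : ℝ) + 3 + Cp), by positivity, ?_⟩
  intro P D t hD hDA ht
  have hD1 : 1 ≤ D := by omega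
  have hDr : (1 : ℝ) ≤ D := by exact_mod_cast hD1
  have hQ := Q_nonneg P t
  have hbad := bad_nonneg P m
  have hS : 0 ≤ P.Q t + P.bad m := add_nonneg hQ hbad
  have hC : 0 ≤ 2 * (KK m : ℝ) + 3 + Cp := by positivity
  have hCS : 0 ≤ (2 * (KK m : ℝ) + 3 + Cp) * (P.Q t + P.bad m) := mul_nonneg hC hS
  -- the relaxed configuration at the time `t`
  have hE : P.EF nst t ≤ (2 * (KK m : ℝ) + 3 + Cp) * (P.Q t + P.bad m) := by
    have h2 := bt_Enst h0 h1 hCp hg P pone_mem t 0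
    simp only [Nat.cast_zero, add_zero] at h2
    apply bt_real hK0 hCp.le hQ hbad
    have h3 : P.EF nst t ≤ (2 * (KK m : ℝ) + 1) * P.Q t + Cp * P.bad m := h2
    linarith
  have hAV : P.AV nst t ≤ (2 * (KK m : ℝ) + 3 + Cp) * (P.Q t + P.bad m) := by
    rw [← AV_const P ((2 * (KK m : ℝ) + 3 + Cp) * (P.Q t + P.bad m)) t]
    unfold Par.AV
    refine intervalIntegral.integral_mono_on zero_le_one (AV_int P nst t)
      (AV_int P (fun _ => (2 * (KK m : ℝ) + 3 + Cp) * (P.Q t + P.bad m)) t) ?_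
    rintro r ⟨hr0, hr1⟩
    have h2 := bt_Enst h0 h1 hCp hg P (hyb_mem t hr0 hr1) t 1
    rw [Ex_const]
    apply bt_real hK0 hCp.le hQ hbad
    have h4 : Ex (JJ P.T P.A) P.e P.d (hyb t r) (fun w => nst (cf P.L w t)) = P.Q t := by
      unfold Par.Q
      symm
      apply Ex_hyb_r
      intro w w' h
      show nst (cf P.L w t) = nst (cf P.L w' t)
      rw [cf_dep fun a j ha => h (a, j) (show a < t from ha)]
    rw [h4] at h2
    push_cast at h2
    exact h2
  have e1 : P.b t ≤ 2 * P.EF nst t := by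
    have h2 : P.b t ≤ P.EF (fun u => 2 * nst u) t :=
      EF_le P h0 (fun u _ hu => p6x_Bn_nst hu) t
    have h3 : P.EF (fun u => 2 * nst u) t = 2 * P.EF nst t := by
      unfold Par.EF; exact Ex_smul _ _ _ _ _ _
    linarith
  have e2 : P.EF Psi t ≤ 2 * P.EF nst t := by
    have h2 : P.EF Psi t ≤ P.EF (fun u => 2 * nst u) t :=
      EF_le P h0 (fun u _ hu => bt_Psi hu) t
    have h3 : P.EF (fun u => 2 * nst u) t = 2 * P.EF nst t := by
      unfold Par.EF; exact Ex_smul _ _ _ _ _ _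
    linarith
  have e3 : P.EF (Zs D) t ≤ P.EF nst t := EF_le P h0 (fun u _ hu => bt_Zs hD1 hu) t
  have e4 : P.EF (ZL D) t ≤ 8 * D * P.b t := by
    have h2 : P.EF (ZL D) t ≤ P.EF (fun u => 8 * D * Bn u) t :=
      EF_le P h0 (fun u _ hu => bt_ZL hD1 hu) t
    have h3 : P.EF (fun u => 8 * D * Bn u) t = 8 * D * P.b t := by
      unfold Par.b Par.EF; exact Ex_smul _ _ _ _ _ _
    linarith
  have e5 : P.EF (Tq D) t ≤ D * P.EF nst t := by
    have h2 : P.EF (Tq D) t ≤ P.EF (fun u => D * nst u) t :=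
      EF_le P h0 (fun u _ hu => bt_Tq hD1 hu) t
    have h3 : P.EF (fun u => D * nst u) t = D * P.EF nst t := by
      unfold Par.EF; exact Ex_smul _ _ _ _ _ _
    linarith
  generalize (2 * (KK m : ℝ) + 3 + Cp) = C at *
  generalize P.Q t + P.bad m = S at *
  have hX : 0 ≤ C * S := hCS
  have hDX : 0 ≤ (D : ℝ) * (C * S) := mul_nonneg (by linarith) hX
  refine ⟨by linarith, by linarith, by linarith, by linarith, ?_, ?_⟩
  · have h3 : 8 * (D : ℝ) * P.b t ≤ 8 * D * (2 * (C * S)) :=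
      mul_le_mul_of_nonneg_left (by linarith) (by linarith)
    linarith
  · have h3 : (D : ℝ) * P.EF nst t ≤ D * (C * S) :=
      mul_le_mul_of_nonneg_left (by linarith) (by linarith)
    linarith

/-! ### Star edges persist -/

/-- the slice `t` has no marks near `k` -/
def Cl (t : ℕ) (k : ℤ) (r : ℕ) (w : Nz) : Prop := ∀ j : ℤ, |j - k| ≤ (r : ℤ) → w t j = none

/-- noise without the slice `t` -/
def cut (t : ℕ) (w : Nz) : Nz := fun s j => if s = t then none else w s j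

lemma cut_good {m : ℕ} {t : ℕ} {w : Nz} (h : Good m w) : Good m (cut t w) := by
  intro t' i S hS
  apply h t' i S
  intro c hc
  obtain ⟨h1, h2⟩ := hS c hc
  refine ⟨h1, fun h3 => h2 ?_⟩
  unfold cut
  split_ifs
  · rfl
  · exact h3

lemma cut_step (L : ℕ) (w : Nz) (t : ℕ) : cf L (cut t w) (t + 1) = M (cf L w t) := by
  have h1 : cf L (cut t w) t = cf L w t := cf_dep fun a j ha => by
    unfold cut
    rw [if_neg (by omega)]
  funext i
  rw [cf_succ, h1]
  unfold cut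
  rw [if_pos rfl]
  rfl

/-- where the slice `t` has no marks near `k`, the relaxed configurations at the times `t` and
`t + 1` agree at `k` -/
lemma bt_same (h0 : St_Root) (h1 : St_L1) {m : ℕ} (P : Par) {w : Nz}
    (hw : SupJ (JJ P.T P.A) w) (hg : Good m w) (t : ℕ) {k : ℤ} (h : Cl t k (KK m) w) :
    P.W w (t + 1) k = P.W w t k := by
  have hLA : P.L ≤ P.A := by have := P.hA; omega
  have hloc : ∀ n : ℕ, n ≤ KK m → rel n (cf P.L w (t + 1)) k = rel n (M (cf P.L w t)) k := by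
    intro n hn
    apply rel_congr
    intro j hj
    rw [cf_succ, h j (by omega)]
    rfl
  have hroot : rel P.n (cf P.L w t) = rel P.n (M (cf P.L w t)) := by
    rw [← rel_succ, rel_succ_out, (h0 _ _ _ (cf_sup hLA hw t) P.hn).1.M_eq]
  unfold Par.W
  rw [hroot]
  by_cases hK : KK m ≤ P.n
  · rw [(p6_relK h1 hg P.L (t + 1) P.n hK).1, ← cut_step,
      (p6_relK h1 (cut_good hg) P.L (t + 1) P.n hK).1, cut_step]
    exact hloc _ le_rfl
  · exact hloc _ (by omega)

/-- the probability of marks near `k` in one slice -/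
lemma bt_Cl (J : Finset (ℕ × ℤ)) {e d : ℝ} {p : ℕ × ℤ → ℝ} (he : 0 ≤ e) (hed : e ≤ d)
    (hd4 : d ≤ 1 / 4) (hp : ∀ c, 0 ≤ p c ∧ p c ≤ 1) (t : ℕ) (k : ℤ) (r : ℕ) :
    1 - (2 * r + 1) * (2 * d) ≤ Ex J e d p (fun w => ind (Cl t k r w)) := by
  have hd : 0 ≤ d := he.trans hed
  have h1 := Ex_union J he hd (by linarith) hp (Finset.Icc (-(r : ℤ)) (r : ℤ))
    (A := fun w => ¬ Cl t k r w) (B := fun j w => w t (k + j) ≠ none) (by
      intro w _ hA
      unfold Cl at hA
      rw [not_forall] at hA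
      obtain ⟨j, hj⟩ := hA
      rw [Classical.not_imp] at hj
      refine ⟨j - k, mem_Icc_abs.2 hj.1, ?_⟩
      show w t (k + (j - k)) ≠ none
      rw [show k + (j - k) = j by ring]
      exact hj.2)
  have h2 : ∑ j ∈ Finset.Icc (-(r : ℤ)) (r : ℤ), Ex J e d p (fun w => ind (w t (k + j) ≠ none)) ≤
      (2 * r + 1) * (2 * d) := by
    rw [← p6x_card, ← nsmul_eq_mul]
    exact Finset.sum_le_card_nsmul _ _ _ fun j _ => Ex_mark_le J p (t, k + j) he hed (hp _)
  have h3 : Ex J e d p (fun w => ind (¬ Cl t k r w)) =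
      1 - Ex J e d p (fun w => ind (Cl t k r w)) := by
    rw [← Ex_const J e d p 1, ← Ex_sub]
    exact Ex_congr fun w _ => ind_not _
  rw [h3] at h1
  linarith

theorem thm_Bt (m : ℕ) (h0 : St_Root) (h1 : St_L1) (hg : St_PG m) : St_Bt m := by
  obtain ⟨Cp, hCp, hg⟩ := hg
  refine ⟨4 * (2 * ((KK m : ℝ) + 1) + 1) + 2 * Cp, by positivity, ?_⟩
  intro P t hCd ht
  have he := P.he'
  have hd := P.hd'
  have hd4 := P.hd
  have hed := P.hed
  have hA := p6x_A P
  have hbad := bad_nonneg P m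
  set K1 : ℕ := KK m + 1 with hK1
  -- for every `r`
  have key : ∀ r ∈ Set.Icc (0 : ℝ) 1, P.b t ≤
      2 * Ex (JJ P.T P.A) P.e P.d (hyb t r) (fun w => Bn (P.W w (t + 1))) + 2 * Cp * P.bad m := by
    rintro r ⟨hr0, hr1⟩
    have hh := hyb_mem t hr0 hr1
    have hb : P.b t = Ex (JJ P.T P.A) P.e P.d (hyb t r) (fun w => Bn (P.W w t)) := by
      unfold Par.b Par.EF
      apply Ex_hyb_r
      intro w w' h
      show Bn (P.W w t) = Bn (P.W w' t)
      unfold Par.W
      rw [cf_dep fun a j ha => h (a, j) (show a < t from ha)]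
    -- the star edges at the time `t` with a clean slice
    have h2 : Ex (JJ P.T P.A) P.e P.d (hyb t r) (fun w =>
        ∑ k ∈ Finset.Icc (-((P.A + 1 : ℕ) : ℤ)) ((P.A + 1 : ℕ) : ℤ),
          ind (SE (P.W w t) k) * ind (Cl t k K1 w)) ≤
        Ex (JJ P.T P.A) P.e P.d (hyb t r) (fun w => Bn (P.W w (t + 1)) +
          ind (¬ Good m w) * (2 * P.A + 3)) := by
      refine Ex_mono he hd P.hsum hh fun w hw => ?_
      by_cases hgw : Good m w
      · rw [ind_false (not_not.2 hgw), zero_mul, add_zero, Bn_eq (P.W_root h0 hw (t + 1)).2]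
        refine Finset.sum_le_sum fun k _ => ?_
        rw [← ind_and]
        apply ind_mono
        rintro ⟨h3, h4⟩
        have e1 := bt_same h0 h1 P hw hgw t (k := k) fun j hj => h4 j (by
          rw [hK1]; push_cast; omega)
        have e2 := bt_same h0 h1 P hw hgw t (k := k + 1) fun j hj => h4 j (by
          rw [hK1]; push_cast
          rcases abs_cases (j - k) with ⟨h5, _⟩ | ⟨h5, _⟩ <;>
            rcases abs_cases (j - (k + 1)) with ⟨h6, _⟩ | ⟨h6, _⟩ <;> omega)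
        unfold SE at h3 ⊢
        rw [e1, e2]
        exact h3
      · rw [ind_true hgw, one_mul]
        have h3 : ∑ k ∈ Finset.Icc (-((P.A + 1 : ℕ) : ℤ)) ((P.A + 1 : ℕ) : ℤ),
            ind (SE (P.W w t) k) * ind (Cl t k K1 w) ≤
            ∑ k ∈ Finset.Icc (-((P.A + 1 : ℕ) : ℤ)) ((P.A + 1 : ℕ) : ℤ), (1 : ℝ) :=
          Finset.sum_le_sum fun k _ => mul_le_one₀ (ind_le_one _) (ind_nonneg _) (ind_le_one _)
        rw [Finset.sum_const, nsmul_eq_mul, p6x_card, mul_one] at h3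
        have h3b : 2 * ((P.A + 1 : ℕ) : ℝ) + 1 = 2 * P.A + 3 := by push_cast; ring
        rw [h3b] at h3
        have h4 := Bn_nonneg (P.W w (t + 1))
        linarith
    rw [Ex_add] at h2
    have h3 := bt_bad hCp hg P hh (x := 2 * P.A + 3) (by positivity) (by
      obtain ⟨a1, a2, a3⟩ := p6x_size hA
      have h4 : (P.A : ℝ) ^ 4 ≤ (P.A : ℝ) ^ 6 := pow_le_pow_right₀ (by linarith) (by norm_num)
      linarith)
    have h4 : 1 / 2 * P.b t ≤ Ex (JJ P.T P.A) P.e P.d (hyb t r) (fun w =>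
        ∑ k ∈ Finset.Icc (-((P.A + 1 : ℕ) : ℤ)) ((P.A + 1 : ℕ) : ℤ),
          ind (SE (P.W w t) k) * ind (Cl t k K1 w)) := by
      rw [hb, Ex_sum]
      have h5 : Ex (JJ P.T P.A) P.e P.d (hyb t r) (fun w => Bn (P.W w t)) =
          ∑ k ∈ Finset.Icc (-((P.A + 1 : ℕ) : ℤ)) ((P.A + 1 : ℕ) : ℤ),
            Ex (JJ P.T P.A) P.e P.d (hyb t r) (fun w => ind (SE (P.W w t) k)) := by
        rw [← Ex_sum]
        exact Ex_congr fun w hw => Bn_eq (P.W_root h0 hw t).2
      rw [h5, Finset.mul_sum]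
      refine Finset.sum_le_sum fun k _ => ?_
      have h6 : Ex (JJ P.T P.A) P.e P.d (hyb t r)
          (fun w => ind (SE (P.W w t) k) * ind (Cl t k K1 w)) =
          Ex (JJ P.T P.A) P.e P.d (hyb t r) (fun w => ind (SE (P.W w t) k)) *
            Ex (JJ P.T P.A) P.e P.d (hyb t r) (fun w => ind (Cl t k K1 w)) := by
        apply Ex_indep (X := {c : ℕ × ℤ | c.1 < t}) (Y := {c : ℕ × ℤ | c.1 = t})
        · rw [Set.disjoint_left]
          intro c hc hc'
          have a1 : c.1 < t := hc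
          have a2 : c.1 = t := hc'
          omega
        · apply Dep_ind
          intro w w' h
          have : P.W w t = P.W w' t := by
            unfold Par.W
            rw [cf_dep fun a j ha => h (a, j) (show a < t from ha)]
          rw [this]
        · apply Dep_ind
          intro w w' h
          unfold Cl
          constructor
          · intro h7 j hj
            have := h (t, j) rfl
            rw [← this]
            exact h7 j hj
          · intro h7 j hj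
            have := h (t, j) rfl
            rw [this]
            exact h7 j hj
      rw [h6]
      have h7 := bt_Cl (JJ P.T P.A) he hed hd4 hh t k K1
      have h8 : 1 / 2 ≤ Ex (JJ P.T P.A) P.e P.d (hyb t r) (fun w => ind (Cl t k K1 w)) := by
        refine le_trans ?_ h7
        have h9 : ((K1 : ℕ) : ℝ) = (KK m : ℝ) + 1 := by rw [hK1]; push_cast; ring
        rw [h9]
        have h10 : 0 ≤ 2 * Cp * P.d := by positivity
        have h11 : 4 * (2 * ((KK m : ℝ) + 1) + 1) * P.d ≤ 1 := by linarith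
        linarith
      have h9 : 0 ≤ Ex (JJ P.T P.A) P.e P.d (hyb t r) (fun w => ind (SE (P.W w t) k)) :=
        Ex_nonneg he hd P.hsum hh fun w _ => ind_nonneg _
      rw [mul_comm]
      exact mul_le_mul_of_nonneg_left h8 h9
    linarith
  -- integrate
  have hint : P.b t ≤ 2 * P.AV Bn t + 2 * Cp * P.bad m := by
    have h2 : P.b t = ∫ r in (0 : ℝ)..1, P.b t := by simp
    rw [h2]
    have h3 : (∫ r in (0 : ℝ)..1, P.b t) ≤ ∫ r in (0 : ℝ)..1,
        (2 * Ex (JJ P.T P.A) P.e P.d (hyb t r) (fun w => Bn (P.W w (t + 1))) +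
          2 * Cp * P.bad m) := by
      refine intervalIntegral.integral_mono_on zero_le_one (by simp) ?_ key
      apply Continuous.intervalIntegrable
      exact (continuous_const.mul (Ex_cont _ _ _ _ _)).add continuous_const
    refine h3.trans (le_of_eq ?_)
    rw [intervalIntegral.integral_add, intervalIntegral.integral_const_mul]
    · unfold Par.AV
      simp
    · exact (continuous_const.mul (Ex_cont _ _ _ _ _)).intervalIntegrable 0 1
    · exact continuous_const.intervalIntegrable 0 1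
  have h3 : 0 ≤ 4 * (2 * ((KK m : ℝ) + 1) + 1) * P.bad m := by positivity
  linarith

end Pool.Agent.T3M
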