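import Pool.Agent.T3M.St
import Pool.Agent.Helper55.Vote.Crit

/-! From `St_Main` to ergodicity: submultiplicativity, spacing `p`, exchange of colours
(helper57). -/

set_option autoImplicit false

namespace Pool.Agent.T3M

open MeasureTheory Set Pool.Agent.Helper55.Vote

/-! ### locality and submultiplicativity -/

theorem crit_maj_congr {x y : ℤ → Bool} {s : ℤ} (h : ∀ j : ℤ, |j - s| ≤ 1 → x j = y j) :
    maj N1 x s = maj N1 y s := by
  unfold maj
  have h1 : (N1.filter fun j => x (s + j) = true) = N1.filter fun j => y (s + j) = true := by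
    refine Finset.filter_congr fun j hj => ?_
    have h2 : |s + j - s| ≤ 1 := by
      simp only [N1, Finset.mem_insert, Finset.mem_singleton] at hj
      rcases hj with rfl | rfl | rfl <;> simp
    rw [h _ h2]
  rw [h1]

theorem crit_loc (ω : Om) (t₀ : ℤ) {x y : ℤ → Bool} (n : ℕ) (s : ℤ)
    (h : ∀ j : ℤ, |j - s| ≤ n → x j = y j) : run N1 ω t₀ x n s = run N1 ω t₀ y n s := by
  induction n generalizing s with
  | zero => exact h s (by simp)
  | succ n ih =>
    rw [run_succ, run_succ]
    unfold step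
    have h1 : maj N1 (run N1 ω t₀ x n) s = maj N1 (run N1 ω t₀ y n) s := by
      refine crit_maj_congr fun j hj => ih j fun k hk => h k ?_
      rw [abs_le] at hj hk ⊢
      push_cast
      constructor <;> linarith [hj.1, hj.2, hk.1, hk.2]
    rw [h1]

section

variable (μ₀ : Measure (Option Bool)) [IsProbabilityMeasure μ₀]

theorem crit_sub (t T : ℕ) : D μ₀ N1 (t + T) ≤ (2 * (T : ℝ) + 1) * D μ₀ N1 t * D μ₀ N1 T := by
  classical
  obtain ⟨A, hA⟩ : ∃ A : Set Om, A = ⋃ j ∈ Finset.Icc (-(T : ℤ)) T, Dis N1 t j := ⟨_, rfl⟩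
  obtain ⟨B, hB⟩ : ∃ B : Set Om, B = {ω | run N1 ω (0 + (t : ℤ)) (fun _ => true) T 0 ≠
    run N1 ω (0 + (t : ℤ)) (fun _ => false) T 0} := ⟨_, rfl⟩
  have hAF : FL {c : ℤ × ℤ | (0 : ℤ) ≤ c.2 ∧ c.2 < 0 + (t : ℤ)} A := by
    rw [hA]
    exact FL.biUnion _ _ fun j _ => FL_ne N1 0 _ _ t j
  have hBF : FL {c : ℤ × ℤ | (0 + (t : ℤ)) ≤ c.2 ∧ c.2 < 0 + (t : ℤ) + T} B := by
    rw [hB]
    exact FL_ne N1 _ _ _ T 0
  have hdis : Disjoint {c : ℤ × ℤ | (0 : ℤ) ≤ c.2 ∧ c.2 < 0 + (t : ℤ)}
      {c : ℤ × ℤ | (0 + (t : ℤ)) ≤ c.2 ∧ c.2 < 0 + (t : ℤ) + T} := by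
    rw [Set.disjoint_left]
    intro c hc hc'
    simp only [mem_ofPred_eq] at hc hc'
    omega
  have hind := FL.indep μ₀ hAF hBF hdis
  have hBm : (Pm μ₀).real B = D μ₀ N1 T := by
    have h := measure_shift μ₀ (0, (t : ℤ)) (Dis_meas N1 T 0)
    rw [shift_Dis, prob_Dis] at h
    rw [hB, ← h]
    simp only [add_zero]
  have hAm : (Pm μ₀).real A ≤ (2 * (T : ℝ) + 1) * D μ₀ N1 t := by
    rw [hA]
    refine (measureReal_biUnion_finset_le _ _).trans ?_
    have h1 : ∀ j ∈ Finset.Icc (-(T : ℤ)) T, (Pm μ₀).real (Dis N1 t j) = D μ₀ N1 t :=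
      fun j _ => prob_Dis μ₀ N1 t j
    rw [Finset.sum_congr rfl h1, Finset.sum_const, nsmul_eq_mul, Int.card_Icc]
    have h2 : (((T : ℤ) + 1 - -(T : ℤ)).toNat : ℝ) = 2 * (T : ℝ) + 1 := by
      have h3 : ((T : ℤ) + 1 - -(T : ℤ)).toNat = 2 * T + 1 := by omega
      rw [h3]
      push_cast
      ring
    rw [h2]
  have hsub : Dis N1 (t + T) 0 ⊆ A ∩ B := by
    intro ω hω
    have hω' : run N1 ω 0 (fun _ => true) (t + T) 0 ≠ run N1 ω 0 (fun _ => false) (t + T) 0 := hω
    rw [run_add, run_add] at hω'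
    constructor
    · rw [hA]
      by_contra hcon
      apply hω'
      apply crit_loc
      intro j hj
      by_contra hne
      apply hcon
      rw [Set.mem_iUnion₂]
      refine ⟨j, ?_, hne⟩
      rw [Finset.mem_Icc]
      rw [sub_zero, abs_le] at hj
      exact hj
    · rw [hB]
      intro he
      apply hω'
      have h1 := run_mono N1 ω (0 + (t : ℤ)) (le_T (run N1 ω 0 (fun _ => true) t)) T 0
      have h2 := run_mono N1 ω (0 + (t : ℤ)) (F_le (run N1 ω 0 (fun _ => false) t)) T 0
      have h3 := run_mono N1 ω (0 + (t : ℤ)) (fun s => run_mono N1 ω 0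
        (x := fun _ => false) (y := fun _ => true) (fun _ => Bool.le_true _) t s) T 0
      exact le_antisymm (h1.trans (he.le.trans h2)) h3
  rw [← prob_Dis μ₀ N1 (t + T) 0]
  calc (Pm μ₀).real (Dis N1 (t + T) 0) ≤ (Pm μ₀).real (A ∩ B) := measureReal_mono hsub
    _ = (Pm μ₀).real A * (Pm μ₀).real B := hind
    _ ≤ (2 * (T : ℝ) + 1) * D μ₀ N1 t * D μ₀ N1 T := by
        rw [hBm]
        refine mul_le_mul_of_nonneg_right hAm ?_
        rw [← prob_Dis μ₀ N1 T 0]
        exact measureReal_nonneg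

theorem crit_nonneg (N : Finset ℤ) (t : ℕ) : 0 ≤ D μ₀ N t := by
  rw [← prob_Dis μ₀ N t 0]
  exact measureReal_nonneg

theorem crit_le_one (N : Finset ℤ) (t : ℕ) : D μ₀ N t ≤ 1 := by
  rw [← prob_Dis μ₀ N t 0]
  exact measureReal_le_one

theorem crit_tendsto (T : ℕ) (hT : (2 * (T : ℝ) + 1) * D μ₀ N1 T < 1) :
    Filter.Tendsto (fun t => D μ₀ N1 t) Filter.atTop (nhds 0) := by
  obtain ⟨q, hq⟩ : ∃ q : ℝ, q = (2 * (T : ℝ) + 1) * D μ₀ N1 T := ⟨_, rfl⟩
  have hq0 : 0 ≤ q := by
    rw [hq]
    have := crit_nonneg μ₀ N1 T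
    positivity
  have hk : ∀ k : ℕ, D μ₀ N1 (k * T) ≤ q ^ k := by
    intro k
    induction k with
    | zero =>
      rw [pow_zero]
      exact crit_le_one μ₀ N1 _
    | succ k ih =>
      have h1 := crit_sub μ₀ (k * T) T
      rw [Nat.succ_mul, pow_succ]
      calc D μ₀ N1 (k * T + T) ≤ (2 * (T : ℝ) + 1) * D μ₀ N1 (k * T) * D μ₀ N1 T := h1
        _ = D μ₀ N1 (k * T) * q := by rw [hq]; ring
        _ ≤ q ^ k * q := mul_le_mul_of_nonneg_right ih hq0
  rw [Metric.tendsto_atTop]
  intro ε hε
  obtain ⟨k, hkε⟩ := exists_pow_lt_of_lt_one hε (hq ▸ hT : q < 1)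
  refine ⟨k * T, fun t ht => ?_⟩
  rw [Real.dist_eq, sub_zero, abs_of_nonneg (crit_nonneg μ₀ N1 t)]
  exact (D_antitone μ₀ N1 ht).trans_lt ((hk k).trans_lt hkε)

/-! ### spacing -/

theorem crit_map_inj (g : ℤ × ℤ → ℤ × ℤ) (hg : Function.Injective g) :
    (Pm μ₀).map (fun (ω : Om) c => ω (g c)) = Pm μ₀ := by
  classical
  have hm : Measurable (fun (ω : Om) c => ω (g c)) :=
    measurable_pi_lambda _ fun c => measurable_pi_apply _
  unfold Pm
  refine Measure.eq_infinitePi _ fun s t ht => ?_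
  rw [Measure.map_apply hm (MeasurableSet.pi s.countable_toSet (fun i _ => ht i))]
  obtain ⟨τ, hτ⟩ : ∃ τ : ℤ × ℤ → Set (Option Bool), ∀ c, τ (g c) = t c :=
    ⟨fun c => t (Function.invFun g c), fun c => congrArg t (Function.leftInverse_invFun hg c)⟩
  have h1 : (fun (ω : Om) c => ω (g c)) ⁻¹' (Set.pi (s : Set (ℤ × ℤ)) t) =
      Set.pi ((s.image g : Finset (ℤ × ℤ)) : Set (ℤ × ℤ)) τ := by
    ext ω
    simp only [Set.mem_preimage, Set.mem_pi, Finset.mem_coe, Finset.mem_image]
    constructor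
    · rintro h _ ⟨c, hc, rfl⟩
      rw [hτ]
      exact h c hc
    · intro h c hc
      rw [← hτ]
      exact h _ ⟨c, hc, rfl⟩
  rw [h1, Measure.infinitePi_pi (fun _ : ℤ × ℤ => μ₀) (by
    intro c hc
    obtain ⟨c', hc', rfl⟩ := Finset.mem_image.1 hc
    rw [hτ]
    exact ht c'), Finset.prod_image (fun a _ b _ h => hg h)]
  exact Finset.prod_congr rfl fun c _ => by rw [hτ]

theorem crit_run_dil (p : ℤ) (hp : 0 < p) (N : Finset ℤ) (ω : Om) (x : Bool) (n : ℕ) (u : ℤ) :
    run (N.image fun v => p * v) ω 0 (fun _ => x) n (p * u) =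
      run N (fun c => ω (p * c.1, c.2)) 0 (fun _ => x) n u := by
  induction n generalizing u with
  | zero => simp [run_zero]
  | succ n ih =>
    rw [run_succ, run_succ]
    unfold step
    have h2 : maj (N.image fun v => p * v) (run (N.image fun v => p * v) ω 0 (fun _ => x) n)
        (p * u) = maj N (run N (fun c => ω (p * c.1, c.2)) 0 (fun _ => x) n) u := by
      unfold maj
      have hinj : Function.Injective (fun v : ℤ => p * v) := mul_right_injective₀ hp.ne'
      rw [Finset.card_image_of_injective _ hinj, Finset.filter_image,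
        Finset.card_image_of_injective _ hinj]
      have h3 : (N.filter fun j => run (N.image fun v => p * v) ω 0 (fun _ => x) n
          (p * u + p * j) = true) = N.filter fun j =>
          run N (fun c => ω (p * c.1, c.2)) 0 (fun _ => x) n (u + j) = true := by
        refine Finset.filter_congr fun j _ => ?_
        rw [← mul_add, ih]
      rw [h3]
    rw [h2]

theorem crit_dil (p : ℤ) (hp : 0 < p) (N : Finset ℤ) (t : ℕ) :
    D μ₀ (N.image fun v => p * v) t = D μ₀ N t := by
  have hg : Function.Injective (fun c : ℤ × ℤ => ((p * c.1, c.2) : ℤ × ℤ)) := by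
    rintro ⟨a, b⟩ ⟨a', b'⟩ h
    simp only [Prod.mk.injEq] at h
    have h1 : a = a' := mul_left_cancel₀ hp.ne' h.1
    rw [h1, h.2]
  have hm : Measurable (fun (ω : Om) (c : ℤ × ℤ) => ω (p * c.1, c.2)) :=
    measurable_pi_lambda _ fun c => measurable_pi_apply _
  have h1 := crit_map_inj μ₀ _ hg
  have h2 : (Pm μ₀).real ((fun (ω : Om) (c : ℤ × ℤ) => ω (p * c.1, c.2)) ⁻¹' (Dis N t 0)) =
      (Pm μ₀).real (Dis N t 0) := by
    rw [Measure.real, ← Measure.map_apply hm (Dis_meas N t 0), h1]
    rfl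
  rw [← prob_Dis μ₀ N t 0, ← h2, ← prob_Dis μ₀ (N.image fun v => p * v) t (p * 0)]
  congr 1
  ext ω
  simp only [Dis, mem_preimage, mem_ofPred_eq, crit_run_dil p hp]

end

/-! ### exchange of colours -/

theorem crit_law_swap (e d : ℝ) : (law e d).map (Option.map Bool.not) = law d e := by
  have hm : Measurable (Option.map Bool.not : Option Bool → Option Bool) :=
    Measurable.of_discrete
  unfold law
  rw [Measure.map_add _ _ hm, Measure.map_add _ _ hm, Measure.map_smul, Measure.map_smul,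
    Measure.map_smul, Measure.map_dirac, Measure.map_dirac, Measure.map_dirac]
  simp only [Option.map_none, Option.map_some, Bool.not_true, Bool.not_false]
  have h1 : 1 - e - d = 1 - d - e := by ring
  rw [h1, add_assoc, add_assoc, add_comm (ENNReal.ofReal d • _) _]

theorem crit_maj_not {N : Finset ℤ} (hN : N.card % 2 = 1) (x : ℤ → Bool) (s : ℤ) :
    maj N (fun i => !x i) s = !maj N x s := by
  unfold maj
  have h1 : (N.filter fun j => (!x (s + j)) = true).card +
      (N.filter fun j => x (s + j) = true).card = N.card := by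
    have h2 := Finset.card_filter_add_card_filter_not (s := N) (fun j => x (s + j) = true)
    have h3 : (N.filter fun j => (!x (s + j)) = true) =
        N.filter fun j => ¬ x (s + j) = true := by
      refine Finset.filter_congr fun j _ => ?_
      simp
    rw [h3, add_comm]
    exact h2
  by_cases h4 : N.card < 2 * (N.filter fun j => x (s + j) = true).card
  · have h5 : ¬ N.card < 2 * (N.filter fun j => (!x (s + j)) = true).card := by omega
    rw [decide_eq_false h5, decide_eq_true h4]
    rfl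
  · have h5 : N.card < 2 * (N.filter fun j => (!x (s + j)) = true).card := by omega
    rw [decide_eq_true h5, decide_eq_false h4]
    rfl

theorem crit_run_not {N : Finset ℤ} (hN : N.card % 2 = 1) (ω : Om) (x : Bool) (n : ℕ) (s : ℤ) :
    run N (fun c => (ω c).map Bool.not) 0 (fun _ => !x) n s = !run N ω 0 (fun _ => x) n s := by
  induction n generalizing s with
  | zero => rfl
  | succ n ih =>
    rw [run_succ, run_succ]
    unfold step
    have h1 : run N (fun c => (ω c).map Bool.not) 0 (fun _ => !x) n =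
        fun i => !run N ω 0 (fun _ => x) n i := funext ih
    rw [h1, crit_maj_not hN]
    beta_reduce
    cases ω (s, 0 + (n : ℤ)) with
    | none => rfl
    | some b => rfl

theorem crit_swap {e d : ℝ} (he : 0 ≤ e) (hd : 0 ≤ d) (h : e + d ≤ 1) {N : Finset ℤ}
    (hN : N.card % 2 = 1) (t : ℕ) : D (law e d) N t = D (law d e) N t := by
  have hp1 : IsProbabilityMeasure (law e d) := law_prob he hd h
  have hp2 : IsProbabilityMeasure (law d e) := law_prob hd he (by linarith)
  have hm : Measurable (Option.map Bool.not : Option Bool → Option Bool) :=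
    Measurable.of_discrete
  have hm2 : Measurable (fun (ω : Om) (c : ℤ × ℤ) => (ω c).map Bool.not) :=
    measurable_pi_lambda _ fun c => hm.comp (measurable_pi_apply c)
  have h1 : (Pm (law e d)).map (fun (ω : Om) c => (ω c).map Bool.not) = Pm (law d e) := by
    unfold Pm
    rw [← crit_law_swap e d]
    exact Measure.infinitePi_map_pi (fun _ : ℤ × ℤ => law e d) (fun _ => hm)
  have h2 : (Pm (law e d)).real ((fun (ω : Om) (c : ℤ × ℤ) => (ω c).map Bool.not) ⁻¹'
      (Dis N t 0)) = (Pm (law d e)).real (Dis N t 0) := by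
    rw [Measure.real, ← Measure.map_apply hm2 (Dis_meas N t 0), h1]
    rfl
  rw [← prob_Dis (law d e) N t 0, ← h2, ← prob_Dis (law e d) N t 0]
  congr 1
  ext ω
  have h3 := crit_run_not hN ω false t 0
  have h4 := crit_run_not hN ω true t 0
  simp only [Bool.not_true, Bool.not_false] at h3 h4
  simp only [Dis, mem_preimage, mem_ofPred_eq, h3, h4]
  cases run N ω 0 (fun _ => true) t 0 <;> cases run N ω 0 (fun _ => false) t 0 <;> simp

/-! ### the theorem -/

theorem crit_N1 : N1.card % 2 = 1 := by decide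

theorem thm_Crit (h : St_Main) : ∃ c : ℝ, 0 < c ∧ ∀ z p : ℤ, 0 < p → ∀ ep de : ℝ, 0 < ep →
    0 < de → max ep de ≤ c → |ep - de| ≤ c * (max ep de) ^ (3 / 2 : ℝ) →
    Pool.Agent.Helper55.Vote.Ergodic {z - p, z, z + p} ep de := by
  obtain ⟨c, hc, hmain⟩ := h
  refine ⟨min c (1 / 2), lt_min hc (by norm_num), ?_⟩
  intro z p hp ep de hep hde hmax hdiff
  have hmc : max ep de ≤ c := hmax.trans (min_le_left _ _)
  have hmh : max ep de ≤ 1 / 2 := hmax.trans (min_le_right _ _)
  have h1 : ep + de ≤ 1 := by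
    have := le_max_left ep de
    have := le_max_right ep de
    linarith
  have hpr : IsProbabilityMeasure (law ep de) := law_prob hep.le hde.le h1
  have hdiff' : |ep - de| ≤ c * (max ep de) ^ (3 / 2 : ℝ) := by
    refine hdiff.trans (mul_le_mul_of_nonneg_right (min_le_left _ _) ?_)
    exact Real.rpow_nonneg (hep.le.trans (le_max_left _ _)) _
  have hD : Filter.Tendsto (fun t => D (law ep de) N1 t) Filter.atTop (nhds 0) := by
    rcases le_total ep de with hle | hle
    · rw [max_eq_right hle] at hmc hdiff'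
      rw [abs_sub_comm, abs_of_nonneg (sub_nonneg.2 hle)] at hdiff'
      obtain ⟨T, hT⟩ := hmain ep de hep hle hmc hdiff'
      exact crit_tendsto (law ep de) T hT
    · rw [max_eq_left hle] at hmc hdiff'
      rw [abs_of_nonneg (sub_nonneg.2 hle)] at hdiff'
      have hpr2 : IsProbabilityMeasure (law de ep) := law_prob hde.le hep.le (by linarith)
      obtain ⟨T, hT⟩ := hmain de ep hde hle hmc hdiff'
      refine (crit_tendsto (law de ep) T hT).congr fun t => ?_
      exact crit_swap hde.le hep.le (by linarith) crit_N1 t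
  refine ergodic_of_decay _ ep de hep hde h1 (hD.congr fun t => ?_)
  have hN : (({z - p, z, z + p} : Finset ℤ).image fun v => v - z) =
      N1.image fun v => p * v := by
    unfold N1
    rw [Finset.image_insert, Finset.image_insert, Finset.image_singleton, Finset.image_insert,
      Finset.image_insert, Finset.image_singleton]
    have e1 : z - p - z = p * (-1) := by ring
    have e2 : z - z = p * 0 := by ring
    have e3 : z + p - z = p * 1 := by ring
    rw [e1, e2, e3]
  rw [← crit_dil (law ep de) p hp N1 t, ← hN]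
  exact D_shear (law ep de) _ z t

end Pool.Agent.T3M
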