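import Mathlib
import Pool.Agent.T3M.Ba

/-!
Runs of a binary sequence: the weighted number of runs and how it changes when one site is added
(used for the drift of the star run functional).
-/

set_option autoImplicit false

namespace Pool.Agent.T3M

/-! ### Run lengths -/

/-- number of consecutive `true` which end at `p` -/
noncomputable def d3_lr (x : ℤ → Bool) (p : ℤ) : ℕ := sInf {j : ℕ | x (p - j) = false}

/-- number of consecutive `true` which start at `p` -/
noncomputable def d3_rr (x : ℤ → Bool) (p : ℤ) : ℕ := sInf {j : ℕ | x (p + j) = false}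

/-- `x` vanishes outside `[-n, n]` -/
def d3_FS (n : ℕ) (x : ℤ → Bool) : Prop := ∀ p : ℤ, (n : ℤ) < |p| → x p = false

lemma d3_lr_eq {x : ℤ → Bool} {p : ℤ} {n : ℕ} (h1 : ∀ j : ℕ, j < n → x (p - j) = true)
    (h2 : x (p - n) = false) : d3_lr x p = n := by
  unfold d3_lr
  apply le_antisymm
  · exact Nat.sInf_le h2
  · refine le_csInf ⟨n, h2⟩ fun m hm => ?_
    by_contra h
    have h3 := h1 m (not_le.1 h)
    rw [Set.mem_ofPred_eq, h3] at hm
    exact absurd hm (by simp)

lemma d3_rr_eq {x : ℤ → Bool} {p : ℤ} {n : ℕ} (h1 : ∀ j : ℕ, j < n → x (p + j) = true)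
    (h2 : x (p + n) = false) : d3_rr x p = n := by
  unfold d3_rr
  apply le_antisymm
  · exact Nat.sInf_le h2
  · refine le_csInf ⟨n, h2⟩ fun m hm => ?_
    by_contra h
    have h3 := h1 m (not_le.1 h)
    rw [Set.mem_ofPred_eq, h3] at hm
    exact absurd hm (by simp)

lemma d3_lr_spec {n : ℕ} {x : ℤ → Bool} (hx : d3_FS n x) (p : ℤ) :
    x (p - d3_lr x p) = false ∧ ∀ j : ℕ, j < d3_lr x p → x (p - j) = true := by
  constructor
  · have h : {j : ℕ | x (p - j) = false}.Nonempty := by
      refine ⟨(|p| + n + 1).toNat, hx _ ?_⟩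
      have h1 : (((|p| + n + 1).toNat : ℕ) : ℤ) = |p| + n + 1 := Int.toNat_of_nonneg (by positivity)
      rw [h1]
      rcases abs_cases p with ⟨h2, _⟩ | ⟨h2, _⟩ <;>
        rcases abs_cases (p - (|p| + n + 1)) with ⟨h3, _⟩ | ⟨h3, _⟩ <;> omega
    exact Nat.sInf_mem h
  · intro j hj
    have h := Nat.notMem_of_lt_sInf hj
    rw [Set.mem_ofPred_eq] at h
    exact Bool.eq_true_of_not_eq_false h

lemma d3_rr_spec {n : ℕ} {x : ℤ → Bool} (hx : d3_FS n x) (p : ℤ) :
    x (p + d3_rr x p) = false ∧ ∀ j : ℕ, j < d3_rr x p → x (p + j) = true := by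
  constructor
  · have h : {j : ℕ | x (p + j) = false}.Nonempty := by
      refine ⟨(|p| + n + 1).toNat, hx _ ?_⟩
      have h1 : (((|p| + n + 1).toNat : ℕ) : ℤ) = |p| + n + 1 := Int.toNat_of_nonneg (by positivity)
      rw [h1]
      rcases abs_cases p with ⟨h2, _⟩ | ⟨h2, _⟩ <;>
        rcases abs_cases (p + (|p| + n + 1)) with ⟨h3, _⟩ | ⟨h3, _⟩ <;> omega
    exact Nat.sInf_mem h
  · intro j hj
    have h := Nat.notMem_of_lt_sInf hj
    rw [Set.mem_ofPred_eq] at h
    exact Bool.eq_true_of_not_eq_false h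

lemma d3_lr_step {n : ℕ} {x : ℤ → Bool} (hx : d3_FS n x) (p : ℤ) :
    d3_lr x p = if x p = true then d3_lr x (p - 1) + 1 else 0 := by
  obtain ⟨h1, h2⟩ := d3_lr_spec hx (p - 1)
  split_ifs with h
  · apply d3_lr_eq
    · intro j hj
      rcases Nat.eq_zero_or_pos j with h3 | h3
      · subst h3
        rw [Nat.cast_zero, sub_zero]
        exact h
      · have h4 := h2 (j - 1) (by omega)
        rw [show p - 1 - ((j - 1 : ℕ) : ℤ) = p - j by omega] at h4
        exact h4
    · push_cast
      rw [show p - ((d3_lr x (p - 1) : ℤ) + 1) = p - 1 - d3_lr x (p - 1) by ring]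
      exact h1
  · apply d3_lr_eq
    · intro j hj
      exact absurd hj (Nat.not_lt_zero j)
    · rw [Nat.cast_zero, sub_zero]
      exact Bool.eq_false_of_not_eq_true h

lemma d3_rr_step {n : ℕ} {x : ℤ → Bool} (hx : d3_FS n x) (p : ℤ) :
    d3_rr x p = if x p = true then d3_rr x (p + 1) + 1 else 0 := by
  obtain ⟨h1, h2⟩ := d3_rr_spec hx (p + 1)
  split_ifs with h
  · apply d3_rr_eq
    · intro j hj
      rcases Nat.eq_zero_or_pos j with h3 | h3
      · subst h3
        rw [Nat.cast_zero, add_zero]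
        exact h
      · have h4 := h2 (j - 1) (by omega)
        rw [show p + 1 + ((j - 1 : ℕ) : ℤ) = p + j by omega] at h4
        exact h4
    · push_cast
      rw [show p + ((d3_rr x (p + 1) : ℤ) + 1) = p + 1 + d3_rr x (p + 1) by ring]
      exact h1
  · apply d3_rr_eq
    · intro j hj
      exact absurd hj (Nat.not_lt_zero j)
    · rw [Nat.cast_zero, add_zero]
      exact Bool.eq_false_of_not_eq_true h

lemma d3_lr_zero {n : ℕ} {x : ℤ → Bool} (hx : d3_FS n x) (p : ℤ) :
    d3_lr x p = 0 ↔ x p = false := by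
  rw [d3_lr_step hx]
  cases x p <;> simp

lemma d3_rr_zero {n : ℕ} {x : ℤ → Bool} (hx : d3_FS n x) (p : ℤ) :
    d3_rr x p = 0 ↔ x p = false := by
  rw [d3_rr_step hx]
  cases x p <;> simp

lemma d3_lr_congr {x y : ℤ → Bool} {p : ℤ} (h : ∀ t : ℤ, t ≤ p → x t = y t) :
    d3_lr x p = d3_lr y p := by
  unfold d3_lr
  congr 1
  ext j
  rw [Set.mem_ofPred_eq, Set.mem_ofPred_eq, h (p - j) (by omega)]

lemma d3_rr_congr {x y : ℤ → Bool} {p : ℤ} (h : ∀ t : ℤ, p ≤ t → x t = y t) :
    d3_rr x p = d3_rr y p := by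
  unfold d3_rr
  congr 1
  ext j
  rw [Set.mem_ofPred_eq, Set.mem_ofPred_eq, h (p + j) (by omega)]

/-! ### The weighted number of runs -/

/-- sum over the runs of `true` of the weight of the length -/
noncomputable def d3_Z (κ : ℕ → ℝ) (x : ℤ → Bool) : ℝ :=
  ∑ᶠ p : ℤ, ind (x p = true ∧ x (p + 1) = false) * κ (d3_lr x p)

/-- weight of a possibly empty run -/
noncomputable def d3_k0 (κ : ℕ → ℝ) (l : ℕ) : ℝ := if l = 0 then 0 else κ l

lemma d3_FS.mono {n n' : ℕ} {x : ℤ → Bool} (h : d3_FS n x) (hn : n ≤ n') : d3_FS n' x :=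
  fun p hp => h p (by omega)

lemma d3_term_out {n : ℕ} {κ : ℕ → ℝ} {x : ℤ → Bool} (hx : d3_FS n x) (p : ℤ)
    (hp : (n : ℤ) < |p|) : ind (x p = true ∧ x (p + 1) = false) * κ (d3_lr x p) = 0 := by
  rw [hx p hp, ind_false (by simp), zero_mul]

/-- adding one site -/
lemma d3_one {n : ℕ} (κ : ℕ → ℝ) {x : ℤ → Bool} (hx : d3_FS n x) (k : ℤ) (hk : x k = false) :
    d3_Z κ (Function.update x k true) = d3_Z κ x +
      (κ (d3_lr x (k - 1) + d3_rr x (k + 1) + 1) - d3_k0 κ (d3_lr x (k - 1)) -
        d3_k0 κ (d3_rr x (k + 1))) := by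
  set y := Function.update x k true with hy
  set P := d3_lr x (k - 1) with hP
  set Q := d3_rr x (k + 1) with hQ
  have hyk : y k = true := by rw [hy, Function.update_self]
  have hyt : ∀ t, t ≠ k → y t = x t := fun t ht => by rw [hy, Function.update_of_ne ht]
  obtain ⟨hP1, hP2⟩ := d3_lr_spec hx (k - 1)
  obtain ⟨hQ1, hQ2⟩ := d3_rr_spec hx (k + 1)
  rw [← hP] at hP1 hP2
  rw [← hQ] at hQ1 hQ2
  -- the support of `y`
  have hyFS : d3_FS (n + k.natAbs + 1) y := by
    intro p hp
    push_cast at hp
    have h1 : (k.natAbs : ℤ) = |k| := Int.natCast_natAbs k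
    rw [hyt p (by rintro rfl; omega)]
    exact hx p (by have := abs_nonneg k; omega)
  have hxFS : d3_FS (n + k.natAbs + 1) x := hx.mono (by omega)
  -- the run which ends at `t > k` and touches `k`
  have hlrk : d3_lr y k = P + 1 := by
    rw [d3_lr_step hyFS, if_pos hyk, hP]
    congr 1
    exact d3_lr_congr fun t ht => hyt t (by omega)
  have hpt : ∀ t : ℤ, ind (y t = true ∧ y (t + 1) = false) * κ (d3_lr y t) -
      ind (x t = true ∧ x (t + 1) = false) * κ (d3_lr x t) =
      (if t = k - 1 then -d3_k0 κ P else 0) +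
        (if t = k + Q then κ (P + Q + 1) - d3_k0 κ Q else 0) := by
    intro t
    rcases lt_trichotomy t k with h | h | h
    · rw [if_neg (show t ≠ k + Q by omega), add_zero]
      by_cases h1 : t = k - 1
      · subst h1
        rw [if_pos rfl, show k - 1 + 1 = k by ring, hyk, hk, ind_false (by simp), zero_mul, zero_sub]
        unfold d3_k0
        by_cases h2 : x (k - 1) = true
        · have h3 : P ≠ 0 := by
            intro h4
            rw [(d3_lr_zero hx (k - 1)).1 h4] at h2
            exact absurd h2 (by simp)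
          rw [if_neg h3, ind_true ⟨h2, rfl⟩, one_mul]
        · have h3 : P = 0 := (d3_lr_zero hx (k - 1)).2 (Bool.eq_false_of_not_eq_true h2)
          rw [if_pos h3, ind_false (fun h4 => h2 h4.1), zero_mul]
      · rw [if_neg h1, hyt t (by omega), hyt (t + 1) (by omega),
          d3_lr_congr (fun s hs => hyt s (by omega)), sub_self]
    · subst h
      rw [if_neg (show t ≠ t - 1 by omega), zero_add, hyt (t + 1) (by omega), hyk, hk,
        ind_false (show ¬ (false = true ∧ x (t + 1) = false) by simp), zero_mul, sub_zero, hlrk]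
      by_cases h1 : x (t + 1) = true
      · have h2 : Q ≠ 0 := by
          intro h4
          rw [(d3_rr_zero hx (t + 1)).1 h4] at h1
          exact absurd h1 (by simp)
        rw [if_neg (by omega), ind_false (by rw [h1]; simp), zero_mul]
      · have h2 : Q = 0 := (d3_rr_zero hx (t + 1)).2 (Bool.eq_false_of_not_eq_true h1)
        rw [h2, if_pos (by simp), ind_true ⟨rfl, Bool.eq_false_of_not_eq_true h1⟩, one_mul]
        unfold d3_k0
        rw [if_pos rfl, sub_zero, add_zero]
    · rw [if_neg (show t ≠ k - 1 by omega), zero_add, hyt t (by omega), hyt (t + 1) (by omega)]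
      rcases lt_trichotomy t (k + Q) with h1 | h1 | h1
      · rw [if_neg (by omega)]
        have h2 := hQ2 (t - k).toNat (by omega)
        rw [show k + 1 + (((t - k).toNat : ℕ) : ℤ) = t + 1 by omega] at h2
        rw [h2, ind_false (by simp), zero_mul, zero_mul, sub_zero]
      · rw [if_pos h1]
        have hQ0 : Q ≠ 0 := by omega
        have h2 := hQ2 (Q - 1) (by omega)
        rw [show k + 1 + ((Q - 1 : ℕ) : ℤ) = t by omega] at h2
        have h3 : x (t + 1) = false := by
          rw [show k + 1 + (Q : ℤ) = t + 1 by omega] at hQ1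
          exact hQ1
        have h4 : d3_lr x t = Q := by
          apply d3_lr_eq
          · intro j hj
            have h5 := hQ2 (Q - 1 - j) (by omega)
            rw [show k + 1 + ((Q - 1 - j : ℕ) : ℤ) = t - j by omega] at h5
            exact h5
          · rw [show t - (Q : ℤ) = k by omega]
            exact hk
        have h5 : d3_lr y t = P + Q + 1 := by
          apply d3_lr_eq
          · intro j hj
            rcases lt_trichotomy j Q with h6 | h6 | h6
            · rw [hyt _ (by omega)]
              have h5 := hQ2 (Q - 1 - j) (by omega)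
              rw [show k + 1 + ((Q - 1 - j : ℕ) : ℤ) = t - j by omega] at h5
              exact h5
            · rw [show t - (j : ℤ) = k by omega]
              exact hyk
            · rw [hyt _ (by omega)]
              have h5 := hP2 (j - Q - 1) (by omega)
              rw [show k - 1 - ((j - Q - 1 : ℕ) : ℤ) = t - j by omega] at h5
              exact h5
          · rw [hyt _ (by push_cast; omega)]
            rw [show t - ((P + Q + 1 : ℕ) : ℤ) = k - 1 - P by push_cast; omega]
            exact hP1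
        rw [h2, h3, ind_true ⟨rfl, rfl⟩, one_mul, one_mul, h4, h5]
        unfold d3_k0
        rw [if_neg hQ0]
      · rw [if_neg (by omega)]
        have h2 : d3_lr y t = d3_lr x t := by
          obtain ⟨h3, h4⟩ := d3_lr_spec hx t
          have h5 : (d3_lr x t : ℤ) ≤ t - (k + 1 + Q) := by
            by_contra h6
            have h7 := h4 (t - (k + 1 + Q)).toNat (by omega)
            rw [show t - (((t - (k + 1 + (Q : ℤ))).toNat : ℕ) : ℤ) = k + 1 + Q by omega, hQ1] at h7
            exact absurd h7 (by simp)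
          apply d3_lr_eq
          · intro j hj
            rw [hyt _ (by omega)]
            exact h4 j hj
          · rw [hyt _ (by omega)]
            exact h3
        rw [h2, sub_self]
  have hsum : d3_Z κ y - d3_Z κ x = -d3_k0 κ P + (κ (P + Q + 1) - d3_k0 κ Q) := by
    unfold d3_Z
    rw [← fs_sub (n + k.natAbs + 1) (fun p hp => d3_term_out hyFS p hp)
      (fun p hp => d3_term_out hxFS p hp), finsum_congr hpt, finsum_add_distrib,
      finsum_eq_single _ (k - 1) (fun t ht => if_neg ht),
      finsum_eq_single _ (k + (Q : ℤ)) (fun t ht => if_neg ht), if_pos rfl, if_pos rfl]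
    · refine (Set.finite_singleton (k - 1)).subset fun t ht => ?_
      rw [Function.mem_support] at ht
      by_contra h
      exact ht (if_neg h)
    · refine (Set.finite_singleton (k + (Q : ℤ))).subset fun t ht => ?_
      rw [Function.mem_support] at ht
      by_contra h
      exact ht (if_neg h)
  linarith

/-! ### Three sites -/

/-- total weight of the runs of a word `1^A a b c 1^B` -/
noncomputable def d3_G (κ : ℕ → ℝ) (A B : ℕ) : Bool → Bool → Bool → ℝ
  | true, true, true => κ (A + B + 3)
  | true, true, false => κ (A + 2) + d3_k0 κ B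
  | true, false, true => κ (A + 1) + κ (B + 1)
  | true, false, false => κ (A + 1) + d3_k0 κ B
  | false, true, true => d3_k0 κ A + κ (B + 2)
  | false, true, false => d3_k0 κ A + κ 1 + d3_k0 κ B
  | false, false, true => d3_k0 κ A + κ (B + 1)
  | false, false, false => d3_k0 κ A + d3_k0 κ B

/-- the configuration with prescribed values at `i - 1, i, i + 1` -/
def d3_Y (x : ℤ → Bool) (i : ℤ) (a b c : Bool) : ℤ → Bool :=
  Function.update (Function.update (Function.update x (i - 1) a) i b) (i + 1) c

lemma d3_Y_l (x : ℤ → Bool) (i : ℤ) (a b c : Bool) : d3_Y x i a b c (i - 1) = a := by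
  unfold d3_Y
  rw [Function.update_of_ne (by omega), Function.update_of_ne (by omega), Function.update_self]

lemma d3_Y_m (x : ℤ → Bool) (i : ℤ) (a b c : Bool) : d3_Y x i a b c i = b := by
  unfold d3_Y
  rw [Function.update_of_ne (by omega), Function.update_self]

lemma d3_Y_r (x : ℤ → Bool) (i : ℤ) (a b c : Bool) : d3_Y x i a b c (i + 1) = c := by
  unfold d3_Y
  rw [Function.update_self]

lemma d3_Y_o (x : ℤ → Bool) (i : ℤ) (a b c : Bool) {t : ℤ} (h1 : t ≠ i - 1) (h2 : t ≠ i)
    (h3 : t ≠ i + 1) : d3_Y x i a b c t = x t := by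
  unfold d3_Y
  rw [Function.update_of_ne h3, Function.update_of_ne h2, Function.update_of_ne h1]

lemma d3_Y_FS {n : ℕ} {x : ℤ → Bool} (hx : d3_FS n x) (i : ℤ) (a b c : Bool) :
    d3_FS (n + i.natAbs + 2) (d3_Y x i a b c) := by
  intro p hp
  push_cast at hp
  have h1 : (i.natAbs : ℤ) = |i| := Int.natCast_natAbs i
  have h2 : p ≠ i - 1 ∧ p ≠ i ∧ p ≠ i + 1 := by
    rcases abs_cases p with ⟨h3, _⟩ | ⟨h3, _⟩ <;> rcases abs_cases i with ⟨h4, _⟩ | ⟨h4, _⟩ <;>
      refine ⟨?_, ?_, ?_⟩ <;> omega
  rw [d3_Y_o x i a b c h2.1 h2.2.1 h2.2.2]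
  exact hx p (by have := abs_nonneg i; omega)

lemma d3_Y_self (x : ℤ → Bool) (i : ℤ) : d3_Y x i (x (i - 1)) (x i) (x (i + 1)) = x := by
  funext t
  by_cases h1 : t = i - 1
  · rw [h1, d3_Y_l]
  · by_cases h2 : t = i
    · rw [h2, d3_Y_m]
    · by_cases h3 : t = i + 1
      · rw [h3, d3_Y_r]
      · exact d3_Y_o x i _ _ _ h1 h2 h3

lemma d3_Y_ext {x y : ℤ → Bool} {i : ℤ} (h : ∀ t : ℤ, 2 ≤ |t - i| → y t = x t) :
    y = d3_Y x i (y (i - 1)) (y i) (y (i + 1)) := by
  funext t
  by_cases h1 : t = i - 1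
  · rw [h1, d3_Y_l]
  · by_cases h2 : t = i
    · rw [h2, d3_Y_m]
    · by_cases h3 : t = i + 1
      · rw [h3, d3_Y_r]
      · rw [d3_Y_o x i _ _ _ h1 h2 h3]
        apply h
        rcases abs_cases (t - i) with ⟨h4, _⟩ | ⟨h4, _⟩ <;> omega

/-- the weighted number of runs in terms of the three sites -/
lemma d3_three {n : ℕ} (κ : ℕ → ℝ) {x : ℤ → Bool} (hx : d3_FS n x) (i : ℤ) (a b c : Bool) :
    d3_Z κ (d3_Y x i a b c) = d3_Z κ (d3_Y x i false false false) +
      (d3_G κ (d3_lr x (i - 2)) (d3_rr x (i + 2)) a b c -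
        d3_G κ (d3_lr x (i - 2)) (d3_rr x (i + 2)) false false false) := by
  set A := d3_lr x (i - 2) with hA
  set B := d3_rr x (i + 2) with hB
  have lrA : ∀ a b c : Bool, d3_lr (d3_Y x i a b c) (i - 2) = A := fun a b c =>
    d3_lr_congr fun t ht => d3_Y_o x i a b c (by omega) (by omega) (by omega)
  have rrB : ∀ a b c : Bool, d3_rr (d3_Y x i a b c) (i + 2) = B := fun a b c =>
    d3_rr_congr fun t ht => d3_Y_o x i a b c (by omega) (by omega) (by omega)
  have lr1 : ∀ a b c : Bool, d3_lr (d3_Y x i a b c) (i - 1) = if a = true then A + 1 else 0 := by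
    intro a b c
    rw [d3_lr_step (d3_Y_FS hx i a b c), d3_Y_l, show i - 1 - 1 = i - 2 by ring, lrA]
  have lr2 : ∀ a b c : Bool, d3_lr (d3_Y x i a b c) i =
      if b = true then (if a = true then A + 1 else 0) + 1 else 0 := by
    intro a b c
    rw [d3_lr_step (d3_Y_FS hx i a b c), d3_Y_m, lr1]
  have rr1 : ∀ a b : Bool, d3_rr (d3_Y x i a b false) (i + 1) = 0 := by
    intro a b
    rw [d3_rr_zero (d3_Y_FS hx i a b false), d3_Y_r]
  have rr2 : ∀ a c : Bool, d3_rr (d3_Y x i a false c) i = 0 := by
    intro a c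
    rw [d3_rr_zero (d3_Y_FS hx i a false c), d3_Y_m]
  have s1 : d3_Z κ (d3_Y x i true false false) = d3_Z κ (d3_Y x i false false false) +
      (κ (A + 1) - d3_k0 κ A) := by
    have h := d3_one κ (d3_Y_FS hx i false false false) (i - 1) (d3_Y_l x i _ _ _)
    rw [show i - 1 - 1 = i - 2 by ring, show i - 1 + 1 = i by ring, lrA, rr2] at h
    have e : Function.update (d3_Y x i false false false) (i - 1) true =
        d3_Y x i true false false := by
      unfold d3_Y
      rw [Function.update_comm (show i + 1 ≠ i - 1 by omega), Function.update_comm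
        (show i ≠ i - 1 by omega), Function.update_idem]
    rw [e] at h
    rw [h]
    unfold d3_k0
    simp
  have s2 : ∀ a : Bool, d3_Z κ (d3_Y x i a true false) = d3_Z κ (d3_Y x i a false false) +
      (κ ((if a = true then A + 1 else 0) + 1) - d3_k0 κ (if a = true then A + 1 else 0)) := by
    intro a
    have h := d3_one κ (d3_Y_FS hx i a false false) i (d3_Y_m x i _ _ _)
    rw [lr1, rr1] at h
    have e : Function.update (d3_Y x i a false false) i true =
        d3_Y x i a true false := by
      unfold d3_Y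
      rw [Function.update_comm (show i + 1 ≠ i by omega), Function.update_idem]
    rw [e] at h
    rw [h]
    have e0 : d3_k0 κ 0 = 0 := if_pos rfl
    rw [e0, sub_zero, add_zero]
  have s3 : ∀ a b : Bool, d3_Z κ (d3_Y x i a b true) = d3_Z κ (d3_Y x i a b false) +
      (κ ((if b = true then (if a = true then A + 1 else 0) + 1 else 0) + B + 1) -
        d3_k0 κ (if b = true then (if a = true then A + 1 else 0) + 1 else 0) - d3_k0 κ B) := by
    intro a b
    have h := d3_one κ (d3_Y_FS hx i a b false) (i + 1) (d3_Y_r x i _ _ _)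
    rw [show i + 1 - 1 = i by ring, show i + 1 + 1 = i + 2 by ring, lr2, rrB] at h
    have e : Function.update (d3_Y x i a b false) (i + 1) true = d3_Y x i a b true := by
      unfold d3_Y
      rw [Function.update_idem]
    rw [e] at h
    exact h
  have e0 : d3_k0 κ 0 = 0 := if_pos rfl
  have e1 : ∀ l : ℕ, d3_k0 κ (l + 1) = κ (l + 1) := fun l => if_neg (Nat.succ_ne_zero l)
  have e2 : A + 1 + 1 + B + 1 = A + B + 3 := by ring
  have e3 : 0 + B + 1 = B + 1 := by ring
  have e4 : 0 + 1 + B + 1 = B + 2 := by ring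
  cases a <;> cases b <;> cases c <;>
    simp only [s1, s2, s3, d3_G, if_true, if_false, Bool.false_eq_true, e0, e1, e2, e4,
      zero_add] <;> ring

end Pool.Agent.T3M
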