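import Mathlib
import Pool.Agent.T3M.MD3a

/-!
The weight of a run, and the finite inequality for one window of five sites
(used for the drift of the star run functional).
-/

set_option autoImplicit false

namespace Pool.Agent.T3M

/-! ### The weight -/

lemma d3_kap_nonneg (D l : ℕ) : 0 ≤ kap D l := by
  unfold kap
  split_ifs with h1 h2
  · rcases Nat.eq_zero_or_pos D with h3 | h3
    · subst h3
      simp
    · have h4 : (l : ℝ) ≤ D := by exact_mod_cast h1
      have h5 : (0 : ℝ) < D := by exact_mod_cast h3
      have h6 : (l : ℝ) ^ 2 ≤ (D : ℝ) ^ 2 := by gcongr
      have h7 : (l : ℝ) ^ 2 / (2 * (D : ℝ) ^ 2) ≤ 1 := by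
        rw [div_le_one (by positivity)]
        nlinarith
      linarith
  · positivity
  · exact le_refl 0

lemma d3_kap_succ (D l : ℕ) (hD : 1 ≤ D) : kap D (l + 1) ≤ kap D l := by
  have h0 : (1 : ℝ) ≤ D := by exact_mod_cast hD
  have h2 : (0 : ℝ) < 2 * (D : ℝ) ^ 2 := by positivity
  have hl : (0 : ℝ) ≤ l := Nat.cast_nonneg l
  unfold kap
  rcases lt_trichotomy l D with h | h | h
  · rw [if_pos (by omega), if_pos (by omega)]
    push_cast
    have : (l : ℝ) ^ 2 / (2 * (D : ℝ) ^ 2) ≤ ((l : ℝ) + 1) ^ 2 / (2 * (D : ℝ) ^ 2) := by
      gcongr
      linarith
    linarith
  · subst h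
    rw [if_neg (by omega), if_pos (by omega), if_pos (by omega)]
    push_cast
    rw [div_le_iff₀ h2, sub_mul, div_mul_cancel₀ _ h2.ne']
    nlinarith
  · rw [if_neg (by omega), if_neg (show ¬ l ≤ D by omega)]
    by_cases h3 : l + 1 ≤ 2 * D
    · rw [if_pos h3, if_pos (by omega)]
      have h4 : (l : ℝ) + 1 ≤ 2 * D := by exact_mod_cast h3
      push_cast
      gcongr
      linarith
    · rw [if_neg h3]
      split_ifs with h5
      · positivity
      · exact le_refl 0

lemma d3_kap_anti (D : ℕ) (hD : 1 ≤ D) {a b : ℕ} (h : a ≤ b) : kap D b ≤ kap D a :=
  antitone_nat_of_succ_le (fun l => d3_kap_succ D l hD) h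

/-- second difference -/
lemma d3_kap_second (D l : ℕ) (hD : 1 ≤ D) :
    kap D l + kap D (l + 2) - 2 * kap D (l + 1) ≤ 1 / (D : ℝ) ^ 2 := by
  have h0 : (1 : ℝ) ≤ D := by exact_mod_cast hD
  have h2 : (0 : ℝ) < 2 * (D : ℝ) ^ 2 := by positivity
  have h2' : (D : ℝ) ^ 2 ≠ 0 := by positivity
  have hl : (0 : ℝ) ≤ l := Nat.cast_nonneg l
  have hD0 : (D : ℝ) ≠ 0 := by positivity
  unfold kap
  by_cases c1 : l + 2 ≤ D
  · rw [if_pos (by omega), if_pos (by omega), if_pos (by omega)]
    push_cast
    rw [← sub_nonneg]
    have : 1 / (D : ℝ) ^ 2 - (1 - (l : ℝ) ^ 2 / (2 * (D : ℝ) ^ 2) +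
        (1 - ((l : ℝ) + 2) ^ 2 / (2 * (D : ℝ) ^ 2)) -
        2 * (1 - ((l : ℝ) + 1) ^ 2 / (2 * (D : ℝ) ^ 2))) = 2 / (D : ℝ) ^ 2 := by
      field_simp
      ring
    rw [this]
    positivity
  · by_cases c2 : l + 1 = D
    · have c3 : (l : ℝ) = D - 1 := by
        have : ((l + 1 : ℕ) : ℝ) = D := by exact_mod_cast c2
        push_cast at this
        linarith
      rw [if_pos (by omega), if_neg (show ¬ l + 2 ≤ D by omega), if_pos (by omega),
        if_pos (by omega)]
      push_cast
      rw [c3, ← sub_nonneg]
      have : 1 / (D : ℝ) ^ 2 - (1 - ((D : ℝ) - 1) ^ 2 / (2 * (D : ℝ) ^ 2) +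
          (2 * (D : ℝ) - ((D : ℝ) - 1 + 2)) ^ 2 / (2 * (D : ℝ) ^ 2) -
          2 * (1 - ((D : ℝ) - 1 + 1) ^ 2 / (2 * (D : ℝ) ^ 2))) = 1 / (D : ℝ) ^ 2 := by
        field_simp
        ring
      rw [this]
      positivity
    · by_cases c3 : l = D
      · subst c3
        rw [if_pos (by omega), if_neg (show ¬ l + 2 ≤ l by omega),
          if_neg (show ¬ l + 1 ≤ l by omega), if_pos (show l + 1 ≤ 2 * l by omega)]
        by_cases c4 : l + 2 ≤ 2 * l
        · rw [if_pos c4]
          push_cast
          rw [← sub_nonneg]
          have : 1 / (l : ℝ) ^ 2 - (1 - (l : ℝ) ^ 2 / (2 * (l : ℝ) ^ 2) +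
              (2 * (l : ℝ) - ((l : ℝ) + 2)) ^ 2 / (2 * (l : ℝ) ^ 2) -
              2 * ((2 * (l : ℝ) - ((l : ℝ) + 1)) ^ 2 / (2 * (l : ℝ) ^ 2))) = 0 := by
            field_simp
            ring
          rw [this]
        · have c5 : l = 1 := by omega
          subst c5
          norm_num
      · rw [if_neg (show ¬ l + 2 ≤ D by omega), if_neg (show ¬ l + 1 ≤ D by omega),
          if_neg (show ¬ l ≤ D by omega)]
        by_cases c4 : l + 2 ≤ 2 * D
        · rw [if_pos (by omega), if_pos c4, if_pos (by omega)]
          push_cast
          rw [← sub_nonneg]
          have : 1 / (D : ℝ) ^ 2 - ((2 * (D : ℝ) - (l : ℝ)) ^ 2 / (2 * (D : ℝ) ^ 2) +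
              (2 * (D : ℝ) - ((l : ℝ) + 2)) ^ 2 / (2 * (D : ℝ) ^ 2) -
              2 * ((2 * (D : ℝ) - ((l : ℝ) + 1)) ^ 2 / (2 * (D : ℝ) ^ 2))) = 0 := by
            field_simp
            ring
          rw [this]
        · rw [if_neg c4]
          by_cases c5 : l + 1 ≤ 2 * D
          · have c6 : (l : ℝ) = 2 * D - 1 := by
              have : ((l + 1 : ℕ) : ℝ) = ((2 * D : ℕ) : ℝ) := by
                exact_mod_cast (show l + 1 = 2 * D by omega)
              push_cast at this
              linarith
            rw [if_pos c5, if_pos (by omega)]
            push_cast
            rw [c6, ← sub_nonneg]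
            have : 1 / (D : ℝ) ^ 2 - ((2 * (D : ℝ) - (2 * (D : ℝ) - 1)) ^ 2 / (2 * (D : ℝ) ^ 2) + 0 -
                2 * ((2 * (D : ℝ) - (2 * (D : ℝ) - 1 + 1)) ^ 2 / (2 * (D : ℝ) ^ 2))) =
                1 / (2 * (D : ℝ) ^ 2) := by
              field_simp
              ring
            rw [this]
            positivity
          · rw [if_neg c5]
            by_cases c7 : l ≤ 2 * D
            · have c8 : l = 2 * D := by omega
              rw [if_pos c7, c8]
              push_cast
              rw [sub_self]
              have : (0 : ℝ) ≤ 1 / (D : ℝ) ^ 2 := by positivity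
              simp
            · rw [if_neg c7]
              have : (0 : ℝ) ≤ 1 / (D : ℝ) ^ 2 := by positivity
              simp

lemma d3_kap_small (D l : ℕ) (h : l ≤ D) : kap D l = 1 - (l : ℝ) ^ 2 / 2 * (1 / (D : ℝ) ^ 2) := by
  unfold kap
  rw [if_pos h]
  rcases Nat.eq_zero_or_pos D with h3 | h3
  · subst h3
    simp
  · have : (D : ℝ) ≠ 0 := by positivity
    field_simp

/-- the properties of the weight which are used -/
structure d3_Wt (κ : ℕ → ℝ) (ε : ℝ) : Prop where
  nn : ∀ l, 0 ≤ κ l
  anti : ∀ a b, a ≤ b → κ b ≤ κ a
  sec : ∀ l, κ l + κ (l + 2) - 2 * κ (l + 1) ≤ ε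
  k0 : κ 0 = 1
  k1 : κ 1 = 1 - 1 / 2 * ε
  k2 : κ 2 = 1 - 2 * ε
  k3 : κ 3 = 1 - 9 / 2 * ε
  k4 : κ 4 = 1 - 8 * ε
  e0 : 0 ≤ ε
  e1 : 64 * ε ≤ 1

lemma d3_kap_Wt (D : ℕ) (hD : 8 ≤ D) : d3_Wt (kap D) (1 / (D : ℝ) ^ 2) := by
  have h0 : (8 : ℝ) ≤ D := by exact_mod_cast hD
  refine ⟨d3_kap_nonneg D, fun a b h => d3_kap_anti D (by omega) h,
    fun l => d3_kap_second D l (by omega), ?_, ?_, ?_, ?_, ?_, by positivity, ?_⟩
  · rw [d3_kap_small D 0 (by omega)]; push_cast; ring
  · rw [d3_kap_small D 1 (by omega)]; push_cast; ring
  · rw [d3_kap_small D 2 (by omega)]; push_cast; ring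
  · rw [d3_kap_small D 3 (by omega)]; push_cast; ring
  · rw [d3_kap_small D 4 (by omega)]; push_cast; ring
  · rw [mul_one_div, div_le_one (by positivity)]
    nlinarith

/-! ### The flip table -/

/-- the values at `i - 1, i, i + 1` after the mark `b` at `i` -/
def d3_tb (b a1 a2 a3 a4 a5 : Bool) : Bool × Bool × Bool :=
  if a3 = b then (a2, a3, a4)
  else (if a2 = b then b else a1, if a2 = b ∨ a4 = b then b else maj3 a1 (!b) a5,
    if a4 = b then b else a5)

lemma d3_tb_spec {x : ℤ → Bool} (h : Rtb x) (i : ℤ) (b : Bool) :
    (Rfb i b x (i - 1), Rfb i b x i, Rfb i b x (i + 1)) =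
      d3_tb b (x (i - 2)) (x (i - 1)) (x i) (x (i + 1)) (x (i + 2)) := by
  unfold d3_tb
  by_cases hb : x i = b
  · rw [if_pos hb, Rfb_same h hb]
  · have hb' : x i = !b := by revert hb; cases x i <;> cases b <;> simp
    rw [if_neg hb, Rfb_self h hb', Rfb_left h hb', Rfb_right h hb']

/-- star bit -/
def Sy.isS : Sy → Bool
  | .s => true
  | _ => false

/-- the star bits after the mark `b`, from the window -/
def d3_nb (b : Bool) (w1 w2 w3 w4 w5 : Sy) : Bool × Bool × Bool :=
  let h := d3_tb b w1.hi w2.hi w3.hi w4.hi w5.hi
  let l := d3_tb b w1.lo w2.lo w3.lo w4.lo w5.lo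
  (h.1 && !l.1, h.2.1 && !l.2.1, h.2.2 && !l.2.2)

/-- root condition inside the window -/
def d3_ok (w1 w2 w3 w4 w5 : Sy) : Bool :=
  (w2.hi == w1.hi || w2.hi == w3.hi) && (w3.hi == w2.hi || w3.hi == w4.hi) &&
  (w4.hi == w3.hi || w4.hi == w5.hi) && (w2.lo == w1.lo || w2.lo == w3.lo) &&
  (w3.lo == w2.lo || w3.lo == w4.lo) && (w4.lo == w3.lo || w4.lo == w5.lo)

/-- the three kinds of killable runs, seen from the middle -/
def d3_kb (w1 w2 w3 w4 w5 : Sy) : Bool :=
  w3 == .s && ((w2 != .s && w4 != .s) || (w2 == .s && w1 != .s && w4 != .s && w1 == w4) ||
    (w2 == .s && w4 == .s && w1 != .s && w5 != .s && w5 == w1))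

/-- star bits of the window, star bits after the two marks, killable -/
abbrev d3_T : Type := (Bool × Bool × Bool × Bool × Bool) × (Bool × Bool × Bool) × (Bool × Bool × Bool) × Bool

def d3_tup (w1 w2 w3 w4 w5 : Sy) : d3_T :=
  ((w1.isS, w2.isS, w3.isS, w4.isS, w5.isS), d3_nb false w1 w2 w3 w4 w5, d3_nb true w1 w2 w3 w4 w5,
    d3_kb w1 w2 w3 w4 w5)

/-- all tuples which occur -/
def d3_list : List d3_T :=
  [((false, false, false, false, false), (false, false, false), (false, false, false), false),
   ((false, false, false, false, true), (false, false, false), (false, false, true), false),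
   ((false, false, false, false, true), (false, false, false), (false, true, true), false),
   ((false, false, false, false, true), (false, false, true), (false, false, false), false),
   ((false, false, false, false, true), (false, true, true), (false, false, false), false),
   ((false, false, false, true, false), (false, false, false), (false, false, true), false),
   ((false, false, false, true, false), (false, false, true), (false, false, false), false),
   ((false, false, false, true, false), (false, false, true), (false, true, false), false),
   ((false, false, false, true, false), (false, true, false), (false, false, true), false),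
   ((false, false, false, true, true), (false, false, true), (false, true, true), false),
   ((false, false, false, true, true), (false, true, true), (false, false, true), false),
   ((false, false, true, false, false), (false, false, false), (false, false, false), true),
   ((false, false, true, true, false), (false, false, false), (false, true, true), false),
   ((false, false, true, true, false), (false, false, true), (false, true, false), false),
   ((false, false, true, true, false), (false, true, false), (false, false, true), false),
   ((false, false, true, true, false), (false, true, true), (false, false, false), false),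
   ((false, false, true, true, true), (false, false, true), (false, true, true), false),
   ((false, false, true, true, true), (false, true, true), (false, false, true), false),
   ((false, true, false, false, false), (false, false, false), (true, false, false), false),
   ((false, true, false, false, false), (false, true, false), (true, false, false), false),
   ((false, true, false, false, false), (true, false, false), (false, false, false), false),
   ((false, true, false, false, false), (true, false, false), (false, true, false), false),
   ((false, true, false, false, true), (false, true, true), (true, false, false), false),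
   ((false, true, false, false, true), (true, false, false), (false, true, true), false),
   ((false, true, true, false, false), (false, false, false), (true, true, false), true),
   ((false, true, true, false, false), (false, true, false), (true, false, false), false),
   ((false, true, true, false, false), (true, false, false), (false, true, false), false),
   ((false, true, true, false, false), (true, true, false), (false, false, false), true),
   ((false, true, true, true, false), (false, false, false), (true, true, true), true),
   ((false, true, true, true, false), (false, true, true), (true, true, false), false),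
   ((false, true, true, true, false), (true, true, false), (false, true, true), false),
   ((false, true, true, true, false), (true, true, true), (false, false, false), true),
   ((false, true, true, true, true), (false, true, true), (true, true, true), false),
   ((false, true, true, true, true), (true, true, true), (false, true, true), false),
   ((true, false, false, false, false), (false, false, false), (true, false, false), false),
   ((true, false, false, false, false), (false, false, false), (true, true, false), false),
   ((true, false, false, false, false), (true, false, false), (false, false, false), false),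
   ((true, false, false, false, false), (true, true, false), (false, false, false), false),
   ((true, false, false, false, true), (false, false, false), (true, true, true), false),
   ((true, false, false, false, true), (true, true, true), (false, false, false), false),
   ((true, false, false, true, false), (false, false, true), (true, true, false), false),
   ((true, false, false, true, false), (true, true, false), (false, false, true), false),
   ((true, false, false, true, true), (false, false, true), (true, true, true), false),
   ((true, false, false, true, true), (true, true, true), (false, false, true), false),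
   ((true, true, false, false, false), (true, false, false), (true, true, false), false),
   ((true, true, false, false, false), (true, true, false), (true, false, false), false),
   ((true, true, false, false, true), (true, false, false), (true, true, true), false),
   ((true, true, false, false, true), (true, true, true), (true, false, false), false),
   ((true, true, true, false, false), (true, false, false), (true, true, false), false),
   ((true, true, true, false, false), (true, true, false), (true, false, false), false),
   ((true, true, true, true, false), (true, true, false), (true, true, true), false),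
   ((true, true, true, true, false), (true, true, true), (true, true, false), false),
   ((true, true, true, true, true), (true, true, true), (true, true, true), false)]

lemma d3_mem (w1 w2 w3 w4 w5 : Sy) (h : d3_ok w1 w2 w3 w4 w5 = true) :
    d3_tup w1 w2 w3 w4 w5 ∈ d3_list := by
  revert h
  cases w1 <;> cases w2 <;> cases w3 <;> cases w4 <;> cases w5 <;> decide

end Pool.Agent.T3M
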