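import Mathlib
import Pool.Agent.T3M.MD3b

/-!
The finite inequality for one window of five sites (used for the drift of the star run functional).
-/

set_option autoImplicit false

namespace Pool.Agent.T3M

/-- `r` if `b`, otherwise `0` -/
noncomputable def d3_sl : Bool → ℝ → ℝ
  | true, r => r
  | false, _ => 0

/-- one step of the recursion of run lengths -/
def d3_ls : Bool → ℕ → ℕ
  | true, l => l + 1
  | false, _ => 0

/-- the charges of the edges near the centre of the window -/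
noncomputable def d3_R (κ : ℕ → ℝ) (ε : ℝ) (A B : ℕ) (x1 x2 x3 x4 x5 : Bool) : ℝ :=
  d3_sl (x3 && !x4) (κ (d3_ls x2 A) - κ (d3_ls x3 (d3_ls x2 A))) +
  d3_sl (x4 && !x5) (κ (d3_ls x3 (d3_ls x2 A)) - κ (d3_ls x4 (d3_ls x3 (d3_ls x2 A)))) +
  d3_sl (x2 && !x3) (κ (d3_ls x2 A + 1) - κ (d3_ls x2 A)) +
  d3_sl (x1 && !x2) (κ (A + 1) - κ A) +
  d3_sl (!x2 && x3) (κ (d3_ls x4 B) - κ (d3_ls x3 (d3_ls x4 B))) +
  d3_sl (!x1 && x2) (κ (d3_ls x3 (d3_ls x4 B)) - κ (d3_ls x2 (d3_ls x3 (d3_ls x4 B)))) +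
  d3_sl (!x3 && x4) (κ (d3_ls x4 B + 1) - κ (d3_ls x4 B)) +
  d3_sl (!x4 && x5) (κ (B + 1) - κ B) +
  ε / 2 * (d3_sl (x1 != x2) 1 + d3_sl (x2 != x3) 1 + d3_sl (x3 != x4) 1 + d3_sl (x4 != x5) 1)

/-- the inequality for one window -/
def d3_In (κ : ℕ → ℝ) (ε : ℝ) (A B : ℕ) (t : d3_T) : Prop :=
  d3_G κ A B t.2.1.1 t.2.1.2.1 t.2.1.2.2 + d3_G κ A B t.2.2.1.1 t.2.2.1.2.1 t.2.2.1.2.2 -
    2 * d3_G κ A B t.1.2.1 t.1.2.2.1 t.1.2.2.2.1 + 1 / 2 * d3_sl t.2.2.2 1 ≤
  d3_R κ ε A B t.1.1 t.1.2.1 t.1.2.2.1 t.1.2.2.2.1 t.1.2.2.2.2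

set_option linter.unusedSimpArgs false in
set_option linter.flexible false in
theorem d3_key {κ : ℕ → ℝ} {ε : ℝ} (h : d3_Wt κ ε) (A B : ℕ) (t : d3_T) (ht : t ∈ d3_list)
    (hA : A = 0 ↔ t.1.1 = false) (hB : B = 0 ↔ t.1.2.2.2.2 = false) : d3_In κ ε A B t := by
  have e0 := h.e0
  have e1 := h.e1
  have k0 := h.k0
  have k1 := h.k1
  have k2 := h.k2
  have k3 := h.k3
  have k4 := h.k4
  have a1 := h.anti A (A + 1) (by omega)
  have a2 := h.anti (A + 1) (A + 2) (by omega)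
  have a3 := h.anti (A + 2) (A + 3) (by omega)
  have b1 := h.anti B (B + 1) (by omega)
  have b2 := h.anti (B + 1) (B + 2) (by omega)
  have b3 := h.anti (B + 2) (B + 3) (by omega)
  have c1 := h.anti (A + 1) (A + B + 3) (by omega)
  have c2 := h.anti (B + 1) (A + B + 3) (by omega)
  have n1 := h.nn (A + 3)
  have n2 := h.nn (B + 3)
  have n3 := h.nn (A + B + 3)
  clear h
  have hk : d3_k0 κ 0 = 0 := if_pos rfl
  fin_cases ht <;>
    (first
      | (have hA0 : A = 0 := hA.2 rfl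
         subst hA0)
      | (have hkA : d3_k0 κ A = κ A := if_neg fun h => absurd (hA.1 h) (by decide))) <;>
    (first
      | (have hB0 : B = 0 := hB.2 rfl
         subst hB0)
      | (have hkB : d3_k0 κ B = κ B := if_neg fun h => absurd (hB.1 h) (by decide))) <;>
    clear hA hB <;>
    simp only [d3_In, d3_G, d3_R, d3_sl, d3_ls, Bool.and_true, Bool.and_false,
      Bool.true_and, Bool.false_and, Bool.not_true, Bool.not_false, bne_self_eq_false,
      zero_add, add_zero, mul_one, mul_zero, Bool.true_bne, Bool.false_bne, Nat.reduceAdd] at * <;>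
    linarith

end Pool.Agent.T3M
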