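import Mathlib
import Pool.Agent.T3M.St
import Pool.Agent.T3M.MD3c

/-!
D3: drift of the star run functional.

For every site `i` the change of `Zs` by the two marks at `i`, plus `1/2` if a killable run is
centred at `i`, is at most the sum of the charges of the star edges near `i` (`d3_key`, a finite
check); the charges of an edge add up to a second difference of the weight.
-/

set_option autoImplicit false

namespace Pool.Agent.T3M

/-! ### Functions with bounded support -/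

/-- bounded support -/
def d3_cs (f : ℤ → ℝ) : Prop := ∃ n : ℕ, ∀ i : ℤ, (n : ℤ) < |i| → f i = 0

lemma d3_cs.add {f g : ℤ → ℝ} (hf : d3_cs f) (hg : d3_cs g) : d3_cs (fun i => f i + g i) := by
  obtain ⟨n, hn⟩ := hf
  obtain ⟨m, hm⟩ := hg
  refine ⟨n + m, fun i hi => ?_⟩
  push_cast at hi
  show f i + g i = 0
  rw [hn i (by omega), hm i (by omega), add_zero]

lemma d3_cs.mul {f : ℤ → ℝ} (hf : d3_cs f) (c : ℝ) : d3_cs (fun i => c * f i) := by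
  obtain ⟨n, hn⟩ := hf
  refine ⟨n, fun i hi => ?_⟩
  show c * f i = 0
  rw [hn i hi, mul_zero]

lemma d3_cs.shift {f : ℤ → ℝ} (hf : d3_cs f) (c : ℤ) : d3_cs (fun i => f (i + c)) := by
  obtain ⟨n, hn⟩ := hf
  refine ⟨n + c.natAbs, fun i hi => hn _ ?_⟩
  push_cast at hi
  have h1 : (c.natAbs : ℤ) = |c| := Int.natCast_natAbs c
  rcases abs_cases i with ⟨h3, _⟩ | ⟨h3, _⟩ <;> rcases abs_cases c with ⟨h4, _⟩ | ⟨h4, _⟩ <;>
    rcases abs_cases (i + c) with ⟨h5, _⟩ | ⟨h5, _⟩ <;> omega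

lemma d3_cs.fin {f : ℤ → ℝ} (hf : d3_cs f) : (Function.support f).Finite := by
  obtain ⟨n, hn⟩ := hf
  exact fs_fin n hn

lemma d3_cs.sum_add {f g : ℤ → ℝ} (hf : d3_cs f) (hg : d3_cs g) :
    ∑ᶠ i, (f i + g i) = ∑ᶠ i, f i + ∑ᶠ i, g i := finsum_add_distrib hf.fin hg.fin

lemma d3_cs.sum_le {f g : ℤ → ℝ} (hf : d3_cs f) (hg : d3_cs g) (h : ∀ i, f i ≤ g i) :
    ∑ᶠ i, f i ≤ ∑ᶠ i, g i := by
  obtain ⟨n, hn⟩ := hf
  obtain ⟨m, hm⟩ := hg
  exact fs_le (n + m) (fun i hi => hn i (by push_cast at hi; omega))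
    (fun i hi => hm i (by push_cast at hi; omega)) h

/-! ### Star bits -/

/-- the star bits -/
def d3_sb (u : ℤ → Sy) (p : ℤ) : Bool := (u p).isS

lemma d3_isS_iff (a : Sy) : a.isS = true ↔ a = .s := by cases a <;> simp [Sy.isS]

lemma d3_isS_iff' (a : Sy) : a.isS = false ↔ a ≠ .s := by cases a <;> simp [Sy.isS]

lemma d3_isS_eq (a : Sy) : a.isS = (a.hi && !a.lo) := by cases a <;> rfl

lemma d3_sb_FS {n : ℕ} {u : ℤ → Sy} (h : Sup n u) : d3_FS n (d3_sb u) := by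
  intro p hp
  unfold d3_sb
  rw [h p hp]
  rfl

lemma d3_Zs_eq (D : ℕ) (u : ℤ → Sy) : Zs D u = d3_Z (kap D) (d3_sb u) := by
  unfold Zs d3_Z
  refine finsum_congr fun p => ?_
  by_cases h : u p = .s
  · have h1 : ll u p = d3_lr (d3_sb u) p := by
      unfold ll d3_lr
      congr 1
      ext j
      rw [Set.mem_ofPred_eq, Set.mem_ofPred_eq, h]
      exact (d3_isS_iff' _).symm
    rw [h1]
    congr 1
    apply ind_congr
    unfold d3_sb
    rw [d3_isS_iff, d3_isS_iff']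
  · rw [ind_false (fun h1 => h h1.1), ind_false, zero_mul, zero_mul]
    intro h1
    exact h ((d3_isS_iff _).1 h1.1)

/-! ### One site -/

lemma d3_ok_root {u : ℤ → Sy} (h : Rt u) (i : ℤ) :
    d3_ok (u (i - 2)) (u (i - 1)) (u i) (u (i + 1)) (u (i + 2)) = true := by
  have a1 := h.one.nb (i - 1)
  have a2 := h.one.nb i
  have a3 := h.one.nb (i + 1)
  have b1 := h.zero.nb (i - 1)
  have b2 := h.zero.nb i
  have b3 := h.zero.nb (i + 1)
  rw [show i - 1 - 1 = i - 2 by ring, show i - 1 + 1 = i by ring] at a1 b1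
  rw [show i + 1 - 1 = i by ring, show i + 1 + 1 = i + 2 by ring] at a3 b3
  unfold x1 at a1 a2 a3
  unfold x0 at b1 b2 b3
  unfold d3_ok
  simp only [Bool.and_eq_true, Bool.or_eq_true, beq_iff_eq]
  exact ⟨⟨⟨⟨⟨a1, a2⟩, a3⟩, b1⟩, b2⟩, b3⟩

lemma d3_nb_spec {u : ℤ → Sy} (h : Rt u) (i : ℤ) (b : Bool) :
    (d3_sb (Rf i b u) (i - 1), d3_sb (Rf i b u) i, d3_sb (Rf i b u) (i + 1)) =
      d3_nb b (u (i - 2)) (u (i - 1)) (u i) (u (i + 1)) (u (i + 2)) := by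
  have h1 := d3_tb_spec h.one i b
  have h0 := d3_tb_spec h.zero i b
  rw [← x1_Rf] at h1
  rw [← x0_Rf] at h0
  unfold x1 at h1
  unfold x0 at h0
  unfold d3_nb d3_sb
  rw [← h1, ← h0]
  simp only [d3_isS_eq]

lemma d3_diff {N : ℕ} {u : ℤ → Sy} (hr : Rt u) (hs : Sup N u) (D : ℕ) (i : ℤ) (b : Bool) :
    Zs D (Rf i b u) - Zs D u =
      d3_G (kap D) (d3_lr (d3_sb u) (i - 2)) (d3_rr (d3_sb u) (i + 2))
        (d3_nb b (u (i - 2)) (u (i - 1)) (u i) (u (i + 1)) (u (i + 2))).1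
        (d3_nb b (u (i - 2)) (u (i - 1)) (u i) (u (i + 1)) (u (i + 2))).2.1
        (d3_nb b (u (i - 2)) (u (i - 1)) (u i) (u (i + 1)) (u (i + 2))).2.2 -
      d3_G (kap D) (d3_lr (d3_sb u) (i - 2)) (d3_rr (d3_sb u) (i + 2))
        (u (i - 1)).isS (u i).isS (u (i + 1)).isS := by
  have h1 : d3_sb (Rf i b u) = d3_Y (d3_sb u) i (d3_sb (Rf i b u) (i - 1)) (d3_sb (Rf i b u) i)
      (d3_sb (Rf i b u) (i + 1)) := by
    apply d3_Y_ext
    intro t ht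
    unfold d3_sb
    rw [Rf_far hr b ht]
  have h2 := d3_nb_spec hr i b
  rw [← h2, d3_Zs_eq, d3_Zs_eq, h1, d3_three (kap D) (d3_sb_FS hs) i]
  have h3 := d3_three (kap D) (d3_sb_FS hs) i (d3_sb u (i - 1)) (d3_sb u i) (d3_sb u (i + 1))
  rw [d3_Y_self] at h3
  rw [h3, d3_Y_l, d3_Y_m, d3_Y_r]
  unfold d3_sb
  ring

/-! ### The charges -/

section
variable (κ : ℕ → ℝ) (x : ℤ → Bool)

noncomputable def d3_W1 (p : ℤ) : ℝ := d3_sl (x p && !x (p + 1)) (κ (d3_lr x (p - 1)) - κ (d3_lr x p))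
noncomputable def d3_W2 (p : ℤ) : ℝ := d3_sl (x p && !x (p + 1)) (κ (d3_lr x p + 1) - κ (d3_lr x p))
noncomputable def d3_V1 (p : ℤ) : ℝ :=
  d3_sl (!x p && x (p + 1)) (κ (d3_rr x (p + 2)) - κ (d3_rr x (p + 1)))
noncomputable def d3_V2 (p : ℤ) : ℝ :=
  d3_sl (!x p && x (p + 1)) (κ (d3_rr x (p + 1) + 1) - κ (d3_rr x (p + 1)))
noncomputable def d3_e (p : ℤ) : ℝ := d3_sl (x p != x (p + 1)) 1

/-- the sum of the charges seen from `i` -/
noncomputable def d3_TT (ε : ℝ) (i : ℤ) : ℝ :=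
  d3_W1 κ x i + d3_W1 κ x (i + 1) + (d3_W2 κ x (i + -1) + d3_W2 κ x (i + -2)) +
    (d3_V1 κ x (i + -1) + d3_V1 κ x (i + -2)) + (d3_V2 κ x i + d3_V2 κ x (i + 1)) +
    ε / 2 * (d3_e x (i + -2) + d3_e x (i + -1) + d3_e x i + d3_e x (i + 1))

end

lemma d3_ls_eq (b : Bool) (l : ℕ) : d3_ls b l = if b = true then l + 1 else 0 := by
  cases b <;> rfl

lemma d3_R_eq {n : ℕ} (κ : ℕ → ℝ) (ε : ℝ) {x : ℤ → Bool} (hx : d3_FS n x) (i : ℤ) :
    d3_R κ ε (d3_lr x (i - 2)) (d3_rr x (i + 2)) (x (i - 2)) (x (i - 1)) (x i) (x (i + 1))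
      (x (i + 2)) = d3_TT κ x ε i := by
  have a1 : d3_lr x (i - 1) = d3_ls (x (i - 1)) (d3_lr x (i - 2)) := by
    rw [d3_lr_step hx, d3_ls_eq, show i - 1 - 1 = i - 2 by ring]
  have a2 : d3_lr x i = d3_ls (x i) (d3_ls (x (i - 1)) (d3_lr x (i - 2))) := by
    rw [← a1, d3_lr_step hx, d3_ls_eq]
  have a3 : d3_lr x (i + 1) =
      d3_ls (x (i + 1)) (d3_ls (x i) (d3_ls (x (i - 1)) (d3_lr x (i - 2)))) := by
    rw [← a2, d3_lr_step hx, d3_ls_eq, show i + 1 - 1 = i by ring]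
  have b1 : d3_rr x (i + 1) = d3_ls (x (i + 1)) (d3_rr x (i + 2)) := by
    rw [d3_rr_step hx, d3_ls_eq, show i + 1 + 1 = i + 2 by ring]
  have b2 : d3_rr x i = d3_ls (x i) (d3_ls (x (i + 1)) (d3_rr x (i + 2))) := by
    rw [← b1, d3_rr_step hx, d3_ls_eq]
  have b3 : d3_rr x (i - 1) =
      d3_ls (x (i - 1)) (d3_ls (x i) (d3_ls (x (i + 1)) (d3_rr x (i + 2)))) := by
    rw [← b2, d3_rr_step hx, d3_ls_eq, show i - 1 + 1 = i by ring]
  unfold d3_TT d3_R d3_W1 d3_W2 d3_V1 d3_V2 d3_e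
  rw [show i + -1 = i - 1 by ring, show i + -2 = i - 2 by ring, show i - 1 + 1 = i by ring,
    show i - 2 + 1 = i - 1 by ring, show i + 1 + 1 = i + 2 by ring, show i + 1 - 1 = i by ring,
    show i - 1 + 2 = i + 1 by ring, show i - 2 + 2 = i by ring, ← b3, ← b2, ← b1, ← a3, ← a2, ← a1]
  ring

lemma d3_pt {n : ℕ} {κ : ℕ → ℝ} {ε : ℝ} (h : d3_Wt κ ε) {x : ℤ → Bool} (hx : d3_FS n x) (p : ℤ) :
    d3_W1 κ x p + d3_W2 κ x p + (d3_V1 κ x p + d3_V2 κ x p) ≤ ε * d3_e x p := by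
  have a1 := d3_lr_step hx p
  have b1 := d3_rr_step hx (p + 1)
  rw [show p + 1 + 1 = p + 2 by ring] at b1
  have a2 := h.sec (d3_lr x (p - 1))
  have b2 := h.sec (d3_rr x (p + 2))
  unfold d3_W1 d3_W2 d3_V1 d3_V2 d3_e
  rw [a1, b1]
  cases x p <;> cases x (p + 1) <;>
    simp only [d3_sl, Bool.and_true, Bool.and_false, Bool.true_and, Bool.false_and, Bool.not_true,
      Bool.not_false, bne_self_eq_false, Bool.true_bne, Bool.false_bne, if_true, if_false,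
      Bool.false_eq_true, mul_one, mul_zero, add_zero, zero_add, le_refl, add_assoc,
      Nat.reduceAdd] <;> linarith

lemma d3_same {n : ℕ} {x : ℤ → Bool} (hx : d3_FS n x) {p : ℤ} (hp : ((n + 1 : ℕ) : ℤ) < |p|) :
    x p = false ∧ x (p + 1) = false := by
  push_cast at hp
  refine ⟨hx p (by omega), hx _ ?_⟩
  rcases abs_cases p with ⟨h1, _⟩ | ⟨h1, _⟩ <;>
    rcases abs_cases (p + 1) with ⟨h2, _⟩ | ⟨h2, _⟩ <;> omega

lemma d3_sum {n : ℕ} {κ : ℕ → ℝ} {ε : ℝ} (h : d3_Wt κ ε) {x : ℤ → Bool} (hx : d3_FS n x) :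
    d3_cs (d3_TT κ x ε) ∧ ∑ᶠ i, d3_TT κ x ε i ≤ 4 * ε * ∑ᶠ p, d3_e x p := by
  have c1 : d3_cs (d3_W1 κ x) := ⟨n + 1, fun p hp => by
    unfold d3_W1; rw [(d3_same hx hp).1]; rfl⟩
  have c2 : d3_cs (d3_W2 κ x) := ⟨n + 1, fun p hp => by
    unfold d3_W2; rw [(d3_same hx hp).1]; rfl⟩
  have c3 : d3_cs (d3_V1 κ x) := ⟨n + 1, fun p hp => by
    unfold d3_V1; rw [(d3_same hx hp).1, (d3_same hx hp).2]; rfl⟩
  have c4 : d3_cs (d3_V2 κ x) := ⟨n + 1, fun p hp => by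
    unfold d3_V2; rw [(d3_same hx hp).1, (d3_same hx hp).2]; rfl⟩
  have c5 : d3_cs (d3_e x) := ⟨n + 1, fun p hp => by
    unfold d3_e; rw [(d3_same hx hp).1, (d3_same hx hp).2]; rfl⟩
  have t1 := c1.add (c1.shift 1)
  have t2 := (c2.shift (-1)).add (c2.shift (-2))
  have t3 := (c3.shift (-1)).add (c3.shift (-2))
  have t4 := c4.add (c4.shift 1)
  have t5 := (((c5.shift (-2)).add (c5.shift (-1))).add c5).add (c5.shift 1)
  have T := (((t1.add t2).add t3).add t4).add (t5.mul (ε / 2))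
  refine ⟨T, ?_⟩
  have e1 : ∑ᶠ i, d3_TT κ x ε i = 2 * ∑ᶠ p, d3_W1 κ x p + 2 * ∑ᶠ p, d3_W2 κ x p +
      2 * ∑ᶠ p, d3_V1 κ x p + 2 * ∑ᶠ p, d3_V2 κ x p + 2 * ε * ∑ᶠ p, d3_e x p := by
    have s1 := c1.sum_add (c1.shift 1)
    have s2 := (c2.shift (-1)).sum_add (c2.shift (-2))
    have s3 := (c3.shift (-1)).sum_add (c3.shift (-2))
    have s4 := c4.sum_add (c4.shift 1)
    have s5 := (((c5.shift (-2)).add (c5.shift (-1))).add c5).sum_add (c5.shift 1)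
    have s6 := ((c5.shift (-2)).add (c5.shift (-1))).sum_add c5
    have s7 := (c5.shift (-2)).sum_add (c5.shift (-1))
    have s8 := (((t1.add t2).add t3).add t4).sum_add (t5.mul (ε / 2))
    have s9 := ((t1.add t2).add t3).sum_add t4
    have s10 := (t1.add t2).sum_add t3
    have s11 := t1.sum_add t2
    rw [fs_shift] at s1 s4 s5
    rw [fs_shift, fs_shift] at s2 s3 s7
    rw [s6, s7] at s5
    rw [fs_mul, s9, s10, s11, s1, s2, s3, s4, s5] at s8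
    unfold d3_TT
    rw [s8]
    ring
  have e2 : ∑ᶠ p, (d3_W1 κ x p + d3_W2 κ x p + (d3_V1 κ x p + d3_V2 κ x p)) ≤
      ∑ᶠ p, ε * d3_e x p :=
    ((c1.add c2).add (c3.add c4)).sum_le (c5.mul ε) (fun p => d3_pt h hx p)
  rw [fs_mul, (c1.add c2).sum_add (c3.add c4), c1.sum_add c2, c3.sum_add c4] at e2
  rw [e1]
  linarith

/-! ### Killable runs -/

/-- killable runs of length one, and of length two or three, seen from the middle -/
def d3_kA (w2 w3 w4 : Sy) : Bool := w3 == .s && (w2 != .s && w4 != .s)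

def d3_kB (w1 w2 w3 w4 w5 : Sy) : Bool :=
  w3 == .s && ((w2 == .s && w1 != .s && w4 != .s && w1 == w4) ||
    (w2 == .s && w4 == .s && w1 != .s && w5 != .s && w5 == w1))

lemma d3_kb_eq (w1 w2 w3 w4 w5 : Sy) :
    d3_sl (d3_kb w1 w2 w3 w4 w5) 1 = d3_sl (d3_kA w2 w3 w4) 1 + d3_sl (d3_kB w1 w2 w3 w4 w5) 1 := by
  have h : (d3_kA w2 w3 w4 && d3_kB w1 w2 w3 w4 w5) = false ∧
      d3_kb w1 w2 w3 w4 w5 = (d3_kA w2 w3 w4 || d3_kB w1 w2 w3 w4 w5) := by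
    cases w1 <;> cases w2 <;> cases w3 <;> cases w4 <;> cases w5 <;> decide
  rw [h.2]
  revert h
  cases d3_kA w2 w3 w4 <;> cases d3_kB w1 w2 w3 w4 w5 <;> simp [d3_sl]

/-- `Kl` in terms of five symbols -/
def d3_KlP (w1 w2 w3 w4 w5 : Sy) : Prop :=
  w2 = .s ∧ w1 ≠ .s ∧ (w3 ≠ .s ∨ (w3 = .s ∧ w4 ≠ .s ∧ w4 = w1) ∨
    (w3 = .s ∧ w4 = .s ∧ w5 ≠ .s ∧ w5 = w1))

instance (w1 w2 w3 w4 w5 : Sy) : Decidable (d3_KlP w1 w2 w3 w4 w5) := by
  unfold d3_KlP; infer_instance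

lemma d3_Kl_eq (w1 w2 w3 w4 w5 : Sy) :
    ind (d3_KlP w1 w2 w3 w4 w5) = d3_sl (d3_kA w1 w2 w3) 1 + d3_sl (d3_kB w1 w2 w3 w4 w5) 1 := by
  have h : (d3_kA w1 w2 w3 && d3_kB w1 w2 w3 w4 w5) = false ∧
      decide (d3_KlP w1 w2 w3 w4 w5) = (d3_kA w1 w2 w3 || d3_kB w1 w2 w3 w4 w5) := by
    cases w1 <;> cases w2 <;> cases w3 <;> cases w4 <;> cases w5 <;> decide
  have h2 : ind (d3_KlP w1 w2 w3 w4 w5) = d3_sl (decide (d3_KlP w1 w2 w3 w4 w5)) 1 := by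
    by_cases h3 : d3_KlP w1 w2 w3 w4 w5
    · rw [ind_true h3, decide_eq_true h3]; rfl
    · rw [ind_false h3, decide_eq_false h3]; rfl
  rw [h2, h.2]
  revert h
  cases d3_kA w1 w2 w3 <;> cases d3_kB w1 w2 w3 w4 w5 <;> simp [d3_sl]

lemma d3_kl {n : ℕ} {u : ℤ → Sy} (hs : Sup n u) :
    d3_cs (fun i => d3_sl (d3_kb (u (i - 2)) (u (i - 1)) (u i) (u (i + 1)) (u (i + 2))) 1) ∧
    ∑ᶠ i, d3_sl (d3_kb (u (i - 2)) (u (i - 1)) (u i) (u (i + 1)) (u (i + 2))) 1 = kl u := by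
  set f : ℤ → ℝ := fun i => d3_sl (d3_kA (u (i - 1)) (u i) (u (i + 1))) 1 with hf
  set g : ℤ → ℝ := fun i =>
    d3_sl (d3_kB (u (i - 2)) (u (i - 1)) (u i) (u (i + 1)) (u (i + 2))) 1 with hg
  have cf : d3_cs f := ⟨n, fun i hi => by rw [hf]; simp only [hs i hi]; rfl⟩
  have cg : d3_cs g := ⟨n, fun i hi => by rw [hg]; simp only [hs i hi]; rfl⟩
  have e1 : (fun i => d3_sl (d3_kb (u (i - 2)) (u (i - 1)) (u i) (u (i + 1)) (u (i + 2))) 1) =
      fun i => f i + g i := funext fun i => d3_kb_eq _ _ _ _ _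
  have e2 : kl u = ∑ᶠ a, (f a + g (a + 1)) := by
    unfold kl
    refine finsum_congr fun a => ?_
    have h := d3_Kl_eq (u (a - 1)) (u a) (u (a + 1)) (u (a + 2)) (u (a + 3))
    rw [hf, hg]
    simp only
    rw [show a + 1 - 2 = a - 1 by ring, show a + 1 - 1 = a by ring, show a + 1 + 1 = a + 2 by ring,
      show a + 1 + 2 = a + 3 by ring, ← h]
    rfl
  rw [e1]
  refine ⟨cf.add cg, ?_⟩
  rw [e2, cf.sum_add (cg.shift 1), fs_shift]
  exact cf.sum_add cg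

/-! ### The theorem -/

lemma d3_Bn (u : ℤ → Sy) : ∑ᶠ p, d3_e (d3_sb u) p = Bn u := by
  unfold Bn
  refine finsum_congr fun p => ?_
  unfold d3_e d3_sb
  by_cases h : SE u p
  · rw [ind_true h]
    have h1 : ((u p).isS != (u (p + 1)).isS) = true := by
      unfold SE at h
      rw [← d3_isS_iff, ← d3_isS_iff] at h
      revert h
      cases (u p).isS <;> cases (u (p + 1)).isS <;> simp
    rw [h1]
    rfl
  · rw [ind_false h]
    have h1 : ((u p).isS != (u (p + 1)).isS) = false := by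
      unfold SE at h
      rw [← d3_isS_iff, ← d3_isS_iff] at h
      revert h
      cases (u p).isS <;> cases (u (p + 1)).isS <;> simp
    rw [h1]
    rfl

/-- the drift of the star run functional with explicit constants -/
theorem d3_main {u : ℤ → Sy} {N D : ℕ} (hD : 8 ≤ D) (hr : Rt u) (hs : Sup N u) :
    Lg (Zs D) u + 1 / 2 * kl u ≤ 4 / (D : ℝ) ^ 2 * Bn u := by
  have hW := d3_kap_Wt D hD
  have hx := d3_sb_FS hs
  obtain ⟨cT, hT⟩ := d3_sum hW hx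
  obtain ⟨cK, hK⟩ := d3_kl hs
  have hpt : ∀ i : ℤ, ((Zs D (Rf i false u) - Zs D u) + (Zs D (Rf i true u) - Zs D u)) +
      1 / 2 * d3_sl (d3_kb (u (i - 2)) (u (i - 1)) (u i) (u (i + 1)) (u (i + 2))) 1 ≤
      d3_TT (kap D) (d3_sb u) (1 / (D : ℝ) ^ 2) i := by
    intro i
    have hA : d3_lr (d3_sb u) (i - 2) = 0 ↔ (u (i - 2)).isS = false := d3_lr_zero hx (i - 2)
    have hB : d3_rr (d3_sb u) (i + 2) = 0 ↔ (u (i + 2)).isS = false := d3_rr_zero hx (i + 2)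
    have h1 := d3_key hW (d3_lr (d3_sb u) (i - 2)) (d3_rr (d3_sb u) (i + 2)) _
      (d3_mem _ _ _ _ _ (d3_ok_root hr i)) hA hB
    rw [d3_diff hr hs, d3_diff hr hs, ← d3_R_eq (kap D) (1 / (D : ℝ) ^ 2) hx i]
    unfold d3_In d3_tup at h1
    simp only at h1
    unfold d3_sb at h1 ⊢
    linarith
  have cL : d3_cs (fun i => (Zs D (Rf i false u) - Zs D u) + (Zs D (Rf i true u) - Zs D u)) := by
    refine ⟨N + 2, fun i hi => ?_⟩
    push_cast at hi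
    show (Zs D (Rf i false u) - Zs D u) + (Zs D (Rf i true u) - Zs D u) = 0
    rw [Rf_out hr hs hi, Rf_out hr hs hi]
    ring
  have h1 := (cL.add (cK.mul (1 / 2))).sum_le cT hpt
  rw [cL.sum_add (cK.mul (1 / 2)), fs_mul, hK] at h1
  have h2 : Lg (Zs D) u = ∑ᶠ i, ((Zs D (Rf i false u) - Zs D u) + (Zs D (Rf i true u) - Zs D u)) :=
    rfl
  rw [← h2] at h1
  rw [d3_Bn] at hT
  have h3 : 4 * (1 / (D : ℝ) ^ 2) * Bn u = 4 / (D : ℝ) ^ 2 * Bn u := by ring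
  linarith

theorem thm_D3 : St_D3 := by
  refine ⟨4, by norm_num, fun u N D hD hr hs => ?_⟩
  have h1 := d3_main hD hr hs
  have h2 := kl_nonneg u
  linarith

end Pool.Agent.T3M
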