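import Mathlib
import Pool.Agent.T3M.Ba

/-! The linear identity: the change of the star indicators, summed over all marks (helper55). -/

set_option autoImplicit false

namespace Pool.Agent.T3M

/-- value of a bit -/
noncomputable def bv (a : Bool) : ℝ := if a then 1 else 0

lemma bv_true : bv true = 1 := by simp [bv]

lemma bv_false : bv false = 0 := by simp [bv]

/-- the correction of the discrete Laplace operator -/
noncomputable def m3 (x : ℤ → Bool) (k : ℤ) : ℝ :=
  if x (k - 1) = false ∧ x k = false ∧ x (k + 1) = false ∧ x (k - 2) = true ∧ x (k + 2) = true then 1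
  else if x (k - 1) = true ∧ x k = true ∧ x (k + 1) = true ∧ x (k - 2) = false ∧ x (k + 2) = false
  then -1 else 0

/-- change at `k` by the two marks at `i` -/
noncomputable def dx (x : ℤ → Bool) (i k : ℤ) : ℝ :=
  (bv (Rfb i false x k) - bv (x k)) + (bv (Rfb i true x k) - bv (x k))

lemma lin_one {x : ℤ → Bool} (h : Rtb x) (i k : ℤ) :
    dx x i k = bv (Rfb i (!x i) x k) - bv (x k) := by
  unfold dx
  cases hx : x i
  · rw [Rfb_same h hx]
    simp
  · rw [Rfb_same h hx]
    simp

lemma lin_self {x : ℤ → Bool} (h : Rtb x) (k : ℤ) : dx x k k =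
    bv (if x (k - 1) = !x k ∨ x (k + 1) = !x k then !x k else maj3 (x (k - 2)) (x k) (x (k + 2))) -
      bv (x k) := by
  rw [lin_one h, Rfb_self h (by simp), Bool.not_not]

lemma lin_left {x : ℤ → Bool} (h : Rtb x) (k : ℤ) : dx x (k + 1) k =
    bv (if x k = !x (k + 1) then !x (k + 1) else x (k - 1)) - bv (x k) := by
  have e := Rfb_left h (i := k + 1) (b := !x (k + 1)) (by simp)
  rw [show k + 1 - 1 = k by ring, show k + 1 - 2 = k - 1 by ring] at e
  rw [lin_one h, e]

lemma lin_right {x : ℤ → Bool} (h : Rtb x) (k : ℤ) : dx x (k - 1) k =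
    bv (if x k = !x (k - 1) then !x (k - 1) else x (k + 1)) - bv (x k) := by
  have e := Rfb_right h (i := k - 1) (b := !x (k - 1)) (by simp)
  rw [show k - 1 + 1 = k by ring, show k - 1 + 2 = k + 1 by ring] at e
  rw [lin_one h, e]

/-- the linear identity for binary roots -/
theorem lin_id {x : ℤ → Bool} (h : Rtb x) (k : ℤ) :
    dx x (k - 1) k + dx x k k + dx x (k + 1) k =
      2 * (bv (x (k - 1)) + bv (x (k + 1)) - 2 * bv (x k)) + m3 x k := by
  rw [lin_self h, lin_left h, lin_right h]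
  unfold m3
  have h0 := h.nb k
  revert h0
  cases x (k - 2) <;> cases x (k - 1) <;> cases x k <;> cases x (k + 1) <;> cases x (k + 2) <;>
    simp [bv, maj3] <;> norm_num

lemma st_bv (u : ℤ → Sy) (i : ℤ) : st u i = bv (x1 u i) - bv (x0 u i) := st_eq u i

/-- change of the star indicator of `k` by the two marks at `i` -/
noncomputable def ds (u : ℤ → Sy) (i k : ℤ) : ℝ :=
  (st (Rf i false u) k - st u k) + (st (Rf i true u) k - st u k)

lemma ds_eq (u : ℤ → Sy) (i k : ℤ) : ds u i k = dx (x1 u) i k - dx (x0 u) i k := by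
  unfold ds dx
  rw [st_bv, st_bv, st_bv, x1_Rf, x1_Rf, x0_Rf, x0_Rf]
  ring

lemma ds_far {u : ℤ → Sy} (h : Rt u) {i k : ℤ} (hk : 2 ≤ |k - i|) : ds u i k = 0 := by
  unfold ds st
  rw [Rf_far h _ hk, Rf_far h _ hk]
  ring

/-- the linear identity for the stars -/
theorem lin_st {u : ℤ → Sy} (h : Rt u) (k : ℤ) :
    ds u (k - 1) k + ds u k k + ds u (k + 1) k =
      2 * (st u (k - 1) + st u (k + 1) - 2 * st u k) + (m3 (x1 u) k - m3 (x0 u) k) := by
  have a := lin_id h.one k
  have b := lin_id h.zero k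
  rw [ds_eq, ds_eq, ds_eq, st_bv, st_bv, st_bv]
  linear_combination a - b

lemma lin_sup {N : ℕ} {u : ℤ → Sy} (hr : Rt u) (h : Sup N u) (i : ℤ) (b : Bool) :
    Sup (N + 2) (Rf i b u) := by
  by_cases hi : |i| ≤ ((N + 2 : ℕ) : ℤ)
  · exact (h.mono (by omega)).Rf hi b
  · rw [Rf_out hr h (by push_cast at hi; omega)]
    exact h.mono (by omega)

lemma m3_out {N : ℕ} {x : ℤ → Bool} (h : ∀ k : ℤ, (N : ℤ) < |k| → x k = false) {k : ℤ}
    (hk : (N : ℤ) + 2 < |k|) : m3 x k = 0 := by
  have h1 : x k = false := h k (by omega)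
  have h2 : x (k + 2) = false := h (k + 2) (by
    rcases abs_cases k with ⟨a, _⟩ | ⟨a, _⟩ <;>
      rcases abs_cases (k + 2) with ⟨b, _⟩ | ⟨b, _⟩ <;> omega)
  unfold m3
  rw [h1, h2]
  simp

lemma x1_out {N : ℕ} {u : ℤ → Sy} (h : Sup N u) {k : ℤ} (hk : (N : ℤ) < |k|) : x1 u k = false := by
  unfold x1
  rw [h k hk]
  rfl

lemma x0_out {N : ℕ} {u : ℤ → Sy} (h : Sup N u) {k : ℤ} (hk : (N : ℤ) < |k|) : x0 u k = false := by
  unfold x0
  rw [h k hk]
  rfl

/-- the weighted linear identity, summed over all marks -/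
theorem lin_w {N n : ℕ} (hn : N + 4 ≤ n) {u : ℤ → Sy} (hr : Rt u) (h : Sup N u) (φ : ℤ → ℝ) :
    ∑ i ∈ Finset.Icc (-(n : ℤ)) (n : ℤ), ∑ k ∈ Finset.Icc (-(n : ℤ)) (n : ℤ), φ k * ds u i k =
      ∑ k ∈ Finset.Icc (-(n : ℤ)) (n : ℤ), φ k *
        (2 * (st u (k - 1) + st u (k + 1) - 2 * st u k) + (m3 (x1 u) k - m3 (x0 u) k)) := by
  rw [Finset.sum_comm]
  refine Finset.sum_congr rfl fun k hk => ?_
  rw [← Finset.mul_sum]
  congr 1
  rw [mem_Icc_abs] at hk
  by_cases hk2 : |k| + 1 ≤ (n : ℤ)
  · have hsub : ({k - 1, k, k + 1} : Finset ℤ) ⊆ Finset.Icc (-(n : ℤ)) (n : ℤ) := by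
      intro i hi
      simp only [Finset.mem_insert, Finset.mem_singleton] at hi
      rw [Finset.mem_Icc]
      have := abs_le.1 (show |k| ≤ (n : ℤ) - 1 by omega)
      rcases hi with rfl | rfl | rfl <;> constructor <;> omega
    rw [← Finset.sum_subset hsub, ← lin_st hr k]
    · rw [Finset.sum_insert (by simp only [Finset.mem_insert, Finset.mem_singleton]; omega),
        Finset.sum_insert (by simp only [Finset.mem_singleton]; omega), Finset.sum_singleton]
      ring
    · intro i _ hi
      simp only [Finset.mem_insert, Finset.mem_singleton, not_or] at hi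
      apply ds_far hr
      rcases abs_cases (k - i) with ⟨a, _⟩ | ⟨a, _⟩ <;> omega
  · have hkn : (N : ℤ) + 3 < |k| := by
      have : ((N + 4 : ℕ) : ℤ) ≤ n := by exact_mod_cast hn
      push_cast at this
      omega
    have c1 : st u (k - 1) = 0 := st_out h (by
      rcases abs_cases k with ⟨a, _⟩ | ⟨a, _⟩ <;>
        rcases abs_cases (k - 1) with ⟨b, _⟩ | ⟨b, _⟩ <;> omega)
    have c2 : st u (k + 1) = 0 := st_out h (by
      rcases abs_cases k with ⟨a, _⟩ | ⟨a, _⟩ <;>
        rcases abs_cases (k + 1) with ⟨b, _⟩ | ⟨b, _⟩ <;> omega)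
    have c3 : st u k = 0 := st_out h (by omega)
    rw [c1, c2, c3, m3_out (N := N) (fun k hk => x1_out h hk) (by omega),
      m3_out (N := N) (fun k hk => x0_out h hk) (by omega)]
    rw [Finset.sum_eq_zero]
    · ring
    · intro i _
      unfold ds
      rw [st_out (lin_sup hr h i false) (by push_cast; omega),
        st_out (lin_sup hr h i true) (by push_cast; omega), c3]
      ring

/-- a sum over the integers of a function which vanishes outside four sites -/
lemma fs_four {f : ℤ → ℝ} (i : ℤ) (h : ∀ k : ℤ, (k < i - 2 ∨ i + 1 < k) → f k = 0) :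
    ∑ᶠ k, f k = f (i - 2) + f (i - 1) + f i + f (i + 1) := by
  rw [finsum_eq_sum_of_support_subset (s := ({i - 2, i - 1, i, i + 1} : Finset ℤ))]
  · rw [Finset.sum_insert (by simp only [Finset.mem_insert, Finset.mem_singleton]; omega),
      Finset.sum_insert (by simp only [Finset.mem_insert, Finset.mem_singleton]; omega),
      Finset.sum_insert (by simp only [Finset.mem_singleton]; omega), Finset.sum_singleton]
    ring
  · intro k hk
    rw [Function.mem_support] at hk
    simp only [Finset.coe_insert, Finset.coe_singleton, Set.mem_insert_iff, Set.mem_singleton_iff]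
    by_contra hc
    push Not at hc
    exact hk (h k (by omega))

end Pool.Agent.T3M
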