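import Mathlib
import Pool.Agent.T3M.St
import Pool.Agent.T3M.MLin
import Pool.Agent.T3M.MD3

/-! D1: the number of stars plus the number of star runs grows only by common runs of length three
(helper55). -/

set_option autoImplicit false

namespace Pool.Agent.T3M

/-! ### Star edges -/

/-- number of star edges of a window -/
noncomputable def d1_E (a1 a2 a3 a4 a5 : Bool) : ℝ :=
  d3_sl (a1 != a2) 1 + d3_sl (a2 != a3) 1 + d3_sl (a3 != a4) 1 + d3_sl (a4 != a5) 1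

/-- a hole of length three -/
def d1_H (a1 a2 a3 a4 a5 : Bool) : Bool := a1 && !a2 && !a3 && !a4 && a5

def d1_In (t : d3_T) : Prop :=
  (d1_E t.1.1 t.2.1.1 t.2.1.2.1 t.2.1.2.2 t.1.2.2.2.2 -
      d1_E t.1.1 t.1.2.1 t.1.2.2.1 t.1.2.2.2.1 t.1.2.2.2.2) +
    (d1_E t.1.1 t.2.2.1.1 t.2.2.1.2.1 t.2.2.1.2.2 t.1.2.2.2.2 -
      d1_E t.1.1 t.1.2.1 t.1.2.2.1 t.1.2.2.2.1 t.1.2.2.2.2) ≤
    -2 * d3_sl (d1_H t.1.1 t.1.2.1 t.1.2.2.1 t.1.2.2.2.1 t.1.2.2.2.2) 1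

set_option linter.unusedSimpArgs false in
set_option linter.flexible false in
theorem d1_key (t : d3_T) (ht : t ∈ d3_list) : d1_In t := by
  fin_cases ht <;> simp [d1_In, d1_E, d1_H, d3_sl] <;> norm_num

lemma d1_Bn_diff {N : ℕ} {u : ℤ → Sy} (hr : Rt u) (hs : Sup N u) (i : ℤ) (b : Bool) :
    Bn (Rf i b u) - Bn u =
      d1_E (u (i - 2)).isS (d3_nb b (u (i - 2)) (u (i - 1)) (u i) (u (i + 1)) (u (i + 2))).1
        (d3_nb b (u (i - 2)) (u (i - 1)) (u i) (u (i + 1)) (u (i + 2))).2.1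
        (d3_nb b (u (i - 2)) (u (i - 1)) (u i) (u (i + 1)) (u (i + 2))).2.2 (u (i + 2)).isS -
      d1_E (u (i - 2)).isS (u (i - 1)).isS (u i).isS (u (i + 1)).isS (u (i + 2)).isS := by
  have c1 : ∀ v : ℤ → Sy, Sup (N + 2) v → ∀ p : ℤ, ((N + 3 : ℕ) : ℤ) < |p| →
      d3_e (d3_sb v) p = 0 := by
    intro v hv p hp
    have h := d3_same (d3_sb_FS hv) (p := p) (by push_cast at hp ⊢; omega)
    unfold d3_e
    rw [h.1, h.2]
    rfl
  have s1 := lin_sup hr hs i b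
  have s0 : Sup (N + 2) u := hs.mono (by omega)
  rw [← d3_Bn, ← d3_Bn, ← fs_sub (N + 3) (c1 _ s1) (c1 _ s0), fs_four i]
  · have h2 := d3_nb_spec hr i b
    have e1 : d3_sb (Rf i b u) (i - 2) = (u (i - 2)).isS := by
      unfold d3_sb
      rw [Rf_far hr b (by rw [show i - 2 - i = -2 by ring]; norm_num)]
    have e5 : d3_sb (Rf i b u) (i + 2) = (u (i + 2)).isS := by
      unfold d3_sb
      rw [Rf_far hr b (by rw [show i + 2 - i = 2 by ring]; norm_num)]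
    rw [← h2]
    unfold d1_E d3_e
    rw [show i - 2 + 1 = i - 1 by ring, show i - 1 + 1 = i by ring, show i + 1 + 1 = i + 2 by ring,
      e1, e5]
    simp only [d3_sb]
    ring
  · intro p hp
    unfold d3_e d3_sb
    rw [Rf_far hr b (k := p) (by rcases abs_cases (p - i) with ⟨h3, _⟩ | ⟨h3, _⟩ <;> omega),
      Rf_far hr b (k := p + 1)
        (by rcases abs_cases (p + 1 - i) with ⟨h3, _⟩ | ⟨h3, _⟩ <;> omega)]
    ring

/-- the hole indicator -/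
noncomputable def d1_h (u : ℤ → Sy) (i : ℤ) : ℝ :=
  d3_sl (d1_H (u (i - 2)).isS (u (i - 1)).isS (u i).isS (u (i + 1)).isS (u (i + 2)).isS) 1

lemma d1_Bn_le {N : ℕ} {u : ℤ → Sy} (hr : Rt u) (hs : Sup N u) (i : ℤ) :
    (Bn (Rf i false u) - Bn u) + (Bn (Rf i true u) - Bn u) ≤ -2 * d1_h u i := by
  rw [d1_Bn_diff hr hs, d1_Bn_diff hr hs]
  exact d1_key _ (d3_mem _ _ _ _ _ (d3_ok_root hr i))

/-! ### The correction -/

def d1_mz (a1 a2 a3 a4 a5 : Bool) : ℤ :=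
  if (!a2 && !a3 && !a4 && a1 && a5) = true then 1
  else if (a2 && a3 && a4 && !a1 && !a5) = true then -1 else 0

lemma d1_m3 (x : ℤ → Bool) (k : ℤ) :
    m3 x k = (d1_mz (x (k - 2)) (x (k - 1)) (x k) (x (k + 1)) (x (k + 2)) : ℤ) := by
  unfold m3 d1_mz
  cases x (k - 2) <;> cases x (k - 1) <;> cases x k <;> cases x (k + 1) <;> cases x (k + 2) <;>
    simp

def d1_Fb (w1 w2 w3 w4 w5 : Sy) : Bool :=
  w2 != .s && w3 == w2 && w4 == w2 && w1 != w2 && w5 != w2 && (w1.isS != w5.isS)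

lemma d1_fin (w1 w2 w3 w4 w5 : Sy) :
    d1_mz w1.hi w2.hi w3.hi w4.hi w5.hi - d1_mz w1.lo w2.lo w3.lo w4.lo w5.lo ≤
      (if d1_H w1.isS w2.isS w3.isS w4.isS w5.isS = true then 1 else 0) +
        (if d1_Fb w1 w2 w3 w4 w5 = true then 1 else 0) := by
  revert w1 w2 w3 w4 w5
  decide

lemma d1_F (u : ℤ → Sy) (k : ℤ) : ind (F3 u (k + -1)) =
    if d1_Fb (u (k - 2)) (u (k - 1)) (u k) (u (k + 1)) (u (k + 2)) = true then 1 else 0 := by
  have h : F3 u (k + -1) ↔ d1_Fb (u (k - 2)) (u (k - 1)) (u k) (u (k + 1)) (u (k + 2)) = true := by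
    unfold F3 d1_Fb
    rw [show k + -1 + 1 = k by ring, show k + -1 + 2 = k + 1 by ring, show k + -1 + 3 = k + 2 by ring,
      show k + -1 - 1 = k - 2 by ring, show k + -1 = k - 1 by ring]
    rw [← d3_isS_iff (u (k - 2)), ← d3_isS_iff (u (k + 2))]
    simp only [Bool.and_eq_true, bne_iff_ne, beq_iff_eq, ne_eq]
    generalize (u (k - 2)).isS = p
    generalize (u (k + 2)).isS = q
    have : ¬(p = true ↔ q = true) ↔ ¬ p = q := by cases p <;> cases q <;> simp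
    rw [this]
    tauto
  by_cases hF : F3 u (k + -1)
  · rw [ind_true hF, if_pos (h.1 hF)]
  · rw [ind_false hF, if_neg (fun h1 => hF (h.2 h1))]

lemma d1_pt (u : ℤ → Sy) (k : ℤ) :
    m3 (x1 u) k - m3 (x0 u) k ≤ d1_h u k + ind (F3 u (k + -1)) := by
  rw [d1_m3, d1_m3, d1_F]
  unfold d1_h
  have h := d1_fin (u (k - 2)) (u (k - 1)) (u k) (u (k + 1)) (u (k + 2))
  have h1 : ((d1_mz (u (k - 2)).hi (u (k - 1)).hi (u k).hi (u (k + 1)).hi (u (k + 2)).hi -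
      d1_mz (u (k - 2)).lo (u (k - 1)).lo (u k).lo (u (k + 1)).lo (u (k + 2)).lo : ℤ) : ℝ) ≤
      (((if d1_H (u (k - 2)).isS (u (k - 1)).isS (u k).isS (u (k + 1)).isS (u (k + 2)).isS = true
        then 1 else 0) + (if d1_Fb (u (k - 2)) (u (k - 1)) (u k) (u (k + 1)) (u (k + 2)) = true
          then 1 else 0) : ℤ) : ℝ) := by exact_mod_cast h
  push_cast at h1
  have e : d3_sl (d1_H (u (k - 2)).isS (u (k - 1)).isS (u k).isS (u (k + 1)).isS (u (k + 2)).isS) 1 =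
      if d1_H (u (k - 2)).isS (u (k - 1)).isS (u k).isS (u (k + 1)).isS (u (k + 2)).isS = true
        then (1 : ℝ) else 0 := by
    cases d1_H (u (k - 2)).isS (u (k - 1)).isS (u k).isS (u (k + 1)).isS (u (k + 2)).isS <;> rfl
  rw [e]
  exact h1

/-! ### Supports -/

lemma d1_cs_st {N : ℕ} {u : ℤ → Sy} (hs : Sup N u) : d3_cs (st u) := ⟨N, fun _ hi => st_out hs hi⟩

lemma d1_cs_m3 {N : ℕ} {u : ℤ → Sy} (hs : Sup N u) :
    d3_cs (fun k => m3 (x1 u) k - m3 (x0 u) k) := by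
  refine ⟨N + 2, fun k hk => ?_⟩
  push_cast at hk
  show m3 (x1 u) k - m3 (x0 u) k = 0
  rw [m3_out (N := N) (fun k hk => x1_out hs hk) hk, m3_out (N := N) (fun k hk => x0_out hs hk) hk]
  ring

lemma d1_cs_F3 {N : ℕ} {u : ℤ → Sy} (hs : Sup N u) : d3_cs (fun k => ind (F3 u k)) := by
  refine ⟨N + 3, fun k hk => ?_⟩
  push_cast at hk
  apply ind_false
  rintro ⟨_, _, _, h1, h2, _⟩
  have a0 : u k = .z := hs k (by omega)
  have a1 : u (k - 1) = .z := hs _ (by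
    rcases abs_cases k with ⟨a, _⟩ | ⟨a, _⟩ <;>
      rcases abs_cases (k - 1) with ⟨b, _⟩ | ⟨b, _⟩ <;> omega)
  exact h1 (by rw [a0, a1])

lemma d1_cs_h {N : ℕ} {u : ℤ → Sy} (hs : Sup N u) : d3_cs (d1_h u) := by
  refine ⟨N + 2, fun k hk => ?_⟩
  push_cast at hk
  have a1 : u (k - 2) = .z := hs _ (by
    rcases abs_cases k with ⟨a, _⟩ | ⟨a, _⟩ <;>
      rcases abs_cases (k - 2) with ⟨b, _⟩ | ⟨b, _⟩ <;> omega)
  unfold d1_h
  rw [a1]
  rfl

/-- the Laplace operator sums to zero -/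
lemma d1_lap {f : ℤ → ℝ} (hf : d3_cs f) :
    d3_cs (fun k => 2 * (f (k - 1) + f (k + 1) - 2 * f k)) ∧
      ∑ᶠ k, 2 * (f (k - 1) + f (k + 1) - 2 * f k) = 0 := by
  have h1 := (((hf.shift (-1)).add (hf.shift 1)).mul 2).add (hf.mul (-4))
  have e : (fun k => 2 * (f (k - 1) + f (k + 1) - 2 * f k)) =
      fun k => 2 * (f (k + -1) + f (k + 1)) + -4 * f k := by
    funext k
    rw [show k + -1 = k - 1 by ring]
    ring
  rw [e]
  refine ⟨h1, ?_⟩
  rw [(((hf.shift (-1)).add (hf.shift 1)).mul 2).sum_add (hf.mul (-4)), fs_mul, fs_mul,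
    (hf.shift (-1)).sum_add (hf.shift 1), fs_shift, fs_shift]
  ring

theorem thm_D1 : St_D1 := by
  intro u N hr hs
  set n : ℕ := N + 4 with hn
  have hL := Lg_eq hr (hs.mono (show N ≤ N + 2 by omega)) Psi
  have hn2 : N + 2 + 2 = n := by omega
  rw [hn2] at hL
  have hnst : ∀ (i : ℤ) (b : Bool), nst (Rf i b u) - nst u =
      ∑ k ∈ Finset.Icc (-(n : ℤ)) (n : ℤ), (st (Rf i b u) k - st u k) := by
    intro i b
    rw [nst_eq ((lin_sup hr hs i b).mono (show N + 2 ≤ n by omega)),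
      nst_eq (hs.mono (show N ≤ n by omega)), Finset.sum_sub_distrib]
  have hterm : ∀ i : ℤ, (Psi (Rf i false u) - Psi u) + (Psi (Rf i true u) - Psi u) =
      ∑ k ∈ Finset.Icc (-(n : ℤ)) (n : ℤ), 1 * ds u i k +
        1 / 2 * ((Bn (Rf i false u) - Bn u) + (Bn (Rf i true u) - Bn u)) := by
    intro i
    have h1 := hnst i false
    have h2 := hnst i true
    have h3 : ∑ k ∈ Finset.Icc (-(n : ℤ)) (n : ℤ), 1 * ds u i k =
        (nst (Rf i false u) - nst u) + (nst (Rf i true u) - nst u) := by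
      rw [h1, h2, ← Finset.sum_add_distrib]
      refine Finset.sum_congr rfl fun k _ => ?_
      unfold ds
      ring
    rw [h3]
    unfold Psi
    ring
  have hB : ∑ i ∈ Finset.Icc (-(n : ℤ)) (n : ℤ),
      ((Bn (Rf i false u) - Bn u) + (Bn (Rf i true u) - Bn u)) ≤
      ∑ i ∈ Finset.Icc (-(n : ℤ)) (n : ℤ), -2 * d1_h u i :=
    Finset.sum_le_sum fun i _ => d1_Bn_le hr hs i
  have e1 : ∑ k ∈ Finset.Icc (-(n : ℤ)) (n : ℤ), 1 *
      (2 * (st u (k - 1) + st u (k + 1) - 2 * st u k) + (m3 (x1 u) k - m3 (x0 u) k)) =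
      ∑ᶠ k, (m3 (x1 u) k - m3 (x0 u) k) := by
    obtain ⟨l1, l2⟩ := d1_lap (d1_cs_st hs)
    have h1 := l1.sum_add (d1_cs_m3 hs)
    rw [l2, zero_add] at h1
    rw [← h1, fs_eq n]
    · exact Finset.sum_congr rfl fun k _ => by ring
    · intro k hk
      have hk' : (N : ℤ) + 4 < |k| := by rw [hn] at hk; push_cast at hk; exact hk
      rw [m3_out (N := N) (fun k hk => x1_out hs hk) (by omega),
        m3_out (N := N) (fun k hk => x0_out hs hk) (by omega), st_out hs (i := k - 1) (by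
          rcases abs_cases k with ⟨a, _⟩ | ⟨a, _⟩ <;>
            rcases abs_cases (k - 1) with ⟨b, _⟩ | ⟨b, _⟩ <;> omega), st_out hs (i := k + 1) (by
          rcases abs_cases k with ⟨a, _⟩ | ⟨a, _⟩ <;>
            rcases abs_cases (k + 1) with ⟨b, _⟩ | ⟨b, _⟩ <;> omega), st_out hs (i := k) (by omega)]
      ring
  have e2 : ∑ i ∈ Finset.Icc (-(n : ℤ)) (n : ℤ), -2 * d1_h u i = -2 * ∑ᶠ i, d1_h u i := by
    rw [← Finset.mul_sum, fs_eq n]
    intro k hk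
    have hk' : (N : ℤ) + 4 < |k| := by rw [hn] at hk; push_cast at hk; exact hk
    have a1 : u (k - 2) = .z := hs _ (by
      rcases abs_cases k with ⟨a, _⟩ | ⟨a, _⟩ <;>
        rcases abs_cases (k - 2) with ⟨b, _⟩ | ⟨b, _⟩ <;> omega)
    unfold d1_h
    rw [a1]
    rfl
  have e3 : ∑ᶠ k, (m3 (x1 u) k - m3 (x0 u) k) ≤ ∑ᶠ k, d1_h u k + f3 u := by
    have h1 := (d1_cs_m3 hs).sum_le ((d1_cs_h hs).add ((d1_cs_F3 hs).shift (-1))) (d1_pt u)
    rw [(d1_cs_h hs).sum_add ((d1_cs_F3 hs).shift (-1)), fs_shift (fun k => ind (F3 u k))] at h1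
    exact h1
  have hw : ∑ i ∈ Finset.Icc (-(n : ℤ)) (n : ℤ), ∑ k ∈ Finset.Icc (-(n : ℤ)) (n : ℤ),
      1 * ds u i k = ∑ᶠ k, (m3 (x1 u) k - m3 (x0 u) k) :=
    (lin_w (le_of_eq hn.symm) hr hs (fun _ => 1)).trans e1
  rw [hL, Finset.sum_congr rfl (fun i _ => hterm i), Finset.sum_add_distrib, hw,
    ← Finset.mul_sum]
  rw [e2] at hB
  linarith

end Pool.Agent.T3M
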