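import Mathlib
import Pool.Agent.T3M.St
import Pool.Agent.T3M.MLin
import Pool.Agent.T3M.MD1

/-! D2, part one: window sums (helper55). -/

set_option autoImplicit false

namespace Pool.Agent.T3M

/-- window sum -/
noncomputable def d2_S (R : ℕ) (f : ℤ → ℝ) (x : ℤ) : ℝ := ∑ j ∈ Finset.range R, f (x + j)

lemma d2_Tq (R : ℕ) (u : ℤ → Sy) : Tq R u = 1 / (2 * R) * ∑ᶠ x, d2_S R (st u) x ^ 2 := rfl

lemma d2_cs_S {f : ℤ → ℝ} (hf : d3_cs f) (R : ℕ) : d3_cs (d2_S R f) := by
  obtain ⟨n, hn⟩ := hf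
  refine ⟨n + R, fun x hx => ?_⟩
  push_cast at hx
  unfold d2_S
  refine Finset.sum_eq_zero fun j hj => hn _ ?_
  rw [Finset.mem_range] at hj
  rcases abs_cases x with ⟨a, _⟩ | ⟨a, _⟩ <;>
    rcases abs_cases (x + (j : ℤ)) with ⟨b, _⟩ | ⟨b, _⟩ <;> omega

lemma d2_cs_mul {f g : ℤ → ℝ} (hf : d3_cs f) : d3_cs (fun x => f x * g x) := by
  obtain ⟨n, hn⟩ := hf
  refine ⟨n, fun x hx => ?_⟩
  show f x * g x = 0
  rw [hn x hx, zero_mul]

lemma d2_cs_mul' {f g : ℤ → ℝ} (hf : d3_cs f) : d3_cs (fun x => g x * f x) := by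
  obtain ⟨n, hn⟩ := hf
  refine ⟨n, fun x hx => ?_⟩
  show g x * f x = 0
  rw [hn x hx, mul_zero]

lemma d2_cs_sq {f : ℤ → ℝ} (hf : d3_cs f) : d3_cs (fun x => f x ^ 2) := by
  obtain ⟨n, hn⟩ := hf
  refine ⟨n, fun x hx => ?_⟩
  show f x ^ 2 = 0
  rw [hn x hx]
  ring

lemma d2_S_succ (R : ℕ) (f : ℤ → ℝ) (x : ℤ) : d2_S R f (x + 1) - d2_S R f x = f (x + R) - f x := by
  unfold d2_S
  have h1 : ∑ j ∈ Finset.range R, f (x + 1 + j) = ∑ j ∈ Finset.range R, f (x + ((j + 1 : ℕ) : ℤ)) := by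
    refine Finset.sum_congr rfl fun j _ => ?_
    congr 1
    push_cast
    ring
  have h2 := Finset.sum_range_succ' (fun j : ℕ => f (x + (j : ℤ))) R
  have h3 := Finset.sum_range_succ (fun j : ℕ => f (x + (j : ℤ))) R
  rw [h1]
  simp only [Nat.cast_zero, add_zero] at h2
  linarith

/-- moving the window sum to the other factor -/
lemma d2_transfer (R : ℕ) {g d : ℤ → ℝ} (hd : d3_cs d) :
    ∑ᶠ x, g x * d2_S R d x = ∑ᶠ k, (∑ j ∈ Finset.range R, g (k - j)) * d k := by
  have h1 : ∀ x, g x * d2_S R d x = ∑ j ∈ Finset.range R, g x * d (x + j) := fun x => by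
    unfold d2_S
    rw [Finset.mul_sum]
  have h2 : ∀ k, (∑ j ∈ Finset.range R, g (k - j)) * d k = ∑ j ∈ Finset.range R, g (k - j) * d k :=
    fun k => Finset.sum_mul _ _ _
  rw [finsum_congr h1, finsum_congr h2, finsum_sum_comm, finsum_sum_comm]
  · refine Finset.sum_congr rfl fun j _ => ?_
    rw [← fs_shift (fun k => g (k - j) * d k) j]
    refine finsum_congr fun x => ?_
    rw [add_sub_cancel_right]
  · intro j _
    exact (d2_cs_mul' hd).fin
  · intro j _
    exact (d2_cs_mul' (g := g) (hd.shift (j : ℤ))).fin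

/-- summation by parts -/
lemma d2_parts (R : ℕ) {f : ℤ → ℝ} (hf : d3_cs f) :
    ∑ᶠ x, d2_S R f x * (d2_S R f (x - 1) + d2_S R f (x + 1) - 2 * d2_S R f x) =
      -∑ᶠ x, (f (x + R) - f x) ^ 2 := by
  have cS := d2_cs_S hf R
  set S := d2_S R f with hS
  set T : ℤ → ℝ := fun x => S (x + 1) - S x with hT
  have cA : d3_cs (fun x => S x * T x) := d2_cs_mul cS
  have cB : d3_cs (fun x => S (x + 1) * T x) := d2_cs_mul (cS.shift 1)
  have cB' := (cB.shift (-1)).mul (-1)
  have e1 : (fun x => S x * (S (x - 1) + S (x + 1) - 2 * S x)) =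
      fun x => S x * T x + -1 * (S (x + -1 + 1) * T (x + -1)) := by
    funext x
    rw [hT]
    simp only
    rw [show x + -1 + 1 = x by ring, show x + -1 = x - 1 by ring]
    ring
  have e2 : (fun x => (f (x + R) - f x) ^ 2) = fun x => S (x + 1) * T x + -1 * (S x * T x) := by
    funext x
    rw [← d2_S_succ R f x, hT]
    simp only
    ring
  rw [e1, e2, cA.sum_add cB', fs_mul, fs_shift (fun x => S (x + 1) * T x), cB.sum_add (cA.mul (-1)),
    fs_mul]
  ring

/-- the window sum of a single site -/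
lemma d2_one (R : ℕ) (x p : ℤ) (c : ℝ) :
    ∑ j ∈ Finset.range R, (if x + (j : ℤ) = p then c else 0) =
      if x ≤ p ∧ p < x + R then c else 0 := by
  by_cases h : x ≤ p ∧ p < x + R
  · rw [if_pos h, Finset.sum_eq_single (p - x).toNat]
    · rw [if_pos (by omega)]
    · intro j _ hj
      rw [if_neg (by omega)]
    · intro hj
      exfalso
      rw [Finset.mem_range] at hj
      omega
  · rw [if_neg h]
    refine Finset.sum_eq_zero fun j hj => ?_
    rw [Finset.mem_range] at hj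
    rw [if_neg (by omega)]

lemma d2_win (R : ℕ) {d : ℤ → ℝ} (i : ℤ) (hd : ∀ k : ℤ, (k < i - 1 ∨ i + 1 < k) → d k = 0) (x : ℤ) :
    d2_S R d x = (if x ≤ i - 1 ∧ i - 1 < x + R then d (i - 1) else 0) +
      (if x ≤ i ∧ i < x + R then d i else 0) + (if x ≤ i + 1 ∧ i + 1 < x + R then d (i + 1) else 0) := by
  unfold d2_S
  rw [← d2_one, ← d2_one, ← d2_one, ← Finset.sum_add_distrib, ← Finset.sum_add_distrib]
  refine Finset.sum_congr rfl fun j _ => ?_
  by_cases h1 : x + (j : ℤ) = i - 1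
  · rw [h1, if_pos rfl, if_neg (by omega), if_neg (by omega)]
    ring
  by_cases h2 : x + (j : ℤ) = i
  · rw [h2, if_neg (by omega), if_pos rfl, if_neg (by omega)]
    ring
  by_cases h3 : x + (j : ℤ) = i + 1
  · rw [h3, if_neg (by omega), if_neg (by omega), if_pos rfl]
    ring
  rw [if_neg h1, if_neg h2, if_neg h3, hd _ (by omega)]
  ring

/-- the sum of the squares of the window sums -/
noncomputable def d2_Q (r d1 d2 d3 : ℝ) : ℝ :=
  d1 ^ 2 + (d1 + d2) ^ 2 + (r - 2) * (d1 + d2 + d3) ^ 2 + (d2 + d3) ^ 2 + d3 ^ 2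

lemma d2_sq (R : ℕ) (hR : 2 ≤ R) {d : ℤ → ℝ} (i : ℤ)
    (hd : ∀ k : ℤ, (k < i - 1 ∨ i + 1 < k) → d k = 0) :
    ∑ᶠ x, d2_S R d x ^ 2 = d2_Q R (d (i - 1)) (d i) (d (i + 1)) := by
  classical
  have hinj : Function.Injective (fun y : ℕ => i - R + (y : ℤ)) := by
    intro a b hab
    simp only at hab
    omega
  rw [finsum_eq_sum_of_support_subset (s := (Finset.range (R + 2)).image (fun y : ℕ => i - R + (y : ℤ))),
    Finset.sum_image (fun a _ b _ h => hinj h)]
  · have hG : ∀ y ∈ Finset.range (R + 2), d2_S R d (i - R + (y : ℤ)) ^ 2 =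
        ((if y + 1 ≤ R then d (i - 1) else 0) + (if 1 ≤ y ∧ y ≤ R then d i else 0) +
          (if 2 ≤ y then d (i + 1) else 0)) ^ 2 := by
      intro y hy
      rw [Finset.mem_range] at hy
      rw [d2_win _ i hd]
      congr 2
      · congr 1
        · by_cases h : y + 1 ≤ R
          · rw [if_pos h, if_pos (by omega)]
          · rw [if_neg h, if_neg (by omega)]
        · by_cases h : 1 ≤ y ∧ y ≤ R
          · rw [if_pos h, if_pos (by omega)]
          · rw [if_neg h, if_neg (by omega)]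
      · by_cases h : 2 ≤ y
        · rw [if_pos h, if_pos (by omega)]
        · rw [if_neg h, if_neg (by omega)]
    rw [Finset.sum_congr rfl hG]
    clear hG
    obtain ⟨r, rfl⟩ : ∃ r, R = r + 2 := ⟨R - 2, by omega⟩
    rw [Finset.sum_range_succ, Finset.sum_range_succ, Finset.sum_range_succ', Finset.sum_range_succ']
    have m : ∀ y ∈ Finset.range r, ((if y + 1 + 1 + 1 ≤ r + 2 then d (i - 1) else 0) +
        (if 1 ≤ y + 1 + 1 ∧ y + 1 + 1 ≤ r + 2 then d i else 0) +
          (if 2 ≤ y + 1 + 1 then d (i + 1) else 0)) ^ 2 = (d (i - 1) + d i + d (i + 1)) ^ 2 := by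
      intro y hy
      rw [Finset.mem_range] at hy
      rw [if_pos (by omega), if_pos (by omega), if_pos (by omega)]
    rw [Finset.sum_congr rfl m, Finset.sum_const, Finset.card_range, nsmul_eq_mul]
    rw [if_pos (show 0 + 1 + 1 ≤ r + 2 by omega), if_pos (show 1 ≤ 0 + 1 ∧ 0 + 1 ≤ r + 2 by omega),
      if_neg (show ¬ 2 ≤ 0 + 1 by omega), if_pos (show 0 + 1 ≤ r + 2 by omega),
      if_neg (show ¬ (1 ≤ 0 ∧ 0 ≤ r + 2) by omega), if_neg (show ¬ 2 ≤ 0 by omega),
      if_neg (show ¬ r + 2 + 1 ≤ r + 2 by omega), if_pos (show 1 ≤ r + 2 ∧ r + 2 ≤ r + 2 by omega),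
      if_pos (show 2 ≤ r + 2 by omega), if_neg (show ¬ r + 2 + 1 + 1 ≤ r + 2 by omega),
      if_neg (show ¬ (1 ≤ r + 2 + 1 ∧ r + 2 + 1 ≤ r + 2) by omega),
      if_pos (show 2 ≤ r + 2 + 1 by omega)]
    unfold d2_Q
    push_cast
    ring
  · intro x hx
    rw [Function.mem_support] at hx
    rw [Finset.mem_coe, Finset.mem_image]
    refine ⟨(x - (i - R)).toNat, ?_, ?_⟩
    · rw [Finset.mem_range]
      by_contra hc
      apply hx
      rw [d2_win _ i hd, if_neg (by omega), if_neg (by omega), if_neg (by omega)]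
      ring
    · by_contra hc
      apply hx
      rw [d2_win _ i hd, if_neg (by omega), if_neg (by omega), if_neg (by omega)]
      ring

end Pool.Agent.T3M
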