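import Mathlib
import Pool.Agent.T3M.St
import Pool.Agent.T3M.MLin
import Pool.Agent.T3M.MD1
import Pool.Agent.T3M.MD2a

/-! D2: drift of the quadratic functional (helper55). -/

set_option autoImplicit false

namespace Pool.Agent.T3M

/-! ### The quadratic part: one site -/

/-- inward marks -/
noncomputable def d2_c (a1 a2 a3 a4 a5 : Bool) : ℝ :=
  d3_sl (a3 && !a4) 1 + d3_sl (a3 && a4 && !a5) 1 + d3_sl (a3 && !a2) 1 + d3_sl (a3 && a2 && !a1) 1

noncomputable def d2_q (r : ℝ) (a b : Bool × Bool × Bool) : ℝ :=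
  d2_Q r (d3_sl b.1 1 - d3_sl a.1 1) (d3_sl b.2.1 1 - d3_sl a.2.1 1)
    (d3_sl b.2.2 1 - d3_sl a.2.2 1)

def d2_In (r : ℝ) (t : d3_T) : Prop :=
  r * d2_c t.1.1 t.1.2.1 t.1.2.2.1 t.1.2.2.2.1 t.1.2.2.2.2 ≤
    d2_q r (t.1.2.1, t.1.2.2.1, t.1.2.2.2.1) t.2.1 + d2_q r (t.1.2.1, t.1.2.2.1, t.1.2.2.2.1) t.2.2.1

set_option linter.unusedSimpArgs false in
set_option linter.flexible false in
theorem d2_key {r : ℝ} (hr : 2 ≤ r) (t : d3_T) (ht : t ∈ d3_list) : d2_In r t := by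
  fin_cases ht <;> simp only [d2_In, d2_c, d2_q, d2_Q, d3_sl, Bool.and_true, Bool.and_false,
      Bool.true_and, Bool.false_and, Bool.not_true, Bool.not_false] <;> norm_num <;> linarith

lemma d2_sl (a : Sy) : d3_sl a.isS 1 = if a.isS = true then 1 else 0 := by
  cases a <;> rfl

lemma d2_st (u : ℤ → Sy) (k : ℤ) : st u k = d3_sl (d3_sb u k) 1 := by
  unfold st d3_sb
  by_cases h : u k = .s
  · rw [ind_true h, h]; rfl
  · rw [ind_false h]
    have : (u k).isS = false := (d3_isS_iff' _).2 h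
    rw [this]; rfl

/-- change of the star indicator by one mark -/
noncomputable def d2_d (u : ℤ → Sy) (i : ℤ) (b : Bool) (k : ℤ) : ℝ := st (Rf i b u) k - st u k

lemma d2_d_far {u : ℤ → Sy} (hr : Rt u) (i : ℤ) (b : Bool) (k : ℤ) (hk : k < i - 1 ∨ i + 1 < k) :
    d2_d u i b k = 0 := by
  unfold d2_d st
  rw [Rf_far hr b (k := k) (by rcases abs_cases (k - i) with ⟨h3, _⟩ | ⟨h3, _⟩ <;> omega)]
  ring

lemma d2_cs_d {N : ℕ} {u : ℤ → Sy} (hr : Rt u) (hs : Sup N u) (i : ℤ) (b : Bool) :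
    d3_cs (d2_d u i b) := by
  refine ⟨N + 2, fun k hk => ?_⟩
  unfold d2_d
  rw [st_out (lin_sup hr hs i b) hk, st_out (hs.mono (show N ≤ N + 2 by omega)) hk]
  ring

lemma d2_Sq {u : ℤ → Sy} (hr : Rt u) (R : ℕ) (hR : 2 ≤ R) (i : ℤ) (b : Bool) :
    ∑ᶠ x, d2_S R (d2_d u i b) x ^ 2 =
      d2_q R ((u (i - 1)).isS, (u i).isS, (u (i + 1)).isS)
        (d3_nb b (u (i - 2)) (u (i - 1)) (u i) (u (i + 1)) (u (i + 2))) := by
  rw [d2_sq R hR i (d2_d_far hr i b), ← d3_nb_spec hr i b]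
  unfold d2_q d2_d
  rw [d2_st, d2_st, d2_st, d2_st, d2_st, d2_st]
  rfl

/-- change of the quadratic functional by one mark -/
lemma d2_diff {N : ℕ} {u : ℤ → Sy} (hr : Rt u) (hs : Sup N u) (R : ℕ) (hR : 2 ≤ R) (i : ℤ)
    (b : Bool) : Tq R (Rf i b u) - Tq R u =
      1 / R * ∑ᶠ k, (∑ j ∈ Finset.range R, d2_S R (st u) (k - j)) * d2_d u i b k +
      1 / (2 * R) * d2_q R ((u (i - 1)).isS, (u i).isS, (u (i + 1)).isS)
        (d3_nb b (u (i - 2)) (u (i - 1)) (u i) (u (i + 1)) (u (i + 2))) := by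
  have cs := d1_cs_st hs
  have cd := d2_cs_d hr hs i b
  have cS := d2_cs_S cs R
  have cD := d2_cs_S cd R
  rw [← d2_Sq hr R hR i b, ← d2_transfer R cd, d2_Tq, d2_Tq]
  have e1 : ∀ x, d2_S R (st (Rf i b u)) x = d2_S R (st u) x + d2_S R (d2_d u i b) x := by
    intro x
    unfold d2_S
    rw [← Finset.sum_add_distrib]
    refine Finset.sum_congr rfl fun j _ => ?_
    unfold d2_d
    ring
  have e2 : ∑ᶠ x, d2_S R (st (Rf i b u)) x ^ 2 = ∑ᶠ x, d2_S R (st u) x ^ 2 +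
      (2 * ∑ᶠ x, d2_S R (st u) x * d2_S R (d2_d u i b) x + ∑ᶠ x, d2_S R (d2_d u i b) x ^ 2) := by
    have h : ∀ x, d2_S R (st (Rf i b u)) x ^ 2 = d2_S R (st u) x ^ 2 +
        (2 * (d2_S R (st u) x * d2_S R (d2_d u i b) x) + d2_S R (d2_d u i b) x ^ 2) := by
      intro x
      rw [e1]
      ring
    have cP : d3_cs (fun x => d2_S R (st u) x * d2_S R (d2_d u i b) x) := d2_cs_mul cS
    rw [finsum_congr h, (d2_cs_sq cS).sum_add ((cP.mul 2).add (d2_cs_sq cD)),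
      (cP.mul 2).sum_add (d2_cs_sq cD), fs_mul]
  rw [e2]
  have hR0 : (R : ℝ) ≠ 0 := by
    have : (0 : ℝ) < R := by exact_mod_cast (by omega : 0 < R)
    exact this.ne'
  field_simp
  ring

/-! ### Star edges and inward marks -/

section
variable (x : ℤ → Bool)

noncomputable def d2_er (p : ℤ) : ℝ := d3_sl (x p && !x (p + 1)) 1
noncomputable def d2_el (p : ℤ) : ℝ := d3_sl (!x p && x (p + 1)) 1
noncomputable def d2_on (p : ℤ) : ℝ := d3_sl (x p && !x (p + 1) && !x (p - 1)) 1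

end

lemma d2_c_eq (x : ℤ → Bool) (i : ℤ) : d2_c (x (i - 2)) (x (i - 1)) (x i) (x (i + 1)) (x (i + 2)) =
    (d2_er x i + d2_er x (i + 1)) + (d2_el x (i + -1) + d2_el x (i + -2)) +
      -1 * (d2_on x (i + 1) + d2_on x (i + -1)) := by
  unfold d2_c d2_er d2_el d2_on
  rw [show i + 1 + 1 = i + 2 by ring, show i + -1 + 1 = i by ring, show i + -2 + 1 = i + -1 by ring,
    show i + 1 - 1 = i by ring, show i + -1 - 1 = i - 2 by ring, show i + -1 = i - 1 by ring,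
    show i + -2 = i - 2 by ring]
  cases x (i - 2) <;> cases x (i - 1) <;> cases x i <;> cases x (i + 1) <;> cases x (i + 2) <;>
    simp [d3_sl]

lemma d2_e_eq (x : ℤ → Bool) (p : ℤ) : d3_e x p = d2_er x p + d2_el x p := by
  unfold d3_e d2_er d2_el
  cases x p <;> cases x (p + 1) <;> simp [d3_sl]

lemma d2_on_le (u : ℤ → Sy) (p : ℤ) : d2_on (d3_sb u) p ≤ ind (Kl u p) := by
  unfold d2_on d3_sb
  cases h1 : (u p).isS
  · exact ind_nonneg _
  cases h2 : (u (p + 1)).isS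
  swap
  · exact ind_nonneg _
  cases h3 : (u (p - 1)).isS
  swap
  · exact ind_nonneg _
  rw [ind_true (show Kl u p from ⟨(d3_isS_iff _).1 h1, (d3_isS_iff' _).1 h3,
    Or.inl ((d3_isS_iff' _).1 h2)⟩)]
  exact le_of_eq rfl

lemma d2_cs_Kl {N : ℕ} {u : ℤ → Sy} (hs : Sup N u) : d3_cs (fun k => ind (Kl u k)) := by
  refine ⟨N, fun k hk => ?_⟩
  apply ind_false
  intro h
  have h1 := h.1
  rw [hs k hk] at h1
  exact absurd h1 (by decide)

lemma d2_csum {N : ℕ} {u : ℤ → Sy} (hs : Sup N u) :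
    d3_cs (fun i => d2_c (u (i - 2)).isS (u (i - 1)).isS (u i).isS (u (i + 1)).isS (u (i + 2)).isS) ∧
    2 * Bn u - 2 * kl u ≤
      ∑ᶠ i, d2_c (u (i - 2)).isS (u (i - 1)).isS (u i).isS (u (i + 1)).isS (u (i + 2)).isS := by
  have hx := d3_sb_FS hs
  have c1 : d3_cs (d2_er (d3_sb u)) := ⟨N + 1, fun p hp => by
    unfold d2_er; rw [(d3_same hx hp).1]; rfl⟩
  have c2 : d3_cs (d2_el (d3_sb u)) := ⟨N + 1, fun p hp => by
    unfold d2_el; rw [(d3_same hx hp).1, (d3_same hx hp).2]; rfl⟩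
  have c3 : d3_cs (d2_on (d3_sb u)) := ⟨N + 1, fun p hp => by
    unfold d2_on; rw [(d3_same hx hp).1]; rfl⟩
  have t1 := c1.add (c1.shift 1)
  have t2 := (c2.shift (-1)).add (c2.shift (-2))
  have t3 := ((c3.shift 1).add (c3.shift (-1))).mul (-1)
  have e : (fun i => d2_c (u (i - 2)).isS (u (i - 1)).isS (u i).isS (u (i + 1)).isS (u (i + 2)).isS) =
      fun i => (d2_er (d3_sb u) i + d2_er (d3_sb u) (i + 1)) +
        (d2_el (d3_sb u) (i + -1) + d2_el (d3_sb u) (i + -2)) +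
        -1 * (d2_on (d3_sb u) (i + 1) + d2_on (d3_sb u) (i + -1)) :=
    funext fun i => d2_c_eq (d3_sb u) i
  rw [e]
  refine ⟨(t1.add t2).add t3, ?_⟩
  rw [(t1.add t2).sum_add t3, t1.sum_add t2, fs_mul, c1.sum_add (c1.shift 1),
    (c2.shift (-1)).sum_add (c2.shift (-2)), (c3.shift 1).sum_add (c3.shift (-1)), fs_shift, fs_shift,
    fs_shift, fs_shift, fs_shift]
  have hB : Bn u = ∑ᶠ p, d2_er (d3_sb u) p + ∑ᶠ p, d2_el (d3_sb u) p := by
    rw [← d3_Bn, ← c1.sum_add c2]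
    exact finsum_congr fun p => d2_e_eq _ p
  have hk : ∑ᶠ p, d2_on (d3_sb u) p ≤ kl u := c3.sum_le (d2_cs_Kl hs) (d2_on_le u)
  linarith

/-! ### The correction -/

lemma d2_fin (w1 w2 w3 w4 w5 : Sy) (h : d3_ok w1 w2 w3 w4 w5 = true) :
    -((if d3_KlP w1 w2 w3 w4 w5 then 1 else 0) + (if w4 = .s ∧ w3 ≠ .s ∧ w5 ≠ .s then 1 else 0)) ≤
      d1_mz w1.hi w2.hi w3.hi w4.hi w5.hi - d1_mz w1.lo w2.lo w3.lo w4.lo w5.lo := by
  revert w1 w2 w3 w4 w5
  decide

lemma d2_m3 {u : ℤ → Sy} (hr : Rt u) (k : ℤ) :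
    -(ind (Kl u (k + -1)) + ind (Kl u (k + 1))) ≤ m3 (x1 u) k - m3 (x0 u) k := by
  rw [d1_m3, d1_m3]
  have h := d2_fin _ _ _ _ _ (d3_ok_root hr k)
  have h1 : ((-((if d3_KlP (u (k - 2)) (u (k - 1)) (u k) (u (k + 1)) (u (k + 2)) then 1 else 0) +
      (if u (k + 1) = .s ∧ u k ≠ .s ∧ u (k + 2) ≠ .s then 1 else 0)) : ℤ) : ℝ) ≤
      ((d1_mz (u (k - 2)).hi (u (k - 1)).hi (u k).hi (u (k + 1)).hi (u (k + 2)).hi -
      d1_mz (u (k - 2)).lo (u (k - 1)).lo (u k).lo (u (k + 1)).lo (u (k + 2)).lo : ℤ) : ℝ) := by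
    exact_mod_cast h
  push_cast at h1
  have a1 : (if d3_KlP (u (k - 2)) (u (k - 1)) (u k) (u (k + 1)) (u (k + 2)) then (1 : ℝ) else 0) ≤
      ind (Kl u (k + -1)) := by
    split_ifs with hK
    · have : Kl u (k + -1) := by
        unfold Kl
        rw [show k + -1 + 1 = k by ring, show k + -1 + 2 = k + 1 by ring,
          show k + -1 + 3 = k + 2 by ring, show k + -1 - 1 = k - 2 by ring,
          show k + -1 = k - 1 by ring]
        exact hK
      rw [ind_true this]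
    · exact ind_nonneg _
  have a2 : (if u (k + 1) = .s ∧ u k ≠ .s ∧ u (k + 2) ≠ .s then (1 : ℝ) else 0) ≤
      ind (Kl u (k + 1)) := by
    split_ifs with hK
    · have : Kl u (k + 1) := by
        unfold Kl
        rw [show k + 1 + 1 = k + 2 by ring, show k + 1 - 1 = k by ring]
        exact ⟨hK.1, hK.2.1, Or.inl hK.2.2⟩
      rw [ind_true this]
    · exact ind_nonneg _
  refine le_trans ?_ h1
  linarith

/-! ### The theorem -/

/-- the linear part -/
lemma d2_lin {N : ℕ} {u : ℤ → Sy} (hs : Sup N u) (R : ℕ) :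
    -(4 * nst u) ≤ ∑ᶠ k, (∑ j ∈ Finset.range R, d2_S R (st u) (k - j)) *
      (2 * (st u (k - 1) + st u (k + 1) - 2 * st u k)) := by
  have cs := d1_cs_st hs
  obtain ⟨cL, _⟩ := d1_lap cs
  rw [← d2_transfer R cL]
  have e1 : ∀ x, d2_S R (st u) x *
      d2_S R (fun k => 2 * (st u (k - 1) + st u (k + 1) - 2 * st u k)) x =
      2 * (d2_S R (st u) x * (d2_S R (st u) (x - 1) + d2_S R (st u) (x + 1) -
        2 * d2_S R (st u) x)) := by
    intro x
    have h : d2_S R (fun k => 2 * (st u (k - 1) + st u (k + 1) - 2 * st u k)) x =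
        2 * (d2_S R (st u) (x - 1) + d2_S R (st u) (x + 1) - 2 * d2_S R (st u) x) := by
      unfold d2_S
      rw [← Finset.sum_add_distrib, Finset.mul_sum, ← Finset.sum_sub_distrib, Finset.mul_sum]
      refine Finset.sum_congr rfl fun j _ => ?_
      simp only
      rw [show x + (j : ℤ) - 1 = x - 1 + j by ring, show x + (j : ℤ) + 1 = x + 1 + j by ring]
    rw [h]
    ring
  rw [finsum_congr e1, fs_mul, d2_parts R cs]
  have h2 : ∑ᶠ x, (st u (x + R) - st u x) ^ 2 ≤ 2 * nst u := by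
    have cT : d3_cs (fun x => (st u (x + R) - st u x) ^ 2) := by
      have h := (cs.shift (R : ℤ)).add (cs.mul (-1))
      have h3 := d2_cs_sq h
      have e : (fun x => (st u (x + R) - st u x) ^ 2) =
          fun x => (st u (x + R) + -1 * st u x) ^ 2 := by
        funext x
        ring
      rw [e]
      exact h3
    have hle : ∀ x, (st u (x + R) - st u x) ^ 2 ≤ st u (x + R) + st u x := by
      intro x
      rcases ind_cases (u (x + R) = .s) with h1 | h1 <;>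
        rcases ind_cases (u x = .s) with h2 | h2 <;>
        rw [← st_def] at h1 h2 <;> rw [h1, h2] <;> norm_num
    have h := cT.sum_le ((cs.shift (R : ℤ)).add cs) hle
    rw [(cs.shift (R : ℤ)).sum_add cs, fs_shift] at h
    have e : nst u = ∑ᶠ x, st u x := rfl
    rw [e]
    linarith
  linarith

lemma d2_phi (u : ℤ → Sy) (R : ℕ) (k : ℤ) :
    0 ≤ ∑ j ∈ Finset.range R, d2_S R (st u) (k - j) ∧
      ∑ j ∈ Finset.range R, d2_S R (st u) (k - j) ≤ (R : ℝ) * R := by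
  have h : ∀ x, 0 ≤ d2_S R (st u) x ∧ d2_S R (st u) x ≤ R := by
    intro x
    constructor
    · exact Finset.sum_nonneg fun j _ => st_nonneg u _
    · unfold d2_S
      refine (Finset.sum_le_sum fun (j : ℕ) _ => st_le_one u (x + (j : ℤ))).trans ?_
      rw [Finset.sum_const, Finset.card_range, nsmul_eq_mul, mul_one]
  constructor
  · exact Finset.sum_nonneg fun j _ => (h _).1
  · refine (Finset.sum_le_sum fun (j : ℕ) _ => (h (k - (j : ℤ))).2).trans ?_
    rw [Finset.sum_const, Finset.card_range, nsmul_eq_mul]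

theorem d2_main {u : ℤ → Sy} {N R : ℕ} (hR : 2 ≤ R) (hr : Rt u) (hs : Sup N u) :
    Bn u - 4 / R * nst u - (2 * R + 1) * kl u ≤ Lg (Tq R) u := by
  have hR0 : (0 : ℝ) < R := by exact_mod_cast (by omega : 0 < R)
  set n : ℕ := N + 4 with hn
  set φ : ℤ → ℝ := fun k => ∑ j ∈ Finset.range R, d2_S R (st u) (k - j) with hφ
  set c : ℤ → ℝ := fun i =>
    d2_c (u (i - 2)).isS (u (i - 1)).isS (u i).isS (u (i + 1)).isS (u (i + 2)).isS with hc
  have hL := Lg_eq hr (hs.mono (show N ≤ N + 2 by omega)) (Tq R)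
  have hn2 : N + 2 + 2 = n := by omega
  rw [hn2] at hL
  have hds : ∀ i k : ℤ, (n : ℤ) < |k| → ∀ b, d2_d u i b k = 0 := by
    intro i k hk b
    unfold d2_d
    rw [st_out ((lin_sup hr hs i b).mono (show N + 2 ≤ n by omega)) hk,
      st_out (hs.mono (show N ≤ n by omega)) hk]
    ring
  have hterm : ∀ i : ℤ, 1 / R * ∑ k ∈ Finset.Icc (-(n : ℤ)) (n : ℤ), φ k * ds u i k + 1 / 2 * c i ≤
      (Tq R (Rf i false u) - Tq R u) + (Tq R (Rf i true u) - Tq R u) := by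
    intro i
    rw [d2_diff hr hs R hR i false, d2_diff hr hs R hR i true]
    have k1 := d2_key (r := R) (by exact_mod_cast hR) _ (d3_mem _ _ _ _ _ (d3_ok_root hr i))
    have k2 : (R : ℝ) * c i ≤ d2_q R ((u (i - 1)).isS, (u i).isS, (u (i + 1)).isS)
        (d3_nb false (u (i - 2)) (u (i - 1)) (u i) (u (i + 1)) (u (i + 2))) +
        d2_q R ((u (i - 1)).isS, (u i).isS, (u (i + 1)).isS)
        (d3_nb true (u (i - 2)) (u (i - 1)) (u i) (u (i + 1)) (u (i + 2))) := k1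
    have k3 : 1 / 2 * c i ≤ 1 / (2 * (R : ℝ)) *
        (d2_q R ((u (i - 1)).isS, (u i).isS, (u (i + 1)).isS)
        (d3_nb false (u (i - 2)) (u (i - 1)) (u i) (u (i + 1)) (u (i + 2))) +
        d2_q R ((u (i - 1)).isS, (u i).isS, (u (i + 1)).isS)
        (d3_nb true (u (i - 2)) (u (i - 1)) (u i) (u (i + 1)) (u (i + 2)))) := by
      refine le_trans (le_of_eq ?_) (mul_le_mul_of_nonneg_left k2 (by positivity))
      field_simp
    have e1 : ∑ k ∈ Finset.Icc (-(n : ℤ)) (n : ℤ), φ k * ds u i k =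
        ∑ᶠ k, φ k * d2_d u i false k + ∑ᶠ k, φ k * d2_d u i true k := by
      rw [fs_eq (f := fun k => φ k * d2_d u i false k) n (fun k hk => by rw [hds i k hk, mul_zero]),
        fs_eq (f := fun k => φ k * d2_d u i true k) n (fun k hk => by rw [hds i k hk, mul_zero]),
        ← Finset.sum_add_distrib]
      refine Finset.sum_congr rfl fun k _ => ?_
      unfold ds d2_d
      ring
    rw [e1]
    rw [hφ]
    linarith
  have hsum := Finset.sum_le_sum (s := Finset.Icc (-(n : ℤ)) (n : ℤ)) fun i _ => hterm i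
  rw [← hL, Finset.sum_add_distrib, ← Finset.mul_sum, ← Finset.mul_sum,
    lin_w (le_of_eq hn.symm) hr hs φ] at hsum
  obtain ⟨cc, hcc⟩ := d2_csum hs
  have hcn : ∑ i ∈ Finset.Icc (-(n : ℤ)) (n : ℤ), c i = ∑ᶠ i, c i := by
    rw [fs_eq n]
    intro i hi
    have hi' : (N : ℤ) + 4 < |i| := by rw [hn] at hi; push_cast at hi; exact hi
    have a1 : u i = .z := hs _ (by omega)
    rw [hc]
    simp only [a1]
    unfold d2_c
    simp [Sy.isS, d3_sl]
  have cs := d1_cs_st hs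
  obtain ⟨cL, _⟩ := d1_lap cs
  have cM := d1_cs_m3 hs
  have cφL : d3_cs (fun k => φ k * (2 * (st u (k - 1) + st u (k + 1) - 2 * st u k))) := d2_cs_mul' cL
  have cφM : d3_cs (fun k => φ k * (m3 (x1 u) k - m3 (x0 u) k)) := d2_cs_mul' cM
  have e2 : ∑ k ∈ Finset.Icc (-(n : ℤ)) (n : ℤ), φ k *
      (2 * (st u (k - 1) + st u (k + 1) - 2 * st u k) + (m3 (x1 u) k - m3 (x0 u) k)) =
      ∑ᶠ k, φ k * (2 * (st u (k - 1) + st u (k + 1) - 2 * st u k)) +
        ∑ᶠ k, φ k * (m3 (x1 u) k - m3 (x0 u) k) := by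
    rw [← cφL.sum_add cφM, fs_eq n]
    · exact Finset.sum_congr rfl fun k _ => by ring
    · intro k hk
      have hk' : (N : ℤ) + 4 < |k| := by rw [hn] at hk; push_cast at hk; exact hk
      rw [m3_out (N := N) (fun k hk => x1_out hs hk) (by omega),
        m3_out (N := N) (fun k hk => x0_out hs hk) (by omega), st_out hs (i := k - 1) (by
          rcases abs_cases k with ⟨a, _⟩ | ⟨a, _⟩ <;>
            rcases abs_cases (k - 1) with ⟨b, _⟩ | ⟨b, _⟩ <;> omega), st_out hs (i := k + 1) (by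
          rcases abs_cases k with ⟨a, _⟩ | ⟨a, _⟩ <;>
            rcases abs_cases (k + 1) with ⟨b, _⟩ | ⟨b, _⟩ <;> omega), st_out hs (i := k) (by omega)]
      ring
  have e3 : -(2 * ((R : ℝ) * R) * kl u) ≤ ∑ᶠ k, φ k * (m3 (x1 u) k - m3 (x0 u) k) := by
    have cK := d2_cs_Kl hs
    have cK2 := (((cK.shift (-1)).add (cK.shift 1)).mul (-((R : ℝ) * R)))
    have hpt : ∀ k, -((R : ℝ) * R) * (ind (Kl u (k + -1)) + ind (Kl u (k + 1))) ≤
        φ k * (m3 (x1 u) k - m3 (x0 u) k) := by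
      intro k
      have h1 := d2_m3 hr k
      have h2 := d2_phi u R k
      have h3 : 0 ≤ ind (Kl u (k + -1)) + ind (Kl u (k + 1)) :=
        add_nonneg (ind_nonneg _) (ind_nonneg _)
      have h4 : φ k * (-(ind (Kl u (k + -1)) + ind (Kl u (k + 1)))) ≤
          φ k * (m3 (x1 u) k - m3 (x0 u) k) := mul_le_mul_of_nonneg_left h1 h2.1
      have h5 : φ k * (ind (Kl u (k + -1)) + ind (Kl u (k + 1))) ≤
          (R : ℝ) * R * (ind (Kl u (k + -1)) + ind (Kl u (k + 1))) :=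
        mul_le_mul_of_nonneg_right h2.2 h3
      linarith
    have h := cK2.sum_le cφM hpt
    rw [fs_mul, (cK.shift (-1)).sum_add (cK.shift 1), fs_shift (fun k => ind (Kl u k)),
      fs_shift (fun k => ind (Kl u k))] at h
    have e : kl u = ∑ᶠ k, ind (Kl u k) := rfl
    rw [e]
    linarith
  have e4 := d2_lin hs R
  rw [e2, hcn] at hsum
  have e5 : ∑ᶠ k, φ k * (2 * (st u (k - 1) + st u (k + 1) - 2 * st u k)) =
      ∑ᶠ k, (∑ j ∈ Finset.range R, d2_S R (st u) (k - j)) *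
        (2 * (st u (k - 1) + st u (k + 1) - 2 * st u k)) := rfl
  rw [← e5] at e4
  have e6 : 1 / (R : ℝ) * (-(4 * nst u) + -(2 * ((R : ℝ) * R) * kl u)) ≤
      1 / (R : ℝ) * (∑ᶠ k, φ k * (2 * (st u (k - 1) + st u (k + 1) - 2 * st u k)) +
        ∑ᶠ k, φ k * (m3 (x1 u) k - m3 (x0 u) k)) :=
    mul_le_mul_of_nonneg_left (add_le_add e4 e3) (by positivity)
  have e7 : 1 / (R : ℝ) * (-(4 * nst u) + -(2 * ((R : ℝ) * R) * kl u)) =
      -(4 / R * nst u) - 2 * R * kl u := by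
    field_simp
    ring
  rw [e7] at e6
  linarith

theorem thm_D2 : St_D2 := by
  refine ⟨4, by norm_num, fun u N R hR hr hs => ?_⟩
  have h1 := d2_main (show 2 ≤ R by omega) hr hs
  have h2 := kl_nonneg u
  have h3 : (3 : ℝ) ≤ R := by exact_mod_cast hR
  nlinarith

end Pool.Agent.T3M
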