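import Mathlib
import Pool.Agent.T3M.Defs
import Pool.Agent.T3M.Ba

/-! Views of gaps by recursion along the sites (helper77).

`gV κ t u E l a` is the view from the site `a` to the right, if `a` belongs to a run which has the
length `l` up to `a`; it only looks at the sites `≤ E`. `gR κ t u E a` is the sum of the views from
all left ends of gaps in `[a, E)`. `ZL` and `SL` are `gR` with the weights `kap D` and `1_(l ≤ 3)`. -/

set_option autoImplicit false

namespace Pool.Agent.T3M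

/-- the view with fuel -/
noncomputable def gvv (κ : ℕ → ℝ) (t : ℝ) (u : ℤ → Sy) : ℕ → ℕ → ℤ → ℝ
  | 0, _, _ => 0
  | n + 1, l, a => if u (a + 1) = u a then gvv κ t u n (l + 1) (a + 1)
      else if u a = .s ∨ u (a + 1) = .s then 0
      else κ l + t ^ l * gvv κ t u n 1 (a + 1)

/-- the view from `a`, where the current run has length `l` up to `a` -/
noncomputable def gV (κ : ℕ → ℝ) (t : ℝ) (u : ℤ → Sy) (E : ℤ) (l : ℕ) (a : ℤ) : ℝ :=
  gvv κ t u (E - a).toNat l a

/-- the sum of the views from the left ends `k | k + 1` of the gaps, `a ≤ k < E` -/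
noncomputable def gR (κ : ℕ → ℝ) (t : ℝ) (u : ℤ → Sy) (E : ℤ) (a : ℤ) : ℝ :=
  ∑ k ∈ Finset.Ico a E, ind (u k = .s ∧ u (k + 1) ≠ .s) * gV κ t u E 1 (k + 1)

section basic

variable (κ : ℕ → ℝ) (t : ℝ) (u : ℤ → Sy) (E : ℤ)

lemma gV_end {l : ℕ} {a : ℤ} (h : E ≤ a) : gV κ t u E l a = 0 := by
  unfold gV
  rw [Int.toNat_of_nonpos (by omega)]
  rfl

lemma gV_step {l : ℕ} {a : ℤ} (h : a < E) : gV κ t u E l a =
    if u (a + 1) = u a then gV κ t u E (l + 1) (a + 1)
    else if u a = .s ∨ u (a + 1) = .s then 0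
    else κ l + t ^ l * gV κ t u E 1 (a + 1) := by
  unfold gV
  have h1 : (E - a).toNat = (E - (a + 1)).toNat + 1 := by omega
  rw [h1]
  rfl

lemma gV_same {l : ℕ} {a : ℤ} (h : a < E) (h1 : u (a + 1) = u a) :
    gV κ t u E l a = gV κ t u E (l + 1) (a + 1) := by
  rw [gV_step κ t u E h, if_pos h1]

lemma gV_star {l : ℕ} {a : ℤ} (h1 : u a = .s) : gV κ t u E l a = 0 := by
  by_cases h : a < E
  · obtain ⟨n, hn⟩ : ∃ n : ℕ, (n : ℤ) = E - a := ⟨(E - a).toNat, by omega⟩
    induction n generalizing a l with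
    | zero => omega
    | succ n ih =>
      rw [gV_step κ t u E h]
      by_cases h2 : u (a + 1) = u a
      · rw [if_pos h2]
        by_cases h3 : a + 1 < E
        · exact ih (h2.trans h1) h3 (by push_cast at hn; omega)
        · exact gV_end κ t u E (by omega)
      · rw [if_neg h2, if_pos (Or.inl h1)]
  · exact gV_end κ t u E (by omega)

lemma gV_wall {l : ℕ} {a : ℤ} (h : a < E) (h0 : u a ≠ .s) (h1 : u (a + 1) ≠ u a)
    (h2 : u (a + 1) ≠ .s) : gV κ t u E l a = κ l + t ^ l * gV κ t u E 1 (a + 1) := by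
  rw [gV_step κ t u E h, if_neg h1, if_neg (by tauto)]

lemma gV_last {l : ℕ} {a : ℤ} (h1 : u (a + 1) ≠ u a) (h2 : u (a + 1) = .s) :
    gV κ t u E l a = 0 := by
  by_cases h : a < E
  · rw [gV_step κ t u E h, if_neg h1, if_pos (Or.inr h2)]
  · exact gV_end κ t u E (by omega)

lemma gR_end {a : ℤ} (h : E ≤ a) : gR κ t u E a = 0 := by
  unfold gR
  rw [Finset.Ico_eq_empty (by omega), Finset.sum_empty]

lemma gR_step {a : ℤ} (h : a < E) : gR κ t u E a =
    ind (u a = .s ∧ u (a + 1) ≠ .s) * gV κ t u E 1 (a + 1) + gR κ t u E (a + 1) := by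
  unfold gR
  have h1 : Finset.Ico a E = insert a (Finset.Ico (a + 1) E) := by
    ext k
    simp only [Finset.mem_insert, Finset.mem_Ico]
    omega
  rw [h1, Finset.sum_insert (by simp)]

/-- downward induction from `E` -/
lemma g_down {P : ℤ → Prop} (h0 : ∀ a, E ≤ a → P a) (h1 : ∀ a, a < E → P (a + 1) → P a) :
    ∀ a, P a := by
  intro a
  obtain ⟨n, hn⟩ : ∃ n : ℕ, n = (E - a).toNat := ⟨_, rfl⟩
  induction n generalizing a with
  | zero => exact h0 a (by omega)
  | succ n ih => exact h1 a (by omega) (ih (a + 1) (by omega))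

variable {u}

/-- the view only depends on the sites in `[a, E]` -/
lemma gV_congr {u' : ℤ → Sy} {a : ℤ} (h : ∀ k, a ≤ k → k ≤ E → u' k = u k) (l : ℕ) :
    gV κ t u' E l a = gV κ t u E l a := by
  revert l h
  refine g_down E (P := fun a => (∀ k, a ≤ k → k ≤ E → u' k = u k) → ∀ l : ℕ,
    gV κ t u' E l a = gV κ t u E l a) ?_ ?_ a
  · intro a ha _ l
    rw [gV_end κ t u' E ha, gV_end κ t u E ha]
  · intro a ha ih h l
    have ih' := ih fun k hk => h k (by omega)
    rw [gV_step κ t u' E ha, gV_step κ t u E ha, h a le_rfl ha.le, h (a + 1) (by omega) (by omega),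
      ih', ih']

lemma gR_congr {u' : ℤ → Sy} {a : ℤ} (h : ∀ k, a ≤ k → k ≤ E → u' k = u k) :
    gR κ t u' E a = gR κ t u E a := by
  unfold gR
  refine Finset.sum_congr rfl fun k hk => ?_
  rw [Finset.mem_Ico] at hk
  rw [h k hk.1 hk.2.le, h (k + 1) (by omega) (by omega),
    gV_congr κ t E (fun j hj => h j (by omega)) 1]

variable (u)

/-- along a constant stretch -/
lemma gV_const {l : ℕ} {a : ℤ} {n : ℕ} (hE : a + n ≤ E) (h : ∀ k, a ≤ k → k ≤ a + n → u k = u a) :
    gV κ t u E l a = gV κ t u E (l + n) (a + n) := by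
  induction n generalizing a l with
  | zero => simp
  | succ n ih =>
    push_cast at hE
    have h1 : u (a + 1) = u a := h (a + 1) (by omega) (by push_cast; omega)
    rw [gV_same κ t u E (by omega) h1, ih (l := l + 1) (a := a + 1) (by omega) (fun k hk hk' => by
      rw [h1]; exact h k (by omega) (by push_cast; omega))]
    congr 1
    · omega
    · push_cast
      ring

/-- the view from a site of a run which ends at `b - 1` -/
lemma gV_run {l : ℕ} {a b : ℤ} (hab : a < b) (hE : b ≤ E) (h : ∀ k, a ≤ k → k < b → u k = u a)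
    (ha : u a ≠ .s) (hb : u b ≠ u a) (hb' : u b ≠ .s) : gV κ t u E l a =
      κ (l + (b - 1 - a).toNat) + t ^ (l + (b - 1 - a).toNat) * gV κ t u E 1 b := by
  obtain ⟨n, hn⟩ : ∃ n : ℕ, (n : ℤ) = b - 1 - a := ⟨(b - 1 - a).toNat, by omega⟩
  have hb1 : a + n + 1 = b := by omega
  have hua : u (a + n) = u a := h (a + n) (by omega) (by omega)
  rw [gV_const κ t u E (l := l) (a := a) (n := n) (by omega) (fun k hk hk' => h k hk (by omega)),
    gV_wall κ t u E (a := a + n) (by omega) (by rw [hua]; exact ha) (by rw [hb1, hua]; exact hb)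
      (by rw [hb1]; exact hb'), hb1, ← hn]
  simp

/-- the last run of a gap -/
lemma gV_run_last {l : ℕ} {a b : ℤ} (hab : a < b) (h : ∀ k, a ≤ k → k < b → u k = u a)
    (ha : u a ≠ .s) (hb' : u b = .s) : gV κ t u E l a = 0 := by
  by_cases hE : b ≤ E
  · obtain ⟨n, hn⟩ : ∃ n : ℕ, (n : ℤ) = b - 1 - a := ⟨(b - 1 - a).toNat, by omega⟩
    have hb1 : a + n + 1 = b := by omega
    have hua : u (a + n) = u a := h (a + n) (by omega) (by omega)
    rw [gV_const κ t u E (l := l) (a := a) (n := n) (by omega) (fun k hk hk' => h k hk (by omega)),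
      gV_last κ t u E (by rw [hb1, hua, hb']; exact fun h => ha h.symm) (by rw [hb1]; exact hb')]
  · by_cases haE : a ≤ E
    · obtain ⟨n, hn⟩ : ∃ n : ℕ, (n : ℤ) = E - a := ⟨(E - a).toNat, by omega⟩
      rw [gV_const κ t u E (l := l) (a := a) (n := n) (by omega)
        (fun k hk hk' => h k hk (by omega))]
      exact gV_end κ t u E (by omega)
    · exact gV_end κ t u E (by omega)

/-- a constant tail has no view -/
lemma gV_tail {l : ℕ} {a : ℤ} (h : ∀ k, a ≤ k → k ≤ E → u k = u a) : gV κ t u E l a = 0 := by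
  by_cases haE : a ≤ E
  · obtain ⟨n, hn⟩ : ∃ n : ℕ, (n : ℤ) = E - a := ⟨(E - a).toNat, by omega⟩
    rw [gV_const κ t u E (l := l) (a := a) (n := n) (by omega) (fun k hk hk' => h k hk (by omega))]
    exact gV_end κ t u E (by omega)
  · exact gV_end κ t u E (by omega)

/-- the sum of the views from the gaps which begin in or after a colour run -/
lemma gR_skip {a b : ℤ} (hab : a ≤ b) (h : ∀ k, a ≤ k → k < b → ¬ (u k = .s ∧ u (k + 1) ≠ .s)) :
    gR κ t u E a = gR κ t u E b := by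
  obtain ⟨n, hn⟩ : ∃ n : ℕ, (n : ℤ) = b - a := ⟨(b - a).toNat, by omega⟩
  induction n generalizing a with
  | zero =>
    have : a = b := by push_cast at hn; omega
    rw [this]
  | succ n ih =>
    push_cast at hn
    by_cases haE : a < E
    · rw [gR_step κ t u E haE, ind_false (h a le_rfl (by omega)), zero_mul, zero_add]
      exact ih (a := a + 1) (by omega) (fun k hk hk' => h k (by omega) hk') (by omega)
    · rw [gR_end κ t u E (by omega), gR_end κ t u E (by omega)]

lemma gR_run {a b : ℤ} (hab : a ≤ b) (h : ∀ k, a ≤ k → k < b → u k ≠ .s) :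
    gR κ t u E a = gR κ t u E b :=
  gR_skip κ t u E hab fun k hk hk' hc => h k hk hk' hc.1

/-- a star run `[a, b)` -/
lemma gR_star {a b : ℤ} (hab : a < b) (hE : b ≤ E) (h : ∀ k, a ≤ k → k < b → u k = .s)
    (hb : u b ≠ .s) : gR κ t u E a = gV κ t u E 1 b + gR κ t u E b := by
  rw [gR_skip κ t u E (a := a) (b := b - 1) (by omega)
    (fun k hk hk' hc => hc.2 (h (k + 1) (by omega) (by omega))),
    gR_step κ t u E (a := b - 1) (by omega), sub_add_cancel,
    ind_true ⟨h (b - 1) (by omega) (by omega), hb⟩, one_mul]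

lemma gV_nonneg (hκ : ∀ l, 0 ≤ κ l) (ht : 0 ≤ t) (l : ℕ) (a : ℤ) : 0 ≤ gV κ t u E l a := by
  revert l
  refine g_down E (P := fun a => ∀ l : ℕ, 0 ≤ gV κ t u E l a) ?_ ?_ a
  · intro a ha l
    rw [gV_end κ t u E ha]
  · intro a ha ih l
    rw [gV_step κ t u E ha]
    split_ifs
    · exact ih _
    · exact le_rfl
    · exact add_nonneg (hκ l) (mul_nonneg (pow_nonneg ht l) (ih 1))

lemma gR_nonneg (hκ : ∀ l, 0 ≤ κ l) (ht : 0 ≤ t) (a : ℤ) : 0 ≤ gR κ t u E a :=
  Finset.sum_nonneg fun k _ => mul_nonneg (ind_nonneg _) (gV_nonneg κ t u E hκ ht 1 (k + 1))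

/-- monotone dependence on the current length for decreasing weights -/
lemma gV_anti (hκ0 : ∀ l, 0 ≤ κ l) (hκ : ∀ l l', l ≤ l' → κ l' ≤ κ l) (ht : 0 ≤ t) (ht1 : t ≤ 1)
    (l l' : ℕ) (hl : l ≤ l') (a : ℤ) : gV κ t u E l' a ≤ gV κ t u E l a := by
  revert l l'
  refine g_down E (P := fun a => ∀ l l' : ℕ, l ≤ l' → gV κ t u E l' a ≤ gV κ t u E l a) ?_ ?_ a
  · intro a ha l l' _
    rw [gV_end κ t u E ha, gV_end κ t u E ha]
  · intro a ha ih l l' hl
    rw [gV_step κ t u E ha, gV_step κ t u E ha]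
    split_ifs
    · exact ih _ _ (by omega)
    · exact le_rfl
    · exact add_le_add (hκ l l' hl) (mul_le_mul_of_nonneg_right
        (pow_le_pow_of_le_one ht ht1 hl) (gV_nonneg κ t u E hκ0 ht 1 (a + 1)))

end basic

/-! ### Lengths and distances to the left -/

lemma ll_succ_ne {u : ℤ → Sy} {a : ℤ} (h : u (a + 1) ≠ u a) : ll u (a + 1) = 1 := by
  unfold ll
  have h1 : 1 ∈ {j : ℕ | u (a + 1 - j) ≠ u (a + 1)} := by
    show u (a + 1 - ((1 : ℕ) : ℤ)) ≠ u (a + 1)
    rw [Nat.cast_one, add_sub_cancel_right]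
    exact fun h' => h h'.symm
  apply le_antisymm (Nat.sInf_le h1)
  apply Nat.pos_of_ne_zero
  intro h0
  rcases Nat.sInf_eq_zero.1 h0 with h2 | h2
  · have : u (a + 1 - ((0 : ℕ) : ℤ)) ≠ u (a + 1) := h2
    simp at this
  · rw [h2] at h1
    exact h1

lemma ll_succ_same {u : ℤ → Sy} {a : ℤ} (h : u (a + 1) = u a) (hne : ll u a ≠ 0) :
    ll u (a + 1) = ll u a + 1 := by
  have hS : {j : ℕ | u (a - j) ≠ u a}.Nonempty := by
    by_contra hc
    rw [Set.not_nonempty_iff_eq_empty] at hc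
    exact hne (by unfold ll; rw [hc]; exact Nat.sInf_empty)
  have hmem : u (a - (ll u a : ℕ)) ≠ u a := Nat.sInf_mem hS
  have hmin : ∀ j : ℕ, j < ll u a → u (a - j) = u a := by
    intro j hj
    by_contra hc
    exact absurd (Nat.sInf_le (show j ∈ {j : ℕ | u (a - j) ≠ u a} from hc)) (not_le.2 hj)
  have e1 : ∀ j : ℕ, a + 1 - ((j + 1 : ℕ) : ℤ) = a - j := fun j => by push_cast; ring
  have h1 : ll u a + 1 ∈ {j : ℕ | u (a + 1 - j) ≠ u (a + 1)} := by
    show u (a + 1 - ((ll u a + 1 : ℕ) : ℤ)) ≠ u (a + 1)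
    rw [e1, h]
    exact hmem
  apply le_antisymm (Nat.sInf_le h1)
  show ll u a + 1 ≤ sInf {j : ℕ | u (a + 1 - j) ≠ u (a + 1)}
  apply le_csInf ⟨_, h1⟩
  intro j hj
  have hj' : u (a + 1 - (j : ℤ)) ≠ u (a + 1) := hj
  rcases j with _ | j
  · simp at hj'
  · rw [e1, h] at hj'
    by_contra hc
    exact hj' (hmin j (by omega))

lemma dl_succ_star {u : ℤ → Sy} {a : ℤ} (h0 : u a = .s) (h : u (a + 1) ≠ .s) :
    dl u (a + 1) = 1 := by
  unfold dl
  have h1 : 1 ∈ {j : ℕ | u (a + 1 - j) = .s} := by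
    show u (a + 1 - ((1 : ℕ) : ℤ)) = .s
    rw [Nat.cast_one, add_sub_cancel_right]
    exact h0
  apply le_antisymm (Nat.sInf_le h1)
  apply Nat.pos_of_ne_zero
  intro h2
  rcases Nat.sInf_eq_zero.1 h2 with h3 | h3
  · have : u (a + 1 - ((0 : ℕ) : ℤ)) = .s := h3
    rw [Nat.cast_zero, sub_zero] at this
    exact h this
  · rw [h3] at h1
    exact h1

lemma dl_nonempty {u : ℤ → Sy} {a : ℤ} (h : dl u a ≠ 0) : {j : ℕ | u (a - j) = .s}.Nonempty := by
  by_contra hc
  rw [Set.not_nonempty_iff_eq_empty] at hc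
  exact h (by unfold dl; rw [hc]; exact Nat.sInf_empty)

lemma dl_mem {u : ℤ → Sy} {a : ℤ} (h : dl u a ≠ 0) : u (a - (dl u a : ℕ)) = .s :=
  Nat.sInf_mem (dl_nonempty h)

lemma dl_lt {u : ℤ → Sy} {a : ℤ} {j : ℕ} (h : j < dl u a) : u (a - j) ≠ .s := by
  intro hc
  exact absurd (Nat.sInf_le (show j ∈ {j : ℕ | u (a - j) = .s} from hc)) (not_le.2 h)

lemma dl_succ {u : ℤ → Sy} {a : ℤ} (h : u (a + 1) ≠ .s) (hne : dl u a ≠ 0) :
    dl u (a + 1) = dl u a + 1 := by
  have e1 : ∀ j : ℕ, a + 1 - ((j + 1 : ℕ) : ℤ) = a - j := fun j => by push_cast; ring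
  have h1 : dl u a + 1 ∈ {j : ℕ | u (a + 1 - j) = .s} := by
    show u (a + 1 - ((dl u a + 1 : ℕ) : ℤ)) = .s
    rw [e1]
    exact dl_mem hne
  apply le_antisymm (Nat.sInf_le h1)
  show dl u a + 1 ≤ sInf {j : ℕ | u (a + 1 - j) = .s}
  apply le_csInf ⟨_, h1⟩
  intro j hj
  have hj' : u (a + 1 - (j : ℤ)) = .s := hj
  rcases j with _ | j
  · rw [Nat.cast_zero, sub_zero] at hj'
    exact absurd hj' h
  · rw [e1] at hj'
    by_contra hc
    exact dl_lt (show j < dl u a by omega) hj'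

/-- no star on the left -/
lemma dl_zero_iff {u : ℤ → Sy} {a : ℤ} (h : u a ≠ .s) : dl u a = 0 ↔ ∀ k, k ≤ a → u k ≠ .s := by
  constructor
  · intro h0 k hk hks
    have h1 : (a - k).toNat ∈ {j : ℕ | u (a - j) = .s} := by
      show u (a - ((a - k).toNat : ℕ)) = .s
      rw [Int.toNat_of_nonneg (by omega), sub_sub_cancel]
      exact hks
    rcases Nat.sInf_eq_zero.1 (show sInf {j : ℕ | u (a - j) = .s} = 0 from h0) with h2 | h2
    · have : u (a - ((0 : ℕ) : ℤ)) = .s := h2
      rw [Nat.cast_zero, sub_zero] at this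
      exact h this
    · rw [h2] at h1
      exact h1
  · intro h1
    by_contra h0
    exact h1 _ (by omega) (dl_mem h0)

/-- if there is a star on the left the run is finite and shorter than the distance -/
lemma ll_pos_le {u : ℤ → Sy} {a : ℤ} (hu : u a ≠ .s) (h : dl u a ≠ 0) :
    ll u a ≠ 0 ∧ ll u a ≤ dl u a := by
  have h1 : dl u a ∈ {j : ℕ | u (a - j) ≠ u a} := by
    show u (a - (dl u a : ℕ)) ≠ u a
    rw [dl_mem h]
    exact fun h' => hu h'.symm
  refine ⟨fun h0 => ?_, Nat.sInf_le h1⟩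
  rcases Nat.sInf_eq_zero.1 (show sInf {j : ℕ | u (a - j) ≠ u a} = 0 from h0) with h2 | h2
  · have : u (a - ((0 : ℕ) : ℤ)) ≠ u a := h2
    simp at this
  · rw [h2] at h1
    exact h1

/-! ### The link with `ZL` and `SL` -/

/-- the summands -/
noncomputable def gW (κ : ℕ → ℝ) (t : ℝ) (u : ℤ → Sy) (p : ℤ) : ℝ :=
  ind (CW u p ∧ dl u p ≠ 0) * (t ^ (dl u p - ll u p) * κ (ll u p))

lemma gR_eq_aux (κ : ℕ → ℝ) (t : ℝ) (u : ℤ → Sy) (E : ℤ) : ∀ a : ℤ,
    ((u a = .s ∨ dl u a = 0) → gR κ t u E a = ∑ p ∈ Finset.Ico a E, gW κ t u p) ∧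
    (u a ≠ .s → dl u a ≠ 0 → t ^ (dl u a - ll u a) * gV κ t u E (ll u a) a + gR κ t u E a =
      ∑ p ∈ Finset.Ico a E, gW κ t u p) := by
  refine g_down E ?_ ?_
  · intro a ha
    rw [gR_end κ t u E ha, gV_end κ t u E ha, Finset.Ico_eq_empty (by omega), Finset.sum_empty]
    simp
  · intro a ha ih
    have hS : ∑ p ∈ Finset.Ico a E, gW κ t u p =
        gW κ t u a + ∑ p ∈ Finset.Ico (a + 1) E, gW κ t u p := by
      have h1 : Finset.Ico a E = insert a (Finset.Ico (a + 1) E) := by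
        ext k
        simp only [Finset.mem_insert, Finset.mem_Ico]
        omega
      rw [h1, Finset.sum_insert (by simp)]
    rw [hS]
    obtain ⟨ih1, ih2⟩ := ih
    constructor
    · intro h
      have hW : gW κ t u a = 0 := by
        unfold gW
        rw [ind_false, zero_mul]
        rintro ⟨h1, h2⟩
        rcases h with h | h
        · exact h1.1 h
        · exact h2 h
      rw [hW, zero_add, gR_step κ t u E ha]
      by_cases hs : u a = .s
      · by_cases hs1 : u (a + 1) = .s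
        · rw [ind_false (fun hc => hc.2 hs1), zero_mul, zero_add]
          exact ih1 (Or.inl hs1)
        · have h2 := ih2 hs1 (by rw [dl_succ_star hs hs1]; exact one_ne_zero)
          rw [dl_succ_star hs hs1, ll_succ_ne (by rw [hs]; exact hs1)] at h2
          rw [ind_true ⟨hs, hs1⟩, one_mul, ← h2]
          simp
      · have h0 : dl u a = 0 := by tauto
        rw [ind_false (fun hc => hs hc.1), zero_mul, zero_add]
        by_cases hs1 : u (a + 1) = .s
        · exact ih1 (Or.inl hs1)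
        · refine ih1 (Or.inr ?_)
          rw [dl_zero_iff hs] at h0
          rw [dl_zero_iff hs1]
          intro k hk
          rcases eq_or_lt_of_le hk with h3 | h3
          · rw [h3]; exact hs1
          · exact h0 k (by omega)
    · intro hs hd
      obtain ⟨hl0, hll⟩ := ll_pos_le hs hd
      rw [gR_step κ t u E ha, ind_false (fun hc => hs hc.1), zero_mul, zero_add,
        gV_step κ t u E ha]
      by_cases h1 : u (a + 1) = u a
      · have hs1 : u (a + 1) ≠ .s := by rw [h1]; exact hs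
        have hW : gW κ t u a = 0 := by
          unfold gW
          rw [ind_false, zero_mul]
          rintro ⟨h2, -⟩
          exact h2.2.2 h1.symm
        have h2 := ih2 hs1 (by rw [dl_succ hs1 hd]; omega)
        rw [dl_succ hs1 hd, ll_succ_same h1 hl0] at h2
        rw [if_pos h1, hW, zero_add, ← h2]
        congr 3
        omega
      · rw [if_neg h1]
        by_cases hs1 : u (a + 1) = .s
        · have hW : gW κ t u a = 0 := by
            unfold gW
            rw [ind_false, zero_mul]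
            rintro ⟨h2, -⟩
            exact h2.2.1 hs1
          rw [if_pos (Or.inr hs1), hW, mul_zero]
          rw [ih1 (Or.inl hs1)]
        · rw [if_neg (by tauto)]
          have hW : gW κ t u a = t ^ (dl u a - ll u a) * κ (ll u a) := by
            unfold gW
            rw [ind_true ⟨⟨hs, hs1, fun h => h1 h.symm⟩, hd⟩, one_mul]
          have h2 := ih2 hs1 (by rw [dl_succ hs1 hd]; omega)
          rw [dl_succ hs1 hd, ll_succ_ne h1] at h2
          rw [hW, ← h2, Nat.add_sub_cancel]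
          have h3 : t ^ dl u a = t ^ (dl u a - ll u a) * t ^ ll u a := by
            rw [← pow_add]
            congr 1
            omega
          rw [h3]
          ring

lemma CW_abs {N : ℕ} {u : ℤ → Sy} (h : Sup N u) {p : ℤ} (hp : CW u p) :
    -((N : ℤ) + 1) ≤ p ∧ p ≤ N := by
  by_contra hc
  have h1 : (N : ℤ) < |p| := by
    rcases abs_cases p with ⟨h1, _⟩ | ⟨h1, _⟩ <;> omega
  have h2 : (N : ℤ) < |p + 1| := by
    rcases abs_cases (p + 1) with ⟨h1, _⟩ | ⟨h1, _⟩ <;> omega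
  exact hp.2.2 (by rw [h p h1, h (p + 1) h2])

/-- the sum over all common walls is `gR` -/
lemma gR_eq (κ : ℕ → ℝ) (t : ℝ) {u : ℤ → Sy} {N : ℕ} (h : Sup N u) {E a : ℤ} (hE : (N : ℤ) < E)
    (ha : a < -((N : ℤ) + 1)) : ∑ᶠ p, gW κ t u p = gR κ t u E a := by
  have hz : ∀ k, k ≤ a → u k ≠ .s := by
    intro k hk
    have h1 : (N : ℤ) < |k| := by
      rcases abs_cases k with ⟨h1, _⟩ | ⟨h1, _⟩ <;> omega
    rw [h k h1]
    exact fun h => by cases h
  rw [(gR_eq_aux κ t u E a).1 (Or.inr ((dl_zero_iff (hz a le_rfl)).2 hz))]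
  apply finsum_eq_sum_of_support_subset
  intro p hp
  rw [Function.mem_support] at hp
  rw [Finset.mem_coe, Finset.mem_Ico]
  have hc : CW u p := by
    by_contra hc
    exact hp (by unfold gW; rw [ind_false (fun h' => hc h'.1), zero_mul])
  have := CW_abs h hc
  omega

lemma ZL_eq (D : ℕ) {u : ℤ → Sy} {N : ℕ} (h : Sup N u) {E a : ℤ} (hE : (N : ℤ) < E)
    (ha : a < -((N : ℤ) + 1)) : ZL D u = gR (kap D) (th D) u E a :=
  gR_eq (kap D) (th D) h hE ha

lemma SL_eq (D : ℕ) {u : ℤ → Sy} {N : ℕ} (h : Sup N u) {E a : ℤ} (hE : (N : ℤ) < E)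
    (ha : a < -((N : ℤ) + 1)) : SL D u = gR (fun l => ind (l ≤ 3)) (th D) u E a := by
  rw [← gR_eq _ (th D) h hE ha]
  unfold SL gW
  refine finsum_congr fun p => ?_
  rw [ind_congr (show (CW u p ∧ dl u p ≠ 0 ∧ ll u p ≤ 3) ↔ ((CW u p ∧ dl u p ≠ 0) ∧ ll u p ≤ 3) by
    tauto), ind_and]
  ring

end Pool.Agent.T3M
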