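import Mathlib
import Pool.Agent.T3M.Defs
import Pool.Agent.T3M.Ba
import Pool.Agent.T3M.MGap

/-! The effect of a single mark on a window of five sites (helper77).

`Rf_ext` gives the configuration after a mark, from the letters at `i - 2, …, i + 2`. The lemmas
`win_*` list the windows near the end of a run; `SF F u i` is the sum of the changes of `F` for both
marks at `i`. -/

set_option autoImplicit false

namespace Pool.Agent.T3M

/-! ### The flip table on letters -/

/-- one projection of the flip table: left of the mark, at the mark, right of the mark -/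
def fL (b p2 p1 p0 : Bool) : Bool := if p0 = b then p1 else if p1 = b then b else p2

def fS (b p2 p1 p0 n1 n2 : Bool) : Bool :=
  if p0 = b then b else if p1 = b ∨ n1 = b then b else maj3 p2 (!b) n2

def fR (b p0 n1 n2 : Bool) : Bool := if p0 = b then n1 else if n1 = b then b else n2

def rL (b : Bool) (p2 p1 p0 : Sy) : Sy := mk (fL b p2.lo p1.lo p0.lo) (fL b p2.hi p1.hi p0.hi)

def rS (b : Bool) (p2 p1 p0 n1 n2 : Sy) : Sy :=
  mk (fS b p2.lo p1.lo p0.lo n1.lo n2.lo) (fS b p2.hi p1.hi p0.hi n1.hi n2.hi)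

def rR (b : Bool) (p0 n1 n2 : Sy) : Sy := mk (fR b p0.lo n1.lo n2.lo) (fR b p0.hi n1.hi n2.hi)

lemma fL_eq {x : ℤ → Bool} (h : Rtb x) (i : ℤ) (b : Bool) :
    Rfb i b x (i - 1) = fL b (x (i - 2)) (x (i - 1)) (x i) := by
  unfold fL
  by_cases hb : x i = b
  · rw [Rfb_same h hb, if_pos hb]
  · rw [Rfb_left h (by revert hb; cases x i <;> cases b <;> simp), if_neg hb]

lemma fS_eq {x : ℤ → Bool} (h : Rtb x) (i : ℤ) (b : Bool) :
    Rfb i b x i = fS b (x (i - 2)) (x (i - 1)) (x i) (x (i + 1)) (x (i + 2)) := by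
  unfold fS
  by_cases hb : x i = b
  · rw [Rfb_same h hb, if_pos hb, hb]
  · rw [Rfb_self h (by revert hb; cases x i <;> cases b <;> simp), if_neg hb]

lemma fR_eq {x : ℤ → Bool} (h : Rtb x) (i : ℤ) (b : Bool) :
    Rfb i b x (i + 1) = fR b (x i) (x (i + 1)) (x (i + 2)) := by
  unfold fR
  by_cases hb : x i = b
  · rw [Rfb_same h hb, if_pos hb]
  · rw [Rfb_right h (by revert hb; cases x i <;> cases b <;> simp), if_neg hb]

lemma rL_eq {u : ℤ → Sy} (h : Rt u) (i : ℤ) (b : Bool) :
    Rf i b u (i - 1) = rL b (u (i - 2)) (u (i - 1)) (u i) := by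
  rw [← mk_lo_hi (Rf i b u (i - 1))]
  change mk (x0 (Rf i b u) (i - 1)) (x1 (Rf i b u) (i - 1)) = _
  rw [x0_Rf, x1_Rf, fL_eq h.zero, fL_eq h.one]
  rfl

lemma rS_eq {u : ℤ → Sy} (h : Rt u) (i : ℤ) (b : Bool) :
    Rf i b u i = rS b (u (i - 2)) (u (i - 1)) (u i) (u (i + 1)) (u (i + 2)) := by
  rw [← mk_lo_hi (Rf i b u i)]
  change mk (x0 (Rf i b u) i) (x1 (Rf i b u) i) = _
  rw [x0_Rf, x1_Rf, fS_eq h.zero, fS_eq h.one]
  rfl

lemma rR_eq {u : ℤ → Sy} (h : Rt u) (i : ℤ) (b : Bool) :
    Rf i b u (i + 1) = rR b (u i) (u (i + 1)) (u (i + 2)) := by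
  rw [← mk_lo_hi (Rf i b u (i + 1))]
  change mk (x0 (Rf i b u) (i + 1)) (x1 (Rf i b u) (i + 1)) = _
  rw [x0_Rf, x1_Rf, fR_eq h.zero, fR_eq h.one]
  rfl

/-- how to recognise the configuration after a mark -/
lemma Rf_ext {u v : ℤ → Sy} (h : Rt u) {i : ℤ} {b : Bool}
    (hL : v (i - 1) = rL b (u (i - 2)) (u (i - 1)) (u i))
    (hS : v i = rS b (u (i - 2)) (u (i - 1)) (u i) (u (i + 1)) (u (i + 2)))
    (hR : v (i + 1) = rR b (u i) (u (i + 1)) (u (i + 2)))
    (hf : ∀ k, k ≠ i - 1 → k ≠ i → k ≠ i + 1 → v k = u k) : Rf i b u = v := by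
  funext k
  by_cases h1 : k = i - 1
  · rw [h1, hL, rL_eq h]
  by_cases h2 : k = i
  · rw [h2, hS, rS_eq h]
  by_cases h3 : k = i + 1
  · rw [h3, hR, rR_eq h]
  rw [hf k h1 h2 h3]
  refine Rf_far h b ?_
  rcases abs_cases (k - i) with ⟨h4, _⟩ | ⟨h4, _⟩ <;> omega

/-! ### The root condition on letters -/

def rc (p q r : Sy) : Bool := decide (med p q r = q)

lemma Rt.rc {u : ℤ → Sy} (h : Rt u) (i : ℤ) :
    Pool.Agent.T3M.rc (u (i - 1)) (u i) (u (i + 1)) = true := by
  unfold Pool.Agent.T3M.rc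
  rw [decide_eq_true_iff]
  exact h i

/-- a colour run has length at least two: first letters -/
lemma Rt.next {u : ℤ → Sy} (h : Rt u) {b : ℤ} (h1 : u b ≠ u (b - 1)) (h2 : u b ≠ .s) :
    u (b + 1) = u b := by
  have h3 := h.rc b
  revert h1 h2 h3
  generalize u (b - 1) = p
  generalize u b = q
  generalize u (b + 1) = r
  revert p q r
  decide

lemma Rt.prev {u : ℤ → Sy} (h : Rt u) {b : ℤ} (h1 : u b ≠ u (b + 1)) (h2 : u b ≠ .s) :
    u (b - 1) = u b := by
  have h3 := h.rc b
  revert h1 h2 h3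
  generalize u (b - 1) = p
  generalize u b = q
  generalize u (b + 1) = r
  revert p q r
  decide

/-- a star run of length one: different colours on both sides -/
lemma Rt.one_star {u : ℤ → Sy} (h : Rt u) {b : ℤ} (h0 : u b = .s) (h1 : u (b - 1) ≠ .s)
    (h2 : u (b + 1) ≠ .s) : u (b - 1) ≠ u (b + 1) := by
  have h3 := h.rc b
  revert h0 h1 h2 h3
  generalize u (b - 1) = p
  generalize u b = q
  generalize u (b + 1) = r
  revert p q r
  decide

/-! ### Sums over both marks -/

/-- the change of `F` for both marks at `i` -/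
noncomputable def SF (F : (ℤ → Sy) → ℝ) (u : ℤ → Sy) (i : ℤ) : ℝ :=
  (F (Rf i false u) - F u) + (F (Rf i true u) - F u)

lemma SF_two {F : (ℤ → Sy) → ℝ} {u v w : ℤ → Sy} {i : ℤ} {b : Bool} (h1 : Rf i b u = v)
    (h2 : Rf i (!b) u = w) : SF F u i = (F v - F u) + (F w - F u) := by
  unfold SF
  cases b
  · rw [h1]
    rw [Bool.not_false] at h2
    rw [h2]
  · rw [h1]
    rw [Bool.not_true] at h2
    rw [h2]
    ring

lemma SF_one {F : (ℤ → Sy) → ℝ} {u v : ℤ → Sy} {i : ℤ} {b : Bool} (h1 : Rf i b u = v)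
    (h2 : Rf i (!b) u = u) : SF F u i = F v - F u := by
  rw [SF_two h1 h2, sub_self, add_zero]

/-- the two results of the marks on a window of five letters -/
def Wn (p2 p1 p0 n1 n2 x y w x' y' w' : Sy) : Prop :=
  ∃ b : Bool, (x = rL b p2 p1 p0 ∧ y = rS b p2 p1 p0 n1 n2 ∧ w = rR b p0 n1 n2) ∧
    (x' = rL (!b) p2 p1 p0 ∧ y' = rS (!b) p2 p1 p0 n1 n2 ∧ w' = rR (!b) p0 n1 n2)

/-- the general form: two configurations given by their letters -/
lemma SF_win {F : (ℤ → Sy) → ℝ} {u v v' : ℤ → Sy} (h : Rt u) {i : ℤ}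
    {p2 p1 p0 n1 n2 x y w x' y' w' : Sy} (hw : Wn p2 p1 p0 n1 n2 x y w x' y' w')
    (e2 : u (i - 2) = p2) (e1 : u (i - 1) = p1) (e0 : u i = p0) (d1 : u (i + 1) = n1)
    (d2 : u (i + 2) = n2)
    (v1 : v (i - 1) = x) (v2 : v i = y) (v3 : v (i + 1) = w)
    (hv : ∀ k, k ≠ i - 1 → k ≠ i → k ≠ i + 1 → v k = u k)
    (w1 : v' (i - 1) = x') (w2 : v' i = y') (w3 : v' (i + 1) = w')
    (hw' : ∀ k, k ≠ i - 1 → k ≠ i → k ≠ i + 1 → v' k = u k) :
    SF F u i = (F v - F u) + (F v' - F u) := by
  obtain ⟨b, ⟨a1, a2, a3⟩, b1, b2, b3⟩ := hw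
  subst e2 e1 e0 d1 d2
  exact SF_two (b := b) (Rf_ext h (v1.trans a1) (v2.trans a2) (v3.trans a3) hv)
    (Rf_ext h (w1.trans b1) (w2.trans b2) (w3.trans b3) hw')

/-- one of the two marks has no effect -/
lemma SF_win1 {F : (ℤ → Sy) → ℝ} {u v : ℤ → Sy} (h : Rt u) {i : ℤ}
    {p2 p1 p0 n1 n2 x y w : Sy} (hw : Wn p2 p1 p0 n1 n2 x y w p1 p0 n1)
    (e2 : u (i - 2) = p2) (e1 : u (i - 1) = p1) (e0 : u i = p0) (d1 : u (i + 1) = n1)
    (d2 : u (i + 2) = n2)
    (v1 : v (i - 1) = x) (v2 : v i = y) (v3 : v (i + 1) = w)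
    (hv : ∀ k, k ≠ i - 1 → k ≠ i → k ≠ i + 1 → v k = u k) :
    SF F u i = F v - F u := by
  rw [SF_win (v' := u) h hw e2 e1 e0 d1 d2 v1 v2 v3 hv e1 e0 d1 (fun _ _ _ _ => rfl), sub_self,
    add_zero]

section windows

variable (p q r : Sy)

lemma W0 : Wn p p p p p p p p p p p := by
  unfold Wn; revert p; decide

/-- last site of a run -/
lemma W1 (hpq : p ≠ q) : Wn p p p q q p q q p p q := by
  unfold Wn; revert p q; decide

/-- last site but one of a run -/
lemma W2 (hpq : p ≠ q) : Wn p p p p q p p q p p p := by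
  unfold Wn; revert p q; decide

/-- first site of a run of length at least three -/
lemma W3 (hpq : p ≠ q) : Wn p p q q q p p q p q q := by
  unfold Wn; revert p q; decide

/-- second site of a run of length at least four -/
lemma W4 (hpq : p ≠ q) : Wn p q q q q p q q q q q := by
  unfold Wn; revert p q; decide

/-- first site of a colour run of length two -/
lemma W5 (hpq : p ≠ q) (hq : q ≠ .s) (hr : r ≠ q) : Wn p p q q r p p r p q q := by
  unfold Wn; revert p q r; decide

/-- second site of a colour run of length two -/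
lemma W6 (hpq : p ≠ q) (hq : q ≠ .s) (hr : r ≠ q) : Wn p q q r r p r r q q r := by
  unfold Wn; revert p q r; decide

/-- second site of a colour run of length three -/
lemma W7 (hpq : p ≠ q) (hq : q ≠ .s) (hr : r ≠ q) :
    Wn p q q q r p (if r = .s then .s else p) r q q q := by
  unfold Wn; revert p q r; decide

/-- first site of a star run of length two between different colours -/
lemma W8 (hp : p ≠ .s) (hr : r ≠ .s) (hpr : p ≠ r) : Wn p p .s .s r p p .s p .s r := by
  unfold Wn; revert p r; decide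

/-- second site of a star run of length two between different colours -/
lemma W9 (hp : p ≠ .s) (hr : r ≠ .s) (hpr : p ≠ r) : Wn p .s .s r r p .s r .s r r := by
  unfold Wn; revert p r; decide

/-- second site of a star run of length three between different colours -/
lemma W10 (hp : p ≠ .s) (hr : r ≠ .s) (hpr : p ≠ r) : Wn p .s .s .s r p .s .s .s .s r := by
  unfold Wn; revert p r; decide

end windows

/-! ### Marks near the boundary `b - 1 | b` between two runs -/

lemma upd_ne {u : ℤ → Sy} {i k : ℤ} {x : Sy} (h : k ≠ i) : Function.update u i x k = u k :=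
  Function.update_of_ne h x u

lemma upd_at {u : ℤ → Sy} {i k : ℤ} {x : Sy} (h : k = i) : Function.update u i x k = x := by
  rw [h, Function.update_self]

section marks

variable {F : (ℤ → Sy) → ℝ} {u : ℤ → Sy} (h : Rt u) {a b c : ℤ} {p q r : Sy}

include h

/-- marks inside a run have no effect -/
lemma SF_inside {i : ℤ} (hr : ∀ k, i - 2 ≤ k → k ≤ i + 2 → u k = p) : SF F u i = 0 := by
  rw [SF_win1 (F := F) (v := u) h (W0 p) (hr _ (by omega) (by omega)) (hr _ (by omega) (by omega))
    (hr _ (by omega) (by omega)) (hr _ (by omega) (by omega)) (hr _ (by omega) (by omega))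
    (hr _ (by omega) (by omega)) (hr _ (by omega) (by omega)) (hr _ (by omega) (by omega))
    (fun _ _ _ _ => rfl), sub_self]

/-- the last but one site of a run moves the boundary to the left -/
lemma SF_L2 (hpq : p ≠ q) (hr : ∀ k, b - 4 ≤ k → k < b → u k = p) (hb : u b = q) :
    SF F u (b - 2) = F (Function.update u (b - 1) q) - F u := by
  refine SF_win1 h (W2 p q hpq) (hr _ (by omega) (by omega)) (hr _ (by omega) (by omega))
    (hr _ (by omega) (by omega)) (hr _ (by omega) (by omega)) (by rw [sub_add_cancel]; exact hb)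
    ?_ ?_ ?_ (fun k h1 h2 h3 => upd_ne (by omega))
  · rw [upd_ne (by omega)]; exact hr _ (by omega) (by omega)
  · rw [upd_ne (by omega)]; exact hr _ (by omega) (by omega)
  · rw [upd_at (by omega)]

/-- the last site of a run moves the boundary to the left -/
lemma SF_L1 (hpq : p ≠ q) (hr : ∀ k, b - 3 ≤ k → k < b → u k = p) (hb : u b = q)
    (hb1 : u (b + 1) = q) : SF F u (b - 1) = F (Function.update u (b - 1) q) - F u := by
  refine SF_win1 h (W1 p q hpq) (hr _ (by omega) (by omega)) (hr _ (by omega) (by omega))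
    (hr _ (by omega) (by omega)) (by rw [sub_add_cancel]; exact hb)
    (by rw [show b - 1 + 2 = b + 1 by ring]; exact hb1)
    ?_ ?_ ?_ (fun k h1 h2 h3 => upd_ne (by omega))
  · rw [upd_ne (by omega)]; exact hr _ (by omega) (by omega)
  · rw [upd_at (by omega)]
  · rw [upd_ne (by omega), sub_add_cancel]; exact hb

/-- the first site of a run moves the boundary to the right -/
lemma SF_R1 (hpq : p ≠ q) (h2 : u (b - 2) = p) (h1 : u (b - 1) = p)
    (hr : ∀ k, b ≤ k → k < b + 3 → u k = q) :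
    SF F u b = F (Function.update u b p) - F u := by
  refine SF_win1 h (W3 p q hpq) h2 h1
    (hr _ (by omega) (by omega)) (hr _ (by omega) (by omega)) (hr _ (by omega) (by omega))
    ?_ ?_ ?_ (fun k h1 h2 h3 => upd_ne (by omega))
  · rw [upd_ne (by omega)]; exact h1
  · rw [upd_at (by omega)]
  · rw [upd_ne (by omega)]; exact hr _ (by omega) (by omega)

/-- the second site of a run moves the boundary to the right -/
lemma SF_R2 (hpq : p ≠ q) (h1 : u (b - 1) = p)
    (hr : ∀ k, b ≤ k → k < b + 4 → u k = q) :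
    SF F u (b + 1) = F (Function.update u b p) - F u := by
  refine SF_win1 h (W4 p q hpq) (by rw [show b + 1 - 2 = b - 1 by ring]; exact h1)
    (hr _ (by omega) (by omega))
    (hr _ (by omega) (by omega)) (hr _ (by omega) (by omega)) (hr _ (by omega) (by omega))
    ?_ ?_ ?_ (fun k h1 h2 h3 => upd_ne (by omega))
  · rw [upd_at (by omega)]
  · rw [upd_ne (by omega)]; exact hr _ (by omega) (by omega)
  · rw [upd_ne (by omega)]; exact hr _ (by omega) (by omega)

/-- first site of a colour run of length two -/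
lemma SF_K2 (hpq : p ≠ q) (hq : q ≠ .s) (hrq : r ≠ q) (h2 : u (b - 2) = p) (h1 : u (b - 1) = p)
    (e0 : u b = q) (e1 : u (b + 1) = q) (e2 : u (b + 2) = r) :
    SF F u b = F (Function.update (Function.update u b p) (b + 1) r) - F u := by
  refine SF_win1 h (W5 p q r hpq hq hrq) h2 h1 e0 e1 e2
    ?_ ?_ ?_ (fun k h1 h2 h3 => ?_)
  · rw [upd_ne (by omega), upd_ne (by omega)]; exact h1
  · rw [upd_ne (by omega), upd_at (by omega)]
  · rw [upd_at (by omega)]
  · rw [upd_ne (by omega), upd_ne (by omega)]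

/-- second site of a colour run of length two, if the next run is longer than one -/
lemma SF_K2' (hpq : p ≠ q) (hq : q ≠ .s) (hrq : r ≠ q) (h1 : u (b - 1) = p)
    (e0 : u b = q) (e1 : u (b + 1) = q) (e2 : u (b + 2) = r) (e3 : u (b + 3) = r) :
    SF F u (b + 1) = F (Function.update (Function.update u b p) (b + 1) r) - F u := by
  refine SF_win1 h (W6 p q r hpq hq hrq) (by rw [show b + 1 - 2 = b - 1 by ring]; exact h1)
    (by rw [add_sub_cancel_right]; exact e0) e1 (by rw [add_assoc]; exact e2)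
    (by rw [add_assoc]; exact e3)
    ?_ ?_ ?_ (fun k h1 h2 h3 => ?_)
  · rw [upd_ne (by omega), upd_at (by omega)]
  · rw [upd_at (by omega)]
  · rw [upd_ne (by omega), upd_ne (by omega), add_assoc]; exact e2
  · rw [upd_ne (by omega), upd_ne (by omega)]

/-- second site of a colour run of length three -/
lemma SF_K3 (hpq : p ≠ q) (hq : q ≠ .s) (hrq : r ≠ q) (h1 : u (b - 1) = p)
    (e0 : u b = q) (e1 : u (b + 1) = q) (e2 : u (b + 2) = q) (e3 : u (b + 3) = r) :
    SF F u (b + 1) = F (Function.update (Function.update (Function.update u b p) (b + 1)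
      (if r = .s then .s else p)) (b + 2) r) - F u := by
  refine SF_win1 h (W7 p q r hpq hq hrq) (by rw [show b + 1 - 2 = b - 1 by ring]; exact h1)
    (by rw [add_sub_cancel_right]; exact e0) e1 (by rw [add_assoc]; exact e2)
    (by rw [add_assoc]; exact e3)
    ?_ ?_ ?_ (fun k h1 h2 h3 => ?_)
  · rw [upd_ne (by omega), upd_ne (by omega), upd_at (by omega)]
  · rw [upd_ne (by omega), upd_at (by omega)]
  · rw [upd_at (by omega)]
  · rw [upd_ne (by omega), upd_ne (by omega), upd_ne (by omega)]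

/-- star run of length two between different colours, first site -/
lemma SF_S2 (hp : p ≠ .s) (hr : r ≠ .s) (hpr : p ≠ r) (h2 : u (b - 2) = p) (h1 : u (b - 1) = p)
    (e0 : u b = .s) (e1 : u (b + 1) = .s) (e2 : u (b + 2) = r) :
    SF F u b = (F (Function.update u b p) - F u) + (F (Function.update u (b + 1) r) - F u) := by
  refine SF_win h (W8 p r hp hr hpr) h2 h1 e0 e1 e2
    ?_ ?_ ?_ (fun k h1 h2 h3 => upd_ne (by omega)) ?_ ?_ ?_ (fun k h1 h2 h3 => upd_ne (by omega))
  · rw [upd_ne (by omega)]; exact h1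
  · rw [upd_at (by omega)]
  · rw [upd_ne (by omega)]; exact e1
  · rw [upd_ne (by omega)]; exact h1
  · rw [upd_ne (by omega)]; exact e0
  · rw [upd_at (by omega)]

/-- star run of length two between different colours, second site -/
lemma SF_S2' (hp : p ≠ .s) (hr : r ≠ .s) (hpr : p ≠ r) (h1 : u (b - 1) = p)
    (e0 : u b = .s) (e1 : u (b + 1) = .s) (e2 : u (b + 2) = r) (e3 : u (b + 3) = r) :
    SF F u (b + 1) =
      (F (Function.update u b p) - F u) + (F (Function.update u (b + 1) r) - F u) := by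
  refine SF_win h (W9 p r hp hr hpr) (by rw [show b + 1 - 2 = b - 1 by ring]; exact h1)
    (by rw [add_sub_cancel_right]; exact e0) e1 (by rw [add_assoc]; exact e2)
    (by rw [add_assoc]; exact e3)
    ?_ ?_ ?_ (fun k h1 h2 h3 => upd_ne (by omega)) ?_ ?_ ?_ (fun k h1 h2 h3 => upd_ne (by omega))
  · rw [upd_at (by omega)]
  · rw [upd_ne (by omega)]; exact e1
  · rw [upd_ne (by omega), add_assoc]; exact e2
  · rw [upd_ne (by omega), add_sub_cancel_right]; exact e0
  · rw [upd_at (by omega)]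
  · rw [upd_ne (by omega), add_assoc]; exact e2

/-- star run of length three between different colours, second site -/
lemma SF_S3 (hp : p ≠ .s) (hr : r ≠ .s) (hpr : p ≠ r) (h1 : u (b - 1) = p)
    (e0 : u b = .s) (e1 : u (b + 1) = .s) (e2 : u (b + 2) = .s) (e3 : u (b + 3) = r) :
    SF F u (b + 1) =
      (F (Function.update u b p) - F u) + (F (Function.update u (b + 2) r) - F u) := by
  refine SF_win h (W10 p r hp hr hpr) (by rw [show b + 1 - 2 = b - 1 by ring]; exact h1)
    (by rw [add_sub_cancel_right]; exact e0) e1 (by rw [add_assoc]; exact e2)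
    (by rw [add_assoc]; exact e3)
    ?_ ?_ ?_ (fun k h1 h2 h3 => upd_ne (by omega)) ?_ ?_ ?_ (fun k h1 h2 h3 => upd_ne (by omega))
  · rw [upd_at (by omega)]
  · rw [upd_ne (by omega)]; exact e1
  · rw [upd_ne (by omega), add_assoc]; exact e2
  · rw [upd_ne (by omega), add_sub_cancel_right]; exact e0
  · rw [upd_ne (by omega)]; exact e1
  · rw [upd_at (by omega)]

end marks

end Pool.Agent.T3M
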