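import Mathlib
import Pool.Agent.T3M.Defs
import Pool.Agent.T3M.Ba
import Pool.Agent.T3M.MGap
import Pool.Agent.T3M.MGapB
import Pool.Agent.T3M.MD3b

/-! Bounds for the views of gaps and the universal bound for the effect of a single mark
(helper77). -/

set_option autoImplicit false

namespace Pool.Agent.T3M

/-! ### The weight and the discount factor -/

lemma g_kap0 (D : ℕ) : kap D 0 = 1 := by
  unfold kap
  rw [if_pos (Nat.zero_le D)]
  simp

lemma g_kap_le {D : ℕ} (hD : 1 ≤ D) (l : ℕ) : kap D l ≤ 1 :=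
  (d3_kap_anti D hD (Nat.zero_le l)).trans_eq (g_kap0 D)

lemma g_th {D : ℕ} (hD : 1 ≤ D) : 0 ≤ th D ∧ th D ≤ 1 ∧ (1 - th D) * (2 * D) = 1 := by
  have h0 : (1 : ℝ) ≤ D := by exact_mod_cast hD
  have h1 : (1 : ℝ) / (2 * D) * (2 * D) = 1 := by field_simp
  have h2 : (0 : ℝ) ≤ 1 / (2 * D) := by positivity
  have h3 : (1 : ℝ) / (2 * D) ≤ 1 := by
    rw [div_le_one (by positivity)]
    linarith
  unfold th
  refine ⟨by linarith, by linarith, ?_⟩
  rw [sub_sub_cancel]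
  exact h1

/-! ### Bounds -/

section bounds

variable {κ : ℕ → ℝ} {t : ℝ} {u : ℤ → Sy} {E : ℤ}

/-- `(1 - t) V ≤ 1` -/
lemma g_crude (hκ1 : ∀ l, κ l ≤ 1) (ht : 0 ≤ t) (ht1 : t ≤ 1) {l : ℕ}
    (hl : 1 ≤ l) (a : ℤ) : (1 - t) * gV κ t u E l a ≤ 1 := by
  revert l
  refine g_down E (P := fun a => ∀ {l : ℕ}, 1 ≤ l → (1 - t) * gV κ t u E l a ≤ 1) ?_ ?_ a
  · intro a ha l _
    rw [gV_end κ t u E ha, mul_zero]
    exact zero_le_one
  · intro a ha ih l hl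
    rw [gV_step κ t u E ha]
    split_ifs
    · exact ih (by omega)
    · rw [mul_zero]; exact zero_le_one
    · have h1 := ih le_rfl
      have h2 : t ^ l ≤ t := by
        calc t ^ l ≤ t ^ 1 := pow_le_pow_of_le_one ht ht1 hl
          _ = t := pow_one t
      have h3 : 0 ≤ t ^ l := pow_nonneg ht l
      have h4 : t ^ l * ((1 - t) * gV κ t u E 1 (a + 1)) ≤ t ^ l * 1 :=
        mul_le_mul_of_nonneg_left h1 h3
      have h5 : (1 - t) * κ l ≤ (1 - t) * 1 := mul_le_mul_of_nonneg_left (hκ1 l) (by linarith)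
      nlinarith

/-- `(1 - t ^ 2) V ≤ 1` for runs of length at least two -/
lemma g_fine (hu : Rt u) (hκ1 : ∀ l, κ l ≤ 1) (ht : 0 ≤ t) (ht1 : t ≤ 1)
    (a : ℤ) : (∀ l : ℕ, 2 ≤ l → (1 - t ^ 2) * gV κ t u E l a ≤ 1) ∧
      (u (a + 1) = u a → (1 - t ^ 2) * gV κ t u E 1 a ≤ 1) := by
  have ht2 : 0 ≤ 1 - t ^ 2 := by nlinarith
  refine g_down E (P := fun a => (∀ l : ℕ, 2 ≤ l → (1 - t ^ 2) * gV κ t u E l a ≤ 1) ∧
      (u (a + 1) = u a → (1 - t ^ 2) * gV κ t u E 1 a ≤ 1)) ?_ ?_ a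
  · intro a ha
    refine ⟨fun l _ => ?_, fun _ => ?_⟩ <;>
    · rw [gV_end κ t u E ha, mul_zero]
      exact zero_le_one
  · intro a ha ih
    have key : ∀ l : ℕ, 2 ≤ l → (1 - t ^ 2) * gV κ t u E l a ≤ 1 := by
      intro l hl
      rw [gV_step κ t u E ha]
      split_ifs with h1 h2
      · exact ih.1 _ (by omega)
      · rw [mul_zero]; exact zero_le_one
      · push Not at h2
        have h3 : u (a + 1 + 1) = u (a + 1) :=
          hu.next (by rw [add_sub_cancel_right]; exact h1) h2.2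
        have h4 := ih.2 h3
        have h5 : t ^ l ≤ t ^ 2 := pow_le_pow_of_le_one ht ht1 hl
        have h6 : 0 ≤ t ^ l := pow_nonneg ht l
        have h7 : t ^ l * ((1 - t ^ 2) * gV κ t u E 1 (a + 1)) ≤ t ^ l * 1 :=
          mul_le_mul_of_nonneg_left h4 h6
        have h8 : (1 - t ^ 2) * κ l ≤ (1 - t ^ 2) * 1 := mul_le_mul_of_nonneg_left (hκ1 l) ht2
        nlinarith
    refine ⟨key, fun h1 => ?_⟩
    rw [gV_same κ t u E ha h1]
    exact ih.1 _ le_rfl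

/-- comparison of two states -/
lemma g_cmp (hκ : ∀ l, 0 ≤ κ l) (hκ1 : ∀ l, κ l ≤ 1) (ht : 0 ≤ t) (ht1 : t ≤ 1) {B : ℝ}
    (hB : 0 ≤ B) (hV : ∀ p, gV κ t u E 1 p ≤ B) {μ μ' : ℝ} (h1 : μ ≤ 1)
    (h0' : 0 ≤ μ') (l l' : ℕ) (p : ℤ) :
    μ * gV κ t u E l p - μ' * gV κ t u E l' p ≤ 1 + max 0 (μ * t ^ l - μ' * t ^ l') * B := by
  have hm : ∀ x : ℝ, 0 ≤ max 0 x * B := fun x => mul_nonneg (le_max_left _ _) hB
  revert l l'
  refine g_down E (P := fun p => ∀ l l' : ℕ,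
    μ * gV κ t u E l p - μ' * gV κ t u E l' p ≤ 1 + max 0 (μ * t ^ l - μ' * t ^ l') * B) ?_ ?_ p
  · intro a ha l l'
    rw [gV_end κ t u E ha, gV_end κ t u E ha]
    linarith [hm (μ * t ^ l - μ' * t ^ l')]
  · intro a ha ih l l'
    rw [gV_step κ t u E ha, gV_step κ t u E ha]
    split_ifs
    · refine (ih (l + 1) (l' + 1)).trans ?_
      have h2 : max 0 (μ * t ^ (l + 1) - μ' * t ^ (l' + 1)) ≤ max 0 (μ * t ^ l - μ' * t ^ l') := by
        apply max_le (le_max_left _ _)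
        have e : μ * t ^ (l + 1) - μ' * t ^ (l' + 1) = (μ * t ^ l - μ' * t ^ l') * t := by ring
        rw [e]
        calc (μ * t ^ l - μ' * t ^ l') * t ≤ max 0 (μ * t ^ l - μ' * t ^ l') * t :=
              mul_le_mul_of_nonneg_right (le_max_right _ _) ht
          _ ≤ max 0 (μ * t ^ l - μ' * t ^ l') * 1 :=
              mul_le_mul_of_nonneg_left ht1 (le_max_left _ _)
          _ = _ := mul_one _
      have h3 := mul_le_mul_of_nonneg_right h2 hB
      linarith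
    · linarith [hm (μ * t ^ l - μ' * t ^ l')]
    · have hW0 : 0 ≤ gV κ t u E 1 (a + 1) := gV_nonneg κ t u E hκ ht 1 (a + 1)
      have h2 : μ * κ l ≤ 1 := by
        calc μ * κ l ≤ 1 * 1 := mul_le_mul h1 (hκ1 l) (hκ l) zero_le_one
          _ = 1 := one_mul 1
      have h3 : 0 ≤ μ' * κ l' := mul_nonneg h0' (hκ l')
      have h4 : (μ * t ^ l - μ' * t ^ l') * gV κ t u E 1 (a + 1) ≤
          max 0 (μ * t ^ l - μ' * t ^ l') * B :=
        (mul_le_mul_of_nonneg_right (le_max_right _ _) hW0).trans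
          (mul_le_mul_of_nonneg_left (hV (a + 1)) (le_max_left _ _))
      nlinarith

/-- a shift of the length at the cost of one weight -/
lemma gV_shift (hκ : ∀ l, 0 ≤ κ l) (hκa : ∀ l l', l ≤ l' → κ l' ≤ κ l) (ht : 0 ≤ t)
    (n l x : ℕ) (hx : x ≤ l + n) (p : ℤ) :
    gV κ t u E (l + n) p ≤ κ x + t ^ n * gV κ t u E l p := by
  revert l
  refine g_down E (P := fun p => ∀ l : ℕ, x ≤ l + n →
    gV κ t u E (l + n) p ≤ κ x + t ^ n * gV κ t u E l p) ?_ ?_ p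
  · intro a ha l _
    rw [gV_end κ t u E ha, gV_end κ t u E ha, mul_zero, add_zero]
    exact hκ x
  · intro a ha ih l hx
    rw [gV_step κ t u E ha, gV_step κ t u E ha]
    split_ifs
    · have := ih (l + 1) (by omega)
      rw [show l + 1 + n = l + n + 1 by ring] at this
      exact this
    · rw [mul_zero, add_zero]
      exact hκ x
    · have h1 := hκa x (l + n) hx
      have h2 : 0 ≤ t ^ n * κ l := mul_nonneg (pow_nonneg ht n) (hκ l)
      have h3 : t ^ (l + n) = t ^ n * t ^ l := by rw [pow_add]; ring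
      rw [h3]
      nlinarith

end bounds

/-! ### States -/

section states

variable (κ : ℕ → ℝ) (t : ℝ) (u : ℤ → Sy) (E : ℤ)

/-- the value of a state -/
noncomputable def Zst (s : ℝ × ℕ) (q : ℤ) : ℝ := s.1 * gV κ t u E s.2 q + gR κ t u E q

/-- the next state -/
noncomputable def gn (q : ℤ) (s : ℝ × ℕ) : ℝ × ℕ :=
  if u (q + 1) = u q then (s.1, s.2 + 1) else if u q = .s then (1, 1)
    else if u (q + 1) = .s then (0, 1) else (s.1 * t ^ s.2, 1)

/-- the term of a common wall -/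
noncomputable def gc (q : ℤ) (s : ℝ × ℕ) : ℝ :=
  if u (q + 1) = u q ∨ u q = .s ∨ u (q + 1) = .s then 0 else s.1 * κ s.2

lemma Zst_step {q : ℤ} (hq : q < E) (s : ℝ × ℕ) :
    Zst κ t u E s q = gc κ u q s + Zst κ t u E (gn t u q s) (q + 1) := by
  unfold Zst gn gc
  rw [gR_step κ t u E hq]
  by_cases h1 : u (q + 1) = u q
  · rw [if_pos (Or.inl h1), if_pos h1, gV_same κ t u E hq h1,
      ind_false (fun hc => hc.2 (h1.trans hc.1))]
    ring
  · by_cases h2 : u q = .s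
    · rw [if_pos (Or.inr (Or.inl h2)), if_neg h1, if_pos h2, gV_star κ t u E h2,
        ind_true ⟨h2, fun hc => h1 (hc.trans h2.symm)⟩]
      ring
    · by_cases h3 : u (q + 1) = .s
      · rw [if_pos (Or.inr (Or.inr h3)), if_neg h1, if_neg h2, if_pos h3,
          gV_last κ t u E h1 h3, ind_false (fun hc => h2 hc.1)]
        ring
      · rw [if_neg (by tauto), if_neg h1, if_neg h2, if_neg h3, gV_wall κ t u E hq h2 h1 h3,
          ind_false (fun hc => h2 hc.1)]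
        ring

variable {κ t u E}

lemma gn_mem (ht : 0 ≤ t) (ht1 : t ≤ 1) {q : ℤ} {s : ℝ × ℕ} (h0 : 0 ≤ s.1) (h1 : s.1 ≤ 1) :
    0 ≤ (gn t u q s).1 ∧ (gn t u q s).1 ≤ 1 := by
  unfold gn
  split_ifs
  · exact ⟨h0, h1⟩
  · exact ⟨zero_le_one, le_rfl⟩
  · exact ⟨le_rfl, zero_le_one⟩
  · exact ⟨mul_nonneg h0 (pow_nonneg ht _), mul_le_one₀ h1 (pow_nonneg ht _)
      (pow_le_one₀ ht ht1)⟩

lemma gc_mem (hκ : ∀ l, 0 ≤ κ l) (hκ1 : ∀ l, κ l ≤ 1) {q : ℤ} {s : ℝ × ℕ} (h0 : 0 ≤ s.1)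
    (h1 : s.1 ≤ 1) : 0 ≤ gc κ u q s ∧ gc κ u q s ≤ 1 := by
  unfold gc
  split_ifs
  · exact ⟨le_rfl, zero_le_one⟩
  · exact ⟨mul_nonneg h0 (hκ _), mul_le_one₀ h1 (hκ _) (hκ1 _)⟩

/-- the effective weight -/
noncomputable def ef (t : ℝ) (s : ℝ × ℕ) : ℝ := s.1 * t ^ s.2

lemma ef_colour {q : ℤ} (s : ℝ × ℕ) (h1 : u q ≠ .s) (h2 : u (q + 1) ≠ .s) :
    ef t (gn t u q s) = ef t s * t := by
  unfold ef gn
  rw [if_neg h1, if_neg h2]
  split_ifs
  · dsimp only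
    rw [pow_succ, mul_assoc]
  · dsimp only
    rw [pow_one]

lemma ef_star {q : ℤ} (s : ℝ × ℕ) (h1 : u q = .s) (h2 : u (q + 1) ≠ .s) :
    ef t (gn t u q s) = t := by
  unfold ef gn
  rw [if_neg (fun h => h2 (h.trans h1)), if_pos h1]
  dsimp only
  rw [pow_one, one_mul]

/-- four steps -/
noncomputable def gn4 (t : ℝ) (u : ℤ → Sy) (q : ℤ) (s : ℝ × ℕ) : ℝ × ℕ :=
  gn t u (q + 3) (gn t u (q + 2) (gn t u (q + 1) (gn t u q s)))

lemma ef4_no (s : ℝ × ℕ) {q : ℤ} (h0 : u q ≠ .s) (h1 : u (q + 1) ≠ .s) (h2 : u (q + 2) ≠ .s)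
    (h3 : u (q + 3) ≠ .s) (h4 : u (q + 4) ≠ .s) : ef t (gn4 t u q s) = ef t s * t ^ 4 := by
  unfold gn4
  rw [ef_colour _ h3 (by rw [add_assoc]; exact h4), ef_colour _ h2 (by rw [add_assoc]; exact h3),
    ef_colour _ h1 (by rw [add_assoc]; exact h2), ef_colour _ h0 h1]
  ring

lemma ef4_first (s : ℝ × ℕ) {q : ℤ} (h0 : u q = .s) (h1 : u (q + 1) ≠ .s) (h2 : u (q + 2) ≠ .s)
    (h3 : u (q + 3) ≠ .s) (h4 : u (q + 4) ≠ .s) : ef t (gn4 t u q s) = t ^ 4 := by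
  unfold gn4
  rw [ef_colour _ h3 (by rw [add_assoc]; exact h4), ef_colour _ h2 (by rw [add_assoc]; exact h3),
    ef_colour _ h1 (by rw [add_assoc]; exact h2), ef_star _ h0 h1]
  ring

lemma ef4_some (ht : 0 ≤ t) (ht1 : t ≤ 1) (s : ℝ × ℕ) {q : ℤ}
    (h : u q = .s ∨ u (q + 1) = .s ∨ u (q + 2) = .s ∨ u (q + 3) = .s) (h4 : u (q + 4) ≠ .s) :
    t ^ 4 ≤ ef t (gn4 t u q s) ∧ ef t (gn4 t u q s) ≤ t := by
  have p : ∀ m n : ℕ, m ≤ n → t ^ n ≤ t ^ m := fun m n h => pow_le_pow_of_le_one ht ht1 h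
  have p4 := p 1 4 (by norm_num)
  have p3 := p 1 3 (by norm_num)
  have p2 := p 1 2 (by norm_num)
  have p43 := p 3 4 (by norm_num)
  have p42 := p 2 4 (by norm_num)
  rw [pow_one] at p4 p3 p2
  by_cases h3 : u (q + 3) = .s
  · unfold gn4
    rw [ef_star _ h3 (by rw [add_assoc]; exact h4)]
    exact ⟨p4, le_rfl⟩
  by_cases h2 : u (q + 2) = .s
  · unfold gn4
    rw [ef_colour _ h3 (by rw [add_assoc]; exact h4), ef_star _ h2 (by rw [add_assoc]; exact h3),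
      ← pow_two]
    exact ⟨p42, p2⟩
  by_cases h1 : u (q + 1) = .s
  · unfold gn4
    rw [ef_colour _ h3 (by rw [add_assoc]; exact h4), ef_colour _ h2 (by rw [add_assoc]; exact h3),
      ef_star _ h1 (by rw [add_assoc]; exact h2), show t * t * t = t ^ 3 by ring]
    exact ⟨p43, p3⟩
  · rw [ef4_first s (by tauto) h1 h2 h3 h4]
    exact ⟨le_rfl, p4⟩

lemma Zst_four {q : ℤ} (hq : q + 4 ≤ E) (s : ℝ × ℕ) : Zst κ t u E s q =
    (gc κ u q s + gc κ u (q + 1) (gn t u q s) + gc κ u (q + 2) (gn t u (q + 1) (gn t u q s)) +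
      gc κ u (q + 3) (gn t u (q + 2) (gn t u (q + 1) (gn t u q s)))) +
      Zst κ t u E (gn4 t u q s) (q + 4) := by
  unfold gn4
  rw [Zst_step κ t u E (by omega) s, Zst_step κ t u E (q := q + 1) (by omega),
    show q + 1 + 1 = q + 2 by ring, Zst_step κ t u E (q := q + 2) (by omega),
    show q + 2 + 1 = q + 3 by ring, Zst_step κ t u E (q := q + 3) (by omega),
    show q + 3 + 1 = q + 4 by ring]
  ring

/-- comparison of the values, if the configurations agree from `q + 4` on -/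
lemma Zst_cmp (hκ : ∀ l, 0 ≤ κ l) (hκ1 : ∀ l, κ l ≤ 1) (ht : 0 ≤ t) (ht1 : t ≤ 1) {B X : ℝ}
    (hB : 0 ≤ B) (hV : ∀ p, gV κ t u E 1 p ≤ B) (hX : 0 ≤ X) {v : ℤ → Sy} {q : ℤ} (hq : q + 4 ≤ E)
    (hv : ∀ k, q + 4 ≤ k → v k = u k) {s : ℝ × ℕ} (h0 : 0 ≤ s.1) (h1 : s.1 ≤ 1)
    (he : u (q + 4) ≠ .s → ef t (gn4 t v q s) - ef t (gn4 t u q s) ≤ X) :
    Zst κ t v E s q - Zst κ t u E s q ≤ 5 + X * B := by
  rw [Zst_four (u := v) hq, Zst_four (u := u) hq]
  have a1 := gn_mem (u := v) (q := q) ht ht1 h0 h1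
  have a2 := gn_mem (u := v) (q := q + 1) ht ht1 a1.1 a1.2
  have a3 := gn_mem (u := v) (q := q + 2) ht ht1 a2.1 a2.2
  have a4 := gn_mem (u := v) (q := q + 3) ht ht1 a3.1 a3.2
  have b1 := gn_mem (u := u) (q := q) ht ht1 h0 h1
  have b2 := gn_mem (u := u) (q := q + 1) ht ht1 b1.1 b1.2
  have b3 := gn_mem (u := u) (q := q + 2) ht ht1 b2.1 b2.2
  have b4 := gn_mem (u := u) (q := q + 3) ht ht1 b3.1 b3.2
  have c1 := (gc_mem (u := v) (q := q) hκ hκ1 h0 h1).2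
  have c2 := (gc_mem (u := v) (q := q + 1) hκ hκ1 a1.1 a1.2).2
  have c3 := (gc_mem (u := v) (q := q + 2) hκ hκ1 a2.1 a2.2).2
  have c4 := (gc_mem (u := v) (q := q + 3) hκ hκ1 a3.1 a3.2).2
  have d1 := (gc_mem (u := u) (q := q) hκ hκ1 h0 h1).1
  have d2 := (gc_mem (u := u) (q := q + 1) hκ hκ1 b1.1 b1.2).1
  have d3 := (gc_mem (u := u) (q := q + 2) hκ hκ1 b2.1 b2.2).1
  have d4 := (gc_mem (u := u) (q := q + 3) hκ hκ1 b3.1 b3.2).1
  have key : Zst κ t v E (gn4 t v q s) (q + 4) - Zst κ t u E (gn4 t u q s) (q + 4) ≤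
      1 + X * B := by
    unfold Zst
    have hvV : ∀ l, gV κ t v E l (q + 4) = gV κ t u E l (q + 4) :=
      gV_congr κ t E (fun k hk _ => hv k hk)
    rw [hvV, gR_congr κ t E (u := u) (u' := v) (fun k hk _ => hv k hk)]
    have hXB := mul_nonneg hX hB
    by_cases h4 : u (q + 4) = .s
    · rw [gV_star κ t u E h4, gV_star κ t u E h4]
      linarith
    · have h5 := g_cmp (u := u) (E := E) hκ hκ1 ht ht1 hB hV (μ := (gn4 t v q s).1)
        (μ' := (gn4 t u q s).1) a4.2 b4.1 (gn4 t v q s).2 (gn4 t u q s).2 (q + 4)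
      have h6 : max 0 ((gn4 t v q s).1 * t ^ (gn4 t v q s).2 -
          (gn4 t u q s).1 * t ^ (gn4 t u q s).2) ≤ X := max_le hX (he h4)
      have h7 := mul_le_mul_of_nonneg_right h6 hB
      linarith
  linarith

/-- the same from a site further left -/
lemma Zst_cmp' {C : ℝ} {v : ℤ → Sy} {q : ℤ} (ht : 0 ≤ t) (ht1 : t ≤ 1) (hq : q ≤ E)
    (hv : ∀ k, k ≤ q → v k = u k)
    (h : ∀ s : ℝ × ℕ, 0 ≤ s.1 → s.1 ≤ 1 → Zst κ t v E s q - Zst κ t u E s q ≤ C)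
    {a : ℤ} (ha : a ≤ q) {s : ℝ × ℕ} (h0 : 0 ≤ s.1) (h1 : s.1 ≤ 1) :
    Zst κ t v E s a - Zst κ t u E s a ≤ C := by
  obtain ⟨n, hn⟩ : ∃ n : ℕ, (n : ℤ) = q - a := ⟨(q - a).toNat, by omega⟩
  induction n generalizing a s with
  | zero =>
    have : a = q := by push_cast at hn; omega
    rw [this]
    exact h s h0 h1
  | succ n ih =>
    push_cast at hn
    rw [Zst_step κ t v E (by omega), Zst_step κ t u E (by omega)]
    have e1 : gn t v a s = gn t u a s := by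
      unfold gn
      rw [hv a ha, hv (a + 1) (by omega)]
    have e2 : gc κ v a s = gc κ u a s := by
      unfold gc
      rw [hv a ha, hv (a + 1) (by omega)]
    rw [e1, e2]
    have b1 := gn_mem (u := u) (q := a) ht ht1 h0 h1
    have := ih (a := a + 1) (by omega) b1.1 b1.2 (by omega)
    linarith

end states

/-! ### A single mark -/

lemma rS_star (b : Bool) : ∀ x0 x1 x2 x3 x4 : Sy, x0 = .s ∨ x1 = .s ∨ x2 = .s ∨ x3 = .s ∨
    x4 = .s ∨ rS b x0 x1 x2 x3 x4 ≠ .s := by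
  cases b <;> decide

lemma rL_star (b : Bool) : ∀ x0 x1 x2 : Sy, x0 = .s ∨ x1 = .s ∨ x2 = .s ∨
    rL b x0 x1 x2 ≠ .s := by
  cases b <;> decide

lemma rR_star (b : Bool) : ∀ x0 x1 x2 : Sy, x0 = .s ∨ x1 = .s ∨ x2 = .s ∨
    rR b x0 x1 x2 ≠ .s := by
  cases b <;> decide

/-- a mark creates a star only if there is a star nearby -/
lemma Rf_star {u : ℤ → Sy} (h : Rt u) {i : ℤ} {b : Bool} (h0 : u (i - 2) ≠ .s)
    (h1 : u (i - 1) ≠ .s) (h2 : u i ≠ .s) (h3 : u (i + 1) ≠ .s) (h4 : u (i + 2) ≠ .s) :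
    Rf i b u (i - 1) ≠ .s ∧ Rf i b u i ≠ .s ∧ Rf i b u (i + 1) ≠ .s := by
  rw [rL_eq h, rS_eq h, rR_eq h]
  have a1 := rL_star b (u (i - 2)) (u (i - 1)) (u i)
  have a2 := rS_star b (u (i - 2)) (u (i - 1)) (u i) (u (i + 1)) (u (i + 2))
  have a3 := rR_star b (u i) (u (i + 1)) (u (i + 2))
  tauto

/-- UNIVERSAL BOUND for a single mark -/
theorem g_univ {D : ℕ} (hD : 1 ≤ D) {u : ℤ → Sy} (hu : Rt u) {E i a : ℤ} (hE : i + 2 ≤ E)
    (ha : a ≤ i - 2) (b : Bool) {s : ℝ × ℕ} (h0 : 0 ≤ s.1) (h1 : s.1 ≤ 1) :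
    Zst (kap D) (th D) (Rf i b u) E s a - Zst (kap D) (th D) u E s a ≤ 8 := by
  obtain ⟨t0, t1, tD⟩ := g_th hD
  have hD0 : (1 : ℝ) ≤ D := by exact_mod_cast hD
  refine Zst_cmp' (q := i - 2) t0 t1 (by omega) (fun k hk => Rf_far hu b ?_) ?_ ha h0 h1
  · rcases abs_cases (k - i) with ⟨h4, _⟩ | ⟨h4, _⟩ <;> omega
  intro s h0 h1
  have hV : ∀ p, gV (kap D) (th D) u E 1 p ≤ 2 * D := by
    intro p
    have h2 := g_crude (u := u) (E := E) (g_kap_le hD) t0 t1 (le_refl 1) p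
    have h3 : gV (kap D) (th D) u E 1 p = (2 * D) * ((1 - th D) * gV (kap D) (th D) u E 1 p) := by
      rw [← mul_assoc, mul_comm (2 * (D : ℝ)) (1 - th D), tD, one_mul]
    rw [h3]
    nlinarith
  have key := Zst_cmp (κ := kap D) (t := th D) (u := u) (v := Rf i b u) (E := E) (q := i - 2)
    (s := s) (B := 2 * D) (X := 3 * (1 - th D)) (d3_kap_nonneg D) (g_kap_le hD) t0 t1
    (by linarith) hV (by linarith) (by omega) (fun k hk => Rf_far hu b (by
      rcases abs_cases (k - i) with ⟨h4, _⟩ | ⟨h4, _⟩ <;> omega)) h0 h1 ?_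
  · have : 3 * (1 - th D) * (2 * (D : ℝ)) = 3 := by rw [mul_assoc, tD, mul_one]
    rw [this] at key
    linarith
  intro h4
  have e1 : i - 2 + 1 = i - 1 := by ring
  have e2 : i - 2 + 2 = i := by ring
  have e3 : i - 2 + 3 = i + 1 := by ring
  have e4 : i - 2 + 4 = i + 2 := by ring
  have v0 : Rf i b u (i - 2) = u (i - 2) := Rf_far hu b (by
    rw [show i - 2 - i = -2 by ring]; norm_num)
  have v4 : Rf i b u (i + 2) = u (i + 2) := Rf_far hu b (by
    rw [show i + 2 - i = 2 by ring]; norm_num)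
  rw [e4] at h4
  have ht4 : th D - th D ^ 4 ≤ 3 * (1 - th D) := by
    have q2 : th D ^ 2 ≤ 1 := pow_le_one₀ t0 t1
    have q3 : 0 ≤ (1 - th D) * (1 - th D ^ 2) := mul_nonneg (by linarith) (by linarith)
    have q4 : 0 ≤ (1 - th D) * (1 - th D) := mul_nonneg (by linarith) (by linarith)
    have q5 : th D - th D ^ 4 = (1 - th D) * (th D + th D ^ 2 + th D ^ 3) := by ring
    have q6 : th D ^ 3 ≤ 1 := pow_le_one₀ t0 t1
    rw [q5, mul_comm (3 : ℝ)]
    exact mul_le_mul_of_nonneg_left (by linarith) (by linarith)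
  have hes : ef (th D) s ≤ 1 := mul_le_one₀ h1 (pow_nonneg t0 _) (pow_le_one₀ t0 t1)
  have hes0 : 0 ≤ ef (th D) s := mul_nonneg h0 (pow_nonneg t0 _)
  have hp4 : 0 ≤ th D ^ 4 := pow_nonneg t0 4
  by_cases hv : Rf i b u (i - 1) = .s ∨ Rf i b u i = .s ∨ Rf i b u (i + 1) = .s
  · have hus : u (i - 2) = .s ∨ u (i - 1) = .s ∨ u i = .s ∨ u (i + 1) = .s := by
      by_contra hc
      push Not at hc
      have := Rf_star hu (b := b) hc.1 hc.2.1 hc.2.2.1 hc.2.2.2 h4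
      tauto
    have b1 := (ef4_some (u := Rf i b u) (q := i - 2) t0 t1 s (by rw [e1, e2, e3]; tauto)
      (by rw [e4, v4]; exact h4)).2
    have b2 := (ef4_some (u := u) (q := i - 2) t0 t1 s (by rw [e1, e2, e3]; exact hus)
      (by rw [e4]; exact h4)).1
    linarith
  · push Not at hv
    have hX : 0 ≤ 3 * (1 - th D) := by linarith
    by_cases hs0 : u (i - 2) = .s
    · rw [ef4_first (u := Rf i b u) s (q := i - 2) (by rw [v0]; exact hs0)
        (by rw [e1]; exact hv.1) (by rw [e2]; exact hv.2.1) (by rw [e3]; exact hv.2.2)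
        (by rw [e4, v4]; exact h4)]
      have b2 := (ef4_some (u := u) (q := i - 2) t0 t1 s (by rw [e1, e2, e3]; tauto)
        (by rw [e4]; exact h4)).1
      linarith
    · rw [ef4_no (u := Rf i b u) s (q := i - 2) (by rw [v0]; exact hs0)
        (by rw [e1]; exact hv.1) (by rw [e2]; exact hv.2.1) (by rw [e3]; exact hv.2.2)
        (by rw [e4, v4]; exact h4)]
      by_cases hus : u (i - 1) = .s ∨ u i = .s ∨ u (i + 1) = .s
      · have b2 := (ef4_some (u := u) (q := i - 2) t0 t1 s (by rw [e1, e2, e3]; tauto)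
          (by rw [e4]; exact h4)).1
        nlinarith
      · push Not at hus
        rw [ef4_no (u := u) s (q := i - 2) hs0
          (by rw [e1]; exact hus.1) (by rw [e2]; exact hus.2.1) (by rw [e3]; exact hus.2.2)
          (by rw [e4]; exact h4), sub_self]
        exact hX

/-- the bound from below for a single mark -/
theorem g_univ_low {D : ℕ} (hD : 1 ≤ D) {u : ℤ → Sy} (hu : Rt u) {E i a : ℤ} (hE : i + 2 ≤ E)
    (ha : a ≤ i - 2) (b : Bool) {s : ℝ × ℕ} (h0 : 0 ≤ s.1) (h1 : s.1 ≤ 1) :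
    Zst (kap D) (th D) u E s a - Zst (kap D) (th D) (Rf i b u) E s a ≤ 5 + 2 * D := by
  obtain ⟨t0, t1, tD⟩ := g_th hD
  have hD0 : (1 : ℝ) ≤ D := by exact_mod_cast hD
  have far : ∀ k, k ≤ i - 2 ∨ i + 2 ≤ k → Rf i b u k = u k := by
    intro k hk
    refine Rf_far hu b ?_
    rcases abs_cases (k - i) with ⟨h4, _⟩ | ⟨h4, _⟩ <;> omega
  refine Zst_cmp' (u := Rf i b u) (v := u) (q := i - 2) t0 t1 (by omega)
    (fun k hk => (far k (by omega)).symm) ?_ ha h0 h1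
  intro s h0 h1
  have hV : ∀ p, gV (kap D) (th D) (Rf i b u) E 1 p ≤ 2 * D := by
    intro p
    have h2 := g_crude (u := Rf i b u) (E := E) (g_kap_le hD) t0 t1 (le_refl 1) p
    have h3 : gV (kap D) (th D) (Rf i b u) E 1 p =
        (2 * D) * ((1 - th D) * gV (kap D) (th D) (Rf i b u) E 1 p) := by
      rw [← mul_assoc, mul_comm (2 * (D : ℝ)) (1 - th D), tD, one_mul]
    rw [h3]
    nlinarith
  have key := Zst_cmp (κ := kap D) (t := th D) (u := Rf i b u) (v := u) (E := E) (q := i - 2)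
    (s := s) (B := 2 * D) (X := 1) (d3_kap_nonneg D) (g_kap_le hD) t0 t1
    (by linarith) hV zero_le_one (by omega) (fun k hk => (far k (by omega)).symm) h0 h1 ?_
  · rw [one_mul] at key
    exact key
  intro _
  have m1 : ∀ w : ℤ → Sy, 0 ≤ ef (th D) (gn4 (th D) w (i - 2) s) ∧
      ef (th D) (gn4 (th D) w (i - 2) s) ≤ 1 := by
    intro w
    have b1 := gn_mem (u := w) (q := i - 2) t0 t1 h0 h1
    have b2 := gn_mem (u := w) (q := i - 2 + 1) t0 t1 b1.1 b1.2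
    have b3 := gn_mem (u := w) (q := i - 2 + 2) t0 t1 b2.1 b2.2
    have b4 := gn_mem (u := w) (q := i - 2 + 3) t0 t1 b3.1 b3.2
    exact ⟨mul_nonneg b4.1 (pow_nonneg t0 _),
      mul_le_one₀ b4.2 (pow_nonneg t0 _) (pow_le_one₀ t0 t1)⟩
  linarith [(m1 u).2, (m1 (Rf i b u)).1]

end Pool.Agent.T3M
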