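import Mathlib
import Pool.Agent.T3M.Defs
import Pool.Agent.T3M.Ba
import Pool.Agent.T3M.MD3b
import Pool.Agent.T3M.MGapC

/-! Inequalities for the weight of a run, used for the drift of the gap functional (helper77). -/

set_option autoImplicit false

namespace Pool.Agent.T3M

/-- number of marks in a run of length `l` next to one of its ends which move this end -/
noncomputable def d4_nL (l : ℕ) : ℝ := if l ≤ 2 then 0 else if l = 3 then 1 else 2

/-- number of marks which kill a run of length `l`, seen from one of its ends -/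
noncomputable def d4_nK (l : ℕ) : ℝ := 2 - d4_nL l

lemma d4_nL2 : d4_nL 2 = 0 := by unfold d4_nL; simp

lemma d4_nL3 : d4_nL 3 = 1 := by unfold d4_nL; simp

lemma d4_nL4 {l : ℕ} (h : 4 ≤ l) : d4_nL l = 2 := by
  unfold d4_nL
  rw [if_neg (by omega), if_neg (by omega)]

lemma d4_nK2 : d4_nK 2 = 2 := by unfold d4_nK; rw [d4_nL2]; norm_num

lemma d4_nK3 : d4_nK 3 = 1 := by unfold d4_nK; rw [d4_nL3]; norm_num

lemma d4_nK4 {l : ℕ} (h : 4 ≤ l) : d4_nK l = 0 := by unfold d4_nK; rw [d4_nL4 h]; norm_num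

lemma d4_nL_mem (l : ℕ) : 0 ≤ d4_nL l ∧ d4_nL l ≤ 2 := by
  unfold d4_nL
  split_ifs <;> norm_num

lemma d4_nK_mem (l : ℕ) : 0 ≤ d4_nK l ∧ d4_nK l ≤ 2 := by
  have := d4_nL_mem l
  unfold d4_nK
  constructor <;> linarith

noncomputable def d4_ep (D : ℕ) : ℝ := 1 / (D : ℝ) ^ 2

noncomputable def d4_rho (D l : ℕ) : ℝ :=
  d4_nL l * (kap D (l - 1) - kap D l) + 2 * (kap D (l + 1) - kap D l) + d4_ep D * kap D l

noncomputable def d4_lw (D l : ℕ) : ℝ :=
  2 * ((th D)⁻¹ * kap D (l + 1) - kap D l) + d4_nL l * (th D * kap D (l - 1) - kap D l) -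
    d4_nK l * kap D l

section facts

variable {D : ℕ} (hD : 100 ≤ D)

include hD

lemma d4_ep_mem : 0 < d4_ep D ∧ d4_ep D ≤ 1 / 10000 := by
  have h0 : (100 : ℝ) ≤ D := by exact_mod_cast hD
  have h1 : (10000 : ℝ) ≤ (D : ℝ) ^ 2 := by nlinarith
  unfold d4_ep
  refine ⟨by positivity, ?_⟩
  rw [div_le_div_iff₀ (by positivity) (by norm_num)]
  linarith

/-- `x = 1 - th D` satisfies `4 x ^ 2 = ε` -/
lemma d4_th : 99 / 100 ≤ th D ∧ th D < 1 ∧ 4 * (1 - th D) ^ 2 = d4_ep D := by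
  have h0 : (100 : ℝ) ≤ D := by exact_mod_cast hD
  unfold th d4_ep
  refine ⟨?_, ?_, ?_⟩
  · have : 1 / (2 * (D : ℝ)) ≤ 1 / 100 := by
      rw [div_le_div_iff₀ (by positivity) (by norm_num)]
      linarith
    linarith
  · have : 0 < 1 / (2 * (D : ℝ)) := by positivity
    linarith
  · rw [sub_sub_cancel]
    field_simp
    norm_num

lemma d4_th_inv : (th D)⁻¹ ≤ 1 + (1 - th D) + 51 / 50 * (1 - th D) ^ 2 ∧ 1 ≤ (th D)⁻¹ ∧
    (th D)⁻¹ * th D = 1 := by
  obtain ⟨h1, h2, -⟩ := d4_th hD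
  have h3 : 0 < th D := by linarith
  refine ⟨?_, ?_, inv_mul_cancel₀ h3.ne'⟩
  · rw [inv_le_comm₀ h3 (by nlinarith)]
    rw [inv_le_iff_one_le_mul₀ (by nlinarith)]
    nlinarith [sq_nonneg (1 - th D), mul_nonneg (sq_nonneg (1 - th D)) (by linarith : 0 ≤ 1 - th D)]
  · exact (one_le_inv₀ h3).2 h2.le

lemma d4_pow {l : ℕ} (hl : D ≤ l) : th D ^ l ≤ 2 / 3 := by
  obtain ⟨h1, h2, -⟩ := d4_th hD
  have h0 : (100 : ℝ) ≤ D := by exact_mod_cast hD
  have h3 : 0 ≤ th D := by linarith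
  have h4 : th D ^ l ≤ th D ^ D := pow_le_pow_of_le_one h3 h2.le hl
  have h5 : 1 + (D : ℝ) * (1 / (2 * D)) ≤ (1 + 1 / (2 * (D : ℝ))) ^ D :=
    one_add_mul_le_pow (by
      have : 0 ≤ 1 / (2 * (D : ℝ)) := by positivity
      linarith) D
  have h6 : 1 + (D : ℝ) * (1 / (2 * D)) = 3 / 2 := by
    field_simp
    norm_num
  have h7 : th D ^ D * (1 + 1 / (2 * (D : ℝ))) ^ D ≤ 1 := by
    rw [← mul_pow]
    apply pow_le_one₀
    · positivity
    · unfold th
      have : 0 ≤ (1 / (2 * (D : ℝ))) ^ 2 := by positivity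
      nlinarith
  have h8 : 0 ≤ th D ^ D := pow_nonneg h3 D
  rw [h6] at h5
  nlinarith

lemma d4_k2 : kap D 2 = 1 - 2 * d4_ep D := by
  rw [d3_kap_small D 2 (by omega)]; unfold d4_ep; push_cast; ring

lemma d4_k3 : kap D 3 = 1 - 9 / 2 * d4_ep D := by
  rw [d3_kap_small D 3 (by omega)]; unfold d4_ep; push_cast; ring

lemma d4_k4 : kap D 4 = 1 - 8 * d4_ep D := by
  rw [d3_kap_small D 4 (by omega)]; unfold d4_ep; push_cast; ring

/-- second difference below `D` -/
lemma d4_sec_small {l : ℕ} (h1 : 1 ≤ l) (h : l + 1 ≤ D) :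
    kap D (l - 1) + kap D (l + 1) - 2 * kap D l = - d4_ep D := by
  rw [d3_kap_small D (l - 1) (by omega), d3_kap_small D (l + 1) h, d3_kap_small D l (by omega)]
  unfold d4_ep
  rw [Nat.cast_sub h1]
  push_cast
  ring

lemma d4_sec {l : ℕ} (h1 : 1 ≤ l) :
    kap D (l - 1) + kap D (l + 1) - 2 * kap D l ≤ d4_ep D := by
  have := d3_kap_second D (l - 1) (by omega)
  rw [show l - 1 + 2 = l + 1 by omega, show l - 1 + 1 = l by omega] at this
  exact this

lemma d4_half {l : ℕ} (h : D ≤ l) : kap D l ≤ 1 / 2 := by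
  have h0 : (100 : ℝ) ≤ D := by exact_mod_cast hD
  refine (d3_kap_anti D (by omega) h).trans ?_
  rw [d3_kap_small D D le_rfl]
  have : (D : ℝ) ^ 2 / 2 * (1 / (D : ℝ) ^ 2) = 1 / 2 := by field_simp
  rw [this]
  norm_num

lemma d4_rho_le (l : ℕ) (hl : 2 ≤ l) : d4_rho D l ≤ 3 := by
  have h1 := g_kap_le (D := D) (by omega) (l - 1)
  have h2 := d3_kap_nonneg D l
  have h2' := g_kap_le (D := D) (by omega) l
  have h3 := d3_kap_anti D (by omega) (show l ≤ l + 1 by omega)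
  obtain ⟨h4, h5⟩ := d4_nL_mem l
  obtain ⟨h6, h7⟩ := d4_ep_mem hD
  have h8 := d3_kap_anti D (by omega) (show l - 1 ≤ l by omega)
  unfold d4_rho
  nlinarith

/-- the inequality for the runs in the middle -/
lemma d4_star (l : ℕ) (hl : 2 ≤ l) : d4_rho D l + d4_lw D l ≤
    -(1 / 4) * ind (l ≤ 3) + (1 - th D ^ l) * (16 * d4_ep D) := by
  obtain ⟨t1, t2, t3⟩ := d4_th hD
  obtain ⟨i1, i2, i3⟩ := d4_th_inv hD
  obtain ⟨e1, e2⟩ := d4_ep_mem hD
  have hp : th D ^ l ≤ 1 := pow_le_one₀ (by linarith) t2.le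
  have hpos : 0 ≤ (1 - th D ^ l) * (16 * d4_ep D) := mul_nonneg (by linarith) (by linarith)
  unfold d4_rho d4_lw
  rcases Nat.lt_or_ge l 4 with h4 | h4
  · have hl' : l = 2 ∨ l = 3 := by omega
    rcases hl' with h | h
    · subst h
      rw [d4_nL2, d4_nK2, ind_true (by norm_num), d4_k2 hD, d4_k3 hD]
      have i4 : (th D)⁻¹ * (1 - 9 / 2 * d4_ep D) ≤ (th D)⁻¹ := by nlinarith
      nlinarith
    · subst h
      rw [d4_nL3, d4_nK3, ind_true (by norm_num)]
      norm_num only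
      rw [d4_k2 hD, d4_k3 hD, d4_k4 hD]
      have i4 : (th D)⁻¹ * (1 - 8 * d4_ep D) ≤ (th D)⁻¹ := by nlinarith
      nlinarith
  · rw [d4_nL4 h4, d4_nK4 h4, ind_false (by omega)]
    have k0 := d3_kap_nonneg D (l + 1)
    have k0' := d3_kap_nonneg D l
    have k1 := d3_kap_anti D (by omega) (show l - 1 ≤ l + 1 by omega)
    have k2 := g_kap_le (D := D) (by omega) (l + 1)
    have k3 := g_kap_le (D := D) (by omega) l
    have k4 := d3_kap_anti D (by omega) (show l ≤ l + 1 by omega)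
    -- the discounted second difference
    have key : (th D)⁻¹ * kap D (l + 1) + th D * kap D (l - 1) ≤
        kap D (l + 1) + kap D (l - 1) + 51 / 100 * d4_ep D * kap D (l + 1) := by
      have a1 : (th D)⁻¹ * kap D (l + 1) ≤
          (1 + (1 - th D) + 51 / 50 * (1 - th D) ^ 2) * kap D (l + 1) :=
        mul_le_mul_of_nonneg_right i1 k0
      have a2 : 0 ≤ (1 - th D) * (kap D (l - 1) - kap D (l + 1)) :=
        mul_nonneg (by linarith) (by linarith)
      have a3 : 51 / 50 * (1 - th D) ^ 2 * kap D (l + 1) ≤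
          51 / 100 * d4_ep D * kap D (l + 1) := by
        apply mul_le_mul_of_nonneg_right _ k0
        nlinarith
      nlinarith
    rcases Nat.lt_or_ge l D with h5 | h5
    · have s1 := d4_sec_small hD (l := l) (by omega) (by omega)
      nlinarith
    · have s1 := d4_sec hD (l := l) (by omega)
      have s2 := d4_half hD h5
      have s3 := d4_pow hD h5
      have s4 : 1 / 3 * (16 * d4_ep D) ≤ (1 - th D ^ l) * (16 * d4_ep D) :=
        mul_le_mul_of_nonneg_right (by linarith) (by linarith)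
      nlinarith

/-- the inequality for the first run of a gap -/
lemma d4_edge (l : ℕ) (hl : 2 ≤ l) {W1 W2 : ℝ} (h2 : 0 ≤ W2) (h12 : W2 ≤ W1)
    (h1 : (1 - th D ^ 2) * W1 ≤ 1) :
    2 * ((kap D (l + 1) + th D ^ (l + 1) * W1) - (kap D l + th D ^ l * W1)) +
      d4_nL l * ((kap D (l - 1) + th D ^ (l - 1) * W1) - (kap D l + th D ^ l * W1)) +
      d4_nK l * (W2 - (kap D l + th D ^ l * W1)) + d4_rho D l -
      d4_ep D * (kap D l + th D ^ l * W1) -
      d4_nK l * (th D ^ l * ((th D)⁻¹ * W2 - W1)) ≤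
      -(1 / 4) * ind (l ≤ 3) + 16 * d4_ep D := by
  obtain ⟨t1, t2, t3⟩ := d4_th hD
  obtain ⟨i1, i2, i3⟩ := d4_th_inv hD
  obtain ⟨e1, e2⟩ := d4_ep_mem hD
  have hW1 : 0 ≤ W1 := h2.trans h12
  unfold d4_rho
  rcases Nat.lt_or_ge l 4 with h4 | h4
  · have hl' : l = 2 ∨ l = 3 := by omega
    rcases hl' with h | h
    · subst h
      rw [d4_nL2, d4_nK2, ind_true (by norm_num)]
      norm_num only
      rw [d4_k2 hD, d4_k3 hD]
      have j : th D ^ 2 * ((th D)⁻¹ * W2 - W1) = th D * W2 - th D ^ 2 * W1 := by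
        have : th D ^ 2 * ((th D)⁻¹ * W2) = ((th D)⁻¹ * th D) * (th D * W2) := by ring
        rw [mul_sub, this, i3, one_mul]
      rw [j]
      have j1 : (1 - th D) * W2 ≤ (1 - th D) * W1 := mul_le_mul_of_nonneg_left h12 (by linarith)
      have j2 : 0 ≤ (1 - th D) * W1 := mul_nonneg (by linarith) hW1
      have j3 : (1 - th D ^ 2) * W1 = (1 + th D) * ((1 - th D) * W1) := by ring
      have j4 : (1 - th D) * W1 ≤ 1 := by nlinarith
      have j5 : (th D ^ 2 - th D ^ 3) * W1 = th D ^ 2 * ((1 - th D) * W1) := by ring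
      have j6 : 99 / 100 * (99 / 100) ≤ th D ^ 2 := by nlinarith
      have j7 : 0 ≤ d4_ep D * W1 := mul_nonneg e1.le hW1
      have j8 : 0 ≤ th D ^ 2 := by positivity
      nlinarith
    · subst h
      rw [d4_nL3, d4_nK3, ind_true (by norm_num)]
      norm_num only
      rw [d4_k2 hD, d4_k3 hD, d4_k4 hD]
      have j : th D ^ 3 * ((th D)⁻¹ * W2 - W1) = th D ^ 2 * W2 - th D ^ 3 * W1 := by
        have : th D ^ 3 * ((th D)⁻¹ * W2) = ((th D)⁻¹ * th D) * (th D ^ 2 * W2) := by ring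
        rw [mul_sub, this, i3, one_mul]
      rw [j]
      have j1 : (1 - th D ^ 2) * W2 ≤ (1 - th D ^ 2) * W1 :=
        mul_le_mul_of_nonneg_left h12 (by nlinarith)
      have j2 : 0 ≤ (1 - th D) * W1 := mul_nonneg (by linarith) hW1
      have j3 : (1 - th D ^ 2) * W1 = (1 + th D) * ((1 - th D) * W1) := by ring
      have j4 : (1 - th D) * W1 ≤ 100 / 199 := by nlinarith
      have j5 : (th D ^ 3 - th D ^ 4) * W1 = th D ^ 3 * ((1 - th D) * W1) := by ring
      have j5' : (th D ^ 2 - th D ^ 3) * W1 = th D ^ 2 * ((1 - th D) * W1) := by ring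
      have j6 : th D ^ 2 ≤ 1 := by nlinarith
      have j6' : 97 / 100 ≤ th D ^ 3 := by
        have := pow_le_pow_left₀ (by norm_num) t1 3
        linarith [this, (by norm_num : (97 : ℝ) / 100 ≤ (99 / 100) ^ 3)]
      have j7 : 0 ≤ d4_ep D * (th D ^ 3 * W1) := mul_nonneg e1.le (mul_nonneg (by positivity) hW1)
      nlinarith
  · rw [d4_nL4 h4, d4_nK4 h4, ind_false (by omega)]
    have s1 := d4_sec hD (l := l) (by omega)
    have p1 : th D ^ (l + 1) = th D * (th D * th D ^ (l - 1)) := by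
      rw [← pow_succ', ← pow_succ']
      congr 1
      omega
    have p2 : th D ^ l = th D * th D ^ (l - 1) := by
      rw [← pow_succ']
      congr 1
      omega
    have hX : 0 ≤ th D ^ (l - 1) * W1 := mul_nonneg (pow_nonneg (by linarith) _) hW1
    rw [p1, p2]
    have q1 : 2 * ((kap D (l + 1) + th D * (th D * th D ^ (l - 1)) * W1) -
        (kap D l + th D * th D ^ (l - 1) * W1)) +
        2 * ((kap D (l - 1) + th D ^ (l - 1) * W1) - (kap D l + th D * th D ^ (l - 1) * W1)) =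
        2 * (kap D (l - 1) + kap D (l + 1) - 2 * kap D l) +
          2 * (1 - th D) ^ 2 * (th D ^ (l - 1) * W1) := by ring
    have q2 : 2 * (1 - th D) ^ 2 * (th D ^ (l - 1) * W1) =
        d4_ep D / 2 * (th D ^ (l - 1) * W1) := by rw [← t3]; ring
    have q3 : d4_ep D / 2 * (th D ^ (l - 1) * W1) ≤
        d4_ep D * (th D * th D ^ (l - 1) * W1) := by
      have : d4_ep D / 2 * (th D ^ (l - 1) * W1) ≤
          d4_ep D * th D * (th D ^ (l - 1) * W1) :=
        mul_le_mul_of_nonneg_right (by nlinarith) hX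
      linarith
    nlinarith

end facts

end Pool.Agent.T3M
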