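import Mathlib
import Pool.Agent.T3M.Defs
import Pool.Agent.T3M.Ba
import Pool.Agent.T3M.MGap
import Pool.Agent.T3M.MGapB
import Pool.Agent.T3M.MGapC

/-! Evaluation of the gap functional on configurations given by runs (helper77). -/

set_option autoImplicit false

namespace Pool.Agent.T3M

section ev

variable {κ : ℕ → ℝ} {t : ℝ} {v : ℤ → Sy} {E a b c : ℤ} {p q r : Sy} {x : ℝ}

/-- a colour run before a common wall -/
lemma ev_wall {l : ℕ} (hl : b = a + l) (hl1 : 1 ≤ l) (hE : b ≤ E) (hp : p ≠ .s)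
    (hr : ∀ k, a ≤ k → k < b → v k = p) (hb : v b ≠ p) (hb' : v b ≠ .s) :
    Zst κ t v E (x, 1) a = x * κ l + Zst κ t v E (x * t ^ l, 1) b := by
  have ha : v a = p := hr a le_rfl (by omega)
  unfold Zst
  dsimp only
  rw [gV_run κ t v E (l := 1) (a := a) (b := b) (by omega) hE
    (fun k h1 h2 => by rw [hr k h1 h2, ha]) (by rw [ha]; exact hp) (by rw [ha]; exact hb) hb',
    gR_run κ t v E (a := a) (b := b) (by omega) (fun k h1 h2 => by rw [hr k h1 h2]; exact hp)]
  have : 1 + (b - 1 - a).toNat = l := by omega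
  rw [this]
  ring

/-- a colour run before a star -/
lemma ev_last (hab : a < b) (hp : p ≠ .s) (hr : ∀ k, a ≤ k → k < b → v k = p) (hb : v b = .s)
    (y : ℝ) : Zst κ t v E (x, 1) a = Zst κ t v E (y, 1) b := by
  have ha : v a = p := hr a le_rfl (by omega)
  unfold Zst
  dsimp only
  rw [gV_run_last κ t v E (l := 1) (a := a) (b := b) hab
    (fun k h1 h2 => by rw [hr k h1 h2, ha]) (by rw [ha]; exact hp) hb,
    gR_run κ t v E (a := a) (b := b) (by omega) (fun k h1 h2 => by rw [hr k h1 h2]; exact hp),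
    gV_star κ t v E hb, mul_zero, mul_zero]

/-- a star run before a colour -/
lemma ev_star (hab : a < b) (hE : b ≤ E) (hr : ∀ k, a ≤ k → k < b → v k = .s) (hb : v b ≠ .s)
    (l : ℕ) : Zst κ t v E (x, l) a = Zst κ t v E (1, 1) b := by
  unfold Zst
  dsimp only
  rw [gV_star κ t v E (hr a le_rfl hab), gR_star κ t v E hab hE hr hb]
  ring

/-- inside a colour run -/
lemma ev_same {l : ℕ} (hl : b = a + l) (hE : b ≤ E) (hp : p ≠ .s)
    (hr : ∀ k, a ≤ k → k ≤ b → v k = p) (j : ℕ) :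
    Zst κ t v E (x, j) a = Zst κ t v E (x, j + l) b := by
  have ha : v a = p := hr a le_rfl (by omega)
  unfold Zst
  dsimp only
  rw [gV_const κ t v E (l := j) (a := a) (n := l) (by omega)
    (fun k h1 h2 => by rw [hr k h1 (by omega), ha]),
    gR_run κ t v E (a := a) (b := b) (by omega) (fun k h1 h2 => by rw [hr k h1 h2.le]; exact hp),
    hl]

/-- inside a star run -/
lemma ev_ss (hab : a ≤ b) (hr : ∀ k, a ≤ k → k ≤ b → v k = .s) (y : ℝ) (j l : ℕ) :
    Zst κ t v E (x, j) a = Zst κ t v E (y, l) b := by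
  unfold Zst
  dsimp only
  rw [gV_star κ t v E (hr a le_rfl hab), gV_star κ t v E (hr b hab le_rfl),
    gR_skip κ t v E hab (fun k h1 h2 hc => hc.2 (hr (k + 1) (by omega) (by omega))),
    mul_zero, mul_zero]

lemma ev_congr {u : ℤ → Sy} (h : ∀ k, b ≤ k → v k = u k) (s : ℝ × ℕ) :
    Zst κ t v E s b = Zst κ t u E s b := by
  unfold Zst
  rw [gV_congr κ t E (u := u) (u' := v) (fun k hk _ => h k hk),
    gR_congr κ t E (u := u) (u' := v) (fun k hk _ => h k hk)]

end ev

/-! ### Runs -/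

/-- `[a, b)` is a stretch of the letter `p`, and `b` carries another letter -/
def Rn (u : ℤ → Sy) (a b : ℤ) (p : Sy) : Prop :=
  a < b ∧ (∀ k, a ≤ k → k < b → u k = p) ∧ u b ≠ p

lemma rn_exists (u : ℤ → Sy) (a : ℤ) : (∀ k, a ≤ k → u k = u a) ∨ ∃ b, Rn u a b (u a) := by
  classical
  by_cases h : ∃ n : ℕ, u (a + n) ≠ u a
  · right
    have h1 := Nat.find_spec h
    have h2 : ∀ m : ℕ, m < Nat.find h → u (a + m) = u a := fun m hm => by
      by_contra hc
      exact Nat.find_min h hm hc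
    refine ⟨a + Nat.find h, ?_, fun k hk hk' => ?_, h1⟩
    · have : Nat.find h ≠ 0 := by
        intro h0
        rw [h0] at h1
        simp at h1
      omega
    · obtain ⟨m, hm⟩ : ∃ m : ℕ, (m : ℤ) = k - a := ⟨(k - a).toNat, by omega⟩
      have := h2 m (by omega)
      rwa [hm, add_sub_cancel] at this
  · left
    push Not at h
    intro k hk
    obtain ⟨m, hm⟩ : ∃ m : ℕ, (m : ℤ) = k - a := ⟨(k - a).toNat, by omega⟩
    have := h m
    rwa [hm, add_sub_cancel] at this

/-! ### Splitting the sum over the marks -/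

/-- marks far to the right only see the state -/
lemma SF_shift {F F' : (ℤ → Sy) → ℝ} {u : ℤ → Sy} (h : Rt u) {b : ℤ} {C : ℝ}
    (hF : ∀ w : ℤ → Sy, (∀ k, k ≤ b → w k = u k) → F w = C + F' w) {i : ℤ} (hi : b + 2 ≤ i) :
    SF F u i = SF F' u i := by
  have far : ∀ (β : Bool) k, k ≤ b → Rf i β u k = u k := by
    intro β k hk
    refine Rf_far h β ?_
    rcases abs_cases (k - i) with ⟨h4, _⟩ | ⟨h4, _⟩ <;> omega
  unfold SF
  rw [hF _ (far false), hF _ (far true), hF u (fun _ _ => rfl)]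
  ring

lemma sum_Ico_split (f : ℤ → ℝ) {a b c : ℤ} (hab : a ≤ b) (hbc : b ≤ c) :
    ∑ i ∈ Finset.Ico a c, f i = ∑ i ∈ Finset.Ico a b, f i + ∑ i ∈ Finset.Ico b c, f i := by
  rw [← Finset.sum_union]
  · congr 1
    ext k
    simp only [Finset.mem_union, Finset.mem_Ico]
    omega
  · rw [Finset.disjoint_left]
    intro k h1 h2
    rw [Finset.mem_Ico] at h1 h2
    omega

lemma sum_Ico_one (f : ℤ → ℝ) (a : ℤ) : ∑ i ∈ Finset.Ico a (a + 1), f i = f a := by
  have : Finset.Ico a (a + 1) = {a} := by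
    ext k
    simp only [Finset.mem_Ico, Finset.mem_singleton]
    omega
  rw [this, Finset.sum_singleton]

lemma sum_Ico_two (f : ℤ → ℝ) (a : ℤ) : ∑ i ∈ Finset.Ico a (a + 2), f i = f a + f (a + 1) := by
  rw [sum_Ico_split f (a := a) (b := a + 1) (c := a + 2) (by omega) (by omega), sum_Ico_one,
    show a + 2 = a + 1 + 1 by ring, sum_Ico_one]

end Pool.Agent.T3M
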