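import Mathlib
import Pool.Agent.T3M.Defs
import Pool.Agent.T3M.Ba
import Pool.Agent.T3M.MGap
import Pool.Agent.T3M.MGapB
import Pool.Agent.T3M.MGapC
import Pool.Agent.T3M.MD4a
import Pool.Agent.T3M.MD4b

/-! The marks near the boundary of two runs (helper77). -/

set_option autoImplicit false

namespace Pool.Agent.T3M

/-- the marks near the right end of the first run -/
lemma d4_LM {F : (ℤ → Sy) → ℝ} {u : ℤ → Sy} (h : Rt u) {a b : ℤ} {p q : Sy} {l : ℕ}
    (hl : b = a + l) (hl2 : 2 ≤ l) (hpq : p ≠ q) (hr : ∀ k, a ≤ k → k < b → u k = p)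
    (hb : u b = q) (hb1 : u (b + 1) = q) :
    ∑ i ∈ Finset.Ico (a + 2) b, SF F u i =
      d4_nL l * (F (Function.update u (b - 1) q) - F u) := by
  rcases Nat.lt_or_ge l 4 with h4 | h4
  · have hl' : l = 2 ∨ l = 3 := by omega
    rcases hl' with h2 | h3
    · rw [Finset.Ico_eq_empty (by omega), Finset.sum_empty, h2, d4_nL2, zero_mul]
    · have e := sum_Ico_one (fun i => SF F u i) (b - 1)
      rw [sub_add_cancel] at e
      rw [show a + 2 = b - 1 by omega, e, h3, d4_nL3, one_mul]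
      exact SF_L1 (F := F) h hpq (fun k h1 h2 => hr k (by omega) h2) hb hb1
  · rw [sum_Ico_split _ (a := a + 2) (b := b - 2) (c := b) (by omega) (by omega),
      Finset.sum_eq_zero, zero_add, d4_nL4 h4]
    · have e := sum_Ico_two (fun i => SF F u i) (b - 2)
      rw [sub_add_cancel, show b - 2 + 1 = b - 1 by ring] at e
      rw [e, SF_L2 (F := F) h hpq (fun k h1 h2 => hr k (by omega) h2) hb,
        SF_L1 (F := F) h hpq (fun k h1 h2 => hr k (by omega) h2) hb hb1]
      ring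
    · intro i hi
      rw [Finset.mem_Ico] at hi
      exact SF_inside h (p := p) (fun k h1 h2 => hr k (by omega) (by omega))

/-- a run of length at least four -/
lemma d4_R4 {F : (ℤ → Sy) → ℝ} {u : ℤ → Sy} (h : Rt u) {b : ℤ} {p q : Sy} (hpq : p ≠ q)
    (h2 : u (b - 2) = p) (h1 : u (b - 1) = p) (hr : ∀ k, b ≤ k → k < b + 4 → u k = q) :
    ∑ i ∈ Finset.Ico b (b + 2), SF F u i = 2 * (F (Function.update u b p) - F u) := by
  rw [sum_Ico_two, SF_R1 (F := F) h hpq h2 h1 (fun k h1 h2 => hr k h1 (by omega)),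
    SF_R2 (F := F) h hpq h1 hr]
  ring

/-- a colour run of length three -/
lemma d4_R3 {F : (ℤ → Sy) → ℝ} {u : ℤ → Sy} (h : Rt u) {b : ℤ} {p q r : Sy} (hpq : p ≠ q)
    (hq : q ≠ .s) (hrq : r ≠ q)
    (h2 : u (b - 2) = p) (h1 : u (b - 1) = p) (hr : ∀ k, b ≤ k → k < b + 3 → u k = q)
    (h3 : u (b + 3) = r) :
    ∑ i ∈ Finset.Ico b (b + 2), SF F u i = (F (Function.update u b p) - F u) +
      (F (Function.update (Function.update (Function.update u b p) (b + 1)
      (if r = .s then .s else p)) (b + 2) r) - F u) := by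
  rw [sum_Ico_two, SF_R1 (F := F) h hpq h2 h1 hr,
    SF_K3 (F := F) h hpq hq hrq h1 (hr _ (by omega) (by omega)) (hr _ (by omega) (by omega))
      (hr _ (by omega) (by omega)) h3]

/-- a colour run of length two, the next run is longer than one -/
lemma d4_R2 {F : (ℤ → Sy) → ℝ} {u : ℤ → Sy} (h : Rt u) {b : ℤ} {p q r : Sy} (hpq : p ≠ q)
    (hq : q ≠ .s) (hrq : r ≠ q)
    (h2 : u (b - 2) = p) (h1 : u (b - 1) = p) (hr : ∀ k, b ≤ k → k < b + 2 → u k = q)
    (h3 : u (b + 2) = r) (h4 : u (b + 3) = r) :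
    ∑ i ∈ Finset.Ico b (b + 2), SF F u i =
      2 * (F (Function.update (Function.update u b p) (b + 1) r) - F u) := by
  rw [sum_Ico_two, SF_K2 (F := F) h hpq hq hrq h2 h1 (hr _ (by omega) (by omega))
    (hr _ (by omega) (by omega)) h3,
    SF_K2' (F := F) h hpq hq hrq h1 (hr _ (by omega) (by omega))
    (hr _ (by omega) (by omega)) h3 h4]
  ring

/-- star runs between different colours -/
lemma d4_RS {F : (ℤ → Sy) → ℝ} {u : ℤ → Sy} (h : Rt u) {b c : ℤ} {p r : Sy} {m : ℕ}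
    (hm : c = b + m) (hm2 : 2 ≤ m) (hp : p ≠ .s) (hr : r ≠ .s) (hpr : m ≤ 3 → p ≠ r)
    (h2 : u (b - 2) = p) (h1 : u (b - 1) = p) (hs : ∀ k, b ≤ k → k < c → u k = .s)
    (h3 : u c = r) (h4 : u (c + 1) = r) :
    ∑ i ∈ Finset.Ico b (b + 2), SF F u i = 2 * (F (Function.update u b p) - F u) +
      d4_nK m * (F (Function.update u (c - 1) r) - F u) := by
  rcases Nat.lt_or_ge m 4 with h5 | h5
  · have hl' : m = 2 ∨ m = 3 := by omega
    rcases hl' with h6 | h6
    · have e : c = b + 2 := by omega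
      rw [h6, d4_nK2, sum_Ico_two, SF_S2 (F := F) h hp hr (hpr (by omega)) h2 h1
        (hs _ (by omega) (by omega)) (hs _ (by omega) (by omega)) (by rw [← e]; exact h3),
        SF_S2' (F := F) h hp hr (hpr (by omega)) h1
        (hs _ (by omega) (by omega)) (hs _ (by omega) (by omega)) (by rw [← e]; exact h3)
        (by rw [show b + 3 = c + 1 by omega]; exact h4), show c - 1 = b + 1 by omega]
      ring
    · have e : c = b + 3 := by omega
      rw [h6, d4_nK3, sum_Ico_two, SF_R1 (F := F) h hp h2 h1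
        (fun k h1 h2 => hs k h1 (by omega)),
        SF_S3 (F := F) h hp hr (hpr (by omega)) h1
        (hs _ (by omega) (by omega)) (hs _ (by omega) (by omega)) (hs _ (by omega) (by omega))
        (by rw [← e]; exact h3), show c - 1 = b + 2 by omega]
      ring
  · rw [d4_nK4 h5, zero_mul, add_zero]
    exact d4_R4 h hp h2 h1 (fun k h1 h2 => hs k h1 (by omega))

/-! ### The functional -/

noncomputable def ZF (D : ℕ) (E : ℤ) (s : ℝ × ℕ) (a : ℤ) (w : ℤ → Sy) : ℝ :=
  Zst (kap D) (th D) w E s a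

/-- abbreviations for the views in the configuration `u` -/
noncomputable abbrev VV (D : ℕ) (u : ℤ → Sy) (E : ℤ) (j : ℕ) (a : ℤ) : ℝ :=
  gV (kap D) (th D) u E j a

lemma SF_univ {D : ℕ} (hD : 1 ≤ D) {u : ℤ → Sy} (hu : Rt u) {E i a : ℤ} (hE : i + 2 ≤ E)
    (ha : a ≤ i - 2) {s : ℝ × ℕ} (h0 : 0 ≤ s.1) (h1 : s.1 ≤ 1) :
    SF (ZF D E s a) u i ≤ 16 := by
  have h2 := g_univ hD hu hE ha false h0 h1
  have h3 := g_univ hD hu hE ha true h0 h1
  unfold SF ZF
  linarith

/-- sum of at most `n` marks -/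
lemma sum_univ {D : ℕ} (hD : 1 ≤ D) {u : ℤ → Sy} (hu : Rt u) {E a b c : ℤ} (hE : c + 1 ≤ E)
    (ha : a + 2 ≤ b) {s : ℝ × ℕ} (h0 : 0 ≤ s.1) (h1 : s.1 ≤ 1) (n : ℕ) (hn : c - b ≤ n) :
    ∑ i ∈ Finset.Ico b c, SF (ZF D E s a) u i ≤ 16 * n := by
  have h2 : ∑ i ∈ Finset.Ico b c, SF (ZF D E s a) u i ≤ ∑ _i ∈ Finset.Ico b c, (16 : ℝ) := by
    apply Finset.sum_le_sum
    intro i hi
    rw [Finset.mem_Ico] at hi
    exact SF_univ hD hu (by omega) (by omega) h0 h1
  rw [Finset.sum_const, nsmul_eq_mul, Int.card_Ico] at h2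
  have h3 : (((c - b).toNat : ℕ) : ℝ) ≤ n := by
    exact_mod_cast (by omega : (c - b).toNat ≤ n)
  linarith

/-! ### Values -/

section values

variable {D : ℕ} {u : ℤ → Sy} {E a b c : ℤ} {p q r : Sy} {x : ℝ} {l m : ℕ}

lemma VV_nl (hm : c = b + m) (hm1 : 1 ≤ m) (hE : c ≤ E) (hq : q ≠ .s)
    (hr : ∀ k, b ≤ k → k < c → u k = q) (hc : u c ≠ q) (hc' : u c ≠ .s) (j : ℕ) :
    VV D u E (j + 1) b = kap D (m + j) + th D ^ (m + j) * VV D u E 1 c := by
  have ha : u b = q := hr b le_rfl (by omega)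
  unfold VV
  rw [gV_run (kap D) (th D) u E (l := j + 1) (a := b) (b := c) (by omega) hE
    (fun k h1 h2 => by rw [hr k h1 h2, ha]) (by rw [ha]; exact hq) (by rw [ha]; exact hc) hc',
    show j + 1 + (c - 1 - b).toNat = m + j by omega]

lemma VV_last (hbc : b < c) (hq : q ≠ .s)
    (hr : ∀ k, b ≤ k → k < c → u k = q) (hc' : u c = .s) (j : ℕ) :
    VV D u E j b = 0 := by
  have ha : u b = q := hr b le_rfl (by omega)
  exact gV_run_last (kap D) (th D) u E hbc (fun k h1 h2 => by rw [hr k h1 h2, ha])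
    (by rw [ha]; exact hq) hc'

lemma VV_tail (hr : ∀ k, b ≤ k → u k = q) (j : ℕ) : VV D u E j b = 0 :=
  gV_tail (kap D) (th D) u E (fun k h1 _ => by rw [hr k h1, hr b le_rfl])

lemma Zst_one (s : ℝ × ℕ) : Zst (kap D) (th D) u E s b =
    s.1 * VV D u E s.2 b + gR (kap D) (th D) u E b := rfl

/-- colour, colour: the configuration itself -/
lemma val_CC (hl : b = a + l) (hl1 : 1 ≤ l) (hE : b ≤ E) (hp : p ≠ .s)
    (hr : ∀ k, a ≤ k → k < b → u k = p) (hb : u b ≠ p) (hb' : u b ≠ .s) :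
    ZF D E (x, 1) a u = x * kap D l + x * th D ^ l * VV D u E 1 b +
      gR (kap D) (th D) u E b := by
  unfold ZF
  rw [ev_wall hl hl1 hE hp hr hb hb', Zst_one]
  ring

/-- colour, colour: the wall moves to the left -/
lemma val_CC_L (hl : b = a + l) (hl2 : 2 ≤ l) (hE : b ≤ E) (hp : p ≠ .s)
    (hr : ∀ k, a ≤ k → k < b → u k = p) (hb : u b = q) (hpq : q ≠ p) (hb' : q ≠ .s) :
    ZF D E (x, 1) a (Function.update u (b - 1) q) = x * kap D (l - 1) +
      x * th D ^ (l - 1) * VV D u E 2 b + gR (kap D) (th D) u E b := by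
  unfold ZF
  rw [ev_wall (b := b - 1) (l := l - 1) (p := p) (by omega) (by omega) (by omega) hp
    (fun k h1 h2 => by rw [upd_ne (by omega)]; exact hr k h1 (by omega))
    (by rw [upd_at rfl]; exact hpq) (by rw [upd_at rfl]; exact hb'),
    ev_same (a := b - 1) (b := b) (l := 1) (p := q) (by omega) hE hb' (fun k h1 h2 => by
      rcases eq_or_lt_of_le h1 with h3 | h3
      · rw [upd_at h3.symm]
      · rw [upd_ne (by omega), show k = b by omega]; exact hb),
    ev_congr (u := u) (fun k hk => upd_ne (by omega)), Zst_one]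
  ring

/-- colour, colour: the wall moves to the right -/
lemma val_CC_R (hl : b = a + l) (hE : b + 1 ≤ E) (hp : p ≠ .s)
    (hr : ∀ k, a ≤ k → k < b → u k = p) (hb : u b = q) (hb1 : u (b + 1) = q) (hpq : q ≠ p)
    (hb' : q ≠ .s) :
    ZF D E (x, 1) a (Function.update u b p) = x * kap D (l + 1) +
      x * th D ^ (l + 1) * VV D u E 1 (b + 1) + gR (kap D) (th D) u E b := by
  unfold ZF
  rw [ev_wall (b := b + 1) (l := l + 1) (p := p) (by push_cast; omega) (by omega) hE hp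
    (fun k h1 h2 => by
      rcases eq_or_lt_of_le (show k ≤ b by omega) with h3 | h3
      · rw [upd_at h3]
      · rw [upd_ne (by omega)]; exact hr k h1 h3)
    (by rw [upd_ne (by omega), hb1]; exact hpq) (by rw [upd_ne (by omega), hb1]; exact hb'),
    ev_congr (u := u) (fun k hk => upd_ne (by omega)), Zst_one,
    gR_run (kap D) (th D) u E (a := b) (b := b + 1) (by omega)
      (fun k h1 h2 => by rw [show k = b by omega, hb]; exact hb')]
  ring

/-- a killed run: the two neighbours merge -/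
lemma val_K {v : ℤ → Sy} (hl : c = a + l) (hE : c ≤ E) (hp : p ≠ .s)
    (hr : ∀ k, a ≤ k → k < c → v k = p) (hc : u c = p) (hv : ∀ k, c ≤ k → v k = u k) :
    ZF D E (x, 1) a v = x * VV D u E (l + 1) c + gR (kap D) (th D) u E c := by
  unfold ZF
  rw [ev_same (a := a) (b := c) (l := l) (p := p) hl hE hp (fun k h1 h2 => by
      rcases eq_or_lt_of_le h2 with h3 | h3
      · rw [h3, hv c le_rfl]; exact hc
      · exact hr k h1 h3),
    ev_congr (u := u) hv, Zst_one, add_comm 1 l]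

/-- the first run is the last one of its gap -/
lemma val_S {v : ℤ → Sy} (hab : a < b) (hbc : b ≤ c) (hp : p ≠ .s)
    (hr : ∀ k, a ≤ k → k < b → v k = p) (hs : ∀ k, b ≤ k → k ≤ c → v k = .s)
    (hv : ∀ k, c ≤ k → v k = u k) :
    ZF D E (x, 1) a v = gR (kap D) (th D) u E c := by
  unfold ZF
  rw [ev_last (b := b) (y := 0) hab hp hr (hs b le_rfl hbc), ev_ss hbc hs 0 1 1,
    ev_congr (u := u) hv, Zst_one]
  ring

/-- a star run, then a colour run which contains `c` and begins at `b` -/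
lemma val_SC {v : ℤ → Sy} (hab : a < b) (hl : c = b + l) (hE : c ≤ E) (hq : q ≠ .s)
    (hs : ∀ k, a ≤ k → k < b → v k = .s) (hr : ∀ k, b ≤ k → k ≤ c → v k = q)
    (hv : ∀ k, c ≤ k → v k = u k) :
    ZF D E (x, 1) a v = VV D u E (l + 1) c + gR (kap D) (th D) u E c := by
  unfold ZF
  rw [ev_star (b := b) hab (by omega) hs (by rw [hr b le_rfl (by omega)]; exact hq),
    ev_same (a := b) (b := c) (l := l) hl hE hq hr, ev_congr (u := u) hv, Zst_one, add_comm 1 l,
    one_mul]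

/-- only stars up to `c` -/
lemma val_SS {v : ℤ → Sy} (hac : a ≤ c) (hs : ∀ k, a ≤ k → k ≤ c → v k = .s)
    (hv : ∀ k, c ≤ k → v k = u k) :
    ZF D E (x, 1) a v = gR (kap D) (th D) u E c := by
  unfold ZF
  rw [ev_ss hac hs 0 1 1, ev_congr (u := u) hv, Zst_one]
  ring

end values

end Pool.Agent.T3M
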