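import Mathlib
import Pool.Agent.T3M.Defs
import Pool.Agent.T3M.Ba
import Pool.Agent.T3M.MGap
import Pool.Agent.T3M.MGapB
import Pool.Agent.T3M.MGapC
import Pool.Agent.T3M.MD4a
import Pool.Agent.T3M.MD4b
import Pool.Agent.T3M.MD4c

/-! The marks near the boundary of two runs, sums (helper77). -/

set_option autoImplicit false

namespace Pool.Agent.T3M

section bd

variable {D : ℕ} {u : ℤ → Sy} {E a b c : ℤ} {p q r : Sy} {x : ℝ} {l m : ℕ}

lemma d4_pow_pred (hD : 100 ≤ D) (hl : 1 ≤ l) : th D ^ (l - 1) = th D ^ l * (th D)⁻¹ := by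
  obtain ⟨t1, -, -⟩ := d4_th hD
  have h0 : th D ≠ 0 := by
    intro h
    rw [h] at t1
    norm_num at t1
  obtain ⟨n, rfl⟩ : ∃ n, l = n + 1 := ⟨l - 1, by omega⟩
  rw [Nat.add_sub_cancel, pow_succ, mul_assoc, mul_inv_cancel₀ h0, mul_one]

/-- colour, colour, colour -/
lemma d4_CC1 (hD : 100 ≤ D) (hu : Rt u) (hl : b = a + l) (hl2 : 2 ≤ l) (hm : c = b + m)
    (hm2 : 2 ≤ m) (hE : c + 2 ≤ E) (hp : p ≠ .s) (hq : q ≠ .s) (hpq : p ≠ q)
    (h1 : ∀ k, a ≤ k → k < b → u k = p) (h2 : ∀ k, b ≤ k → k < c → u k = q) (h3 : u c = p)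
    (hx : 0 ≤ x) :
    ∑ i ∈ Finset.Ico (a + 2) (b + 2), SF (ZF D E (x, 1) a) u i ≤
      d4_nL l * (x * (kap D (l - 1) - kap D l) +
        x * th D ^ l * ((th D)⁻¹ * VV D u E 2 b - VV D u E 1 b)) +
      2 * (x * (kap D (l + 1) - kap D l)) +
      x * th D ^ l * (d4_nL m * (th D * kap D (m - 1) - kap D m) - d4_nK m * kap D m +
        d4_nK m * (th D ^ m * ((th D)⁻¹ * VV D u E 2 c - VV D u E 1 c))) := by
  obtain ⟨t1, t2, -⟩ := d4_th hD
  have t0 : 0 ≤ th D := by linarith
  have hb : u b = q := h2 b le_rfl (by omega)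
  have hb1 : u (b + 1) = q := h2 _ (by omega) (by omega)
  have hqp : q ≠ p := fun h => hpq h.symm
  have v0 : ZF D E (x, 1) a u = x * kap D l + x * th D ^ l * VV D u E 1 b +
      gR (kap D) (th D) u E b :=
    val_CC hl (by omega) (by omega) hp h1 (by rw [hb]; exact hqp) (by rw [hb]; exact hq)
  have vL := val_CC_L (D := D) (E := E) (x := x) (q := q) hl hl2 (by omega) hp h1 hb hqp hq
  have vR := val_CC_R (D := D) (E := E) (x := x) (q := q) hl (by omega) hp h1 hb hb1 hqp hq
  have V1 : VV D u E 1 b = kap D m + th D ^ m * VV D u E 1 c :=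
    VV_nl (j := 0) hm (by omega) (by omega) hq h2 (by rw [h3]; exact hpq) (by rw [h3]; exact hp)
  have V1' : VV D u E 1 (b + 1) = kap D (m - 1) + th D ^ (m - 1) * VV D u E 1 c :=
    VV_nl (b := b + 1) (m := m - 1) (j := 0) (by omega) (by omega) (by omega) hq
      (fun k k1 k2 => h2 k (by omega) k2) (by rw [h3]; exact hpq) (by rw [h3]; exact hp)
  have hRc : gR (kap D) (th D) u E b = gR (kap D) (th D) u E c :=
    gR_run (kap D) (th D) u E (by omega) (fun k k1 k2 => by rw [h2 k k1 k2]; exact hq)
  have pl := d4_pow_pred hD (l := l) (by omega)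
  have pm := d4_pow_pred hD (l := m) (by omega)
  rw [sum_Ico_split _ (a := a + 2) (b := b) (c := b + 2) (by omega) (by omega),
    d4_LM hu hl hl2 hpq h1 hb hb1, vL, v0]
  have eL : x * kap D (l - 1) + x * th D ^ (l - 1) * VV D u E 2 b +
      gR (kap D) (th D) u E b - (x * kap D l + x * th D ^ l * VV D u E 1 b +
      gR (kap D) (th D) u E b) = x * (kap D (l - 1) - kap D l) +
        x * th D ^ l * ((th D)⁻¹ * VV D u E 2 b - VV D u E 1 b) := by
    rw [pl]; ring
  rw [eL, add_assoc]
  apply add_le_add le_rfl
  -- the killing marks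
  have hK : ∀ n : ℕ, l + m + 1 = n → x * VV D u E n c + gR (kap D) (th D) u E c -
      (x * kap D l + x * th D ^ l * VV D u E 1 b + gR (kap D) (th D) u E b) ≤
      x * (kap D (l + 1) - kap D l) + x * th D ^ l * (- kap D m +
        th D ^ m * ((th D)⁻¹ * VV D u E 2 c - VV D u E 1 c)) := by
    intro n hn
    have s1 := gV_shift (κ := kap D) (t := th D) (u := u) (E := E) (d3_kap_nonneg D)
      (fun _ _ h => d3_kap_anti D (by omega) h) t0 (l + m - 1) 2 (l + 1) (by omega) c
    rw [show 2 + (l + m - 1) = n by omega] at s1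
    have s2 : th D ^ (l + m - 1) = th D ^ l * th D ^ m * (th D)⁻¹ := by
      rw [d4_pow_pred hD (l := l + m) (by omega), pow_add]
    rw [s2] at s1
    have s3 := mul_le_mul_of_nonneg_left s1 hx
    rw [V1, hRc]
    unfold VV at *
    linarith
  rcases Nat.lt_or_ge m 4 with h5 | h5
  · have hl' : m = 2 ∨ m = 3 := by omega
    rcases hl' with h6 | h6
    · subst h6
      have hc1 : u (c + 1) = p := by
        rw [← h3]
        refine hu.next ?_ (by rw [h3]; exact hp)
        rw [h3, h2 (c - 1) (by omega) (by omega)]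
        exact hpq
      rw [d4_R2 (F := ZF D E (x, 1) a) hu (r := p) hpq hq hpq (h1 _ (by omega) (by omega))
        (h1 _ (by omega) (by omega)) (fun k k1 k2 => h2 k k1 (by omega))
        (by rw [show b + 2 = c by omega]; exact h3)
        (by rw [show b + 3 = c + 1 by omega]; exact hc1), v0,
        val_K (v := Function.update (Function.update u b p) (b + 1) p) (u := u) (c := c)
          (l := l + 2) (p := p) (by push_cast; omega) (by omega) hp (fun k k1 k2 => by
            by_cases k3 : k = b + 1
            · rw [upd_at k3]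
            · rw [upd_ne k3]
              by_cases k4 : k = b
              · rw [upd_at k4]
              · rw [upd_ne k4]
                exact h1 k k1 (by omega)) h3
          (fun k hk => by rw [upd_ne (by omega), upd_ne (by omega)])]
      rw [d4_nL2, d4_nK2]
      have := hK (l + 2 + 1) rfl
      linarith
    · subst h6
      rw [d4_R3 (F := ZF D E (x, 1) a) hu (r := p) hpq hq hpq (h1 _ (by omega) (by omega))
        (h1 _ (by omega) (by omega)) (fun k k1 k2 => h2 k k1 (by omega))
        (by rw [show b + 3 = c by omega]; exact h3), if_neg hp, v0, vR,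
        val_K (v := Function.update (Function.update (Function.update u b p) (b + 1) p) (b + 2) p)
          (u := u) (c := c)
          (l := l + 3) (p := p) (by push_cast; omega) (by omega) hp (fun k k1 k2 => by
            by_cases k5 : k = b + 2
            · rw [upd_at k5]
            · rw [upd_ne k5]
              by_cases k3 : k = b + 1
              · rw [upd_at k3]
              · rw [upd_ne k3]
                by_cases k4 : k = b
                · rw [upd_at k4]
                · rw [upd_ne k4]
                  exact h1 k k1 (by omega)) h3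
          (fun k hk => by rw [upd_ne (by omega), upd_ne (by omega), upd_ne (by omega)])]
      rw [d4_nL3, d4_nK3]
      have h7 := hK (l + 3 + 1) rfl
      have h8 : x * kap D (l + 1) + x * th D ^ (l + 1) * VV D u E 1 (b + 1) +
          gR (kap D) (th D) u E b - (x * kap D l + x * th D ^ l * VV D u E 1 b +
          gR (kap D) (th D) u E b) = x * (kap D (l + 1) - kap D l) +
          x * th D ^ l * (th D * kap D (3 - 1) - kap D 3) := by
        rw [V1, V1', pow_succ, show (3 : ℕ) - 1 = 2 by norm_num]
        ring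
      rw [h8]
      linarith
  · rw [d4_R4 (F := ZF D E (x, 1) a) hu hpq (h1 _ (by omega) (by omega))
        (h1 _ (by omega) (by omega)) (fun k k1 k2 => h2 k k1 (by omega)), v0, vR, d4_nL4 h5,
        d4_nK4 h5]
    have h8 : x * kap D (l + 1) + x * th D ^ (l + 1) * VV D u E 1 (b + 1) +
        gR (kap D) (th D) u E b - (x * kap D l + x * th D ^ l * VV D u E 1 b +
        gR (kap D) (th D) u E b) = x * (kap D (l + 1) - kap D l) +
        x * th D ^ l * (th D * kap D (m - 1) - kap D m) := by
      have h9 : th D * th D ^ (m - 1) = th D ^ m := by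
        rw [← pow_succ']
        congr 1
        omega
      rw [V1, V1', pow_succ, ← h9]
      ring
    rw [h8]
    linarith

/-- the configuration near a killed run of length two -/
lemma upd2_eval (k1 k2 : ℤ) (y1 y2 : Sy) (h12 : k1 ≠ k2) (k : ℤ) :
    (k = k1 → Function.update (Function.update u k1 y1) k2 y2 k = y1) ∧
    (k = k2 → Function.update (Function.update u k1 y1) k2 y2 k = y2) ∧
    (k ≠ k1 → k ≠ k2 → Function.update (Function.update u k1 y1) k2 y2 k = u k) := by
  refine ⟨fun h => ?_, fun h => ?_, fun h h' => ?_⟩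
  · rw [upd_ne (by omega), upd_at h]
  · rw [upd_at h]
  · rw [upd_ne h', upd_ne h]

lemma upd3_eval (k1 k2 k3 : ℤ) (y1 y2 y3 : Sy) (h12 : k1 ≠ k2) (h13 : k1 ≠ k3) (h23 : k2 ≠ k3)
    (k : ℤ) :
    (k = k1 → Function.update (Function.update (Function.update u k1 y1) k2 y2) k3 y3 k = y1) ∧
    (k = k2 → Function.update (Function.update (Function.update u k1 y1) k2 y2) k3 y3 k = y2) ∧
    (k = k3 → Function.update (Function.update (Function.update u k1 y1) k2 y2) k3 y3 k = y3) ∧
    (k ≠ k1 → k ≠ k2 → k ≠ k3 →
      Function.update (Function.update (Function.update u k1 y1) k2 y2) k3 y3 k = u k) := by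
  refine ⟨fun h => ?_, fun h => ?_, fun h => ?_, fun h h' h'' => ?_⟩
  · rw [upd_ne (by omega), upd_ne (by omega), upd_at h]
  · rw [upd_ne (by omega), upd_at h]
  · rw [upd_at h]
  · rw [upd_ne h'', upd_ne h', upd_ne h]

/-- colour, colour, star -/
lemma d4_CC2 (hD : 100 ≤ D) (hu : Rt u) (hl : b = a + l) (hl2 : 2 ≤ l) (hm : c = b + m)
    (hm2 : 2 ≤ m) (hE : c + 2 ≤ E) (hp : p ≠ .s) (hq : q ≠ .s) (hpq : p ≠ q)
    (h1 : ∀ k, a ≤ k → k < b → u k = p) (h2 : ∀ k, b ≤ k → k < c → u k = q) (h3 : u c = .s)
    (hx : 0 ≤ x) (hx1 : x ≤ 1) :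
    ∑ i ∈ Finset.Ico (a + 2) (b + 2), SF (ZF D E (x, 1) a) u i ≤
      d4_nL l * (x * (kap D (l - 1) - kap D l)) +
      2 * (x * (kap D (l + 1) - kap D l)) + 18 * ind (Kl u c) := by
  have hb : u b = q := h2 b le_rfl (by omega)
  have hb1 : u (b + 1) = q := h2 _ (by omega) (by omega)
  have hqp : q ≠ p := fun h => hpq h.symm
  have v0 : ZF D E (x, 1) a u = x * kap D l + x * th D ^ l * VV D u E 1 b +
      gR (kap D) (th D) u E b :=
    val_CC hl (by omega) (by omega) hp h1 (by rw [hb]; exact hqp) (by rw [hb]; exact hq)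
  have vL := val_CC_L (D := D) (E := E) (x := x) (q := q) hl hl2 (by omega) hp h1 hb hqp hq
  have vR := val_CC_R (D := D) (E := E) (x := x) (q := q) hl (by omega) hp h1 hb hb1 hqp hq
  have V1 : VV D u E 1 b = 0 := VV_last (by omega) hq h2 h3 1
  have V2 : VV D u E 2 b = 0 := VV_last (by omega) hq h2 h3 2
  have V1' : VV D u E 1 (b + 1) = 0 :=
    VV_last (by omega) hq (fun k k1 k2 => h2 k (by omega) k2) h3 1
  have hRc : gR (kap D) (th D) u E b = gR (kap D) (th D) u E c :=
    gR_run (kap D) (th D) u E (by omega) (fun k k1 k2 => by rw [h2 k k1 k2]; exact hq)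
  rw [V1, mul_zero, add_zero] at v0
  rw [V2, mul_zero, add_zero] at vL
  rw [V1', mul_zero, add_zero] at vR
  rw [sum_Ico_split _ (a := a + 2) (b := b) (c := b + 2) (by omega) (by omega),
    d4_LM hu hl hl2 hpq h1 hb hb1, vL, v0, add_sub_add_right_eq_sub, ← mul_sub, add_assoc]
  apply add_le_add le_rfl
  have hk := ind_nonneg (Kl u c)
  have hkap := d3_kap_nonneg D (l + 1)
  have hkap' := g_kap_le (D := D) (by omega) l
  have hK : gR (kap D) (th D) u E c - (x * kap D l + gR (kap D) (th D) u E b) ≤
      x * (kap D (l + 1) - kap D l) := by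
    rw [hRc]
    nlinarith
  have hlow : -1 ≤ x * (kap D (l + 1) - kap D l) := by nlinarith
  rcases Nat.lt_or_ge m 4 with h5 | h5
  · have hl' : m = 2 ∨ m = 3 := by omega
    have ev2 := upd2_eval (u := u) b (b + 1) p .s (by omega)
    rcases hl' with h6 | h6
    · subst h6
      have vK : ZF D E (x, 1) a (Function.update (Function.update u b p) (b + 1) .s) =
          gR (kap D) (th D) u E c :=
        val_S (b := b + 1) (c := c) (p := p) (by omega) (by omega) hp
          (fun k k1 k2 => by
            by_cases k3 : k = b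
            · exact (ev2 k).1 k3
            · rw [(ev2 k).2.2 k3 (by omega)]
              exact h1 k k1 (by omega))
          (fun k k1 k2 => by
            by_cases k3 : k = b + 1
            · exact (ev2 k).2.1 k3
            · rw [(ev2 k).2.2 (by omega) k3, show k = c by omega]
              exact h3)
          (fun k k1 => (ev2 k).2.2 (by omega) (by omega))
      by_cases hc1 : u (c + 1) = .s
      · rw [d4_R2 (F := ZF D E (x, 1) a) hu (r := .s) hpq hq (fun h => hq h.symm)
          (h1 _ (by omega) (by omega))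
          (h1 _ (by omega) (by omega)) (fun k k1 k2 => h2 k k1 (by omega))
          (by rw [show b + 2 = c by omega]; exact h3)
          (by rw [show b + 3 = c + 1 by omega]; exact hc1), v0, vK]
        linarith
      · have hkl : Kl u c := ⟨h3, by rw [h2 (c - 1) (by omega) (by omega)]; exact hq, Or.inl hc1⟩
        rw [ind_true hkl]
        have s1 := SF_K2 (F := ZF D E (x, 1) a) hu (r := .s) hpq hq (fun h => hq h.symm)
          (h1 (b - 2) (by omega) (by omega)) (h1 (b - 1) (by omega) (by omega)) hb hb1
          (by rw [show b + 2 = c by omega]; exact h3)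
        have s2 := SF_univ (D := D) (by omega) hu (E := E) (i := b + 1) (a := a) (s := (x, 1))
          (by omega) (by omega) hx hx1
        rw [v0, vK] at s1
        rw [sum_Ico_two, s1]
        linarith
    · subst h6
      have ev3 := upd3_eval (u := u) b (b + 1) (b + 2) p .s .s (by omega) (by omega) (by omega)
      have vK : ZF D E (x, 1) a (Function.update (Function.update (Function.update u b p)
          (b + 1) .s) (b + 2) .s) = gR (kap D) (th D) u E c :=
        val_S (b := b + 1) (c := c) (p := p) (by omega) (by omega) hp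
          (fun k k1 k2 => by
            by_cases k3 : k = b
            · exact (ev3 k).1 k3
            · rw [(ev3 k).2.2.2 k3 (by omega) (by omega)]
              exact h1 k k1 (by omega))
          (fun k k1 k2 => by
            by_cases k3 : k = b + 1
            · exact (ev3 k).2.1 k3
            · by_cases k4 : k = b + 2
              · exact (ev3 k).2.2.1 k4
              · rw [(ev3 k).2.2.2 (by omega) k3 k4, show k = c by omega]
                exact h3)
          (fun k k1 => (ev3 k).2.2.2 (by omega) (by omega) (by omega))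
      rw [d4_R3 (F := ZF D E (x, 1) a) hu (r := .s) hpq hq (fun h => hq h.symm)
          (h1 _ (by omega) (by omega))
          (h1 _ (by omega) (by omega)) (fun k k1 k2 => h2 k k1 (by omega))
          (by rw [show b + 3 = c by omega]; exact h3), if_pos rfl, v0, vK, vR]
      linarith
  · rw [d4_R4 (F := ZF D E (x, 1) a) hu hpq (h1 _ (by omega) (by omega))
        (h1 _ (by omega) (by omega)) (fun k k1 k2 => h2 k k1 (by omega)), v0, vR]
    linarith

/-- colour, constant tail -/
lemma d4_CC3 (hu : Rt u) (hl : b = a + l) (hl2 : 2 ≤ l)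
    (hE : b + 1 ≤ E) (hp : p ≠ .s) (hq : q ≠ .s) (hpq : p ≠ q)
    (h1 : ∀ k, a ≤ k → k < b → u k = p) (h2 : ∀ k, b ≤ k → u k = q) :
    ∑ i ∈ Finset.Ico (a + 2) (b + 2), SF (ZF D E (x, 1) a) u i =
      d4_nL l * (x * (kap D (l - 1) - kap D l)) +
      2 * (x * (kap D (l + 1) - kap D l)) := by
  have hb : u b = q := h2 b le_rfl
  have hb1 : u (b + 1) = q := h2 _ (by omega)
  have hqp : q ≠ p := fun h => hpq h.symm
  have v0 : ZF D E (x, 1) a u = x * kap D l + x * th D ^ l * VV D u E 1 b +
      gR (kap D) (th D) u E b :=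
    val_CC hl (by omega) (by omega) hp h1 (by rw [hb]; exact hqp) (by rw [hb]; exact hq)
  have vL := val_CC_L (D := D) (E := E) (x := x) (q := q) hl hl2 (by omega) hp h1 hb hqp hq
  have vR := val_CC_R (D := D) (E := E) (x := x) (q := q) hl (by omega) hp h1 hb hb1 hqp hq
  have V1 : VV D u E 1 b = 0 := VV_tail h2 1
  have V2 : VV D u E 2 b = 0 := VV_tail h2 2
  have V1' : VV D u E 1 (b + 1) = 0 := VV_tail (fun k hk => h2 k (by omega)) 1
  rw [V1, mul_zero, add_zero] at v0
  rw [V2, mul_zero, add_zero] at vL
  rw [V1', mul_zero, add_zero] at vR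
  rw [sum_Ico_split _ (a := a + 2) (b := b) (c := b + 2) (by omega) (by omega),
    d4_LM hu hl hl2 hpq h1 hb hb1, vL, v0, add_sub_add_right_eq_sub, ← mul_sub,
    d4_R4 (F := ZF D E (x, 1) a) hu hpq (h1 _ (by omega) (by omega))
        (h1 _ (by omega) (by omega)) (fun k k1 _ => h2 k k1), v0, vR]
  ring

/-- what it means that a star run is not killable -/
lemma nk_iff (hm : c = b + m) (hm1 : 1 ≤ m) (hb : u (b - 1) = p) (hp : p ≠ .s)
    (hs : ∀ k, b ≤ k → k < c → u k = .s) (hr : u c = r) (hrs : r ≠ .s) (hk : ¬ Kl u b) :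
    2 ≤ m ∧ (m ≤ 3 → p ≠ r) := by
  have h0 : u b = .s := hs b le_rfl (by omega)
  have key : ¬ (u (b + 1) ≠ .s ∨
      (u (b + 1) = .s ∧ u (b + 2) ≠ .s ∧ u (b + 2) = u (b - 1)) ∨
      (u (b + 1) = .s ∧ u (b + 2) = .s ∧ u (b + 3) ≠ .s ∧ u (b + 3) = u (b - 1))) :=
    fun h => hk ⟨h0, by rw [hb]; exact hp, h⟩
  push Not at key
  obtain ⟨k1, k2, k3⟩ := key
  have hm2 : 2 ≤ m := by
    by_contra hc
    have : b + 1 = c := by omega
    rw [this, hr] at k1
    exact hrs k1
  refine ⟨hm2, fun h3 hpr => ?_⟩
  rcases (show m = 2 ∨ m = 3 by omega) with h4 | h4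
  · have e : b + 2 = c := by omega
    rw [e, hr, hb] at k2
    exact k2 k1 hrs hpr.symm
  · have e : b + 3 = c := by omega
    rw [e, hr, hb] at k3
    exact k3 k1 (hs _ (by omega) (by omega)) hrs hpr.symm

/-- a killable star run has length at most three -/
lemma kl_len (hm : c = b + m) (hs : ∀ k, b ≤ k → k < c → u k = .s) (hk : Kl u b) : m ≤ 3 := by
  by_contra hc
  obtain ⟨-, -, h⟩ := hk
  have a1 : u (b + 1) = .s := hs _ (by omega) (by omega)
  have a2 : u (b + 2) = .s := hs _ (by omega) (by omega)
  have a3 : u (b + 3) = .s := hs _ (by omega) (by omega)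
  rcases h with h | h | h
  · exact h a1
  · exact h.2.1 a2
  · exact h.2.2.1 a3

/-- colour, star (not killable) -/
lemma d4_CS (hu : Rt u) (hl : b = a + l) (hl2 : 2 ≤ l) (hm : c = b + m)
    (hm1 : 1 ≤ m) (hE : c + 2 ≤ E) (hp : p ≠ .s)
    (h1 : ∀ k, a ≤ k → k < b → u k = p) (h2 : ∀ k, b ≤ k → k < c → u k = .s) (h3 : u c = r)
    (hr : r ≠ .s) (hk : ¬ Kl u b) :
    ∑ i ∈ Finset.Ico (a + 2) (b + 2), SF (ZF D E (x, 1) a) u i =
      d4_nK m * (VV D u E 2 c - VV D u E 1 c) := by
  have hb : u b = .s := h2 b le_rfl (by omega)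
  have hbm : u (b - 1) = p := h1 _ (by omega) (by omega)
  obtain ⟨hm2, hpr⟩ := nk_iff hm hm1 hbm hp h2 h3 hr hk
  have hb1 : u (b + 1) = .s := h2 _ (by omega) (by omega)
  have hc1 : u (c + 1) = r := by
    rw [← h3]
    refine hu.next ?_ (by rw [h3]; exact hr)
    rw [h3, h2 (c - 1) (by omega) (by omega)]
    exact hr
  have v0 : ZF D E (x, 1) a u = gR (kap D) (th D) u E b :=
    val_S (b := b) (c := b) (p := p) (by omega) le_rfl hp h1
      (fun k k1 k2 => by rw [show k = b by omega]; exact hb) (fun _ _ => rfl)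
  have hgR : gR (kap D) (th D) u E b = VV D u E 1 c + gR (kap D) (th D) u E c :=
    gR_star (kap D) (th D) u E (by omega) (by omega) h2 (by rw [h3]; exact hr)
  have hgR1 : gR (kap D) (th D) u E b = gR (kap D) (th D) u E (b + 1) :=
    gR_skip (kap D) (th D) u E (by omega) (fun k k1 k2 hc => hc.2 (by
      rw [show k = b by omega]; exact hb1))
  have vL : ZF D E (x, 1) a (Function.update u (b - 1) .s) = gR (kap D) (th D) u E b :=
    val_S (b := b - 1) (c := b) (p := p) (by omega) (by omega) hp
      (fun k k1 k2 => by rw [upd_ne (by omega)]; exact h1 k k1 (by omega))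
      (fun k k1 k2 => by
        by_cases k3 : k = b - 1
        · rw [upd_at k3]
        · rw [upd_ne k3, show k = b by omega]; exact hb)
      (fun k k1 => upd_ne (by omega))
  have vR : ZF D E (x, 1) a (Function.update u b p) = gR (kap D) (th D) u E (b + 1) :=
    val_S (b := b + 1) (c := b + 1) (p := p) (by omega) le_rfl hp
      (fun k k1 k2 => by
        by_cases k3 : k = b
        · rw [upd_at k3]
        · rw [upd_ne k3]; exact h1 k k1 (by omega))
      (fun k k1 k2 => by rw [show k = b + 1 by omega, upd_ne (by omega)]; exact hb1)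
      (fun k k1 => upd_ne (by omega))
  have vS : ZF D E (x, 1) a (Function.update u (c - 1) r) =
      VV D u E 2 c + gR (kap D) (th D) u E c := by
    have e1 : ZF D E (x, 1) a (Function.update u (c - 1) r) =
        ZF D E (x, 1) b (Function.update u (c - 1) r) := by
      unfold ZF
      exact ev_last (by omega) hp
        (fun k k1 k2 => by rw [upd_ne (by omega)]; exact h1 k k1 k2)
        (by rw [upd_ne (by omega)]; exact hb) x
    rw [e1]
    exact val_SC (a := b) (b := c - 1) (c := c) (l := 1) (q := r) (by omega) (by omega)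
      (by omega) hr (fun k k1 k2 => by rw [upd_ne (by omega)]; exact h2 k k1 (by omega))
      (fun k k1 k2 => by
        by_cases k3 : k = c - 1
        · rw [upd_at k3]
        · rw [upd_ne k3, show k = c by omega]; exact h3)
      (fun k k1 => upd_ne (by omega))
  rw [sum_Ico_split _ (a := a + 2) (b := b) (c := b + 2) (by omega) (by omega),
    d4_LM hu hl hl2 hp h1 hb hb1,
    d4_RS (F := ZF D E (x, 1) a) hu hm hm2 hp hr hpr (h1 _ (by omega) (by omega)) hbm h2 h3 hc1,
    vL, vR, vS, v0, ← hgR1, hgR]
  ring

/-- star (not killable), colour, colour -/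
lemma d4_SC1 (hu : Rt u) (hl : b = a + l) (hl2 : 2 ≤ l) (hm : c = b + m)
    (hm2 : 2 ≤ m) (hE : c + 2 ≤ E) (hq : q ≠ .s)
    (h1 : ∀ k, a ≤ k → k < b → u k = .s) (h2 : ∀ k, b ≤ k → k < c → u k = q) (h3 : u c = r)
    (hrq : r ≠ q) (hr : r ≠ .s) :
    ∑ i ∈ Finset.Ico (a + 2) (b + 2), SF (ZF D E (x, 1) a) u i =
      d4_nL l * (VV D u E 2 b - VV D u E 1 b) + d4_nL m * (VV D u E 1 (b + 1) - VV D u E 1 b) +
      d4_nK m * (VV D u E 2 c - VV D u E 1 b) := by
  have hb : u b = q := h2 b le_rfl (by omega)
  have hb1 : u (b + 1) = q := h2 _ (by omega) (by omega)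
  have hpq : Sy.s ≠ q := fun h => hq h.symm
  have v0 : ZF D E (x, 1) a u = VV D u E 1 b + gR (kap D) (th D) u E b :=
    val_SC (l := 0) (c := b) (b := b) (q := q) (by omega) (by push_cast; ring) (by omega) hq h1
      (fun k k1 k2 => by rw [show k = b by omega]; exact hb) (fun _ _ => rfl)
  have hgR1 : gR (kap D) (th D) u E b = gR (kap D) (th D) u E (b + 1) :=
    gR_run (kap D) (th D) u E (by omega) (fun k k1 k2 => by
      rw [show k = b by omega, hb]; exact hq)
  have hgRc : gR (kap D) (th D) u E b = gR (kap D) (th D) u E c :=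
    gR_run (kap D) (th D) u E (by omega) (fun k k1 k2 => by rw [h2 k k1 k2]; exact hq)
  have vL : ZF D E (x, 1) a (Function.update u (b - 1) q) =
      VV D u E 2 b + gR (kap D) (th D) u E b :=
    val_SC (l := 1) (c := b) (b := b - 1) (q := q) (by omega) (by push_cast; ring) (by omega) hq
      (fun k k1 k2 => by rw [upd_ne (by omega)]; exact h1 k k1 (by omega))
      (fun k k1 k2 => by
        by_cases k3 : k = b - 1
        · rw [upd_at k3]
        · rw [upd_ne k3, show k = b by omega]; exact hb)
      (fun k k1 => upd_ne (by omega))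
  have vR : ZF D E (x, 1) a (Function.update u b .s) =
      VV D u E 1 (b + 1) + gR (kap D) (th D) u E (b + 1) :=
    val_SC (l := 0) (c := b + 1) (b := b + 1) (q := q) (by omega) (by push_cast; ring) (by omega)
      hq
      (fun k k1 k2 => by
        by_cases k3 : k = b
        · rw [upd_at k3]
        · rw [upd_ne k3]; exact h1 k k1 (by omega))
      (fun k k1 k2 => by rw [show k = b + 1 by omega, upd_ne (by omega)]; exact hb1)
      (fun k k1 => upd_ne (by omega))
  rw [sum_Ico_split _ (a := a + 2) (b := b) (c := b + 2) (by omega) (by omega),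
    d4_LM hu hl hl2 hpq h1 hb hb1, vL, v0, add_assoc]
  have e1 : VV D u E 2 b + gR (kap D) (th D) u E b - (VV D u E 1 b + gR (kap D) (th D) u E b) =
      VV D u E 2 b - VV D u E 1 b := by ring
  rw [e1]
  congr 1
  rcases Nat.lt_or_ge m 4 with h5 | h5
  · have hl' : m = 2 ∨ m = 3 := by omega
    rcases hl' with h6 | h6
    · subst h6
      have ev2 := upd2_eval (u := u) b (b + 1) .s r (by omega)
      have hc1 : u (c + 1) = r := by
        rw [← h3]
        refine hu.next ?_ (by rw [h3]; exact hr)
        rw [h3, h2 (c - 1) (by omega) (by omega)]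
        exact hrq
      have vK : ZF D E (x, 1) a (Function.update (Function.update u b .s) (b + 1) r) =
          VV D u E 2 c + gR (kap D) (th D) u E c :=
        val_SC (l := 1) (c := c) (b := b + 1) (q := r) (by omega) (by omega) (by omega) hr
          (fun k k1 k2 => by
            by_cases k3 : k = b
            · exact (ev2 k).1 k3
            · rw [(ev2 k).2.2 k3 (by omega)]; exact h1 k k1 (by omega))
          (fun k k1 k2 => by
            by_cases k3 : k = b + 1
            · exact (ev2 k).2.1 k3
            · rw [(ev2 k).2.2 (by omega) k3, show k = c by omega]; exact h3)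
          (fun k k1 => (ev2 k).2.2 (by omega) (by omega))
      rw [d4_R2 (F := ZF D E (x, 1) a) hu (r := r) hpq hq hrq (h1 _ (by omega) (by omega))
        (h1 _ (by omega) (by omega)) (fun k k1 k2 => h2 k k1 (by omega))
        (by rw [show b + 2 = c by omega]; exact h3)
        (by rw [show b + 3 = c + 1 by omega]; exact hc1), vK, v0, d4_nL2, d4_nK2, hgRc]
      ring
    · subst h6
      have ev3 := upd3_eval (u := u) b (b + 1) (b + 2) .s .s r (by omega) (by omega) (by omega)
      have vK : ZF D E (x, 1) a (Function.update (Function.update (Function.update u b .s)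
          (b + 1) .s) (b + 2) r) = VV D u E 2 c + gR (kap D) (th D) u E c :=
        val_SC (l := 1) (c := c) (b := b + 2) (q := r) (by omega) (by omega) (by omega) hr
          (fun k k1 k2 => by
            by_cases k3 : k = b
            · exact (ev3 k).1 k3
            · by_cases k4 : k = b + 1
              · exact (ev3 k).2.1 k4
              · rw [(ev3 k).2.2.2 k3 k4 (by omega)]; exact h1 k k1 (by omega))
          (fun k k1 k2 => by
            by_cases k3 : k = b + 2
            · exact (ev3 k).2.2.1 k3
            · rw [(ev3 k).2.2.2 (by omega) (by omega) k3, show k = c by omega]; exact h3)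
          (fun k k1 => (ev3 k).2.2.2 (by omega) (by omega) (by omega))
      rw [d4_R3 (F := ZF D E (x, 1) a) hu (r := r) hpq hq hrq (h1 _ (by omega) (by omega))
        (h1 _ (by omega) (by omega)) (fun k k1 k2 => h2 k k1 (by omega))
        (by rw [show b + 3 = c by omega]; exact h3), if_neg hr, vK, v0, vR, d4_nL3, d4_nK3,
        ← hgR1, hgRc]
      ring
  · rw [d4_R4 (F := ZF D E (x, 1) a) hu hpq (h1 _ (by omega) (by omega))
        (h1 _ (by omega) (by omega)) (fun k k1 k2 => h2 k k1 (by omega)), v0, vR, d4_nL4 h5,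
        d4_nK4 h5, ← hgR1]
    ring

/-- star (not killable), colour, star -/
lemma d4_SC2 (hD : 1 ≤ D) (hu : Rt u) (hl : b = a + l) (hl2 : 2 ≤ l) (hm : c = b + m)
    (hm2 : 2 ≤ m) (hE : c + 2 ≤ E) (hq : q ≠ .s)
    (h1 : ∀ k, a ≤ k → k < b → u k = .s) (h2 : ∀ k, b ≤ k → k < c → u k = q) (h3 : u c = .s)
    (hx : 0 ≤ x) (hx1 : x ≤ 1) :
    ∑ i ∈ Finset.Ico (a + 2) (b + 2), SF (ZF D E (x, 1) a) u i ≤ 16 * ind (Kl u c) := by
  have hb : u b = q := h2 b le_rfl (by omega)
  have hb1 : u (b + 1) = q := h2 _ (by omega) (by omega)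
  have hpq : Sy.s ≠ q := fun h => hq h.symm
  have hgR1 : gR (kap D) (th D) u E b = gR (kap D) (th D) u E (b + 1) :=
    gR_run (kap D) (th D) u E (by omega) (fun k k1 k2 => by
      rw [show k = b by omega, hb]; exact hq)
  have hgRc : gR (kap D) (th D) u E b = gR (kap D) (th D) u E c :=
    gR_run (kap D) (th D) u E (by omega) (fun k k1 k2 => by rw [h2 k k1 k2]; exact hq)
  have V1 : VV D u E 1 b = 0 := VV_last (by omega) hq h2 h3 1
  have V2 : VV D u E 2 b = 0 := VV_last (by omega) hq h2 h3 2
  have V1' : VV D u E 1 (b + 1) = 0 :=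
    VV_last (by omega) hq (fun k k1 k2 => h2 k (by omega) k2) h3 1
  have v0 : ZF D E (x, 1) a u = gR (kap D) (th D) u E c := by
    have : ZF D E (x, 1) a u = VV D u E (0 + 1) b + gR (kap D) (th D) u E b :=
      val_SC (l := 0) (c := b) (b := b) (q := q) (by omega) (by push_cast; ring) (by omega) hq h1
        (fun k k1 k2 => by rw [show k = b by omega]; exact hb) (fun _ _ => rfl)
    rw [this, zero_add, V1, zero_add, hgRc]
  have vL : ZF D E (x, 1) a (Function.update u (b - 1) q) = gR (kap D) (th D) u E c := by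
    have : ZF D E (x, 1) a (Function.update u (b - 1) q) =
      VV D u E (1 + 1) b + gR (kap D) (th D) u E b :=
      val_SC (l := 1) (c := b) (b := b - 1) (q := q) (by omega) (by push_cast; ring) (by omega) hq
        (fun k k1 k2 => by rw [upd_ne (by omega)]; exact h1 k k1 (by omega))
        (fun k k1 k2 => by
          by_cases k3 : k = b - 1
          · rw [upd_at k3]
          · rw [upd_ne k3, show k = b by omega]; exact hb)
        (fun k k1 => upd_ne (by omega))
    rw [this, V2, zero_add, hgRc]
  have vR : ZF D E (x, 1) a (Function.update u b .s) = gR (kap D) (th D) u E c := by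
    have : ZF D E (x, 1) a (Function.update u b .s) =
      VV D u E (0 + 1) (b + 1) + gR (kap D) (th D) u E (b + 1) :=
      val_SC (l := 0) (c := b + 1) (b := b + 1) (q := q) (by omega) (by push_cast; ring)
        (by omega) hq
        (fun k k1 k2 => by
          by_cases k3 : k = b
          · rw [upd_at k3]
          · rw [upd_ne k3]; exact h1 k k1 (by omega))
        (fun k k1 k2 => by rw [show k = b + 1 by omega, upd_ne (by omega)]; exact hb1)
        (fun k k1 => upd_ne (by omega))
    rw [this, zero_add, V1', zero_add, ← hgR1, hgRc]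
  have hk := ind_nonneg (Kl u c)
  rw [sum_Ico_split _ (a := a + 2) (b := b) (c := b + 2) (by omega) (by omega),
    d4_LM hu hl hl2 hpq h1 hb hb1, vL, v0, sub_self, mul_zero, zero_add]
  rcases Nat.lt_or_ge m 4 with h5 | h5
  · have hl' : m = 2 ∨ m = 3 := by omega
    have ev2 := upd2_eval (u := u) b (b + 1) .s .s (by omega)
    rcases hl' with h6 | h6
    · subst h6
      have vK : ZF D E (x, 1) a (Function.update (Function.update u b .s) (b + 1) .s) =
          gR (kap D) (th D) u E c :=
        val_SS (c := c) (by omega)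
          (fun k k1 k2 => by
            by_cases k3 : k = b
            · exact (ev2 k).1 k3
            · by_cases k4 : k = b + 1
              · exact (ev2 k).2.1 k4
              · rw [(ev2 k).2.2 k3 k4]
                by_cases k5 : k = c
                · rw [k5]; exact h3
                · exact h1 k k1 (by omega))
          (fun k k1 => (ev2 k).2.2 (by omega) (by omega))
      by_cases hc1 : u (c + 1) = .s
      · rw [d4_R2 (F := ZF D E (x, 1) a) hu (r := .s) hpq hq hpq
          (h1 _ (by omega) (by omega))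
          (h1 _ (by omega) (by omega)) (fun k k1 k2 => h2 k k1 (by omega))
          (by rw [show b + 2 = c by omega]; exact h3)
          (by rw [show b + 3 = c + 1 by omega]; exact hc1), v0, vK, sub_self, mul_zero]
        linarith
      · have hkl : Kl u c := ⟨h3, by rw [h2 (c - 1) (by omega) (by omega)]; exact hq, Or.inl hc1⟩
        rw [ind_true hkl]
        have s1 := SF_K2 (F := ZF D E (x, 1) a) hu (r := .s) hpq hq hpq
          (h1 (b - 2) (by omega) (by omega)) (h1 (b - 1) (by omega) (by omega)) hb hb1
          (by rw [show b + 2 = c by omega]; exact h3)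
        have s2 := SF_univ (D := D) hD hu (E := E) (i := b + 1) (a := a) (s := (x, 1))
          (by omega) (by omega) hx hx1
        rw [v0, vK, sub_self] at s1
        rw [sum_Ico_two, s1]
        linarith
    · subst h6
      have ev3 := upd3_eval (u := u) b (b + 1) (b + 2) .s .s .s (by omega) (by omega) (by omega)
      have vK : ZF D E (x, 1) a (Function.update (Function.update (Function.update u b .s)
          (b + 1) .s) (b + 2) .s) = gR (kap D) (th D) u E c :=
        val_SS (c := c) (by omega)
          (fun k k1 k2 => by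
            by_cases k3 : k = b
            · exact (ev3 k).1 k3
            · by_cases k4 : k = b + 1
              · exact (ev3 k).2.1 k4
              · by_cases k6 : k = b + 2
                · exact (ev3 k).2.2.1 k6
                · rw [(ev3 k).2.2.2 k3 k4 k6]
                  by_cases k5 : k = c
                  · rw [k5]; exact h3
                  · exact h1 k k1 (by omega))
          (fun k k1 => (ev3 k).2.2.2 (by omega) (by omega) (by omega))
      rw [d4_R3 (F := ZF D E (x, 1) a) hu (r := .s) hpq hq hpq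
          (h1 _ (by omega) (by omega))
          (h1 _ (by omega) (by omega)) (fun k k1 k2 => h2 k k1 (by omega))
          (by rw [show b + 3 = c by omega]; exact h3), if_pos rfl, v0, vK, vR, sub_self, add_zero]
      linarith
  · rw [d4_R4 (F := ZF D E (x, 1) a) hu hpq (h1 _ (by omega) (by omega))
        (h1 _ (by omega) (by omega)) (fun k k1 k2 => h2 k k1 (by omega)), v0, vR, sub_self,
        mul_zero]
    linarith

/-- star (not killable), constant tail -/
lemma d4_SC3 (hu : Rt u) (hl : b = a + l) (hl2 : 2 ≤ l) (hE : b + 2 ≤ E) (hq : q ≠ .s)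
    (h1 : ∀ k, a ≤ k → k < b → u k = .s) (h2 : ∀ k, b ≤ k → u k = q) :
    ∑ i ∈ Finset.Ico (a + 2) (b + 2), SF (ZF D E (x, 1) a) u i = 0 := by
  have hb : u b = q := h2 b le_rfl
  have hb1 : u (b + 1) = q := h2 _ (by omega)
  have hpq : Sy.s ≠ q := fun h => hq h.symm
  have hgR1 : gR (kap D) (th D) u E b = gR (kap D) (th D) u E (b + 1) :=
    gR_run (kap D) (th D) u E (by omega) (fun k k1 k2 => by
      rw [show k = b by omega, hb]; exact hq)
  have V1 : VV D u E 1 b = 0 := VV_tail h2 1
  have V2 : VV D u E 2 b = 0 := VV_tail h2 2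
  have V1' : VV D u E 1 (b + 1) = 0 := VV_tail (fun k hk => h2 k (by omega)) 1
  have v0 : ZF D E (x, 1) a u = gR (kap D) (th D) u E b := by
    have : ZF D E (x, 1) a u = VV D u E (0 + 1) b + gR (kap D) (th D) u E b :=
      val_SC (l := 0) (c := b) (b := b) (q := q) (by omega) (by push_cast; ring) (by omega) hq h1
        (fun k k1 k2 => by rw [show k = b by omega]; exact hb) (fun _ _ => rfl)
    rw [this, zero_add, V1, zero_add]
  have vL : ZF D E (x, 1) a (Function.update u (b - 1) q) = gR (kap D) (th D) u E b := by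
    have : ZF D E (x, 1) a (Function.update u (b - 1) q) =
      VV D u E (1 + 1) b + gR (kap D) (th D) u E b :=
      val_SC (l := 1) (c := b) (b := b - 1) (q := q) (by omega) (by push_cast; ring) (by omega) hq
        (fun k k1 k2 => by rw [upd_ne (by omega)]; exact h1 k k1 (by omega))
        (fun k k1 k2 => by
          by_cases k3 : k = b - 1
          · rw [upd_at k3]
          · rw [upd_ne k3, show k = b by omega]; exact hb)
        (fun k k1 => upd_ne (by omega))
    rw [this, V2, zero_add]
  have vR : ZF D E (x, 1) a (Function.update u b .s) = gR (kap D) (th D) u E b := by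
    have : ZF D E (x, 1) a (Function.update u b .s) =
      VV D u E (0 + 1) (b + 1) + gR (kap D) (th D) u E (b + 1) :=
      val_SC (l := 0) (c := b + 1) (b := b + 1) (q := q) (by omega) (by push_cast; ring)
        (by omega) hq
        (fun k k1 k2 => by
          by_cases k3 : k = b
          · rw [upd_at k3]
          · rw [upd_ne k3]; exact h1 k k1 (by omega))
        (fun k k1 k2 => by rw [show k = b + 1 by omega, upd_ne (by omega)]; exact hb1)
        (fun k k1 => upd_ne (by omega))
    rw [this, zero_add, V1', zero_add, ← hgR1]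
  rw [sum_Ico_split _ (a := a + 2) (b := b) (c := b + 2) (by omega) (by omega),
    d4_LM hu hl hl2 hpq h1 hb hb1, vL, v0, sub_self, mul_zero, zero_add,
    d4_R4 (F := ZF D E (x, 1) a) hu hpq (h1 _ (by omega) (by omega))
        (h1 _ (by omega) (by omega)) (fun k k1 _ => h2 k k1), v0, vR, sub_self, mul_zero]

end bd

end Pool.Agent.T3M
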