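import Mathlib
import Pool.Agent.T3M.Defs
import Pool.Agent.T3M.Ba
import Pool.Agent.T3M.MGap
import Pool.Agent.T3M.MGapB
import Pool.Agent.T3M.MGapC
import Pool.Agent.T3M.MD4a
import Pool.Agent.T3M.MD4b
import Pool.Agent.T3M.MD4c
import Pool.Agent.T3M.MD4d

/-! The functional on the right-hand side, recursion over the runs (helper77). -/

set_option autoImplicit false

namespace Pool.Agent.T3M

/-- the weight of short runs -/
noncomputable def d4_sg (l : ℕ) : ℝ := ind (l ≤ 3)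

lemma d4_sg_nonneg (l : ℕ) : 0 ≤ d4_sg l := ind_nonneg _

noncomputable def d4_B (u : ℤ → Sy) (M a : ℤ) : ℝ := ∑ k ∈ Finset.Ico a M, ind (SE u k)

noncomputable def d4_K (u : ℤ → Sy) (M a : ℤ) : ℝ := ∑ k ∈ Finset.Ico a M, ind (Kl u k)

/-- the part of the right-hand side without weight -/
noncomputable def RH0 (D : ℕ) (u : ℤ → Sy) (E M a : ℤ) : ℝ :=
  -(1 / 4) * gR d4_sg (th D) u E a + 32 * d4_ep D * d4_B u M a + 200 * d4_K u M a

/-- the right-hand side -/
noncomputable def RH (D : ℕ) (u : ℤ → Sy) (E M : ℤ) (x : ℝ) (a : ℤ) : ℝ :=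
  x * (16 * d4_ep D - 1 / 4 * gV d4_sg (th D) u E 1 a) + RH0 D u E M a

/-- the left-hand side -/
noncomputable def GG (D : ℕ) (u : ℤ → Sy) (E M : ℤ) (x : ℝ) (a : ℤ) : ℝ :=
  ∑ i ∈ Finset.Ico (a + 2) M, SF (ZF D E (x, 1) a) u i

section rec

variable {D : ℕ} {u : ℤ → Sy} {E M a b c : ℤ} {p q r : Sy} {x : ℝ} {l m : ℕ}

lemma RH_zero : RH D u E M 0 a = RH0 D u E M a := by unfold RH; ring

lemma d4_B_nonneg : 0 ≤ d4_B u M a := Finset.sum_nonneg fun _ _ => ind_nonneg _

lemma d4_K_nonneg : 0 ≤ d4_K u M a := Finset.sum_nonneg fun _ _ => ind_nonneg _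

/-- colour before colour: number of star edges -/
lemma d4_B_CC (hab : a < b) (hbM : b ≤ M) (hp : p ≠ .s)
    (hr : ∀ k, a ≤ k → k < b → u k = p) (hb : u b ≠ .s) : d4_B u M a = d4_B u M b := by
  unfold d4_B
  rw [sum_Ico_split _ (a := a) (b := b) (c := M) hab.le hbM, Finset.sum_eq_zero, zero_add]
  intro k hk
  rw [Finset.mem_Ico] at hk
  apply ind_false
  unfold SE
  have h1 : u k ≠ .s := by rw [hr k hk.1 hk.2]; exact hp
  have h2 : u (k + 1) ≠ .s := by
    by_cases h3 : k + 1 = b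
    · rw [h3]; exact hb
    · rw [hr (k + 1) (by omega) (by omega)]; exact hp
  tauto

/-- colour before star -/
lemma d4_B_CS (hab : a < b) (hbM : b ≤ M) (hp : p ≠ .s)
    (hr : ∀ k, a ≤ k → k < b → u k = p) (hb : u b = .s) : d4_B u M a = 1 + d4_B u M b := by
  unfold d4_B
  rw [sum_Ico_split _ (a := a) (b := b - 1) (c := M) (by omega) (by omega), Finset.sum_eq_zero,
    zero_add, sum_Ico_split _ (a := b - 1) (b := b) (c := M) (by omega) (by omega)]
  · have e := sum_Ico_one (fun k => ind (SE u k)) (b - 1)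
    rw [sub_add_cancel] at e
    rw [e, ind_true]
    unfold SE
    rw [sub_add_cancel, hb, hr (b - 1) (by omega) (by omega)]
    tauto
  · intro k hk
    rw [Finset.mem_Ico] at hk
    apply ind_false
    unfold SE
    have h1 : u k ≠ .s := by rw [hr k hk.1 (by omega)]; exact hp
    have h2 : u (k + 1) ≠ .s := by rw [hr (k + 1) (by omega) (by omega)]; exact hp
    tauto

/-- star before colour -/
lemma d4_B_SC (hab : a < b) (hbM : b ≤ M)
    (hr : ∀ k, a ≤ k → k < b → u k = .s) (hb : u b ≠ .s) : d4_B u M a = 1 + d4_B u M b := by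
  unfold d4_B
  rw [sum_Ico_split _ (a := a) (b := b - 1) (c := M) (by omega) (by omega), Finset.sum_eq_zero,
    zero_add, sum_Ico_split _ (a := b - 1) (b := b) (c := M) (by omega) (by omega)]
  · have e := sum_Ico_one (fun k => ind (SE u k)) (b - 1)
    rw [sub_add_cancel] at e
    rw [e, ind_true]
    unfold SE
    rw [sub_add_cancel, hr (b - 1) (by omega) (by omega)]
    tauto
  · intro k hk
    rw [Finset.mem_Ico] at hk
    apply ind_false
    unfold SE
    rw [hr k hk.1 (by omega), hr (k + 1) (by omega) (by omega)]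
    tauto

lemma d4_K_C (hab : a < b) (hbM : b ≤ M) (hp : p ≠ .s)
    (hr : ∀ k, a ≤ k → k < b → u k = p) : d4_K u M a = d4_K u M b := by
  unfold d4_K
  rw [sum_Ico_split _ (a := a) (b := b) (c := M) hab.le hbM, Finset.sum_eq_zero, zero_add]
  intro k hk
  rw [Finset.mem_Ico] at hk
  apply ind_false
  intro h
  have := h.1
  rw [hr k hk.1 hk.2] at this
  exact hp this

lemma d4_K_S (hab : a < b) (hbM : b ≤ M)
    (hr : ∀ k, a ≤ k → k < b → u k = .s) : d4_K u M a = ind (Kl u a) + d4_K u M b := by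
  unfold d4_K
  rw [sum_Ico_split _ (a := a) (b := a + 1) (c := M) (by omega) (by omega), sum_Ico_one,
    sum_Ico_split _ (a := a + 1) (b := b) (c := M) (by omega) hbM, Finset.sum_eq_zero, zero_add]
  intro k hk
  rw [Finset.mem_Ico] at hk
  apply ind_false
  intro h
  exact h.2.1 (hr (k - 1) (by omega) (by omega))

lemma RH0_CC (hab : a < b) (hbM : b ≤ M) (hp : p ≠ .s)
    (hr : ∀ k, a ≤ k → k < b → u k = p) (hb : u b ≠ .s) : RH0 D u E M a = RH0 D u E M b := by
  unfold RH0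
  rw [d4_B_CC hab hbM hp hr hb, d4_K_C hab hbM hp hr,
    gR_run d4_sg (th D) u E (a := a) (b := b) hab.le (fun k h1 h2 => by rw [hr k h1 h2]; exact hp)]

lemma RH0_CS (hab : a < b) (hbM : b ≤ M) (hp : p ≠ .s)
    (hr : ∀ k, a ≤ k → k < b → u k = p) (hb : u b = .s) :
    RH0 D u E M a = 32 * d4_ep D + RH0 D u E M b := by
  unfold RH0
  rw [d4_B_CS hab hbM hp hr hb, d4_K_C hab hbM hp hr,
    gR_run d4_sg (th D) u E (a := a) (b := b) hab.le (fun k h1 h2 => by rw [hr k h1 h2]; exact hp)]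
  ring

lemma RH0_SC (hab : a < b) (hbM : b ≤ M) (hbE : b ≤ E)
    (hr : ∀ k, a ≤ k → k < b → u k = .s) (hb : u b ≠ .s) :
    RH0 D u E M a = 32 * d4_ep D + 200 * ind (Kl u a) - 1 / 4 * gV d4_sg (th D) u E 1 b +
      RH0 D u E M b := by
  unfold RH0
  rw [d4_B_SC hab hbM hr hb, d4_K_S hab hbM hr, gR_star d4_sg (th D) u E hab hbE hr hb]
  ring

lemma SV_CC (hl : b = a + l) (hl1 : 1 ≤ l) (hE : b ≤ E) (hp : p ≠ .s)
    (hr : ∀ k, a ≤ k → k < b → u k = p) (hb : u b ≠ p) (hb' : u b ≠ .s) :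
    gV d4_sg (th D) u E 1 a = ind (l ≤ 3) + th D ^ l * gV d4_sg (th D) u E 1 b := by
  have ha : u a = p := hr a le_rfl (by omega)
  rw [gV_run d4_sg (th D) u E (l := 1) (a := a) (b := b) (by omega) hE
    (fun k h1 h2 => by rw [hr k h1 h2, ha]) (by rw [ha]; exact hp) (by rw [ha]; exact hb) hb',
    show 1 + (b - 1 - a).toNat = l by omega]
  rfl

lemma SV_last (hab : a < b) (hp : p ≠ .s)
    (hr : ∀ k, a ≤ k → k < b → u k = p) (hb : u b = .s) : gV d4_sg (th D) u E 1 a = 0 := by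
  have ha : u a = p := hr a le_rfl (by omega)
  exact gV_run_last d4_sg (th D) u E hab (fun k h1 h2 => by rw [hr k h1 h2, ha])
    (by rw [ha]; exact hp) hb

lemma SV_tail (hr : ∀ k, a ≤ k → u k = p) : gV d4_sg (th D) u E 1 a = 0 :=
  gV_tail d4_sg (th D) u E (fun k h1 _ => by rw [hr k h1, hr a le_rfl])

/-- constant tail: everything is zero -/
lemma RH0_tail (hp : p ≠ .s) (hr : ∀ k, a ≤ k → u k = p) : RH0 D u E M a = 0 := by
  unfold RH0 d4_B d4_K
  have h1 : gR d4_sg (th D) u E a = 0 := by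
    by_cases h : a ≤ E
    · rw [gR_run d4_sg (th D) u E (a := a) (b := E) h (fun k h1 h2 => by rw [hr k h1]; exact hp),
        gR_end d4_sg (th D) u E le_rfl]
    · exact gR_end d4_sg (th D) u E (by omega)
  rw [h1, Finset.sum_eq_zero, Finset.sum_eq_zero]
  · ring
  · intro k hk
    rw [Finset.mem_Ico] at hk
    apply ind_false
    intro h
    have := h.1
    rw [hr k hk.1] at this
    exact hp this
  · intro k hk
    rw [Finset.mem_Ico] at hk
    apply ind_false
    unfold SE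
    rw [hr k hk.1, hr (k + 1) (by omega)]
    tauto

lemma GG_tail (hu : Rt u) (hr : ∀ k, a ≤ k → u k = p) : GG D u E M x a = 0 := by
  unfold GG
  apply Finset.sum_eq_zero
  intro i hi
  rw [Finset.mem_Ico] at hi
  exact SF_inside hu (p := p) (fun k h1 h2 => hr k (by omega))

lemma GG_split (hu : Rt u) (hab : a ≤ b) (hbM : b + 2 ≤ M) {C y : ℝ}
    (hF : ∀ w : ℤ → Sy, (∀ k, k ≤ b → w k = u k) →
      ZF D E (x, 1) a w = C + ZF D E (y, 1) b w) :
    GG D u E M x a = ∑ i ∈ Finset.Ico (a + 2) (b + 2), SF (ZF D E (x, 1) a) u i +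
      GG D u E M y b := by
  unfold GG
  rw [sum_Ico_split _ (a := a + 2) (b := b + 2) (c := M) (by omega) hbM]
  congr 1
  apply Finset.sum_congr rfl
  intro i hi
  rw [Finset.mem_Ico] at hi
  exact SF_shift hu hF hi.1

lemma GG_CC (hu : Rt u) (hl : b = a + l) (hl1 : 1 ≤ l) (hE : b ≤ E) (hbM : b + 2 ≤ M)
    (hp : p ≠ .s) (hr : ∀ k, a ≤ k → k < b → u k = p) (hb : u b ≠ p) (hb' : u b ≠ .s) :
    GG D u E M x a = ∑ i ∈ Finset.Ico (a + 2) (b + 2), SF (ZF D E (x, 1) a) u i +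
      GG D u E M (x * th D ^ l) b :=
  GG_split hu (by omega) hbM (fun w hw => ev_wall hl hl1 hE hp
    (fun k k1 k2 => by rw [hw k (by omega)]; exact hr k k1 k2) (by rw [hw b le_rfl]; exact hb)
    (by rw [hw b le_rfl]; exact hb'))

lemma GG_CS (hu : Rt u) (hab : a < b) (hbM : b + 2 ≤ M)
    (hp : p ≠ .s) (hr : ∀ k, a ≤ k → k < b → u k = p) (hb : u b = .s) :
    GG D u E M x a = ∑ i ∈ Finset.Ico (a + 2) (b + 2), SF (ZF D E (x, 1) a) u i +
      GG D u E M x b :=
  GG_split (C := 0) hu (by omega) hbM (fun w hw => by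
    rw [zero_add]
    exact ev_last hab hp (fun k k1 k2 => by rw [hw k (by omega)]; exact hr k k1 k2)
      (by rw [hw b le_rfl]; exact hb) x)

lemma GG_SC (hu : Rt u) (hab : a < b) (hE : b ≤ E) (hbM : b + 2 ≤ M)
    (hr : ∀ k, a ≤ k → k < b → u k = .s) (hb : u b ≠ .s) :
    GG D u E M x a = ∑ i ∈ Finset.Ico (a + 2) (b + 2), SF (ZF D E (x, 1) a) u i +
      GG D u E M 1 b :=
  GG_split (C := 0) hu (by omega) hbM (fun w hw => by
    rw [zero_add]
    exact ev_star hab hE (fun k k1 k2 => by rw [hw k (by omega)]; exact hr k k1 k2)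
      (by rw [hw b le_rfl]; exact hb) 1)

/-- a shorter current run costs at most one -/
lemma gV_back {κ : ℕ → ℝ} {t : ℝ} (hκ : ∀ l, 0 ≤ κ l) (hκ1 : ∀ l, κ l ≤ 1)
    (ht1 : t ≤ 1) (l : ℕ) (a : ℤ) : t * gV κ t u E l a ≤ 1 + gV κ t u E (l + 1) a := by
  revert l
  refine g_down E (P := fun a => ∀ l : ℕ, t * gV κ t u E l a ≤ 1 + gV κ t u E (l + 1) a) ?_ ?_ a
  · intro a ha l
    rw [gV_end κ t u E ha, gV_end κ t u E ha]
    norm_num
  · intro a ha ih l
    rw [gV_step κ t u E ha, gV_step κ t u E ha]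
    split_ifs
    · exact ih (l + 1)
    · norm_num
    · have h1 : t * κ l ≤ 1 := mul_le_one₀ ht1 (hκ l) (hκ1 l)
      have h2 : t ^ (l + 1) = t * t ^ l := by rw [pow_succ]; ring
      rw [h2]
      have h3 := hκ (l + 1)
      nlinarith

end rec

end Pool.Agent.T3M
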