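import Mathlib
import Pool.Agent.T3M.Defs
import Pool.Agent.T3M.St
import Pool.Agent.T3M.Ba
import Pool.Agent.T3M.MGap
import Pool.Agent.T3M.MGapB
import Pool.Agent.T3M.MGapC
import Pool.Agent.T3M.MD4a
import Pool.Agent.T3M.MD4b
import Pool.Agent.T3M.MD4c
import Pool.Agent.T3M.MD4d
import Pool.Agent.T3M.MD4e

/-! The drift of the gap functional (helper77): induction over the runs from right to left. -/

set_option autoImplicit false

namespace Pool.Agent.T3M

/-- colour run followed by a colour run -/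
def PA (D : ℕ) (u : ℤ → Sy) (E M a : ℤ) : Prop :=
  ∀ (x : ℝ), 0 ≤ x → x ≤ 1 → ∀ (b : ℤ) (p : Sy) (l : ℕ), b = a + l → 2 ≤ l → p ≠ .s →
    (∀ k, a ≤ k → k < b → u k = p) → u b ≠ p → u b ≠ .s →
    GG D u E M x a + d4_ep D * (x * VV D u E 1 a) +
      d4_nK l * (x * (th D ^ l * ((th D)⁻¹ * VV D u E 2 b - VV D u E 1 b))) ≤
      x * d4_rho D l + RH D u E M (x * th D ^ l) b

/-- colour run followed by a star run -/
def PB (D : ℕ) (u : ℤ → Sy) (E M a : ℤ) : Prop :=
  ∀ (x : ℝ), 0 ≤ x → x ≤ 1 → ∀ (b : ℤ) (p : Sy), a + 2 ≤ b → p ≠ .s →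
    (∀ k, a ≤ k → k < b → u k = p) → u b = .s →
    GG D u E M x a + 18 * ind (Kl u b) ≤ RH0 D u E M a

/-- star run -/
def PC (D : ℕ) (u : ℤ → Sy) (E M a : ℤ) : Prop :=
  ∀ (x : ℝ), 0 ≤ x → x ≤ 1 → ∀ (b : ℤ) (p : Sy) (l : ℕ), b = a + l → 1 ≤ l →
    (∀ k, a ≤ k → k < b → u k = .s) → u b ≠ .s → u (a - 1) = p → p ≠ .s →
    (¬ Kl u a → GG D u E M x a + d4_nK l * (VV D u E 2 b - VV D u E 1 b) ≤ RH0 D u E M a) ∧
    (Kl u a → GG D u E M x a + 82 ≤ RH0 D u E M a)

section ind

variable {D : ℕ} {u : ℤ → Sy} {N : ℕ} {E M a : ℤ}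

lemma d4_stepA (hD : 100 ≤ D) (hu : Rt u) (hz : Sup N u) (hM : M = N + 3) (hE : (N : ℤ) + 5 ≤ E)
    (ih : ∀ a', a < a' → PA D u E M a' ∧ PB D u E M a' ∧ PC D u E M a') : PA D u E M a := by
  obtain ⟨t1, t2, t3⟩ := d4_th hD
  obtain ⟨i1, i2, i3⟩ := d4_th_inv hD
  obtain ⟨e1, e2⟩ := d4_ep_mem hD
  have t0 : 0 ≤ th D := by linarith
  have hzz : ∀ k : ℤ, (N : ℤ) < k → u k = .z := fun k hk => hz k (by
    rcases abs_cases k with ⟨h1, _⟩ | ⟨h1, _⟩ <;> omega)
  intro x hx0 hx1 b p l hl hl2 hp hr hb hb'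
  have hbN : b ≤ N + 1 := by
    by_contra hc
    have h1 := hr (b - 1) (by omega) (by omega)
    rw [hzz (b - 1) (by omega)] at h1
    rw [hzz b (by omega)] at hb
    exact hb h1
  have hx' : 0 ≤ x * th D ^ l := mul_nonneg hx0 (pow_nonneg t0 l)
  have hx1' : x * th D ^ l ≤ 1 := mul_le_one₀ hx1 (pow_nonneg t0 l) (pow_le_one₀ t0 t2.le)
  rw [GG_CC hu hl (by omega) (by omega) (by omega) hp hr hb hb']
  have hVa : VV D u E 1 a = kap D l + th D ^ l * VV D u E 1 b :=
    VV_nl (j := 0) hl (by omega) (by omega) hp hr hb hb'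
  have hbp : p ≠ u b := fun h => hb h.symm
  rcases rn_exists u b with ht | ⟨c, hbc, hrc, hc⟩
  · -- constant tail
    rw [GG_tail hu (p := u b) ht, d4_CC3 hu hl hl2 (by omega) hp hb' hbp hr ht, hVa,
      VV_tail (u := u) (b := b) ht 1, VV_tail (u := u) (b := b) ht 2]
    unfold RH
    rw [RH0_tail hb' ht, SV_tail ht]
    unfold d4_rho
    nlinarith
  · have hbm : u b ≠ u (b - 1) := by
      rw [hr (b - 1) (by omega) (by omega)]
      exact hb
    have hb1 : u (b + 1) = u b := hu.next hbm hb'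
    have hc2 : b + 2 ≤ c := by
      by_contra h
      have : c = b + 1 := by omega
      rw [this] at hc
      exact hc hb1
    have hcN : c ≤ N + 1 := by
      by_contra h
      have h1 := hrc (c - 1) (by omega) (by omega)
      rw [hzz (c - 1) (by omega)] at h1
      rw [hzz c (by omega)] at hc
      exact hc h1
    obtain ⟨m, hm⟩ : ∃ m : ℕ, c = b + m := ⟨(c - b).toNat, by omega⟩
    by_cases hcs : u c = .s
    · -- the next run is the last one
      have h1 := d4_CC2 hD hu hl hl2 hm (by omega) (E := E) (by omega) hp hb' hbp hr hrc hcs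
        hx0 hx1
      have h2 := (ih b (by omega)).2.1 _ hx' hx1' c (u b) hc2 hb' hrc hcs
      rw [hVa, VV_last (u := u) (b := b) (c := c) (by omega) hb' hrc hcs 1,
        VV_last (u := u) (b := b) (c := c) (by omega) hb' hrc hcs 2]
      unfold RH
      rw [SV_last (by omega) hb' hrc hcs]
      unfold d4_rho
      have h3 : 0 ≤ x * th D ^ l * (16 * d4_ep D) := mul_nonneg hx' (by linarith)
      linarith
    · -- the next run is not the last one
      have hcp : u c = p := by
        revert hc hcs hb' hp hbp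
        generalize u c = y1
        generalize u b = y2
        revert p y1 y2
        intro p _ _ y1 y2
        cases p <;> cases y1 <;> cases y2 <;> simp
      have h1 := d4_CC1 hD hu hl hl2 hm (by omega) (E := E) (by omega) hp hb' hbp hr hrc hcp hx0
      have h2 := (ih b (by omega)).1 _ hx' hx1' c (u b) m hm (by omega) hb' hrc hc hcs
      have h3 := d4_star hD m (by omega)
      have h3' := mul_le_mul_of_nonneg_left h3 hx'
      have h5 : RH D u E M (x * th D ^ l) b = RH D u E M (x * th D ^ l * th D ^ m) c +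
          x * th D ^ l * (-(1 / 4) * ind (m ≤ 3) + (1 - th D ^ m) * (16 * d4_ep D)) := by
        unfold RH
        rw [SV_CC hm (by omega) (by omega) hb' hrc hc hcs, RH0_CC (by omega) (by omega) hb' hrc hcs]
        ring
      have hVb : VV D u E 1 b = kap D m + th D ^ m * VV D u E 1 c :=
        VV_nl (j := 0) hm (by omega) (by omega) hb' hrc hc hcs
      have hVb2 : VV D u E 2 b = kap D (m + 1) + th D ^ (m + 1) * VV D u E 1 c :=
        VV_nl (j := 1) hm (by omega) (by omega) hb' hrc hc hcs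
      have h6 : (th D)⁻¹ * VV D u E 2 b - VV D u E 1 b =
          (th D)⁻¹ * kap D (m + 1) - kap D m := by
        rw [hVb, hVb2, pow_succ]
        have : (th D)⁻¹ * (kap D (m + 1) + th D ^ m * th D * VV D u E 1 c) =
            (th D)⁻¹ * kap D (m + 1) + ((th D)⁻¹ * th D) * (th D ^ m * VV D u E 1 c) := by ring
        rw [this, i3]
        ring
      rw [hVa, h5, h6]
      rw [h6] at h1
      unfold d4_lw at h3'
      unfold d4_rho at h2 h3' ⊢
      have hnK : d4_nK l = 2 - d4_nL l := rfl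
      rw [hnK]
      linarith

lemma d4_stepB (hu : Rt u) (hz : Sup N u) (hM : M = N + 3) (hE : (N : ℤ) + 5 ≤ E)
    (hD : 100 ≤ D)
    (ih : ∀ a', a < a' → PA D u E M a' ∧ PB D u E M a' ∧ PC D u E M a') : PB D u E M a := by
  obtain ⟨e1, e2⟩ := d4_ep_mem hD
  have hzz : ∀ k : ℤ, (N : ℤ) < k → u k = .z := fun k hk => hz k (by
    rcases abs_cases k with ⟨h1, _⟩ | ⟨h1, _⟩ <;> omega)
  intro x hx0 hx1 b p hab hp hr hb
  have hbN : b ≤ N := by
    by_contra hc
    rw [hzz b (by omega)] at hb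
    cases hb
  rw [GG_CS hu (by omega) (by omega) hp hr hb]
  rcases rn_exists u b with ht | ⟨c, hbc, hrc, hc⟩
  · have h1 := ht (N + 1) (by omega)
    rw [hzz _ (by omega), hb] at h1
    cases h1
  rw [hb] at hrc hc
  have hcN : c ≤ N + 1 := by
    by_contra h
    have h1 := hrc (c - 1) (by omega) (by omega)
    rw [hzz (c - 1) (by omega)] at h1
    cases h1
  obtain ⟨m, hm⟩ : ∃ m : ℕ, c = b + m := ⟨(c - b).toNat, by omega⟩
  obtain ⟨l, hl⟩ : ∃ l : ℕ, b = a + l := ⟨(b - a).toNat, by omega⟩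
  have hbm : u (b - 1) = p := hr _ (by omega) (by omega)
  obtain ⟨h1, h2⟩ := (ih b (by omega)).2.2 x hx0 hx1 c p m hm (by omega) hrc hc hbm hp
  rw [RH0_CS (by omega) (by omega) hp hr hb]
  by_cases hk : Kl u b
  · rw [ind_true hk]
    have h3 := h2 hk
    obtain ⟨d, hd⟩ : ∃ d : ℤ, d = max (a + 2) (b - 2) := ⟨_, rfl⟩
    have hd1 : a + 2 ≤ d := by rw [hd]; exact le_max_left _ _
    have hd2 : b - 2 ≤ d := by rw [hd]; exact le_max_right _ _
    have hd3 : d ≤ b := by rw [hd]; exact max_le (by omega) (by omega)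
    have hd4 : d = a + 2 ∨ d = b - 2 := by
      rcases le_total (a + 2) (b - 2) with h | h
      · right; rw [hd, max_eq_right h]
      · left; rw [hd, max_eq_left h]
    have h4 : ∑ i ∈ Finset.Ico (a + 2) (b + 2), SF (ZF D E (x, 1) a) u i ≤ 64 := by
      rw [sum_Ico_split _ (a := a + 2) (b := d) (c := b + 2) hd1 (by omega),
        Finset.sum_eq_zero, zero_add]
      · have := sum_univ (D := D) (by omega) hu (E := E) (a := a) (b := d) (c := b + 2)
          (s := (x, 1)) (by omega) hd1 hx0 hx1 4 (by push_cast; omega)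
        refine this.trans ?_
        norm_num
      · intro i hi
        rw [Finset.mem_Ico] at hi
        exact SF_inside hu (p := p) (fun k h1 h2 => hr k (by omega) (by omega))
    linarith
  · rw [ind_false hk, d4_CS hu hl (by omega) hm (by omega) (by omega) hp hr hrc rfl hc hk]
    have h3 := h1 hk
    linarith

lemma d4_stepC (hD : 100 ≤ D) (hu : Rt u) (hz : Sup N u) (hM : M = N + 3) (hE : (N : ℤ) + 5 ≤ E)
    (ih : ∀ a', a < a' → PA D u E M a' ∧ PB D u E M a' ∧ PC D u E M a') : PC D u E M a := by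
  obtain ⟨t1, t2, t3⟩ := d4_th hD
  obtain ⟨i1, i2, i3⟩ := d4_th_inv hD
  obtain ⟨e1, e2⟩ := d4_ep_mem hD
  have t0 : 0 ≤ th D := by linarith
  have hzz : ∀ k : ℤ, (N : ℤ) < k → u k = .z := fun k hk => hz k (by
    rcases abs_cases k with ⟨h1, _⟩ | ⟨h1, _⟩ <;> omega)
  intro x hx0 hx1 b p l hl hl1 hr hb ham hp
  have hbN : b ≤ N + 1 := by
    by_contra hc
    have h1 := hr (b - 1) (by omega) (by omega)
    rw [hzz (b - 1) (by omega)] at h1
    cases h1
  rw [GG_SC hu (by omega) (by omega) (by omega) hr hb,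
    RH0_SC (by omega) (by omega) (by omega) hr hb]
  -- all marks of a killable run
  have hkill : Kl u a → ∑ i ∈ Finset.Ico (a + 2) (b + 2), SF (ZF D E (x, 1) a) u i ≤ 48 := by
    intro hk
    have h3 := kl_len hl hr hk
    have := sum_univ (D := D) (by omega) hu (E := E) (a := a) (b := a + 2) (c := b + 2)
      (s := (x, 1)) (by omega) le_rfl hx0 hx1 3 (by push_cast; omega)
    refine this.trans ?_
    norm_num
  have hnk : ¬ Kl u a → 2 ≤ l := fun hk => (nk_iff hl hl1 ham hp hr rfl hb hk).1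
  rcases rn_exists u b with ht | ⟨c, hbc, hrc, hc⟩
  · -- constant tail
    rw [GG_tail hu (p := u b) ht, VV_tail (u := u) (b := b) ht 1, VV_tail (u := u) (b := b) ht 2,
      SV_tail ht, RH0_tail hb ht]
    constructor
    · intro hk
      rw [d4_SC3 hu hl (hnk hk) (by omega) hb hr ht, ind_false hk]
      linarith
    · intro hk
      rw [ind_true hk]
      have := hkill hk
      linarith
  · have hbm : u b ≠ u (b - 1) := by
      rw [hr (b - 1) (by omega) (by omega)]
      exact hb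
    have hb1 : u (b + 1) = u b := hu.next hbm hb
    have hc2 : b + 2 ≤ c := by
      by_contra h
      have : c = b + 1 := by omega
      rw [this] at hc
      exact hc hb1
    have hcN : c ≤ N + 1 := by
      by_contra h
      have h1 := hrc (c - 1) (by omega) (by omega)
      rw [hzz (c - 1) (by omega)] at h1
      rw [hzz c (by omega)] at hc
      exact hc h1
    obtain ⟨m, hm⟩ : ∃ m : ℕ, c = b + m := ⟨(c - b).toNat, by omega⟩
    by_cases hcs : u c = .s
    · have h2 := (ih b (by omega)).2.1 1 zero_le_one le_rfl c (u b) hc2 hb hrc hcs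
      rw [VV_last (u := u) (b := b) (c := c) (by omega) hb hrc hcs 1,
        VV_last (u := u) (b := b) (c := c) (by omega) hb hrc hcs 2,
        SV_last (by omega) hb hrc hcs]
      have hi := ind_nonneg (Kl u c)
      constructor
      · intro hk
        have h1 := d4_SC2 (D := D) (E := E) (x := x) (by omega) hu hl (hnk hk) hm (by omega)
          (by omega) hb hr hrc hcs hx0 hx1
        rw [ind_false hk]
        linarith
      · intro hk
        rw [ind_true hk]
        have := hkill hk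
        linarith
    · have h2 := (ih b (by omega)).1 1 zero_le_one le_rfl c (u b) m hm (by omega) hb hrc hc hcs
      rw [one_mul, one_mul, one_mul, one_mul] at h2
      have hVb : VV D u E 1 b = kap D m + th D ^ m * VV D u E 1 c :=
        VV_nl (j := 0) hm (by omega) (by omega) hb hrc hc hcs
      have hVb2 : VV D u E 2 b = kap D (m + 1) + th D ^ (m + 1) * VV D u E 1 c :=
        VV_nl (j := 1) hm (by omega) (by omega) hb hrc hc hcs
      have hVb1 : VV D u E 1 (b + 1) = kap D (m - 1) + th D ^ (m - 1) * VV D u E 1 c :=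
        VV_nl (b := b + 1) (m := m - 1) (j := 0) (by omega) (by omega) (by omega) hb
          (fun k k1 k2 => hrc k (by omega) k2) hc hcs
      have hpm : th D ^ m ≤ 1 := pow_le_one₀ t0 t2.le
      have hpm0 : 0 ≤ th D ^ m := pow_nonneg t0 m
      have h5 : RH D u E M (th D ^ m) c = th D ^ m * (16 * d4_ep D) + 1 / 4 * ind (m ≤ 3) -
          1 / 4 * gV d4_sg (th D) u E 1 b + RH0 D u E M b := by
        unfold RH
        rw [SV_CC hm (by omega) (by omega) hb hrc hc hcs, RH0_CC (by omega) (by omega) hb hrc hcs]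
        ring
      have h6 : th D ^ m * (16 * d4_ep D) ≤ 1 * (16 * d4_ep D) :=
        mul_le_mul_of_nonneg_right hpm (by linarith)
      have W2 : 0 ≤ VV D u E 2 c := gV_nonneg (kap D) (th D) u E (d3_kap_nonneg D) t0 2 c
      have W12 : VV D u E 2 c ≤ VV D u E 1 c := gV_anti (kap D) (th D) u E (d3_kap_nonneg D)
        (fun _ _ h => d3_kap_anti D (by omega) h) t0 t2.le 1 2 (by omega) c
      have hc1 : u (c + 1) = u c := hu.next (by rw [hrc (c - 1) (by omega) (by omega)]; exact hc) hcs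
      have W1 : (1 - th D ^ 2) * VV D u E 1 c ≤ 1 :=
        (g_fine (κ := kap D) hu (g_kap_le (by omega)) t0 t2.le c).2 hc1
      constructor
      · intro hk
        rw [d4_SC1 hu hl (hnk hk) hm (by omega) (by omega) hb hr hrc rfl hc hcs, ind_false hk]
        have h7 := d4_edge hD m (by omega) W2 W12 W1
        have hnK : d4_nK l = 2 - d4_nL l := rfl
        rw [hnK]
        rw [hVb] at h2
        rw [hVb, hVb2, hVb1]
        linarith
      · intro hk
        rw [ind_true hk]
        have h7 := hkill hk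
        have h8 := d4_rho_le hD m (by omega)
        have h9 := gV_back (u := u) (E := E) (d3_kap_nonneg D) (g_kap_le (D := D) (by omega))
          t2.le 1 c
        have V0 : 0 ≤ VV D u E 1 b := gV_nonneg (kap D) (th D) u E (d3_kap_nonneg D) t0 1 b
        have h10 : VV D u E 1 c - (th D)⁻¹ * VV D u E 2 c ≤ 2 := by
          have e1 : VV D u E 1 c = (th D)⁻¹ * (th D * VV D u E 1 c) := by
            rw [← mul_assoc, i3, one_mul]
          have e2 : (th D)⁻¹ * (th D * VV D u E 1 c) ≤ (th D)⁻¹ * (1 + VV D u E 2 c) :=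
            mul_le_mul_of_nonneg_left h9 (by linarith)
          have e3 : (th D)⁻¹ ≤ 2 := by nlinarith
          rw [e1]
          linarith
        have h11 : th D ^ m * (VV D u E 1 c - (th D)⁻¹ * VV D u E 2 c) ≤ 2 := by
          have e4 : th D ^ m * (VV D u E 1 c - (th D)⁻¹ * VV D u E 2 c) ≤ th D ^ m * 2 :=
            mul_le_mul_of_nonneg_left h10 hpm0
          linarith
        have h12 : d4_nK m * (th D ^ m * (VV D u E 1 c - (th D)⁻¹ * VV D u E 2 c)) ≤ 4 := by
          obtain ⟨n0, n2⟩ := d4_nK_mem m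
          nlinarith
        have h13 : 0 ≤ d4_ep D * VV D u E 1 b := mul_nonneg e1.le V0
        have h14 : 0 ≤ ind (m ≤ 3) := ind_nonneg _
        have h15 : ind (m ≤ 3) ≤ 1 := ind_le_one _
        linarith

/-- the induction -/
lemma d4_all (hD : 100 ≤ D) (hu : Rt u) (hz : Sup N u) (hM : M = N + 3) (hE : (N : ℤ) + 5 ≤ E) :
    ∀ a, PA D u E M a ∧ PB D u E M a ∧ PC D u E M a := by
  have hzz : ∀ k : ℤ, (N : ℤ) < k → u k = .z := fun k hk => hz k (by
    rcases abs_cases k with ⟨h1, _⟩ | ⟨h1, _⟩ <;> omega)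
  have key : ∀ (n : ℕ) (a : ℤ), (N : ℤ) + 1 - a ≤ n →
      PA D u E M a ∧ PB D u E M a ∧ PC D u E M a := by
    intro n
    induction n with
    | zero =>
      intro a ha
      have haN : (N : ℤ) < a := by push_cast at ha; omega
      refine ⟨?_, ?_, ?_⟩
      · intro x _ _ b p l hl hl2 hp hr hb hb'
        have h1 := hr a le_rfl (by omega)
        rw [hzz a haN] at h1
        rw [hzz b (by omega)] at hb
        exact absurd h1 hb
      · intro x _ _ b p hab hp hr hb
        rw [hzz b (by omega)] at hb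
        cases hb
      · intro x _ _ b p l hl hl1 hr
        have h1 := hr a le_rfl (by omega)
        rw [hzz a haN] at h1
        cases h1
    | succ n ih =>
      intro a ha
      push_cast at ha
      have ih' : ∀ a', a < a' → PA D u E M a' ∧ PB D u E M a' ∧ PC D u E M a' :=
        fun a' h => ih a' (by omega)
      exact ⟨d4_stepA hD hu hz hM hE ih', d4_stepB hu hz hM hE hD ih',
        d4_stepC hD hu hz hM hE ih'⟩
  intro a
  exact key ((N : ℤ) + 1 - a).toNat a (by omega)

end ind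

lemma d4_Bn_eq {u : ℤ → Sy} {N : ℕ} (hz : Sup N u) {a M : ℤ} (ha : a ≤ -((N : ℤ) + 1))
    (hM : (N : ℤ) + 1 ≤ M) : Bn u = d4_B u M a := by
  unfold Bn d4_B
  apply finsum_eq_sum_of_support_subset
  intro k hk
  rw [Function.mem_support] at hk
  rw [Finset.mem_coe, Finset.mem_Ico]
  by_contra hc
  apply hk
  apply ind_false
  unfold SE
  have h1 : (N : ℤ) < |k| := by
    rcases abs_cases k with ⟨h1, _⟩ | ⟨h1, _⟩ <;> omega
  have h2 : (N : ℤ) < |k + 1| := by
    rcases abs_cases (k + 1) with ⟨h1, _⟩ | ⟨h1, _⟩ <;> omega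
  rw [hz k h1, hz _ h2]
  tauto

lemma d4_kl_eq {u : ℤ → Sy} {N : ℕ} (hz : Sup N u) {a M : ℤ} (ha : a ≤ -((N : ℤ) + 1))
    (hM : (N : ℤ) + 1 ≤ M) : kl u = d4_K u M a := by
  unfold kl d4_K
  apply finsum_eq_sum_of_support_subset
  intro k hk
  rw [Function.mem_support] at hk
  rw [Finset.mem_coe, Finset.mem_Ico]
  by_contra hc
  apply hk
  apply ind_false
  intro h
  have h1 : (N : ℤ) < |k| := by
    rcases abs_cases k with ⟨h1, _⟩ | ⟨h1, _⟩ <;> omega
  have h2 := h.1
  rw [hz k h1] at h2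
  cases h2

/-- the generator on the gap functional is the sum over all marks -/
lemma d4_Lg_eq {D : ℕ} {u : ℤ → Sy} {N : ℕ} (hu : Rt u) (hz : Sup N u) {E : ℤ}
    (hE : (N : ℤ) + 5 ≤ E) :
    Lg (ZL D) u = GG D u E ((N : ℤ) + 3) 0 (-((N : ℤ) + 4)) := by
  rw [Lg_eq hu hz]
  unfold GG
  have hS : Finset.Icc (-((N + 2 : ℕ) : ℤ)) ((N + 2 : ℕ) : ℤ) =
      Finset.Ico (-((N : ℤ) + 4) + 2) ((N : ℤ) + 3) := by
    ext k
    rw [Finset.mem_Icc, Finset.mem_Ico]
    push_cast
    omega
  rw [hS]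
  apply Finset.sum_congr rfl
  intro i hi
  rw [Finset.mem_Ico] at hi
  have hz2 : Sup (N + 2) u := hz.mono (by omega)
  have hi' : |i| ≤ ((N + 2 : ℕ) : ℤ) := by
    push_cast
    rcases abs_cases i with ⟨h1, _⟩ | ⟨h1, _⟩ <;> omega
  have e : ∀ w : ℤ → Sy, Sup (N + 2) w → ZL D w = ZF D E (0, 1) (-((N : ℤ) + 4)) w := by
    intro w hw
    rw [ZL_eq D hw (E := E) (a := -((N : ℤ) + 4)) (by push_cast; omega) (by push_cast; omega)]
    unfold ZF Zst
    ring
  unfold SF
  rw [e _ (hz2.Rf hi' false), e _ (hz2.Rf hi' true), e u hz2]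

theorem thm_D4 : St_D4 := by
  refine ⟨200, by norm_num, fun u N D hD hu hz => ?_⟩
  obtain ⟨e1, e2⟩ := d4_ep_mem hD
  obtain ⟨t1, t2, -⟩ := d4_th hD
  obtain ⟨E, hE⟩ : ∃ E : ℤ, E = (N : ℤ) + 10 := ⟨_, rfl⟩
  have hall := d4_all (E := E) (M := (N : ℤ) + 3) hD hu hz rfl (by omega)
  have hz1 : ∀ k : ℤ, k < -(N : ℤ) → u k = .z := fun k hk => hz k (by
    rcases abs_cases k with ⟨h1, _⟩ | ⟨h1, _⟩ <;> omega)
  rw [d4_Lg_eq hu hz (E := E) (by omega),
    SL_eq D hz (E := E) (a := -((N : ℤ) + 4)) (by omega) (by omega),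
    d4_Bn_eq hz (a := -((N : ℤ) + 4)) (M := (N : ℤ) + 3) (by omega) (by omega),
    d4_kl_eq hz (a := -((N : ℤ) + 4)) (M := (N : ℤ) + 3) (by omega) (by omega)]
  have key : GG D u E ((N : ℤ) + 3) 0 (-((N : ℤ) + 4)) ≤
      RH0 D u E ((N : ℤ) + 3) (-((N : ℤ) + 4)) := by
    have ha : u (-((N : ℤ) + 4)) = .z := hz1 _ (by omega)
    have hzs : Sy.z ≠ .s := fun h => by cases h
    rcases rn_exists u (-((N : ℤ) + 4)) with ht | ⟨b, hab, hr, hb⟩
    · rw [ha] at ht
      rw [GG_tail hu (p := .z) ht, RH0_tail hzs ht]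
    · rw [ha] at hr hb
      have hb2 : -((N : ℤ) + 4) + 2 ≤ b := by
        by_contra h
        exact hb (hz1 b (by omega))
      have hbN : b ≤ N + 1 := by
        by_contra h
        exact hb (hz b (by rcases abs_cases b with ⟨h1, _⟩ | ⟨h1, _⟩ <;> omega))
      by_cases hbs : u b = .s
      · have h1 := (hall (-((N : ℤ) + 4))).2.1 0 le_rfl zero_le_one b .z hb2 hzs hr hbs
        have h2 := ind_nonneg (Kl u b)
        linarith
      · obtain ⟨l, hl⟩ : ∃ l : ℕ, b = -((N : ℤ) + 4) + l := ⟨(b - -((N : ℤ) + 4)).toNat, by omega⟩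
        have h1 := (hall (-((N : ℤ) + 4))).1 0 le_rfl zero_le_one b .z l hl (by omega) hzs hr hb
          hbs
        rw [zero_mul, zero_mul, zero_mul, zero_mul, mul_zero, mul_zero, RH_zero] at h1
        rw [RH0_CC hab (by omega) hzs hr hbs]
        linarith
  have hS : 0 ≤ gR (fun l => ind (l ≤ 3)) (th D) u E (-((N : ℤ) + 4)) :=
    gR_nonneg (fun l => ind (l ≤ 3)) (th D) u E (fun l => ind_nonneg _) (by linarith) _
  have hB : 0 ≤ d4_B u ((N : ℤ) + 3) (-((N : ℤ) + 4)) := d4_B_nonneg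
  have hBe := mul_nonneg e1.le hB
  have hep : 200 / (D : ℝ) ^ 2 = 200 * d4_ep D := by
    unfold d4_ep
    ring
  rw [hep]
  unfold RH0 at key
  have hsg : gR d4_sg (th D) u E (-((N : ℤ) + 4)) =
      gR (fun l => ind (l ≤ 3)) (th D) u E (-((N : ℤ) + 4)) := rfl
  rw [hsg] at key
  linarith

end Pool.Agent.T3M
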