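import Mathlib
import Pool.Agent.T3M.St
import Pool.Agent.T3M.MD3

/-!
D5a, D5b, D5c: crude bounds for the marks of one colour.

The functionals `Psi`, `Tq`, `Zs` depend on the star set only, a change of `m` star bits changes
them by at most `2 m`, `R m`, `2 m`, and a mark which is not near a star edge changes no star bit.
-/

set_option autoImplicit false

namespace Pool.Agent.T3M

/-! ### Sums -/

lemma d5_abs_sum {f g : ℤ → ℝ} (hf : d3_cs f) (hg : d3_cs g) (h : ∀ i, |f i| ≤ g i) :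
    |∑ᶠ i, f i| ≤ ∑ᶠ i, g i := by
  rw [abs_le]
  constructor
  · have h1 : ∑ᶠ i, (-1 : ℝ) * g i ≤ ∑ᶠ i, f i :=
      (hg.mul (-1)).sum_le hf fun i => by linarith [(abs_le.1 (h i)).1]
    rw [fs_mul] at h1
    linarith
  · exact hf.sum_le hg fun i => (abs_le.1 (h i)).2

lemma d5_cs_sub {f g : ℤ → ℝ} (hf : d3_cs f) (hg : d3_cs g) : d3_cs (fun i => f i - g i) := by
  obtain ⟨n, hn⟩ := hf
  obtain ⟨m, hm⟩ := hg
  refine ⟨n + m, fun i hi => ?_⟩
  push_cast at hi
  show f i - g i = 0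
  rw [hn i (by omega), hm i (by omega), sub_zero]

lemma d5_sum_sub {f g : ℤ → ℝ} (hf : d3_cs f) (hg : d3_cs g) :
    ∑ᶠ i, (f i - g i) = ∑ᶠ i, f i - ∑ᶠ i, g i := finsum_sub_distrib hf.fin hg.fin

lemma d5_cs_st {n : ℕ} {u : ℤ → Sy} (h : Sup n u) : d3_cs (st u) := ⟨n, fun _ hi => st_out h hi⟩

lemma d5_cs_SE {n : ℕ} {u : ℤ → Sy} (h : Sup n u) : d3_cs (fun i => ind (SE u i)) :=
  ⟨n + 1, fun _ hi => SE_out h hi⟩

/-! ### Change of the star set -/

/-- `1` where the star bits differ -/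
noncomputable def d5_del (u u' : ℤ → Sy) (k : ℤ) : ℝ := |st u k - st u' k|

lemma d5_cs_del {n n' : ℕ} {u u' : ℤ → Sy} (h : Sup n u) (h' : Sup n' u') :
    d3_cs (d5_del u u') := by
  obtain ⟨m, hm⟩ := d5_cs_sub (d5_cs_st h) (d5_cs_st h')
  refine ⟨m, fun i hi => ?_⟩
  have h2 : st u i - st u' i = 0 := hm i hi
  unfold d5_del
  rw [h2, abs_zero]

lemma d5_del_nonneg (u u' : ℤ → Sy) (k : ℤ) : 0 ≤ d5_del u u' k := abs_nonneg _

lemma d5_del_le_one (u u' : ℤ → Sy) (k : ℤ) : d5_del u u' k ≤ 1 := by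
  unfold d5_del
  rw [abs_le]
  constructor <;> linarith [st_nonneg u k, st_le_one u k, st_nonneg u' k, st_le_one u' k]

lemma d5_del_zero {u u' : ℤ → Sy} {k : ℤ} (h : d3_sb u k = d3_sb u' k) : d5_del u u' k = 0 := by
  unfold d5_del st
  have h1 : u k = .s ↔ u' k = .s := by
    rw [← d3_isS_iff, ← d3_isS_iff]
    unfold d3_sb at h
    rw [h]
  rw [ind_congr h1, sub_self, abs_zero]

lemma d5_del_sum {u u' : ℤ → Sy} (F : Finset ℤ)
    (hF : ∀ k, k ∉ F → d3_sb u k = d3_sb u' k) : ∑ᶠ k, d5_del u u' k ≤ F.card := by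
  rw [finsum_eq_sum_of_support_subset (s := F)]
  · have h1 := Finset.sum_le_card_nsmul F (d5_del u u') 1 fun k _ => d5_del_le_one u u' k
    simpa using h1
  · intro k hk
    rw [Function.mem_support] at hk
    by_contra h
    exact hk (d5_del_zero (hF k (by simpa using h)))

/-- the number of stars -/
lemma d5_nst {n n' : ℕ} {u u' : ℤ → Sy} (h : Sup n u) (h' : Sup n' u') :
    |nst u - nst u'| ≤ ∑ᶠ k, d5_del u u' k := by
  unfold nst
  rw [← d5_sum_sub (d5_cs_st h) (d5_cs_st h')]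
  exact d5_abs_sum (d5_cs_sub (d5_cs_st h) (d5_cs_st h')) (d5_cs_del h h') fun k => le_refl _

lemma d5_SE_eq (u : ℤ → Sy) (k : ℤ) : ind (SE u k) = |st u k - st u (k + 1)| := by
  unfold SE st
  by_cases h1 : u k = .s <;> by_cases h2 : u (k + 1) = .s
  · rw [ind_false (by tauto), ind_true h1, ind_true h2, sub_self, abs_zero]
  · rw [ind_true (by tauto), ind_true h1, ind_false h2, sub_zero, abs_one]
  · rw [ind_true (by tauto), ind_false h1, ind_true h2, zero_sub, abs_neg, abs_one]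
  · rw [ind_false (by tauto), ind_false h1, ind_false h2, sub_self, abs_zero]

/-- the number of star edges -/
lemma d5_Bn {n n' : ℕ} {u u' : ℤ → Sy} (h : Sup n u) (h' : Sup n' u') :
    |Bn u - Bn u'| ≤ 2 * ∑ᶠ k, d5_del u u' k := by
  have hc := d5_cs_del h h'
  unfold Bn
  rw [← d5_sum_sub (d5_cs_SE h) (d5_cs_SE h')]
  have h1 := d5_abs_sum (d5_cs_sub (d5_cs_SE h) (d5_cs_SE h')) (hc.add (hc.shift 1)) (fun k => by
    rw [d5_SE_eq, d5_SE_eq]
    unfold d5_del
    have h2 := abs_abs_sub_abs_le (st u k - st u (k + 1)) (st u' k - st u' (k + 1))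
    have h3 : st u k - st u (k + 1) - (st u' k - st u' (k + 1)) =
      (st u k - st u' k) - (st u (k + 1) - st u' (k + 1)) := by ring
    rw [h3] at h2
    exact h2.trans (abs_sub _ _))
  rw [hc.sum_add (hc.shift 1), fs_shift] at h1
  linarith

/-- number of stars plus number of runs -/
lemma d5_Psi {n n' : ℕ} {u u' : ℤ → Sy} (h : Sup n u) (h' : Sup n' u') :
    |Psi u - Psi u'| ≤ 2 * ∑ᶠ k, d5_del u u' k := by
  have h1 := abs_le.1 (d5_nst h h')
  have h2 := abs_le.1 (d5_Bn h h')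
  unfold Psi
  rw [abs_le]
  constructor <;> linarith [h1.1, h1.2, h2.1, h2.2]

/-- the quadratic functional -/
lemma d5_Tq {n n' : ℕ} {u u' : ℤ → Sy} (h : Sup n u) (h' : Sup n' u') (R : ℕ) (hR : 1 ≤ R) :
    |Tq R u - Tq R u'| ≤ R * ∑ᶠ k, d5_del u u' k := by
  have hR0 : (0 : ℝ) < R := by exact_mod_cast hR
  have hc := d5_cs_del h h'
  have hS : ∀ (v : ℤ → Sy) (x : ℤ), 0 ≤ ∑ j ∈ Finset.range R, st v (x + j) ∧
      ∑ j ∈ Finset.range R, st v (x + j) ≤ R := by
    intro v x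
    refine ⟨Finset.sum_nonneg fun j _ => st_nonneg _ _, ?_⟩
    have := Finset.sum_le_card_nsmul (Finset.range R) (fun j : ℕ => st v (x + j)) 1
      fun j _ => st_le_one _ _
    simpa using this
  have cS : ∀ (n : ℕ) (v : ℤ → Sy), Sup n v →
      d3_cs (fun x => (∑ j ∈ Finset.range R, st v (x + j)) ^ 2) := by
    intro n v hv
    refine ⟨n + R, fun x hx => ?_⟩
    push_cast at hx
    show (∑ j ∈ Finset.range R, st v (x + j)) ^ 2 = 0
    rw [Finset.sum_eq_zero, zero_pow two_ne_zero]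
    intro j hj
    rw [Finset.mem_range] at hj
    apply st_out hv
    rcases abs_cases x with ⟨h3, _⟩ | ⟨h3, _⟩ <;>
      rcases abs_cases (x + j) with ⟨h4, _⟩ | ⟨h4, _⟩ <;> omega
  have cD : d3_cs (fun x => ∑ j ∈ Finset.range R, d5_del u u' (x + j)) := by
    obtain ⟨m, hm⟩ := hc
    refine ⟨m + R, fun x hx => ?_⟩
    push_cast at hx
    refine Finset.sum_eq_zero fun j hj => ?_
    rw [Finset.mem_range] at hj
    apply hm
    rcases abs_cases x with ⟨h3, _⟩ | ⟨h3, _⟩ <;>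
      rcases abs_cases (x + j) with ⟨h4, _⟩ | ⟨h4, _⟩ <;> omega
  have h1 : ∑ᶠ x : ℤ, ∑ j ∈ Finset.range R, d5_del u u' (x + j) =
      R * ∑ᶠ k, d5_del u u' k := by
    rw [finsum_sum_comm]
    · rw [Finset.sum_congr rfl fun (j : ℕ) _ => fs_shift (d5_del u u') (j : ℤ), Finset.sum_const,
        Finset.card_range, nsmul_eq_mul]
    · intro j _
      exact (hc.shift (j : ℤ)).fin
  have h2 := d5_abs_sum (d5_cs_sub (cS n u h) (cS n' u' h')) (cD.mul (2 * R)) (fun x => by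
    have a1 := hS u x
    have a2 := hS u' x
    have a3 : |∑ j ∈ Finset.range R, st u (x + j) - ∑ j ∈ Finset.range R, st u' (x + j)| ≤
        ∑ j ∈ Finset.range R, d5_del u u' (x + j) := by
      rw [← Finset.sum_sub_distrib]
      exact Finset.abs_sum_le_sum_abs _ _
    rw [sq_sub_sq, abs_mul, abs_of_nonneg (by linarith [a1.1, a2.1])]
    refine mul_le_mul ?_ a3 (abs_nonneg _) (by linarith)
    linarith [a1.2, a2.2])
  rw [fs_mul, h1, d5_sum_sub (cS n u h) (cS n' u' h')] at h2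
  unfold Tq
  rw [← mul_sub, abs_mul, abs_of_pos (by positivity : (0 : ℝ) < 1 / (2 * R))]
  calc 1 / (2 * (R : ℝ)) * |∑ᶠ x : ℤ, (∑ j ∈ Finset.range R, st u (x + j)) ^ 2 -
        ∑ᶠ x : ℤ, (∑ j ∈ Finset.range R, st u' (x + j)) ^ 2|
      ≤ 1 / (2 * (R : ℝ)) * (2 * R * (R * ∑ᶠ k, d5_del u u' k)) :=
        mul_le_mul_of_nonneg_left h2 (by positivity)
    _ = R * ∑ᶠ k, d5_del u u' k := by field_simp

/-- one bit -/
lemma d5_Z_one {n : ℕ} {κ : ℕ → ℝ} (h0 : ∀ l, 0 ≤ κ l) (h1 : ∀ l, κ l ≤ 1) {x : ℤ → Bool}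
    (hx : d3_FS n x) (k : ℤ) (b : Bool) : |d3_Z κ (Function.update x k b) - d3_Z κ x| ≤ 2 := by
  have hk0 : ∀ l, 0 ≤ d3_k0 κ l ∧ d3_k0 κ l ≤ 1 := by
    intro l
    unfold d3_k0
    split_ifs
    · exact ⟨le_refl 0, zero_le_one⟩
    · exact ⟨h0 l, h1 l⟩
  by_cases hb : x k = b
  · rw [← hb, Function.update_eq_self, sub_self, abs_zero]
    norm_num
  · cases b
    · -- from `true` to `false`
      have hxk : x k = true := Bool.eq_true_of_not_eq_false hb
      have hy : d3_FS (n + k.natAbs) (Function.update x k false) := by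
        intro p hp
        push_cast at hp
        by_cases h : p = k
        · rw [h, Function.update_self]
        · rw [Function.update_of_ne h]
          exact hx p (by have := abs_nonneg k; omega)
      have e := d3_one κ hy k (by rw [Function.update_self])
      rw [Function.update_idem, ← hxk, Function.update_eq_self] at e
      set P := d3_lr (Function.update x k false) (k - 1)
      set Q := d3_rr (Function.update x k false) (k + 1)
      rw [abs_le]
      constructor <;> linarith [(hk0 P).1, (hk0 P).2, (hk0 Q).1, (hk0 Q).2, h0 (P + Q + 1),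
        h1 (P + Q + 1)]
    · have hxk : x k = false := Bool.eq_false_of_not_eq_true hb
      have e := d3_one κ hx k hxk
      set P := d3_lr x (k - 1)
      set Q := d3_rr x (k + 1)
      rw [abs_le]
      constructor <;> linarith [(hk0 P).1, (hk0 P).2, (hk0 Q).1, (hk0 Q).2, h0 (P + Q + 1),
        h1 (P + Q + 1)]

/-- several bits -/
lemma d5_Z_set {n : ℕ} {κ : ℕ → ℝ} (h0 : ∀ l, 0 ≤ κ l) (h1 : ∀ l, κ l ≤ 1) (F : Finset ℤ) :
    ∀ x x' : ℤ → Bool, d3_FS n x → d3_FS n x' → (∀ k, k ∉ F → x k = x' k) →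
      |d3_Z κ x - d3_Z κ x'| ≤ 2 * F.card := by
  induction F using Finset.induction_on with
  | empty =>
    intro x x' _ _ h
    have : x = x' := funext fun k => h k (Finset.notMem_empty k)
    rw [this, sub_self, abs_zero]
    simp
  | insert a F ha ih =>
    intro x x' hx hx' h
    have hy : d3_FS n (Function.update x a (x' a)) := by
      intro p hp
      by_cases e : p = a
      · rw [e, Function.update_self]
        rw [e] at hp
        exact hx' a hp
      · rw [Function.update_of_ne e]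
        exact hx p hp
    have h2 := ih (Function.update x a (x' a)) x' hy hx' (fun k hk => by
      by_cases e : k = a
      · rw [e, Function.update_self]
      · rw [Function.update_of_ne e]
        exact h k (by rw [Finset.mem_insert]; tauto))
    have h3 := d5_Z_one h0 h1 hx a (x' a)
    rw [Finset.card_insert_of_notMem ha]
    push_cast
    rw [abs_le] at h2 h3 ⊢
    constructor <;> linarith [h2.1, h2.2, h3.1, h3.2]

lemma d5_kap_le_one (D l : ℕ) : kap D l ≤ 1 := by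
  unfold kap
  split_ifs with h1 h2
  · have : (0 : ℝ) ≤ (l : ℝ) ^ 2 / (2 * (D : ℝ) ^ 2) := by positivity
    linarith
  · have h3 : (D : ℝ) ≤ l := by exact_mod_cast (not_le.1 h1).le
    have h4 : (l : ℝ) ≤ 2 * D := by exact_mod_cast h2
    refine div_le_one_of_le₀ ?_ (by positivity)
    nlinarith
  · exact zero_le_one

/-- the star run functional -/
lemma d5_Zs {n n' : ℕ} {u u' : ℤ → Sy} (h : Sup n u) (h' : Sup n' u') (D : ℕ) (F : Finset ℤ)
    (hF : ∀ k, k ∉ F → d3_sb u k = d3_sb u' k) : |Zs D u - Zs D u'| ≤ 2 * F.card := by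
  rw [d3_Zs_eq, d3_Zs_eq]
  exact d5_Z_set (d3_kap_nonneg D) (d5_kap_le_one D) F _ _
    ((d3_sb_FS h).mono (Nat.le_add_right n n')) ((d3_sb_FS h').mono (Nat.le_add_left n' n)) hF

/-! ### Marks far from the star edges -/

lemma d5_tup (b : Bool) (w1 w2 w3 w4 w5 : Sy) (h : d3_ok w1 w2 w3 w4 w5 = true)
    (h1 : w1.isS = w2.isS) (h2 : w2.isS = w3.isS) (h3 : w3.isS = w4.isS) (h4 : w4.isS = w5.isS) :
    d3_nb b w1 w2 w3 w4 w5 = (w2.isS, w3.isS, w4.isS) := by
  revert h h1 h2 h3 h4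
  cases w1 <;> cases w2 <;> cases w3 <;> cases w4 <;> cases w5 <;> cases b <;> decide

/-- number of star edges near `i` -/
noncomputable def d5_ne (u : ℤ → Sy) (i : ℤ) : ℝ :=
  d3_e (d3_sb u) (i + -2) + d3_e (d3_sb u) (i + -1) + d3_e (d3_sb u) i + d3_e (d3_sb u) (i + 1)

lemma d5_e_cases (x : ℤ → Bool) (p : ℤ) : d3_e x p = 1 ∨ (d3_e x p = 0 ∧ x p = x (p + 1)) := by
  unfold d3_e
  cases x p <;> cases x (p + 1) <;> simp [d3_sl]

lemma d5_ne_cases {u : ℤ → Sy} (hr : Rt u) (i : ℤ) (b : Bool) :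
    1 ≤ d5_ne u i ∨ (d5_ne u i = 0 ∧ d3_sb (Rf i b u) = d3_sb u) := by
  have hnn : ∀ p, 0 ≤ d3_e (d3_sb u) p := by
    intro p
    rcases d5_e_cases (d3_sb u) p with h | h
    · rw [h]; exact zero_le_one
    · rw [h.1]
  unfold d5_ne
  have n1 := hnn (i + -2)
  have n2 := hnn (i + -1)
  have n3 := hnn i
  have n4 := hnn (i + 1)
  rcases d5_e_cases (d3_sb u) (i + -2) with a1 | ⟨a1, b1⟩
  · left; linarith
  rcases d5_e_cases (d3_sb u) (i + -1) with a2 | ⟨a2, b2⟩
  · left; linarith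
  rcases d5_e_cases (d3_sb u) i with a3 | ⟨a3, b3⟩
  · left; linarith
  rcases d5_e_cases (d3_sb u) (i + 1) with a4 | ⟨a4, b4⟩
  · left; linarith
  right
  refine ⟨by rw [a1, a2, a3, a4]; ring, ?_⟩
  rw [show i + -2 + 1 = i - 1 by ring, show i + -2 = i - 2 by ring] at b1
  rw [show i + -1 + 1 = i by ring, show i + -1 = i - 1 by ring] at b2
  rw [show i + 1 + 1 = i + 2 by ring] at b4
  have h1 := d3_nb_spec hr i b
  rw [d5_tup b _ _ _ _ _ (d3_ok_root hr i) b1 b2 b3 b4] at h1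
  have h2 : d3_sb (Rf i b u) (i - 1) = d3_sb u (i - 1) := congrArg Prod.fst h1
  have h3 : d3_sb (Rf i b u) i = d3_sb u i := congrArg (fun z => z.2.1) h1
  have h4 : d3_sb (Rf i b u) (i + 1) = d3_sb u (i + 1) := congrArg (fun z => z.2.2) h1
  funext t
  by_cases h5 : 2 ≤ |t - i|
  · unfold d3_sb
    rw [Rf_far hr b h5]
  · have h6 : t = i - 1 ∨ t = i ∨ t = i + 1 := by
      rcases abs_cases (t - i) with ⟨h7, _⟩ | ⟨h7, _⟩ <;> omega
    rcases h6 with h6 | h6 | h6
    · rw [h6]; exact h2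
    · rw [h6]; exact h3
    · rw [h6]; exact h4

lemma d5_sum_ne {N : ℕ} {u : ℤ → Sy} (hs : Sup N u) :
    d3_cs (d5_ne u) ∧ ∑ᶠ i, d5_ne u i = 4 * Bn u := by
  have hx := d3_sb_FS hs
  have c5 : d3_cs (d3_e (d3_sb u)) := ⟨N + 1, fun p hp => by
    unfold d3_e; rw [(d3_same hx hp).1, (d3_same hx hp).2]; rfl⟩
  have t1 := (c5.shift (-2)).add (c5.shift (-1))
  have t2 := t1.add c5
  have t3 := t2.add (c5.shift 1)
  refine ⟨t3, ?_⟩
  have s1 := (c5.shift (-2)).sum_add (c5.shift (-1))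
  have s2 := t1.sum_add c5
  have s3 := t2.sum_add (c5.shift 1)
  rw [fs_shift, fs_shift] at s1
  rw [s1] at s2
  rw [s2, fs_shift] at s3
  unfold d5_ne
  rw [s3, ← d3_Bn]
  ring

/-- the marks of one colour, for a functional of the star set -/
lemma d5_Lb {N : ℕ} {u : ℤ → Sy} (hr : Rt u) (hs : Sup N u) (b : Bool) (F : (ℤ → Sy) → ℝ) (c : ℝ)
    (hc : 0 ≤ c) (h1 : ∀ i, |F (Rf i b u) - F u| ≤ c)
    (h2 : ∀ i, d3_sb (Rf i b u) = d3_sb u → F (Rf i b u) = F u) : |Lb b F u| ≤ 4 * c * Bn u := by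
  obtain ⟨cN, hN⟩ := d5_sum_ne hs
  have cL : d3_cs (fun i => F (Rf i b u) - F u) := by
    refine ⟨N + 2, fun i hi => ?_⟩
    push_cast at hi
    show F (Rf i b u) - F u = 0
    rw [Rf_out hr hs hi]
    ring
  have h3 := d5_abs_sum cL (cN.mul c) (fun i => by
    rcases d5_ne_cases hr i b with h | ⟨h, h'⟩
    · exact (h1 i).trans (by nlinarith)
    · rw [h2 i h', h]
      simp)
  rw [fs_mul, hN] at h3
  unfold Lb
  linarith

lemma d5_sup_Rf {N : ℕ} {u : ℤ → Sy} (hr : Rt u) (hs : Sup N u) (i : ℤ) (b : Bool) :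
    Sup (N + 2) (Rf i b u) := by
  by_cases hi : |i| ≤ ((N + 2 : ℕ) : ℤ)
  · exact (hs.mono (by omega)).Rf hi b
  · push_cast at hi
    rw [Rf_out hr hs (by omega)]
    exact hs.mono (by omega)

lemma d5_three (i : ℤ) : (Finset.Icc (i - 1) (i + 1)).card = 3 := by
  rw [Int.card_Icc]
  omega

lemma d5_Rf_bits {u : ℤ → Sy} (hr : Rt u) (i : ℤ) (b : Bool) (k : ℤ)
    (hk : k ∉ Finset.Icc (i - 1) (i + 1)) : d3_sb (Rf i b u) k = d3_sb u k := by
  unfold d3_sb
  rw [Finset.mem_Icc] at hk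
  rw [Rf_far hr b]
  rcases abs_cases (k - i) with ⟨h7, _⟩ | ⟨h7, _⟩ <;> omega

lemma d5_del_Rf {u : ℤ → Sy} (hr : Rt u) (i : ℤ) (b : Bool) :
    ∑ᶠ k, d5_del (Rf i b u) u k ≤ 3 := by
  have h := d5_del_sum (Finset.Icc (i - 1) (i + 1)) (d5_Rf_bits hr i b)
  rw [d5_three] at h
  exact_mod_cast h

lemma d5_del_same {u u' : ℤ → Sy} (h : d3_sb u = d3_sb u') : ∑ᶠ k, d5_del u u' k = 0 := by
  have h1 : ∀ k, d5_del u u' k = 0 := fun k => d5_del_zero (congrFun h k)
  rw [finsum_congr h1, finsum_zero]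

theorem thm_D5a : St_D5a := by
  refine ⟨24, by norm_num, fun u N hr hs => ?_⟩
  have h := d5_Lb hr hs false Psi 6 (by norm_num)
    (fun i => (d5_Psi (d5_sup_Rf hr hs i false) hs).trans (by
      have := d5_del_Rf hr i false
      linarith))
    (fun i hi => by
      have h1 := d5_Psi (d5_sup_Rf hr hs i false) hs
      rw [d5_del_same hi, mul_zero] at h1
      exact sub_eq_zero.1 (abs_nonpos_iff.1 h1))
  have h1 := (abs_le.1 h).1
  linarith

theorem thm_D5b : St_D5b := by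
  refine ⟨12, by norm_num, fun u N R hR hr hs => ?_⟩
  have hR0 : (0 : ℝ) ≤ R := Nat.cast_nonneg R
  have h := d5_Lb hr hs false (Tq R) (R * 3) (by positivity)
    (fun i => (d5_Tq (d5_sup_Rf hr hs i false) hs R (by omega)).trans
      (mul_le_mul_of_nonneg_left (d5_del_Rf hr i false) hR0))
    (fun i hi => by
      have h1 := d5_Tq (d5_sup_Rf hr hs i false) hs R (by omega)
      rw [d5_del_same hi, mul_zero] at h1
      exact sub_eq_zero.1 (abs_nonpos_iff.1 h1))
  have h1 := (abs_le.1 h).2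
  linarith

theorem thm_D5c : St_D5c := by
  refine ⟨24, by norm_num, fun u N D hD hr hs => ?_⟩
  have h := d5_Lb hr hs false (Zs D) 6 (by norm_num)
    (fun i => by
      have h1 := d5_Zs (d5_sup_Rf hr hs i false) hs D (Finset.Icc (i - 1) (i + 1))
        (d5_Rf_bits hr i false)
      rw [d5_three] at h1
      push_cast at h1
      linarith)
    (fun i hi => by
      rw [d3_Zs_eq, d3_Zs_eq, hi])
  have h1 := (abs_le.1 h).1
  linarith

end Pool.Agent.T3M
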