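import Mathlib
import Pool.Agent.T3M.MGapB
import Pool.Agent.T3M.MBt

/-! Lower bound for the change of `ZL` by one mark `false`: the state along the sites (helper91). -/

set_option autoImplicit false

namespace Pool.Agent.T3M

/-! ### The sites before the mark -/

lemma d5_ll_congr {u u' : ℤ → Sy} {p : ℤ} (h : ∀ k, k ≤ p → u' k = u k) : ll u' p = ll u p := by
  unfold ll
  congr 1
  ext j
  simp only [Set.mem_ofPred_eq]
  rw [h (p - j) (by omega), h p le_rfl]

lemma d5_dl_congr {u u' : ℤ → Sy} {p : ℤ} (h : ∀ k, k ≤ p → u' k = u k) : dl u' p = dl u p := by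
  unfold dl
  congr 1
  ext j
  simp only [Set.mem_ofPred_eq]
  rw [h (p - j) (by omega)]

lemma d5_gW_congr {u u' : ℤ → Sy} {p : ℤ} (κ : ℕ → ℝ) (t : ℝ) (h : ∀ k, k ≤ p + 1 → u' k = u k) :
    gW κ t u' p = gW κ t u p := by
  unfold gW
  rw [d5_ll_congr (fun k hk => h k (by omega)), d5_dl_congr (fun k hk => h k (by omega))]
  congr 1
  apply ind_congr
  unfold CW
  rw [h p (by omega), h (p + 1) le_rfl]

/-- the coefficient of the view at the site `a` -/
noncomputable def d5_lam (t : ℝ) (u : ℤ → Sy) (a : ℤ) : ℝ :=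
  ind (u a ≠ .s ∧ dl u a ≠ 0) * t ^ (dl u a - ll u a)

/-- the value of the state -/
noncomputable def d5_Z (κ : ℕ → ℝ) (t : ℝ) (u : ℤ → Sy) (E a : ℤ) (l : ℕ) (x : ℝ) : ℝ :=
  x * gV κ t u E l a + gR κ t u E a

lemma d5_sum (κ : ℕ → ℝ) (t : ℝ) (u : ℤ → Sy) (E a : ℤ) :
    ∑ p ∈ Finset.Ico a E, gW κ t u p = d5_Z κ t u E a (ll u a) (d5_lam t u a) := by
  unfold d5_Z d5_lam
  obtain ⟨h1, h2⟩ := gR_eq_aux κ t u E a
  by_cases h : u a ≠ .s ∧ dl u a ≠ 0
  · rw [ind_true h, one_mul, ← h2 h.1 h.2]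
  · rw [ind_false h, zero_mul, zero_mul, zero_add, h1 (by tauto)]

/-- the change of the functional is the change of the value of the state -/
lemma d5_diff (κ : ℕ → ℝ) (t : ℝ) {u u' : ℤ → Sy} {N : ℕ} (h : Sup N u) (h' : Sup N u') {E a : ℤ}
    (hE : (N : ℤ) < E) (haE : a ≤ E) (he : ∀ k, k ≤ a → u' k = u k) :
    ∑ᶠ p, gW κ t u' p - ∑ᶠ p, gW κ t u p =
      d5_Z κ t u' E a (ll u a) (d5_lam t u a) - d5_Z κ t u E a (ll u a) (d5_lam t u a) := by
  set a0 : ℤ := min (a - 1) (-((N : ℤ) + 2)) with ha0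
  have e1 : ∀ {v : ℤ → Sy}, Sup N v → ∑ᶠ p, gW κ t v p = ∑ p ∈ Finset.Ico a0 E, gW κ t v p := by
    intro v hv
    have hz : ∀ k, k ≤ a0 → v k ≠ .s := by
      intro k hk
      have h1 : (N : ℤ) < |k| := by
        rcases abs_cases k with ⟨h1, _⟩ | ⟨h1, _⟩ <;> omega
      rw [hv k h1]
      exact fun h => by cases h
    rw [gR_eq κ t hv hE (a := a0) (by omega)]
    exact (gR_eq_aux κ t v E a0).1 (Or.inr ((dl_zero_iff (hz a0 le_rfl)).2 hz))
  have e2 : ∀ v : ℤ → Sy, ∑ p ∈ Finset.Ico a0 E, gW κ t v p =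
      ∑ p ∈ Finset.Ico a0 a, gW κ t v p + ∑ p ∈ Finset.Ico a E, gW κ t v p := by
    intro v
    rw [← Finset.sum_union]
    · congr 1
      ext k
      simp only [Finset.mem_union, Finset.mem_Ico]
      omega
    · rw [Finset.disjoint_left]
      intro k h1 h2
      rw [Finset.mem_Ico] at h1 h2
      omega
  have e3 : ∑ p ∈ Finset.Ico a0 a, gW κ t u' p = ∑ p ∈ Finset.Ico a0 a, gW κ t u p := by
    refine Finset.sum_congr rfl fun p hp => ?_
    rw [Finset.mem_Ico] at hp
    exact d5_gW_congr κ t fun k hk => he k (by omega)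
  rw [e1 h', e1 h, e2 u', e2 u, e3, d5_sum κ t u' E a, d5_sum κ t u E a]
  have e4 : ll u' a = ll u a := d5_ll_congr he
  have e5 : d5_lam t u' a = d5_lam t u a := by
    unfold d5_lam
    rw [e4, d5_dl_congr he, he a le_rfl]
  rw [e4, e5]
  ring

/-! ### One step of the state -/

/-- what is added between `a` and `a + 1` -/
noncomputable def d5_add (κ : ℕ → ℝ) (c c' : Sy) (l : ℕ) (x : ℝ) : ℝ :=
  if c' = c then 0 else if c = .s ∨ c' = .s then 0 else x * κ l

/-- the new length -/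
def d5_nl (c c' : Sy) (l : ℕ) : ℕ := if c' = c then l + 1 else 1

/-- the new coefficient -/
noncomputable def d5_nx (t : ℝ) (c c' : Sy) (l : ℕ) (x : ℝ) : ℝ :=
  if c' = c then x else if c = .s then 1 else if c' = .s then 0 else x * t ^ l

lemma d5_step (κ : ℕ → ℝ) (t : ℝ) (u : ℤ → Sy) {E a : ℤ} (h : a < E) (l : ℕ) (x : ℝ) :
    d5_Z κ t u E a l x = d5_add κ (u a) (u (a + 1)) l x +
      d5_Z κ t u E (a + 1) (d5_nl (u a) (u (a + 1)) l) (d5_nx t (u a) (u (a + 1)) l x) := by
  unfold d5_Z d5_add d5_nl d5_nx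
  rw [gR_step κ t u E h]
  by_cases h1 : u (a + 1) = u a
  · rw [if_pos h1, if_pos h1, if_pos h1, gV_same κ t u E h h1,
      ind_false (fun hc => hc.2 (h1.trans hc.1))]
    ring
  · rw [if_neg h1, if_neg h1, if_neg h1]
    by_cases h2 : u a = .s
    · have h3 : u (a + 1) ≠ .s := fun h3 => h1 (h3.trans h2.symm)
      rw [if_pos (Or.inl h2), if_pos h2, ind_true ⟨h2, h3⟩, gV_star κ t u E h2]
      ring
    · rw [if_neg h2, ind_false (fun hc => h2 hc.1)]
      by_cases h3 : u (a + 1) = .s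
      · rw [if_pos (Or.inr h3), if_pos h3, gV_last κ t u E h1 h3]
        ring
      · rw [if_neg (by tauto), if_neg h3, gV_wall κ t u E h h2 h1 h3]
        ring

/-! ### The view at the end of the window -/

/-- the view is bounded -/
lemma d5_gV_le {D : ℕ} (hD : 1 ≤ D) (u : ℤ → Sy) (E : ℤ) {l : ℕ} (hl : 1 ≤ l) (a : ℤ) :
    gV (kap D) (th D) u E l a ≤ 2 * D := by
  obtain ⟨t0, t1⟩ := th_mem hD
  have hD' : (1 : ℝ) ≤ D := by exact_mod_cast hD
  have ht : th D * (2 * D) = 2 * D - 1 := by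
    unfold th
    field_simp
  revert l
  refine g_down E (P := fun a => ∀ {l : ℕ}, 1 ≤ l → gV (kap D) (th D) u E l a ≤ 2 * D) ?_ ?_ a
  · intro a ha l _
    rw [gV_end _ _ _ _ ha]
    linarith
  · intro a ha ih l hl
    rw [gV_step _ _ _ _ ha]
    split_ifs
    · exact ih (by omega)
    · linarith
    · have h1 := ih (l := 1) le_rfl
      have h2 := (p6x_kap hD l).2
      have h3 : th D ^ l ≤ th D := by
        calc th D ^ l ≤ th D ^ 1 := pow_le_pow_of_le_one t0.le t1 hl
          _ = th D := pow_one _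
      have h4 : 0 ≤ gV (kap D) (th D) u E 1 (a + 1) :=
        gV_nonneg _ _ _ _ (fun l => (p6x_kap hD l).1) t0.le 1 (a + 1)
      have h5 : th D ^ l * gV (kap D) (th D) u E 1 (a + 1) ≤ th D * (2 * D) :=
        mul_le_mul h3 h1 h4 t0.le
      linarith

/-- the view as a function of the current length: zero, or one term and a multiple of `t ^ l` -/
lemma d5_form {D : ℕ} (hD : 1 ≤ D) (u : ℤ → Sy) (E a : ℤ) :
    (∀ l : ℕ, gV (kap D) (th D) u E l a = 0) ∨
    ∃ (n : ℕ) (G : ℝ), 0 ≤ G ∧ G ≤ 2 * D ∧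
      ∀ l : ℕ, gV (kap D) (th D) u E l a = kap D (l + n) + th D ^ l * G := by
  obtain ⟨t0, t1⟩ := th_mem hD
  refine g_down E (P := fun a => (∀ l : ℕ, gV (kap D) (th D) u E l a = 0) ∨
    ∃ (n : ℕ) (G : ℝ), 0 ≤ G ∧ G ≤ 2 * D ∧
      ∀ l : ℕ, gV (kap D) (th D) u E l a = kap D (l + n) + th D ^ l * G) ?_ ?_ a
  · intro a ha
    exact Or.inl fun l => gV_end _ _ _ _ ha
  · intro a ha ih
    by_cases h1 : u (a + 1) = u a
    · rcases ih with ih | ⟨n, G, hG0, hG, ih⟩
      · exact Or.inl fun l => by rw [gV_same _ _ _ _ ha h1]; exact ih _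
      · refine Or.inr ⟨n + 1, th D * G, mul_nonneg t0.le hG0, ?_, fun l => ?_⟩
        · nlinarith
        · rw [gV_same _ _ _ _ ha h1, ih, pow_succ]
          rw [show l + 1 + n = l + (n + 1) by ring]
          ring
    · by_cases h2 : u a = .s
      · exact Or.inl fun l => gV_star _ _ _ _ h2
      · by_cases h3 : u (a + 1) = .s
        · exact Or.inl fun l => gV_last _ _ _ _ h1 h3
        · refine Or.inr ⟨0, gV (kap D) (th D) u E 1 (a + 1),
            gV_nonneg _ _ _ _ (fun l => (p6x_kap hD l).1) t0.le 1 (a + 1),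
            d5_gV_le hD u E le_rfl (a + 1), fun l => ?_⟩
          rw [gV_wall _ _ _ _ ha h2 h1 h3, Nat.add_zero]

lemma d5_kap_anti {D : ℕ} (hD : 1 ≤ D) {l l' : ℕ} (h : l ≤ l') : kap D l' ≤ kap D l := by
  have h1 : (1 : ℝ) ≤ D := by exact_mod_cast hD
  have h2 : (0 : ℝ) < 2 * (D : ℝ) ^ 2 := by positivity
  have hl : (l : ℝ) ≤ l' := by exact_mod_cast h
  have hl0 : (0 : ℝ) ≤ l := Nat.cast_nonneg l
  by_cases a1 : l' ≤ D
  · have a2 : l ≤ D := by omega
    unfold kap
    rw [if_pos a1, if_pos a2]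
    have : (l : ℝ) ^ 2 / (2 * (D : ℝ) ^ 2) ≤ (l' : ℝ) ^ 2 / (2 * (D : ℝ) ^ 2) :=
      div_le_div_of_nonneg_right (by nlinarith) h2.le
    linarith
  · by_cases a2 : l' ≤ 2 * D
    · have b2 : (l' : ℝ) ≤ 2 * D := by exact_mod_cast a2
      have b1 : (D : ℝ) ≤ l' := by exact_mod_cast (not_le.1 a1).le
      by_cases a3 : l ≤ D
      · unfold kap
        rw [if_neg a1, if_pos a2, if_pos a3]
        have c1 : (l : ℝ) ≤ D := by exact_mod_cast a3
        have c2 : (l : ℝ) ^ 2 / (2 * (D : ℝ) ^ 2) ≤ 1 / 2 := by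
          rw [div_le_iff₀ h2]; nlinarith
        have c3 : (2 * (D : ℝ) - l') ^ 2 / (2 * (D : ℝ) ^ 2) ≤ 1 / 2 := by
          rw [div_le_iff₀ h2]; nlinarith
        linarith
      · unfold kap
        rw [if_neg a1, if_pos a2, if_neg a3, if_pos (by omega)]
        exact div_le_div_of_nonneg_right (by nlinarith) h2.le
    · have : kap D l' = 0 := by
        unfold kap
        rw [if_neg a1, if_neg a2]
      rw [this]
      exact (p6x_kap hD l).1

/-- the weight changes by at most `4 th ^ l / D` per unit of length -/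
lemma d5_kap_diff {D : ℕ} (hD : 1 ≤ D) (l : ℕ) : kap D l - kap D (l + 1) ≤ 2 / D * (4 * th D ^ l) ∧
    kap D l - kap D (l + 1) ≤ 2 / D := by
  obtain ⟨t0, t1⟩ := th_mem hD
  have h1 : (1 : ℝ) ≤ D := by exact_mod_cast hD
  have h2 : (0 : ℝ) < 2 * (D : ℝ) ^ 2 := by positivity
  have h3 : (0 : ℝ) < D := by linarith
  have hl0 : (0 : ℝ) ≤ l := Nat.cast_nonneg l
  have key : kap D l - kap D (l + 1) ≤ 2 / D := by
    rw [le_div_iff₀ h3]
    by_cases a1 : l + 1 ≤ D
    · have b1 : ((l + 1 : ℕ) : ℝ) ≤ D := by exact_mod_cast a1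
      unfold kap
      rw [if_pos (by omega), if_pos a1]
      push_cast at b1 ⊢
      have : (1 - (l : ℝ) ^ 2 / (2 * (D : ℝ) ^ 2) - (1 - ((l : ℝ) + 1) ^ 2 / (2 * (D : ℝ) ^ 2))) * D =
          (2 * (l : ℝ) + 1) / (2 * D) := by field_simp; ring
      rw [this, div_le_iff₀ (by positivity)]
      nlinarith
    · by_cases a2 : l ≤ D
      · have a3 : l = D := by omega
        subst a3
        unfold kap
        rw [if_pos le_rfl, if_neg a1, if_pos (by omega)]
        push_cast
        have : (1 - (l : ℝ) ^ 2 / (2 * (l : ℝ) ^ 2) -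
            (2 * (l : ℝ) - (l + 1)) ^ 2 / (2 * (l : ℝ) ^ 2)) * l = (2 * (l : ℝ) - 1) / (2 * l) := by
          field_simp
          ring
        rw [this, div_le_iff₀ (by positivity)]
        nlinarith
      · by_cases a3 : l + 1 ≤ 2 * D
        · have b1 : ((l + 1 : ℕ) : ℝ) ≤ 2 * D := by exact_mod_cast a3
          have b2 : (D : ℝ) ≤ l := by exact_mod_cast (not_le.1 a2).le
          unfold kap
          rw [if_neg a2, if_pos (by omega), if_neg a1, if_pos a3]
          push_cast at b1 ⊢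
          have : ((2 * (D : ℝ) - l) ^ 2 / (2 * (D : ℝ) ^ 2) -
              (2 * (D : ℝ) - (l + 1)) ^ 2 / (2 * (D : ℝ) ^ 2)) * D =
              (2 * (2 * (D : ℝ) - l) - 1) / (2 * D) := by field_simp; ring
          rw [this, div_le_iff₀ (by positivity)]
          nlinarith
        · have c1 : kap D (l + 1) = 0 := by
            unfold kap
            rw [if_neg a1, if_neg a3]
          rw [c1, sub_zero]
          by_cases a4 : l ≤ 2 * D
          · have a5 : l = 2 * D := by omega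
            subst a5
            unfold kap
            rw [if_neg a2, if_pos le_rfl]
            push_cast
            simp
          · have c2 : kap D l = 0 := by
              unfold kap
              rw [if_neg a2, if_neg a4]
            rw [c2]
            linarith
  refine ⟨?_, key⟩
  by_cases a : l ≤ 2 * D
  · have b1 := bt_th hD
    have b2 : th D ^ (2 * D) ≤ th D ^ l := pow_le_pow_of_le_one t0.le t1 a
    have b3 : 0 ≤ 2 / (D : ℝ) := by positivity
    have b4 : 2 / (D : ℝ) * 1 ≤ 2 / D * (4 * th D ^ l) :=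
      mul_le_mul_of_nonneg_left (by linarith) b3
    linarith
  · have c2 : kap D l = 0 := by
      unfold kap
      rw [if_neg (by omega), if_neg a]
    have c3 : kap D (l + 1) = 0 := by
      unfold kap
      rw [if_neg (by omega), if_neg (by omega)]
    rw [c2, c3, sub_zero]
    have := pow_pos t0 l
    positivity

end Pool.Agent.T3M
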