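import Mathlib
import Pool.Agent.T3M.MD5da

/-! Lower bound for the change of `ZL` by one mark `false`: windows of five letters (helper91). -/

set_option autoImplicit false

namespace Pool.Agent.T3M

/-! ### Four steps -/

noncomputable def d5_A (κ : ℕ → ℝ) (t : ℝ) (c0 c1 c2 c3 c4 : Sy) (l : ℕ) (x : ℝ) : ℝ :=
  d5_add κ c0 c1 l x +
    (d5_add κ c1 c2 (d5_nl c0 c1 l) (d5_nx t c0 c1 l x) +
      (d5_add κ c2 c3 (d5_nl c1 c2 (d5_nl c0 c1 l)) (d5_nx t c1 c2 (d5_nl c0 c1 l) (d5_nx t c0 c1 l x)) +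
        d5_add κ c3 c4 (d5_nl c2 c3 (d5_nl c1 c2 (d5_nl c0 c1 l)))
          (d5_nx t c2 c3 (d5_nl c1 c2 (d5_nl c0 c1 l))
            (d5_nx t c1 c2 (d5_nl c0 c1 l) (d5_nx t c0 c1 l x)))))

def d5_L (c0 c1 c2 c3 c4 : Sy) (l : ℕ) : ℕ := d5_nl c3 c4 (d5_nl c2 c3 (d5_nl c1 c2 (d5_nl c0 c1 l)))

noncomputable def d5_X (t : ℝ) (c0 c1 c2 c3 c4 : Sy) (l : ℕ) (x : ℝ) : ℝ :=
  d5_nx t c3 c4 (d5_nl c2 c3 (d5_nl c1 c2 (d5_nl c0 c1 l)))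
    (d5_nx t c2 c3 (d5_nl c1 c2 (d5_nl c0 c1 l)) (d5_nx t c1 c2 (d5_nl c0 c1 l) (d5_nx t c0 c1 l x)))

lemma d5_four (κ : ℕ → ℝ) (t : ℝ) (u : ℤ → Sy) {E i : ℤ} (h : i + 2 ≤ E) (l : ℕ) (x : ℝ)
    {c0 c1 c2 c3 c4 : Sy} (e0 : u (i - 2) = c0) (e1 : u (i - 1) = c1) (e2 : u i = c2)
    (e3 : u (i + 1) = c3) (e4 : u (i + 2) = c4) :
    d5_Z κ t u E (i - 2) l x = d5_A κ t c0 c1 c2 c3 c4 l x +
      d5_Z κ t u E (i + 2) (d5_L c0 c1 c2 c3 c4 l) (d5_X t c0 c1 c2 c3 c4 l x) := by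
  subst e0 e1 e2 e3 e4
  rw [d5_step κ t u (show i - 2 < E by omega), show i - 2 + 1 = i - 1 by ring,
    d5_step κ t u (show i - 1 < E by omega), show i - 1 + 1 = i by ring,
    d5_step κ t u (show i < E by omega), d5_step κ t u (show i + 1 < E by omega),
    show i + 1 + 1 = i + 2 by ring]
  unfold d5_A d5_L d5_X
  ring

/-! ### Bounds for the summands -/

section bounds

variable {D : ℕ} (hD : 1 ≤ D)

include hD

lemma d5_nx_mem {x : ℝ} (hx : 0 ≤ x ∧ x ≤ 1) (c c' : Sy) (l : ℕ) :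
    0 ≤ d5_nx (th D) c c' l x ∧ d5_nx (th D) c c' l x ≤ 1 := by
  obtain ⟨t0, t1⟩ := th_mem hD
  unfold d5_nx
  split_ifs
  · exact hx
  · exact ⟨zero_le_one, le_rfl⟩
  · exact ⟨le_rfl, zero_le_one⟩
  · exact ⟨mul_nonneg hx.1 (pow_nonneg t0.le l), mul_le_one₀ hx.2 (pow_nonneg t0.le l)
      (pow_le_one₀ t0.le t1)⟩

lemma d5_add_mem {x : ℝ} (hx : 0 ≤ x ∧ x ≤ 1) (c c' : Sy) (l : ℕ) :
    0 ≤ d5_add (kap D) c c' l x ∧ d5_add (kap D) c c' l x ≤ 1 := by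
  obtain ⟨k0, k1⟩ := p6x_kap hD l
  unfold d5_add
  split_ifs
  · exact ⟨le_rfl, zero_le_one⟩
  · exact ⟨le_rfl, zero_le_one⟩
  · exact ⟨mul_nonneg hx.1 k0, mul_le_one₀ hx.2 k0 k1⟩

lemma d5_A_mem {x : ℝ} (hx : 0 ≤ x ∧ x ≤ 1) (c0 c1 c2 c3 c4 : Sy) (l : ℕ) :
    0 ≤ d5_A (kap D) (th D) c0 c1 c2 c3 c4 l x ∧ d5_A (kap D) (th D) c0 c1 c2 c3 c4 l x ≤ 4 := by
  have x1 := d5_nx_mem hD hx c0 c1 l
  have x2 := d5_nx_mem hD x1 c1 c2 (d5_nl c0 c1 l)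
  have x3 := d5_nx_mem hD x2 c2 c3 (d5_nl c1 c2 (d5_nl c0 c1 l))
  have a0 := d5_add_mem hD hx c0 c1 l
  have a1 := d5_add_mem hD x1 c1 c2 (d5_nl c0 c1 l)
  have a2 := d5_add_mem hD x2 c2 c3 (d5_nl c1 c2 (d5_nl c0 c1 l))
  have a3 := d5_add_mem hD x3 c3 c4 (d5_nl c2 c3 (d5_nl c1 c2 (d5_nl c0 c1 l)))
  unfold d5_A
  constructor
  · linarith [a0.1, a1.1, a2.1, a3.1]
  · linarith [a0.2, a1.2, a2.2, a3.2]

lemma d5_X_mem {x : ℝ} (hx : 0 ≤ x ∧ x ≤ 1) (c0 c1 c2 c3 c4 : Sy) (l : ℕ) :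
    0 ≤ d5_X (th D) c0 c1 c2 c3 c4 l x ∧ d5_X (th D) c0 c1 c2 c3 c4 l x ≤ 1 := by
  have x1 := d5_nx_mem hD hx c0 c1 l
  have x2 := d5_nx_mem hD x1 c1 c2 (d5_nl c0 c1 l)
  have x3 := d5_nx_mem hD x2 c2 c3 (d5_nl c1 c2 (d5_nl c0 c1 l))
  exact d5_nx_mem hD x3 c3 c4 (d5_nl c2 c3 (d5_nl c1 c2 (d5_nl c0 c1 l)))

end bounds

/-! ### The discounted distance along the window -/

/-- one step between sites which are not stars -/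
lemma d5_mu {t : ℝ} {c c' : Sy} (hc : c ≠ .s) (hc' : c' ≠ .s) (l : ℕ) (x : ℝ) :
    d5_nx t c c' l x * t ^ d5_nl c c' l = x * t ^ l * t := by
  unfold d5_nx d5_nl
  by_cases h : c' = c
  · rw [if_pos h, if_pos h, pow_succ]; ring
  · rw [if_neg h, if_neg h, if_neg hc, if_neg hc', pow_one]

/-- the step after a star -/
lemma d5_mu_star {t : ℝ} {c c' : Sy} (hc : c = .s) (hc' : c' ≠ .s) (l : ℕ) (x : ℝ) :
    d5_nx t c c' l x * t ^ d5_nl c c' l = t := by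
  unfold d5_nx d5_nl
  have h : c' ≠ c := fun h => hc' (h.trans hc)
  rw [if_neg h, if_neg h, if_pos hc, pow_one, one_mul]

/-- number of steps since the last star of the window (`5` if there is none) -/
def d5_last (c0 c1 c2 c3 c4 : Sy) : ℕ :=
  if c4 = .s then 0 else if c3 = .s then 1 else if c2 = .s then 2 else if c1 = .s then 3
    else if c0 = .s then 4 else 5

lemma d5_muX {t : ℝ} {c0 c1 c2 c3 c4 : Sy} (h1 : d5_last c0 c1 c2 c3 c4 ≠ 0)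
    (h5 : d5_last c0 c1 c2 c3 c4 ≠ 5) (l : ℕ) (x : ℝ) :
    d5_X t c0 c1 c2 c3 c4 l x * t ^ d5_L c0 c1 c2 c3 c4 l = t ^ d5_last c0 c1 c2 c3 c4 := by
  unfold d5_X d5_L
  unfold d5_last at *
  by_cases a4 : c4 = .s
  · rw [if_pos a4] at h1; exact absurd rfl h1
  rw [if_neg a4] at h1 h5 ⊢
  by_cases a3 : c3 = .s
  · rw [if_pos a3, pow_one]
    exact d5_mu_star a3 a4 _ _
  rw [if_neg a3] at h1 h5 ⊢
  rw [d5_mu a3 a4]
  by_cases a2 : c2 = .s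
  · rw [if_pos a2, d5_mu_star a2 a3]
    ring
  rw [if_neg a2] at h1 h5 ⊢
  rw [d5_mu a2 a3]
  by_cases a1 : c1 = .s
  · rw [if_pos a1, d5_mu_star a1 a2]
    ring
  rw [if_neg a1] at h1 h5 ⊢
  rw [d5_mu a1 a2]
  by_cases a0 : c0 = .s
  · rw [if_pos a0, d5_mu_star a0 a1]
    ring
  rw [if_neg a0] at h5
  exact absurd rfl h5

/-! ### The tail -/

/-- comparison of the views at the end of the window near a star edge -/
lemma d5_tail {D : ℕ} (hD : 1 ≤ D) (u : ℤ → Sy) (E a : ℤ) {l l' : ℕ} {x x' : ℝ}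
    (hx : 0 ≤ x ∧ x ≤ 1) (hx' : 0 ≤ x') (h : x * th D ^ l * th D ≤ x' * th D ^ l') :
    x * gV (kap D) (th D) u E l a ≤ x' * gV (kap D) (th D) u E l' a + 2 := by
  obtain ⟨t0, t1⟩ := th_mem hD
  have hD' : (1 : ℝ) ≤ D := by exact_mod_cast hD
  rcases d5_form hD u E a with h1 | ⟨n, G, hG0, hG, h1⟩
  · rw [h1, h1]; linarith
  · rw [h1, h1]
    have k1 := p6x_kap hD (l + n)
    have k2 := p6x_kap hD (l' + n)
    have e1 : x * kap D (l + n) ≤ 1 := mul_le_one₀ hx.2 k1.1 k1.2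
    have e2 : 0 ≤ x' * kap D (l' + n) := mul_nonneg hx' k2.1
    have p0 := pow_nonneg t0.le l
    have p1 : th D ^ l ≤ 1 := pow_le_one₀ t0.le t1
    have e3 : x * th D ^ l * th D * G ≤ x' * th D ^ l' * G := mul_le_mul_of_nonneg_right h hG0
    have e4 : x * th D ^ l * G - x * th D ^ l * th D * G ≤ 1 := by
      have e5 : x * th D ^ l * G - x * th D ^ l * th D * G = x * th D ^ l * (G * (1 - th D)) := by
        ring
      have e6 : 1 - th D = 1 / (2 * D) := by unfold th; ring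
      have e7 : G * (1 - th D) ≤ 1 := by
        rw [e6, mul_one_div, div_le_one (by linarith)]
        exact hG
      have e8 : 0 ≤ G * (1 - th D) := mul_nonneg hG0 (by linarith)
      rw [e5]
      exact mul_le_one₀ (mul_le_one₀ hx.2 p0 p1) e8 e7
    nlinarith

/-! ### The combinatorial part -/

/-- a killable star run begins at one of the three middle letters -/
def d5_K (c0 c1 c2 c3 c4 : Sy) : Bool :=
  (c1 = .s ∧ c0 ≠ .s ∧ (c2 ≠ .s ∨ (c3 ≠ .s ∧ c3 = c0) ∨ (c3 = .s ∧ c4 ≠ .s ∧ c4 = c0))) ∨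
    (c2 = .s ∧ c1 ≠ .s ∧ (c3 ≠ .s ∨ (c4 ≠ .s ∧ c4 = c1))) ∨
    (c3 = .s ∧ c2 ≠ .s ∧ c4 ≠ .s)

/-- a star edge in the window -/
def d5_E (c0 c1 c2 c3 c4 : Sy) : Bool :=
  ¬ (c0 = .s ↔ c1 = .s) ∨ ¬ (c1 = .s ↔ c2 = .s) ∨ ¬ (c2 = .s ↔ c3 = .s) ∨ ¬ (c3 = .s ↔ c4 = .s)

/-- near a star edge without killable star run the last star moves by at most one to the left -/
lemma d5_dec : ∀ c0 c1 c2 c3 c4 : Sy, rc c0 c1 c2 = true → rc c1 c2 c3 = true →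
    rc c2 c3 c4 = true → d5_E c0 c1 c2 c3 c4 = true → d5_K c0 c1 c2 c3 c4 = false →
    c4 = .s ∨ (d5_last c0 c1 c2 c3 c4 ≠ 0 ∧ d5_last c0 c1 c2 c3 c4 ≠ 5 ∧
      d5_last c0 (rL false c0 c1 c2) (rS false c0 c1 c2 c3 c4) (rR false c2 c3 c4) c4 ≠ 0 ∧
      d5_last c0 (rL false c0 c1 c2) (rS false c0 c1 c2 c3 c4) (rR false c2 c3 c4) c4 ≠ 5 ∧
      d5_last c0 (rL false c0 c1 c2) (rS false c0 c1 c2 c3 c4) (rR false c2 c3 c4) c4 ≤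
        d5_last c0 c1 c2 c3 c4 + 1) := by
  decide

/-- without star edges: all stars, or no stars -/
lemma d5_noE : ∀ c0 c1 c2 c3 c4 : Sy, d5_E c0 c1 c2 c3 c4 = false →
    (c0 = .s ∧ c1 = .s ∧ c2 = .s ∧ c3 = .s ∧ c4 = .s) ∨
      (c0 ≠ .s ∧ c1 ≠ .s ∧ c2 ≠ .s ∧ c3 ≠ .s ∧ c4 ≠ .s) := by
  decide

/-- the letters before and after the mark, as a list -/
def d5_T (c0 c1 c2 c3 c4 : Sy) : List Sy :=
  [c0, c1, c2, c3, c4, rL false c0 c1 c2, rS false c0 c1 c2 c3 c4, rR false c2 c3 c4]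

/-- the seven windows without stars in which the mark has an effect -/
def d5_tab : Fin 7 → List Sy
  | 0 => [.o, .o, .o, .o, .z, .o, .o, .z]
  | 1 => [.o, .o, .o, .z, .z, .o, .z, .z]
  | 2 => [.z, .o, .o, .o, .o, .z, .o, .o]
  | 3 => [.z, .z, .o, .o, .o, .z, .z, .o]
  | 4 => [.z, .o, .o, .o, .z, .z, .z, .z]
  | 5 => [.z, .o, .o, .z, .z, .z, .z, .z]
  | 6 => [.z, .z, .o, .o, .z, .z, .z, .z]

/-- windows without stars: nothing happens, or one of seven cases -/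
lemma d5_bin : ∀ c0 c1 c2 c3 c4 : Sy, rc c0 c1 c2 = true → rc c1 c2 c3 = true →
    rc c2 c3 c4 = true → (c0 ≠ .s ∧ c1 ≠ .s ∧ c2 ≠ .s ∧ c3 ≠ .s ∧ c4 ≠ .s) →
    d5_T c0 c1 c2 c3 c4 = [c0, c1, c2, c3, c4, c1, c2, c3] ∨
      ∃ k : Fin 7, d5_T c0 c1 c2 c3 c4 = d5_tab k := by
  decide

end Pool.Agent.T3M
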