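import Mathlib
import Pool.Agent.T3M.MD5db

/-! Lower bound for the change of `ZL` by one mark `false`: every site (helper91). -/

set_option autoImplicit false

namespace Pool.Agent.T3M

section real

variable {D : ℕ} (hD : 1 ≤ D) (u : ℤ → Sy) (E j : ℤ) {x : ℝ} (hx : 0 ≤ x)

include hD hx

/-- a wall moves to the left -/
lemma d5_pullR (l a : ℕ) :
    x * kap D (l + 1) + x * th D ^ (l + 1) * gV (kap D) (th D) u E a j ≤
      x * kap D l + x * th D ^ l * gV (kap D) (th D) u E (a + 1) j + 9 / D * (x * th D ^ l) := by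
  obtain ⟨t0, t1⟩ := th_mem hD
  have hD' : (1 : ℝ) ≤ D := by exact_mod_cast hD
  have hy : 0 ≤ x * th D ^ l := mul_nonneg hx (pow_nonneg t0.le l)
  have h1 : x * kap D (l + 1) ≤ x * kap D l :=
    mul_le_mul_of_nonneg_left (d5_kap_anti hD (Nat.le_succ l)) hx
  have h2 : 0 ≤ 9 / (D : ℝ) * (x * th D ^ l) := mul_nonneg (by positivity) hy
  rcases d5_form hD u E j with hV | ⟨n, G, hG0, hG, hV⟩
  · rw [hV, hV]; linarith
  · rw [hV, hV]
    have k1 := (d5_kap_diff hD (a + n)).2
    rw [show a + n + 1 = a + 1 + n by ring] at k1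
    have k2 := (p6x_kap hD (a + n)).1
    have k3 : th D * kap D (a + n) ≤ 1 * kap D (a + n) := mul_le_mul_of_nonneg_right t1 k2
    have k4 : th D * kap D (a + n) - kap D (a + 1 + n) ≤ 2 / D := by linarith
    have k5 := mul_le_mul_of_nonneg_left k4 hy
    have k6 : x * th D ^ l * (2 / D) ≤ 9 / D * (x * th D ^ l) := by
      have : 2 / (D : ℝ) ≤ 9 / D := div_le_div_of_nonneg_right (by norm_num) (by linarith)
      rw [mul_comm (9 / (D : ℝ))]
      exact mul_le_mul_of_nonneg_left this hy
    have e1 : x * th D ^ (l + 1) * (kap D (a + n) + th D ^ a * G) =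
        x * th D ^ l * (th D * kap D (a + n)) + x * th D ^ l * (th D ^ (a + 1) * G) := by ring
    rw [e1]
    linarith

/-- a wall moves to the right -/
lemma d5_pullL (l a : ℕ) :
    x * kap D l + x * th D ^ l * gV (kap D) (th D) u E (a + 1) j ≤
      x * kap D (l + 1) + x * th D ^ (l + 1) * gV (kap D) (th D) u E a j +
        9 / D * (x * th D ^ l) := by
  obtain ⟨t0, t1⟩ := th_mem hD
  have hD' : (1 : ℝ) ≤ D := by exact_mod_cast hD
  have hy : 0 ≤ x * th D ^ l := mul_nonneg hx (pow_nonneg t0.le l)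
  have h1 : x * kap D l ≤ x * kap D (l + 1) + 8 / D * (x * th D ^ l) := by
    have h3 := mul_le_mul_of_nonneg_left (d5_kap_diff hD l).1 hx
    have h4 : x * (2 / D * (4 * th D ^ l)) = 8 / D * (x * th D ^ l) := by ring
    rw [h4] at h3
    linarith
  have h9 : 9 / (D : ℝ) * (x * th D ^ l) = 8 / D * (x * th D ^ l) + 1 / D * (x * th D ^ l) := by ring
  have h2 : 0 ≤ 1 / (D : ℝ) * (x * th D ^ l) := mul_nonneg (by positivity) hy
  rw [h9]
  rcases d5_form hD u E j with hV | ⟨n, G, hG0, hG, hV⟩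
  · rw [hV, hV]; linarith
  · rw [hV, hV]
    have k1 := d5_kap_anti hD (show a + n ≤ a + 1 + n by omega)
    have k2 := p6x_kap hD (a + n)
    have k3 : kap D (a + 1 + n) - th D * kap D (a + n) ≤ 1 / D := by
      have e6 : th D = 1 - 1 / (2 * D) := rfl
      have e7 : 1 / (2 * (D : ℝ)) ≤ 1 / D := by
        apply div_le_div_of_nonneg_left (by norm_num) (by linarith) (by linarith)
      have e8 : 1 / (2 * (D : ℝ)) * kap D (a + n) ≤ 1 / (2 * (D : ℝ)) * 1 :=
        mul_le_mul_of_nonneg_left k2.2 (by positivity)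
      rw [e6]
      linarith
    have k5 := mul_le_mul_of_nonneg_left k3 hy
    have e1 : x * th D ^ (l + 1) * (kap D (a + n) + th D ^ a * G) =
        x * th D ^ l * (th D * kap D (a + n)) + x * th D ^ l * (th D ^ (a + 1) * G) := by ring
    rw [e1]
    linarith

/-- an interior run dies -/
lemma d5_kill (l b c : ℕ) :
    x * kap D l + x * th D ^ l * kap D b +
        x * th D ^ l * th D ^ b * gV (kap D) (th D) u E c j ≤
      x * gV (kap D) (th D) u E (l + b + c) j + 6 * (x * th D ^ l) := by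
  obtain ⟨t0, t1⟩ := th_mem hD
  have hy : 0 ≤ x * th D ^ l := mul_nonneg hx (pow_nonneg t0.le l)
  have h1 : x * kap D l ≤ 4 * (x * th D ^ l) := by
    have := mul_le_mul_of_nonneg_left (bt_kap hD l) hx
    linarith
  have h2 : x * th D ^ l * kap D b ≤ x * th D ^ l * 1 :=
    mul_le_mul_of_nonneg_left (p6x_kap hD b).2 hy
  rcases d5_form hD u E j with hV | ⟨n, G, hG0, hG, hV⟩
  · rw [hV, hV]; linarith
  · rw [hV, hV]
    have k2 := p6x_kap hD (c + n)
    have k3 := p6x_kap hD (l + b + c + n)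
    have p1 : th D ^ b ≤ 1 := pow_le_one₀ t0.le t1
    have p0 := pow_nonneg t0.le b
    have k4 : x * th D ^ l * (th D ^ b * kap D (c + n)) ≤ x * th D ^ l * 1 :=
      mul_le_mul_of_nonneg_left (mul_le_one₀ p1 k2.1 k2.2) hy
    have k5 : 0 ≤ x * kap D (l + b + c + n) := mul_nonneg hx k3.1
    have e1 : x * th D ^ l * th D ^ b * (kap D (c + n) + th D ^ c * G) =
        x * th D ^ l * (th D ^ b * kap D (c + n)) + x * (th D ^ (l + b + c) * G) := by ring
    rw [e1]
    linarith

end real

/-! ### Comparison with the charges -/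

lemma d5_lam_mem {D : ℕ} (hD : 1 ≤ D) (u : ℤ → Sy) (a : ℤ) :
    0 ≤ d5_lam (th D) u a ∧ d5_lam (th D) u a ≤ 1 := by
  obtain ⟨t0, t1⟩ := th_mem hD
  unfold d5_lam
  exact ⟨mul_nonneg (ind_nonneg _) (pow_nonneg t0.le _),
    mul_le_one₀ (ind_le_one _) (pow_nonneg t0.le _) (pow_le_one₀ t0.le t1)⟩

/-- the discounted length -/
lemma d5_lam_pow {D : ℕ} (u : ℤ → Sy) (a : ℤ) :
    d5_lam (th D) u a * th D ^ ll u a = ind (u a ≠ .s ∧ dl u a ≠ 0) * th D ^ dl u a := by
  unfold d5_lam
  by_cases h : u a ≠ .s ∧ dl u a ≠ 0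
  · rw [ind_true h, one_mul, one_mul, ← pow_add, Nat.sub_add_cancel (ll_le_dl h.1 h.2)]
  · rw [ind_false h]; ring

lemma d5_lam_Gd {D : ℕ} (hD : 1 ≤ D) (u : ℤ → Sy) (a : ℤ) :
    d5_lam (th D) u a * th D ^ ll u a ≤ Gd D u a := by
  rw [d5_lam_pow]
  unfold Gd
  exact mul_le_mul_of_nonneg_right (ind_mono fun h => h.2) (pow_nonneg (th_mem hD).1.le _)

/-- a short run of length `k` which ends at `p`, seen from the site `p - k - m` in the run before -/
lemma d5_short {D : ℕ} (hD : 1 ≤ D) {u : ℤ → Sy} {a p : ℤ} {k m : ℕ} (hk : k ≤ 3) (hk1 : 1 ≤ k)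
    (hap : a = p - k - m) (h0 : u a ≠ .s) (hm : ∀ q, a ≤ q → q ≤ p - k → u q = u a)
    (hr : ∀ q, p - k < q → q ≤ p → u q = u p) (hne : u p ≠ u a) (hps : u p ≠ .s)
    (h1 : u (p + 1) ≠ u p) (h1s : u (p + 1) ≠ .s) :
    d5_lam (th D) u a * th D ^ (ll u a + m) ≤ f3_t D u p := by
  obtain ⟨t0, t1⟩ := th_mem hD
  rw [pow_add, ← mul_assoc, d5_lam_pow]
  by_cases hd : dl u a ≠ 0
  · rw [ind_true ⟨h0, hd⟩, one_mul, ← pow_add]
    have hll : ll u p = k := by
      apply ll_eq
      · rw [hm (p - k) (by omega) le_rfl]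
        exact hne.symm
      · intro j hj
        exact hr _ (by omega) (by omega)
    have hns : ∀ q, a ≤ q → q ≤ p → u q ≠ .s := by
      intro q hq hq'
      by_cases h2 : q ≤ p - k
      · rw [hm q hq h2]; exact h0
      · rw [hr q (by omega) hq']; exact hps
    have hdl : dl u p = dl u a + (m + k) := by
      apply dl_eq
      · have e1 : p - ((dl u a + (m + k) : ℕ) : ℤ) = a - (dl u a : ℕ) := by
          push_cast; omega
        rw [e1]
        exact dl_mem hd
      · intro j hj
        by_cases h2 : (j : ℤ) ≤ m + k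
        · exact hns _ (by omega) (by omega)
        · have e1 : p - (j : ℤ) = a - ((j - (m + k) : ℕ) : ℤ) := by
            have : m + k ≤ j := by omega
            push_cast [Nat.cast_sub this]
            omega
          rw [e1]
          exact dl_lt (by omega)
    unfold f3_t
    rw [hll, hdl, ind_true ⟨⟨hps, h1s, h1.symm⟩, by omega, hk⟩, one_mul,
      show dl u a + (m + k) - k = dl u a + m by omega]
  · rw [ind_false (fun h => hd h.2)]
    rw [zero_mul, zero_mul]
    exact f3_t_nonneg hD u p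

/-! ### The site lemma -/

/-- the charges -/
noncomputable def d5_ch (C : ℝ) (D : ℕ) (u : ℤ → Sy) (i : ℤ) : ℝ :=
  9 / D * Gd D u (i - 2) + 6 * (f3_t D u i + f3_t D u (i + 1)) +
    6 * (ind (SE u (i - 2)) + ind (SE u (i - 1)) + ind (SE u i) + ind (SE u (i + 1))) +
    C * D * (ind (Kl u (i - 1)) + ind (Kl u i) + ind (Kl u (i + 1)))

lemma d5_K_Kl {u : ℤ → Sy} {i : ℤ}
    (h : d5_K (u (i - 2)) (u (i - 1)) (u i) (u (i + 1)) (u (i + 2)) = true) :
    Kl u (i - 1) ∨ Kl u i ∨ Kl u (i + 1) := by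
  unfold d5_K at h
  rw [decide_eq_true_iff] at h
  unfold Kl
  rw [show i - 1 - 1 = i - 2 by ring, show i - 1 + 1 = i by ring, show i - 1 + 2 = i + 1 by ring,
    show i - 1 + 3 = i + 2 by ring, show i + 1 - 1 = i by ring, show i + 1 + 1 = i + 2 by ring,
    show i + 1 + 2 = i + 3 by ring, show i + 1 + 3 = i + 4 by ring]
  rcases h with ⟨h1, h2, h3⟩ | ⟨h1, h2, h3⟩ | ⟨h1, h2, h3⟩
  · left
    refine ⟨h1, h2, ?_⟩
    by_cases h4 : u i = .s
    · rcases h3 with h3 | h3 | h3
      · exact absurd h4 h3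
      · exact Or.inr (Or.inl ⟨h4, h3.1, h3.2⟩)
      · exact Or.inr (Or.inr ⟨h4, h3.1, h3.2.1, h3.2.2⟩)
    · exact Or.inl h4
  · right; left
    refine ⟨h1, h2, ?_⟩
    by_cases h4 : u (i + 1) = .s
    · rcases h3 with h3 | h3
      · exact absurd h4 h3
      · exact Or.inr (Or.inl ⟨h4, h3.1, h3.2⟩)
    · exact Or.inl h4
  · right; right
    exact ⟨h1, h2, Or.inl h3⟩

lemma d5_E_SE {u : ℤ → Sy} {i : ℤ}
    (h : d5_E (u (i - 2)) (u (i - 1)) (u i) (u (i + 1)) (u (i + 2)) = true) :
    1 ≤ ind (SE u (i - 2)) + ind (SE u (i - 1)) + ind (SE u i) + ind (SE u (i + 1)) := by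
  unfold d5_E at h
  rw [decide_eq_true_iff] at h
  have a1 := ind_nonneg (SE u (i - 2))
  have a2 := ind_nonneg (SE u (i - 1))
  have a3 := ind_nonneg (SE u i)
  have a4 := ind_nonneg (SE u (i + 1))
  rcases h with h | h | h | h
  · have : SE u (i - 2) := by unfold SE; rw [show i - 2 + 1 = i - 1 by ring]; exact h
    rw [ind_true this]; linarith
  · have : SE u (i - 1) := by unfold SE; rw [show i - 1 + 1 = i by ring]; exact h
    rw [ind_true this]; linarith
  · have : SE u i := h
    rw [ind_true this]; linarith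
  · have : SE u (i + 1) := by unfold SE; rw [show i + 1 + 1 = i + 2 by ring]; exact h
    rw [ind_true this]; linarith

lemma d5_ch_parts {C : ℝ} (hC : 0 ≤ C) {D : ℕ} (hD : 1 ≤ D) (u : ℤ → Sy) (i : ℤ) :
    0 ≤ 9 / D * Gd D u (i - 2) ∧ 0 ≤ f3_t D u i ∧ 0 ≤ f3_t D u (i + 1) ∧
    0 ≤ ind (SE u (i - 2)) + ind (SE u (i - 1)) + ind (SE u i) + ind (SE u (i + 1)) ∧
    0 ≤ C * D * (ind (Kl u (i - 1)) + ind (Kl u i) + ind (Kl u (i + 1))) := by
  have b1 := ind_nonneg (Kl u (i - 1))
  have b2 := ind_nonneg (Kl u i)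
  have b3 := ind_nonneg (Kl u (i + 1))
  have b4 := ind_nonneg (SE u (i - 2))
  have b5 := ind_nonneg (SE u (i - 1))
  have b6 := ind_nonneg (SE u i)
  have b7 := ind_nonneg (SE u (i + 1))
  refine ⟨mul_nonneg (by positivity) (Gd_mem hD u (i - 2)).1, f3_t_nonneg hD u i,
    f3_t_nonneg hD u (i + 1), by linarith, ?_⟩
  exact mul_nonneg (mul_nonneg hC (Nat.cast_nonneg D)) (by linarith)

theorem d5_site {C : ℝ} (hC : 0 ≤ C) (hI : ∀ D : ℕ, 100 ≤ D →
    Infl 1 (ZL D) (C * D) C D (fun _ _ => 0)) {D : ℕ} (hD : 100 ≤ D) {u : ℤ → Sy} {N : ℕ}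
    (hr : Rt u) (hS : Sup N u) (i : ℤ) :
    ZL D u - ZL D (Rf i false u) ≤ d5_ch C D u i := by
  have hD1 : 1 ≤ D := by omega
  obtain ⟨t0, t1⟩ := th_mem hD1
  obtain ⟨g1, g2, g3, g4, g5⟩ := d5_ch_parts hC hD1 u i
  set N' : ℕ := N + i.natAbs with hN'
  have hS1 : Sup N' u := hS.mono (by omega)
  have hi' : |i| ≤ (N' : ℤ) := by rw [hN']; push_cast; omega
  have hS2 : Sup N' (Rf i false u) := hS1.Rf hi' false
  have hr2 : Rt (Rf i false u) := Rf_root hr i false
  by_cases hK : d5_K (u (i - 2)) (u (i - 1)) (u i) (u (i + 1)) (u (i + 2)) = true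
  · -- a killable star run
    have h1 := (hI D hD).gen u (Rf i false u) N' i hr hr2 hS1 hS2 fun k hk => by
      rw [Rf_far hr false (by unfold KK at hk; omega)]
    have h2 := (le_abs_self _).trans h1
    have h3 : 1 ≤ ind (Kl u (i - 1)) + ind (Kl u i) + ind (Kl u (i + 1)) := by
      have b1 := ind_nonneg (Kl u (i - 1))
      have b2 := ind_nonneg (Kl u i)
      have b3 := ind_nonneg (Kl u (i + 1))
      rcases d5_K_Kl hK with h | h | h
      · rw [ind_true h]; linarith
      · rw [ind_true h]; linarith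
      · rw [ind_true h]; linarith
    have h4 : C * D * 1 ≤ C * D * (ind (Kl u (i - 1)) + ind (Kl u i) + ind (Kl u (i + 1))) :=
      mul_le_mul_of_nonneg_left h3 (mul_nonneg hC (Nat.cast_nonneg D))
    unfold d5_ch
    linarith
  · have hK' : d5_K (u (i - 2)) (u (i - 1)) (u i) (u (i + 1)) (u (i + 2)) = false := by
      simpa using hK
    set E : ℤ := (N' : ℤ) + 5 with hE
    have hiE : i + 2 ≤ E := by
      rw [hE]
      rcases abs_cases i with ⟨h1, _⟩ | ⟨h1, _⟩ <;> omega
    have hpre : ∀ k, k ≤ i - 2 → Rf i false u k = u k := fun k hk => Rf_far hr false (by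
      rcases abs_cases (k - i) with ⟨h1, _⟩ | ⟨h1, _⟩ <;> omega)
    have hpost : ∀ k, i + 2 ≤ k → Rf i false u k = u k := fun k hk => Rf_far hr false (by
      rcases abs_cases (k - i) with ⟨h1, _⟩ | ⟨h1, _⟩ <;> omega)
    have hdiff := d5_diff (kap D) (th D) hS1 hS2 (E := E) (a := i - 2) (by omega) (by omega) hpre
    have hZ1 : ∑ᶠ p, gW (kap D) (th D) (Rf i false u) p = ZL D (Rf i false u) := rfl
    have hZ2 : ∑ᶠ p, gW (kap D) (th D) u p = ZL D u := rfl
    rw [hZ1, hZ2] at hdiff
    set l := ll u (i - 2) with hl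
    set x := d5_lam (th D) u (i - 2) with hxdef
    have hx := d5_lam_mem hD1 u (i - 2)
    rw [← hxdef] at hx
    -- letters
    have f1 := rL_eq hr i false
    have f2 := rS_eq hr i false
    have f3 := rR_eq hr i false
    have r1 := hr.rc (i - 1)
    have r2 := hr.rc i
    have r3 := hr.rc (i + 1)
    rw [show i - 1 - 1 = i - 2 by ring, show i - 1 + 1 = i by ring] at r1
    rw [show i + 1 - 1 = i by ring, show i + 1 + 1 = i + 2 by ring] at r3
    have e1 := d5_four (kap D) (th D) u hiE l x (rfl : u (i - 2) = _) (rfl : u (i - 1) = _)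
      (rfl : u i = _) (rfl : u (i + 1) = _) (rfl : u (i + 2) = _)
    have e2 := d5_four (kap D) (th D) (Rf i false u) hiE l x (hpre (i - 2) le_rfl) f1 f2 f3
      (hpost (i + 2) le_rfl)
    have e3 : ∀ (l' : ℕ) (x' : ℝ), d5_Z (kap D) (th D) (Rf i false u) E (i + 2) l' x' =
        x' * gV (kap D) (th D) u E l' (i + 2) + gR (kap D) (th D) u E (i + 2) := by
      intro l' x'
      unfold d5_Z
      rw [gV_congr (kap D) (th D) E (fun k hk _ => hpost k hk), gR_congr (kap D) (th D) E
        (fun k hk _ => hpost k hk)]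
    have e4 : ∀ (l' : ℕ) (x' : ℝ), d5_Z (kap D) (th D) u E (i + 2) l' x' =
        x' * gV (kap D) (th D) u E l' (i + 2) + gR (kap D) (th D) u E (i + 2) := fun _ _ => rfl
    rw [e3] at e2
    rw [e4] at e1
    have hGd := d5_lam_Gd hD1 u (i - 2)
    rw [← hxdef, ← hl] at hGd
    have hD' : (1 : ℝ) ≤ D := by exact_mod_cast hD1
    have h9 : 9 / (D : ℝ) * (x * th D ^ l) ≤ 9 / D * Gd D u (i - 2) :=
      mul_le_mul_of_nonneg_left hGd (by positivity)
    have hy : 0 ≤ x * th D ^ l := mul_nonneg hx.1 (pow_nonneg t0.le l)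
    have hpow : ∀ k : ℕ, 9 / (D : ℝ) * (x * th D ^ (l + k)) ≤ 9 / D * (x * th D ^ l) := by
      intro k
      apply mul_le_mul_of_nonneg_left _ (by positivity)
      rw [pow_add, ← mul_assoc]
      have := pow_le_one₀ (n := k) t0.le t1
      nlinarith
    by_cases hEd : d5_E (u (i - 2)) (u (i - 1)) (u i) (u (i + 1)) (u (i + 2)) = true
    · -- a star edge, no killable star run
      have hSE := d5_E_SE hEd
      have a1 := d5_A_mem hD1 hx (u (i - 2)) (u (i - 1)) (u i) (u (i + 1)) (u (i + 2)) l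
      have a2 := d5_A_mem hD1 hx (u (i - 2)) (rL false (u (i - 2)) (u (i - 1)) (u i))
        (rS false (u (i - 2)) (u (i - 1)) (u i) (u (i + 1)) (u (i + 2)))
        (rR false (u i) (u (i + 1)) (u (i + 2))) (u (i + 2)) l
      have x1 := d5_X_mem hD1 hx (u (i - 2)) (u (i - 1)) (u i) (u (i + 1)) (u (i + 2)) l
      have x2 := d5_X_mem hD1 hx (u (i - 2)) (rL false (u (i - 2)) (u (i - 1)) (u i))
        (rS false (u (i - 2)) (u (i - 1)) (u i) (u (i + 1)) (u (i + 2)))
        (rR false (u i) (u (i + 1)) (u (i + 2))) (u (i + 2)) l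
      have htail : d5_X (th D) (u (i - 2)) (u (i - 1)) (u i) (u (i + 1)) (u (i + 2)) l x *
          gV (kap D) (th D) u E (d5_L (u (i - 2)) (u (i - 1)) (u i) (u (i + 1)) (u (i + 2)) l)
            (i + 2) ≤
          d5_X (th D) (u (i - 2)) (rL false (u (i - 2)) (u (i - 1)) (u i))
            (rS false (u (i - 2)) (u (i - 1)) (u i) (u (i + 1)) (u (i + 2)))
            (rR false (u i) (u (i + 1)) (u (i + 2))) (u (i + 2)) l x *
          gV (kap D) (th D) u E (d5_L (u (i - 2)) (rL false (u (i - 2)) (u (i - 1)) (u i))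
            (rS false (u (i - 2)) (u (i - 1)) (u i) (u (i + 1)) (u (i + 2)))
            (rR false (u i) (u (i + 1)) (u (i + 2))) (u (i + 2)) l) (i + 2) + 2 := by
        rcases d5_dec _ _ _ _ _ r1 r2 r3 hEd hK' with h4 | ⟨b1, b2, b3, b4, b5⟩
        · rw [gV_star _ _ _ _ h4, gV_star _ _ _ _ h4]
          linarith
        · apply d5_tail hD1 u E (i + 2) x1 x2.1
          rw [d5_muX b1 b2, d5_muX b3 b4, ← pow_succ]
          exact pow_le_pow_of_le_one t0.le t1 b5
      unfold d5_ch
      linarith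
    · have hEd' : d5_E (u (i - 2)) (u (i - 1)) (u i) (u (i + 1)) (u (i + 2)) = false := by
        simpa using hEd
      rcases d5_noE _ _ _ _ _ hEd' with ⟨s0, s1, s2, s3, s4⟩ | hns
      · -- all stars: nothing happens
        rw [s0, s1, s2, s3, s4] at e1 e2
        have q1 : rL false .s .s .s = .s := by decide
        have q2 : rS false .s .s .s .s .s = .s := by decide
        have q3 : rR false .s .s .s = .s := by decide
        rw [q1, q2, q3] at e2
        unfold d5_ch
        linarith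
      · rcases d5_bin _ _ _ _ _ r1 r2 r3 hns with hT | ⟨k, hT⟩
        · unfold d5_T at hT
          simp only [List.cons.injEq, and_true, true_and] at hT
          obtain ⟨q1, q2, q3⟩ := hT
          rw [q1, q2, q3] at e2
          unfold d5_ch
          linarith
        · -- the seven windows
          unfold d5_T at hT
          fin_cases k
          · simp only [d5_tab, List.cons.injEq, and_true] at hT
            obtain ⟨c0, c1, c2, c3, c4, q1, q2, q3⟩ := hT
            rw [q1, q2, q3] at e2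
            rw [c0, c1, c2, c3, c4] at e1
            rw [c0, c4] at e2
            have v1 := d5_pullR hD1 u E (i + 2) hx.1 (l + 2) 1
            have v2 := hpow 2
            simp [d5_A, d5_add, d5_nl, d5_nx, d5_X, d5_L, add_assoc] at e1 e2
            simp [add_assoc] at v1
            unfold d5_ch
            linarith
          · simp only [d5_tab, List.cons.injEq, and_true] at hT
            obtain ⟨c0, c1, c2, c3, c4, q1, q2, q3⟩ := hT
            rw [q1, q2, q3] at e2
            rw [c0, c1, c2, c3, c4] at e1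
            rw [c0, c4] at e2
            have v2 := hpow 1
            have v1 := d5_pullR hD1 u E (i + 2) hx.1 (l + 1) 2
            simp [d5_A, d5_add, d5_nl, d5_nx, d5_X, d5_L, add_assoc] at e1 e2
            simp [add_assoc] at v1
            unfold d5_ch
            linarith
          · simp only [d5_tab, List.cons.injEq, and_true] at hT
            obtain ⟨c0, c1, c2, c3, c4, q1, q2, q3⟩ := hT
            rw [q1, q2, q3] at e2
            rw [c0, c1, c2, c3, c4] at e1
            rw [c0, c4] at e2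
            have v1 := d5_pullL hD1 u E (i + 2) hx.1 l 3
            simp [d5_A, d5_add, d5_nl, d5_nx, d5_X, d5_L, add_assoc] at e1 e2
            simp [add_assoc] at v1
            unfold d5_ch
            linarith
          · simp only [d5_tab, List.cons.injEq, and_true] at hT
            obtain ⟨c0, c1, c2, c3, c4, q1, q2, q3⟩ := hT
            rw [q1, q2, q3] at e2
            rw [c0, c1, c2, c3, c4] at e1
            rw [c0, c4] at e2
            have v2 := hpow 1
            have v1 := d5_pullL hD1 u E (i + 2) hx.1 (l + 1) 2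
            simp [d5_A, d5_add, d5_nl, d5_nx, d5_X, d5_L, add_assoc] at e1 e2
            simp [add_assoc] at v1
            unfold d5_ch
            linarith
          · simp only [d5_tab, List.cons.injEq, and_true] at hT
            obtain ⟨c0, c1, c2, c3, c4, q1, q2, q3⟩ := hT
            rw [q1, q2, q3] at e2
            rw [c0, c1, c2, c3, c4] at e1
            rw [c0, c4] at e2
            have v2 : x * th D ^ l ≤ f3_t D u (i + 1) := by
              rw [show l = l + 0 by ring]
              apply d5_short hD1 (a := i - 2) (p := i + 1) (k := 3) (m := 0) (by norm_num) (by norm_num)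
                (by push_cast; ring) (by rw [c0]; decide)
              · intro q h1 h2
                have : q = i - 2 := by push_cast at h2; omega
                rw [this]
              · intro q h1 h2
                have : q = i - 1 ∨ q = i ∨ q = i + 1 := by push_cast at h1; omega
                rcases this with h | h | h <;> rw [h] <;> simp only [c1, c2, c3]
              · rw [c3, c0]; decide
              · rw [c3]; decide
              · rw [show i + 1 + 1 = i + 2 by ring, c4, c3]; decide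
              · rw [show i + 1 + 1 = i + 2 by ring, c4]; decide
            have v1 := d5_kill hD1 u E (i + 2) hx.1 l 3 1
            simp [d5_A, d5_add, d5_nl, d5_nx, d5_X, d5_L, add_assoc] at e1 e2
            simp [add_assoc] at v1
            unfold d5_ch
            linarith
          · simp only [d5_tab, List.cons.injEq, and_true] at hT
            obtain ⟨c0, c1, c2, c3, c4, q1, q2, q3⟩ := hT
            rw [q1, q2, q3] at e2
            rw [c0, c1, c2, c3, c4] at e1
            rw [c0, c4] at e2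
            have v2 : x * th D ^ l ≤ f3_t D u (i) := by
              rw [show l = l + 0 by ring]
              apply d5_short hD1 (a := i - 2) (p := i) (k := 2) (m := 0) (by norm_num) (by norm_num)
                (by push_cast; ring) (by rw [c0]; decide)
              · intro q h1 h2
                have : q = i - 2 := by push_cast at h2; omega
                rw [this]
              · intro q h1 h2
                have : q = i - 1 ∨ q = i := by push_cast at h1; omega
                rcases this with h | h <;> rw [h] <;> simp only [c1, c2]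
              · rw [c2, c0]; decide
              · rw [c2]; decide
              · rw [c3, c2]; decide
              · rw [c3]; decide
            have v1 := d5_kill hD1 u E (i + 2) hx.1 l 2 2
            simp [d5_A, d5_add, d5_nl, d5_nx, d5_X, d5_L, add_assoc] at e1 e2
            simp [add_assoc] at v1
            unfold d5_ch
            linarith
          · simp only [d5_tab, List.cons.injEq, and_true] at hT
            obtain ⟨c0, c1, c2, c3, c4, q1, q2, q3⟩ := hT
            rw [q1, q2, q3] at e2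
            rw [c0, c1, c2, c3, c4] at e1
            rw [c0, c4] at e2
            have v2 : x * th D ^ (l + 1) ≤ f3_t D u (i + 1) := by
              apply d5_short hD1 (a := i - 2) (p := i + 1) (k := 2) (m := 1) (by norm_num) (by norm_num)
                (by push_cast; ring) (by rw [c0]; decide)
              · intro q h1 h2
                have : q = i - 2 ∨ q = i - 1 := by push_cast at h2; omega
                rcases this with h | h <;> rw [h] <;> simp only [c0, c1]
              · intro q h1 h2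
                have : q = i ∨ q = i + 1 := by push_cast at h1; omega
                rcases this with h | h <;> rw [h] <;> simp only [c2, c3]
              · rw [c3, c0]; decide
              · rw [c3]; decide
              · rw [show i + 1 + 1 = i + 2 by ring, c4, c3]; decide
              · rw [show i + 1 + 1 = i + 2 by ring, c4]; decide
            have v1 := d5_kill hD1 u E (i + 2) hx.1 (l + 1) 2 1
            simp [d5_A, d5_add, d5_nl, d5_nx, d5_X, d5_L, add_assoc] at e1 e2
            simp [add_assoc] at v1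
            unfold d5_ch
            linarith

/-! ### The sum over the sites -/

lemma d5_shift {f : ℤ → ℝ} {n : ℕ} (h0 : ∀ i : ℤ, (n : ℤ) < |i| → f i = 0) (h : ∀ i, 0 ≤ f i)
    (M : ℕ) (c : ℤ) : ∑ i ∈ Finset.Icc (-(M : ℤ)) (M : ℤ), f (i + c) ≤ ∑ᶠ i, f i := by
  classical
  have e1 : ∑ i ∈ Finset.Icc (-(M : ℤ)) (M : ℤ), f (i + c) =
      ∑ j ∈ (Finset.Icc (-(M : ℤ)) (M : ℤ)).image (fun i => i + c), f j := by
    rw [Finset.sum_image]
    intro i _ j _ hij
    exact add_right_cancel hij
  set M' : ℕ := n + M + c.natAbs with hM'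
  rw [e1, fs_eq M' fun i hi => h0 i (by omega)]
  apply Finset.sum_le_sum_of_subset_of_nonneg
  · intro j hj
    rw [Finset.mem_image] at hj
    obtain ⟨i, hi, rfl⟩ := hj
    rw [Finset.mem_Icc] at hi ⊢
    rw [hM']
    push_cast
    rcases abs_cases c with ⟨h1, _⟩ | ⟨h1, _⟩ <;> omega
  · intro i _ _
    exact h i

lemma d5_Kl_out {N : ℕ} {u : ℤ → Sy} (h : Sup N u) {i : ℤ} (hi : (N : ℤ) < |i|) :
    ind (Kl u i) = 0 := by
  apply ind_false
  rintro ⟨h1, _⟩
  rw [h i hi] at h1
  exact absurd h1 (by decide)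

theorem thm_D5d (hI : St_InfZL 1) : St_D5d := by
  obtain ⟨C, hC, hI⟩ := hI
  refine ⟨42 + 3 * C, by positivity, ?_⟩
  intro u N D hD hr hS
  have hD1 : 1 ≤ D := by omega
  have hD' : (1 : ℝ) ≤ D := by exact_mod_cast hD1
  set M : ℕ := N + 2 with hM
  have h1 : -(Lb false (ZL D) u) ≤ ∑ i ∈ Finset.Icc (-(M : ℤ)) (M : ℤ), d5_ch C D u i := by
    rw [Lb_eq hr hS, ← Finset.sum_neg_distrib]
    refine Finset.sum_le_sum fun i _ => ?_
    have := d5_site hC.le hI hD hr hS i
    linarith
  -- the parts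
  have hGd : ∑ i ∈ Finset.Icc (-(M : ℤ)) (M : ℤ), Gd D u (i - 2) ≤ 2 * D * Bn u := by
    have e1 : ∑ i ∈ Finset.Icc (-(M : ℤ)) (M : ℤ), Gd D u (i - 2) ≤
        ∑ i ∈ Finset.Icc (-((M + 2 : ℕ) : ℤ)) ((M + 2 : ℕ) : ℤ), Gd D u i := by
      classical
      have e2 : ∑ i ∈ Finset.Icc (-(M : ℤ)) (M : ℤ), Gd D u (i - 2) =
          ∑ j ∈ (Finset.Icc (-(M : ℤ)) (M : ℤ)).image (fun i => i - 2), Gd D u j := by
        rw [Finset.sum_image]
        intro i _ j _ hij
        exact sub_left_injective hij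
      rw [e2]
      apply Finset.sum_le_sum_of_subset_of_nonneg
      · intro j hj
        rw [Finset.mem_image] at hj
        obtain ⟨i, hi, rfl⟩ := hj
        rw [Finset.mem_Icc] at hi ⊢
        push_cast
        omega
      · intro i _ _
        exact (Gd_mem hD1 u i).1
    exact e1.trans (thm_Gd u N (M + 2) D hD1 hS)
  have hf : ∀ c : ℤ, ∑ i ∈ Finset.Icc (-(M : ℤ)) (M : ℤ), f3_t D u (i + c) ≤ SL D u := fun c =>
    d5_shift (f := f3_t D u) (n := N + 1) (fun i hi => f3_t_out hS hi)
      (fun i => f3_t_nonneg hD1 u i) M c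
  have hse : ∀ c : ℤ, ∑ i ∈ Finset.Icc (-(M : ℤ)) (M : ℤ), ind (SE u (i + c)) ≤ Bn u := fun c =>
    d5_shift (f := fun i => ind (SE u i)) (n := N + 1) (fun i hi => SE_out hS hi)
      (fun i => ind_nonneg _) M c
  have hkl : ∀ c : ℤ, ∑ i ∈ Finset.Icc (-(M : ℤ)) (M : ℤ), ind (Kl u (i + c)) ≤ kl u := fun c =>
    d5_shift (f := fun i => ind (Kl u i)) (n := N) (fun i hi => d5_Kl_out hS hi)
      (fun i => ind_nonneg _) M c
  have hsum : ∑ i ∈ Finset.Icc (-(M : ℤ)) (M : ℤ), d5_ch C D u i =
      9 / D * ∑ i ∈ Finset.Icc (-(M : ℤ)) (M : ℤ), Gd D u (i - 2) +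
      6 * (∑ i ∈ Finset.Icc (-(M : ℤ)) (M : ℤ), f3_t D u (i + 0) +
        ∑ i ∈ Finset.Icc (-(M : ℤ)) (M : ℤ), f3_t D u (i + 1)) +
      6 * (∑ i ∈ Finset.Icc (-(M : ℤ)) (M : ℤ), ind (SE u (i + -2)) +
        ∑ i ∈ Finset.Icc (-(M : ℤ)) (M : ℤ), ind (SE u (i + -1)) +
        ∑ i ∈ Finset.Icc (-(M : ℤ)) (M : ℤ), ind (SE u (i + 0)) +
        ∑ i ∈ Finset.Icc (-(M : ℤ)) (M : ℤ), ind (SE u (i + 1))) +
      C * D * (∑ i ∈ Finset.Icc (-(M : ℤ)) (M : ℤ), ind (Kl u (i + -1)) +
        ∑ i ∈ Finset.Icc (-(M : ℤ)) (M : ℤ), ind (Kl u (i + 0)) +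
        ∑ i ∈ Finset.Icc (-(M : ℤ)) (M : ℤ), ind (Kl u (i + 1))) := by
    simp only [← Finset.sum_add_distrib, Finset.mul_sum]
    refine Finset.sum_congr rfl fun i _ => ?_
    unfold d5_ch
    simp only [add_zero, ← sub_eq_add_neg]
  have g1 : 9 / (D : ℝ) * ∑ i ∈ Finset.Icc (-(M : ℤ)) (M : ℤ), Gd D u (i - 2) ≤ 18 * Bn u := by
    have := mul_le_mul_of_nonneg_left hGd (show 0 ≤ 9 / (D : ℝ) by positivity)
    have e : 9 / (D : ℝ) * (2 * D * Bn u) = 18 * Bn u := by field_simp; ring
    linarith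
  have g2 : C * D * (∑ i ∈ Finset.Icc (-(M : ℤ)) (M : ℤ), ind (Kl u (i + -1)) +
        ∑ i ∈ Finset.Icc (-(M : ℤ)) (M : ℤ), ind (Kl u (i + 0)) +
        ∑ i ∈ Finset.Icc (-(M : ℤ)) (M : ℤ), ind (Kl u (i + 1))) ≤ C * D * (3 * kl u) :=
    mul_le_mul_of_nonneg_left (by linarith [hkl (-1), hkl 0, hkl 1]) (by positivity)
  have hB := Bn_nonneg u
  have hk := kl_nonneg u
  have hSL : 0 ≤ SL D u := by
    have h := (hf 0)
    have h' : 0 ≤ ∑ i ∈ Finset.Icc (-(M : ℤ)) (M : ℤ), f3_t D u (i + 0) :=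
      Finset.sum_nonneg fun i _ => f3_t_nonneg hD1 u _
    linarith
  have h2 : -(Lb false (ZL D) u) ≤ 18 * Bn u + 12 * SL D u + 24 * Bn u + C * D * (3 * kl u) := by
    refine h1.trans ?_
    rw [hsum]
    linarith [hf 0, hf 1, hse (-2), hse (-1), hse 0, hse 1]
  have x1 : 0 ≤ (30 + 3 * C) * SL D u := mul_nonneg (by linarith) hSL
  have x2 : 0 ≤ 42 * (D * kl u) := mul_nonneg (by norm_num) (mul_nonneg (by linarith) hk)
  have x3 : 0 ≤ 3 * C * Bn u := mul_nonneg (by linarith) hB
  linarith

end Pool.Agent.T3M
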