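import Mathlib
import Pool.Agent.T3M.AV

/-! Expected numbers of exceptional sites: `St_Beta`, `St_Gamma`, `St_NucT`, `St_BnC`
(helper82). -/

set_option autoImplicit false

namespace Pool.Agent.T3M

open MeasureTheory

/-! ### Sums over windows -/

lemma exc1_sum_le {f : ℤ → ℝ} (n : ℕ) (h : ∀ i : ℤ, (n : ℤ) < |i| → f i = 0) (h0 : ∀ i, 0 ≤ f i)
    (S : Finset ℤ) (l : ℤ) : ∑ i ∈ S, f (i + l) ≤ ∑ᶠ i, f i := by
  classical
  rw [← fs_shift f l]
  have hfin : (Function.support fun i => f (i + l)).Finite := by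
    refine fs_fin (n + l.natAbs) fun i hi => h _ ?_
    push_cast at hi
    rcases abs_cases (i + l) with ⟨h1, _⟩ | ⟨h1, _⟩ <;> rcases abs_cases i with ⟨h2, _⟩ | ⟨h2, _⟩ <;>
      rcases abs_cases l with ⟨h3, _⟩ | ⟨h3, _⟩ <;> omega
  rw [finsum_eq_sum_of_support_subset _ (s := S ∪ hfin.toFinset) (by
    rw [Finset.coe_union, Set.Finite.coe_toFinset]
    exact Set.subset_union_right)]
  exact Finset.sum_le_sum_of_subset_of_nonneg Finset.subset_union_left fun i _ _ => h0 _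

lemma exc1_st {n : ℕ} {u : ℤ → Sy} (h : Sup n u) (S : Finset ℤ) (l : ℤ) :
    ∑ i ∈ S, ind (u (i + l) = .s) ≤ nst u :=
  exc1_sum_le (f := st u) n (fun _ hi => st_out h hi) (fun _ => ind_nonneg _) S l

lemma exc1_SE {n : ℕ} {u : ℤ → Sy} (h : Sup n u) (S : Finset ℤ) (l : ℤ) :
    ∑ i ∈ S, ind (SE u (i + l)) ≤ Bn u :=
  exc1_sum_le (f := fun i => ind (SE u i)) (n + 1) (fun _ hi => SE_out h hi)
    (fun _ => ind_nonneg _) S l

lemma exc1_card (W : ℕ) : ((Finset.Icc (-(W : ℤ)) (W : ℤ)).card : ℝ) = 2 * W + 1 := by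
  rw [Int.card_Icc]
  have h : ((W : ℤ) + 1 - -(W : ℤ)).toNat = 2 * W + 1 := by omega
  rw [h]
  push_cast
  ring

/-- sum over the sites of the probabilities of an independent pair of events, the second of which
is covered by a window of events `G` -/
lemma exc1_prod {J : Finset (ℕ × ℤ)} {e d : ℝ} {p : ℕ × ℤ → ℝ} (he : 0 ≤ e) (hd : 0 ≤ d)
    (hed : e + d ≤ 1) (hp : ∀ c, 0 ≤ p c ∧ p c ≤ 1) (S : Finset ℤ) (W : ℕ) {a : ℝ} (ha : 0 ≤ a)
    (X : ℤ → Set (ℕ × ℤ)) (Y : Set (ℕ × ℤ)) (hXY : ∀ i, Disjoint (X i) Y)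
    (A B G : ℤ → Nz → Prop) (F : Nz → ℝ) (hA : ∀ i, Dep (X i) fun w => ind (A i w))
    (hB : ∀ i, Dep Y fun w => ind (B i w))
    (hAa : ∀ i, Ex J e d p (fun w => ind (A i w)) ≤ a)
    (hBG : ∀ i w, B i w → ∃ l ∈ Finset.Icc (-(W : ℤ)) (W : ℤ), G (i + l) w)
    (hF : ∀ w, SupJ J w → ∀ l : ℤ, ∑ i ∈ S, ind (G (i + l) w) ≤ F w) :
    ∑ i ∈ S, Ex J e d p (fun w => ind (A i w ∧ B i w)) ≤ a * ((2 * W + 1) * Ex J e d p F) := by
  have h1 : ∀ i ∈ S, Ex J e d p (fun w => ind (A i w ∧ B i w)) ≤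
      a * ∑ l ∈ Finset.Icc (-(W : ℤ)) (W : ℤ), Ex J e d p (fun w => ind (G (i + l) w)) := by
    intro i _
    have h2 : Ex J e d p (fun w => ind (A i w ∧ B i w)) =
        Ex J e d p (fun w => ind (A i w)) * Ex J e d p (fun w => ind (B i w)) := by
      rw [← Ex_indep J e d p (hXY i) (hA i) (hB i)]
      exact Ex_congr fun w _ => ind_and _ _
    rw [h2]
    have h3 : Ex J e d p (fun w => ind (B i w)) ≤
        ∑ l ∈ Finset.Icc (-(W : ℤ)) (W : ℤ), Ex J e d p (fun w => ind (G (i + l) w)) :=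
      Ex_union J he hd hed hp _ fun w _ hw => hBG i w hw
    exact mul_le_mul (hAa i) h3 (Ex_nonneg he hd hed hp fun w _ => ind_nonneg _) ha
  refine (Finset.sum_le_sum h1).trans ?_
  rw [← Finset.mul_sum]
  refine mul_le_mul_of_nonneg_left ?_ ha
  rw [Finset.sum_comm]
  calc ∑ l ∈ Finset.Icc (-(W : ℤ)) (W : ℤ), ∑ i ∈ S, Ex J e d p (fun w => ind (G (i + l) w))
      ≤ ∑ l ∈ Finset.Icc (-(W : ℤ)) (W : ℤ), Ex J e d p F := by
        refine Finset.sum_le_sum fun l _ => ?_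
        rw [← Ex_sum]
        exact Ex_mono he hd hed hp fun w hw => hF w hw l
    _ = (2 * W + 1) * Ex J e d p F := by
        rw [Finset.sum_const, nsmul_eq_mul, exc1_card]

/-! ### Marks -/

lemma exc1_mark (J : Finset (ℕ × ℤ)) {e d : ℝ} {p : ℕ × ℤ → ℝ} (he : 0 ≤ e) (hed : e ≤ d)
    (hd : d ≤ 1 / 4) (hp : ∀ c, 0 ≤ p c ∧ p c ≤ 1) (B : Finset (ℕ × ℤ)) {A : Nz → Prop}
    (h : ∀ w, A w → ∃ c ∈ B, w c.1 c.2 ≠ none) :
    Ex J e d p (fun w => ind (A w)) ≤ B.card * (2 * d) := by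
  refine (Ex_union J he (he.trans hed) (by linarith) hp B fun w _ hw => h w hw).trans ?_
  refine (Finset.sum_le_sum fun c _ => Ex_mark_le J p c he hed (hp c)).trans ?_
  rw [Finset.sum_const, nsmul_eq_mul]

lemma exc1_dep_mark (c : ℕ × ℤ) : Dep {c} fun w => ind (w c.1 c.2 ≠ none) :=
  Dep_ind fun w w' h => by rw [h c rfl]

lemma exc1_two (J : Finset (ℕ × ℤ)) {e d : ℝ} {p : ℕ × ℤ → ℝ} (he : 0 ≤ e) (hed : e ≤ d)
    (hd : d ≤ 1 / 4) (hp : ∀ c, 0 ≤ p c ∧ p c ≤ 1) (B : Finset (ℕ × ℤ)) {A : Nz → Prop}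
    (h : ∀ w, A w → ∃ c ∈ B, ∃ c' ∈ B, c ≠ c' ∧ w c.1 c.2 ≠ none ∧ w c'.1 c'.2 ≠ none) :
    Ex J e d p (fun w => ind (A w)) ≤ (B.card : ℝ) ^ 2 * (2 * d) ^ 2 := by
  classical
  have hd0 : 0 ≤ d := he.trans hed
  refine (Ex_union J he hd0 (by linarith) hp B.offDiag
    (B := fun q w => w q.1.1 q.1.2 ≠ none ∧ w q.2.1 q.2.2 ≠ none) fun w _ hw => ?_).trans ?_
  · obtain ⟨c, hc, c', hc', hne, h1, h2⟩ := h w hw
    exact ⟨(c, c'), Finset.mem_offDiag.2 ⟨hc, hc', hne⟩, h1, h2⟩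
  · have h1 : ∀ q ∈ B.offDiag, Ex J e d p
        (fun w => ind (w q.1.1 q.1.2 ≠ none ∧ w q.2.1 q.2.2 ≠ none)) ≤ (2 * d) ^ 2 := by
      rintro ⟨c, c'⟩ hq
      have hne : c ≠ c' := (Finset.mem_offDiag.1 hq).2.2
      have h2 : Ex J e d p (fun w => ind (w c.1 c.2 ≠ none ∧ w c'.1 c'.2 ≠ none)) =
          Ex J e d p (fun w => ind (w c.1 c.2 ≠ none)) *
            Ex J e d p (fun w => ind (w c'.1 c'.2 ≠ none)) := by
        rw [← Ex_indep J e d p (X := {c}) (Y := {c'}) (Set.disjoint_singleton.2 hne)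
          (exc1_dep_mark c) (exc1_dep_mark c')]
        exact Ex_congr fun w _ => ind_and _ _
      show Ex J e d p (fun w => ind (w c.1 c.2 ≠ none ∧ w c'.1 c'.2 ≠ none)) ≤ _
      rw [h2, pow_two]
      exact mul_le_mul (Ex_mark_le J p c he hed (hp c)) (Ex_mark_le J p c' he hed (hp c'))
        (Ex_nonneg he hd0 (by linarith) hp fun w _ => ind_nonneg _) (by linarith)
    refine (Finset.sum_le_sum h1).trans ?_
    rw [Finset.sum_const, nsmul_eq_mul]
    refine mul_le_mul_of_nonneg_right ?_ (sq_nonneg _)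
    have h3 : B.offDiag.card ≤ B.card ^ 2 := by
      rw [Finset.offDiag_card, pow_two]
      exact Nat.sub_le _ _
    exact_mod_cast h3

/-- a box of places -/
noncomputable def exc1_box (t : ℕ) (i : ℤ) (H R : ℕ) : Finset (ℕ × ℤ) :=
  Finset.Icc (t - H) t ×ˢ Finset.Icc (i - R) (i + R)

lemma exc1_box_card {t H : ℕ} (h : H ≤ t) (i : ℤ) (R : ℕ) :
    ((exc1_box t i H R).card : ℝ) = (H + 1) * (2 * R + 1) := by
  unfold exc1_box
  rw [Finset.card_product, Nat.card_Icc, Int.card_Icc]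
  have h1 : t + 1 - (t - H) = H + 1 := by omega
  have h2 : (i + (R : ℤ) + 1 - (i - R)).toNat = 2 * R + 1 := by omega
  rw [h1, h2]
  push_cast
  ring

lemma exc1_mem_box {t s H R : ℕ} {i j : ℤ} (h1 : t ≤ s + H) (h2 : s ≤ t) (h3 : |j - i| ≤ (R : ℤ)) :
    (s, j) ∈ exc1_box t i H R := by
  unfold exc1_box
  rw [Finset.mem_product, Finset.mem_Icc, Finset.mem_Icc]
  rw [abs_le] at h3
  constructor <;> constructor <;> simp only <;> omega

/-- functions of the configuration at the time `s` -/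
lemma exc1_dep_cf (L s : ℕ) {A : (ℤ → Sy) → Prop} :
    Dep {c : ℕ × ℤ | c.1 < s} fun w => ind (A (cf L w s)) :=
  Dep_ind fun w w' h => by rw [cf_dep fun a j ha => h (a, j) ha]

lemma exc1_dep_cf' (L s : ℕ) (F : (ℤ → Sy) → ℝ) :
    Dep {c : ℕ × ℤ | c.1 < s} fun w => F (cf L w s) := by
  intro w w' h
  show F (cf L w s) = F (cf L w' s)
  rw [cf_dep fun a j ha => h (a, j) ha]

lemma exc1_hyb (P : Par) {t s : ℕ} (hs : s ≤ t) (r : ℝ) (F : (ℤ → Sy) → ℝ) :
    Ex (JJ P.T P.A) P.e P.d (hyb t r) (fun w => F (cf P.L w s)) =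
      Ex (JJ P.T P.A) P.e P.d pone (fun w => F (cf P.L w s)) :=
  (Ex_hyb_r P ((exc1_dep_cf' P.L s F).mono fun _ hc => lt_of_lt_of_le hc hs) r).symm

lemma exc1_LA (P : Par) : P.L ≤ P.A := by have := P.hA; omega

/-! ### Beta -/

theorem thm_Beta (m : ℕ) : St_Beta m := by
  set K : ℕ := KK m with hK
  refine ⟨((K : ℝ) + 1) * (2 * (3 * K : ℕ) + 1) * 2 * (2 * (8 * K : ℕ) + 1), by positivity,
    fun P t r hr0 hr1 ht _ => ?_⟩
  have ht' : K ≤ t := by omega
  refine (exc1_prod P.he' P.hd' P.hsum (hyb_mem t hr0 hr1) _ (8 * K)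
    (a := ((K : ℝ) + 1) * (2 * (3 * K : ℕ) + 1) * (2 * P.d))
    (by have := P.hd'; positivity)
    (fun i => {c | t ≤ c.1 + K ∧ c.1 ≤ t ∧ |c.2 - i| ≤ 3 * (K : ℤ)}) {c | c.1 < t - K} ?_
    (fun i w => Dty m t i w) (fun i w => SEn P.L m t i w) (fun i w => SE (cf P.L w (t - K)) i)
    (fun w => Bn (cf P.L w (t - K))) ?_ ?_ ?_ ?_ ?_).trans (le_of_eq ?_)
  · intro i
    rw [Set.disjoint_left]
    rintro c ⟨h1, h2, -⟩ h3
    have h4 : c.1 < t - K := h3
    omega
  · intro i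
    refine Dep_ind fun w w' h => ?_
    unfold Dty
    constructor
    · rintro ⟨s, j, h1, h2, h3, h4⟩
      exact ⟨s, j, h1, h2, h3, by rw [← h (s, j) ⟨h1, h2, h3⟩]; exact h4⟩
    · rintro ⟨s, j, h1, h2, h3, h4⟩
      exact ⟨s, j, h1, h2, h3, by rw [h (s, j) ⟨h1, h2, h3⟩]; exact h4⟩
  · intro i
    exact exc1_dep_cf P.L (t - K) (A := fun u => ∃ k : ℤ, |k - i| ≤ 8 * (K : ℤ) ∧ SE u k)
  · intro i
    refine (exc1_mark _ P.he' P.hed P.hd (hyb_mem t hr0 hr1) (exc1_box t i K (3 * K)) ?_).trans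
      (le_of_eq ?_)
    · rintro w ⟨s, j, h1, h2, h3, h4⟩
      exact ⟨(s, j), exc1_mem_box h1 h2 (by push_cast; exact h3), h4⟩
    · rw [exc1_box_card ht']
  · rintro i w ⟨k, hk, hSE⟩
    refine ⟨k - i, ?_, ?_⟩
    · rw [mem_Icc_abs]
      push_cast
      exact hk
    · show SE (cf P.L w (t - K)) (i + (k - i))
      rw [add_sub_cancel]
      exact hSE
  · intro w hw l
    exact exc1_SE (cf_sup (exc1_LA P) hw _) _ l
  · rw [exc1_hyb P (Nat.sub_le t K) r Bn]
    unfold Par.bc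
    ring

/-! ### Gamma -/

theorem thm_Gamma (m : ℕ) : St_Gamma m := by
  set K : ℕ := KK m with hK
  refine ⟨(((2 * K : ℕ) + 1 : ℝ) * (2 * (12 * K : ℕ) + 1)) ^ 2 * 4 * (2 * (12 * K : ℕ) + 1),
    by positivity, fun P t r hr0 hr1 ht _ => ?_⟩
  refine (exc1_prod P.he' P.hd' P.hsum (hyb_mem t hr0 hr1) _ (12 * K)
    (a := (((2 * K : ℕ) + 1 : ℝ) * (2 * (12 * K : ℕ) + 1)) ^ 2 * (2 * P.d) ^ 2)
    (by have := P.hd'; positivity)
    (fun i => {c | t ≤ c.1 + 2 * K ∧ c.1 ≤ t ∧ |c.2 - i| ≤ 12 * (K : ℤ)}) {c | c.1 < t - 2 * K} ?_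
    (fun i w => Two m t i w) (fun i w => Stn P.L m t i w)
    (fun i w => cf P.L w (t - 2 * K) i = .s)
    (fun w => nst (cf P.L w (t - 2 * K))) ?_ ?_ ?_ ?_ ?_).trans (le_of_eq ?_)
  · intro i
    rw [Set.disjoint_left]
    rintro c ⟨h1, h2, -⟩ h3
    have h4 : c.1 < t - 2 * K := h3
    omega
  · intro i
    refine Dep_ind fun w w' h => ?_
    unfold Two
    constructor
    · rintro ⟨s, s', j, j', hne, h1, h2, h3, h1', h2', h3', h4, h4'⟩
      exact ⟨s, s', j, j', hne, h1, h2, h3, h1', h2', h3',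
        by rw [← h (s, j) ⟨h1, h2, h3⟩]; exact h4, by rw [← h (s', j') ⟨h1', h2', h3'⟩]; exact h4'⟩
    · rintro ⟨s, s', j, j', hne, h1, h2, h3, h1', h2', h3', h4, h4'⟩
      exact ⟨s, s', j, j', hne, h1, h2, h3, h1', h2', h3',
        by rw [h (s, j) ⟨h1, h2, h3⟩]; exact h4, by rw [h (s', j') ⟨h1', h2', h3'⟩]; exact h4'⟩
  · intro i
    exact exc1_dep_cf P.L (t - 2 * K) (A := fun u => ∃ k : ℤ, |k - i| ≤ 12 * (K : ℤ) ∧ u k = .s)
  · intro i
    refine (exc1_two _ P.he' P.hed P.hd (hyb_mem t hr0 hr1) (exc1_box t i (2 * K) (12 * K))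
      ?_).trans (le_of_eq ?_)
    · rintro w ⟨s, s', j, j', hne, h1, h2, h3, h1', h2', h3', h4, h4'⟩
      exact ⟨(s, j), exc1_mem_box h1 h2 (by push_cast; exact h3), (s', j'),
        exc1_mem_box h1' h2' (by push_cast; exact h3'), hne, h4, h4'⟩
    · rw [exc1_box_card ht]
  · rintro i w ⟨k, hk, hs⟩
    refine ⟨k - i, ?_, ?_⟩
    · rw [mem_Icc_abs]
      push_cast
      exact hk
    · show cf P.L w (t - 2 * K) (i + (k - i)) = .s
      rw [add_sub_cancel]
      exact hs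
  · intro w hw l
    exact exc1_st (cf_sup (exc1_LA P) hw _) _ l
  · rw [exc1_hyb P (Nat.sub_le t (2 * K)) r nst]
    unfold Par.Q
    ring

/-! ### NucT -/

theorem thm_NucT (m : ℕ) : St_NucT m := by
  set K : ℕ := KK m with hK
  refine ⟨8 * (2 * (12 * K : ℕ) + 1), by positivity, fun P x t hx ht _ => ?_⟩
  have hd0 := P.hd'
  have he0 := P.he'
  have hQ := Q_nonneg P (t - 2 * K)
  -- one family of nucleations
  have key : ∀ r : ℝ, 0 ≤ r → r ≤ 1 → ∀ (y : ℤ → ℤ) (b : Bool),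
      ∑ i ∈ Finset.Icc (-(P.A : ℤ)) (P.A : ℤ), Ex (JJ P.T P.A) P.e P.d (hyb t r)
        (fun w => ind (NU P.L m t i (y i) b w) * x) ≤
      2 * P.d * ((2 * (12 * K : ℕ) + 1) * P.Q (t - 2 * K)) * x := by
    intro r hr0 hr1 y b
    have h1 : ∀ i ∈ Finset.Icc (-(P.A : ℤ)) (P.A : ℤ), Ex (JJ P.T P.A) P.e P.d (hyb t r)
        (fun w => ind (NU P.L m t i (y i) b w) * x) ≤
        Ex (JJ P.T P.A) P.e P.d (hyb t r)
          (fun w => ind (w t (y i) ≠ none ∧ Stn P.L m t i w)) * x := by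
      intro i _
      have h2 : Ex (JJ P.T P.A) P.e P.d (hyb t r)
          (fun w => ind (NU P.L m t i (y i) b w) * x) =
          x * Ex (JJ P.T P.A) P.e P.d (hyb t r) (fun w => ind (NU P.L m t i (y i) b w)) := by
        rw [← Ex_smul]
        exact Ex_congr fun w _ => mul_comm _ _
      rw [h2, mul_comm]
      refine mul_le_mul_of_nonneg_right ?_ hx
      refine Ex_mono P.he' P.hd' P.hsum (hyb_mem t hr0 hr1) fun w _ => ind_mono ?_
      rintro ⟨h3, -, h4⟩
      refine ⟨by rw [h3]; simp, ?_⟩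
      have h5 := h4 i (by rw [sub_self, abs_zero]; positivity)
      obtain ⟨j, hj, hj2⟩ := star_cf (s := t - 2 * K) (t := t - K) (by omega) h5
      refine ⟨j, hj.trans ?_, hj2⟩
      rw [← hK]
      have h6 : ((t - K : ℕ) : ℤ) = t - K := by omega
      have h7 : ((t - 2 * K : ℕ) : ℤ) = t - 2 * K := by omega
      rw [h6, h7]
      omega
    refine (Finset.sum_le_sum h1).trans ?_
    rw [← Finset.sum_mul]
    refine mul_le_mul_of_nonneg_right ?_ hx
    refine (exc1_prod P.he' P.hd' P.hsum (hyb_mem t hr0 hr1) _ (12 * K) (a := 2 * P.d)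
      (by positivity) (fun i => {(t, y i)}) {c | c.1 < t - 2 * K} ?_
      (fun i w => w t (y i) ≠ none) (fun i w => Stn P.L m t i w)
      (fun i w => cf P.L w (t - 2 * K) i = .s)
      (fun w => nst (cf P.L w (t - 2 * K))) ?_ ?_ ?_ ?_ ?_).trans (le_of_eq ?_)
    · intro i
      rw [Set.disjoint_left]
      rintro c hc h3
      have h4 : c.1 < t - 2 * K := h3
      have h5 : c = (t, y i) := hc
      rw [h5] at h4
      simp only at h4
      omega
    · intro i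
      exact exc1_dep_mark (t, y i)
    · intro i
      exact exc1_dep_cf P.L (t - 2 * K) (A := fun u => ∃ k : ℤ, |k - i| ≤ 12 * (K : ℤ) ∧ u k = .s)
    · intro i
      exact Ex_mark_le _ _ (t, y i) P.he' P.hed (hyb_mem t hr0 hr1 _)
    · rintro i w ⟨k, hk, hs⟩
      refine ⟨k - i, ?_, ?_⟩
      · rw [mem_Icc_abs]
        push_cast
        exact hk
      · show cf P.L w (t - 2 * K) (i + (k - i)) = .s
        rw [add_sub_cancel]
        exact hs
    · intro w hw l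
      exact exc1_st (cf_sup (exc1_LA P) hw _) _ l
    · rw [exc1_hyb P (Nat.sub_le t (2 * K)) r nst]
      rfl
  unfold Par.NUC
  have hcont : Continuous fun r : ℝ => ∑ i ∈ Finset.Icc (-(P.A : ℤ)) (P.A : ℤ),
    (P.e * (Ex (JJ P.T P.A) P.e P.d (hyb t r) (fun w => ind (NU P.L m t i (i - 1) false w) *
        x) + Ex (JJ P.T P.A) P.e P.d (hyb t r) (fun w =>
          ind (NU P.L m t i (i + 1) false w) * x)) +
      P.d * (Ex (JJ P.T P.A) P.e P.d (hyb t r) (fun w => ind (NU P.L m t i (i - 1) true w) *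
        x) + Ex (JJ P.T P.A) P.e P.d (hyb t r) (fun w =>
          ind (NU P.L m t i (i + 1) true w) * x))) :=
    continuous_finsetSum _ fun i _ =>
      (continuous_const.mul ((Ex_cont _ _ _ _ _).add (Ex_cont _ _ _ _ _))).add
        (continuous_const.mul ((Ex_cont _ _ _ _ _).add (Ex_cont _ _ _ _ _)))
  have hint := intervalIntegral.integral_mono_on (μ := volume) zero_le_one
    (hcont.intervalIntegrable 0 1)
    (g := fun _ => P.d * (4 * (2 * P.d * ((2 * (12 * K : ℕ) + 1) * P.Q (t - 2 * K)) * x)))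
    intervalIntegrable_const ?_
  · refine hint.trans (le_of_eq ?_)
    rw [intervalIntegral.integral_const]
    simp only [sub_zero, one_smul]
    ring
  · rintro r ⟨hr0, hr1⟩
    have k1 := key r hr0 hr1 (fun i => i - 1) false
    have k2 := key r hr0 hr1 (fun i => i + 1) false
    have k3 := key r hr0 hr1 (fun i => i - 1) true
    have k4 := key r hr0 hr1 (fun i => i + 1) true
    rw [Finset.sum_add_distrib, ← Finset.mul_sum, ← Finset.mul_sum, Finset.sum_add_distrib,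
      Finset.sum_add_distrib]
    set q := 2 * P.d * ((2 * (12 * K : ℕ) + 1) * P.Q (t - 2 * K)) * x with hq
    have hq0 : 0 ≤ q := by positivity
    calc _ ≤ P.e * (q + q) + P.d * (q + q) :=
          add_le_add (mul_le_mul_of_nonneg_left (add_le_add k1 k2) he0)
            (mul_le_mul_of_nonneg_left (add_le_add k3 k4) hd0)
      _ ≤ P.d * (q + q) + P.d * (q + q) :=
          add_le_add (mul_le_mul_of_nonneg_right P.hed (by positivity)) le_rfl
      _ = P.d * (4 * q) := by ring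

/-! ### BnC -/

lemma exc1_pair {x : ℤ → Bool} {i : ℤ} (h : x i = x (i + 1)) (n : ℕ) :
    Mb^[n] x i = x i ∧ Mb^[n] x (i + 1) = x i := by
  induction n with
  | zero => exact ⟨rfl, h.symm⟩
  | succ n ih =>
    rw [Function.iterate_succ_apply']
    unfold Mb at ih ⊢
    rw [ih.1, ih.2, add_sub_cancel_right, ih.1]
    constructor <;> generalize x i = a <;> unfold maj3 <;> cases a <;> simp

lemma exc1_fb {x v : ℤ → Bool} (hv : Rtb v) {k : ℤ} (h : ∀ j : ℤ, |j - k| ≤ 1 → x j = v j)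
    (n : ℕ) : Mb^[n] x k = x k := by
  have e0 := h k (by simp)
  have e1 := h (k - 1) (by rw [show k - 1 - k = -1 by ring]; norm_num)
  have e2 := h (k + 1) (by rw [show k + 1 - k = 1 by ring]; norm_num)
  rcases hv.nb k with h1 | h1
  · have h2 : x (k - 1) = x (k - 1 + 1) := by rw [sub_add_cancel, e0, e1, h1]
    have h3 := (exc1_pair h2 n).2
    rw [sub_add_cancel] at h3
    rw [h3, e1, e0, h1]
  · have h2 : x k = x (k + 1) := by rw [e0, e2, h1]
    exact (exc1_pair h2 n).1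

/-- a site is frozen if the configuration agrees with a root on the site and its neighbours -/
lemma exc1_frozen {u v : ℤ → Sy} (hv : Rt v) {k : ℤ} (h : ∀ j : ℤ, |j - k| ≤ 1 → u j = v j)
    (n : ℕ) : rel n u k = u k := by
  have a1 : ∀ n : ℕ, x1 (rel n u) = Mb^[n] (x1 u) := by
    intro n
    induction n with
    | zero => rfl
    | succ n ih => rw [rel_succ_out, x1_M, ih, Function.iterate_succ_apply']
  have a0 : ∀ n : ℕ, x0 (rel n u) = Mb^[n] (x0 u) := by
    intro n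
    induction n with
    | zero => rfl
    | succ n ih => rw [rel_succ_out, x0_M, ih, Function.iterate_succ_apply']
  apply sy_ext
  · have h1 := exc1_fb (x := x0 u) hv.zero (k := k)
      (fun j hj => by unfold x0; rw [h j hj]) n
    rw [← a0] at h1
    exact h1
  · have h1 := exc1_fb (x := x1 u) hv.one (k := k)
      (fun j hj => by unfold x1; rw [h j hj]) n
    rw [← a1] at h1
    exact h1

lemma exc1_none {L : ℕ} {w : Nz} {s : ℕ} (h : ∀ (a : ℕ) (j : ℤ), s ≤ a → w a j = none) (n : ℕ) :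
    cf L w (s + n) = rel n (cf L w s) := by
  induction n with
  | zero => rfl
  | succ n ih =>
    funext i
    rw [← add_assoc, cf_succ, h _ _ (by omega)]
    show M (cf L w (s + n)) i = _
    rw [ih, rel_succ_out]

/-- without marks near `k` in the last `K` slices the configuration agrees near `k` with the
relaxation of the configuration at the time `t - K` -/
lemma exc1_agree {L : ℕ} {w : Nz} {t K : ℕ} (hK : K ≤ t) {k : ℤ} {R : ℕ} (hR : R + K ≤ 3 * K + 1)
    (h : ∀ (s : ℕ) (j : ℤ), t ≤ s + K → s ≤ t → |j - k| ≤ 3 * (K : ℤ) → w s j = none) (j : ℤ)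
    (hj : |j - k| ≤ (R : ℤ)) : cf L w t j = rel K (cf L w (t - K)) j := by
  let w' : Nz := fun a j => if a < t - K then w a j else none
  have h1 : cf L w' (t - K) = cf L w (t - K) := cf_dep fun a j ha => if_pos ha
  have h2 : cf L w' t = rel K (cf L w (t - K)) := by
    rw [← h1, ← exc1_none (fun a j ha => if_neg (not_lt.2 ha)) K, Nat.sub_add_cancel hK]
  rw [← h2]
  apply cf_congr (Nat.sub_le t K)
  · intro j' _
    rw [h1]
  · intro a j' ha hat hj'
    show w a j' = if a < t - K then w a j' else none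
    rw [if_neg (not_lt.2 ha)]
    apply h a j' (by omega) (by omega)
    rcases abs_cases (j - k) with ⟨h3, _⟩ | ⟨h3, _⟩ <;>
      rcases abs_cases (j' - j) with ⟨h4, _⟩ | ⟨h4, _⟩ <;>
      rcases abs_cases (j' - k) with ⟨h5, _⟩ | ⟨h5, _⟩ <;> omega

theorem thm_BnC (m : ℕ) (hm : 1 ≤ m) (h0 : St_Root) (h1 : St_L1) (h2 : St_PG m) : St_BnC m := by
  obtain ⟨C2, hC2, h2'⟩ := h2
  set K : ℕ := KK m with hK
  have hK2 : K = 2 * m + 2 := rfl
  refine ⟨((K : ℝ) + 1) * (2 * (3 * K : ℕ) + 1) * 2 * (2 * (K + 1 : ℕ) + 1) + 5 * C2,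
    by positivity, fun P t ht _ => ?_⟩
  have hd0 := P.hd'
  set S := Finset.Icc (-((P.A + 1 : ℕ) : ℤ)) ((P.A + 1 : ℕ) : ℤ) with hS
  -- star edges which are not star edges of the relaxed configuration
  have hkey : ∀ w, Good m w → ∀ k : ℤ, SE (cf P.L w t) k → ¬ SE (P.W w t) k →
      Dty m t k w ∧ ∃ j : ℤ, |j - k| ≤ (K : ℤ) + 1 ∧ cf P.L w (t - K) j = .s := by
    intro w hg k hse hnse
    constructor
    · by_contra hcon
      apply hnse
      have hno : ∀ (s : ℕ) (j : ℤ), t ≤ s + K → s ≤ t → |j - k| ≤ 3 * (K : ℤ) → w s j = none := by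
        intro s j h3 h4 h5
        by_contra h6
        exact hcon ⟨s, j, h3, h4, h5, h6⟩
      have hroot : Rt (rel K (cf P.L w (t - K))) := by
        have h3 := h1 m (WW (m + 1)) (HH (m + 1)) P.L w hm
          (by
            unfold HH
            exact Nat.mul_le_mul (Nat.le_succ m) (by omega))
          (by
            unfold WW
            omega) hg (t - K)
        have h4 : K = 2 + 2 * m := by omega
        generalize cf P.L w (t - K) = c0 at h3
        rw [h4, rel_add, rel_root h3]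
        exact h3
      have hag := exc1_agree (L := P.L) ht (R := 2) (by omega) hno
      have e1 : P.W w t k = cf P.L w t k := by
        unfold Par.W
        exact exc1_frozen hroot (fun j hj => hag j (by push_cast; omega)) _
      have e2 : P.W w t (k + 1) = cf P.L w t (k + 1) := by
        unfold Par.W
        refine exc1_frozen hroot (fun j hj => hag j ?_) _
        push_cast
        rcases abs_cases (j - k) with ⟨h3, _⟩ | ⟨h3, _⟩ <;>
          rcases abs_cases (j - (k + 1)) with ⟨h4, _⟩ | ⟨h4, _⟩ <;> omega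
      unfold SE at hse ⊢
      rw [e1, e2]
      exact hse
    · have h3 : cf P.L w t k = .s ∨ cf P.L w t (k + 1) = .s := by
        unfold SE at hse
        by_contra hcon
        rw [not_or] at hcon
        exact hse ⟨fun h => absurd h hcon.1, fun h => absurd h hcon.2⟩
      have h6 : ((t - K : ℕ) : ℤ) = t - K := by omega
      rcases h3 with h3 | h3
      · obtain ⟨j, hj, hj2⟩ := star_cf (s := t - K) (Nat.sub_le t K) h3
        refine ⟨j, ?_, hj2⟩
        rw [h6] at hj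
        omega
      · obtain ⟨j, hj, hj2⟩ := star_cf (s := t - K) (Nat.sub_le t K) h3
        refine ⟨j, ?_, hj2⟩
        rw [h6] at hj
        rcases abs_cases (j - k) with ⟨h3, _⟩ | ⟨h3, _⟩ <;>
          rcases abs_cases (j - (k + 1)) with ⟨h4, _⟩ | ⟨h4, _⟩ <;> omega
  have hpt : ∀ w, SupJ (JJ P.T P.A) w → Bn (cf P.L w t) ≤ Bn (P.W w t) +
      ∑ k ∈ S, ind (Dty m t k w ∧ ∃ j : ℤ, |j - k| ≤ (K : ℤ) + 1 ∧ cf P.L w (t - K) j = .s) +
      (2 * (P.A : ℝ) + 3) * ind (¬ Good m w) := by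
    intro w hw
    have hs1 := cf_sup (exc1_LA P) hw t
    have hs2 := (P.W_root h0 hw t).2
    rw [Bn_eq hs1, Bn_eq hs2, ← hS]
    by_cases hg : Good m w
    · rw [ind_false (not_not.2 hg), mul_zero, add_zero, ← Finset.sum_add_distrib]
      refine Finset.sum_le_sum fun k _ => ?_
      by_cases h3 : SE (cf P.L w t) k
      · by_cases h4 : SE (P.W w t) k
        · rw [ind_true h3, ind_true h4]
          have := ind_nonneg (Dty m t k w ∧
            ∃ j : ℤ, |j - k| ≤ (K : ℤ) + 1 ∧ cf P.L w (t - K) j = .s)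
          linarith
        · rw [ind_true h3, ind_false h4, ind_true (hkey w hg k h3 h4)]
          norm_num
      · rw [ind_false h3]
        exact add_nonneg (ind_nonneg _) (ind_nonneg _)
    · rw [ind_true hg, mul_one]
      have h3 : ∑ k ∈ S, ind (SE (cf P.L w t) k) ≤ ∑ k ∈ S, (1 : ℝ) :=
        Finset.sum_le_sum fun k _ => ind_le_one _
      have h4 : ∑ k ∈ S, (1 : ℝ) = 2 * (P.A : ℝ) + 3 := by
        rw [Finset.sum_const, nsmul_eq_mul, mul_one, hS, exc1_card]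
        push_cast
        ring
      have h5 : 0 ≤ ∑ k ∈ S, ind (SE (P.W w t) k) := Finset.sum_nonneg fun _ _ => ind_nonneg _
      have h6 : 0 ≤ ∑ k ∈ S, ind (Dty m t k w ∧
          ∃ j : ℤ, |j - k| ≤ (K : ℤ) + 1 ∧ cf P.L w (t - K) j = .s) :=
        Finset.sum_nonneg fun _ _ => ind_nonneg _
      linarith
  have hex := Ex_mono P.he' P.hd' P.hsum pone_mem hpt
  rw [Ex_add, Ex_add, Ex_sum, Ex_smul] at hex
  have hprod : ∑ k ∈ S, Ex (JJ P.T P.A) P.e P.d pone (fun w => ind (Dty m t k w ∧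
      ∃ j : ℤ, |j - k| ≤ (K : ℤ) + 1 ∧ cf P.L w (t - K) j = .s)) ≤
      ((K : ℝ) + 1) * (2 * (3 * K : ℕ) + 1) * (2 * P.d) *
        ((2 * (K + 1 : ℕ) + 1) * P.Q (t - K)) := by
    refine exc1_prod P.he' P.hd' P.hsum pone_mem _ (K + 1)
      (by positivity)
      (fun i => {c | t ≤ c.1 + K ∧ c.1 ≤ t ∧ |c.2 - i| ≤ 3 * (K : ℤ)}) {c | c.1 < t - K} ?_
      (fun i w => Dty m t i w)
      (fun i w => ∃ j : ℤ, |j - i| ≤ (K : ℤ) + 1 ∧ cf P.L w (t - K) j = .s)
      (fun i w => cf P.L w (t - K) i = .s)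
      (fun w => nst (cf P.L w (t - K))) ?_ ?_ ?_ ?_ ?_
    · intro i
      rw [Set.disjoint_left]
      rintro c ⟨h3, h4, -⟩ h5
      have h6 : c.1 < t - K := h5
      omega
    · intro i
      refine Dep_ind fun w w' h => ?_
      unfold Dty
      constructor
      · rintro ⟨s, j, h3, h4, h5, h6⟩
        exact ⟨s, j, h3, h4, h5, by rw [← h (s, j) ⟨h3, h4, h5⟩]; exact h6⟩
      · rintro ⟨s, j, h3, h4, h5, h6⟩
        exact ⟨s, j, h3, h4, h5, by rw [h (s, j) ⟨h3, h4, h5⟩]; exact h6⟩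
    · intro i
      exact exc1_dep_cf P.L (t - K) (A := fun u => ∃ j : ℤ, |j - i| ≤ (K : ℤ) + 1 ∧ u j = .s)
    · intro i
      refine (exc1_mark _ P.he' P.hed P.hd pone_mem (exc1_box t i K (3 * K)) ?_).trans
        (le_of_eq ?_)
      · rintro w ⟨s, j, h3, h4, h5, h6⟩
        exact ⟨(s, j), exc1_mem_box h3 h4 (by push_cast; exact h5), h6⟩
      · rw [exc1_box_card ht]
    · rintro i w ⟨k, hk, hs⟩
      refine ⟨k - i, ?_, ?_⟩
      · rw [mem_Icc_abs]
        push_cast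
        exact hk
      · show cf P.L w (t - K) (i + (k - i)) = .s
        rw [add_sub_cancel]
        exact hs
    · intro w hw l
      exact exc1_st (cf_sup (exc1_LA P) hw _) _ l
  have hA1 : 1 ≤ P.A := by have := P.hA; omega
  have hbadP := h2' P.T P.A P.e P.d pone P.he' P.hed P.hd P.hT hA1 pone_mem
  have hbad : (2 * (P.A : ℝ) + 3) * Ex (JJ P.T P.A) P.e P.d pone (fun w => ind (¬ Good m w)) ≤
      5 * C2 * P.bad m := by
    have hAr : (1 : ℝ) ≤ P.A := by exact_mod_cast hA1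
    have h3 : (2 * (P.A : ℝ) + 3) * P.A ≤ 5 * (P.A : ℝ) ^ 7 := by
      have h4 : (P.A : ℝ) ^ 2 ≤ (P.A : ℝ) ^ 7 := pow_le_pow_right₀ hAr (by norm_num)
      nlinarith
    calc (2 * (P.A : ℝ) + 3) * Ex (JJ P.T P.A) P.e P.d pone (fun w => ind (¬ Good m w))
        ≤ (2 * (P.A : ℝ) + 3) * (C2 * P.T * P.A * (2 * P.d) ^ m) :=
          mul_le_mul_of_nonneg_left hbadP (by positivity)
      _ = ((2 * (P.A : ℝ) + 3) * P.A) * (C2 * P.T * (2 * P.d) ^ m) := by ring
      _ ≤ (5 * (P.A : ℝ) ^ 7) * (C2 * P.T * (2 * P.d) ^ m) :=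
          mul_le_mul_of_nonneg_right h3 (by positivity)
      _ = 5 * C2 * P.bad m := by unfold Par.bad; ring
  have hQ := Q_nonneg P (t - K)
  have hb0 : 0 ≤ P.bad m := by unfold Par.bad; positivity
  have hfin : ((K : ℝ) + 1) * (2 * (3 * K : ℕ) + 1) * (2 * P.d) *
        ((2 * (K + 1 : ℕ) + 1) * P.Q (t - K)) + 5 * C2 * P.bad m ≤
      (((K : ℝ) + 1) * (2 * (3 * K : ℕ) + 1) * 2 * (2 * (K + 1 : ℕ) + 1) + 5 * C2) *
        (P.d * P.Q (t - K) + P.bad m) := by
    have h3 : 0 ≤ ((K : ℝ) + 1) * (2 * (3 * K : ℕ) + 1) * 2 * (2 * (K + 1 : ℕ) + 1) * P.bad m := by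
      positivity
    have h4 : 0 ≤ 5 * C2 * (P.d * P.Q (t - K)) := by positivity
    nlinarith
  show Ex (JJ P.T P.A) P.e P.d pone (fun w => Bn (cf P.L w t)) ≤
    Ex (JJ P.T P.A) P.e P.d pone (fun w => Bn (P.W w t)) + _
  linarith

end Pool.Agent.T3M
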