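import Mathlib
import Pool.Agent.T3M.MExc1

/-! Expected numbers of exceptional sites: `St_Alpha`, `St_NucZs` (helper82). -/

set_option autoImplicit false

namespace Pool.Agent.T3M

open MeasureTheory

/-! ### Good noise -/

/-- removing marks preserves good noise -/
lemma exc2_good {m : ℕ} {w w' : Nz} (h : Good m w) (hw : ∀ s j, w' s j ≠ none → w s j ≠ none) :
    Good m w' :=
  fun t i S hS => h t i S fun c hc => ⟨(hS c hc).1, hw _ _ (hS c hc).2⟩

/-- on good noise the relaxation is complete after `K` steps -/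
lemma exc2_rel (h1 : St_L1) {m : ℕ} (hm : 1 ≤ m) {w : Nz} (hg : Good m w) (L t n : ℕ)
    (hn : KK m ≤ n) : rel n (cf L w t) = rel (KK m) (cf L w t) ∧ Rt (rel n (cf L w t)) := by
  have h3 : Rt (rel (2 * m) (cf L w t)) := h1 m (WW (m + 1)) (HH (m + 1)) L w hm
    (by
      unfold HH
      exact Nat.mul_le_mul (Nat.le_succ m) (by omega))
    (by
      unfold WW
      omega) hg t
  have e : ∀ n, KK m ≤ n → rel n (cf L w t) = rel (2 * m) (cf L w t) := by
    intro n hn
    unfold KK at hn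
    obtain ⟨a, rfl⟩ : ∃ a, n = a + 2 * m := ⟨n - 2 * m, by omega⟩
    rw [rel_add, rel_root h3]
  refine ⟨by rw [e n hn, e _ le_rfl], ?_⟩
  rw [e n hn]
  exact h3

lemma exc2_Kn (P : Par) {m t : ℕ} (ht : 2 * KK m ≤ t) (htT : t < P.T) : KK m ≤ P.n := by
  have h1 := P.hA
  have h2 := P.hn
  omega

/-- the probability that a finite set of places has no mark -/
lemma exc2_none (J : Finset (ℕ × ℤ)) {e d : ℝ} {p : ℕ × ℤ → ℝ} (he : 0 ≤ e) (hed : e ≤ d)
    (hd : d ≤ 1 / 4) (hp : ∀ c, 0 ≤ p c ∧ p c ≤ 1) (B : Finset (ℕ × ℤ)) :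
    (1 / 2 : ℝ) ^ B.card ≤ Ex J e d p (fun w => ind (∀ c ∈ B, w c.1 c.2 = none)) := by
  classical
  have hd0 : 0 ≤ d := he.trans hed
  induction B using Finset.induction_on with
  | empty =>
    rw [Ex_congr (g := fun _ => (1 : ℝ)) fun w _ => ind_true (by simp), Ex_const]
    simp
  | insert c B hc ih =>
    have h1 : Ex J e d p (fun w => ind (∀ c' ∈ insert c B, w c'.1 c'.2 = none)) =
        Ex J e d p (fun w => ind (w c.1 c.2 = none)) *
          Ex J e d p (fun w => ind (∀ c' ∈ B, w c'.1 c'.2 = none)) := by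
      rw [← Ex_indep J e d p (X := {c}) (Y := (B : Set (ℕ × ℤ)))
        (Set.disjoint_singleton_left.2 hc)
        (Dep_ind fun w w' h => by rw [h c rfl])
        (Dep_ind fun w w' h => by
          constructor
          · intro h2 c' hc'
            rw [← h c' hc']
            exact h2 c' hc'
          · intro h2 c' hc'
            rw [h c' hc']
            exact h2 c' hc')]
      refine Ex_congr fun w _ => ?_
      rw [← ind_and]
      refine ind_congr ?_
      rw [Finset.forall_mem_insert]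
    have h2 : (1 / 2 : ℝ) ≤ Ex J e d p (fun w => ind (w c.1 c.2 = none)) := by
      have h3 := Ex_mark_le J p c he hed (hp c)
      have h4 : Ex J e d p (fun w => ind (w c.1 c.2 ≠ none)) =
          1 - Ex J e d p (fun w => ind (w c.1 c.2 = none)) := by
        rw [← Ex_const J e d p 1, ← Ex_sub]
        exact Ex_congr fun w _ => ind_not _
      linarith
    rw [h1, Finset.card_insert_of_notMem hc, pow_succ, mul_comm]
    exact mul_le_mul h2 ih (by positivity) (by linarith)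

lemma exc2_pg {C2 : ℝ} (hC2 : 0 < C2) (P : Par) (m : ℕ) :
    (2 * (P.A : ℝ) + 1) * (C2 * P.T * P.A * (2 * P.d) ^ m) ≤ 3 * C2 * P.bad m := by
  have hA1 : 1 ≤ P.A := by have := P.hA; omega
  have hd0 := P.hd'
  have hAr : (1 : ℝ) ≤ P.A := by exact_mod_cast hA1
  have h3 : (2 * (P.A : ℝ) + 1) * P.A ≤ 3 * (P.A : ℝ) ^ 7 := by
    have h4 : (P.A : ℝ) ^ 2 ≤ (P.A : ℝ) ^ 7 := pow_le_pow_right₀ hAr (by norm_num)
    nlinarith
  calc (2 * (P.A : ℝ) + 1) * (C2 * P.T * P.A * (2 * P.d) ^ m)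
      = ((2 * (P.A : ℝ) + 1) * P.A) * (C2 * P.T * (2 * P.d) ^ m) := by ring
    _ ≤ (3 * (P.A : ℝ) ^ 7) * (C2 * P.T * (2 * P.d) ^ m) :=
        mul_le_mul_of_nonneg_right h3 (by positivity)
    _ = 3 * C2 * P.bad m := by unfold Par.bad; ring

/-! ### Alpha -/

/-- remove the marks near `(t, i)` -/
def exc2_clr (K t : ℕ) (i : ℤ) (w : Nz) : Nz := fun s j =>
  if t ≤ s + K ∧ s ≤ t ∧ |j - i| ≤ 3 * (K : ℤ) then none else w s j

lemma exc2_th {D : ℕ} (hD : 1 ≤ D) : 0 ≤ th D ∧ th D ≤ 1 := by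
  have h1 : (1 : ℝ) ≤ D := by exact_mod_cast hD
  have h2 : 1 / (2 * (D : ℝ)) ≤ 1 := by
    rw [div_le_one (by positivity)]
    linarith
  have h3 : 0 ≤ 1 / (2 * (D : ℝ)) := by positivity
  unfold th
  constructor <;> linarith

lemma exc2_Gd_nonneg {D : ℕ} (hD : 1 ≤ D) (u : ℤ → Sy) (i : ℤ) : 0 ≤ Gd D u i :=
  mul_nonneg (ind_nonneg _) (pow_nonneg (exc2_th hD).1 _)

lemma exc2_Gd_le {D : ℕ} (hD : 1 ≤ D) (u : ℤ → Sy) (i : ℤ) : Gd D u i ≤ 1 := by
  unfold Gd
  exact mul_le_one₀ (ind_le_one _) (pow_nonneg (exc2_th hD).1 _)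
    (pow_le_one₀ (exc2_th hD).1 (exc2_th hD).2)

/-- `Gd` depends on the stars only -/
lemma exc2_Gd_congr {u u' : ℤ → Sy} (h : ∀ k, u k = .s ↔ u' k = .s) (D : ℕ) (i : ℤ) :
    Gd D u i = Gd D u' i := by
  have h1 : dl u i = dl u' i := by
    unfold dl
    congr 1
    ext j
    exact h _
  unfold Gd
  rw [h1]

/-- without stars near `i` at time `t - K` there are no stars near `i` afterwards -/
lemma exc2_nostar (P : Par) (h1 : St_L1) {m : ℕ} (hm : 1 ≤ m) {w : Nz} (hg : Good m w) {t : ℕ}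
    {i : ℤ} (ht : 2 * KK m ≤ t) (htT : t < P.T) (hns : NoS P.L m t i w) {k : ℤ}
    (hk : |k - i| < 6 * (KK m : ℤ)) : P.W w (t + 1) k ≠ .s := by
  intro h
  unfold Par.W at h
  rw [(exc2_rel h1 hm hg P.L (t + 1) P.n (exc2_Kn P ht htT)).1] at h
  obtain ⟨j, hj, h2⟩ := star_rel _ h
  obtain ⟨l, hl, h3⟩ := star_cf (s := t - KK m) (t := t + 1) (by omega) h2
  refine hns l ?_ h3
  have h6 : ((t - KK m : ℕ) : ℤ) = t - (KK m : ℕ) := by omega
  rw [h6] at hl
  push_cast at hl
  rcases abs_cases (l - j) with ⟨h3, _⟩ | ⟨h3, _⟩ <;>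
    rcases abs_cases (j - k) with ⟨h4, _⟩ | ⟨h4, _⟩ <;>
    rcases abs_cases (k - i) with ⟨h5, _⟩ | ⟨h5, _⟩ <;>
    rcases abs_cases (l - i) with ⟨h6, _⟩ | ⟨h6, _⟩ <;> omega

lemma exc2_clr_cf (L K t : ℕ) (i : ℤ) (w : Nz) :
    cf L (exc2_clr K t i w) (t - K) = cf L w (t - K) := by
  refine cf_dep fun a j ha => ?_
  unfold exc2_clr
  rw [if_neg (by omega)]

lemma exc2_alpha1 (P : Par) (h1 : St_L1) {m : ℕ} (hm : 1 ≤ m) {w : Nz} (hg : Good m w) {t : ℕ}
    {i : ℤ} (ht : 2 * KK m ≤ t) (htT : t < P.T) (hns : NoS P.L m t i w) (D : ℕ) :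
    Gd D (P.W w (t + 1)) i = Gd D (P.W (exc2_clr (KK m) t i w) (t + 1)) i := by
  have hg' : Good m (exc2_clr (KK m) t i w) := by
    refine exc2_good hg fun s j h => ?_
    unfold exc2_clr at h
    split_ifs at h with h2
    · exact absurd rfl h
    · exact h
  have hns' : NoS P.L m t i (exc2_clr (KK m) t i w) := by
    unfold NoS
    rw [exc2_clr_cf]
    exact hns
  have hK : 2 ≤ KK m := by unfold KK; omega
  refine exc2_Gd_congr (fun k => ?_) D i
  rcases lt_or_ge (|k - i|) (6 * (KK m : ℤ)) with h2 | h2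
  · exact iff_of_false (exc2_nostar P h1 hm hg ht htT hns h2)
      (exc2_nostar P h1 hm hg' ht htT hns' h2)
  · have h3 : P.W w (t + 1) k = P.W (exc2_clr (KK m) t i w) (t + 1) k := by
      unfold Par.W
      rw [(exc2_rel h1 hm hg P.L (t + 1) P.n (exc2_Kn P ht htT)).1,
        (exc2_rel h1 hm hg' P.L (t + 1) P.n (exc2_Kn P ht htT)).1]
      refine rel_congr _ fun j hj => ?_
      refine cf_congr (s := t - KK m) (by omega) (fun j' _ => by rw [exc2_clr_cf]) ?_
      intro a j' ha hat hj'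
      have h4 : ¬ |j' - i| ≤ 3 * (KK m : ℤ) := by
        push_cast at hj'
        rcases abs_cases (j' - j) with ⟨h3, _⟩ | ⟨h3, _⟩ <;>
          rcases abs_cases (j - k) with ⟨h4, _⟩ | ⟨h4, _⟩ <;>
          rcases abs_cases (k - i) with ⟨h5, _⟩ | ⟨h5, _⟩ <;>
          rcases abs_cases (j' - i) with ⟨h6, _⟩ | ⟨h6, _⟩ <;> omega
      unfold exc2_clr
      rw [if_neg fun h5 => h4 h5.2.2]
    rw [h3]

theorem thm_Alpha (m : ℕ) (hm : 1 ≤ m) (_h0 : St_Root) (h1 : St_L1) (h2 : St_PG m) :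
    St_Alpha m := by
  obtain ⟨C2, hC2, h2'⟩ := h2
  set K : ℕ := KK m with hK
  set N : ℕ := (K + 1) * (2 * (3 * K) + 1) with hN
  refine ⟨(N : ℝ) * 2 * 2 ^ N + 3 * C2, by positivity, fun P D t r hr0 hr1 hD ht htT => ?_⟩
  have hd0 := P.hd'
  have ht' : K ≤ t := by omega
  have hA1 : 1 ≤ P.A := by have := P.hA; omega
  have hPG := h2' P.T P.A P.e P.d (hyb t r) P.he' P.hed P.hd P.hT hA1 (hyb_mem t hr0 hr1)
  have key : ∀ i ∈ Finset.Icc (-(P.A : ℤ)) (P.A : ℤ), Ex (JJ P.T P.A) P.e P.d (hyb t r)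
      (fun w => ind (Dty m t i w ∧ NoS P.L m t i w) * Gd D (P.W w (t + 1)) i) ≤
      N * (2 * P.d) * 2 ^ N * Ex (JJ P.T P.A) P.e P.d (hyb t r)
        (fun w => Gd D (P.W w (t + 1)) i) + C2 * P.T * P.A * (2 * P.d) ^ m := by
    intro i _
    set B := exc1_box t i K (3 * K) with hB
    have hcard : B.card = N := by
      have h3 := exc1_box_card ht' i (3 * K)
      rw [← hB] at h3
      have h4 : ((B.card : ℕ) : ℝ) = ((N : ℕ) : ℝ) := by
        rw [h3, hN]
        push_cast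
        ring
      exact_mod_cast h4
    have hclr : ∀ w : Nz, (∀ c ∈ B, w c.1 c.2 = none) → exc2_clr K t i w = w := by
      intro w h
      funext s j
      unfold exc2_clr
      split_ifs with h3
      · exact (h (s, j) (exc1_mem_box h3.1 h3.2.1 (by push_cast; exact h3.2.2))).symm
      · rfl
    set g : Nz → ℝ := fun w =>
      ind (NoS P.L m t i w) * Gd D (P.W (exc2_clr K t i w) (t + 1)) i with hg
    have hg0 : ∀ w, 0 ≤ g w := fun w => mul_nonneg (ind_nonneg _) (exc2_Gd_nonneg hD _ _)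
    have hX1 : Dep {c : ℕ × ℤ | t ≤ c.1 + K ∧ c.1 ≤ t ∧ |c.2 - i| ≤ 3 * (K : ℤ)}
        (fun w => ind (Dty m t i w)) := by
      refine Dep_ind fun w w' h => ?_
      unfold Dty
      constructor
      · rintro ⟨s, j, h3, h4, h5, h6⟩
        exact ⟨s, j, h3, h4, h5, by rw [← h (s, j) ⟨h3, h4, h5⟩]; exact h6⟩
      · rintro ⟨s, j, h3, h4, h5, h6⟩
        exact ⟨s, j, h3, h4, h5, by rw [h (s, j) ⟨h3, h4, h5⟩]; exact h6⟩
    have hY : Dep {c : ℕ × ℤ | t ≤ c.1 + K ∧ c.1 ≤ t ∧ |c.2 - i| ≤ 3 * (K : ℤ)}ᶜ g := by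
      refine Dep.mul ?_ ?_
      · refine (exc1_dep_cf P.L (t - K)
          (A := fun u => ∀ k : ℤ, |k - i| ≤ 8 * (K : ℤ) → u k ≠ .s)).mono ?_
        rintro c hc ⟨h3, -, -⟩
        have h4 : c.1 < t - K := hc
        omega
      · intro w w' h
        have h3 : exc2_clr K t i w = exc2_clr K t i w' := by
          funext s j
          unfold exc2_clr
          split_ifs with h4
          · rfl
          · exact h (s, j) h4
        show Gd D (P.W (exc2_clr K t i w) (t + 1)) i = Gd D (P.W (exc2_clr K t i w') (t + 1)) i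
        rw [h3]
    have hX2 : Dep {c : ℕ × ℤ | t ≤ c.1 + K ∧ c.1 ≤ t ∧ |c.2 - i| ≤ 3 * (K : ℤ)}
        (fun w => ind (∀ c ∈ B, w c.1 c.2 = none)) := by
      refine Dep_ind fun w w' h => ?_
      have hB2 : ∀ c ∈ B, t ≤ c.1 + K ∧ c.1 ≤ t ∧ |c.2 - i| ≤ 3 * (K : ℤ) := by
        intro c hc
        rw [hB] at hc
        unfold exc1_box at hc
        rw [Finset.mem_product, Finset.mem_Icc, Finset.mem_Icc] at hc
        obtain ⟨⟨h3, h4⟩, h5, h6⟩ := hc
        push_cast at h5 h6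
        refine ⟨by omega, h4, ?_⟩
        rw [abs_le]
        constructor <;> omega
      constructor
      · intro h3 c hc
        rw [← h c (hB2 c hc)]
        exact h3 c hc
      · intro h3 c hc
        rw [h c (hB2 c hc)]
        exact h3 c hc
    -- (a)
    have ha : Ex (JJ P.T P.A) P.e P.d (hyb t r)
        (fun w => ind (Dty m t i w ∧ NoS P.L m t i w) * Gd D (P.W w (t + 1)) i) ≤
        Ex (JJ P.T P.A) P.e P.d (hyb t r) (fun w => ind (Dty m t i w)) *
          Ex (JJ P.T P.A) P.e P.d (hyb t r) g +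
        Ex (JJ P.T P.A) P.e P.d (hyb t r) (fun w => ind (¬ Good m w)) := by
      rw [← Ex_indep _ _ _ _ disjoint_compl_right hX1 hY, ← Ex_add]
      refine Ex_mono P.he' P.hd' P.hsum (hyb_mem t hr0 hr1) fun w _ => ?_
      by_cases hgd : Good m w
      · rw [ind_false (not_not.2 hgd), add_zero, ind_and, mul_assoc]
        refine mul_le_mul_of_nonneg_left ?_ (ind_nonneg _)
        by_cases h3 : NoS P.L m t i w
        · rw [exc2_alpha1 P h1 hm hgd ht htT h3 D]
        · rw [ind_false h3, zero_mul]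
          exact hg0 w
      · rw [ind_true hgd]
        have h3 : ind (Dty m t i w ∧ NoS P.L m t i w) * Gd D (P.W w (t + 1)) i ≤ 1 :=
          mul_le_one₀ (ind_le_one _) (exc2_Gd_nonneg hD _ _) (exc2_Gd_le hD _ _)
        have h4 : 0 ≤ ind (Dty m t i w) * g w := mul_nonneg (ind_nonneg _) (hg0 w)
        linarith
    -- (b)
    have hb : Ex (JJ P.T P.A) P.e P.d (hyb t r) (fun w => ind (∀ c ∈ B, w c.1 c.2 = none)) *
        Ex (JJ P.T P.A) P.e P.d (hyb t r) g ≤
        Ex (JJ P.T P.A) P.e P.d (hyb t r) (fun w => Gd D (P.W w (t + 1)) i) := by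
      rw [← Ex_indep _ _ _ _ disjoint_compl_right hX2 hY]
      refine Ex_mono P.he' P.hd' P.hsum (hyb_mem t hr0 hr1) fun w _ => ?_
      by_cases h3 : ∀ c ∈ B, w c.1 c.2 = none
      · rw [ind_true h3, one_mul, hg]
        simp only
        rw [hclr w h3]
        exact mul_le_of_le_one_left (exc2_Gd_nonneg hD _ _) (ind_le_one _)
      · rw [ind_false h3, zero_mul]
        exact exc2_Gd_nonneg hD _ _
    -- (c)
    have hc : Ex (JJ P.T P.A) P.e P.d (hyb t r) (fun w => ind (Dty m t i w)) ≤ N * (2 * P.d) := by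
      refine (exc1_mark _ P.he' P.hed P.hd (hyb_mem t hr0 hr1) B ?_).trans (le_of_eq ?_)
      · rintro w ⟨s, j, h3, h4, h5, h6⟩
        exact ⟨(s, j), exc1_mem_box h3 h4 (by push_cast; exact h5), h6⟩
      · rw [hcard]
    have hn := exc2_none (JJ P.T P.A) P.he' P.hed P.hd (hyb_mem t hr0 hr1) B
    rw [hcard] at hn
    have hg1 : 0 ≤ Ex (JJ P.T P.A) P.e P.d (hyb t r) g :=
      Ex_nonneg P.he' P.hd' P.hsum (hyb_mem t hr0 hr1) fun w _ => hg0 w
    have hgb : Ex (JJ P.T P.A) P.e P.d (hyb t r) g ≤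
        2 ^ N * Ex (JJ P.T P.A) P.e P.d (hyb t r) (fun w => Gd D (P.W w (t + 1)) i) := by
      have h3 : (1 / 2 : ℝ) ^ N * Ex (JJ P.T P.A) P.e P.d (hyb t r) g ≤
          Ex (JJ P.T P.A) P.e P.d (hyb t r) (fun w => Gd D (P.W w (t + 1)) i) :=
        (mul_le_mul_of_nonneg_right hn hg1).trans hb
      have h4 : (2 : ℝ) ^ N * (1 / 2 : ℝ) ^ N = 1 := by
        rw [← mul_pow]
        norm_num
      calc Ex (JJ P.T P.A) P.e P.d (hyb t r) g
          = 2 ^ N * ((1 / 2 : ℝ) ^ N * Ex (JJ P.T P.A) P.e P.d (hyb t r) g) := by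
            rw [← mul_assoc, h4, one_mul]
        _ ≤ _ := mul_le_mul_of_nonneg_left h3 (by positivity)
    calc Ex (JJ P.T P.A) P.e P.d (hyb t r)
          (fun w => ind (Dty m t i w ∧ NoS P.L m t i w) * Gd D (P.W w (t + 1)) i)
        ≤ Ex (JJ P.T P.A) P.e P.d (hyb t r) (fun w => ind (Dty m t i w)) *
          Ex (JJ P.T P.A) P.e P.d (hyb t r) g +
          Ex (JJ P.T P.A) P.e P.d (hyb t r) (fun w => ind (¬ Good m w)) := ha
      _ ≤ (N * (2 * P.d)) * (2 ^ N * Ex (JJ P.T P.A) P.e P.d (hyb t r)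
          (fun w => Gd D (P.W w (t + 1)) i)) + C2 * P.T * P.A * (2 * P.d) ^ m :=
          add_le_add (mul_le_mul hc hgb hg1 (by positivity)) hPG
      _ = _ := by ring
  refine (Finset.sum_le_sum key).trans ?_
  rw [Finset.sum_add_distrib, ← Finset.mul_sum, Finset.sum_const, nsmul_eq_mul, exc1_card]
  have h3 := exc2_pg hC2 P m
  have h4 : 0 ≤ ∑ i ∈ Finset.Icc (-(P.A : ℤ)) (P.A : ℤ), Ex (JJ P.T P.A) P.e P.d (hyb t r)
      (fun w => Gd D (P.W w (t + 1)) i) :=
    Finset.sum_nonneg fun i _ => Ex_nonneg P.he' P.hd' P.hsum (hyb_mem t hr0 hr1)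
      fun w _ => exc2_Gd_nonneg hD _ _
  have hb0 : 0 ≤ P.bad m := by unfold Par.bad; positivity
  set Sg := ∑ i ∈ Finset.Icc (-(P.A : ℤ)) (P.A : ℤ), Ex (JJ P.T P.A) P.e P.d (hyb t r)
      (fun w => Gd D (P.W w (t + 1)) i) with hSg
  have h5 : 0 ≤ (N : ℝ) * 2 * 2 ^ N * P.bad m := by positivity
  have h6 : 0 ≤ 3 * C2 * (P.d * Sg) := by positivity
  nlinarith

/-! ### NucZs -/

/-- stars in the bulk persist without marks -/
lemma exc2_bulk {L : ℕ} {w : Nz} {s t : ℕ} (hst : s ≤ t) {i : ℤ}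
    (h0 : ∀ j : ℤ, |j - i| ≤ (t : ℤ) - s → cf L w s j = .s)
    (h : ∀ (a : ℕ) (j : ℤ), s ≤ a → a < t → |j - i| ≤ (t : ℤ) - 1 - a → w a j = none) :
    cf L w t i = .s := by
  induction t generalizing i with
  | zero =>
    have : s = 0 := by omega
    subst this
    exact h0 i (by simp)
  | succ t ih =>
    rcases Nat.lt_or_ge t s with h1 | h1
    · have : s = t + 1 := by omega
      subst this
      exact h0 i (by simp)
    · have key : ∀ k : ℤ, |k - i| ≤ 1 → cf L w t k = .s := by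
        intro k hk
        apply ih h1
        · intro j hj
          apply h0
          push_cast
          rcases abs_cases (j - k) with ⟨h3, _⟩ | ⟨h3, _⟩ <;>
            rcases abs_cases (k - i) with ⟨h4, _⟩ | ⟨h4, _⟩ <;>
            rcases abs_cases (j - i) with ⟨h5, _⟩ | ⟨h5, _⟩ <;> omega
        · intro a j ha hat hj
          apply h a j ha (by omega)
          push_cast
          rcases abs_cases (j - k) with ⟨h3, _⟩ | ⟨h3, _⟩ <;>
            rcases abs_cases (k - i) with ⟨h4, _⟩ | ⟨h4, _⟩ <;>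
            rcases abs_cases (j - i) with ⟨h5, _⟩ | ⟨h5, _⟩ <;> omega
      rw [cf_succ, h t i h1 (by omega) (by simp)]
      simp only
      rw [key (i - 1) (by rw [show i - 1 - i = -1 by ring]; norm_num), key i (by simp),
        key (i + 1) (by rw [show i + 1 - i = 1 by ring]; norm_num)]
      rfl

lemma exc2_bulk_rel {u : ℤ → Sy} (n : ℕ) {i : ℤ} (h : ∀ j : ℤ, |j - i| ≤ (n : ℤ) → u j = .s) :
    rel n u i = .s := by
  have h1 : Rt (fun _ : ℤ => Sy.s) := fun i => rfl
  rw [rel_congr n (u' := fun _ => .s) h, rel_root h1]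

/-- a single mark in a star run has no effect -/
lemma exc2_Rf {u : ℤ → Sy} (hu : Rt u) {y : ℤ} (b : Bool) (h : ∀ k : ℤ, |k - y| ≤ 2 → u k = .s) :
    Rf y b u = u := by
  have e0 := h y (by simp)
  have e1 := h (y - 1) (by rw [show y - 1 - y = -1 by ring]; norm_num)
  have e2 := h (y + 1) (by rw [show y + 1 - y = 1 by ring]; norm_num)
  have e3 := h (y - 2) (by rw [show y - 2 - y = -2 by ring]; norm_num)
  have e4 := h (y + 2) (by rw [show y + 2 - y = 2 by ring]; norm_num)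
  have h1 : M (Function.update u y (bs b)) = u := by
    funext k
    by_cases k0 : k = y
    · subst k0
      show med (Function.update u k (bs b) (k - 1)) (Function.update u k (bs b) k)
        (Function.update u k (bs b) (k + 1)) = u k
      rw [Function.update_self, Function.update_of_ne (by omega), Function.update_of_ne (by omega),
        e0, e1, e2]
      cases b <;> rfl
    by_cases k1 : k = y - 1
    · subst k1
      show med (Function.update u y (bs b) (y - 1 - 1)) (Function.update u y (bs b) (y - 1))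
        (Function.update u y (bs b) (y - 1 + 1)) = u (y - 1)
      rw [sub_add_cancel, Function.update_self, Function.update_of_ne (by omega),
        Function.update_of_ne (by omega), show y - 1 - 1 = y - 2 by ring, e1, e3]
      cases b <;> rfl
    by_cases k2 : k = y + 1
    · subst k2
      show med (Function.update u y (bs b) (y + 1 - 1)) (Function.update u y (bs b) (y + 1))
        (Function.update u y (bs b) (y + 1 + 1)) = u (y + 1)
      rw [add_sub_cancel_right, Function.update_self, Function.update_of_ne (by omega),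
        Function.update_of_ne (by omega), show y + 1 + 1 = y + 2 by ring, e2, e4]
      cases b <;> rfl
    · show med (Function.update u y (bs b) (k - 1)) (Function.update u y (bs b) k)
        (Function.update u y (bs b) (k + 1)) = u k
      rw [Function.update_of_ne (by omega), Function.update_of_ne (by omega),
        Function.update_of_ne (by omega)]
      exact hu k
  unfold Rf
  rw [h1, hu.M_eq]

lemma exc2_nuc1 (P : Par) (h1 : St_L1) (h2 : St_L2) {m : ℕ} (hm : 1 ≤ m) {w : Nz}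
    (hg : Good m w) {t : ℕ} {i y : ℤ} {b : Bool} (hy : |y - i| = 1) (ht : 2 * KK m ≤ t)
    (htT : t < P.T) (hnu : NU P.L m t i y b w) : P.W w (t + 1) = P.W (sw w t y none) (t + 1) := by
  obtain ⟨hw, hno, hst⟩ := hnu
  have hKn := exc2_Kn P ht htT
  have hK : 4 ≤ KK m := by unfold KK; omega
  set w' : Nz := sw w t y none with hw'
  have hmarks : ∀ (s : ℕ) (j : ℤ), w' s j ≠ none → w s j ≠ none := by
    intro s j h
    rw [hw'] at h
    by_cases h3 : (s, j) = (t, y)
    · rw [Prod.mk.injEq] at h3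
      rw [h3.1, h3.2, sw_self] at h
      exact absurd rfl h
    · rw [sw_of_ne _ _ h3] at h
      exact h
  have hg' : Good m w' := exc2_good hg hmarks
  have hnone : ∀ (s : ℕ) (j : ℤ), t ≤ s + 2 * KK m → s ≤ t → |j - i| ≤ 12 * (KK m : ℤ) →
      w' s j = none := by
    intro s j h3 h4 h5
    by_cases h6 : (s, j) = (t, y)
    · rw [Prod.mk.injEq] at h6
      rw [h6.1, h6.2, hw', sw_self]
    · rw [hw', sw_of_ne _ _ h6]
      exact hno s j h3 h4 h5 h6
  have hcf0 : cf P.L w' (t - KK m) = cf P.L w (t - KK m) := by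
    refine cf_dep fun a j ha => ?_
    rw [hw', sw_of_ne]
    intro h3
    rw [Prod.mk.injEq] at h3
    omega
  have h6 : ((t - KK m : ℕ) : ℤ) = t - (KK m : ℕ) := by omega
  have hcf1 : ∀ k : ℤ, |k - i| ≤ 2 * (KK m : ℤ) → cf P.L w' (t + 1) k = .s := by
    intro k hk
    refine exc2_bulk (s := t - KK m) (by omega) ?_ ?_
    · intro j hj
      rw [hcf0]
      refine hst j ?_
      rw [h6] at hj
      push_cast at hj
      rcases abs_cases (j - k) with ⟨h3, _⟩ | ⟨h3, _⟩ <;>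
        rcases abs_cases (k - i) with ⟨h4, _⟩ | ⟨h4, _⟩ <;>
        rcases abs_cases (j - i) with ⟨h5, _⟩ | ⟨h5, _⟩ <;> omega
    · intro a j ha hat hj
      refine hnone a j (by omega) (by omega) ?_
      push_cast at hj
      rcases abs_cases (j - k) with ⟨h3, _⟩ | ⟨h3, _⟩ <;>
        rcases abs_cases (k - i) with ⟨h4, _⟩ | ⟨h4, _⟩ <;>
        rcases abs_cases (j - i) with ⟨h5, _⟩ | ⟨h5, _⟩ <;> omega
  obtain ⟨hr1, hr2⟩ := exc2_rel h1 hm hg' P.L (t + 1) P.n hKn
  have hbulk : ∀ k : ℤ, |k - y| ≤ 2 → P.W w' (t + 1) k = .s := by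
    intro k hk
    unfold Par.W
    rw [hr1]
    refine exc2_bulk_rel _ fun j hj => hcf1 j ?_
    rcases abs_cases (j - k) with ⟨h3, _⟩ | ⟨h3, _⟩ <;>
      rcases abs_cases (k - y) with ⟨h4, _⟩ | ⟨h4, _⟩ <;>
      rcases abs_cases (y - i) with ⟨h7, _⟩ | ⟨h7, _⟩ <;>
      rcases abs_cases (j - i) with ⟨h5, _⟩ | ⟨h5, _⟩ <;> omega
  have h3 := h2 m P.L P.n t w y b hm hg (by omega) hKn (by
    intro t' i' h3 h4 h5 h6
    refine hno t' i' (by omega) h4 ?_ h6
    rcases abs_cases (i' - y) with ⟨h3, _⟩ | ⟨h3, _⟩ <;>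
      rcases abs_cases (y - i) with ⟨h7, _⟩ | ⟨h7, _⟩ <;>
      rcases abs_cases (i' - i) with ⟨h5, _⟩ | ⟨h5, _⟩ <;> omega)
  have h4 : sw w t y (some b) = w := by rw [← hw, sw_eq_self]
  rw [h4, ← hw'] at h3
  show rel P.n (cf P.L w (t + 1)) = P.W w' (t + 1)
  rw [h3]
  exact exc2_Rf hr2 b hbulk

/-- the number of sites near a star edge -/
lemma exc2_edges {n : ℕ} {u : ℤ → Sy} (h : Sup n u) (D : ℕ) (S : Finset ℤ) :
    ∑ i ∈ S, ind (∃ k : ℤ, |k - i| ≤ 2 * D + 1 ∧ SE u k) ≤ (4 * D + 3) * Bn u := by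
  have h1 : ∀ i ∈ S, ind (∃ k : ℤ, |k - i| ≤ 2 * D + 1 ∧ SE u k) ≤
      ∑ l ∈ Finset.Icc (-((2 * D + 1 : ℕ) : ℤ)) ((2 * D + 1 : ℕ) : ℤ), ind (SE u (i + l)) := by
    intro i _
    by_cases h2 : ∃ k : ℤ, |k - i| ≤ 2 * D + 1 ∧ SE u k
    · rw [ind_true h2]
      obtain ⟨k, hk, hse⟩ := h2
      have h3 : ind (SE u (i + (k - i))) = 1 := ind_true (by rw [add_sub_cancel]; exact hse)
      rw [← h3]
      exact Finset.single_le_sum (f := fun l => ind (SE u (i + l))) (fun l _ => ind_nonneg _)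
        (mem_Icc_abs.2 (by push_cast; exact hk))
    · rw [ind_false h2]
      exact Finset.sum_nonneg fun l _ => ind_nonneg _
  refine (Finset.sum_le_sum h1).trans ?_
  rw [Finset.sum_comm]
  refine (Finset.sum_le_sum fun l _ => exc1_SE h S l).trans (le_of_eq ?_)
  rw [Finset.sum_const, nsmul_eq_mul, exc1_card]
  push_cast
  ring

/-- bound of the nucleation term from a bound of the four sums -/
lemma exc2_NUC (P : Par) (m t : ℕ) (ν : (ℤ → Sy) → ℤ → ℝ) (F : (ℤ → Sy) → ℝ) {a c : ℝ}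
    (h : ∀ r : ℝ, 0 ≤ r → r ≤ 1 → ∀ (y : ℤ → ℤ) (b : Bool), (∀ i, |y i - i| = 1) →
      ∑ i ∈ Finset.Icc (-(P.A : ℤ)) (P.A : ℤ), Ex (JJ P.T P.A) P.e P.d (hyb t r)
        (fun w => ind (NU P.L m t i (y i) b w) * ν (P.W w (t + 1)) i) ≤
      a * Ex (JJ P.T P.A) P.e P.d (hyb t r) (fun w => F (P.W w (t + 1))) + c)
    (h0 : ∀ r : ℝ, 0 ≤ r → r ≤ 1 →
      0 ≤ a * Ex (JJ P.T P.A) P.e P.d (hyb t r) (fun w => F (P.W w (t + 1))) + c) :
    P.NUC m ν t ≤ 4 * P.d * (a * P.AV F t + c) := by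
  have hd0 := P.hd'
  have he0 := P.he'
  have hcont : Continuous fun r : ℝ => ∑ i ∈ Finset.Icc (-(P.A : ℤ)) (P.A : ℤ),
    (P.e * (Ex (JJ P.T P.A) P.e P.d (hyb t r) (fun w => ind (NU P.L m t i (i - 1) false w) *
        ν (P.W w (t + 1)) i) + Ex (JJ P.T P.A) P.e P.d (hyb t r) (fun w =>
          ind (NU P.L m t i (i + 1) false w) * ν (P.W w (t + 1)) i)) +
      P.d * (Ex (JJ P.T P.A) P.e P.d (hyb t r) (fun w => ind (NU P.L m t i (i - 1) true w) *
        ν (P.W w (t + 1)) i) + Ex (JJ P.T P.A) P.e P.d (hyb t r) (fun w =>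
          ind (NU P.L m t i (i + 1) true w) * ν (P.W w (t + 1)) i))) :=
    continuous_finsetSum _ fun i _ =>
      (continuous_const.mul ((Ex_cont _ _ _ _ _).add (Ex_cont _ _ _ _ _))).add
        (continuous_const.mul ((Ex_cont _ _ _ _ _).add (Ex_cont _ _ _ _ _)))
  have hcont2 : Continuous fun r : ℝ =>
      a * Ex (JJ P.T P.A) P.e P.d (hyb t r) (fun w => F (P.W w (t + 1))) :=
    continuous_const.mul (Ex_cont _ _ _ _ _)
  have hcont3 : Continuous fun r : ℝ => 4 * P.d * (a * Ex (JJ P.T P.A) P.e P.d (hyb t r)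
      (fun w => F (P.W w (t + 1))) + c) :=
    continuous_const.mul (hcont2.add continuous_const)
  have hval : ∫ r in (0 : ℝ)..1, 4 * P.d * (a * Ex (JJ P.T P.A) P.e P.d (hyb t r)
      (fun w => F (P.W w (t + 1))) + c) = 4 * P.d * (a * P.AV F t + c) := by
    rw [intervalIntegral.integral_const_mul]
    congr 1
    rw [intervalIntegral.integral_add (hcont2.intervalIntegrable 0 1) intervalIntegrable_const,
      intervalIntegral.integral_const_mul, intervalIntegral.integral_const]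
    simp only [sub_zero, one_smul]
    rfl
  rw [← hval]
  unfold Par.NUC
  refine intervalIntegral.integral_mono_on (μ := volume) zero_le_one
    (hcont.intervalIntegrable 0 1) (hcont3.intervalIntegrable 0 1) ?_
  rintro r ⟨hr0, hr1⟩
  have k1 := h r hr0 hr1 (fun i => i - 1) false
    (fun i => by rw [show i - 1 - i = -1 by ring]; norm_num)
  have k2 := h r hr0 hr1 (fun i => i + 1) false
    (fun i => by rw [show i + 1 - i = 1 by ring]; norm_num)
  have k3 := h r hr0 hr1 (fun i => i - 1) true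
    (fun i => by rw [show i - 1 - i = -1 by ring]; norm_num)
  have k4 := h r hr0 hr1 (fun i => i + 1) true
    (fun i => by rw [show i + 1 - i = 1 by ring]; norm_num)
  have hq0 := h0 r hr0 hr1
  set q := a * Ex (JJ P.T P.A) P.e P.d (hyb t r) (fun w => F (P.W w (t + 1))) + c with hq
  rw [Finset.sum_add_distrib, ← Finset.mul_sum, ← Finset.mul_sum, Finset.sum_add_distrib,
    Finset.sum_add_distrib]
  calc _ ≤ P.e * (q + q) + P.d * (q + q) :=
        add_le_add (mul_le_mul_of_nonneg_left (add_le_add k1 k2) he0)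
          (mul_le_mul_of_nonneg_left (add_le_add k3 k4) hd0)
    _ ≤ P.d * (q + q) + P.d * (q + q) :=
        add_le_add (mul_le_mul_of_nonneg_right P.hed (by linarith)) le_rfl
    _ = 4 * P.d * q := by ring

theorem thm_NucZs (m : ℕ) (hm : 1 ≤ m) (h0 : St_Root) (h1 : St_L1) (h2 : St_L2) (_h3 : St_L3)
    (h4 : St_PG m) : St_NucZs m := by
  obtain ⟨C2, hC2, h4'⟩ := h4
  refine ⟨224 + 6 * C2, by positivity, fun P D t hD ht htT => ?_⟩
  have hd0 := P.hd'
  have he0 := P.he'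
  have hA1 : 1 ≤ P.A := by have := P.hA; omega
  set pg : ℝ := C2 * P.T * P.A * (2 * P.d) ^ m with hpg
  have hpg0 : 0 ≤ pg := by positivity
  set ed : Nz → ℤ → Prop := fun w i => ∃ k : ℤ, |k - i| ≤ 2 * D + 1 ∧ SE (P.W w (t + 1)) k with hed
  -- one site
  have key : ∀ r : ℝ, 0 ≤ r → r ≤ 1 → ∀ (i y : ℤ) (b : Bool), |y - i| = 1 →
      Ex (JJ P.T P.A) P.e P.d (hyb t r)
        (fun w => ind (NU P.L m t i y b w) * (2 * ind (ed w i))) ≤
      8 * P.d * Ex (JJ P.T P.A) P.e P.d (hyb t r) (fun w => ind (ed w i)) + 2 * pg := by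
    intro r hr0 hr1 i y b hy
    have hPG := h4' P.T P.A P.e P.d (hyb t r) P.he' P.hed P.hd P.hT hA1 (hyb_mem t hr0 hr1)
    set g : Nz → ℝ := fun w => ind (ed (sw w t y none) i) with hg
    have hY : Dep ({((t, y) : ℕ × ℤ)}ᶜ) g := by
      intro w w' h
      have h5 : sw w t y none = sw w' t y none := by
        refine nz_ext fun c => ?_
        by_cases h6 : (c.1, c.2) = (t, y)
        · have h7 : c.1 = t := congrArg Prod.fst h6
          have h8 : c.2 = y := congrArg Prod.snd h6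
          rw [h7, h8, sw_self, sw_self]
        · rw [sw_of_ne _ _ h6, sw_of_ne _ _ h6]
          exact h c h6
      show ind (ed (sw w t y none) i) = ind (ed (sw w' t y none) i)
      rw [h5]
    have hX : Dep {((t, y) : ℕ × ℤ)} (fun w => ind (w t y ≠ none)) := exc1_dep_mark (t, y)
    have hX' : Dep {((t, y) : ℕ × ℤ)} (fun w => ind (w t y = none)) :=
      Dep_ind fun w w' h => by rw [h (t, y) rfl]
    have ha : Ex (JJ P.T P.A) P.e P.d (hyb t r)
        (fun w => ind (NU P.L m t i y b w) * (2 * ind (ed w i))) ≤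
        2 * (Ex (JJ P.T P.A) P.e P.d (hyb t r) (fun w => ind (w t y ≠ none)) *
          Ex (JJ P.T P.A) P.e P.d (hyb t r) g) +
        2 * Ex (JJ P.T P.A) P.e P.d (hyb t r) (fun w => ind (¬ Good m w)) := by
      rw [← Ex_indep _ _ _ _ disjoint_compl_right hX hY, ← Ex_smul, ← Ex_smul, ← Ex_add]
      refine Ex_mono P.he' P.hd' P.hsum (hyb_mem t hr0 hr1) fun w _ => ?_
      by_cases hgd : Good m w
      · rw [ind_false (not_not.2 hgd), mul_zero, add_zero]
        by_cases h5 : NU P.L m t i y b w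
        · have h6 : w t y ≠ none := by rw [h5.1]; simp
          have h7 : ind (ed w i) = g w := by
            rw [hg, hed]
            simp only
            rw [exc2_nuc1 P h1 h2 hm hgd hy ht htT h5]
          rw [ind_true h5, ind_true h6, h7, one_mul, one_mul]
        · rw [ind_false h5, zero_mul]
          exact mul_nonneg zero_le_two (mul_nonneg (ind_nonneg _) (ind_nonneg _))
      · rw [ind_true hgd]
        have h5 : ind (NU P.L m t i y b w) * (2 * ind (ed w i)) ≤ 1 * (2 * 1) :=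
          mul_le_mul (ind_le_one _) (by linarith [ind_le_one (ed w i)])
            (by linarith [ind_nonneg (ed w i)]) zero_le_one
        have h6 : 0 ≤ 2 * (ind (w t y ≠ none) * g w) :=
          mul_nonneg zero_le_two (mul_nonneg (ind_nonneg _) (ind_nonneg _))
        linarith
    have hb : Ex (JJ P.T P.A) P.e P.d (hyb t r) (fun w => ind (w t y = none)) *
        Ex (JJ P.T P.A) P.e P.d (hyb t r) g ≤
        Ex (JJ P.T P.A) P.e P.d (hyb t r) (fun w => ind (ed w i)) := by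
      rw [← Ex_indep _ _ _ _ disjoint_compl_right hX' hY]
      refine Ex_mono P.he' P.hd' P.hsum (hyb_mem t hr0 hr1) fun w _ => ?_
      by_cases h5 : w t y = none
      · rw [ind_true h5, one_mul, hg]
        simp only
        have h6 : sw w t y none = w := by rw [← h5, sw_eq_self]
        rw [h6]
      · rw [ind_false h5, zero_mul]
        exact ind_nonneg _
    have hm1 := Ex_mark_le (JJ P.T P.A) (hyb t r) (t, y) P.he' P.hed (hyb_mem t hr0 hr1 _)
    have hm2 : (1 / 2 : ℝ) ≤ Ex (JJ P.T P.A) P.e P.d (hyb t r) (fun w => ind (w t y = none)) := by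
      have h5 : Ex (JJ P.T P.A) P.e P.d (hyb t r) (fun w => ind (w t y ≠ none)) =
          1 - Ex (JJ P.T P.A) P.e P.d (hyb t r) (fun w => ind (w t y = none)) := by
        rw [← Ex_const (JJ P.T P.A) P.e P.d (hyb t r) 1, ← Ex_sub]
        exact Ex_congr fun w _ => ind_not _
      have h6 := P.hd
      simp only at hm1
      linarith
    have hg0 : 0 ≤ Ex (JJ P.T P.A) P.e P.d (hyb t r) g :=
      Ex_nonneg P.he' P.hd' P.hsum (hyb_mem t hr0 hr1) fun w _ => ind_nonneg _
    have hgb : Ex (JJ P.T P.A) P.e P.d (hyb t r) g ≤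
        2 * Ex (JJ P.T P.A) P.e P.d (hyb t r) (fun w => ind (ed w i)) := by
      have h5 := (mul_le_mul_of_nonneg_right hm2 hg0).trans hb
      linarith
    have h7 : Ex (JJ P.T P.A) P.e P.d (hyb t r) (fun w => ind (w t y ≠ none)) *
        Ex (JJ P.T P.A) P.e P.d (hyb t r) g ≤
        (2 * P.d) * (2 * Ex (JJ P.T P.A) P.e P.d (hyb t r) (fun w => ind (ed w i))) :=
      mul_le_mul hm1 hgb hg0 (by positivity)
    linarith
  -- sum over the sites
  have key2 : ∀ r : ℝ, 0 ≤ r → r ≤ 1 → ∀ (y : ℤ → ℤ) (b : Bool), (∀ i, |y i - i| = 1) →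
      ∑ i ∈ Finset.Icc (-(P.A : ℤ)) (P.A : ℤ), Ex (JJ P.T P.A) P.e P.d (hyb t r)
        (fun w => ind (NU P.L m t i (y i) b w) * (2 * ind (ed w i))) ≤
      8 * P.d * ((4 * D + 3) * Ex (JJ P.T P.A) P.e P.d (hyb t r)
        (fun w => Bn (P.W w (t + 1)))) + 2 * ((2 * P.A + 1) * pg) := by
    intro r hr0 hr1 y b hy
    refine (Finset.sum_le_sum fun i _ => key r hr0 hr1 i (y i) b (hy i)).trans ?_
    rw [Finset.sum_add_distrib, ← Finset.mul_sum, Finset.sum_const, nsmul_eq_mul, exc1_card]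
    have h5 : ∑ i ∈ Finset.Icc (-(P.A : ℤ)) (P.A : ℤ), Ex (JJ P.T P.A) P.e P.d (hyb t r)
        (fun w => ind (ed w i)) ≤ (4 * D + 3) * Ex (JJ P.T P.A) P.e P.d (hyb t r)
        (fun w => Bn (P.W w (t + 1))) := by
      rw [← Ex_sum, ← Ex_smul]
      refine Ex_mono P.he' P.hd' P.hsum (hyb_mem t hr0 hr1) fun w hw => ?_
      exact exc2_edges (P.W_root h0 hw (t + 1)).2 D _
    have h6 : 8 * P.d * ∑ i ∈ Finset.Icc (-(P.A : ℤ)) (P.A : ℤ), Ex (JJ P.T P.A) P.e P.d (hyb t r)
        (fun w => ind (ed w i)) ≤ 8 * P.d * ((4 * D + 3) * Ex (JJ P.T P.A) P.e P.d (hyb t r)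
        (fun w => Bn (P.W w (t + 1)))) := mul_le_mul_of_nonneg_left h5 (by positivity)
    linarith
  have hAV : 0 ≤ P.AV Bn t := AV_nonneg P h0 (fun u _ _ => Bn_nonneg u) t
  have hb0 : 0 ≤ P.bad m := by unfold Par.bad; positivity
  have hfin := exc2_NUC P m t (fun u i => 2 * ind (∃ k : ℤ, |k - i| ≤ 2 * D + 1 ∧ SE u k)) Bn
    (a := 8 * P.d * (4 * D + 3)) (c := 2 * ((2 * P.A + 1) * pg))
    (fun r hr0 hr1 y b hy => (key2 r hr0 hr1 y b hy).trans (le_of_eq (by ring)))
    (fun r hr0 hr1 => by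
      have hB0 : 0 ≤ Ex (JJ P.T P.A) P.e P.d (hyb t r) (fun w => Bn (P.W w (t + 1))) :=
        Ex_nonneg P.he' P.hd' P.hsum (hyb_mem t hr0 hr1) fun w _ => Bn_nonneg _
      positivity)
  refine hfin.trans ?_
  have hpgb := exc2_pg hC2 P m
  rw [← hpg] at hpgb
  have hDr : (1 : ℝ) ≤ D := by exact_mod_cast hD
  have hd4 := P.hd
  have e1 : 4 * P.d * (8 * P.d * (4 * D + 3) * P.AV Bn t) ≤ 224 * (P.d ^ 2 * D * P.AV Bn t) := by
    have h5 : (4 * (D : ℝ) + 3) ≤ 7 * D := by linarith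
    have h6 : (4 * (D : ℝ) + 3) * (P.d ^ 2 * P.AV Bn t) ≤ (7 * D) * (P.d ^ 2 * P.AV Bn t) :=
      mul_le_mul_of_nonneg_right h5 (by positivity)
    nlinarith
  have e2 : 4 * P.d * (2 * ((2 * P.A + 1) * pg)) ≤ 6 * C2 * P.bad m := by
    have h5 : P.d * (8 * ((2 * P.A + 1) * pg)) ≤ 1 / 4 * (8 * (3 * C2 * P.bad m)) :=
      mul_le_mul hd4 (by linarith) (by positivity) (by norm_num)
    linarith
  have e3 : 0 ≤ 224 * P.bad m := by positivity
  have e4 : 0 ≤ 6 * C2 * (P.d ^ 2 * D * P.AV Bn t) := by positivity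
  nlinarith

end Pool.Agent.T3M
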