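import Mathlib
import Pool.Agent.T3M.St
import Pool.Agent.T3M.MD5

/-!
Influence of a local change on `Psi`, `Tq` and `Zs`.
-/

set_option autoImplicit false

namespace Pool.Agent.T3M

lemma inf1_card (i : ℤ) (K : ℕ) : (Finset.Icc (i - K) (i + K)).card = 2 * K + 1 := by
  rw [Int.card_Icc]
  omega

/-- a change in the window -/
lemma inf1_bits {u u' : ℤ → Sy} {i : ℤ} {K : ℕ} (h : ∀ k : ℤ, (K : ℤ) < |k - i| → u k = u' k) :
    ∀ k, k ∉ Finset.Icc (i - K) (i + K) → d3_sb u k = d3_sb u' k := by
  intro k hk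
  unfold d3_sb
  rw [Finset.mem_Icc] at hk
  rw [h k]
  rcases abs_cases (k - i) with ⟨h7, _⟩ | ⟨h7, _⟩ <;> omega

lemma inf1_del {u u' : ℤ → Sy} {i : ℤ} {K : ℕ} (h : ∀ k : ℤ, (K : ℤ) < |k - i| → u k = u' k) :
    ∑ᶠ k, d5_del u u' k ≤ 2 * K + 1 := by
  have h1 := d5_del_sum _ (inf1_bits h)
  rw [inf1_card] at h1
  exact_mod_cast h1

/-- no stars near `i` -/
lemma inf1_same {u u' : ℤ → Sy} {i : ℤ} {K : ℕ} (h : ∀ k : ℤ, (K : ℤ) < |k - i| → u k = u' k)
    (h2 : ∀ k : ℤ, |k - i| ≤ K + 2 → u k ≠ .s ∧ u' k ≠ .s) : d3_sb u = d3_sb u' := by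
  funext k
  unfold d3_sb
  by_cases hk : (K : ℤ) < |k - i|
  · rw [h k hk]
  · obtain ⟨h3, h4⟩ := h2 k (by omega)
    rw [(d3_isS_iff' _).2 h3, (d3_isS_iff' _).2 h4]

/-! ### Two neighbouring sites of a star bulk -/

/-- the configuration with two neighbouring sites replaced -/
def inf1_v (u : ℤ → Sy) (a : ℤ) (c : Sy) : ℤ → Sy :=
  Function.update (Function.update u a c) (a + 1) c

lemma inf1_v_eq (u : ℤ → Sy) {i y : ℤ} (c : Sy) (hy : |y - i| = 1) :
    (y = i + 1 ∧ Function.update (Function.update u i c) y c = inf1_v u i c) ∨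
    (y = i - 1 ∧ Function.update (Function.update u i c) y c = inf1_v u (i - 1) c) := by
  have h : y = i + 1 ∨ y = i - 1 := by
    rcases abs_cases (y - i) with ⟨h7, _⟩ | ⟨h7, _⟩ <;> omega
  rcases h with h | h
  · left
    subst h
    exact ⟨rfl, rfl⟩
  · right
    subst h
    refine ⟨rfl, ?_⟩
    unfold inf1_v
    rw [Function.update_comm (show i ≠ i - 1 by omega), show i - 1 + 1 = i by ring]

lemma inf1_v_a (u : ℤ → Sy) (a : ℤ) (c : Sy) : inf1_v u a c a = c := by
  unfold inf1_v
  rw [Function.update_of_ne (by omega), Function.update_self]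

lemma inf1_v_b (u : ℤ → Sy) (a : ℤ) (c : Sy) : inf1_v u a c (a + 1) = c := by
  unfold inf1_v
  rw [Function.update_self]

lemma inf1_v_o (u : ℤ → Sy) (a : ℤ) (c : Sy) {k : ℤ} (h1 : k ≠ a) (h2 : k ≠ a + 1) :
    inf1_v u a c k = u k := by
  unfold inf1_v
  rw [Function.update_of_ne h2, Function.update_of_ne h1]

lemma inf1_sup {N : ℕ} {u : ℤ → Sy} (hs : Sup N u) {a : ℤ} (c : Sy) (h0 : u a = .s)
    (h1 : u (a + 1) = .s) : Sup N (inf1_v u a c) := by
  intro k hk
  rw [inf1_v_o, hs k hk]
  · rintro rfl
    rw [hs k hk] at h0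
    exact absurd h0 (by simp)
  · rintro rfl
    rw [hs _ hk] at h1
    exact absurd h1 (by simp)

lemma inf1_nst {N : ℕ} {u : ℤ → Sy} (hs : Sup N u) {a : ℤ} {c : Sy} (hc : c ≠ .s) (h0 : u a = .s)
    (h1 : u (a + 1) = .s) : nst (inf1_v u a c) = nst u - 2 := by
  have h2 : nst (inf1_v u a c) - nst u = -2 := by
    unfold nst
    rw [← d5_sum_sub (d5_cs_st (inf1_sup hs c h0 h1)) (d5_cs_st hs),
      finsum_eq_sum_of_support_subset (s := {a, a + 1})]
    · rw [Finset.sum_pair (by omega)]
      unfold st
      rw [inf1_v_a, inf1_v_b, h0, h1, ind_false hc, ind_true rfl]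
      norm_num
    · intro k hk
      rw [Function.mem_support] at hk
      by_contra h
      apply hk
      have h3 : k ≠ a ∧ k ≠ a + 1 := by
        constructor <;>
        · rintro rfl
          exact h (by simp)
      unfold st
      rw [inf1_v_o u a c h3.1 h3.2, sub_self]
  linarith

lemma inf1_Bn {N : ℕ} {u : ℤ → Sy} (hs : Sup N u) {a : ℤ} {c : Sy} (hc : c ≠ .s)
    (hm : u (a - 1) = .s) (h0 : u a = .s) (h1 : u (a + 1) = .s) (h2 : u (a + 2) = .s) :
    Bn (inf1_v u a c) = Bn u + 2 := by
  have h3 : Bn (inf1_v u a c) - Bn u = 2 := by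
    unfold Bn
    rw [← d5_sum_sub (d5_cs_SE (inf1_sup hs c h0 h1)) (d5_cs_SE hs),
      finsum_eq_sum_of_support_subset (s := {a - 1, a, a + 1})]
    · rw [Finset.sum_insert, Finset.sum_pair (by omega)]
      · have e1 : ind (SE (inf1_v u a c) (a - 1)) = 1 := by
          apply ind_true
          unfold SE
          rw [inf1_v_o u a c (by omega) (by omega), show a - 1 + 1 = a by ring, inf1_v_a, hm]
          tauto
        have e2 : ind (SE (inf1_v u a c) a) = 0 := by
          apply ind_false
          unfold SE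
          rw [inf1_v_a, inf1_v_b]
          tauto
        have e3 : ind (SE (inf1_v u a c) (a + 1)) = 1 := by
          apply ind_true
          unfold SE
          rw [inf1_v_b, inf1_v_o u a c (by omega) (by omega), show a + 1 + 1 = a + 2 by ring, h2]
          tauto
        have e4 : ind (SE u (a - 1)) = 0 := by
          apply ind_false
          unfold SE
          rw [show a - 1 + 1 = a by ring, hm, h0]
          tauto
        have e5 : ind (SE u a) = 0 := by
          apply ind_false
          unfold SE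
          rw [h1, h0]
          tauto
        have e6 : ind (SE u (a + 1)) = 0 := by
          apply ind_false
          unfold SE
          rw [show a + 1 + 1 = a + 2 by ring, h1, h2]
          tauto
        rw [e1, e2, e3, e4, e5, e6]
        norm_num
      · simp only [Finset.mem_insert, Finset.mem_singleton]
        omega
    · intro k hk
      rw [Function.mem_support] at hk
      by_contra h
      apply hk
      have h3 : k ≠ a - 1 ∧ k ≠ a ∧ k ≠ a + 1 := by
        refine ⟨?_, ?_, ?_⟩ <;>
        · rintro rfl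
          exact h (by simp)
      show ind (SE (inf1_v u a c) k) - ind (SE u k) = 0
      unfold SE
      rw [inf1_v_o u a c h3.2.1 h3.2.2, inf1_v_o u a c (k := k + 1) (by omega) (by omega), sub_self]
  linarith

lemma inf1_bs (b : Bool) : bs b ≠ .s := by cases b <;> simp [bs]

lemma inf1_KK {m : ℕ} (hm : 1 ≤ m) : (4 : ℤ) ≤ KK m := by
  unfold KK
  push_cast
  omega

theorem thm_InfPsi (m : ℕ) (hm : 1 ≤ m) : St_InfPsi m := by
  refine ⟨2 * (2 * (KK m : ℝ) + 1), by positivity, fun D => ⟨?_, ?_, ?_⟩⟩
  · intro u u' N i _ _ hs hs' h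
    have h1 := d5_Psi hs hs'
    have h2 := inf1_del h
    linarith
  · intro u u' N i _ _ hs hs' h h2
    have h1 := d5_Psi hs hs'
    rw [d5_del_same (inf1_same h h2), mul_zero] at h1
    rw [zero_mul]
    exact h1
  · intro u N i y b _ hs hy h
    have hK := inf1_KK hm
    have hst : ∀ k : ℤ, |k - i| ≤ 4 → u k = .s := fun k hk => h k (by omega)
    rcases inf1_v_eq u (bs b) hy with ⟨-, e⟩ | ⟨-, e⟩
    · rw [e]
      unfold Psi
      rw [inf1_nst hs (inf1_bs b) (hst i (by simp)) (hst (i + 1) (by
          rw [show i + 1 - i = 1 by ring]; norm_num)),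
        inf1_Bn hs (inf1_bs b) (hst _ (by rw [show i - 1 - i = -1 by ring]; norm_num))
          (hst i (by simp)) (hst _ (by rw [show i + 1 - i = 1 by ring]; norm_num))
          (hst _ (by rw [show i + 2 - i = 2 by ring]; norm_num))]
      linarith
    · rw [e]
      unfold Psi
      rw [inf1_nst hs (inf1_bs b) (hst (i - 1) (by rw [show i - 1 - i = -1 by ring]; norm_num))
          (hst (i - 1 + 1) (by rw [show i - 1 + 1 - i = 0 by ring]; norm_num)),
        inf1_Bn hs (inf1_bs b) (hst _ (by rw [show i - 1 - 1 - i = -2 by ring]; norm_num))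
          (hst (i - 1) (by rw [show i - 1 - i = -1 by ring]; norm_num))
          (hst _ (by rw [show i - 1 + 1 - i = 0 by ring]; norm_num))
          (hst _ (by rw [show i - 1 + 2 - i = 1 by ring]; norm_num))]
      linarith

lemma inf1_v_bits (u : ℤ → Sy) (a : ℤ) (c : Sy) :
    ∀ k, k ∉ ({a, a + 1} : Finset ℤ) → d3_sb u k = d3_sb (inf1_v u a c) k := by
  intro k hk
  unfold d3_sb
  rw [inf1_v_o u a c]
  · rintro rfl
    exact hk (by simp)
  · rintro rfl
    exact hk (by simp)

theorem thm_InfT (m : ℕ) (hm : 1 ≤ m) : St_InfT m := by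
  refine ⟨2 * (KK m : ℝ) + 1, by positivity, fun D R hR => ⟨?_, ?_, ?_⟩⟩
  · intro u u' N i _ _ hs hs' h
    have h1 := d5_Tq hs hs' R hR
    have h2 := inf1_del h
    have h3 : (0 : ℝ) ≤ R := Nat.cast_nonneg R
    have h4 : |-Tq R u - -Tq R u'| = |Tq R u - Tq R u'| := by
      rw [neg_sub_neg, abs_sub_comm]
    show |-Tq R u - -Tq R u'| ≤ _
    rw [h4]
    exact h1.trans (by nlinarith)
  · intro u u' N i _ _ hs hs' h h2
    have h1 := d5_Tq hs hs' R hR
    rw [d5_del_same (inf1_same h h2), mul_zero] at h1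
    have h4 : |-Tq R u - -Tq R u'| = |Tq R u - Tq R u'| := by
      rw [neg_sub_neg, abs_sub_comm]
    show |-Tq R u - -Tq R u'| ≤ _
    rw [h4, zero_mul]
    exact h1
  · intro u N i y b _ hs hy h
    have hK := inf1_KK hm
    have hst : ∀ k : ℤ, |k - i| ≤ 4 → u k = .s := fun k hk => h k (by omega)
    have h3 : (0 : ℝ) ≤ R := Nat.cast_nonneg R
    have key : ∀ a : ℤ, u a = .s → u (a + 1) = .s →
        -Tq R (inf1_v u a (bs b)) - -Tq R u ≤ 2 * R := by
      intro a h0 h1
      have h2 := d5_Tq hs (inf1_sup hs (bs b) h0 h1) R hR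
      have h4 := d5_del_sum _ (inf1_v_bits u a (bs b))
      rw [Finset.card_pair (by omega)] at h4
      push_cast at h4
      have h5 := (abs_le.1 h2).2
      nlinarith
    rcases inf1_v_eq u (bs b) hy with ⟨-, e⟩ | ⟨-, e⟩
    · show -Tq R (Function.update (Function.update u i (bs b)) y (bs b)) - -Tq R u ≤ _
      rw [e]
      exact key i (hst i (by simp)) (hst _ (by rw [show i + 1 - i = 1 by ring]; norm_num))
    · show -Tq R (Function.update (Function.update u i (bs b)) y (bs b)) - -Tq R u ≤ _
      rw [e]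
      exact key (i - 1) (hst _ (by rw [show i - 1 - i = -1 by ring]; norm_num))
        (hst _ (by rw [show i - 1 + 1 - i = 0 by ring]; norm_num))

/-! ### The star run functional -/

lemma inf1_kap_zero {D l : ℕ} (hD : 1 ≤ D) (h : 2 * D ≤ l) : kap D l = 0 := by
  unfold kap
  rw [if_neg (by omega)]
  split_ifs with h1
  · have h2 : l = 2 * D := by omega
    rw [h2]
    push_cast
    rw [sub_self]
    simp
  · rfl

lemma inf1_lr_ge {N : ℕ} {x : ℤ → Bool} (hx : d3_FS N x) {p : ℤ} {n : ℕ}
    (h : ∀ j : ℕ, j < n → x (p - j) = true) : n ≤ d3_lr x p := by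
  by_contra h1
  have h2 := (d3_lr_spec hx p).1
  rw [h _ (not_le.1 h1)] at h2
  exact absurd h2 (by simp)

lemma inf1_rr_ge {N : ℕ} {x : ℤ → Bool} (hx : d3_FS N x) {p : ℤ} {n : ℕ}
    (h : ∀ j : ℕ, j < n → x (p + j) = true) : n ≤ d3_rr x p := by
  by_contra h1
  have h2 := (d3_rr_spec hx p).1
  rw [h _ (not_le.1 h1)] at h2
  exact absurd h2 (by simp)

/-- all sites up to distance `n` are stars if there is no star edge -/
lemma inf1_right {u : ℤ → Sy} {i : ℤ} {n : ℕ} (h0 : u i = .s)
    (h : ∀ k : ℤ, i ≤ k → k < i + n → ¬ SE u k) : ∀ j : ℕ, j ≤ n → u (i + j) = .s := by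
  intro j
  induction j with
  | zero => intro _; simpa using h0
  | succ j ih =>
    intro hj
    have h1 := ih (by omega)
    have h2 := h (i + j) (by omega) (by omega)
    unfold SE at h2
    push_cast
    rw [← add_assoc]
    by_contra h3
    exact h2 fun h4 => h3 (h4.1 h1)

lemma inf1_left {u : ℤ → Sy} {i : ℤ} {n : ℕ} (h0 : u i = .s)
    (h : ∀ k : ℤ, i - n ≤ k → k < i → ¬ SE u k) : ∀ j : ℕ, j ≤ n → u (i - j) = .s := by
  intro j
  induction j with
  | zero => intro _; simpa using h0
  | succ j ih =>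
    intro hj
    have h1 := ih (by omega)
    have h2 := h (i - j - 1) (by omega) (by omega)
    unfold SE at h2
    rw [show i - (j : ℤ) - 1 + 1 = i - j by ring] at h2
    push_cast
    rw [show i - ((j : ℤ) + 1) = i - j - 1 by ring]
    by_contra h3
    exact h2 fun h4 => h3 (h4.2 h1)

theorem thm_InfZs (m : ℕ) (hm : 1 ≤ m) : St_InfZs m := by
  refine ⟨2 * (2 * (KK m : ℝ) + 1), by positivity, fun D hD => ⟨?_, ?_, ?_⟩⟩
  · intro u u' N i _ _ hs hs' h
    have h1 := d5_Zs hs hs' D _ (inf1_bits h)
    rw [inf1_card] at h1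
    push_cast at h1
    exact h1
  · intro u u' N i _ _ hs hs' h h2
    rw [d3_Zs_eq, d3_Zs_eq, inf1_same h h2, sub_self, abs_zero, zero_mul]
  · intro u N i y b _ hs hy h
    have hK := inf1_KK hm
    have hst : ∀ k : ℤ, |k - i| ≤ 4 → u k = .s := fun k hk => h k (by omega)
    have hx := d3_sb_FS hs
    have s0 := hst i (by simp)
    have s1 := hst (i + 1) (by rw [show i + 1 - i = 1 by ring]; norm_num)
    have s2 := hst (i - 1) (by rw [show i - 1 - i = -1 by ring]; norm_num)
    set A := d3_lr (d3_sb u) (i - 2) with hA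
    set B := d3_rr (d3_sb u) (i + 2) with hB
    have hk0 : ∀ l, 0 ≤ d3_k0 (kap D) l ∧ d3_k0 (kap D) l ≤ kap D l := by
      intro l
      unfold d3_k0
      split_ifs
      · exact ⟨le_refl 0, d3_kap_nonneg D l⟩
      · exact ⟨d3_kap_nonneg D l, le_refl _⟩
    have e0 := d3_three (kap D) hx i true true true
    have e0' : d3_Y (d3_sb u) i true true true = d3_sb u := by
      have h1 := d3_Y_self (d3_sb u) i
      unfold d3_sb at h1 ⊢
      rw [s0, s1, s2] at h1
      exact h1
    rw [e0'] at e0
    -- the bound by the lengths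
    have hmain : Zs D (Function.update (Function.update u i (bs b)) y (bs b)) - Zs D u ≤
        kap D A + kap D B := by
      have hanti : ∀ l, kap D (l + 1) ≤ kap D l := fun l => d3_kap_succ D l hD
      have hn := d3_kap_nonneg D (A + B + 3)
      rcases inf1_v_eq u (bs b) hy with ⟨-, e⟩ | ⟨-, e⟩
      · rw [e]
        have h1 : d3_sb (inf1_v u i (bs b)) = d3_Y (d3_sb u) i true false false := by
          have h2 := d3_Y_ext (x := d3_sb u) (y := d3_sb (inf1_v u i (bs b))) (i := i)
            (fun t ht => by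
              unfold d3_sb
              rw [inf1_v_o u i (bs b)]
              · rintro rfl
                rw [sub_self, abs_zero] at ht
                omega
              · rintro rfl
                rw [show i + 1 - i = 1 by ring] at ht
                norm_num at ht)
          rw [h2]
          unfold d3_sb
          rw [inf1_v_a, inf1_v_b, inf1_v_o u i (bs b) (by omega) (by omega), s2,
            (d3_isS_iff' _).2 (inf1_bs b)]
          rfl
        rw [d3_Zs_eq, d3_Zs_eq, h1, d3_three (kap D) hx i, e0]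
        have h3 := hk0 B
        have h4 := hanti A
        unfold d3_G
        linarith [h3.2]
      · rw [e]
        have h1 : d3_sb (inf1_v u (i - 1) (bs b)) = d3_Y (d3_sb u) i false false true := by
          have h2 := d3_Y_ext (x := d3_sb u) (y := d3_sb (inf1_v u (i - 1) (bs b))) (i := i)
            (fun t ht => by
              unfold d3_sb
              rw [inf1_v_o u (i - 1) (bs b)]
              · rintro rfl
                rw [show i - 1 - i = -1 by ring] at ht
                norm_num at ht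
              · rintro rfl
                rw [show i - 1 + 1 - i = 0 by ring, abs_zero] at ht
                omega)
          have h3 := inf1_v_b u (i - 1) (bs b)
          rw [show i - 1 + 1 = i by ring] at h3
          rw [h2]
          unfold d3_sb
          rw [inf1_v_a, h3, inf1_v_o u (i - 1) (bs b) (by omega) (by omega), s1,
            (d3_isS_iff' _).2 (inf1_bs b)]
          rfl
        rw [d3_Zs_eq, d3_Zs_eq, h1, d3_three (kap D) hx i, e0]
        have h3 := hk0 A
        have h4 := hanti B
        unfold d3_G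
        linarith [h3.2]
    show Zs D (Function.update (Function.update u i (bs b)) y (bs b)) - Zs D u ≤
      2 * ind (∃ k : ℤ, |k - i| ≤ 2 * D + 1 ∧ SE u k)
    by_cases hE : ∃ k : ℤ, |k - i| ≤ 2 * D + 1 ∧ SE u k
    · rw [ind_true hE]
      have h1 := d5_kap_le_one D A
      have h2 := d5_kap_le_one D B
      linarith
    · rw [ind_false hE, mul_zero]
      have hno : ∀ k : ℤ, |k - i| ≤ 2 * D + 1 → ¬ SE u k := fun k hk h1 => hE ⟨k, hk, h1⟩
      have hR := inf1_right (n := 2 * D + 2) s0 (fun k h1 h2 => hno k (by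
        push_cast at h2
        rcases abs_cases (k - i) with ⟨h7, _⟩ | ⟨h7, _⟩ <;> omega))
      have hL := inf1_left (n := 2 * D + 1) s0 (fun k h1 h2 => hno k (by
        push_cast at h1
        rcases abs_cases (k - i) with ⟨h7, _⟩ | ⟨h7, _⟩ <;> omega))
      have hA2 : 2 * D ≤ A := by
        apply inf1_lr_ge hx
        intro j hj
        have h1 := hL (j + 2) (by omega)
        push_cast at h1
        unfold d3_sb
        rw [show i - 2 - (j : ℤ) = i - (j + 2) by ring, h1]
        rfl
      have hB2 : 2 * D ≤ B := by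
        apply inf1_rr_ge hx
        intro j hj
        have h1 := hR (j + 2) (by omega)
        push_cast at h1
        unfold d3_sb
        rw [show i + 2 + (j : ℤ) = i + (j + 2) by ring, h1]
        rfl
      rw [inf1_kap_zero hD hA2, inf1_kap_zero hD hB2] at hmain
      linarith

end Pool.Agent.T3M
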