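import Pool.Agent.T3M.St
import Pool.Agent.T3M.Ba
import Pool.Agent.T3M.MGap

/-!
# T3M, module InfZL: influence of a local change on the view functional (helper86)
-/

set_option autoImplicit false

namespace Pool.Agent.T3M

/-! ### The weights -/

lemma infzl_kap0 (D l : ℕ) : 0 ≤ kap D l := by
  unfold kap
  split_ifs with h1 h2
  · rcases Nat.eq_zero_or_pos D with hD | hD
    · subst hD
      have : l = 0 := by omega
      subst this
      norm_num
    · have hD' : (0 : ℝ) < D := by exact_mod_cast hD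
      have h3 : (l : ℝ) ≤ D := by exact_mod_cast h1
      have h4 : (l : ℝ) ^ 2 / (2 * (D : ℝ) ^ 2) ≤ 1 := by
        rw [div_le_one (by positivity)]
        nlinarith [(Nat.cast_nonneg l : (0 : ℝ) ≤ l)]
      linarith
  · positivity
  · exact le_rfl

lemma infzl_kap1 (D l : ℕ) : kap D l ≤ 1 := by
  unfold kap
  split_ifs with h1 h2
  · have : (0 : ℝ) ≤ (l : ℝ) ^ 2 / (2 * (D : ℝ) ^ 2) := by positivity
    linarith
  · have hD : 0 < D := by omega
    have hD' : (0 : ℝ) < D := by exact_mod_cast hD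
    have h3 : (D : ℝ) ≤ l := by exact_mod_cast (by omega : D ≤ l)
    have h4 : (l : ℝ) ≤ 2 * D := by exact_mod_cast h2
    rw [div_le_one (by positivity)]
    nlinarith
  · exact zero_le_one

lemma infzl_kap_big {D l : ℕ} (h : 2 * D ≤ l) : kap D l = 0 ∨ D = 0 := by
  by_cases hD : D = 0
  · exact Or.inr hD
  · left
    unfold kap
    rw [if_neg (by omega)]
    by_cases h2 : l ≤ 2 * D
    · have : l = 2 * D := by omega
      subst this
      rw [if_pos h2]
      push_cast
      rw [sub_self]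
      simp
    · rw [if_neg h2]

lemma infzl_th {D : ℕ} (hD : 1 ≤ D) : 1 / 2 ≤ th D ∧ th D < 1 := by
  have hD' : (1 : ℝ) ≤ D := by exact_mod_cast hD
  unfold th
  constructor
  · have : 1 / (2 * (D : ℝ)) ≤ 1 / 2 := by
      apply one_div_le_one_div_of_le (by norm_num)
      linarith
    linarith
  · have : 0 < 1 / (2 * (D : ℝ)) := by positivity
    linarith

lemma infzl_th2D {D : ℕ} (hD : 1 ≤ D) : 1 / 4 ≤ th D ^ (2 * D) := by
  have hD' : (1 : ℝ) ≤ D := by exact_mod_cast hD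
  have h1 : 1 / 2 ≤ th D ^ D := by
    have h2 := one_add_mul_le_pow (a := -(1 / (2 * (D : ℝ)))) (by
      have : 1 / (2 * (D : ℝ)) ≤ 1 := by
        rw [div_le_one (by positivity)]
        linarith
      linarith) D
    have h3 : 1 + (D : ℝ) * -(1 / (2 * (D : ℝ))) = 1 / 2 := by
      field_simp
      norm_num
    have h4 : (1 + -(1 / (2 * (D : ℝ)))) = th D := by
      unfold th
      ring
    rw [h3, h4] at h2
    exact h2
  have h5 : th D ^ (2 * D) = (th D ^ D) ^ 2 := by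
    rw [← pow_mul, mul_comm]
  rw [h5]
  nlinarith

lemma infzl_W0 (D : ℕ) (hD : 1 ≤ D) (u : ℤ → Sy) (p : ℤ) : 0 ≤ gW (kap D) (th D) u p := by
  unfold gW
  have := (infzl_th hD).1
  exact mul_nonneg (ind_nonneg _) (mul_nonneg (pow_nonneg (by linarith) _) (infzl_kap0 _ _))

lemma infzl_Wle (D : ℕ) (hD : 1 ≤ D) (u : ℤ → Sy) (p : ℤ) :
    gW (kap D) (th D) u p ≤ ind (CW u p ∧ dl u p ≠ 0) * th D ^ (dl u p - ll u p) := by
  unfold gW
  have h1 := (infzl_th hD).1
  have h2 : (0 : ℝ) ≤ th D ^ (dl u p - ll u p) := pow_nonneg (by linarith) _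
  refine mul_le_mul_of_nonneg_left ?_ (ind_nonneg _)
  exact mul_le_of_le_one_right h2 (infzl_kap1 _ _)

lemma infzl_W1 (D : ℕ) (hD : 1 ≤ D) (u : ℤ → Sy) (p : ℤ) : gW (kap D) (th D) u p ≤ 1 := by
  have h1 := infzl_th hD
  refine (infzl_Wle D hD u p).trans ?_
  have h2 : th D ^ (dl u p - ll u p) ≤ 1 := pow_le_one₀ (by linarith) h1.2.le
  have h3 : (0 : ℝ) ≤ th D ^ (dl u p - ll u p) := pow_nonneg (by linarith) _
  calc ind (CW u p ∧ dl u p ≠ 0) * th D ^ (dl u p - ll u p) ≤ 1 * 1 :=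
        mul_le_mul (ind_le_one _) h2 h3 zero_le_one
    _ = 1 := by norm_num

lemma infzl_Wne {κ : ℕ → ℝ} {t : ℝ} {u : ℤ → Sy} {p : ℤ} (h : gW κ t u p ≠ 0) :
    CW u p ∧ dl u p ≠ 0 := by
  by_contra hc
  apply h
  unfold gW
  rw [ind_false hc, zero_mul]

/-! ### Locality -/

lemma infzl_dl {u : ℤ → Sy} {p : ℤ} {d : ℕ} (h1 : u (p - d) = .s)
    (h2 : ∀ j : ℕ, j < d → u (p - j) ≠ .s) : dl u p = d := by
  unfold dl
  apply le_antisymm (Nat.sInf_le h1)
  apply le_csInf ⟨d, h1⟩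
  intro j hj
  by_contra hc
  exact h2 j (by omega) hj

lemma infzl_ll {u : ℤ → Sy} {p : ℤ} {l : ℕ} (h1 : u (p - l) ≠ u p)
    (h2 : ∀ j : ℕ, j < l → u (p - j) = u p) : ll u p = l := by
  unfold ll
  apply le_antisymm (Nat.sInf_le h1)
  apply le_csInf ⟨l, h1⟩
  intro j hj
  by_contra hc
  exact hj (h2 j (by omega))

lemma infzl_ll_mem {u : ℤ → Sy} {p : ℤ} (h : ll u p ≠ 0) : u (p - (ll u p : ℕ)) ≠ u p := by
  have hS : {j : ℕ | u (p - j) ≠ u p}.Nonempty := by
    by_contra hc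
    rw [Set.not_nonempty_iff_eq_empty] at hc
    exact h (by unfold ll; rw [hc]; exact Nat.sInf_empty)
  exact Nat.sInf_mem hS

lemma infzl_ll_lt {u : ℤ → Sy} {p : ℤ} {j : ℕ} (h : j < ll u p) : u (p - j) = u p := by
  by_contra hc
  exact absurd (Nat.sInf_le (show j ∈ {j : ℕ | u (p - j) ≠ u p} from hc)) (not_le.2 h)

/-- a summand depends only on the sites from the next star on the left to the wall -/
lemma infzl_loc {κ : ℕ → ℝ} {t : ℝ} {u u' : ℤ → Sy} {p : ℤ} (h1 : CW u p) (h2 : dl u p ≠ 0)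
    (h : ∀ k : ℤ, p - (dl u p : ℕ) ≤ k → k ≤ p + 1 → u' k = u k) :
    gW κ t u' p = gW κ t u p ∧ dl u' p = dl u p ∧ CW u' p := by
  have e0 : u' p = u p := h p (by omega) (by omega)
  have e1 : u' (p + 1) = u (p + 1) := h (p + 1) (by omega) le_rfl
  have hd : dl u' p = dl u p := by
    apply infzl_dl
    · rw [h _ le_rfl (by omega)]
      exact dl_mem h2
    · intro j hj
      rw [h _ (by omega) (by omega)]
      exact dl_lt hj
  have hl0 := ll_pos_le h1.1 h2
  have hl : ll u' p = ll u p := by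
    apply infzl_ll
    · rw [h _ (by omega) (by omega), e0]
      exact infzl_ll_mem hl0.1
    · intro j hj
      rw [h _ (by omega) (by omega), e0]
      exact infzl_ll_lt hj
  have hc : CW u' p := by
    unfold CW
    rw [e0, e1]
    exact h1
  refine ⟨?_, hd, hc⟩
  unfold gW
  rw [hd, hl, ind_true (show CW u' p ∧ dl u p ≠ 0 from ⟨hc, h2⟩),
    ind_true (show CW u p ∧ dl u p ≠ 0 from ⟨h1, h2⟩)]

/-! ### The sum over one gap -/

lemma infzl_gap (D : ℕ) (hD : 1 ≤ D) (u : ℤ → Sy) (P : Finset ℤ) (x : ℤ)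
    (h : ∀ p ∈ P, CW u p ∧ dl u p ≠ 0 ∧ p - (dl u p : ℕ) = x) :
    ∑ p ∈ P, th D ^ (dl u p - ll u p) ≤ 2 * D := by
  classical
  have hth := infzl_th hD
  have hinj : Set.InjOn (fun p => dl u p - ll u p) (P : Set ℤ) := by
    have key : ∀ p ∈ P, ∀ p' ∈ P, p < p' → dl u p - ll u p ≠ dl u p' - ll u p' := by
      intro p hp p' hp' hlt he
      obtain ⟨c1, c2, c3⟩ := h p hp
      obtain ⟨d1, d2, d3⟩ := h p' hp'
      have l1 := ll_pos_le c1.1 c2
      have l2 := ll_pos_le d1.1 d2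
      -- the start of the run of `p` is the start of the run of `p'`
      have e1 : p - (ll u p : ℕ) = p' - (ll u p' : ℕ) := by omega
      have e2 : u p = u p' := by
        have h3 := infzl_ll_lt (u := u) (p := p') (j := (p' - p).toNat) (by omega)
        rw [show p' - ((p' - p).toNat : ℕ) = p by omega] at h3
        exact h3
      have e3 : u (p + 1) = u p' := by
        have h3 := infzl_ll_lt (u := u) (p := p') (j := (p' - (p + 1)).toNat) (by omega)
        rw [show p' - ((p' - (p + 1)).toNat : ℕ) = p + 1 by omega] at h3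
        exact h3
      exact c1.2.2 (e2.trans e3.symm)
    intro p hp p' hp' he
    rcases lt_trichotomy p p' with h1 | h1 | h1
    · exact absurd he (key p hp p' hp' h1)
    · exact h1
    · exact absurd he.symm (key p' hp' p hp h1)
  have h1 : ∑ p ∈ P, th D ^ (dl u p - ll u p) =
      ∑ n ∈ P.image (fun p => dl u p - ll u p), th D ^ n := by
    rw [Finset.sum_image hinj]
  rw [h1]
  have h2 := (summable_geometric_of_lt_one (by linarith : (0 : ℝ) ≤ th D) hth.2).sum_le_tsum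
    (P.image (fun p => dl u p - ll u p)) (fun n _ => pow_nonneg (by linarith) n)
  refine h2.trans ?_
  rw [tsum_geometric_of_lt_one (by linarith) hth.2]
  unfold th
  have hD' : (0 : ℝ) < D := by exact_mod_cast hD
  rw [show (1 : ℝ) - (1 - 1 / (2 * D)) = 1 / (2 * D) by ring, one_div, inv_inv]

/-- two walls behind `b` whose next star on the left is at most `b` belong to the same gap -/
lemma infzl_same {u : ℤ → Sy} {p p' b : ℤ} (h1 : dl u p ≠ 0) (h1' : dl u p' ≠ 0) (h2 : b < p)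
    (h2' : b < p') (h3 : p - (dl u p : ℕ) ≤ b) (h3' : p' - (dl u p' : ℕ) ≤ b) :
    p - (dl u p : ℕ) = p' - (dl u p' : ℕ) := by
  have key : ∀ p p' : ℤ, dl u p ≠ 0 → dl u p' ≠ 0 → b < p → b < p' → p - (dl u p : ℕ) ≤ b →
      p' - (dl u p' : ℕ) ≤ b → ¬ (p - (dl u p : ℕ) < p' - (dl u p' : ℕ)) := by
    intro p p' h1 h1' h2 h2' h3 h3' hlt
    have h4 := dl_lt (u := u) (a := p) (j := (p - (p' - (dl u p' : ℕ))).toNat) (by omega)
    rw [show p - ((p - (p' - (dl u p' : ℕ))).toNat : ℕ) = p' - (dl u p' : ℕ) by omega] at h4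
    exact h4 (dl_mem h1')
  have k1 := key p p' h1 h1' h2 h2' h3 h3'
  have k2 := key p' p h1' h1 h2' h2 h3' h3
  omega

/-! ### The general bound -/

/-- the summands which may change -/
def InfBad (u : ℤ → Sy) (i : ℤ) (K : ℕ) (p : ℤ) : Prop :=
  i - K - 1 ≤ p ∧ p - (dl u p : ℕ) ≤ i + K

lemma infzl_notbad {κ : ℕ → ℝ} {t : ℝ} {u u' : ℤ → Sy} {i : ℤ} {K : ℕ}
    (h : ∀ k : ℤ, (K : ℤ) < |k - i| → u k = u' k) {p : ℤ} (hW : gW κ t u p ≠ 0)
    (hb : ¬ InfBad u i K p) : gW κ t u' p = gW κ t u p ∧ ¬ InfBad u' i K p := by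
  obtain ⟨h1, h2⟩ := infzl_Wne hW
  unfold InfBad at hb
  have hk : ∀ k : ℤ, p - (dl u p : ℕ) ≤ k → k ≤ p + 1 → u' k = u k := by
    intro k hk1 hk2
    refine (h k ?_).symm
    rcases abs_cases (k - i) with ⟨h3, _⟩ | ⟨h3, _⟩ <;> omega
  obtain ⟨e1, e2, e3⟩ := infzl_loc (κ := κ) (t := t) h1 h2 hk
  refine ⟨e1, ?_⟩
  unfold InfBad
  rw [e2]
  exact hb

lemma infzl_A {κ : ℕ → ℝ} {t : ℝ} {u u' : ℤ → Sy} {i : ℤ} {K : ℕ}
    (h : ∀ k : ℤ, (K : ℤ) < |k - i| → u k = u' k) (p : ℤ) :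
    gW κ t u p * ind (¬ InfBad u i K p) = gW κ t u' p * ind (¬ InfBad u' i K p) := by
  by_cases h1 : gW κ t u p ≠ 0 ∧ ¬ InfBad u i K p
  · obtain ⟨e1, e2⟩ := infzl_notbad h h1.1 h1.2
    rw [e1, ind_true h1.2, ind_true e2]
  · by_cases h2 : gW κ t u' p ≠ 0 ∧ ¬ InfBad u' i K p
    · obtain ⟨e1, e2⟩ := infzl_notbad (fun k hk => (h k hk).symm) h2.1 h2.2
      rw [e1, ind_true h2.2, ind_true e2]
    · have z : ∀ v : ℤ → Sy, ¬ (gW κ t v p ≠ 0 ∧ ¬ InfBad v i K p) →
          gW κ t v p * ind (¬ InfBad v i K p) = 0 := by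
        intro v hv
        by_cases h3 : gW κ t v p = 0
        · rw [h3, zero_mul]
        · rw [ind_false (fun h4 => hv ⟨h3, h4⟩), mul_zero]
      rw [z u h1, z u' h2]

lemma infzl_B (D : ℕ) (hD : 1 ≤ D) (u : ℤ → Sy) (i : ℤ) (K : ℕ) (S : Finset ℤ) :
    ∑ p ∈ S, gW (kap D) (th D) u p * ind (InfBad u i K p) ≤ 2 * K + 2 + 2 * D := by
  classical
  have hth := infzl_th hD
  set P : Finset ℤ := S.filter (fun p => i + K < p ∧ CW u p ∧ dl u p ≠ 0 ∧
    p - (dl u p : ℕ) ≤ i + K) with hP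
  have h1 : ∀ p ∈ S, gW (kap D) (th D) u p * ind (InfBad u i K p) ≤
      (if p ∈ Finset.Icc (i - K - 1) (i + K) then 1 else 0) +
        (if p ∈ P then th D ^ (dl u p - ll u p) else 0) := by
    intro p hp
    have hpow : (0 : ℝ) ≤ th D ^ (dl u p - ll u p) := pow_nonneg (by linarith) _
    by_cases hb : InfBad u i K p
    · rw [ind_true hb, mul_one]
      by_cases hw : p ≤ i + K
      · have hm : p ∈ Finset.Icc (i - K - 1) (i + K) := by
          rw [Finset.mem_Icc]
          exact ⟨hb.1, hw⟩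
        rw [if_pos hm]
        have : (0 : ℝ) ≤ (if p ∈ P then th D ^ (dl u p - ll u p) else 0) := by
          split_ifs
          · exact hpow
          · exact le_rfl
        linarith [infzl_W1 D hD u p]
      · by_cases hW : gW (kap D) (th D) u p = 0
        · rw [hW]
          have h2 : (0 : ℝ) ≤ (if p ∈ P then th D ^ (dl u p - ll u p) else 0) := by
            split_ifs
            · exact hpow
            · exact le_rfl
          have h3 : (0 : ℝ) ≤ (if p ∈ Finset.Icc (i - (K : ℤ) - 1) (i + K) then 1 else 0) := by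
            split_ifs <;> norm_num
          linarith
        · obtain ⟨c1, c2⟩ := infzl_Wne hW
          have hm : p ∈ P := by
            rw [hP, Finset.mem_filter]
            exact ⟨hp, by omega, c1, c2, hb.2⟩
          rw [if_pos hm, if_neg (by rw [Finset.mem_Icc]; omega), zero_add]
          have h2 := infzl_Wle D hD u p
          rw [ind_true ⟨c1, c2⟩, one_mul] at h2
          exact h2
    · rw [ind_false hb, mul_zero]
      have h2 : (0 : ℝ) ≤ (if p ∈ P then th D ^ (dl u p - ll u p) else 0) := by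
        split_ifs
        · exact hpow
        · exact le_rfl
      have h3 : (0 : ℝ) ≤ (if p ∈ Finset.Icc (i - (K : ℤ) - 1) (i + K) then 1 else 0) := by
        split_ifs <;> norm_num
      linarith
  refine (Finset.sum_le_sum h1).trans ?_
  rw [Finset.sum_add_distrib]
  have h2 : ∑ p ∈ S, (if p ∈ Finset.Icc (i - (K : ℤ) - 1) (i + K) then (1 : ℝ) else 0) ≤
      2 * K + 2 := by
    rw [← Finset.sum_filter, Finset.sum_const, nsmul_eq_mul, mul_one]
    have h3 : (S.filter (fun p => p ∈ Finset.Icc (i - (K : ℤ) - 1) (i + K))).card ≤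
        (Finset.Icc (i - (K : ℤ) - 1) (i + K)).card := by
      apply Finset.card_le_card
      intro p hp
      exact (Finset.mem_filter.1 hp).2
    rw [Int.card_Icc] at h3
    have h4 : (i + (K : ℤ) + 1 - (i - K - 1)).toNat = 2 * K + 2 := by omega
    rw [h4] at h3
    exact_mod_cast h3
  have h3 : ∑ p ∈ S, (if p ∈ P then th D ^ (dl u p - ll u p) else 0) ≤ 2 * D := by
    rw [← Finset.sum_filter]
    have h4 : S.filter (fun p => p ∈ P) = P := by
      ext p
      rw [Finset.mem_filter]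
      constructor
      · exact fun h => h.2
      · exact fun h => ⟨(Finset.mem_filter.1 h).1, h⟩
    rw [h4]
    rcases P.eq_empty_or_nonempty with h5 | ⟨p₀, h5⟩
    · rw [h5, Finset.sum_empty]
      positivity
    · have h6 := (Finset.mem_filter.1 h5).2
      refine infzl_gap D hD u P (p₀ - (dl u p₀ : ℕ)) fun p hp => ?_
      have h7 := (Finset.mem_filter.1 hp).2
      exact ⟨h7.2.1, h7.2.2.1, infzl_same h7.2.2.1 h6.2.2.1 h7.1 h6.1 h7.2.2.2 h6.2.2.2⟩
  linarith

lemma infzl_ZL (D : ℕ) {u : ℤ → Sy} {N : ℕ} (h : Sup N u) : ZL D u =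
    ∑ p ∈ Finset.Icc (-((N + 1 : ℕ) : ℤ)) ((N + 1 : ℕ) : ℤ), gW (kap D) (th D) u p := by
  show ∑ᶠ p, gW (kap D) (th D) u p = _
  refine fs_eq (N + 1) fun p hp => ?_
  by_contra hc
  have h1 := CW_abs h (infzl_Wne hc).1
  push_cast at hp
  rcases abs_cases p with ⟨h2, _⟩ | ⟨h2, _⟩ <;> omega

theorem infzl_gen (D : ℕ) (hD : 1 ≤ D) (K N : ℕ) (u u' : ℤ → Sy) (i : ℤ) (hu : Sup N u)
    (hu' : Sup N u') (h : ∀ k : ℤ, (K : ℤ) < |k - i| → u k = u' k) :
    |ZL D u - ZL D u'| ≤ 2 * K + 2 + 2 * D := by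
  have hs : ∀ v : ℤ → Sy, Sup N v → ZL D v =
      ∑ p ∈ Finset.Icc (-((N + 1 : ℕ) : ℤ)) ((N + 1 : ℕ) : ℤ),
        gW (kap D) (th D) v p * ind (¬ InfBad v i K p) +
      ∑ p ∈ Finset.Icc (-((N + 1 : ℕ) : ℤ)) ((N + 1 : ℕ) : ℤ),
        gW (kap D) (th D) v p * ind (InfBad v i K p) := by
    intro v hv
    rw [infzl_ZL D hv, ← Finset.sum_add_distrib]
    refine Finset.sum_congr rfl fun p _ => ?_
    rw [ind_not]
    ring
  have h0 : ∀ v : ℤ → Sy, 0 ≤ ∑ p ∈ Finset.Icc (-((N + 1 : ℕ) : ℤ)) ((N + 1 : ℕ) : ℤ),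
      gW (kap D) (th D) v p * ind (InfBad v i K p) := fun v =>
    Finset.sum_nonneg fun p _ => mul_nonneg (infzl_W0 D hD v p) (ind_nonneg _)
  rw [hs u hu, hs u' hu', Finset.sum_congr rfl fun p _ => infzl_A h p, add_sub_add_left_eq_sub,
    abs_le]
  have h1 := infzl_B D hD u i K (Finset.Icc (-((N + 1 : ℕ) : ℤ)) ((N + 1 : ℕ) : ℤ))
  have h2 := infzl_B D hD u' i K (Finset.Icc (-((N + 1 : ℕ) : ℤ)) ((N + 1 : ℕ) : ℤ))
  have h3 := h0 u
  have h4 := h0 u'
  constructor <;> linarith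

/-! ### No star near the change -/

lemma infzl_dl_congr {u u' : ℤ → Sy} (h : ∀ k : ℤ, u k = .s ↔ u' k = .s) (p : ℤ) :
    dl u' p = dl u p := by
  unfold dl
  congr 1
  ext j
  exact (h _).symm

/-- a summand which changes -/
lemma infzl_chg (D : ℕ) (hD : 1 ≤ D) {K : ℕ} {u u' : ℤ → Sy} {i : ℤ}
    (h : ∀ k : ℤ, (K : ℤ) < |k - i| → u k = u' k)
    (hn : ∀ k : ℤ, |k - i| ≤ K + 2 → u k ≠ .s) {p : ℤ}
    (hne : gW (kap D) (th D) u p ≠ gW (kap D) (th D) u' p) :
    gW (kap D) (th D) u p ≤ 2 ^ (K + 3) * Gd D u i := by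
  have hth := infzl_th hD
  have hG : 0 ≤ Gd D u i := mul_nonneg (ind_nonneg _) (pow_nonneg (by linarith) _)
  by_cases hW : gW (kap D) (th D) u p = 0
  · rw [hW]
    positivity
  obtain ⟨c1, c2⟩ := infzl_Wne hW
  have hb : InfBad u i K p := by
    by_contra hb
    exact hne (infzl_notbad h hW hb).1.symm
  have hx : u (p - (dl u p : ℕ)) = .s := dl_mem c2
  have hx1 : p - (dl u p : ℕ) < i - K - 2 := by
    by_contra hc
    refine hn _ ?_ hx
    have := hb.2
    rcases abs_cases (p - (dl u p : ℕ) - i) with ⟨h3, _⟩ | ⟨h3, _⟩ <;> omega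
  have hdi : dl u i = (i - (p - (dl u p : ℕ))).toNat := by
    apply infzl_dl
    · rw [show i - ((i - (p - (dl u p : ℕ))).toNat : ℕ) = p - (dl u p : ℕ) by omega]
      exact hx
    · intro j hj
      by_cases hj2 : i - (j : ℤ) ≤ p
      · have h3 := dl_lt (u := u) (a := p) (j := (p - (i - (j : ℤ))).toNat) (by omega)
        rw [show p - ((p - (i - (j : ℤ))).toNat : ℕ) = i - (j : ℤ) by omega] at h3
        exact h3
      · apply hn
        have := hb.1
        rcases abs_cases (i - (j : ℤ) - i) with ⟨h3, _⟩ | ⟨h3, _⟩ <;> omega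
  have hdi0 : dl u i ≠ 0 := by omega
  have hGd : Gd D u i = th D ^ dl u i := by
    unfold Gd
    rw [ind_true hdi0, one_mul]
  have hll : ll u p < 2 * D := by
    by_contra hc
    apply hW
    rcases infzl_kap_big (D := D) (l := ll u p) (by omega) with h3 | h3
    · unfold gW
      rw [h3, mul_zero, mul_zero]
    · omega
  have hl0 := ll_pos_le c1.1 c2
  have hb1 := hb.1
  have hle : dl u i ≤ (dl u p - ll u p) + ((K + 1) + 2 * D) := by omega
  have h3 : th D ^ ((dl u p - ll u p) + ((K + 1) + 2 * D)) ≤ th D ^ dl u i :=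
    pow_le_pow_of_le_one (by linarith) hth.2.le hle
  rw [pow_add, pow_add] at h3
  have h4 : (1 / 2 : ℝ) ^ (K + 1) ≤ th D ^ (K + 1) := pow_le_pow_left₀ (by norm_num) hth.1 _
  have h5 := infzl_th2D hD
  have h6 : (1 / 2 : ℝ) ^ (K + 1) * (1 / 4) ≤ th D ^ (K + 1) * th D ^ (2 * D) :=
    mul_le_mul h4 h5 (by norm_num) (pow_nonneg (by linarith) _)
  have h7 : th D ^ (dl u p - ll u p) * ((1 / 2 : ℝ) ^ (K + 1) * (1 / 4)) ≤ th D ^ dl u i :=
    (mul_le_mul_of_nonneg_left h6 (pow_nonneg (by linarith) _)).trans h3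
  have h8 : (2 : ℝ) ^ (K + 3) * ((1 / 2 : ℝ) ^ (K + 1) * (1 / 4)) = 1 := by
    rw [show K + 3 = (K + 1) + 2 by ring, pow_add (2 : ℝ)]
    have : (2 : ℝ) ^ (K + 1) * (1 / 2 : ℝ) ^ (K + 1) = 1 := by
      rw [← mul_pow]
      norm_num
    calc (2 : ℝ) ^ (K + 1) * 2 ^ 2 * ((1 / 2 : ℝ) ^ (K + 1) * (1 / 4)) =
        ((2 : ℝ) ^ (K + 1) * (1 / 2 : ℝ) ^ (K + 1)) * (2 ^ 2 * (1 / 4)) := by ring
      _ = 1 := by rw [this]; norm_num
  have h9 := infzl_Wle D hD u p
  rw [ind_true ⟨c1, c2⟩, one_mul] at h9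
  refine h9.trans ?_
  rw [hGd]
  calc th D ^ (dl u p - ll u p) = 2 ^ (K + 3) * (th D ^ (dl u p - ll u p) *
        ((1 / 2 : ℝ) ^ (K + 1) * (1 / 4))) := by
        calc th D ^ (dl u p - ll u p) = th D ^ (dl u p - ll u p) *
              (2 ^ (K + 3) * ((1 / 2 : ℝ) ^ (K + 1) * (1 / 4))) := by rw [h8, mul_one]
          _ = _ := by ring
    _ ≤ 2 ^ (K + 3) * th D ^ dl u i := mul_le_mul_of_nonneg_left h7 (by positivity)

/-- a changed summand behind the window belongs to the first wall behind the window -/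
lemma infzl_first (D : ℕ) {K : ℕ} {u u' : ℤ → Sy} {i : ℤ}
    (h : ∀ k : ℤ, (K : ℤ) < |k - i| → u k = u' k) (hst : ∀ k : ℤ, u k = .s ↔ u' k = .s) {p : ℤ}
    (hp : i + K < p) (hne : gW (kap D) (th D) u p ≠ gW (kap D) (th D) u' p) :
    CW u p ∧ ∀ k, i + K < k → k ≤ p → u k = u p := by
  have hd := infzl_dl_congr hst p
  have e : ∀ k, i + K < k → u' k = u k := fun k hk => (h k (by
    rcases abs_cases (k - i) with ⟨h3, _⟩ | ⟨h3, _⟩ <;> omega)).symm
  have hcw : CW u' p ↔ CW u p := by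
    unfold CW
    rw [e p hp, e (p + 1) (by omega)]
  have hc : CW u p ∧ dl u p ≠ 0 := by
    by_contra hc
    apply hne
    unfold gW
    rw [ind_false hc, hd, ind_false (fun h' => hc ⟨hcw.1 h'.1, h'.2⟩), zero_mul, zero_mul]
  refine ⟨hc.1, ?_⟩
  by_contra hk
  push Not at hk
  obtain ⟨k, hk1, hk2, hk3⟩ := hk
  apply hne
  have hl0 := ll_pos_le hc.1.1 hc.2
  have hlk : (ll u p : ℤ) ≤ p - k := by
    have h3 : (p - k).toNat ∈ {j : ℕ | u (p - j) ≠ u p} := by
      show u (p - ((p - k).toNat : ℕ)) ≠ u p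
      rw [show p - ((p - k).toNat : ℕ) = k by omega]
      exact hk3
    have h4 : ll u p ≤ (p - k).toNat := Nat.sInf_le h3
    omega
  have hll : ll u' p = ll u p := by
    apply infzl_ll
    · rw [e _ (by omega), e p hp]
      exact infzl_ll_mem hl0.1
    · intro j hj
      rw [e _ (by omega), e p hp]
      exact infzl_ll_lt hj
  unfold gW
  rw [hd, hll, ind_congr (show (CW u' p ∧ dl u p ≠ 0) ↔ (CW u p ∧ dl u p ≠ 0) by rw [hcw])]

theorem infzl_nost (D : ℕ) (hD : 1 ≤ D) (K N : ℕ) (u u' : ℤ → Sy) (i : ℤ) (hu : Sup N u)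
    (hu' : Sup N u') (h : ∀ k : ℤ, (K : ℤ) < |k - i| → u k = u' k)
    (hn : ∀ k : ℤ, |k - i| ≤ K + 2 → u k ≠ .s ∧ u' k ≠ .s) :
    |ZL D u - ZL D u'| ≤ (2 * K + 3) * 2 ^ (K + 3) * Gd D u i := by
  classical
  have hth := infzl_th hD
  have hst : ∀ k : ℤ, u k = .s ↔ u' k = .s := by
    intro k
    by_cases hk : |k - i| ≤ K + 2
    · exact ⟨fun h1 => absurd h1 (hn k hk).1, fun h1 => absurd h1 (hn k hk).2⟩
    · rw [h k (by omega)]
  have hG : 0 ≤ Gd D u i := mul_nonneg (ind_nonneg _) (pow_nonneg (by linarith) _)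
  have hGd : Gd D u' i = Gd D u i := by
    unfold Gd
    rw [infzl_dl_congr hst]
  rw [infzl_ZL D hu, infzl_ZL D hu', ← Finset.sum_sub_distrib]
  refine (Finset.abs_sum_le_sum_abs _ _).trans ?_
  set S := Finset.Icc (-((N + 1 : ℕ) : ℤ)) ((N + 1 : ℕ) : ℤ) with hS
  set T := S.filter (fun p => gW (kap D) (th D) u p ≠ gW (kap D) (th D) u' p) with hT
  have h1 : ∑ p ∈ S, |gW (kap D) (th D) u p - gW (kap D) (th D) u' p| =
      ∑ p ∈ T, |gW (kap D) (th D) u p - gW (kap D) (th D) u' p| := by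
    symm
    refine Finset.sum_subset (Finset.filter_subset _ _) fun p hp hpT => ?_
    have : gW (kap D) (th D) u p = gW (kap D) (th D) u' p := by
      by_contra hc
      exact hpT (Finset.mem_filter.2 ⟨hp, hc⟩)
    rw [this, sub_self, abs_zero]
  rw [h1]
  have h2 : ∀ p ∈ T, |gW (kap D) (th D) u p - gW (kap D) (th D) u' p| ≤
      2 ^ (K + 3) * Gd D u i := by
    intro p hp
    have hne := (Finset.mem_filter.1 hp).2
    have a1 := infzl_chg D hD h (fun k hk => (hn k hk).1) hne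
    have a2 := infzl_chg D hD (fun k hk => (h k hk).symm) (fun k hk => (hn k hk).2) hne.symm
    rw [hGd] at a2
    have b1 := infzl_W0 D hD u p
    have b2 := infzl_W0 D hD u' p
    rw [abs_le]
    constructor <;> linarith
  have h3 : T.card ≤ 2 * K + 3 := by
    set T1 := T.filter (fun p => i + K < p) with hT1
    have h4 : T ⊆ Finset.Icc (i - K - 1) (i + K) ∪ T1 := by
      intro p hp
      rw [Finset.mem_union]
      by_cases hp1 : i + K < p
      · exact Or.inr (Finset.mem_filter.2 ⟨hp, hp1⟩)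
      · left
        rw [Finset.mem_Icc]
        refine ⟨?_, by omega⟩
        by_contra hc
        have hne := (Finset.mem_filter.1 hp).2
        have hb : ∀ v : ℤ → Sy, ¬ InfBad v i K p := fun v hv => by
          have := hv.1
          omega
        by_cases hW : gW (kap D) (th D) u p = 0
        · have hW' : gW (kap D) (th D) u' p ≠ 0 := fun h' => hne (by rw [hW, h'])
          exact hne (infzl_notbad (fun k hk => (h k hk).symm) hW' (hb u')).1
        · exact hne (infzl_notbad h hW (hb u)).1.symm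
    have h5 : T1.card ≤ 1 := by
      rw [Finset.card_le_one]
      have key : ∀ p ∈ T1, ∀ p' ∈ T1, ¬ p < p' := by
        intro p hp p' hp' hlt
        have q1 := Finset.mem_filter.1 hp
        have q2 := Finset.mem_filter.1 hp'
        have r1 := infzl_first D h hst q1.2 (Finset.mem_filter.1 q1.1).2
        have r2 := infzl_first D h hst q2.2 (Finset.mem_filter.1 q2.1).2
        exact r1.1.2.2 ((r2.2 p q1.2 (by omega)).trans (r2.2 (p + 1) (by omega) (by omega)).symm)
      intro p hp p' hp'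
      have := key p hp p' hp'
      have := key p' hp' p hp
      omega
    have h6 := (Finset.card_le_card h4).trans (Finset.card_union_le _ _)
    rw [Int.card_Icc] at h6
    omega
  calc ∑ p ∈ T, |gW (kap D) (th D) u p - gW (kap D) (th D) u' p| ≤
        ∑ p ∈ T, 2 ^ (K + 3) * Gd D u i := Finset.sum_le_sum h2
    _ = T.card * (2 ^ (K + 3) * Gd D u i) := by rw [Finset.sum_const, nsmul_eq_mul]
    _ ≤ (2 * K + 3) * (2 ^ (K + 3) * Gd D u i) := by
        refine mul_le_mul_of_nonneg_right ?_ (by positivity)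
        exact_mod_cast h3
    _ = _ := by ring

/-! ### Nucleation -/

/-- a summand depends only on the sites on the left of the wall -/
lemma infzl_left {κ : ℕ → ℝ} {t : ℝ} {u u' : ℤ → Sy} {p : ℤ} (h : ∀ k ≤ p + 1, u' k = u k) :
    gW κ t u' p = gW κ t u p := by
  have e : ∀ j : ℕ, u' (p - j) = u (p - j) := fun j => h _ (by omega)
  have e0 : u' p = u p := h p (by omega)
  have hd : dl u' p = dl u p := by
    unfold dl
    congr 1
    ext j
    show u' (p - j) = .s ↔ u (p - j) = .s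
    rw [e]
  have hl : ll u' p = ll u p := by
    unfold ll
    congr 1
    ext j
    show u' (p - j) ≠ u' p ↔ u (p - j) ≠ u p
    rw [e, e0]
  unfold gW
  rw [hd, hl]
  congr 1
  apply ind_congr
  unfold CW
  rw [e0, h (p + 1) le_rfl]

lemma infzl_nuc0 {κ : ℕ → ℝ} {t : ℝ} {u u' : ℤ → Sy} {a : ℤ} (hs : u (a - 1) = .s)
    (h0 : u a = .s) (h1 : u (a + 1) = .s) (h2 : u (a + 2) = .s)
    (h : ∀ k, k ≠ a → k ≠ a + 1 → u' k = u k) (he : u' a = u' (a + 1)) (p : ℤ) :
    gW κ t u' p = gW κ t u p := by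
  have hz : ∀ (v : ℤ → Sy), ¬ CW v p → gW κ t v p = 0 := by
    intro v hv
    unfold gW
    rw [ind_false (fun h' => hv h'.1), zero_mul]
  rcases lt_or_ge p (a - 1) with hp | hp
  · exact infzl_left fun k hk => h k (by omega) (by omega)
  rcases lt_or_ge (a + 2) p with hp2 | hp2
  · have e0 : u' p = u p := h p (by omega) (by omega)
    have e1 : u' (p + 1) = u (p + 1) := h (p + 1) (by omega) (by omega)
    by_cases hc : CW u p
    · have hd : dl u p ≠ 0 := by
        intro h3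
        rw [dl_zero_iff hc.1] at h3
        exact h3 (a + 2) (by omega) h2
      have hd2 : a + 2 ≤ p - (dl u p : ℕ) := by
        by_contra h3
        have h4 := dl_lt (u := u) (a := p) (j := (p - (a + 2)).toNat) (by omega)
        rw [show p - ((p - (a + 2)).toNat : ℕ) = a + 2 by omega] at h4
        exact h4 h2
      exact (infzl_loc hc hd fun k hk _ => h k (by omega) (by omega)).1
    · rw [hz u hc, hz u' (fun h3 => hc (by unfold CW at h3 ⊢; rw [e0, e1] at h3; exact h3))]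
  · have hu : ¬ CW u p := by
      rintro ⟨c1, -, -⟩
      have : p = a - 1 ∨ p = a ∨ p = a + 1 ∨ p = a + 2 := by omega
      rcases this with h3 | h3 | h3 | h3 <;> rw [h3] at c1
      · exact c1 hs
      · exact c1 h0
      · exact c1 h1
      · exact c1 h2
    have hu' : ¬ CW u' p := by
      rintro ⟨c1, c2, c3⟩
      have : p = a - 1 ∨ p = a ∨ p = a + 1 ∨ p = a + 2 := by omega
      rcases this with h3 | h3 | h3 | h3 <;> rw [h3] at c1 c2 c3
      · exact c1 (by rw [h _ (by omega) (by omega)]; exact hs)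
      · exact c3 he
      · rw [show a + 1 + 1 = a + 2 by ring] at c2
        exact c2 (by rw [h _ (by omega) (by omega)]; exact h2)
      · exact c1 (by rw [h _ (by omega) (by omega)]; exact h2)
    rw [hz u hu, hz u' hu']

theorem infzl_nuc (D : ℕ) {K : ℕ} (hK : 2 ≤ K) {u : ℤ → Sy} {i y : ℤ} (b : Bool)
    (hy : |y - i| = 1) (h : ∀ k : ℤ, |k - i| ≤ K → u k = .s) :
    ZL D (Function.update (Function.update u i (bs b)) y (bs b)) = ZL D u := by
  show ∑ᶠ p, gW (kap D) (th D) _ p = ∑ᶠ p, gW (kap D) (th D) _ p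
  refine finsum_congr fun p => ?_
  have hn : ∀ k : ℤ, -2 ≤ k - i → k - i ≤ 2 → u k = .s := by
    intro k h1 h2
    apply h
    rcases abs_cases (k - i) with ⟨h3, _⟩ | ⟨h3, _⟩ <;> omega
  have hyi : y = i + 1 ∨ y = i - 1 := by
    rcases abs_cases (y - i) with ⟨h3, _⟩ | ⟨h3, _⟩ <;> omega
  rcases hyi with hyi | hyi
  · apply infzl_nuc0 (a := i) (hn _ (by omega) (by omega)) (hn _ (by omega) (by omega))
      (hn _ (by omega) (by omega)) (hn _ (by omega) (by omega))
    · intro k hk1 hk2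
      rw [Function.update_of_ne (by omega), Function.update_of_ne hk1]
    · rw [hyi, Function.update_self, Function.update_of_ne (by omega), Function.update_self]
  · apply infzl_nuc0 (a := y) (hn _ (by omega) (by omega)) (hn _ (by omega) (by omega))
      (hn _ (by omega) (by omega)) (hn _ (by omega) (by omega))
    · intro k hk1 hk2
      rw [Function.update_of_ne hk1, Function.update_of_ne (by omega)]
    · rw [show y + 1 = i by omega, Function.update_self, Function.update_of_ne (by omega),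
        Function.update_self]

theorem thm_InfZL (m : ℕ) (_hm : 1 ≤ m) : St_InfZL m := by
  obtain ⟨K, hK⟩ : ∃ K : ℕ, K = KK m := ⟨_, rfl⟩
  have hK2 : 2 ≤ K := by
    rw [hK]
    unfold KK
    omega
  refine ⟨(2 * K + 4) * 2 ^ (K + 3), by positivity, fun D hD => ?_⟩
  have hD1 : 1 ≤ D := by omega
  have hD' : (1 : ℝ) ≤ D := by exact_mod_cast hD1
  have hp : (1 : ℝ) ≤ 2 ^ (K + 3) := one_le_pow₀ (by norm_num)
  have hK0 : (0 : ℝ) ≤ K := Nat.cast_nonneg K
  constructor
  · intro u u' N i _ _ hu hu' h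
    rw [← hK] at h
    refine (infzl_gen D hD1 K N u u' i hu hu' h).trans ?_
    have h1 : (2 : ℝ) * K + 2 + 2 * D ≤ (2 * K + 4) * D := by nlinarith
    have h2 : ((2 : ℝ) * K + 4) * D ≤ (2 * K + 4) * 2 ^ (K + 3) * D := by
      have : (2 : ℝ) * K + 4 ≤ (2 * K + 4) * 2 ^ (K + 3) :=
        le_mul_of_one_le_right (by positivity) hp
      exact mul_le_mul_of_nonneg_right this (by positivity)
    exact h1.trans h2
  · intro u u' N i _ _ hu hu' h hn
    rw [← hK] at h hn
    refine (infzl_nost D hD1 K N u u' i hu hu' h hn).trans ?_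
    have hth := infzl_th hD1
    have hG : 0 ≤ Gd D u i := mul_nonneg (ind_nonneg _) (pow_nonneg (by linarith) _)
    refine mul_le_mul_of_nonneg_right ?_ hG
    refine mul_le_mul_of_nonneg_right ?_ (by positivity)
    linarith
  · intro u N i y b _ _ hy h
    rw [← hK] at h
    rw [infzl_nuc D hK2 b hy h, sub_self]

end Pool.Agent.T3M
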