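import Mathlib
import Pool.Agent.T3M.PE
import Pool.Agent.T3M.St

/-! Relaxation ends in a root (helper91). -/

set_option autoImplicit false

namespace Pool.Agent.T3M

/-- the site `i` is unstable -/
def Us (x : ℤ → Bool) (i : ℤ) : Prop := x (i - 1) ≠ x i ∧ x (i + 1) ≠ x i

lemma Us_Mb {x : ℤ → Bool} {i : ℤ} (h : Us (Mb x) i) : Us x (i - 1) ∧ Us x i ∧ Us x (i + 1) := by
  unfold Us Mb at h
  rw [show i - 1 - 1 = i - 2 by ring, show i - 1 + 1 = i by ring, show i + 1 - 1 = i by ring,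
    show i + 1 + 1 = i + 2 by ring] at h
  unfold Us
  rw [show i - 1 - 1 = i - 2 by ring, show i - 1 + 1 = i by ring, show i + 1 - 1 = i by ring,
    show i + 1 + 1 = i + 2 by ring]
  revert h
  cases x (i - 2) <;> cases x (i - 1) <;> cases x i <;> cases x (i + 1) <;> cases x (i + 2) <;>
    simp [maj3]

lemma Us_iter {x : ℤ → Bool} (n : ℕ) {i : ℤ} (h : Us (Mb^[n] x) i) :
    ∀ j : ℤ, |j - i| ≤ (n : ℤ) → Us x j := by
  induction n generalizing i with
  | zero =>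
    intro j hj
    have h1 : j = i := by
      rcases abs_cases (j - i) with ⟨h2, _⟩ | ⟨h2, _⟩ <;> simp at hj <;> omega
    rw [h1]
    exact h
  | succ n ih =>
    rw [Function.iterate_succ_apply'] at h
    obtain ⟨h1, h2, h3⟩ := Us_Mb h
    intro j hj
    push_cast at hj
    rcases lt_trichotomy j i with h4 | h4 | h4
    · exact ih h1 j (by
        rcases abs_cases (j - i) with ⟨h5, _⟩ | ⟨h5, _⟩ <;>
          rcases abs_cases (j - (i - 1)) with ⟨h6, _⟩ | ⟨h6, _⟩ <;> omega)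
    · exact ih h2 j (by rw [h4]; simp)
    · exact ih h3 j (by
        rcases abs_cases (j - i) with ⟨h5, _⟩ | ⟨h5, _⟩ <;>
          rcases abs_cases (j - (i + 1)) with ⟨h6, _⟩ | ⟨h6, _⟩ <;> omega)

lemma Rtb_of_not_Us {x : ℤ → Bool} (h : ∀ i, ¬ Us x i) : Rtb x := by
  rw [rtb_iff]
  intro i
  by_contra hc
  apply h i
  unfold Us
  rw [not_or] at hc
  exact ⟨fun h => hc.1 h.symm, fun h => hc.2 h.symm⟩

lemma not_Us_of_root {x : ℤ → Bool} (h : Rtb x) (i : ℤ) : ¬ Us x i := by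
  rintro ⟨h1, h2⟩
  rcases h.nb i with h3 | h3
  · exact h1 h3.symm
  · exact h2 h3.symm

lemma x1_rel (n : ℕ) (u : ℤ → Sy) : x1 (rel n u) = Mb^[n] (x1 u) := by
  induction n with
  | zero => rfl
  | succ n ih => rw [rel_succ_out, x1_M, ih, Function.iterate_succ_apply']

lemma x0_rel (n : ℕ) (u : ℤ → Sy) : x0 (rel n u) = Mb^[n] (x0 u) := by
  induction n with
  | zero => rfl
  | succ n ih => rw [rel_succ_out, x0_M, ih, Function.iterate_succ_apply']

/-- without unstable intervals of radius `n` the configuration relaxes in `n` steps -/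
lemma rel_of_not_Us {u : ℤ → Sy} {n : ℕ} (h1 : ∀ i, ∃ j : ℤ, |j - i| ≤ (n : ℤ) ∧ ¬ Us (x1 u) j)
    (h0 : ∀ i, ∃ j : ℤ, |j - i| ≤ (n : ℤ) ∧ ¬ Us (x0 u) j) : Rt (rel n u) := by
  rw [rt_iff, x1_rel, x0_rel]
  refine ⟨Rtb_of_not_Us fun i hi => ?_, Rtb_of_not_Us fun i hi => ?_⟩
  · obtain ⟨j, hj, hn⟩ := h1 i
    exact hn (Us_iter n hi j hj)
  · obtain ⟨j, hj, hn⟩ := h0 i
    exact hn (Us_iter n hi j hj)

theorem thm_Root : St_Root := by
  intro u N n hS hn
  refine ⟨?_, hS.rel n⟩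
  have key : ∀ (x : ℤ → Bool), (∀ i : ℤ, (N : ℤ) < |i| → x i = false) →
      ∀ i, ∃ j : ℤ, |j - i| ≤ (n : ℤ) ∧ ¬ Us x j := by
    intro x hx i
    have hout : ∀ j : ℤ, (N : ℤ) + 1 < |j| → ¬ Us x j := by
      rintro j hj ⟨h1, _⟩
      apply h1
      rw [hx j (by omega), hx (j - 1) (by
        rcases abs_cases j with ⟨h5, _⟩ | ⟨h5, _⟩ <;>
          rcases abs_cases (j - 1) with ⟨h6, _⟩ | ⟨h6, _⟩ <;> omega)]
    rcases le_total 0 i with hi | hi
    · refine ⟨i + n, by rw [show i + (n : ℤ) - i = n by ring]; simp, hout _ ?_⟩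
      rw [abs_of_nonneg (by omega)]
      omega
    · refine ⟨i - n, by rw [show i - (n : ℤ) - i = -n by ring]; simp, hout _ ?_⟩
      rw [abs_of_nonpos (by omega)]
      omega
  apply rel_of_not_Us
  · apply key
    intro i hi
    unfold x1
    rw [hS i hi]; rfl
  · apply key
    intro i hi
    unfold x0
    rw [hS i hi]; rfl

end Pool.Agent.T3M
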