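import Mathlib
import Pool.Agent.T3M.MRoot

/-! Good noise has no long alternating pieces, and relaxation is fast (helper78). -/

set_option autoImplicit false

namespace Pool.Agent.T3M

/-- a binary process driven by the noise `w` -/
def BP (w : Nz) (X : ℕ → ℤ → Bool) : Prop :=
  ∀ t i, X (t + 1) i = match w t i with
    | none => Mb (X t) i
    | some b => b

lemma l1_eq_step {w : Nz} {X : ℕ → ℤ → Bool} (hX : BP w X) {t : ℕ} {j : ℤ}
    (h : X t j = X t (j + 1)) (h0 : w t j = none) (h1 : w t (j + 1) = none) :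
    X (t + 1) j = X (t + 1) (j + 1) := by
  rw [hX, hX, h0, h1]
  show maj3 (X t (j - 1)) (X t j) (X t (j + 1)) =
    maj3 (X t (j + 1 - 1)) (X t (j + 1)) (X t (j + 1 + 1))
  rw [show j + 1 - 1 = j by ring, ← h]
  cases X t (j - 1) <;> cases X t j <;> cases X t (j + 1 + 1) <;> rfl

/-- equal pairs persist -/
lemma l1_pers {w : Nz} {X : ℕ → ℤ → Bool} (hX : BP w X) {s : ℕ} {j : ℤ} (n : ℕ)
    (h : X s j = X s (j + 1))
    (h0 : ∀ a, s ≤ a → a < s + n → w a j = none ∧ w a (j + 1) = none) :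
    X (s + n) j = X (s + n) (j + 1) := by
  induction n with
  | zero => exact h
  | succ n ih =>
    have h1 := ih fun a ha hb => h0 a ha (by omega)
    obtain ⟨h2, h3⟩ := h0 (s + n) (by omega) (by omega)
    exact l1_eq_step hX h1 h2 h3

/-- the number of equal pairs in `[i, i + n)` at the time `s`, if there are none at the time `t` -/
lemma l1_card {w : Nz} {X : ℕ → ℤ → Bool} (hX : BP w X) {k W H : ℕ} (hk : 1 ≤ k)
    (hW : 4 * k ≤ W) (hG : GoodB k W H w)
    {s t : ℕ} {i : ℤ} (hst : s ≤ t) (htH : t ≤ s + H)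
    (halt : ∀ j : ℤ, i ≤ j → j < i + 4 * k - 1 → X t j ≠ X t (j + 1)) (E : Finset ℤ)
    (hE : ∀ j ∈ E, i ≤ j ∧ j < i + 4 * k - 1 ∧ X s j = X s (j + 1)) : E.card ≤ 2 * k - 2 := by
  classical
  set S : Finset (ℕ × ℤ) := (Finset.Ico s t ×ˢ Finset.Ico i (i + 4 * k)).filter
    (fun c => w c.1 c.2 ≠ none) with hS
  have hcard : S.card < k := by
    apply hG t i S
    intro c hc
    rw [hS, Finset.mem_filter, Finset.mem_product, Finset.mem_Ico, Finset.mem_Ico] at hc
    refine ⟨⟨hc.1.1.2, by omega, ?_⟩, hc.2⟩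
    rw [abs_le]
    constructor <;> omega
  have hsub : E ⊆ S.image Prod.snd ∪ S.image (fun c => c.2 - 1) := by
    intro j hj
    obtain ⟨h1, h2, h3⟩ := hE j hj
    by_contra hcon
    rw [Finset.mem_union, not_or, Finset.mem_image, Finset.mem_image] at hcon
    obtain ⟨h4, h5⟩ := hcon
    obtain ⟨n, rfl⟩ := Nat.exists_eq_add_of_le hst
    refine halt j h1 h2 (l1_pers hX n h3 fun a ha hb => ⟨?_, ?_⟩)
    · by_contra h6
      exact h4 ⟨(a, j), by
        rw [hS, Finset.mem_filter, Finset.mem_product, Finset.mem_Ico, Finset.mem_Ico]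
        exact ⟨⟨⟨ha, hb⟩, h1, by omega⟩, h6⟩, rfl⟩
    · by_contra h6
      exact h5 ⟨(a, j + 1), by
        rw [hS, Finset.mem_filter, Finset.mem_product, Finset.mem_Ico, Finset.mem_Ico]
        exact ⟨⟨⟨ha, hb⟩, by dsimp only; omega, by dsimp only; omega⟩, h6⟩, by dsimp only; ring⟩
  have h7 := Finset.card_le_card hsub
  have h8 := Finset.card_union_le (S.image Prod.snd) (S.image (fun c => c.2 - 1))
  have h9 : (S.image Prod.snd).card ≤ S.card := Finset.card_image_le
  have h10 : (S.image (fun c : ℕ × ℤ => c.2 - 1)).card ≤ S.card := Finset.card_image_le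
  omega

/-- few equal pairs give an unstable site -/
lemma l1_unst {x : ℤ → Bool} {k : ℕ} {i : ℤ} (hk : 1 ≤ k)
    (h : ∀ E : Finset ℤ, (∀ j ∈ E, i ≤ j ∧ j < i + 4 * k - 1 ∧ x j = x (j + 1)) →
      E.card ≤ 2 * k - 2) : ∃ j : ℤ, i < j ∧ j < i + 4 * k - 1 ∧ Us x j := by
  classical
  by_contra hcon
  push Not at hcon
  have h1 : ∀ r : ℕ, r < 2 * k - 1 → ∃ j : ℤ, (j = i + 2 * r ∨ j = i + 2 * r + 1) ∧
      x j = x (j + 1) := by
    intro r hr
    by_contra h2
    push Not at h2
    have h3 := h2 (i + 2 * r) (Or.inl rfl)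
    have h4 := h2 (i + 2 * r + 1) (Or.inr rfl)
    apply hcon (i + 2 * r + 1) (by omega) (by omega)
    refine ⟨?_, fun h5 => h4 h5.symm⟩
    rw [show i + 2 * (r : ℤ) + 1 - 1 = i + 2 * r by ring]
    exact h3
  choose! f hf using h1
  have h2 := h ((Finset.range (2 * k - 1)).image f) (by
    intro j hj
    rw [Finset.mem_image] at hj
    obtain ⟨r, hr, rfl⟩ := hj
    rw [Finset.mem_range] at hr
    obtain ⟨h3, h4⟩ := hf r hr
    refine ⟨?_, ?_, h4⟩
    · rcases h3 with h3 | h3 <;> omega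
    · rcases h3 with h3 | h3 <;> omega)
  rw [Finset.card_image_of_injOn, Finset.card_range] at h2
  · omega
  · intro r hr r' hr' hrr
    rw [Finset.coe_range, Set.mem_Iio] at hr hr'
    have h3 := (hf r hr).1
    have h4 := (hf r' hr').1
    have h5 : f r = f r' := hrr
    rcases h3 with h3 | h3 <;> rcases h4 with h4 | h4 <;> omega

/-- without marks unstable sites spread backwards -/
lemma l1_back {w : Nz} {X : ℕ → ℤ → Bool} (hX : BP w X) {j : ℤ} (n : ℕ) : ∀ (s : ℕ) (i : ℤ),
    (∀ (a : ℕ) (l : ℤ), s ≤ a → a < s + n → |l - i| ≤ (n : ℤ) + 1 → w a l = none) →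
    Us (X (s + n)) i → |j - i| ≤ (n : ℤ) → Us (X s) j := by
  induction n with
  | zero =>
    intro s i _ h hj
    have h1 : j = i := by
      have := abs_nonneg (j - i)
      have h2 : |j - i| = 0 := by
        push_cast at hj
        omega
      have := abs_eq_zero.1 h2
      omega
    rw [h1]
    exact h
  | succ n ih =>
    intro s i hw h hj
    -- the last step
    have hlast : ∀ l : ℤ, |l - i| ≤ 1 → X (s + n + 1) l = Mb (X (s + n)) l := by
      intro l hl
      rw [hX, hw (s + n) l (by omega) (by omega) (by push_cast; omega)]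
    have h1 : Us (Mb (X (s + n))) i := by
      have h2 : Us (X (s + n + 1)) i := h
      unfold Us at h2 ⊢
      rw [hlast (i - 1) (by rw [show i - 1 - i = -1 by ring]; norm_num), hlast i (by simp),
        hlast (i + 1) (by rw [show i + 1 - i = 1 by ring]; norm_num)] at h2
      exact h2
    obtain ⟨h2, h3, h4⟩ := Us_Mb h1
    have hw' : ∀ i' : ℤ, |i' - i| ≤ 1 → ∀ (a : ℕ) (l : ℤ), s ≤ a → a < s + n →
        |l - i'| ≤ (n : ℤ) + 1 → w a l = none := by
      intro i' hi' a l ha hb hl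
      apply hw a l ha (by omega)
      push_cast
      rw [abs_le] at *
      constructor <;> omega
    push_cast at hj
    rcases lt_trichotomy j i with h5 | h5 | h5
    · refine ih s (i - 1) (hw' _ (by rw [show i - 1 - i = -1 by ring]; norm_num)) h2 ?_
      rw [abs_le] at *
      constructor <;> omega
    · refine ih s i (hw' _ (by simp)) h3 ?_
      rw [h5]
      simp
    · refine ih s (i + 1) (hw' _ (by rw [show i + 1 - i = 1 by ring]; norm_num)) h4 ?_
      rw [abs_le] at *
      constructor <;> omega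

/-- a block of slices without marks -/
lemma l1_free {w : Nz} {k W H : ℕ} (hH : HH k ≤ H) (hG : GoodB k W H w) {t : ℕ} (ht : HH k ≤ t)
    (i : ℤ) : ∃ s : ℕ, t ≤ s + HH k ∧ s + (4 * k + 1) ≤ t ∧
      ∀ (a : ℕ) (l : ℤ), s ≤ a → a < s + (4 * k + 1) → |l - i| ≤ (W : ℤ) → w a l = none := by
  classical
  by_contra hcon
  push Not at hcon
  have hHk : HH k = k * (4 * k + 1) := rfl
  have h1 : ∀ r : ℕ, r < k → ∃ c : ℕ × ℤ, t - HH k + r * (4 * k + 1) ≤ c.1 ∧
      c.1 < t - HH k + r * (4 * k + 1) + (4 * k + 1) ∧ |c.2 - i| ≤ (W : ℤ) ∧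
      w c.1 c.2 ≠ none := by
    intro r hr
    have h2 : r * (4 * k + 1) + (4 * k + 1) ≤ HH k := by
      rw [hHk]
      calc r * (4 * k + 1) + (4 * k + 1) = (r + 1) * (4 * k + 1) := by ring
        _ ≤ k * (4 * k + 1) := Nat.mul_le_mul_right _ hr
    obtain ⟨a, l, h3, h4, h5, h6⟩ := hcon (t - HH k + r * (4 * k + 1)) (by omega) (by omega)
    exact ⟨(a, l), h3, h4, h5, h6⟩
  choose! f hf using h1
  have h2 := hG t i ((Finset.range k).image f) (by
    intro c hc
    rw [Finset.mem_image] at hc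
    obtain ⟨r, hr, rfl⟩ := hc
    rw [Finset.mem_range] at hr
    obtain ⟨h3, h4, h5, h6⟩ := hf r hr
    have h2 : r * (4 * k + 1) + (4 * k + 1) ≤ HH k := by
      rw [hHk]
      calc r * (4 * k + 1) + (4 * k + 1) = (r + 1) * (4 * k + 1) := by ring
        _ ≤ k * (4 * k + 1) := Nat.mul_le_mul_right _ hr
    exact ⟨⟨by omega, by omega, h5⟩, h6⟩)
  rw [Finset.card_image_of_injOn, Finset.card_range] at h2
  · omega
  · intro r hr r' hr' hrr
    rw [Finset.coe_range, Set.mem_Iio] at hr hr'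
    obtain ⟨h3, h4, _, _⟩ := hf r hr
    obtain ⟨h5, h6, _, _⟩ := hf r' hr'
    have h7 : f r = f r' := hrr
    rw [h7] at h3 h4
    by_contra hne
    rcases Nat.lt_or_gt_of_ne hne with h8 | h8
    · have h9 : r * (4 * k + 1) + (4 * k + 1) ≤ r' * (4 * k + 1) := by
        calc r * (4 * k + 1) + (4 * k + 1) = (r + 1) * (4 * k + 1) := by ring
          _ ≤ r' * (4 * k + 1) := Nat.mul_le_mul_right _ h8
      omega
    · have h9 : r' * (4 * k + 1) + (4 * k + 1) ≤ r * (4 * k + 1) := by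
        calc r' * (4 * k + 1) + (4 * k + 1) = (r' + 1) * (4 * k + 1) := by ring
          _ ≤ r * (4 * k + 1) := Nat.mul_le_mul_right _ h8
      omega

/-- no long alternating pieces -/
lemma l1_main {w : Nz} {X : ℕ → ℤ → Bool} (hX : BP w X) {L : ℕ}
    (h0 : ∀ j : ℤ, X 0 j ≠ X 0 (j + 1) → j = L ∨ j = -(L : ℤ) - 1) {k W H : ℕ} (hk : 1 ≤ k)
    (hH : HH k ≤ H) (hW : H + 4 * k ≤ W) (hG : GoodB k W H w) (t : ℕ) : ∀ i : ℤ,
    ∃ j : ℤ, i ≤ j ∧ j < i + 4 * k - 1 ∧ X t j = X t (j + 1) := by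
  classical
  induction t using Nat.strong_induction_on with
  | _ t ih =>
    intro i
    by_contra hcon
    push Not at hcon
    have hHk : HH k = k * (4 * k + 1) := rfl
    rcases Nat.lt_or_ge t (HH k) with hsm | hbig
    · -- small times
      have h1 := l1_card hX hk (by omega) hG (Nat.zero_le t) (by omega) hcon
        ((Finset.Ico i (i + 4 * k - 1)).erase L |>.erase (-(L : ℤ) - 1)) (by
          intro j hj
          rw [Finset.mem_erase, Finset.mem_erase, Finset.mem_Ico] at hj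
          refine ⟨hj.2.2.1, hj.2.2.2, ?_⟩
          by_contra h2
          rcases h0 j h2 with h3 | h3
          · exact hj.2.1 h3
          · exact hj.1 h3)
      have h2 := Finset.pred_card_le_card_erase (s := (Finset.Ico i (i + 4 * k - 1)).erase (L : ℤ))
        (a := -(L : ℤ) - 1)
      have h3 := Finset.pred_card_le_card_erase (s := Finset.Ico i (i + 4 * (k : ℤ) - 1))
        (a := (L : ℤ))
      rw [Int.card_Ico] at h3
      omega
    · obtain ⟨s, hs1, hs2, hs3⟩ := l1_free hH hG hbig i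
      obtain ⟨j, hj1, hj2, hj3⟩ := l1_unst (x := X (s + (4 * k + 1))) hk fun E hE =>
        l1_card hX hk (by omega) hG hs2 (by omega) hcon E hE
      -- go back `2 k` steps
      have hback : ∀ l : ℤ, |l - j| ≤ 2 * (k : ℤ) → Us (X (s + (2 * k + 1))) l := by
        intro l hl
        refine l1_back hX (2 * k) (s + (2 * k + 1)) j ?_ ?_ (by push_cast; exact hl)
        · intro a l' ha hb hl'
          apply hs3 a l' (by omega) (by omega)
          push_cast at hl'
          have hsq : 6 * k + 1 ≤ W := by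
            have : HH k + 4 * k ≤ W := by omega
            rw [hHk] at this
            nlinarith
          rw [abs_le] at *
          constructor <;> omega
        · have h4 : s + (2 * k + 1) + 2 * k = s + (4 * k + 1) := by ring
          rw [h4]
          exact hj3
      obtain ⟨l, hl1, hl2, hl3⟩ := ih (s + (2 * k + 1)) (by omega) (j - 2 * k)
      exact (hback l (by rw [abs_le]; constructor <;> omega)).2 hl3.symm

lemma l1_BP1 (L : ℕ) (w : Nz) : BP w (fun t => x1 (cf L w t)) := by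
  intro t i
  show (cf L w (t + 1) i).hi = _
  rw [cf_succ]
  rcases w t i with _ | b
  · exact med_hi _ _ _
  · exact bs_hi b

lemma l1_BP0 (L : ℕ) (w : Nz) : BP w (fun t => x0 (cf L w t)) := by
  intro t i
  show (cf L w (t + 1) i).lo = _
  rw [cf_succ]
  rcases w t i with _ | b
  · exact med_lo _ _ _
  · exact bs_lo b

lemma l1_root {w : Nz} {L k : ℕ} {t : ℕ}
    (h1 : ∀ i : ℤ, ∃ j : ℤ, i ≤ j ∧ j < i + 4 * k - 1 ∧
      x1 (cf L w t) j = x1 (cf L w t) (j + 1))
    (h0 : ∀ i : ℤ, ∃ j : ℤ, i ≤ j ∧ j < i + 4 * k - 1 ∧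
      x0 (cf L w t) j = x0 (cf L w t) (j + 1)) : Rt (rel (2 * k) (cf L w t)) := by
  apply rel_of_not_Us
  · intro i
    obtain ⟨j, hj1, hj2, hj3⟩ := h1 (i - 2 * k)
    refine ⟨j, ?_, fun h => h.2 hj3.symm⟩
    push_cast
    rw [abs_le]
    constructor <;> omega
  · intro i
    obtain ⟨j, hj1, hj2, hj3⟩ := h0 (i - 2 * k)
    refine ⟨j, ?_, fun h => h.2 hj3.symm⟩
    push_cast
    rw [abs_le]
    constructor <;> omega

/-- **L1.** -/
theorem thm_L1 : St_L1 := by
  intro k W H L w hk hH hW hG t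
  apply l1_root
  · apply l1_main (l1_BP1 L w) (L := L) _ hk hH hW hG
    intro j hj
    by_contra hcon
    rw [not_or] at hcon
    apply hj
    show (if |j| ≤ (L : ℤ) then Sy.s else Sy.z).hi = (if |j + 1| ≤ (L : ℤ) then Sy.s else Sy.z).hi
    have h1 : |j| ≤ (L : ℤ) ↔ |j + 1| ≤ (L : ℤ) := by
      rw [abs_le, abs_le]
      constructor
      · rintro ⟨h1, h2⟩
        constructor <;> omega
      · rintro ⟨h1, h2⟩
        constructor <;> omega
    by_cases h2 : |j| ≤ (L : ℤ)
    · rw [if_pos h2, if_pos (h1.1 h2)]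
    · rw [if_neg h2, if_neg (fun h => h2 (h1.2 h))]
  · apply l1_main (l1_BP0 L w) (L := L) _ hk hH hW hG
    intro j hj
    exfalso
    apply hj
    show (if |j| ≤ (L : ℤ) then Sy.s else Sy.z).lo = (if |j + 1| ≤ (L : ℤ) then Sy.s else Sy.z).lo
    split_ifs <;> rfl

end Pool.Agent.T3M
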