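import Mathlib
import Pool.Agent.T3M.ML1

/-! Clean marks, and marks in a region of stars (helper78). -/

set_option autoImplicit false

namespace Pool.Agent.T3M

/-! ### Binary configurations -/

lemma l23_maj (a b : Bool) : maj3 a b b = b ∧ maj3 b b a = b := by
  cases a <;> cases b <;> decide

/-- an equal pair is frozen -/
lemma l23_frozen {x : ℤ → Bool} {k : ℤ} (h : x k = x (k + 1)) (j : ℕ) :
    Mb^[j] x k = x k ∧ Mb^[j] x (k + 1) = x k := by
  induction j with
  | zero => exact ⟨rfl, h.symm⟩
  | succ j ih =>
    rw [Function.iterate_succ_apply']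
    show maj3 (Mb^[j] x (k - 1)) (Mb^[j] x k) (Mb^[j] x (k + 1)) = x k ∧
      maj3 (Mb^[j] x (k + 1 - 1)) (Mb^[j] x (k + 1)) (Mb^[j] x (k + 1 + 1)) = x k
    rw [show k + 1 - 1 = k by ring, ih.1, ih.2]
    exact ⟨(l23_maj _ _).1, (l23_maj _ _).2⟩

/-- a site with an equal neighbour is frozen -/
lemma l23_frozen' {x : ℤ → Bool} {k : ℤ} (h : x k = x (k - 1) ∨ x k = x (k + 1)) (j : ℕ) :
    Mb^[j] x k = x k := by
  rcases h with h | h
  · have h1 : x (k - 1) = x (k - 1 + 1) := by rw [sub_add_cancel, h]
    have h2 := (l23_frozen h1 j).2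
    rw [sub_add_cancel] at h2
    rw [h2, h]
  · exact (l23_frozen h j).1

/-- a clean mark, binary configurations -/
lemma l23_bin {x R : ℤ → Bool} {i : ℤ} (b : Bool) {n : ℕ} (hn : 2 ≤ n) (hR : Rtb R)
    (hx : ∀ k : ℤ, |k - i| ≤ 5 → x k = R k) (hroot : Rtb (Mb^[n] x)) :
    Mb^[n] (Function.update x i b) = Rfb i b (Mb^[n] x) := by
  -- near the mark nothing moves without the mark
  have hnb : ∀ k : ℤ, |k - i| ≤ 4 → x k = x (k - 1) ∨ x k = x (k + 1) := by
    intro k hk
    rw [abs_le] at hk
    rw [hx k (by rw [abs_le]; constructor <;> omega),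
      hx (k - 1) (by rw [abs_le]; constructor <;> omega),
      hx (k + 1) (by rw [abs_le]; constructor <;> omega)]
    exact hR.nb k
  have hfz : ∀ (j : ℕ) (k : ℤ), |k - i| ≤ 4 → Mb^[j] x k = x k := fun j k hk =>
    l23_frozen' (hnb k hk) j
  set y := Function.update x i b with hy
  have hyx : ∀ k : ℤ, k ≠ i → y k = x k := fun k hk => by rw [hy, Function.update_of_ne hk]
  -- the sites at distance two are frozen in both
  have hfz2 : ∀ (j : ℕ) (k : ℤ), |k - i| = 2 → Mb^[j] y k = x k := by
    intro j k hk
    have h1 : k = i - 2 ∨ k = i + 2 := by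
      rcases abs_cases (k - i) with ⟨h1, _⟩ | ⟨h1, _⟩ <;> omega
    rw [← hyx k (by rintro rfl; simp at hk)]
    apply l23_frozen'
    have h2 := hnb k (by omega)
    rcases h1 with h1 | h1
    · rw [hyx k (by omega), hyx (k - 1) (by omega), hyx (k + 1) (by omega)]
      exact h2
    · rw [hyx k (by omega), hyx (k - 1) (by omega), hyx (k + 1) (by omega)]
      exact h2
  -- far from the mark the two evolutions agree
  have hfar : ∀ (j : ℕ) (k : ℤ), 2 ≤ |k - i| → Mb^[j] y k = Mb^[j] x k := by
    intro j
    induction j with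
    | zero =>
      intro k hk
      exact hyx k (by rintro rfl; simp at hk)
    | succ j ih =>
      intro k hk
      rcases eq_or_lt_of_le hk with h1 | h1
      · rw [hfz2 (j + 1) k h1.symm, hfz (j + 1) k (by omega)]
      · rw [Function.iterate_succ_apply', Function.iterate_succ_apply']
        unfold Mb
        have h2 : ∀ l : ℤ, |l - k| ≤ 1 → 2 ≤ |l - i| := by
          intro l hl
          rcases abs_cases (k - i) with ⟨h3, _⟩ | ⟨h3, _⟩ <;>
            rcases abs_cases (l - k) with ⟨h4, _⟩ | ⟨h4, _⟩ <;>
            rcases abs_cases (l - i) with ⟨h5, _⟩ | ⟨h5, _⟩ <;> omega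
        have e1 := ih (k - 1) (h2 _ (by rw [show k - 1 - k = -1 by ring]; norm_num))
        have e2 := ih k (by omega)
        have e3 := ih (k + 1) (h2 _ (by rw [show k + 1 - k = 1 by ring]; norm_num))
        unfold Mb at e1 e2 e3
        rw [e1, e2, e3]
  -- the mark in the root `R`
  have hloc : ∀ k : ℤ, |k - i| ≤ 3 → Mb (Mb y) k = Rfb i b R k := by
    intro k hk
    rw [abs_le] at hk
    have h1 : ∀ l : ℤ, |l - i| ≤ 5 → y l = Function.update R i b l := by
      intro l hl
      by_cases h2 : l = i
      · rw [h2, hy, Function.update_self, Function.update_self]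
      · rw [hyx l h2, Function.update_of_ne h2, hx l hl]
    unfold Rfb Mb
    rw [h1 (k - 1 - 1) (by rw [abs_le]; constructor <;> omega),
      h1 (k - 1) (by rw [abs_le]; constructor <;> omega),
      h1 (k - 1 + 1) (by rw [abs_le]; constructor <;> omega),
      h1 k (by rw [abs_le]; constructor <;> omega),
      h1 (k + 1 - 1) (by rw [abs_le]; constructor <;> omega),
      h1 (k + 1) (by rw [abs_le]; constructor <;> omega),
      h1 (k + 1 + 1) (by rw [abs_le]; constructor <;> omega)]
  have hRr := Rfb_root hR i b
  obtain ⟨j, rfl⟩ : ∃ j, n = j + 2 := ⟨n - 2, by omega⟩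
  have hnear : ∀ k : ℤ, |k - i| ≤ 1 → Mb^[j + 2] y k = Rfb i b R k := by
    intro k hk
    rw [abs_le] at hk
    rw [Function.iterate_add_apply]
    show Mb^[j] (Mb (Mb y)) k = _
    rw [← hloc k (by rw [abs_le]; constructor <;> omega)]
    apply l23_frozen'
    rw [hloc k (by rw [abs_le]; constructor <;> omega),
      hloc (k - 1) (by rw [abs_le]; constructor <;> omega),
      hloc (k + 1) (by rw [abs_le]; constructor <;> omega)]
    exact hRr.nb k
  -- the mark in the relaxed configuration
  have hloc' : ∀ k : ℤ, |k - i| ≤ 1 → Rfb i b (Mb^[j + 2] x) k = Rfb i b R k := by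
    intro k hk
    rw [abs_le] at hk
    have h1 : ∀ l : ℤ, |l - i| ≤ 4 → Function.update (Mb^[j + 2] x) i b l =
        Function.update R i b l := by
      intro l hl
      by_cases h2 : l = i
      · rw [h2, Function.update_self, Function.update_self]
      · rw [Function.update_of_ne h2, Function.update_of_ne h2, hfz _ l hl, hx l (by omega)]
    have e : ∀ z : ℤ → Bool, Rfb i b z k = maj3
      (maj3 (Function.update z i b (k - 1 - 1)) (Function.update z i b (k - 1))
        (Function.update z i b (k - 1 + 1)))
      (maj3 (Function.update z i b (k - 1)) (Function.update z i b k)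
        (Function.update z i b (k + 1)))
      (maj3 (Function.update z i b (k + 1 - 1)) (Function.update z i b (k + 1))
        (Function.update z i b (k + 1 + 1))) := fun z => rfl
    rw [e, e, h1 (k - 1 - 1) (by rw [abs_le]; constructor <;> omega),
      h1 (k - 1) (by rw [abs_le]; constructor <;> omega),
      h1 (k - 1 + 1) (by rw [abs_le]; constructor <;> omega),
      h1 k (by rw [abs_le]; constructor <;> omega),
      h1 (k + 1 - 1) (by rw [abs_le]; constructor <;> omega),
      h1 (k + 1) (by rw [abs_le]; constructor <;> omega),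
      h1 (k + 1 + 1) (by rw [abs_le]; constructor <;> omega)]
  funext k
  by_cases hk : 2 ≤ |k - i|
  · rw [hfar _ k hk, Rfb_far hroot b hk]
  · rw [hnear k (by omega), hloc' k (by omega)]

/-! ### Locality -/

/-- without marks in the backward cone the process is the relaxation -/
lemma l23_free {L : ℕ} {w : Nz} {s : ℕ} (n : ℕ) : ∀ k : ℤ,
    (∀ (a : ℕ) (j : ℤ), s ≤ a → a < s + n → |j - k| ≤ (n : ℤ) → w a j = none) →
    cf L w (s + n) k = rel n (cf L w s) k := by
  induction n with
  | zero => intro k _; rfl
  | succ n ih =>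
    intro k h
    have h1 : ∀ l : ℤ, |l - k| ≤ 1 → cf L w (s + n) l = rel n (cf L w s) l := by
      intro l hl
      apply ih l
      intro a j ha hb hj
      apply h a j ha (by omega)
      push_cast
      rw [abs_le] at *
      constructor <;> omega
    rw [rel_succ_out]
    show cf L w (s + n + 1) k = _
    rw [cf_succ, h (s + n) k (by omega) (by omega) (by push_cast; simp; omega)]
    show med _ _ _ = med _ _ _
    rw [h1 (k - 1) (by rw [show k - 1 - k = -1 by ring]; norm_num), h1 k (by simp),
      h1 (k + 1) (by rw [show k + 1 - k = 1 by ring]; norm_num)]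

/-- good noise and one more mark -/
lemma l23_good {m : ℕ} {w : Nz} (h : Good m w) (t : ℕ) (i : ℤ) (v : Option Bool) :
    GoodB (m + 1) (WW (m + 1)) (HH (m + 1)) (sw w t i v) := by
  classical
  intro t' i' S hS
  have h1 := h t' i' (S.erase (t, i)) (by
    intro c hc
    rw [Finset.mem_erase] at hc
    obtain ⟨h2, h3⟩ := hS c hc.2
    refine ⟨h2, ?_⟩
    rwa [sw_of_ne w v (s := c.1) (j := c.2) hc.1] at h3)
  have h2 := Finset.pred_card_le_card_erase (s := S) (a := (t, i))
  omega

lemma l23_root {m : ℕ} (hL1 : St_L1) {w : Nz} (h : Good m w) (t : ℕ) (i : ℤ) (v : Option Bool)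
    (L s n : ℕ) (hn : KK m ≤ n) : Rt (rel n (cf L (sw w t i v) s)) := by
  have h1 := hL1 (m + 1) (WW (m + 1)) (HH (m + 1)) L (sw w t i v) (by omega) le_rfl le_rfl
    (l23_good h t i v) s
  have h2 : KK m = 2 * (m + 1) := by unfold KK; ring
  obtain ⟨j, rfl⟩ : ∃ j, n = j + 2 * (m + 1) := ⟨n - 2 * (m + 1), by omega⟩
  rw [rel_add, rel_root h1]
  exact h1

lemma l23_before (L : ℕ) (w : Nz) (t : ℕ) (i : ℤ) (v : Option Bool) {s : ℕ} (hs : s ≤ t) :
    cf L (sw w t i v) s = cf L w s :=
  cf_dep fun a j ha => sw_of_ne w v (by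
    intro h
    rw [Prod.mk.injEq] at h
    omega)

/-- the step with the mark -/
lemma l23_step (L : ℕ) (w : Nz) (t : ℕ) (i : ℤ) (b : Bool) :
    cf L (sw w t i (some b)) (t + 1) =
      Function.update (cf L (sw w t i none) (t + 1)) i (bs b) := by
  funext k
  by_cases hk : k = i
  · rw [hk, Function.update_self, cf_succ, sw_self]
  · rw [Function.update_of_ne hk, cf_succ, cf_succ,
      sw_of_ne w (some b) (s := t) (j := k) (by simp [hk]),
      sw_of_ne w none (s := t) (j := k) (by simp [hk]),
      l23_before L w t i (some b) le_rfl, l23_before L w t i none le_rfl]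

/-- **L2.** -/
theorem thm_L2 (hL1 : St_L1) : St_L2 := by
  intro m L n t w i b hm hG ht hn hfree
  have hK : 4 ≤ KK m := by unfold KK; omega
  rw [l23_step]
  set w₀ := sw w t i none with hw₀
  set u := cf L w₀ (t + 1) with hu
  set R := rel (KK m + 1) (cf L w₀ (t - KK m)) with hR
  have hRr : Rt R := l23_root hL1 hG t i none L (t - KK m) (KK m + 1) (by omega)
  have hur : Rt (rel n u) := l23_root hL1 hG t i none L (t + 1) n hn
  have huR : ∀ k : ℤ, |k - i| ≤ 5 → u k = R k := by
    intro k hk
    have h1 : t + 1 = t - KK m + (KK m + 1) := by omega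
    rw [hu, h1]
    apply l23_free
    intro a j ha hb hj
    by_cases h2 : (a, j) = (t, i)
    · rw [Prod.mk.injEq] at h2
      rw [h2.1, h2.2, hw₀, sw_self]
    · rw [hw₀, sw_of_ne w none h2]
      apply hfree a j (by omega) (by omega) _ h2
      push_cast at hj
      rw [abs_le] at *
      constructor <;> omega
  apply ext_x
  · rw [x0_rel, x0_Rf, x0_rel, x0_update, bs_lo]
    apply l23_bin b (by omega) hRr.zero
    · intro k hk
      unfold x0
      rw [huR k hk]
    · rw [← x0_rel]
      exact hur.zero
  · rw [x1_rel, x1_Rf, x1_rel, x1_update, bs_hi]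
    apply l23_bin b (by omega) hRr.one
    · intro k hk
      unfold x1
      rw [huR k hk]
    · rw [← x1_rel]
      exact hur.one

/-! ### Regions of stars -/

lemma l23_med_l (a b : Sy) : med .s .s a = .s ∧ med .s a .s = .s ∧ med a .s .s = .s ∧
    med b b a = b ∧ med a b b = b := by
  cases a <;> cases b <;> decide

/-- a region of stars is stable -/
lemma l23_star_M {u : ℤ → Sy} {i : ℤ} {r : ℤ} (hr : 1 ≤ r) (h : ∀ k : ℤ, |k - i| ≤ r → u k = .s) :
    ∀ k : ℤ, |k - i| ≤ r → M u k = .s := by
  intro k hk
  unfold M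
  rw [h k hk]
  rcases lt_or_ge k i with h1 | h1
  · rw [h (k + 1) (by rw [abs_le] at *; constructor <;> omega)]
    exact (l23_med_l _ .s).2.2.1
  · rw [h (k - 1) (by rw [abs_le] at *; constructor <;> omega)]
    exact (l23_med_l _ .s).1

lemma l23_star_rel {u : ℤ → Sy} {i : ℤ} {r : ℤ} (hr : 1 ≤ r) (n : ℕ)
    (h : ∀ k : ℤ, |k - i| ≤ r → u k = .s) : ∀ k : ℤ, |k - i| ≤ r → rel n u k = .s := by
  induction n with
  | zero => exact h
  | succ n ih =>
    intro k hk
    rw [rel_succ_out]
    exact l23_star_M hr ih k hk

/-- a single exception disappears -/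
lemma l23_star_M' {u : ℤ → Sy} {i y : ℤ} {r : ℤ} (h : ∀ k : ℤ, |k - i| ≤ r + 1 → k ≠ y → u k = .s) :
    ∀ k : ℤ, |k - i| ≤ r → M u k = .s := by
  intro k hk
  unfold M
  rw [abs_le] at hk
  by_cases h1 : k = y
  · rw [h (k - 1) (by rw [abs_le]; constructor <;> omega) (by omega),
      h (k + 1) (by rw [abs_le]; constructor <;> omega) (by omega)]
    exact (l23_med_l _ .s).2.1
  · rw [h k (by rw [abs_le]; constructor <;> omega) h1]
    by_cases h2 : k - 1 = y
    · rw [h (k + 1) (by rw [abs_le]; constructor <;> omega) (by omega)]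
      exact (l23_med_l _ .s).2.2.1
    · rw [h (k - 1) (by rw [abs_le]; constructor <;> omega) h2]
      exact (l23_med_l _ .s).1

/-- two steps -/
def F5 (g : Fin 5 → Sy) : Sy :=
  med (med (g 0) (g 1) (g 2)) (med (g 1) (g 2) (g 3)) (med (g 2) (g 3) (g 4))

lemma l23_F5 : ∀ (p q : Fin 5) (b : Bool) (v : Sy), p ≠ q →
    ¬ ((p.val + 1 = q.val ∨ q.val + 1 = p.val) ∧ v = bs b) →
    F5 (fun j => if j = p then bs b else if j = q then v else .s) = .s := by
  decide

lemma l23_F5' : ∀ (p : Fin 5) (b : Bool),
    F5 (fun j => if j = p then bs b else .s) = .s := by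
  decide

lemma l23_MM (u : ℤ → Sy) (k : ℤ) : M (M u) k = F5 (fun j => u (k + ((j.val : ℤ) - 2))) := by
  unfold F5
  have e0 : k + (((0 : Fin 5).val : ℤ) - 2) = k - 1 - 1 := by
    rw [show (0 : Fin 5).val = 0 from rfl]; push_cast; ring
  have e1 : k + (((1 : Fin 5).val : ℤ) - 2) = k - 1 := by
    rw [show (1 : Fin 5).val = 1 from rfl]; push_cast; ring
  have e2 : k + (((2 : Fin 5).val : ℤ) - 2) = k := by
    rw [show (2 : Fin 5).val = 2 from rfl]; push_cast; ring
  have e3 : k + (((3 : Fin 5).val : ℤ) - 2) = k + 1 := by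
    rw [show (3 : Fin 5).val = 3 from rfl]; push_cast; ring
  have e4 : k + (((4 : Fin 5).val : ℤ) - 2) = k + 1 + 1 := by
    rw [show (4 : Fin 5).val = 4 from rfl]; push_cast; ring
  simp only [e0, e1, e2, e3, e4]
  show med (med (u (k - 1 - 1)) (u (k - 1)) (u (k - 1 + 1))) (med (u (k - 1)) (u k) (u (k + 1)))
    (med (u (k + 1 - 1)) (u (k + 1)) (u (k + 1 + 1))) = _
  rw [show k - 1 + 1 = k by ring, show k + 1 - 1 = k by ring]

/-- two marks in a region of stars disappear in two steps unless they are neighbours of the same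
colour -/
lemma l23_two {u : ℤ → Sy} {i y : ℤ} (hy : y ≠ i) (b : Bool)
    (h : ∀ k : ℤ, |k - i| ≤ 4 → k ≠ y → u k = .s) (hne : ¬ (|y - i| = 1 ∧ u y = bs b)) :
    ∀ k : ℤ, |k - i| ≤ 2 → M (M (Function.update u i (bs b))) k = .s := by
  intro k hk
  rw [abs_le] at hk
  rw [l23_MM]
  obtain ⟨p, hp⟩ : ∃ p : Fin 5, (p.val : ℤ) = i - k + 2 :=
    ⟨⟨(i - k + 2).toNat, by omega⟩, by simp only; omega⟩
  by_cases hq : ∃ q : Fin 5, (q.val : ℤ) = y - k + 2
  · obtain ⟨q, hq⟩ := hq
    have h1 : (fun j : Fin 5 => Function.update u i (bs b) (k + ((j.val : ℤ) - 2))) =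
        fun j => if j = p then bs b else if j = q then u y else .s := by
      funext j
      by_cases h2 : j = p
      · subst h2
        rw [if_pos rfl, show k + ((j.val : ℤ) - 2) = i by omega, Function.update_self]
      · have h3 : k + ((j.val : ℤ) - 2) ≠ i := by
          intro h4
          apply h2
          apply Fin.ext
          omega
        rw [if_neg h2, Function.update_of_ne h3]
        by_cases h4 : j = q
        · subst h4
          rw [if_pos rfl, show k + ((j.val : ℤ) - 2) = y by omega]
        · rw [if_neg h4]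
          have h5 := j.isLt
          apply h
          · rw [abs_le]
            constructor <;> omega
          · intro h6
            apply h4
            apply Fin.ext
            omega
    rw [h1]
    apply l23_F5
    · rintro rfl
      omega
    · rintro ⟨h2, h3⟩
      apply hne
      refine ⟨?_, h3⟩
      rcases h2 with h2 | h2
      · rw [show y - i = 1 by omega]; norm_num
      · rw [show y - i = -1 by omega]; norm_num
  · have h1 : (fun j : Fin 5 => Function.update u i (bs b) (k + ((j.val : ℤ) - 2))) =
        fun j => if j = p then bs b else .s := by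
      funext j
      by_cases h2 : j = p
      · subst h2
        rw [if_pos rfl, show k + ((j.val : ℤ) - 2) = i by omega, Function.update_self]
      · have h3 : k + ((j.val : ℤ) - 2) ≠ i := by
          intro h4
          apply h2
          apply Fin.ext
          omega
        rw [if_neg h2, Function.update_of_ne h3]
        have h5 := j.isLt
        apply h
        · rw [abs_le]
          constructor <;> omega
        · intro h6
          exact hq ⟨j, by omega⟩
    rw [h1]
    exact l23_F5' p b

/-- far from the mark -/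
lemma l23_MM_far (u : ℤ → Sy) (i : ℤ) (a : Sy) {k : ℤ} (hk : 3 ≤ |k - i|) :
    M (M (Function.update u i a)) k = M (M u) k := by
  rw [l23_MM, l23_MM]
  congr 1
  funext j
  have h5 := j.isLt
  rw [Function.update_of_ne]
  rcases abs_cases (k - i) with ⟨h3, _⟩ | ⟨h3, _⟩ <;> omega

/-- nucleation: a pair of equal neighbours in a region of stars is stable -/
lemma l23_nuc {v : ℤ → Sy} {i y : ℤ} (a : Sy) (hy : |y - i| = 1)
    (hv : ∀ k : ℤ, |k - i| ≤ 3 → v k = .s) :
    M (Function.update (Function.update v i a) y a) =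
      Function.update (Function.update (M v) i a) y a := by
  have hy' : y = i - 1 ∨ y = i + 1 := by
    rcases abs_cases (y - i) with ⟨h1, _⟩ | ⟨h1, _⟩ <;> omega
  have hval : ∀ k : ℤ, Function.update (Function.update v i a) y a k =
      if k = i ∨ k = y then a else v k := by
    intro k
    by_cases h1 : k = y
    · rw [h1, Function.update_self, if_pos (Or.inr rfl)]
    · rw [Function.update_of_ne h1]
      by_cases h2 : k = i
      · rw [h2, Function.update_self, if_pos (Or.inl rfl)]
      · rw [Function.update_of_ne h2, if_neg (by rintro (h | h) <;> contradiction)]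
  have hval' : ∀ k : ℤ, Function.update (Function.update (M v) i a) y a k =
      if k = i ∨ k = y then a else M v k := by
    intro k
    by_cases h1 : k = y
    · rw [h1, Function.update_self, if_pos (Or.inr rfl)]
    · rw [Function.update_of_ne h1]
      by_cases h2 : k = i
      · rw [h2, Function.update_self, if_pos (Or.inl rfl)]
      · rw [Function.update_of_ne h2, if_neg (by rintro (h | h) <;> contradiction)]
  funext k
  rw [hval']
  have e : M (Function.update (Function.update v i a) y a) k = med
    (if k - 1 = i ∨ k - 1 = y then a else v (k - 1)) (if k = i ∨ k = y then a else v k)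
    (if k + 1 = i ∨ k + 1 = y then a else v (k + 1)) := by
    show med _ _ _ = _
    rw [hval, hval, hval]
  rw [e]
  by_cases h1 : k = i ∨ k = y
  · rw [if_pos h1, if_pos h1]
    by_cases h2 : k - 1 = i ∨ k - 1 = y
    · rw [if_pos h2]
      exact (l23_med_l _ _).2.2.2.1
    · rw [if_pos (show k + 1 = i ∨ k + 1 = y by omega)]
      exact (l23_med_l _ _).2.2.2.2
  · rw [if_neg h1, if_neg h1]
    by_cases h2 : k - 1 = i ∨ k - 1 = y
    · rw [if_pos h2, if_neg (show ¬ (k + 1 = i ∨ k + 1 = y) by omega)]
      unfold M
      rw [hv k (by rw [abs_le]; constructor <;> omega),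
        hv (k + 1) (by rw [abs_le]; constructor <;> omega),
        hv (k - 1) (by rw [abs_le]; constructor <;> omega)]
      rw [(l23_med_l a .s).2.2.1, (l23_med_l .s .s).1]
    · by_cases h3 : k + 1 = i ∨ k + 1 = y
      · rw [if_pos h3, if_neg h2]
        unfold M
        rw [hv k (by rw [abs_le]; constructor <;> omega),
          hv (k + 1) (by rw [abs_le]; constructor <;> omega),
          hv (k - 1) (by rw [abs_le]; constructor <;> omega)]
        rw [(l23_med_l a .s).1, (l23_med_l .s .s).1]
      · rw [if_neg h2, if_neg h3]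
        rfl

lemma l23_nuc_rel {v : ℤ → Sy} {i y : ℤ} (a : Sy) (hy : |y - i| = 1)
    (hv : ∀ k : ℤ, |k - i| ≤ 3 → v k = .s) (n : ℕ) :
    rel n (Function.update (Function.update v i a) y a) =
      Function.update (Function.update (rel n v) i a) y a := by
  induction n with
  | zero => rfl
  | succ n ih =>
    rw [rel_succ_out, ih, rel_succ_out]
    exact l23_nuc a hy (l23_star_rel (by norm_num) n hv)

/-- **L3.** -/
theorem thm_L3 (_ : St_L1) : St_L3 := by
  intro m L n t t' w i y b hm _ ht hn ht1 ht2 hy hne hfree hstar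
  have hK : 4 ≤ KK m := by unfold KK; omega
  rw [l23_step]
  set w₀ := sw w t i none with hw₀
  set u := cf L w₀ (t + 1) with hu
  -- marks of `w₀`
  have hmark : ∀ (a : ℕ) (j : ℤ), t ≤ a + 2 * KK m → a ≤ t → |j - i| ≤ 6 * (KK m : ℤ) →
      (a, j) ≠ (t', y) → w₀ a j = none := by
    intro a j h1 h2 h3 h4
    by_cases h5 : (a, j) = (t, i)
    · rw [Prod.mk.injEq] at h5
      rw [h5.1, h5.2, hw₀, sw_self]
    · rw [hw₀, sw_of_ne w none h5]
      exact hfree a j h1 h2 h3 h5 h4
  have hy' : w₀ t' y = w t' y := by rw [hw₀, sw_of_ne w none hne]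
  -- one step of the process without marks is `M`
  have hstep : ∀ (s : ℕ) (k : ℤ), w₀ s k = none → cf L w₀ (s + 1) k = M (cf L w₀ s) k := by
    intro s k h
    rw [cf_succ, h]
    rfl
  -- persistence of the star region without marks
  have hpers : ∀ (s d : ℕ) (r : ℤ), 1 ≤ r → r ≤ 6 * (KK m : ℤ) → t ≤ s + 2 * KK m →
      s + d ≤ t + 1 → (∀ a : ℕ, s ≤ a → a < s + d → a ≠ t') →
      (∀ k : ℤ, |k - i| ≤ r → cf L w₀ s k = .s) →
      ∀ k : ℤ, |k - i| ≤ r → cf L w₀ (s + d) k = .s := by
    intro s d r hr hr6 hs hd ha h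
    induction d with
    | zero => exact h
    | succ d ih =>
      intro k hk
      have h1 := ih (by omega) (fun a h1 h2 => ha a h1 (by omega))
      have h2 : w₀ (s + d) k = none := hmark (s + d) k (by omega) (by omega) (by omega) (by
        intro h3
        rw [Prod.mk.injEq] at h3
        exact ha (s + d) (by omega) (by omega) h3.1)
      show cf L w₀ (s + d + 1) k = .s
      rw [hstep _ _ h2]
      exact l23_star_M hr h1 k hk
  have hA : ∀ k : ℤ, |k - i| ≤ 4 * (KK m : ℤ) → cf L w₀ t' k = .s := by
    have h1 : t' = t - KK m + (t' - (t - KK m)) := by omega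
    rw [h1]
    apply hpers _ _ _ (by omega) (by omega) (by omega) (by omega) (fun a h2 h3 => by omega)
    intro k hk
    rw [hw₀, l23_before L w t i none (by omega)]
    exact hstar k hk
  have hB : ∀ k : ℤ, |k - i| ≤ 4 * (KK m : ℤ) → k ≠ y → cf L w₀ (t' + 1) k = .s := by
    intro k hk hky
    have h2 : w₀ t' k = none := hmark t' k (by omega) (by omega) (by omega) (by
      intro h3
      rw [Prod.mk.injEq] at h3
      exact hky h3.2)
    rw [hstep _ _ h2]
    exact l23_star_M (by omega) hA k hk
  obtain ⟨n, rfl⟩ : ∃ n', n = n' + 2 := ⟨n - 2, by omega⟩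
  rcases Nat.lt_or_ge t' t with hlt | hge
  · -- the other mark is in an earlier slice
    have hC : ∀ k : ℤ, |k - i| ≤ 4 * (KK m : ℤ) - 1 → cf L w₀ (t' + 1 + 1) k = .s := by
      intro k hk
      have h2 : w₀ (t' + 1) k = none := hmark (t' + 1) k (by omega) (by omega) (by omega) (by
        intro h3
        rw [Prod.mk.injEq] at h3
        omega)
      rw [hstep _ _ h2]
      exact l23_star_M' (y := y) (r := 4 * (KK m : ℤ) - 1)
        (fun k hk hky => hB k (by omega) hky) k hk
    have hU : ∀ k : ℤ, |k - i| ≤ 4 * (KK m : ℤ) - 1 → u k = .s := by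
      have h1 : t + 1 = t' + 1 + 1 + (t - (t' + 1)) := by omega
      rw [hu, h1]
      exact hpers _ _ _ (by omega) (by omega) (by omega) (by omega) (fun a h2 h3 => by omega) hC
    refine ⟨fun k hk => l23_star_rel (r := 4 * (KK m : ℤ) - 1) (by omega) _ hU k (by omega), ?_⟩
    rw [if_neg (fun h => by omega), rel_succ (n + 1), rel_succ (n + 1)]
    congr 1
    funext k
    by_cases hk : |k - i| ≤ 1
    · rw [l23_star_M (by omega) hU k (by omega)]
      exact l23_star_M' (y := i) (r := 1) (fun l hl hli => by
        rw [Function.update_of_ne hli]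
        exact hU l (by omega)) k hk
    · unfold M
      rw [Function.update_of_ne, Function.update_of_ne, Function.update_of_ne]
      · intro h; apply hk; rw [show k - i = -1 by omega]; norm_num
      · intro h; apply hk; rw [h]; simp
      · intro h; apply hk; rw [show k - i = 1 by omega]; norm_num
  · -- the other mark is in the same slice
    have htt : t' = t := by omega
    subst htt
    have hyi : y ≠ i := by
      intro h
      exact hne (by rw [h])
    have hMU : ∀ k : ℤ, |k - i| ≤ 4 * (KK m : ℤ) - 1 → M u k = .s :=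
      l23_star_M' (y := y) (r := 4 * (KK m : ℤ) - 1) (fun k hk hky => hB k (by omega) hky)
    have hpart : ∀ k : ℤ, |k - i| ≤ (KK m : ℤ) → rel (n + 2) u k = .s := by
      intro k hk
      rw [rel_succ]
      exact l23_star_rel (r := 4 * (KK m : ℤ) - 1) (by omega) _ hMU k (by omega)
    refine ⟨hpart, ?_⟩
    by_cases hc : t' = t' ∧ |y - i| = 1 ∧ w t' y = some b
    · rw [if_pos hc]
      obtain ⟨_, hy1, hyb⟩ := hc
      have huy : u y = bs b := by
        rw [hu, cf_succ, hy', hyb]
      -- replace the symbol at `y` by a star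
      set v := Function.update u y .s with hv
      have hvs : ∀ k : ℤ, |k - i| ≤ 4 * (KK m : ℤ) → v k = .s := by
        intro k hk
        by_cases h1 : k = y
        · rw [h1, hv, Function.update_self]
        · rw [hv, Function.update_of_ne h1]
          exact hB k hk h1
      have hMv : M v = M u := by
        funext k
        by_cases hk : |k - i| ≤ 4 * (KK m : ℤ) - 1
        · rw [hMU k hk]
          exact l23_star_M (by omega) hvs k (by omega)
        · have h1 : ∀ l : ℤ, |l - k| ≤ 1 → v l = u l := by
            intro l hl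
            rw [hv, Function.update_of_ne]
            rintro rfl
            rw [abs_le] at hl
            apply hk
            rcases abs_cases (l - i) with ⟨h3, _⟩ | ⟨h3, _⟩ <;> rw [abs_le] <;> constructor <;> omega
          unfold M
          rw [h1 (k - 1) (by rw [show k - 1 - k = -1 by ring]; norm_num), h1 k (by simp),
            h1 (k + 1) (by rw [show k + 1 - k = 1 by ring]; norm_num)]
      have hu1 : Function.update u i (bs b) =
          Function.update (Function.update v i (bs b)) y (bs b) := by
        funext k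
        by_cases h1 : k = y
        · rw [h1, Function.update_self, Function.update_of_ne hyi, huy]
        · rw [Function.update_of_ne h1]
          by_cases h2 : k = i
          · rw [h2, Function.update_self, Function.update_self]
          · rw [Function.update_of_ne h2, Function.update_of_ne h2, hv, Function.update_of_ne h1]
      rw [hu1, l23_nuc_rel (bs b) hy1 (fun k hk => hvs k (by omega)) (n + 2)]
      rw [rel_succ (n + 1), rel_succ (n + 1), hMv]
    · rw [if_neg hc]
      have hne' : ¬ (|y - i| = 1 ∧ u y = bs b) := by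
        rintro ⟨h1, h2⟩
        apply hc
        refine ⟨rfl, h1, ?_⟩
        rcases hwy : w t' y with _ | b'
        · exfalso
          rw [hwy] at hy'
          have h3 : u y = .s := by
            rw [hu, hstep _ _ hy']
            exact l23_star_M (by omega) hA y (by omega)
          rw [h3] at h2
          cases b <;> simp [bs] at h2
        · have h3 : u y = bs b' := by
            rw [hu, cf_succ, hy', hwy]
          rw [h3] at h2
          cases b <;> cases b' <;> simp [bs] at h2 ⊢
      rw [rel_succ (n + 1), rel_succ (n + 1), rel_succ n, rel_succ n]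
      congr 1
      funext k
      by_cases hk : |k - i| ≤ 2
      · rw [l23_two hyi b (fun k hk hky => hB k (by omega) hky) hne' k hk]
        exact (l23_star_M (r := 4 * (KK m : ℤ) - 1) (by omega) hMU k (by omega)).symm
      · exact l23_MM_far u i (bs b) (by omega)

end Pool.Agent.T3M
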