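import Mathlib
import Pool.Agent.T3M.PE
import Pool.Agent.T3M.St
import Pool.Agent.Helper55.Vote.Crit

/-! The finite system and the infinite system agree in the light cone (helper82). -/

set_option autoImplicit false

namespace Pool.Agent.T3M

open MeasureTheory Pool.Agent.Helper55.Vote

/-- the noise of the infinite system restricted to finitely many places -/
noncomputable def link_restr (J : Finset (ℕ × ℤ)) (ω : Om) : Nz := by
  classical exact fun s j => if (s, j) ∈ J then ω (j, (s : ℤ)) else none

lemma link_restr_in {J : Finset (ℕ × ℤ)} (ω : Om) {s : ℕ} {j : ℤ} (h : (s, j) ∈ J) :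
    link_restr J ω s j = ω (j, (s : ℤ)) := by
  unfold link_restr
  exact if_pos h

lemma link_restr_out {J : Finset (ℕ × ℤ)} (ω : Om) {s : ℕ} {j : ℤ} (h : (s, j) ∉ J) :
    link_restr J ω s j = none := by
  unfold link_restr
  exact if_neg h

lemma link_law {e d : ℝ} (he : 0 ≤ e) (hd : 0 ≤ d) (h : e + d ≤ 1) (v : Option Bool) :
    (law e d).real {v} = wt e d v := by
  rcases v with _ | v
  · have h1 : 0 ≤ 1 - e - d := by linarith
    simp [law, Measure.real, wt, h1]
  · cases v
    · exact law_false he
    · exact law_true hd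

/-- events of the restricted noise are local -/
lemma link_FL (J : Finset (ℕ × ℤ)) (B : Nz → Prop) :
    FL ((fun c : ℕ × ℤ => ((c.2, (c.1 : ℤ)) : ℤ × ℤ)) '' (J : Set (ℕ × ℤ)))
      {ω : Om | B (link_restr J ω)} := by
  classical
  refine ⟨J.image fun c : ℕ × ℤ => ((c.2, (c.1 : ℤ)) : ℤ × ℤ), by rw [Finset.coe_image], ?_⟩
  intro ω ω' h hB
  have h1 : link_restr J ω = link_restr J ω' := by
    funext s j
    by_cases h2 : (s, j) ∈ J
    · rw [link_restr_in ω h2, link_restr_in ω' h2]
      exact h _ (Finset.mem_image.2 ⟨(s, j), h2, rfl⟩)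
    · rw [link_restr_out ω h2, link_restr_out ω' h2]
  show B (link_restr J ω')
  rw [← h1]
  exact hB

lemma link_insert {J : Finset (ℕ × ℤ)} {c : ℕ × ℤ} (ω : Om) :
    link_restr (insert c J) ω = sw (link_restr J ω) c.1 c.2 (ω (c.2, (c.1 : ℤ))) := by
  refine nz_ext fun c' => ?_
  by_cases h : (c'.1, c'.2) = (c.1, c.2)
  · have h1 : c'.1 = c.1 := congrArg Prod.fst h
    have h2 : c'.2 = c.2 := congrArg Prod.snd h
    rw [h1, h2, sw_self, link_restr_in ω (Finset.mem_insert_self c J)]
  · rw [sw_of_ne _ _ h]
    by_cases h2 : c' ∈ J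
    · rw [link_restr_in ω (s := c'.1) (j := c'.2) (Finset.mem_insert_of_mem h2),
        link_restr_in ω (s := c'.1) (j := c'.2) h2]
    · rw [link_restr_out ω (s := c'.1) (j := c'.2) h2,
        link_restr_out ω (s := c'.1) (j := c'.2)]
      intro h3
      rcases Finset.mem_insert.1 h3 with h4 | h4
      · exact h h4
      · exact h2 h4

/-- product expectations are probabilities of the infinite system -/
lemma link_Ex {e d : ℝ} (he : 0 ≤ e) (hd : 0 ≤ d) (hed : e + d ≤ 1) (J : Finset (ℕ × ℤ))
    (B : Nz → Prop) : Ex J e d pone (fun w => ind (B w)) =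
      (Pm (law e d)).real {ω : Om | B (link_restr J ω)} := by
  classical
  have : IsProbabilityMeasure (law e d) := law_prob he hd hed
  induction J using Finset.induction_on generalizing B with
  | empty =>
    rw [Ex_empty]
    have h1 : ∀ ω : Om, link_restr ∅ ω = fun _ _ => none := by
      intro ω
      funext s j
      exact link_restr_out ω (Finset.notMem_empty _)
    by_cases hB : B (fun _ _ => none)
    · rw [ind_true hB]
      have h2 : {ω : Om | B (link_restr ∅ ω)} = Set.univ := by
        ext ω
        simp only [Set.mem_univ, iff_true]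
        show B (link_restr ∅ ω)
        rw [h1 ω]
        exact hB
      rw [h2, probReal_univ]
    · rw [ind_false hB]
      have h2 : {ω : Om | B (link_restr ∅ ω)} = ∅ := by
        ext ω
        simp only [Set.mem_empty_iff_false, iff_false]
        intro h3
        have h4 : B (link_restr ∅ ω) := h3
        rw [h1 ω] at h4
        exact hB h4
      rw [h2, measureReal_empty]
  | insert c J hc ih =>
    rw [Ex_insert hc]
    set c' : ℤ × ℤ := (c.2, (c.1 : ℤ)) with hc'
    set E : Set Om := {ω : Om | B (link_restr (insert c J) ω)} with hE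
    have hEm : MeasurableSet E := (link_FL (insert c J) B).meas
    have hmap : Measurable (fun ω : Om => ω c') := measurable_pi_apply c'
    have h1 : ∀ v : Option Bool,
        ((Pm (law e d)).restrict E).real ((fun ω : Om => ω c') ⁻¹' {v}) =
        wt e d v * Ex J e d pone (fun w => ind (B (sw w c.1 c.2 v))) := by
      intro v
      have h2 : MeasurableSet ((fun ω : Om => ω c') ⁻¹' {v}) :=
        hmap (Set.toFinite _).measurableSet
      rw [measureReal_restrict_apply h2, ih]
      have h3 : (fun ω : Om => ω c') ⁻¹' {v} ∩ E = {ω : Om | ω c' ∈ ({v} : Set (Option Bool))} ∩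
          {ω : Om | B (sw (link_restr J ω) c.1 c.2 v)} := by
        ext ω
        constructor
        · rintro ⟨h4, h5⟩
          refine ⟨h4, ?_⟩
          have h6 : B (link_restr (insert c J) ω) := h5
          rw [link_insert] at h6
          have h7 : ω c' = v := h4
          show B (sw (link_restr J ω) c.1 c.2 v)
          rw [← h7]
          exact h6
        · rintro ⟨h4, h5⟩
          refine ⟨h4, ?_⟩
          have h7 : ω c' = v := h4
          have h6 : B (sw (link_restr J ω) c.1 c.2 v) := h5
          show B (link_restr (insert c J) ω)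
          rw [link_insert]
          rw [← h7] at h6
          exact h6
      have hA : FL {c'} {ω : Om | ω c' ∈ ({v} : Set (Option Bool))} :=
        FL.single _ (Set.mem_singleton _) _
      have hd : Disjoint ({c'} : Set (ℤ × ℤ))
          ((fun c : ℕ × ℤ => ((c.2, (c.1 : ℤ)) : ℤ × ℤ)) '' (J : Set (ℕ × ℤ))) := by
        rw [Set.disjoint_singleton_left]
        rintro ⟨q, hq, he⟩
        have h8 : q.2 = c.2 := congrArg Prod.fst he
        have h9 : (q.1 : ℤ) = (c.1 : ℤ) := congrArg Prod.snd he
        have h10 : q = c := Prod.ext (by exact_mod_cast h9) h8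
        rw [h10] at hq
        exact hc hq
      rw [h3, FL.indep (law e d) hA (link_FL J fun w => B (sw w c.1 c.2 v)) hd, prob_single,
        link_law he ‹0 ≤ d› hed]
    have h4 := sum_measureReal_preimage_singleton (μ := (Pm (law e d)).restrict E)
      (Finset.univ : Finset (Option Bool)) (f := fun ω : Om => ω c')
      (fun v _ => hmap (Set.toFinite _).measurableSet)
    rw [Finset.coe_univ, Set.preimage_univ, measureReal_restrict_apply MeasurableSet.univ,
      Set.univ_inter] at h4
    rw [← h4]
    refine Finset.sum_congr rfl fun v _ => ?_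
    rw [h1 v]
    unfold pone
    rw [one_mul, one_mul]

lemma link_maj (x : ℤ → Bool) (i : ℤ) :
    Pool.Agent.Helper55.Vote.maj N1 x i = maj3 (x (i - 1)) (x i) (x (i + 1)) := by
  classical
  have hcard : N1.card = 3 := by decide
  unfold Pool.Agent.Helper55.Vote.maj
  rw [hcard]
  have h1 : (N1.filter fun j => x (i + j) = true).card =
      (if x (i - 1) = true then 1 else 0) + (if x i = true then 1 else 0) +
        (if x (i + 1) = true then 1 else 0) := by
    rw [Finset.card_filter]
    unfold N1
    rw [Finset.sum_insert (by decide), Finset.sum_insert (by decide), Finset.sum_singleton,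
      add_zero, ← sub_eq_add_neg, add_assoc]
  rw [h1]
  cases x (i - 1) <;> cases x i <;> cases x (i + 1) <;> simp [maj3]

/-- path by path -/
lemma link_path {T A L : ℕ} (ω : Om) (t : ℕ) (i : ℤ) (ht : t ≤ T) (hL : |i| + t ≤ (L : ℤ))
    (hA : |i| + t ≤ (A : ℤ)) :
    (cf L (link_restr (JJ T A) ω) t i).hi = run N1 ω 0 (fun _ => true) t i ∧
      (cf L (link_restr (JJ T A) ω) t i).lo = run N1 ω 0 (fun _ => false) t i := by
  induction t generalizing i with
  | zero =>
    have h1 : cf L (link_restr (JJ T A) ω) 0 i = .s := by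
      show (if |i| ≤ (L : ℤ) then Sy.s else Sy.z) = .s
      rw [if_pos (by simpa using hL)]
    rw [h1]
    exact ⟨rfl, rfl⟩
  | succ t ih =>
    push_cast at hL hA
    have hmem : (t, i) ∈ JJ T A := by
      unfold JJ
      rw [Finset.mem_product, mem_Icc_abs, Finset.mem_range]
      constructor
      · show t < T
        omega
      · show |i| ≤ (A : ℤ)
        omega
    have hw := link_restr_in ω hmem
    have b1 : |i - 1| ≤ |i| + 1 := by
      rcases abs_cases (i - 1) with ⟨h3, _⟩ | ⟨h3, _⟩ <;>
        rcases abs_cases i with ⟨h4, _⟩ | ⟨h4, _⟩ <;> omega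
    have b2 : |i + 1| ≤ |i| + 1 := by
      rcases abs_cases (i + 1) with ⟨h3, _⟩ | ⟨h3, _⟩ <;>
        rcases abs_cases i with ⟨h4, _⟩ | ⟨h4, _⟩ <;> omega
    have i1 := ih (i - 1) (by omega) (by omega) (by omega)
    have i0 := ih i (by omega) (by omega) (by omega)
    have i2 := ih (i + 1) (by omega) (by omega) (by omega)
    rw [cf_succ, hw, run_succ, run_succ]
    unfold Pool.Agent.Helper55.Vote.step
    simp only [zero_add]
    rw [link_maj, link_maj]
    rcases ω (i, (t : ℤ)) with _ | b
    · simp only [Option.getD_none]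
      rw [med_hi, med_lo, i1.1, i1.2, i0.1, i0.2, i2.1, i2.2]
      exact ⟨rfl, rfl⟩
    · simp only [Option.getD_some]
      exact ⟨bs_hi b, bs_lo b⟩

theorem thm_Link : St_Link := by
  intro e d T A L t i he hd hed ht hL hA
  have : IsProbabilityMeasure (law e d) := law_prob he hd hed
  have h1 : Ex (JJ T A) e d pone (fun w => st (cf L w t) i) =
      Ex (JJ T A) e d pone (fun w => ind (cf L w t i = .s)) := rfl
  rw [h1, link_Ex he hd hed, ← prob_Dis (law e d) N1 t i]
  congr 1
  ext ω
  obtain ⟨h2, h3⟩ := link_path (T := T) (A := A) (L := L) ω t i ht hL hA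
  show cf L (link_restr (JJ T A) ω) t i = .s ↔
    run N1 ω 0 (fun _ => true) t i ≠ run N1 ω 0 (fun _ => false) t i
  rw [← h2, ← h3]
  cases cf L (link_restr (JJ T A) ω) t i <;> simp [Sy.hi, Sy.lo]

end Pool.Agent.T3M
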