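import Mathlib
import Pool.Agent.T3M.MExc1

/-! Lower bound for the expected number of nucleations: `St_NucPsi` (helper57). -/

set_option autoImplicit false

namespace Pool.Agent.T3M

open MeasureTheory

/-- a mark near `i` in the slices `t - 2 K, …, t - K - 1` -/
def nucpsi_M1 (m t : ℕ) (i : ℤ) (w : Nz) : Prop :=
  ∃ (s : ℕ) (j : ℤ), t ≤ s + 2 * KK m ∧ s < t - KK m ∧ |j - i| ≤ 12 * (KK m : ℤ) ∧ w s j ≠ none

/-- a mark near `i` in the slices `t - K, …, t`, not at `(t, y)` -/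
def nucpsi_M2 (m t : ℕ) (i y : ℤ) (w : Nz) : Prop :=
  ∃ (s : ℕ) (j : ℤ), t ≤ s + KK m ∧ s ≤ t ∧ |j - i| ≤ 12 * (KK m : ℤ) ∧ (s, j) ≠ (t, y) ∧
    w s j ≠ none

/-- a star at `i` at the time `t - K` -/
def nucpsi_S (L m t : ℕ) (i : ℤ) (w : Nz) : Prop := cf L w (t - KK m) i = .s

lemma nucpsi_Stn {L m t : ℕ} {i : ℤ} {w : Nz} (ht : 2 * KK m ≤ t) (h : nucpsi_S L m t i w) :
    Stn L m t i w := by
  obtain ⟨j, hj, hj2⟩ := star_cf (s := t - 2 * KK m) (t := t - KK m) (by omega) h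
  refine ⟨j, hj.trans ?_, hj2⟩
  have h6 : ((t - KK m : ℕ) : ℤ) = t - KK m := by omega
  have h7 : ((t - 2 * KK m : ℕ) : ℤ) = t - 2 * KK m := by omega
  rw [h6, h7]
  omega

lemma nucpsi_pt {L m t : ℕ} {i y : ℤ} {b : Bool} {w : Nz} (ht : 2 * KK m ≤ t)
    (hb : w t y = some b) (hS : nucpsi_S L m t i w) (h1 : ¬ SEn L m t i w)
    (h2 : ¬ (nucpsi_M1 m t i w ∧ Stn L m t i w))
    (h3 : ¬ (nucpsi_M2 m t i y w ∧ nucpsi_S L m t i w)) : NU L m t i y b w := by
  refine ⟨hb, ?_, ?_⟩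
  · intro s j hs1 hs2 hj hne
    by_contra hw
    by_cases h4 : s < t - KK m
    · exact h2 ⟨⟨s, j, hs1, h4, hj, hw⟩, nucpsi_Stn ht hS⟩
    · exact h3 ⟨⟨s, j, by omega, hs2, hj, hne, hw⟩, hS⟩
  · have hno : ∀ k : ℤ, |k - i| ≤ 8 * (KK m : ℤ) →
        (cf L w (t - KK m) k = .s ↔ cf L w (t - KK m) (k + 1) = .s) := by
      intro k hk
      by_contra hcon
      exact h1 ⟨k, hk, hcon⟩
    have hind : ∀ n : ℕ, n ≤ 8 * KK m →
        cf L w (t - KK m) (i + n) = .s ∧ cf L w (t - KK m) (i - n) = .s := by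
      intro n
      induction n with
      | zero =>
        intro _
        have hS' : cf L w (t - KK m) i = .s := hS
        constructor
        · rw [Nat.cast_zero, add_zero]
          exact hS'
        · rw [Nat.cast_zero, sub_zero]
          exact hS'
      | succ n ih =>
        intro hn
        obtain ⟨ha, hb'⟩ := ih (by omega)
        constructor
        · have h5 := (hno (i + n) (by
            rw [add_sub_cancel_left, abs_of_nonneg (by positivity)]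
            omega)).1 ha
          rw [show i + ((n + 1 : ℕ) : ℤ) = i + n + 1 by push_cast; ring]
          exact h5
        · have h5 := (hno (i - ((n + 1 : ℕ) : ℤ)) (by
            rw [show i - ((n + 1 : ℕ) : ℤ) - i = -((n + 1 : ℕ) : ℤ) by ring, abs_neg,
              abs_of_nonneg (by positivity)]
            omega))
          rw [show i - ((n + 1 : ℕ) : ℤ) + 1 = i - n by push_cast; ring] at h5
          exact h5.2 hb'
    intro k hk
    rcases le_total i k with h5 | h5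
    · obtain ⟨n, hn⟩ : ∃ n : ℕ, k = i + n := ⟨(k - i).toNat, by omega⟩
      rw [hn, add_sub_cancel_left, abs_of_nonneg (by positivity)] at hk
      rw [hn]
      exact (hind n (by omega)).1
    · obtain ⟨n, hn⟩ : ∃ n : ℕ, k = i - n := ⟨(i - k).toNat, by omega⟩
      rw [hn, show i - (n : ℤ) - i = -(n : ℤ) by ring, abs_neg,
        abs_of_nonneg (by positivity)] at hk
      rw [hn]
      exact (hind n (by omega)).2

lemma nucpsi_dep_sub {X : Set (ℕ × ℤ)} {f g : Nz → ℝ} (hf : Dep X f) (hg : Dep X g) :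
    Dep X (fun w => f w - g w) := fun w w' h => by
  show f w - g w = f w' - g w'
  rw [hf w w' h, hg w w' h]

/-- the lower bound as a function of the noise -/
noncomputable def nucpsi_G (L m t : ℕ) (i y : ℤ) (w : Nz) : ℝ :=
  ind (nucpsi_S L m t i w) - ind (SEn L m t i w) -
    ind (nucpsi_M1 m t i w ∧ Stn L m t i w) - ind (nucpsi_M2 m t i y w ∧ nucpsi_S L m t i w)

lemma nucpsi_G_dep (L m t : ℕ) (i y : ℤ) :
    Dep {c : ℕ × ℤ | c ≠ (t, y)} (nucpsi_G L m t i y) := by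
  have hlt : ∀ s : ℕ, s ≤ t → ({c : ℕ × ℤ | c.1 < s} ⊆ {c : ℕ × ℤ | c ≠ (t, y)}) := by
    intro s hs c hc
    have hc' : c.1 < s := hc
    intro h
    rw [h] at hc'
    simp only at hc'
    omega
  have hS : Dep {c : ℕ × ℤ | c ≠ (t, y)} fun w => ind (nucpsi_S L m t i w) :=
    (exc1_dep_cf L (t - KK m) (A := fun u => u i = .s)).mono (hlt _ (Nat.sub_le _ _))
  have hE : Dep {c : ℕ × ℤ | c ≠ (t, y)} fun w => ind (SEn L m t i w) :=
    (exc1_dep_cf L (t - KK m) (A := fun u => ∃ k : ℤ, |k - i| ≤ 8 * (KK m : ℤ) ∧ SE u k)).mono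
      (hlt _ (Nat.sub_le _ _))
  have hT : Dep {c : ℕ × ℤ | c ≠ (t, y)} fun w => ind (Stn L m t i w) :=
    (exc1_dep_cf L (t - 2 * KK m)
      (A := fun u => ∃ k : ℤ, |k - i| ≤ 12 * (KK m : ℤ) ∧ u k = .s)).mono (hlt _ (Nat.sub_le _ _))
  have h1 : Dep {c : ℕ × ℤ | c ≠ (t, y)} fun w => ind (nucpsi_M1 m t i w) := by
    refine Dep_ind fun w w' h => ?_
    have hne : ∀ (s : ℕ) (j : ℤ), s < t - KK m → ((s, j) : ℕ × ℤ) ≠ (t, y) := by
      intro s j hs he
      have := congrArg Prod.fst he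
      simp only at this
      omega
    constructor
    · rintro ⟨s, j, h1, h2, h3, h4⟩
      exact ⟨s, j, h1, h2, h3, by rw [← h (s, j) (hne s j h2)]; exact h4⟩
    · rintro ⟨s, j, h1, h2, h3, h4⟩
      exact ⟨s, j, h1, h2, h3, by rw [h (s, j) (hne s j h2)]; exact h4⟩
  have h2 : Dep {c : ℕ × ℤ | c ≠ (t, y)} fun w => ind (nucpsi_M2 m t i y w) := by
    refine Dep_ind fun w w' h => ?_
    constructor
    · rintro ⟨s, j, h1, h2, h3, h4, h5⟩
      exact ⟨s, j, h1, h2, h3, h4, by rw [← h (s, j) h4]; exact h5⟩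
    · rintro ⟨s, j, h1, h2, h3, h4, h5⟩
      exact ⟨s, j, h1, h2, h3, h4, by rw [h (s, j) h4]; exact h5⟩
  have h3 : Dep {c : ℕ × ℤ | c ≠ (t, y)}
      fun w => ind (nucpsi_M1 m t i w ∧ Stn L m t i w) := by
    have h4 := h1.mul hT
    intro w w' h
    have h5 := h4 w w' h
    simp only at h5 ⊢
    rw [ind_and, ind_and]
    exact h5
  have h4 : Dep {c : ℕ × ℤ | c ≠ (t, y)}
      fun w => ind (nucpsi_M2 m t i y w ∧ nucpsi_S L m t i w) := by
    have h4 := h2.mul hS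
    intro w w' h
    have h5 := h4 w w' h
    simp only at h5 ⊢
    rw [ind_and, ind_and]
    exact h5
  exact nucpsi_dep_sub (nucpsi_dep_sub (nucpsi_dep_sub hS hE) h3) h4

lemma nucpsi_G_le {L m t : ℕ} {i y : ℤ} (ht : 2 * KK m ≤ t) (b : Bool) (w : Nz) :
    ind (w t y = some b) * nucpsi_G L m t i y w ≤ ind (NU L m t i y b w) := by
  by_cases hb : w t y = some b
  · rw [ind_true hb, one_mul]
    unfold nucpsi_G
    have e1 := ind_nonneg (SEn L m t i w)
    have e2 := ind_nonneg (nucpsi_M1 m t i w ∧ Stn L m t i w)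
    have e3 := ind_nonneg (nucpsi_M2 m t i y w ∧ nucpsi_S L m t i w)
    have e4 := ind_le_one (nucpsi_S L m t i w)
    by_cases hN : NU L m t i y b w
    · rw [ind_true hN]
      linarith
    · rw [ind_false hN]
      by_cases hS : nucpsi_S L m t i w
      · by_cases h1 : SEn L m t i w
        · rw [ind_true h1]
          linarith
        · by_cases h2 : nucpsi_M1 m t i w ∧ Stn L m t i w
          · rw [ind_true h2]
            linarith
          · by_cases h3 : nucpsi_M2 m t i y w ∧ nucpsi_S L m t i w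
            · rw [ind_true h3]
              linarith
            · exact absurd (nucpsi_pt ht hb hS h1 h2 h3) hN
      · rw [ind_false hS]
        linarith
  · rw [ind_false hb, zero_mul]
    exact ind_nonneg _

lemma nucpsi_rate (P : Par) (b : Bool) : 0 ≤ (if b then P.d else P.e) := by
  cases b
  · exact P.he'
  · exact P.hd'

/-- one site -/
lemma nucpsi_site (P : Par) (m : ℕ) {t : ℕ} (ht : 2 * KK m ≤ t) (htT : t < P.T) {r : ℝ}
    (hr0 : 0 ≤ r) (hr1 : r ≤ 1) (i y : ℤ) (hy : |y - i| ≤ 1) (b : Bool) :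
    r * (if b then P.d else P.e) *
        Ex (JJ P.T P.A) P.e P.d (hyb t r) (nucpsi_G P.L m t i y) ≤
      Ex (JJ P.T P.A) P.e P.d (hyb t r) (fun w => ind (NU P.L m t i y b w)) := by
  by_cases hJ : (t, y) ∈ JJ P.T P.A
  · have h1 : Ex (JJ P.T P.A) P.e P.d (hyb t r)
        (fun w => ind (w t y = some b) * nucpsi_G P.L m t i y w) =
        Ex (JJ P.T P.A) P.e P.d (hyb t r) (fun w => ind (w t y = some b)) *
          Ex (JJ P.T P.A) P.e P.d (hyb t r) (nucpsi_G P.L m t i y) := by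
      refine Ex_indep _ _ _ _ (X := {(t, y)}) (Y := {c : ℕ × ℤ | c ≠ (t, y)}) ?_ ?_
        (nucpsi_G_dep P.L m t i y)
      · rw [Set.disjoint_left]
        intro c hc hc'
        exact hc' hc
      · exact Dep_ind fun w w' h => by rw [h (t, y) rfl]
    have h2 := Ex_mark P.e P.d (hyb t r) hJ b
    have h3 : hyb t r (t, y) = r := by
      unfold hyb
      simp
    rw [h3] at h2
    simp only at h2
    rw [h2] at h1
    rw [← h1]
    exact Ex_mono P.he' P.hd' P.hsum (hyb_mem t hr0 hr1) fun w _ => nucpsi_G_le ht b w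
  · have h1 : (P.A : ℤ) < |y| := by
      by_contra hcon
      apply hJ
      unfold JJ
      rw [Finset.mem_product, Finset.mem_range, mem_Icc_abs]
      exact ⟨htT, not_lt.1 hcon⟩
    have hA := P.hA
    have h2 : Ex (JJ P.T P.A) P.e P.d (hyb t r) (nucpsi_G P.L m t i y) ≤ 0 := by
      rw [← Ex_const (JJ P.T P.A) P.e P.d (hyb t r) 0]
      refine Ex_mono P.he' P.hd' P.hsum (hyb_mem t hr0 hr1) fun w _ => ?_
      have hS : ¬ nucpsi_S P.L m t i w := by
        intro hS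
        obtain ⟨j, hj, hj2⟩ := star_cf (Nat.zero_le (t - KK m)) hS
        have h4 : |j| ≤ (P.L : ℤ) := by
          by_contra hcon
          have h5 : cf P.L w 0 j = .z := by
            show (if |j| ≤ (P.L : ℤ) then Sy.s else Sy.z) = .z
            rw [if_neg hcon]
          rw [h5] at hj2
          exact absurd hj2 (by decide)
        have h5 : ((t - KK m : ℕ) : ℤ) ≤ P.T := by omega
        rw [Nat.cast_zero, sub_zero] at hj
        rw [abs_le] at h4 hj hy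
        rcases abs_cases y with ⟨h6, _⟩ | ⟨h6, _⟩ <;> omega
      unfold nucpsi_G
      rw [ind_false hS]
      have e1 := ind_nonneg (SEn P.L m t i w)
      have e2 := ind_nonneg (nucpsi_M1 m t i w ∧ Stn P.L m t i w)
      have e3 := ind_nonneg (nucpsi_M2 m t i y w ∧ nucpsi_S P.L m t i w)
      linarith
    have h3 : 0 ≤ Ex (JJ P.T P.A) P.e P.d (hyb t r) (fun w => ind (NU P.L m t i y b w)) :=
      Ex_nonneg P.he' P.hd' P.hsum (hyb_mem t hr0 hr1) fun w _ => ind_nonneg _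
    refine (mul_nonpos_of_nonneg_of_nonpos ?_ h2).trans h3
    exact mul_nonneg hr0 (nucpsi_rate P b)

/-! ### sums over the sites -/

lemma nucpsi_sum_S (P : Par) (m : ℕ) (t : ℕ) (r : ℝ) :
    ∑ i ∈ Finset.Icc (-(P.A : ℤ)) (P.A : ℤ),
      Ex (JJ P.T P.A) P.e P.d (hyb t r) (fun w => ind (nucpsi_S P.L m t i w)) =
    P.Q (t - KK m) := by
  rw [← Ex_sum]
  have h1 : Ex (JJ P.T P.A) P.e P.d (hyb t r) (fun w =>
      ∑ i ∈ Finset.Icc (-(P.A : ℤ)) (P.A : ℤ), ind (nucpsi_S P.L m t i w)) =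
      Ex (JJ P.T P.A) P.e P.d (hyb t r) (fun w => nst (cf P.L w (t - KK m))) := by
    refine Ex_congr fun w hw => ?_
    rw [nst_eq (cf_sup (exc1_LA P) hw (t - KK m))]
    rfl
  rw [h1, exc1_hyb P (Nat.sub_le t (KK m)) r nst]
  rfl

lemma nucpsi_sum_SEn (P : Par) (m : ℕ) {t : ℕ} {r : ℝ} (hr0 : 0 ≤ r) (hr1 : r ≤ 1) :
    ∑ i ∈ Finset.Icc (-(P.A : ℤ)) (P.A : ℤ),
      Ex (JJ P.T P.A) P.e P.d (hyb t r) (fun w => ind (SEn P.L m t i w)) ≤
    (2 * (8 * KK m : ℕ) + 1) * P.bc (t - KK m) := by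
  have h1 : ∀ i ∈ Finset.Icc (-(P.A : ℤ)) (P.A : ℤ),
      Ex (JJ P.T P.A) P.e P.d (hyb t r) (fun w => ind (SEn P.L m t i w)) =
      Ex (JJ P.T P.A) P.e P.d (hyb t r) (fun w => ind (True ∧ SEn P.L m t i w)) := by
    intro i _
    exact Ex_congr fun w _ => ind_congr (by rw [true_and])
  rw [Finset.sum_congr rfl h1]
  refine (exc1_prod P.he' P.hd' P.hsum (hyb_mem t hr0 hr1) _ (8 * KK m) (a := 1) zero_le_one
    (fun _ => ∅) {c | c.1 < t - KK m} ?_ (fun _ _ => True) (fun i w => SEn P.L m t i w)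
    (fun i w => SE (cf P.L w (t - KK m)) i) (fun w => Bn (cf P.L w (t - KK m))) ?_ ?_ ?_ ?_
    ?_).trans (le_of_eq ?_)
  · intro i
    exact Set.empty_disjoint _
  · intro i w w' _
    rfl
  · intro i
    exact exc1_dep_cf P.L (t - KK m) (A := fun u => ∃ k : ℤ, |k - i| ≤ 8 * (KK m : ℤ) ∧ SE u k)
  · intro i
    refine (Ex_mono P.he' P.hd' P.hsum (hyb_mem t hr0 hr1) (g := fun _ => (1 : ℝ))
      fun w _ => ind_le_one _).trans (le_of_eq (Ex_const _ _ _ _ _))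
  · rintro i w ⟨k, hk, hSE⟩
    refine ⟨k - i, ?_, ?_⟩
    · rw [mem_Icc_abs]
      push_cast
      exact hk
    · show SE (cf P.L w (t - KK m)) (i + (k - i))
      rw [add_sub_cancel]
      exact hSE
  · intro w hw l
    exact exc1_SE (cf_sup (exc1_LA P) hw _) _ l
  · rw [exc1_hyb P (Nat.sub_le t (KK m)) r Bn, one_mul]
    rfl

lemma nucpsi_sum_M1 (P : Par) (m : ℕ) {t : ℕ} (ht : 2 * KK m ≤ t) {r : ℝ} (hr0 : 0 ≤ r)
    (hr1 : r ≤ 1) :
    ∑ i ∈ Finset.Icc (-(P.A : ℤ)) (P.A : ℤ), Ex (JJ P.T P.A) P.e P.d (hyb t r)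
      (fun w => ind (nucpsi_M1 m t i w ∧ Stn P.L m t i w)) ≤
    (((2 * KK m : ℕ) + 1 : ℝ) * (2 * (12 * KK m : ℕ) + 1)) * (2 * P.d) *
      ((2 * (12 * KK m : ℕ) + 1) * P.Q (t - 2 * KK m)) := by
  refine (exc1_prod P.he' P.hd' P.hsum (hyb_mem t hr0 hr1) _ (12 * KK m)
    (a := (((2 * KK m : ℕ) + 1 : ℝ) * (2 * (12 * KK m : ℕ) + 1)) * (2 * P.d))
    (by have := P.hd'; positivity)
    (fun i => {c | t ≤ c.1 + 2 * KK m}) {c | c.1 < t - 2 * KK m} ?_
    (fun i w => nucpsi_M1 m t i w) (fun i w => Stn P.L m t i w)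
    (fun i w => cf P.L w (t - 2 * KK m) i = .s)
    (fun w => nst (cf P.L w (t - 2 * KK m))) ?_ ?_ ?_ ?_ ?_).trans (le_of_eq ?_)
  · intro i
    rw [Set.disjoint_left]
    intro c h1 h3
    have h4 : c.1 < t - 2 * KK m := h3
    have h5 : t ≤ c.1 + 2 * KK m := h1
    omega
  · intro i
    refine Dep_ind fun w w' h => ?_
    constructor
    · rintro ⟨s, j, h1, h2, h3, h4⟩
      exact ⟨s, j, h1, h2, h3, by rw [← h (s, j) h1]; exact h4⟩
    · rintro ⟨s, j, h1, h2, h3, h4⟩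
      exact ⟨s, j, h1, h2, h3, by rw [h (s, j) h1]; exact h4⟩
  · intro i
    exact exc1_dep_cf P.L (t - 2 * KK m)
      (A := fun u => ∃ k : ℤ, |k - i| ≤ 12 * (KK m : ℤ) ∧ u k = .s)
  · intro i
    refine (exc1_mark _ P.he' P.hed P.hd (hyb_mem t hr0 hr1)
      (exc1_box t i (2 * KK m) (12 * KK m)) ?_).trans (le_of_eq ?_)
    · rintro w ⟨s, j, h1, h2, h3, h4⟩
      exact ⟨(s, j), exc1_mem_box h1 (by omega) (by push_cast; exact h3), h4⟩
    · rw [exc1_box_card ht]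
  · rintro i w ⟨k, hk, hs⟩
    refine ⟨k - i, ?_, ?_⟩
    · rw [mem_Icc_abs]
      push_cast
      exact hk
    · show cf P.L w (t - 2 * KK m) (i + (k - i)) = .s
      rw [add_sub_cancel]
      exact hs
  · intro w hw l
    exact exc1_st (cf_sup (exc1_LA P) hw _) _ l
  · rw [exc1_hyb P (Nat.sub_le t (2 * KK m)) r nst]
    rfl

lemma nucpsi_sum_M2 (P : Par) (m : ℕ) {t : ℕ} (ht : 2 * KK m ≤ t) {r : ℝ} (hr0 : 0 ≤ r)
    (hr1 : r ≤ 1) (y : ℤ → ℤ) :
    ∑ i ∈ Finset.Icc (-(P.A : ℤ)) (P.A : ℤ), Ex (JJ P.T P.A) P.e P.d (hyb t r)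
      (fun w => ind (nucpsi_M2 m t i (y i) w ∧ nucpsi_S P.L m t i w)) ≤
    (((KK m : ℕ) + 1 : ℝ) * (2 * (12 * KK m : ℕ) + 1)) * (2 * P.d) *
      ((2 * (0 : ℕ) + 1) * P.Q (t - KK m)) := by
  refine (exc1_prod P.he' P.hd' P.hsum (hyb_mem t hr0 hr1) _ 0
    (a := (((KK m : ℕ) + 1 : ℝ) * (2 * (12 * KK m : ℕ) + 1)) * (2 * P.d))
    (by have := P.hd'; positivity)
    (fun i => {c | t ≤ c.1 + KK m}) {c | c.1 < t - KK m} ?_
    (fun i w => nucpsi_M2 m t i (y i) w) (fun i w => nucpsi_S P.L m t i w)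
    (fun i w => cf P.L w (t - KK m) i = .s)
    (fun w => nst (cf P.L w (t - KK m))) ?_ ?_ ?_ ?_ ?_).trans (le_of_eq ?_)
  · intro i
    rw [Set.disjoint_left]
    intro c h1 h3
    have h4 : c.1 < t - KK m := h3
    have h5 : t ≤ c.1 + KK m := h1
    omega
  · intro i
    refine Dep_ind fun w w' h => ?_
    constructor
    · rintro ⟨s, j, h1, h2, h3, h4, h5⟩
      exact ⟨s, j, h1, h2, h3, h4, by rw [← h (s, j) h1]; exact h5⟩
    · rintro ⟨s, j, h1, h2, h3, h4, h5⟩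
      exact ⟨s, j, h1, h2, h3, h4, by rw [h (s, j) h1]; exact h5⟩
  · intro i
    exact exc1_dep_cf P.L (t - KK m) (A := fun u => u i = .s)
  · intro i
    refine (exc1_mark _ P.he' P.hed P.hd (hyb_mem t hr0 hr1)
      (exc1_box t i (KK m) (12 * KK m)) ?_).trans (le_of_eq ?_)
    · rintro w ⟨s, j, h1, h2, h3, _, h4⟩
      exact ⟨(s, j), exc1_mem_box h1 h2 (by push_cast; exact h3), h4⟩
    · rw [exc1_box_card (by omega)]
  · intro i w hs
    refine ⟨0, ?_, ?_⟩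
    · rw [mem_Icc_abs]
      simp
    · show cf P.L w (t - KK m) (i + 0) = .s
      rw [add_zero]
      exact hs
  · intro w hw l
    exact exc1_st (cf_sup (exc1_LA P) hw _) _ l
  · rw [exc1_hyb P (Nat.sub_le t (KK m)) r nst]
    rfl

lemma nucpsi_Q (P : Par) (m : ℕ) {t : ℕ} (ht : 2 * KK m ≤ t) :
    P.Q (t - KK m) ≤ (2 * (KK m : ℕ) + 1) * P.Q (t - 2 * KK m) := by
  rw [← nucpsi_sum_S P m t 1]
  have h1 : ∀ i ∈ Finset.Icc (-(P.A : ℤ)) (P.A : ℤ),
      Ex (JJ P.T P.A) P.e P.d (hyb t 1) (fun w => ind (nucpsi_S P.L m t i w)) =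
      Ex (JJ P.T P.A) P.e P.d (hyb t 1) (fun w => ind (True ∧ nucpsi_S P.L m t i w)) := by
    intro i _
    exact Ex_congr fun w _ => ind_congr (by rw [true_and])
  rw [Finset.sum_congr rfl h1]
  refine (exc1_prod P.he' P.hd' P.hsum (hyb_mem t zero_le_one le_rfl) _ (KK m) (a := 1)
    zero_le_one (fun _ => ∅) {c | c.1 < t - KK m} ?_ (fun _ _ => True)
    (fun i w => nucpsi_S P.L m t i w)
    (fun i w => cf P.L w (t - 2 * KK m) i = .s)
    (fun w => nst (cf P.L w (t - 2 * KK m))) ?_ ?_ ?_ ?_ ?_).trans (le_of_eq ?_)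
  · intro i
    exact Set.empty_disjoint _
  · intro i w w' _
    rfl
  · intro i
    exact exc1_dep_cf P.L (t - KK m) (A := fun u => u i = .s)
  · intro i
    refine (Ex_mono P.he' P.hd' P.hsum (hyb_mem t zero_le_one le_rfl) (g := fun _ => (1 : ℝ))
      fun w _ => ind_le_one _).trans (le_of_eq (Ex_const _ _ _ _ _))
  · intro i w hs
    obtain ⟨j, hj, hj2⟩ := star_cf (s := t - 2 * KK m) (t := t - KK m) (by omega) hs
    refine ⟨j - i, ?_, ?_⟩
    · rw [mem_Icc_abs]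
      refine hj.trans ?_
      have h6 : ((t - KK m : ℕ) : ℤ) = t - KK m := by omega
      have h7 : ((t - 2 * KK m : ℕ) : ℤ) = t - 2 * KK m := by omega
      rw [h6, h7]
      omega
    · show cf P.L w (t - 2 * KK m) (i + (j - i)) = .s
      rw [add_sub_cancel]
      exact hj2
  · intro w hw l
    exact exc1_st (cf_sup (exc1_LA P) hw _) _ l
  · rw [exc1_hyb P (Nat.sub_le t (2 * KK m)) 1 nst, one_mul]
    rfl

/-- the constants -/
noncomputable def nucpsi_c1 (m : ℕ) : ℝ := 2 * (8 * KK m : ℕ) + 1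

noncomputable def nucpsi_c2 (m : ℕ) : ℝ :=
  (((2 * KK m : ℕ) + 1 : ℝ) * (2 * (12 * KK m : ℕ) + 1)) * 2 * (2 * (12 * KK m : ℕ) + 1) +
    (((KK m : ℕ) + 1 : ℝ) * (2 * (12 * KK m : ℕ) + 1)) * 2 * (2 * (KK m : ℕ) + 1)

/-- the sum over the sites -/
lemma nucpsi_main (P : Par) (m : ℕ) {t : ℕ} (ht : 2 * KK m ≤ t) (htT : t < P.T) {r : ℝ}
    (hr0 : 0 ≤ r) (hr1 : r ≤ 1) (y : ℤ → ℤ) (hy : ∀ i, |y i - i| ≤ 1) (b : Bool) :
    r * (if b then P.d else P.e) * (P.Q (t - KK m) - nucpsi_c1 m * P.bc (t - KK m) -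
        nucpsi_c2 m * (P.d * P.Q (t - 2 * KK m))) ≤
      ∑ i ∈ Finset.Icc (-(P.A : ℤ)) (P.A : ℤ),
        Ex (JJ P.T P.A) P.e P.d (hyb t r) (fun w => ind (NU P.L m t i (y i) b w)) := by
  refine le_trans ?_ (Finset.sum_le_sum fun i _ =>
    nucpsi_site P m ht htT hr0 hr1 i (y i) (hy i) b)
  rw [← Finset.mul_sum]
  refine mul_le_mul_of_nonneg_left ?_ (mul_nonneg hr0 (nucpsi_rate P b))
  have h1 : ∀ i ∈ Finset.Icc (-(P.A : ℤ)) (P.A : ℤ),
      Ex (JJ P.T P.A) P.e P.d (hyb t r) (nucpsi_G P.L m t i (y i)) =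
      Ex (JJ P.T P.A) P.e P.d (hyb t r) (fun w => ind (nucpsi_S P.L m t i w)) -
      Ex (JJ P.T P.A) P.e P.d (hyb t r) (fun w => ind (SEn P.L m t i w)) -
      Ex (JJ P.T P.A) P.e P.d (hyb t r)
        (fun w => ind (nucpsi_M1 m t i w ∧ Stn P.L m t i w)) -
      Ex (JJ P.T P.A) P.e P.d (hyb t r)
        (fun w => ind (nucpsi_M2 m t i (y i) w ∧ nucpsi_S P.L m t i w)) := by
    intro i _
    rw [← Ex_sub, ← Ex_sub, ← Ex_sub]
    rfl
  rw [Finset.sum_congr rfl h1, Finset.sum_sub_distrib, Finset.sum_sub_distrib,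
    Finset.sum_sub_distrib, nucpsi_sum_S]
  have h2 := nucpsi_sum_SEn P m (t := t) hr0 hr1
  have h3 := nucpsi_sum_M1 P m ht hr0 hr1
  have h4 := nucpsi_sum_M2 P m ht hr0 hr1 y
  have h5 := nucpsi_Q P m ht
  have hd := P.hd'
  have h6 : (((KK m : ℕ) + 1 : ℝ) * (2 * (12 * KK m : ℕ) + 1)) * (2 * P.d) *
      ((2 * (0 : ℕ) + 1) * P.Q (t - KK m)) ≤
      (((KK m : ℕ) + 1 : ℝ) * (2 * (12 * KK m : ℕ) + 1)) * (2 * P.d) *
      ((2 * (KK m : ℕ) + 1) * P.Q (t - 2 * KK m)) := by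
    refine mul_le_mul_of_nonneg_left ?_ (by positivity)
    rw [Nat.cast_zero, mul_zero, zero_add, one_mul]
    exact h5
  unfold nucpsi_c1 nucpsi_c2
  linarith

theorem thm_NucPsi (m : ℕ) : St_NucPsi m := by
  have hc1 : 0 ≤ nucpsi_c1 m := by
    unfold nucpsi_c1
    positivity
  have hc2 : 0 ≤ nucpsi_c2 m := by
    unfold nucpsi_c2
    positivity
  refine ⟨2 * (nucpsi_c1 m + nucpsi_c2 m) + 1, by positivity, fun P t ht htT => ?_⟩
  have hd0 := P.hd'
  have he0 := P.he'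
  have hQ := Q_nonneg P (t - 2 * KK m)
  have hbc := bc_nonneg P (t - KK m)
  obtain ⟨X, hX⟩ : ∃ X : ℝ, X = P.Q (t - KK m) - nucpsi_c1 m * P.bc (t - KK m) -
    nucpsi_c2 m * (P.d * P.Q (t - 2 * KK m)) := ⟨_, rfl⟩
  have hneg : ∀ (r : ℝ) (y : ℤ → ℤ) (b : Bool) (i : ℤ),
      Ex (JJ P.T P.A) P.e P.d (hyb t r) (fun w => ind (NU P.L m t i (y i) b w) * (-1)) =
      -Ex (JJ P.T P.A) P.e P.d (hyb t r) (fun w => ind (NU P.L m t i (y i) b w)) := by
    intro r y b i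
    rw [← Ex_neg]
    exact Ex_congr fun w _ => by ring
  have hcont : Continuous fun r : ℝ => ∑ i ∈ Finset.Icc (-(P.A : ℤ)) (P.A : ℤ),
    (P.e * (Ex (JJ P.T P.A) P.e P.d (hyb t r) (fun w => ind (NU P.L m t i (i - 1) false w) *
        (-1)) + Ex (JJ P.T P.A) P.e P.d (hyb t r) (fun w =>
          ind (NU P.L m t i (i + 1) false w) * (-1))) +
      P.d * (Ex (JJ P.T P.A) P.e P.d (hyb t r) (fun w => ind (NU P.L m t i (i - 1) true w) *
        (-1)) + Ex (JJ P.T P.A) P.e P.d (hyb t r) (fun w =>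
          ind (NU P.L m t i (i + 1) true w) * (-1)))) :=
    continuous_finsetSum _ fun i _ =>
      (continuous_const.mul ((Ex_cont _ _ _ _ _).add (Ex_cont _ _ _ _ _))).add
        (continuous_const.mul ((Ex_cont _ _ _ _ _).add (Ex_cont _ _ _ _ _)))
  have hcont2 : Continuous fun r : ℝ => (-(2 * (P.e ^ 2 + P.d ^ 2) * X)) * r :=
    continuous_const.mul continuous_id
  have hint := intervalIntegral.integral_mono_on (μ := volume) zero_le_one
    (hcont.intervalIntegrable 0 1) (hcont2.intervalIntegrable 0 1) ?_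
  · have h1 : (∫ r in (0 : ℝ)..1, (-(2 * (P.e ^ 2 + P.d ^ 2) * X)) * r) =
        -((P.e ^ 2 + P.d ^ 2) * X) := by
      rw [intervalIntegral.integral_const_mul, integral_id]
      norm_num
      ring
    rw [h1] at hint
    unfold Par.NUC
    refine hint.trans ?_
    have hed2 : P.e ^ 2 + P.d ^ 2 ≤ 2 * P.d ^ 2 := by
      have := pow_le_pow_left₀ he0 P.hed 2
      linarith
    have h2 : 0 ≤ nucpsi_c1 m * P.bc (t - KK m) + nucpsi_c2 m * (P.d * P.Q (t - 2 * KK m)) := by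
      positivity
    have h3 : (P.e ^ 2 + P.d ^ 2) * (nucpsi_c1 m * P.bc (t - KK m) +
        nucpsi_c2 m * (P.d * P.Q (t - 2 * KK m))) ≤ (2 * P.d ^ 2) *
        (nucpsi_c1 m * P.bc (t - KK m) + nucpsi_c2 m * (P.d * P.Q (t - 2 * KK m))) :=
      mul_le_mul_of_nonneg_right hed2 h2
    have h4 : (2 * P.d ^ 2) * (nucpsi_c1 m * P.bc (t - KK m) +
        nucpsi_c2 m * (P.d * P.Q (t - 2 * KK m))) ≤
        (2 * (nucpsi_c1 m + nucpsi_c2 m) + 1) *
          (P.d ^ 2 * P.bc (t - KK m) + P.d ^ 3 * P.Q (t - 2 * KK m)) := by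
      have k1 : 0 ≤ P.d ^ 2 * P.bc (t - KK m) := by positivity
      have k2 : 0 ≤ P.d ^ 3 * P.Q (t - 2 * KK m) := by positivity
      have e1 : (2 * P.d ^ 2) * (nucpsi_c1 m * P.bc (t - KK m) +
        nucpsi_c2 m * (P.d * P.Q (t - 2 * KK m))) =
        2 * nucpsi_c1 m * (P.d ^ 2 * P.bc (t - KK m)) +
          2 * nucpsi_c2 m * (P.d ^ 3 * P.Q (t - 2 * KK m)) := by ring
      have e2 : (2 * (nucpsi_c1 m + nucpsi_c2 m) + 1) *
          (P.d ^ 2 * P.bc (t - KK m) + P.d ^ 3 * P.Q (t - 2 * KK m)) =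
        2 * nucpsi_c1 m * (P.d ^ 2 * P.bc (t - KK m)) +
          2 * nucpsi_c2 m * (P.d ^ 3 * P.Q (t - 2 * KK m)) +
        ((2 * nucpsi_c2 m + 1) * (P.d ^ 2 * P.bc (t - KK m)) +
          (2 * nucpsi_c1 m + 1) * (P.d ^ 3 * P.Q (t - 2 * KK m))) := by ring
      rw [e1, e2]
      have k3 : 0 ≤ (2 * nucpsi_c2 m + 1) * (P.d ^ 2 * P.bc (t - KK m)) +
          (2 * nucpsi_c1 m + 1) * (P.d ^ 3 * P.Q (t - 2 * KK m)) := by positivity
      linarith
    have e3 : -((P.e ^ 2 + P.d ^ 2) * X) = -(P.e ^ 2 + P.d ^ 2) * P.Q (t - KK m) +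
        (P.e ^ 2 + P.d ^ 2) * (nucpsi_c1 m * P.bc (t - KK m) +
          nucpsi_c2 m * (P.d * P.Q (t - 2 * KK m))) := by
      rw [hX]
      ring
    rw [e3]
    linarith
  · rintro r ⟨hr0, hr1⟩
    have y1 : ∀ i : ℤ, |(i - 1) - i| ≤ 1 := fun i => by
      rw [show i - 1 - i = -1 by ring]
      norm_num
    have y2 : ∀ i : ℤ, |(i + 1) - i| ≤ 1 := fun i => by
      rw [show i + 1 - i = 1 by ring]
      norm_num
    have k1 := nucpsi_main P m ht htT hr0 hr1 (fun i => i - 1) y1 false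
    have k2 := nucpsi_main P m ht htT hr0 hr1 (fun i => i + 1) y2 false
    have k3 := nucpsi_main P m ht htT hr0 hr1 (fun i => i - 1) y1 true
    have k4 := nucpsi_main P m ht htT hr0 hr1 (fun i => i + 1) y2 true
    rw [← hX] at k1 k2 k3 k4
    simp only [if_true, Bool.false_eq_true, if_false] at k1 k2 k3 k4
    have e1 : ∑ i ∈ Finset.Icc (-(P.A : ℤ)) (P.A : ℤ),
        (P.e * (Ex (JJ P.T P.A) P.e P.d (hyb t r)
            (fun w => ind (NU P.L m t i (i - 1) false w) * (-1)) +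
          Ex (JJ P.T P.A) P.e P.d (hyb t r)
            (fun w => ind (NU P.L m t i (i + 1) false w) * (-1))) +
        P.d * (Ex (JJ P.T P.A) P.e P.d (hyb t r)
            (fun w => ind (NU P.L m t i (i - 1) true w) * (-1)) +
          Ex (JJ P.T P.A) P.e P.d (hyb t r)
            (fun w => ind (NU P.L m t i (i + 1) true w) * (-1)))) =
        -(P.e * ((∑ i ∈ Finset.Icc (-(P.A : ℤ)) (P.A : ℤ), Ex (JJ P.T P.A) P.e P.d (hyb t r)
            (fun w => ind (NU P.L m t i (i - 1) false w))) +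
          ∑ i ∈ Finset.Icc (-(P.A : ℤ)) (P.A : ℤ), Ex (JJ P.T P.A) P.e P.d (hyb t r)
            (fun w => ind (NU P.L m t i (i + 1) false w))) +
        P.d * ((∑ i ∈ Finset.Icc (-(P.A : ℤ)) (P.A : ℤ), Ex (JJ P.T P.A) P.e P.d (hyb t r)
            (fun w => ind (NU P.L m t i (i - 1) true w))) +
          ∑ i ∈ Finset.Icc (-(P.A : ℤ)) (P.A : ℤ), Ex (JJ P.T P.A) P.e P.d (hyb t r)
            (fun w => ind (NU P.L m t i (i + 1) true w)))) := by
      rw [← Finset.sum_add_distrib, ← Finset.sum_add_distrib, Finset.mul_sum, Finset.mul_sum,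
        ← Finset.sum_add_distrib, ← Finset.sum_neg_distrib]
      refine Finset.sum_congr rfl fun i _ => ?_
      rw [hneg r (fun i => i - 1) false i, hneg r (fun i => i + 1) false i,
        hneg r (fun i => i - 1) true i, hneg r (fun i => i + 1) true i]
      ring
    rw [e1]
    have k5 := mul_le_mul_of_nonneg_left (add_le_add k1 k2) he0
    have k6 := mul_le_mul_of_nonneg_left (add_le_add k3 k4) hd0
    have e2 : (-(2 * (P.e ^ 2 + P.d ^ 2) * X)) * r =
        -(P.e * (r * P.e * X + r * P.e * X) + P.d * (r * P.d * X + r * P.d * X)) := by ring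
    rw [e2]
    linarith

end Pool.Agent.T3M
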