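import Mathlib
import Pool.Agent.T3M.AV

/-! The probability of noise which is not good (helper91). -/

set_option autoImplicit false

namespace Pool.Agent.T3M

/-- the probability that all places of `S` have marks -/
lemma pg_all (J : Finset (ℕ × ℤ)) {e d : ℝ} {p : ℕ × ℤ → ℝ} (he : 0 ≤ e) (hed : e ≤ d)
    (hd4 : d ≤ 1 / 4) (hp : ∀ c, 0 ≤ p c ∧ p c ≤ 1) (S : Finset (ℕ × ℤ)) :
    Ex J e d p (fun w => ind (∀ c ∈ S, w c.1 c.2 ≠ none)) ≤ (2 * d) ^ S.card := by
  classical
  induction S using Finset.induction_on with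
  | empty =>
    rw [Ex_congr (g := fun _ => (1 : ℝ)) fun w _ => ind_true (by simp), Ex_const]
    simp
  | insert c S hc ih =>
    have h1 : Ex J e d p (fun w => ind (∀ c' ∈ insert c S, w c'.1 c'.2 ≠ none)) =
        Ex J e d p (fun w => ind (w c.1 c.2 ≠ none) * ind (∀ c' ∈ S, w c'.1 c'.2 ≠ none)) := by
      refine Ex_congr fun w _ => ?_
      rw [← ind_and]
      exact ind_congr (by simp)
    rw [h1, Ex_indep J e d p (X := {c}) (Y := (S : Set (ℕ × ℤ)))
      (Set.disjoint_singleton_left.2 (by simpa using hc))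
      (Dep_ind fun w w' hw => by rw [hw c rfl])
      (Dep_ind fun w w' hw => by
        constructor
        · intro h c' hc'
          rw [← hw c' (by simpa using hc')]
          exact h c' hc'
        · intro h c' hc'
          rw [hw c' (by simpa using hc')]
          exact h c' hc'), Finset.card_insert_of_notMem hc, pow_succ, mul_comm ((2 * d) ^ S.card)]
    have hd : 0 ≤ d := he.trans hed
    refine mul_le_mul (Ex_mark_le J p c he hed (hp c)) ih ?_ (by linarith)
    exact Ex_nonneg he hd (by linarith) hp fun w _ => ind_nonneg _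

/-- the places near `c` -/
noncomputable def pg_nb (W H : ℕ) (c : ℕ × ℤ) : Finset (ℕ × ℤ) :=
  Finset.Icc (c.1 - H) (c.1 + H) ×ˢ Finset.Icc (c.2 - 2 * W) (c.2 + 2 * W)

lemma pg_nb_card (W H : ℕ) (c : ℕ × ℤ) : (pg_nb W H c).card ≤ (2 * H + 1) * (4 * W + 1) := by
  unfold pg_nb
  rw [Finset.card_product, Nat.card_Icc, Int.card_Icc]
  apply Nat.mul_le_mul
  · omega
  · omega

theorem thm_PG (m : ℕ) : St_PG m := by
  classical
  set W := WW (m + 1) with hW
  set H := HH (m + 1) with hH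
  set K0 := (2 * H + 1) * (4 * W + 1) with hK0
  refine ⟨3 * 2 ^ K0, by positivity, ?_⟩
  intro T A e d p he hed hd4 hT hA hp
  have hd : 0 ≤ d := he.trans hed
  have hTr : (1 : ℝ) ≤ T := by exact_mod_cast hT
  have hAr : (1 : ℝ) ≤ A := by exact_mod_cast hA
  have h2 : (1 : ℝ) ≤ 2 ^ K0 := one_le_pow₀ (by norm_num)
  rcases Nat.eq_zero_or_pos m with h0 | hm
  · subst h0
    have h3 : Ex (JJ T A) e d p (fun w => ind (¬ Good 0 w)) ≤ 1 := by
      rw [← Ex_const (JJ T A) e d p 1]
      exact Ex_mono he hd (by linarith) hp fun w _ => ind_le_one _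
    rw [pow_zero, mul_one]
    have h4 : (1 : ℝ) ≤ 2 ^ K0 * T := one_le_mul_of_one_le_of_one_le h2 hTr
    have h5 : (1 : ℝ) ≤ 2 ^ K0 * T * A := one_le_mul_of_one_le_of_one_le h4 hAr
    linarith
  -- union bound
  have hu := Ex_union (JJ T A) he hd (by linarith) hp
    ((JJ T A).sigma fun c => (pg_nb W H c).powersetCard m)
    (A := fun w => ¬ Good m w) (B := fun q w => ∀ c ∈ q.2, w c.1 c.2 ≠ none) (by
      intro w hw hg
      unfold Good GoodB at hg
      rw [not_forall] at hg
      obtain ⟨t, hg⟩ := hg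
      rw [not_forall] at hg
      obtain ⟨i, hg⟩ := hg
      rw [not_forall] at hg
      obtain ⟨S, hg⟩ := hg
      rw [Classical.not_imp, not_lt] at hg
      obtain ⟨hS, hc⟩ := hg
      obtain ⟨S', hS', hcard⟩ := Finset.exists_subset_card_eq hc
      have hne : S'.Nonempty := by
        rw [← Finset.card_pos, hcard]; exact hm
      obtain ⟨c0, hc0⟩ := hne
      have hJ : c0 ∈ JJ T A := by
        by_contra h
        exact (hS c0 (hS' hc0)).2 (hw c0 h)
      refine ⟨⟨c0, S'⟩, ?_, fun c hc => (hS c (hS' hc)).2⟩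
      rw [Finset.mem_sigma]
      refine ⟨hJ, ?_⟩
      rw [Finset.mem_powersetCard]
      refine ⟨fun c hc => ?_, hcard⟩
      obtain ⟨a1, a2, a3⟩ := (hS c (hS' hc)).1
      obtain ⟨b1, b2, b3⟩ := (hS c0 (hS' hc0)).1
      show c ∈ pg_nb W H c0
      unfold pg_nb
      rw [Finset.mem_product, Finset.mem_Icc, Finset.mem_Icc]
      rw [abs_le] at a3 b3
      refine ⟨⟨by omega, by omega⟩, by omega, by omega⟩)
  refine hu.trans ?_
  have h3 : ∀ q ∈ (JJ T A).sigma (fun c => (pg_nb W H c).powersetCard m),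
      Ex (JJ T A) e d p (fun w => ind (∀ c ∈ q.2, w c.1 c.2 ≠ none)) ≤ (2 * d) ^ m := by
    rintro ⟨c0, S⟩ hq
    rw [Finset.mem_sigma] at hq
    have hq2 := (Finset.mem_powersetCard.1 hq.2).2
    have := pg_all (JJ T A) he hed hd4 hp S
    rw [hq2] at this
    exact this
  refine (Finset.sum_le_sum h3).trans ?_
  rw [Finset.sum_const, nsmul_eq_mul, Finset.card_sigma]
  have h4 : ∑ c ∈ JJ T A, ((pg_nb W H c).powersetCard m).card ≤ T * (2 * A + 1) * 2 ^ K0 := by
    have h5 : ∀ c ∈ JJ T A, ((pg_nb W H c).powersetCard m).card ≤ 2 ^ K0 := by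
      intro c _
      rw [Finset.card_powersetCard]
      exact (Nat.choose_le_two_pow _ _).trans (Nat.pow_le_pow_right (by norm_num) (pg_nb_card W H c))
    have h6 := Finset.sum_le_card_nsmul _ _ _ h5
    rw [smul_eq_mul] at h6
    have h7 : (JJ T A).card = T * (2 * A + 1) := by
      unfold JJ
      rw [Finset.card_product, Finset.card_range, Int.card_Icc]
      congr 1
      omega
    rw [h7] at h6
    exact h6
  have h8 : ((∑ c ∈ JJ T A, ((pg_nb W H c).powersetCard m).card : ℕ) : ℝ) ≤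
      3 * 2 ^ K0 * T * A := by
    have h9 : ((∑ c ∈ JJ T A, ((pg_nb W H c).powersetCard m).card : ℕ) : ℝ) ≤
        ((T * (2 * A + 1) * 2 ^ K0 : ℕ) : ℝ) := by exact_mod_cast h4
    refine h9.trans ?_
    push_cast
    have h10 : (T : ℝ) * (2 * A + 1) ≤ 3 * (T * A) := by nlinarith
    have h11 : (0 : ℝ) ≤ 2 ^ K0 := by positivity
    nlinarith
  exact mul_le_mul_of_nonneg_right h8 (by positivity)

end Pool.Agent.T3M
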