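import Mathlib
import Pool.Agent.T3M.St
import Pool.Agent.T3M.Ba
import Pool.Agent.T3M.PE

/-! One mark: comparison with the generator, path by path (helper55). -/

set_option autoImplicit false

namespace Pool.Agent.T3M

lemma path_K {m : ℕ} (hm : 1 ≤ m) : 4 ≤ KK m := by unfold KK; omega

lemma path_Gd_nonneg (D : ℕ) (u : ℤ → Sy) (i : ℤ) : 0 ≤ Gd D u i := by
  unfold Gd
  have h : 0 ≤ th D := by
    unfold th
    rcases Nat.eq_zero_or_pos D with h | h
    · subst h; simp
    · have h1 : (1 : ℝ) ≤ D := by exact_mod_cast h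
      have h2 : 1 / (2 * (D : ℝ)) ≤ 1 := by
        rw [div_le_one (by positivity)]; linarith
      linarith
  exact mul_nonneg (ind_nonneg _) (pow_nonneg h _)

/-- the discounted distance depends on the stars only -/
lemma path_Gd_congr (D : ℕ) {u u' : ℤ → Sy} (h : ∀ k, u k = .s ↔ u' k = .s) (i : ℤ) :
    Gd D u i = Gd D u' i := by
  have h1 : dl u i = dl u' i := by
    unfold dl
    congr 1
    ext j
    exact h _
  unfold Gd
  rw [h1]

/-- one more mark -/
lemma path_good {m : ℕ} {w : Nz} (h : Good m w) (t : ℕ) (i : ℤ) (v : Option Bool) :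
    GoodB (m + 1) (WW (m + 1)) (HH (m + 1)) (sw w t i v) := by
  classical
  intro t' i' S hS
  have h1 := h t' i' (S.erase (t, i)) (by
    intro c hc
    rw [Finset.mem_erase] at hc
    obtain ⟨h2, h3⟩ := hS c hc.2
    refine ⟨h2, ?_⟩
    rwa [sw_of_ne w v (show (c.1, c.2) ≠ (t, i) from hc.1)] at h3)
  have h2 := Finset.pred_card_le_card_erase (s := S) (a := (t, i))
  omega

lemma path_good' {m : ℕ} {w : Nz} (h : Good m w) :
    GoodB (m + 1) (WW (m + 1)) (HH (m + 1)) w := by
  have h1 := path_good h 0 0 (w 0 0)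
  rwa [sw_eq_self] at h1

lemma path_rel (h1 : St_L1) {m n : ℕ} {w : Nz} (L : ℕ)
    (hw : GoodB (m + 1) (WW (m + 1)) (HH (m + 1)) w) (hn : KK m ≤ n) (t : ℕ) :
    rel n (cf L w t) = rel (KK m) (cf L w t) := by
  have h := h1 (m + 1) (WW (m + 1)) (HH (m + 1)) L w (by omega) le_rfl le_rfl hw t
  have e : 2 * (m + 1) = KK m := by unfold KK; ring
  rw [e] at h
  obtain ⟨k, rfl⟩ := Nat.exists_eq_add_of_le hn
  rw [add_comm, rel_add, rel_root h]

/-- stars after the relaxation come from stars before -/
lemma path_star {m L t : ℕ} {w w' : Nz} (hK : KK m ≤ t)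
    (hw : ∀ (a : ℕ) (j : ℤ), a < t - KK m → w' a j = w a j) {k : ℤ}
    (h : rel (KK m) (cf L w' (t + 1)) k = .s) :
    ∃ j : ℤ, |j - k| ≤ 2 * (KK m : ℤ) + 1 ∧ cf L w (t - KK m) j = .s := by
  obtain ⟨j, hj, hj2⟩ := star_rel (KK m) h
  obtain ⟨j', hj', hj2'⟩ := star_cf (s := t - KK m) (by omega : t - KK m ≤ t + 1) hj2
  refine ⟨j', ?_, ?_⟩
  · have e : (((t + 1 : ℕ) : ℤ) - ((t - KK m : ℕ) : ℤ)) = KK m + 1 := by
      rw [Nat.cast_sub hK]
      push_cast
      ring
    rw [e] at hj'
    have : |j' - k| ≤ |j' - j| + |j - k| := by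
      have := abs_add_le (j' - j) (j - k)
      rwa [show j' - j + (j - k) = j' - k by ring] at this
    omega
  · rw [← hj2']
    exact congrFun (cf_dep (fun a j ha => (hw a j ha).symm)) j'

/-- different noise at one place in the last slice -/
lemma path_diff (L t K : ℕ) (w : Nz) (i : ℤ) (v v' : Option Bool) {k : ℤ}
    (hk : (K : ℤ) < |k - i|) :
    rel K (cf L (sw w t i v) (t + 1)) k = rel K (cf L (sw w t i v') (t + 1)) k := by
  apply rel_congr
  intro j hj
  have hji : j ≠ i := by
    rintro rfl
    rw [abs_sub_comm] at hj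
    omega
  apply cf_congr (Nat.le_succ t)
  · intro a _
    refine congrFun (cf_dep fun s l hs => ?_) a
    rw [sw_of_ne w v (by intro h; rw [Prod.mk.injEq] at h; omega),
      sw_of_ne w v' (by intro h; rw [Prod.mk.injEq] at h; omega)]
  · intro a l _ _ hl
    have ha : (a : ℤ) ≤ t := by
      have := abs_nonneg (l - j)
      push_cast at hl
      omega
    by_cases h : (a, l) = (t, i)
    · exfalso
      rw [Prod.mk.injEq] at h
      rw [h.1, h.2] at hl
      apply hji
      push_cast at hl
      have : |i - j| ≤ 0 := by linarith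
      have := abs_nonpos_iff.1 this
      omega
    · rw [sw_of_ne w v h, sw_of_ne w v' h]

/-- a mark in star bulk has no effect -/
lemma path_bulk {u : ℤ → Sy} (hu : Rt u) {i : ℤ} (h : ∀ k : ℤ, |k - i| ≤ 2 → u k = .s) (b : Bool) :
    Rf i b u = u := by
  have key : M (Function.update u i (bs b)) = u := by
    have a0 := h i (by simp)
    have a1 := h (i - 1) (by rw [show i - 1 - i = -1 by ring]; norm_num)
    have a2 := h (i + 1) (by rw [show i + 1 - i = 1 by ring]; norm_num)
    have a3 := h (i - 2) (by rw [show i - 2 - i = -2 by ring]; norm_num)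
    have a4 := h (i + 2) (by rw [show i + 2 - i = 2 by ring]; norm_num)
    funext k
    by_cases hk : k = i - 1 ∨ k = i ∨ k = i + 1
    · rcases hk with rfl | rfl | rfl
      · unfold M
        rw [Function.update_of_ne (by omega), Function.update_of_ne (by omega),
          show i - 1 + 1 = i by ring, Function.update_self, show i - 1 - 1 = i - 2 by ring, a3, a1]
        cases b <;> rfl
      · unfold M
        rw [Function.update_of_ne (by omega), Function.update_self,
          Function.update_of_ne (by omega), a1, a2, a0]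
        cases b <;> rfl
      · unfold M
        rw [show i + 1 - 1 = i by ring, Function.update_self, Function.update_of_ne (by omega),
          Function.update_of_ne (by omega), show i + 1 + 1 = i + 2 by ring, a2, a4]
        cases b <;> rfl
    · push Not at hk
      have h1 := hu k
      unfold M at h1 ⊢
      rw [Function.update_of_ne (by omega), Function.update_of_ne (by omega),
        Function.update_of_ne (by omega)]
      exact h1
  unfold Rf
  rw [key]
  exact hu.M_eq

/-- stars of the result of a single mark -/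
lemma path_star_Rf {u : ℤ → Sy} {i k : ℤ} {b : Bool} (h : Rf i b u k = .s) :
    ∃ j : ℤ, |j - k| ≤ 2 ∧ u j = .s := by
  have h1 : ∃ j : ℤ, |j - k| ≤ 1 ∧ M (Function.update u i (bs b)) j = .s := by
    rcases star_M h with h2 | h2 | h2
    · exact ⟨k - 1, by rw [show k - 1 - k = -1 by ring]; norm_num, h2⟩
    · exact ⟨k, by simp, h2⟩
    · exact ⟨k + 1, by rw [show k + 1 - k = 1 by ring]; norm_num, h2⟩
  obtain ⟨j, hj, hj2⟩ := h1
  have h3 : ∃ l : ℤ, |l - j| ≤ 1 ∧ Function.update u i (bs b) l = .s := by
    rcases star_M hj2 with h2 | h2 | h2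
    · exact ⟨j - 1, by rw [show j - 1 - j = -1 by ring]; norm_num, h2⟩
    · exact ⟨j, by simp, h2⟩
    · exact ⟨j + 1, by rw [show j + 1 - j = 1 by ring]; norm_num, h2⟩
  obtain ⟨l, hl, hl2⟩ := h3
  refine ⟨l, ?_, ?_⟩
  · have := abs_add_le (l - j) (j - k)
    rw [show l - j + (j - k) = l - k by ring] at this
    omega
  · by_cases hli : l = i
    · exfalso
      rw [hli, Function.update_self] at hl2
      revert hl2
      cases b <;> simp [bs]
    · rwa [Function.update_of_ne hli] at hl2

/-- a star and a site without star: a star edge between them -/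
lemma path_edge {u : ℤ → Sy} (n : ℕ) : ∀ a : ℤ, ¬ (u a = .s ↔ u (a + n) = .s) →
    ∃ k : ℤ, a ≤ k ∧ k < a + n ∧ SE u k := by
  induction n with
  | zero => intro a h; exact absurd (by simp) h
  | succ n ih =>
    intro a h
    by_cases h1 : (u a = .s ↔ u (a + n) = .s)
    · refine ⟨a + n, by omega, by push_cast; omega, ?_⟩
      unfold SE
      rw [← h1, show a + (n : ℤ) + 1 = a + ((n + 1 : ℕ) : ℤ) by push_cast; ring]
      exact h
    · obtain ⟨k, hk1, hk2, hk3⟩ := ih a h1
      exact ⟨k, hk1, by push_cast; omega, hk3⟩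

lemma path_SE {u : ℤ → Sy} {i a c : ℤ} {R : ℤ} (ha : |a - i| ≤ R) (hc : |c - i| ≤ R)
    (h1 : u a = .s) (h2 : u c ≠ .s) : ∃ k : ℤ, |k - i| ≤ R ∧ SE u k := by
  rw [abs_le] at ha hc
  rcases lt_trichotomy a c with h | h | h
  · obtain ⟨n, hn⟩ := Int.eq_ofNat_of_zero_le (show 0 ≤ c - a by omega)
    have e : c = a + n := by omega
    obtain ⟨k, hk1, hk2, hk3⟩ := path_edge n a (by rw [← e]; tauto)
    exact ⟨k, by rw [abs_le]; omega, hk3⟩
  · exact absurd (h ▸ h1) h2
  · obtain ⟨n, hn⟩ := Int.eq_ofNat_of_zero_le (show 0 ≤ a - c by omega)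
    have e : a = c + n := by omega
    obtain ⟨k, hk1, hk2, hk3⟩ := path_edge n c (by rw [← e]; tauto)
    exact ⟨k, by rw [abs_le]; omega, hk3⟩

theorem thm_Path (m : ℕ) (hm : 1 ≤ m) (h0 : St_Root) (h1 : St_L1) (h2 : St_L2) (h3 : St_L3) :
    St_Path m := by
  classical
  intro P F c c' D ν t i b w hI hc hc' hG hsup htK htT hi
  have hK4 := path_K hm
  have hnA := P.hn
  have hA := P.hA
  have hKn : KK m ≤ P.n := by omega
  have hi' : |i| ≤ (P.A : ℤ) := mem_Icc_abs.1 hi
  have hLA : P.L ≤ P.A := by omega
  have hmem : (t, i) ∈ JJ P.T P.A := by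
    unfold JJ
    rw [Finset.mem_product, Finset.mem_range]
    exact ⟨htT, hi⟩
  have hsw : SupJ (JJ P.T P.A) w := fun c hc => hsup c.1 c.2 hc
  have hsv : ∀ v, SupJ (JJ P.T P.A) (sw w t i v) := by
    intro v c hc
    have hne : (c.1, c.2) ≠ (t, i) := by
      intro h
      apply hc
      rw [show c = (t, i) from h]
      exact hmem
    rw [sw_of_ne w v hne]
    exact hsw c hc
  have hroot : ∀ w', SupJ (JJ P.T P.A) w' → ∀ s, Rt (P.W w' s) ∧ Sup P.A (P.W w' s) :=
    fun w' hw' s => h0 _ P.A P.n (cf_sup hLA hw' s) P.hn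
  set u := P.W w (t + 1) with hu
  set ub := P.W (sw w t i (some b)) (t + 1) with hub
  set u0 := P.W (sw w t i none) (t + 1) with hu0
  obtain ⟨ru, su⟩ := hroot w hsw (t + 1)
  obtain ⟨rb, sb⟩ := hroot _ (hsv (some b)) (t + 1)
  obtain ⟨r0, s0⟩ := hroot _ (hsv none) (t + 1)
  rw [← hu] at ru su
  rw [← hub] at rb sb
  rw [← hu0] at r0 s0
  have rR : Rt (Rf i b u) := Rf_root ru i b
  have sR : Sup P.A (Rf i b u) := su.Rf hi' b
  have eK : ∀ w', GoodB (m + 1) (WW (m + 1)) (HH (m + 1)) w' →
      P.W w' (t + 1) = rel (KK m) (cf P.L w' (t + 1)) := fun w' hw' => path_rel h1 P.L hw' hKn _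
  have eu : u = rel (KK m) (cf P.L w (t + 1)) := eK w (path_good' hG)
  have eb : ub = rel (KK m) (cf P.L (sw w t i (some b)) (t + 1)) := eK _ (path_good hG t i _)
  have e0 : u0 = rel (KK m) (cf P.L (sw w t i none) (t + 1)) := eK _ (path_good hG t i _)
  have d1 : ∀ k : ℤ, (KK m : ℤ) < |k - i| → ub k = u0 k := by
    intro k hk
    rw [eb, e0]
    exact path_diff P.L t (KK m) w i _ _ hk
  have d1' : ∀ k : ℤ, (KK m : ℤ) < |k - i| → u0 k = u k := by
    intro k hk
    have h := path_diff P.L t (KK m) w i none (w t i) hk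
    rw [sw_eq_self] at h
    rw [e0, eu]
    exact h
  have d2 : ∀ k : ℤ, (KK m : ℤ) < |k - i| → Rf i b u k = u k := fun k hk =>
    Rf_far ru b (by omega)
  have g1 : |F ub - F u0| ≤ c := hI.gen ub u0 P.A i rb r0 sb s0 d1
  have g2 : |F (Rf i b u) - F u| ≤ c := hI.gen _ u P.A i rR ru sR su d2
  have hXgen : (F ub - F u0) - (F (Rf i b u) - F u) ≤ 2 * c := by
    have a1 := le_abs_self (F ub - F u0)
    have a2 := neg_abs_le (F (Rf i b u) - F u)
    linarith
  -- nonnegative terms
  have n1 : 0 ≤ 2 * c' * (ind (Dty m t i w ∧ NoS P.L m t i w) * Gd D u i) :=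
    mul_nonneg (by linarith) (mul_nonneg (ind_nonneg _) (path_Gd_nonneg _ _ _))
  have n2 : 0 ≤ 2 * c * ind (Dty m t i w ∧ SEn P.L m t i w) :=
    mul_nonneg (by linarith) (ind_nonneg _)
  have n3 : 0 ≤ 2 * c * ind (Two m t i w ∧ Stn P.L m t i w) :=
    mul_nonneg (by linarith) (ind_nonneg _)
  by_cases hD : Dty m t i w
  swap
  · -- no other mark
    have hnone : ∀ (s : ℕ) (j : ℤ), t ≤ s + KK m → s ≤ t → |j - i| ≤ 3 * (KK m : ℤ) →
        w s j = none := by
      intro s j hs1 hs2 hj
      by_contra hne
      exact hD ⟨s, j, hs1, hs2, hj, hne⟩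
    have hwi : w t i = none := hnone t i (by omega) le_rfl (by simp)
    have hww : sw w t i none = w := by rw [← hwi, sw_eq_self]
    have e1 : u0 = u := by rw [hu0, hu, hww]
    have e2 : ub = Rf i b u0 := h2 m P.L P.n t w i b hm hG (by omega) hKn
      (fun s j hs1 hs2 hj _ => hnone s j hs1 hs2 hj)
    have nu1 : ind (NU P.L m t i (i - 1) b w) = 0 := by
      apply ind_false
      intro h
      have := hnone t (i - 1) (by omega) le_rfl (by
        rw [show i - 1 - i = -1 by ring]; norm_num; omega)
      rw [h.1] at this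
      exact absurd this (by simp)
    have nu2 : ind (NU P.L m t i (i + 1) b w) = 0 := by
      apply ind_false
      intro h
      have := hnone t (i + 1) (by omega) le_rfl (by
        rw [show i + 1 - i = 1 by ring]; norm_num; omega)
      rw [h.1] at this
      exact absurd this (by simp)
    rw [nu1, nu2, e2, e1]
    linarith
  by_cases hAll : ∀ k : ℤ, |k - i| ≤ 8 * (KK m : ℤ) → cf P.L w (t - KK m) k = .s
  · -- star bulk
    have hStn : Stn P.L m t i w := by
      obtain ⟨j, hj, hj2⟩ := star_cf (s := t - 2 * KK m) (by omega : t - 2 * KK m ≤ t - KK m)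
        (hAll i (by simp))
      refine ⟨j, ?_, hj2⟩
      have e : (((t - KK m : ℕ) : ℤ) - ((t - 2 * KK m : ℕ) : ℤ)) = KK m := by
        rw [Nat.cast_sub (by omega), Nat.cast_sub htK]
        push_cast
        ring
      rw [e] at hj
      omega
    by_cases hT : Two m t i w
    · -- two marks
      have nu : ∀ y : ℤ, ind (NU P.L m t i y b w) = 0 := by
        intro y
        apply ind_false
        rintro ⟨_, hy2, _⟩
        obtain ⟨s, s', j, j', hne, a1, a2, a3, a4, a5, a6, a7, a8⟩ := hT
        by_cases h : (s, j) = (t, y)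
        · have h' : (s', j') ≠ (t, y) := fun h' => hne (h.trans h'.symm)
          exact a8 (hy2 s' j' a4 a5 a6 h')
        · exact a7 (hy2 s j a1 a2 a3 h)
      have i3 : ind (Two m t i w ∧ Stn P.L m t i w) = 1 := ind_true ⟨hT, hStn⟩
      rw [nu, nu, i3]
      linarith
    · -- exactly one mark
      obtain ⟨s₀, j₀, b1, b2, b3, b4⟩ := hD
      have huniq : ∀ (s : ℕ) (j : ℤ), t ≤ s + 2 * KK m → s ≤ t → |j - i| ≤ 12 * (KK m : ℤ) →
          (s, j) ≠ (s₀, j₀) → w s j = none := by
        intro s j c1 c2 c3 c4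
        by_contra hne
        exact hT ⟨s, s₀, j, j₀, c4, c1, c2, c3, by omega, b2, by omega, hne, b4⟩
      have hbulk : ∀ k : ℤ, |k - i| ≤ 4 * (KK m : ℤ) → cf P.L w (t - KK m) k = .s :=
        fun k hk => hAll k (by omega)
      by_cases hce : (s₀, j₀) = (t, i)
      · -- the mark is at the place itself
        rw [Prod.mk.injEq] at hce
        obtain ⟨hs0, hj0⟩ := hce
        subst hs0
        subst hj0
        have hnone : w s₀ (j₀ + 1) = none := huniq _ _ (by omega) le_rfl (by
          rw [show j₀ + 1 - j₀ = 1 by ring]; norm_num; omega) (by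
            rw [Ne, Prod.mk.injEq]; omega)
        have hL : ∀ b' : Bool, (∀ k : ℤ, |k - j₀| ≤ (KK m : ℤ) →
            rel P.n (cf P.L (sw w s₀ j₀ none) (s₀ + 1)) k = .s) ∧
            rel P.n (cf P.L (sw w s₀ j₀ (some b')) (s₀ + 1)) =
              rel P.n (cf P.L (sw w s₀ j₀ none) (s₀ + 1)) := by
          intro b'
          have h := h3 m P.L P.n s₀ s₀ w j₀ (j₀ + 1) b' hm hG htK hKn (by omega) le_rfl
            (by rw [show j₀ + 1 - j₀ = 1 by ring]; norm_num; omega)
            (by rw [Ne, Prod.mk.injEq]; omega)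
            (fun t1 i1 c1 c2 c3 c4 _ => huniq t1 i1 c1 c2 (by omega) c4) hbulk
          rw [if_neg (by rw [hnone]; simp)] at h
          exact h
        obtain ⟨b', hb'⟩ := Option.ne_none_iff_exists'.1 b4
        have hw' : sw w s₀ j₀ (some b') = w := by rw [← hb', sw_eq_self]
        have e1 : ub = u0 := (hL b).2
        have e2 : u = u0 := by
          have := (hL b').2
          rw [hw'] at this
          exact this
        have hst0 : ∀ k : ℤ, |k - j₀| ≤ (KK m : ℤ) → u0 k = .s := (hL b).1
        have e3 : Rf j₀ b u = u := by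
          rw [e2]
          exact path_bulk r0 (fun k hk => hst0 k (by omega)) b
        have nu : ∀ y : ℤ, y ≠ j₀ → ind (NU P.L m s₀ j₀ y b w) = 0 := by
          intro y hy
          apply ind_false
          rintro ⟨_, hy2, _⟩
          exact b4 (hy2 s₀ j₀ (by omega) le_rfl (by simp) (by
            rw [Ne, Prod.mk.injEq]; omega))
        rw [nu _ (by omega), nu _ (by omega), e3, e1]
        linarith
      · have hwi : w t i = none := huniq t i (by omega) le_rfl (by simp)
          (fun h => hce h.symm)
        have hww : sw w t i none = w := by rw [← hwi, sw_eq_self]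
        have e1 : u0 = u := by rw [hu0, hu, hww]
        have h := h3 m P.L P.n t s₀ w i j₀ b hm hG htK hKn b1 b2 (by omega) hce
          (fun t1 i1 c1 c2 c3 _ c5 => huniq t1 i1 c1 c2 (by omega) c5) hbulk
        obtain ⟨hst0, hif⟩ := h
        have hst0' : ∀ k : ℤ, |k - i| ≤ (KK m : ℤ) → u0 k = .s := hst0
        have e3 : Rf i b u = u := by
          rw [← e1]
          exact path_bulk r0 (fun k hk => hst0' k (by omega)) b
        by_cases hcond : s₀ = t ∧ |j₀ - i| = 1 ∧ w s₀ j₀ = some b
        · rw [if_pos hcond] at hif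
          obtain ⟨q1, q2, q3⟩ := hcond
          subst q1
          have e4 : ub = Function.update (Function.update u0 i (bs b)) j₀ (bs b) := hif
          have hnuc := hI.nuc u0 P.A i j₀ b r0 s0 q2 hst0'
          rw [← e4, e1] at hnuc
          have hNU : NU P.L m s₀ i j₀ b w :=
            ⟨q3, fun s j c1 c2 c3 c4 => huniq s j c1 c2 c3 c4, hAll⟩
          have hX : (F ub - F u0) - (F (Rf i b u) - F u) ≤ ν u i := by
            rw [e3, e1]
            linarith
          have hj : j₀ = i - 1 ∨ j₀ = i + 1 := by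
            rcases abs_cases (j₀ - i) with ⟨c1, _⟩ | ⟨c1, _⟩ <;> omega
          have other : ∀ y : ℤ, y ≠ j₀ → |y - i| ≤ 1 → ind (NU P.L m s₀ i y b w) = 0 := by
            intro y hy hy1
            apply ind_false
            rintro ⟨hy2, _, _⟩
            have := huniq s₀ y (by omega) le_rfl (by omega) (by
              rw [Ne, Prod.mk.injEq]; omega)
            rw [hy2] at this
            exact absurd this (by simp)
          rcases hj with hj | hj
          · rw [← hj, ind_true hNU, other (i + 1) (by omega) (by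
              rw [show i + 1 - i = 1 by ring]; norm_num)]
            linarith
          · rw [← hj, ind_true hNU, other (i - 1) (by omega) (by
              rw [show i - 1 - i = -1 by ring]; norm_num)]
            linarith
        · rw [if_neg hcond] at hif
          have e4 : ub = u0 := hif
          have nu : ∀ y : ℤ, |y - i| = 1 → ind (NU P.L m t i y b w) = 0 := by
            intro y hy1
            apply ind_false
            rintro ⟨hy2, _, _⟩
            apply hcond
            by_cases hy : (t, y) = (s₀, j₀)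
            · rw [Prod.mk.injEq] at hy
              obtain ⟨q1, q2⟩ := hy
              rw [← q1, ← q2]
              exact ⟨rfl, hy1, hy2⟩
            · exfalso
              have := huniq t y (by omega) le_rfl (by omega) hy
              rw [hy2] at this
              exact absurd this (by simp)
          rw [nu (i - 1) (by rw [show i - 1 - i = -1 by ring]; norm_num),
            nu (i + 1) (by rw [show i + 1 - i = 1 by ring]; norm_num), e3, e4]
          linarith
  · -- not all sites are stars
    have nu : ∀ y : ℤ, ind (NU P.L m t i y b w) = 0 := by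
      intro y
      apply ind_false
      exact fun h => hAll h.2.2
    rw [nu, nu]
    by_cases hN : NoS P.L m t i w
    · -- no star
      have i1 : ind (Dty m t i w ∧ NoS P.L m t i w) = 1 := ind_true ⟨hD, hN⟩
      have hns : ∀ (w' : Nz), (∀ (a : ℕ) (j : ℤ), a < t - KK m → w' a j = w a j) →
          ∀ k : ℤ, |k - i| ≤ KK m + 4 → rel (KK m) (cf P.L w' (t + 1)) k ≠ .s := by
        intro w' hw' k hk hs
        obtain ⟨j, hj, hj2⟩ := path_star (by omega) hw' hs
        refine hN j ?_ hj2
        have := abs_add_le (j - k) (k - i)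
        rw [show j - k + (k - i) = j - i by ring] at this
        omega
      have hsame : ∀ v : Option Bool, ∀ (a : ℕ) (j : ℤ), a < t - KK m → sw w t i v a j = w a j := by
        intro v a j ha
        apply sw_of_ne
        rw [Ne, Prod.mk.injEq]
        omega
      have nsu : ∀ k : ℤ, |k - i| ≤ KK m + 4 → u k ≠ .s := by
        rw [eu]; exact hns w (fun _ _ _ => rfl)
      have nsb : ∀ k : ℤ, |k - i| ≤ KK m + 4 → ub k ≠ .s := by
        rw [eb]; exact hns _ (hsame _)
      have ns0 : ∀ k : ℤ, |k - i| ≤ KK m + 4 → u0 k ≠ .s := by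
        rw [e0]; exact hns _ (hsame _)
      have nsR : ∀ k : ℤ, |k - i| ≤ KK m + 2 → Rf i b u k ≠ .s := by
        intro k hk hs
        obtain ⟨j, hj, hj2⟩ := path_star_Rf hs
        refine nsu j ?_ hj2
        have := abs_add_le (j - k) (k - i)
        rw [show j - k + (k - i) = j - i by ring] at this
        omega
      have f1 := hI.nost u0 ub P.A i r0 rb s0 sb (fun k hk => (d1 k hk).symm)
        (fun k hk => ⟨ns0 k (by omega), nsb k (by omega)⟩)
      have f2 := hI.nost u (Rf i b u) P.A i ru rR su sR (fun k hk => (d2 k hk).symm)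
        (fun k hk => ⟨nsu k (by omega), nsR k hk⟩)
      have hGd : Gd D u0 i = Gd D u i := by
        apply path_Gd_congr
        intro k
        by_cases hk : (KK m : ℤ) < |k - i|
        · rw [d1' k hk]
        · exact iff_of_false (ns0 k (by omega)) (nsu k (by omega))
      rw [hGd] at f1
      rw [i1]
      have a1 := neg_abs_le (F u0 - F ub)
      have a2 := le_abs_self (F u - F (Rf i b u))
      linarith
    · -- a star edge
      have hSE : SEn P.L m t i w := by
        unfold NoS at hN
        push Not at hN hAll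
        obtain ⟨k1, hk1, hk1'⟩ := hN
        obtain ⟨k2, hk2, hk2'⟩ := hAll
        exact path_SE hk1 hk2 hk1' hk2'
      have i2 : ind (Dty m t i w ∧ SEn P.L m t i w) = 1 := ind_true ⟨hD, hSE⟩
      rw [i2]
      linarith

end Pool.Agent.T3M
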