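import Mathlib
import Pool.Agent.T3M.AV

/-! Number of stars and probability of a star (helper91). -/

set_option autoImplicit false

namespace Pool.Agent.T3M

open Pool.Agent.Helper55.Vote

lemma q_star_zero {L : ℕ} {w : Nz} {i : ℤ} : cf L w 0 i = .s ↔ |i| ≤ (L : ℤ) := by
  show (if |i| ≤ (L : ℤ) then Sy.s else Sy.z) = .s ↔ _
  by_cases h : |i| ≤ (L : ℤ)
  · rw [if_pos h]; simp [h]
  · rw [if_neg h]; simp [h]

lemma q_star_out {L : ℕ} {w : Nz} {t : ℕ} {i : ℤ} (h : (L : ℤ) + t < |i|) : cf L w t i ≠ .s := by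
  intro hs
  obtain ⟨j, hj, hj2⟩ := star_cf (Nat.zero_le t) hs
  rw [q_star_zero] at hj2
  rcases abs_cases i with ⟨h1, _⟩ | ⟨h1, _⟩ <;> rcases abs_cases j with ⟨h2, _⟩ | ⟨h2, _⟩ <;>
    rcases abs_cases (j - i) with ⟨h3, _⟩ | ⟨h3, _⟩ <;> omega

lemma q_sum (P : Par) (t : ℕ) : P.Q t = ∑ i ∈ Finset.Icc (-(P.A : ℤ)) (P.A : ℤ),
    Ex (JJ P.T P.A) P.e P.d pone (fun w => st (cf P.L w t) i) := by
  have hLA : P.L ≤ P.A := by have := P.hA; omega
  unfold Par.Q
  rw [← Ex_sum]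
  exact Ex_congr fun w hw => nst_eq (cf_sup hLA hw t)

theorem thm_Q (h : St_Link) : St_Q := by
  intro P t ht hTL
  have hA := P.hA
  have he := P.he
  have hed := P.hed
  have hsum := P.hsum
  set Dt := D (law P.e P.d) N1 t with hDt
  set a : ℤ → ℝ := fun i => Ex (JJ P.T P.A) P.e P.d pone (fun w => st (cf P.L w t) i) with ha
  have ha0 : ∀ i, 0 ≤ a i := fun i =>
    Ex_nonneg P.he' P.hd' hsum pone_mem fun w _ => st_nonneg _ _
  have ha1 : ∀ i, a i ≤ 1 := fun i => by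
    rw [← Ex_const (JJ P.T P.A) P.e P.d pone 1]
    exact Ex_mono P.he' P.hd' hsum pone_mem fun w _ => st_le_one _ _
  have hin : ∀ i : ℤ, |i| + t ≤ (P.L : ℤ) → a i = Dt := fun i hi =>
    h P.e P.d P.T P.A P.L t i P.he' P.hd' hsum ht hi (by omega)
  have hout : ∀ i : ℤ, (P.L : ℤ) + t < |i| → a i = 0 := fun i hi => by
    rw [ha]
    show Ex (JJ P.T P.A) P.e P.d pone (fun w => st (cf P.L w t) i) = 0
    rw [← Ex_const (JJ P.T P.A) P.e P.d pone 0]
    exact Ex_congr fun w _ => ind_false (q_star_out hi)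
  have hD0 : 0 ≤ Dt := by rw [hDt]; exact MeasureTheory.measureReal_nonneg
  rw [q_sum]
  change (2 * ((P.L : ℝ) - P.T) + 1) * Dt ≤ ∑ i ∈ Finset.Icc (-(P.A : ℤ)) (P.A : ℤ), a i ∧
    ∑ i ∈ Finset.Icc (-(P.A : ℤ)) (P.A : ℤ), a i ≤ (2 * (P.L : ℝ) + 1) * Dt + 4 * P.T
  constructor
  · have h1 : ∑ i ∈ Finset.Icc (-((P.L : ℤ) - P.T)) ((P.L : ℤ) - P.T), Dt =
        (2 * ((P.L : ℝ) - P.T) + 1) * Dt := by
      rw [Finset.sum_const, Int.card_Icc, nsmul_eq_mul]
      congr 1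
      have h2 : (((P.L : ℤ) - P.T + 1 - -((P.L : ℤ) - P.T)).toNat : ℤ) =
          2 * ((P.L : ℤ) - P.T) + 1 := by
        rw [Int.toNat_of_nonneg (by omega)]; ring
      have h3 : ((((P.L : ℤ) - P.T + 1 - -((P.L : ℤ) - P.T)).toNat : ℤ) : ℝ) =
          ((2 * ((P.L : ℤ) - P.T) + 1 : ℤ) : ℝ) := by rw [h2]
      push_cast at h3
      exact_mod_cast h3
    rw [← h1]
    calc ∑ i ∈ Finset.Icc (-((P.L : ℤ) - P.T)) ((P.L : ℤ) - P.T), Dt
        = ∑ i ∈ Finset.Icc (-((P.L : ℤ) - P.T)) ((P.L : ℤ) - P.T), a i := by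
          refine Finset.sum_congr rfl fun i hi => ?_
          rw [Finset.mem_Icc] at hi
          exact (hin i (by rcases abs_cases i with ⟨h1, _⟩ | ⟨h1, _⟩ <;> omega)).symm
      _ ≤ ∑ i ∈ Finset.Icc (-(P.A : ℤ)) (P.A : ℤ), a i := by
          apply Finset.sum_le_sum_of_subset_of_nonneg
          · intro i hi
            rw [Finset.mem_Icc] at hi ⊢
            omega
          · intro i _ _
            exact ha0 i
  · have hpt : ∀ i ∈ Finset.Icc (-(P.A : ℤ)) (P.A : ℤ), a i ≤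
        (if |i| ≤ (P.L : ℤ) then Dt else 0) +
          (if (P.L : ℤ) - t < |i| ∧ |i| ≤ (P.L : ℤ) + t then 1 else 0) := by
      intro i _
      by_cases h1 : |i| + t ≤ (P.L : ℤ)
      · rw [hin i h1, if_pos (by omega), if_neg (by omega)]
        linarith
      · by_cases h2 : (P.L : ℤ) + t < |i|
        · rw [hout i h2, if_neg (by omega), if_neg (by omega)]
          linarith
        · rw [if_pos (show (P.L : ℤ) - t < |i| ∧ |i| ≤ (P.L : ℤ) + t by omega)]
          have h3 : 0 ≤ (if |i| ≤ (P.L : ℤ) then Dt else 0) := by split_ifs <;> linarith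
          linarith [ha1 i]
    refine (Finset.sum_le_sum hpt).trans ?_
    rw [Finset.sum_add_distrib]
    apply add_le_add
    · rw [← Finset.sum_filter, Finset.sum_const, nsmul_eq_mul]
      apply mul_le_mul_of_nonneg_right _ hD0
      have h1 : (Finset.Icc (-(P.A : ℤ)) (P.A : ℤ)).filter (fun i => |i| ≤ (P.L : ℤ)) ⊆
          Finset.Icc (-(P.L : ℤ)) (P.L : ℤ) := by
        intro i hi
        rw [Finset.mem_filter] at hi
        exact mem_Icc_abs.2 hi.2
      have h2 := Finset.card_le_card h1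
      rw [Int.card_Icc] at h2
      have h3 : ((P.L : ℤ) + 1 - -(P.L : ℤ)).toNat = 2 * P.L + 1 := by omega
      rw [h3] at h2
      exact_mod_cast h2
    · rw [← Finset.sum_filter, Finset.sum_const, nsmul_eq_mul, mul_one]
      have h1 : (Finset.Icc (-(P.A : ℤ)) (P.A : ℤ)).filter
          (fun i => (P.L : ℤ) - t < |i| ∧ |i| ≤ (P.L : ℤ) + t) ⊆
          Finset.Icc (-((P.L : ℤ) + t)) (-((P.L : ℤ) - t) - 1) ∪
            Finset.Icc ((P.L : ℤ) - t + 1) ((P.L : ℤ) + t) := by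
        intro i hi
        rw [Finset.mem_filter] at hi
        rw [Finset.mem_union, Finset.mem_Icc, Finset.mem_Icc]
        rcases abs_cases i with ⟨h1, _⟩ | ⟨h1, _⟩ <;> omega
      have h2 := (Finset.card_le_card h1).trans (Finset.card_union_le _ _)
      rw [Int.card_Icc, Int.card_Icc] at h2
      have h3 : (-((P.L : ℤ) - t) - 1 + 1 - -((P.L : ℤ) + t)).toNat = 2 * t := by omega
      have h4 : ((P.L : ℤ) + t + 1 - ((P.L : ℤ) - t + 1)).toNat = 2 * t := by omega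
      rw [h3, h4] at h2
      have h5 : ((Finset.Icc (-(P.A : ℤ)) (P.A : ℤ)).filter
          (fun i => (P.L : ℤ) - t < |i| ∧ |i| ≤ (P.L : ℤ) + t)).card ≤ 4 * P.T := by omega
      exact_mod_cast h5

end Pool.Agent.T3M
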