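import Mathlib
import Pool.Agent.T3M.PE
import Pool.Agent.T3M.St

/-! The derivative of the hybrid law (helper91). -/

set_option autoImplicit false

namespace Pool.Agent.T3M

/-- the derivative of the weight -/
noncomputable def russo_dwt (e d : ℝ) : Option Bool → ℝ
  | none => -(e + d)
  | some false => e
  | some true => d

lemma russo_wt (e d r : ℝ) (v : Option Bool) :
    HasDerivAt (fun r : ℝ => wt (r * e) (r * d) v) (russo_dwt e d v) r := by
  rcases v with _ | v
  · have h1 : HasDerivAt (fun r : ℝ => 1 - r * e - r * d) (-(e + d)) r := by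
      have h2 : HasDerivAt (fun r : ℝ => r * e) (1 * e) r := (hasDerivAt_id r).mul_const e
      have h3 : HasDerivAt (fun r : ℝ => r * d) (1 * d) r := (hasDerivAt_id r).mul_const d
      have h4 := ((hasDerivAt_const r (1 : ℝ)).sub h2).sub h3
      rw [show (0 : ℝ) - 1 * e - 1 * d = -(e + d) by ring] at h4
      exact h4
    exact h1
  · cases v
    · have h2 : HasDerivAt (fun r : ℝ => r * e) (1 * e) r := (hasDerivAt_id r).mul_const e
      rw [one_mul] at h2
      exact h2
    · have h3 : HasDerivAt (fun r : ℝ => r * d) (1 * d) r := (hasDerivAt_id r).mul_const d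
      rw [one_mul] at h3
      exact h3

/-- the sum over the places of the slice `t` -/
noncomputable def russo_S (J : Finset (ℕ × ℤ)) (e d : ℝ) (p : ℕ × ℤ → ℝ) (t : ℕ) (f : Nz → ℝ) : ℝ :=
  ∑ c ∈ J.filter (fun c => c.1 = t),
    (e * Ex J e d p (fun w => f (sw w c.1 c.2 (some false)) - f (sw w c.1 c.2 none)) +
      d * Ex J e d p (fun w => f (sw w c.1 c.2 (some true)) - f (sw w c.1 c.2 none)))

/-- exchange of two updates -/
lemma sw_comm (w : Nz) {c c' : ℕ × ℤ} (h : c ≠ c') (v v' : Option Bool) :
    sw (sw w c.1 c.2 v) c'.1 c'.2 v' = sw (sw w c'.1 c'.2 v') c.1 c.2 v := by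
  refine nz_ext fun x => ?_
  by_cases h1 : x = c'
  · subst h1
    rw [sw_self, sw_of_ne _ _ (fun h2 => h (show x = c from h2).symm), sw_self]
  · by_cases h2 : x = c
    · subst h2
      rw [sw_of_ne _ _ (fun h3 => h1 (show x = c' from h3)), sw_self, sw_self]
    · rw [sw_of_ne _ _ (fun h3 => h1 (show x = c' from h3)),
        sw_of_ne _ _ (fun h3 => h2 (show x = c from h3)),
        sw_of_ne _ _ (fun h3 => h2 (show x = c from h3)),
        sw_of_ne _ _ (fun h3 => h1 (show x = c' from h3))]

lemma russo_der (J : Finset (ℕ × ℤ)) (e d : ℝ) (t : ℕ) (f : Nz → ℝ) (r : ℝ) :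
    HasDerivAt (fun r : ℝ => Ex J e d (hyb t r) f) (russo_S J e d (hyb t r) t f) r := by
  classical
  induction J using Finset.induction_on generalizing f with
  | empty =>
    have h1 : (fun r : ℝ => Ex ∅ e d (hyb t r) f) = fun _ => f (fun _ _ => none) := by
      funext r; exact Ex_empty _ _ _ _
    rw [h1]
    have h2 : russo_S ∅ e d (hyb t r) t f = 0 := by
      unfold russo_S
      simp
    rw [h2]
    exact hasDerivAt_const _ _
  | insert c J hc ih =>
    have h1 : (fun r : ℝ => Ex (insert c J) e d (hyb t r) f) = fun r =>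
        ∑ v : Option Bool, wt (hyb t r c * e) (hyb t r c * d) v *
          Ex J e d (hyb t r) (fun w => f (sw w c.1 c.2 v)) := by
      funext r; exact Ex_insert hc _ _ _ _
    rw [h1]
    -- the common part: the places of `J`
    have hS : ∀ c' ∈ J.filter (fun c => c.1 = t), ∀ b : Bool,
        Ex (insert c J) e d (hyb t r)
          (fun w => f (sw w c'.1 c'.2 (some b)) - f (sw w c'.1 c'.2 none)) =
        ∑ v : Option Bool, wt (hyb t r c * e) (hyb t r c * d) v * Ex J e d (hyb t r)
          (fun w => f (sw (sw w c'.1 c'.2 (some b)) c.1 c.2 v) -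
            f (sw (sw w c'.1 c'.2 none) c.1 c.2 v)) := by
      intro c' hc' b
      rw [Ex_insert hc]
      refine Finset.sum_congr rfl fun v _ => ?_
      congr 1
      have hne : c ≠ c' := by
        rintro rfl
        exact hc (Finset.mem_filter.1 hc').1
      refine Ex_congr fun w _ => ?_
      rw [sw_comm w hne, sw_comm w hne]
    have hcommon : ∑ c' ∈ J.filter (fun c => c.1 = t),
        (e * Ex (insert c J) e d (hyb t r)
            (fun w => f (sw w c'.1 c'.2 (some false)) - f (sw w c'.1 c'.2 none)) +
          d * Ex (insert c J) e d (hyb t r)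
            (fun w => f (sw w c'.1 c'.2 (some true)) - f (sw w c'.1 c'.2 none))) =
        ∑ v : Option Bool, wt (hyb t r c * e) (hyb t r c * d) v *
          russo_S J e d (hyb t r) t (fun w => f (sw w c.1 c.2 v)) := by
      unfold russo_S
      simp only [Finset.mul_sum]
      rw [Finset.sum_comm]
      refine Finset.sum_congr rfl fun c' hc' => ?_
      rw [hS c' hc' false, hS c' hc' true, Finset.mul_sum, Finset.mul_sum,
        ← Finset.sum_add_distrib]
      exact Finset.sum_congr rfl fun v _ => by ring
    by_cases hct : c.1 = t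
    · have hh : ∀ r : ℝ, hyb t r c = r := by
        intro r
        unfold hyb
        rw [if_neg (by omega), if_pos hct]
      have hd : HasDerivAt (fun r : ℝ => ∑ v : Option Bool, wt (hyb t r c * e) (hyb t r c * d) v *
          Ex J e d (hyb t r) (fun w => f (sw w c.1 c.2 v)))
          (∑ v : Option Bool, (russo_dwt e d v * Ex J e d (hyb t r) (fun w => f (sw w c.1 c.2 v)) +
            wt (hyb t r c * e) (hyb t r c * d) v *
              russo_S J e d (hyb t r) t (fun w => f (sw w c.1 c.2 v)))) r := by
        apply HasDerivAt.fun_sum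
        intro v _
        have h2 : HasDerivAt (fun r : ℝ => wt (hyb t r c * e) (hyb t r c * d) v)
            (russo_dwt e d v) r := by
          simp only [hh]
          exact russo_wt e d r v
        exact h2.mul (ih _)
      have hval : russo_S (insert c J) e d (hyb t r) t f =
          ∑ v : Option Bool, (russo_dwt e d v * Ex J e d (hyb t r) (fun w => f (sw w c.1 c.2 v)) +
            wt (hyb t r c * e) (hyb t r c * d) v *
              russo_S J e d (hyb t r) t (fun w => f (sw w c.1 c.2 v))) := by
        rw [Finset.sum_add_distrib, ← hcommon]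
        unfold russo_S
        rw [Finset.filter_insert, if_pos hct, Finset.sum_insert (fun h => hc (Finset.mem_filter.1 h).1)]
        congr 1
        have h3 : ∀ b : Bool, Ex (insert c J) e d (hyb t r)
            (fun w => f (sw w c.1 c.2 (some b)) - f (sw w c.1 c.2 none)) =
            Ex J e d (hyb t r) (fun w => f (sw w c.1 c.2 (some b))) -
              Ex J e d (hyb t r) (fun w => f (sw w c.1 c.2 none)) := by
          intro b
          rw [Ex_insert hc]
          simp only [sw_sw]
          rw [wt_sum_mul, Ex_sub]
        rw [h3, h3, Fintype.sum_option, Fintype.sum_bool]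
        simp only [russo_dwt]
        ring
      rw [hval]
      exact hd
    · have hh : ∀ r r' : ℝ, hyb t r c = hyb t r' c := by
        intro r r'
        unfold hyb
        rw [if_neg hct, if_neg hct]
      have hd : HasDerivAt (fun r : ℝ => ∑ v : Option Bool, wt (hyb t r c * e) (hyb t r c * d) v *
          Ex J e d (hyb t r) (fun w => f (sw w c.1 c.2 v)))
          (∑ v : Option Bool, wt (hyb t r c * e) (hyb t r c * d) v *
              russo_S J e d (hyb t r) t (fun w => f (sw w c.1 c.2 v))) r := by
        apply HasDerivAt.fun_sum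
        intro v _
        have h2 : (fun r' : ℝ => wt (hyb t r' c * e) (hyb t r' c * d) v *
            Ex J e d (hyb t r') (fun w => f (sw w c.1 c.2 v))) = fun r' : ℝ =>
            wt (hyb t r c * e) (hyb t r c * d) v *
              Ex J e d (hyb t r') (fun w => f (sw w c.1 c.2 v)) := by
          funext r'
          rw [hh r' r]
        rw [h2]
        exact (ih _).const_mul _
      have hval : russo_S (insert c J) e d (hyb t r) t f =
          ∑ v : Option Bool, wt (hyb t r c * e) (hyb t r c * d) v *
              russo_S J e d (hyb t r) t (fun w => f (sw w c.1 c.2 v)) := by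
        rw [← hcommon]
        unfold russo_S
        rw [Finset.filter_insert, if_neg hct]
      rw [hval]
      exact hd

lemma russo_filter (T A t : ℕ) (ht : t < T) (g : ℕ × ℤ → ℝ) :
    ∑ c ∈ (JJ T A).filter (fun c => c.1 = t), g c =
      ∑ i ∈ Finset.Icc (-(A : ℤ)) (A : ℤ), g (t, i) := by
  symm
  refine Finset.sum_bij (fun i _ => (t, i)) ?_ ?_ ?_ ?_
  · intro i hi
    rw [Finset.mem_filter]
    refine ⟨?_, rfl⟩
    unfold JJ
    rw [Finset.mem_product]
    exact ⟨Finset.mem_range.2 ht, hi⟩
  · intro i _ j _ h
    exact congrArg Prod.snd h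
  · rintro ⟨s, i⟩ hc
    rw [Finset.mem_filter] at hc
    obtain ⟨h1, h2⟩ := hc
    unfold JJ at h1
    rw [Finset.mem_product] at h1
    have h3 : s = t := h2
    subst h3
    exact ⟨i, h1.2, rfl⟩
  · intro i _
    rfl

theorem thm_Russo : St_Russo := by
  intro T A t e d f ht
  have h1 : ∀ r : ℝ, russo_S (JJ T A) e d (hyb t r) t f =
      ∑ i ∈ Finset.Icc (-(A : ℤ)) (A : ℤ),
        (e * Ex (JJ T A) e d (hyb t r) (fun w => f (sw w t i (some false)) - f (sw w t i none)) +
          d * Ex (JJ T A) e d (hyb t r) (fun w => f (sw w t i (some true)) - f (sw w t i none))) := by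
    intro r
    unfold russo_S
    exact russo_filter T A t ht _
  have h2 : ∀ r ∈ Set.uIcc (0 : ℝ) 1, HasDerivAt (fun r : ℝ => Ex (JJ T A) e d (hyb t r) f)
      (∑ i ∈ Finset.Icc (-(A : ℤ)) (A : ℤ),
        (e * Ex (JJ T A) e d (hyb t r) (fun w => f (sw w t i (some false)) - f (sw w t i none)) +
          d * Ex (JJ T A) e d (hyb t r) (fun w => f (sw w t i (some true)) - f (sw w t i none)))) r := by
    intro r _
    rw [← h1 r]
    exact russo_der _ _ _ _ _ _
  rw [intervalIntegral.integral_eq_sub_of_hasDerivAt h2]
  apply Continuous.intervalIntegrable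
  refine continuous_finsetSum _ fun i _ => ?_
  exact (continuous_const.mul (Ex_cont _ _ _ _ _)).add (continuous_const.mul (Ex_cont _ _ _ _ _))

end Pool.Agent.T3M
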