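import Pool.Agent.T3M.MD1
import Pool.Agent.T3M.MD2
import Pool.Agent.T3M.MD3
import Pool.Agent.T3M.MD4
import Pool.Agent.T3M.MD5
import Pool.Agent.T3M.MD5dc
import Pool.Agent.T3M.MPath
import Pool.Agent.T3M.MRoot
import Pool.Agent.T3M.MRusso
import Pool.Agent.T3M.MQ
import Pool.Agent.T3M.MPG
import Pool.Agent.T3M.MF3
import Pool.Agent.T3M.MP6M
import Pool.Agent.T3M.MP6X
import Pool.Agent.T3M.MBt
import Pool.Agent.T3M.MInf1
import Pool.Agent.T3M.MInfZL
import Pool.Agent.T3M.ML1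
import Pool.Agent.T3M.ML23
import Pool.Agent.T3M.MExc1
import Pool.Agent.T3M.MExc2
import Pool.Agent.T3M.MLink
import Pool.Agent.T3M.MNucPsi
import Pool.Agent.T3M.MCrit

/-! All modules of the proof for small, nearly symmetric noise, put together (helper91). -/

set_option autoImplicit false

namespace Pool.Agent.T3M

theorem fin_60 : 1 ≤ 60 := by norm_num

theorem fin_L2 : St_L2 := thm_L2 thm_L1

theorem fin_L3 : St_L3 := thm_L3 thm_L1

theorem fin_Q : St_Q := thm_Q thm_Link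

theorem fin_PG : St_PG 60 := thm_PG 60

theorem fin_Path : St_Path 60 := thm_Path 60 fin_60 thm_Root thm_L1 fin_L2 fin_L3

theorem fin_Alpha : St_Alpha 60 := thm_Alpha 60 fin_60 thm_Root thm_L1 fin_PG

theorem fin_Beta : St_Beta 60 := thm_Beta 60

theorem fin_Gamma : St_Gamma 60 := thm_Gamma 60

theorem fin_NucT : St_NucT 60 := thm_NucT 60

theorem fin_NucPsi : St_NucPsi 60 := thm_NucPsi 60

theorem fin_NucZs : St_NucZs 60 := thm_NucZs 60 fin_60 thm_Root thm_L1 fin_L2 fin_L3 fin_PG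

theorem fin_BnC : St_BnC 60 := thm_BnC 60 fin_60 thm_Root thm_L1 fin_PG

theorem fin_P6M : St_P6M 60 :=
  thm_P6M 60 fin_60 thm_Root thm_L1 fin_Path fin_Alpha fin_Beta fin_Gamma fin_PG thm_Russo thm_Gd

theorem fin_P6Psi : St_P6Psi 60 :=
  thm_P6Psi 60 fin_P6M (thm_InfPsi 60 fin_60) fin_NucPsi fin_BnC

theorem fin_P6T : St_P6T 60 := thm_P6T 60 fin_P6M (thm_InfT 60 fin_60) fin_NucT

theorem fin_P6Zs : St_P6Zs 60 :=
  thm_P6Zs 60 fin_P6M (thm_InfZs 60 fin_60) fin_NucZs fin_BnC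

theorem fin_P6ZL : St_P6ZL 60 := thm_P6ZL 60 fin_P6M (thm_InfZL 60 fin_60) fin_BnC

theorem fin_D5d : St_D5d := thm_D5d (thm_InfZL 1 le_rfl)

theorem fin_Bt : St_Bt 60 := thm_Bt 60 thm_Root thm_L1 fin_PG

theorem fin_Bd : St_Bd 60 := thm_Bd 60 thm_Root thm_L1 fin_PG

end Pool.Agent.T3M
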