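import Mathlib

/-! The arithmetic at the end of the proof for small, nearly symmetric noise (helper52). -/

set_option autoImplicit false

namespace Pool.Agent.T3M

/-- cancel a positive factor -/
lemma main_cancel {d a b : ℝ} (hd : 0 < d) (h : d * a ≤ d * b) : a ≤ b :=
  le_of_mul_le_mul_left h hd

lemma main_arith (K y c d β b b' n S D R : ℝ) (hK : 1 ≤ K) (hy0 : 0 < y) (hy1 : y ≤ 1)
    (hc : 0 ≤ c) (hsm : (y + c) * (11000 * K ^ 6) ≤ 1) (hd1 : y ^ 6 / 2 ≤ d) (hd2 : d ≤ y ^ 6)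
    (hβ0 : 0 ≤ β) (hβ : β ≤ c * y ^ 3 * d) (hD : D * y ^ 2 = 1) (hR : R * y ^ 3 = 1)
    (hb : 0 ≤ b) (hb' : 0 ≤ b') (hn : 0 ≤ n) (hS : 0 ≤ S)
    (h1 : b' ≤ 2 * b + K * y ^ 17)
    (h2 : d * n ≤ K * (d * y ^ 4 * b + β * b + y ^ 17 + d ^ 2 * D * b + d ^ 2 * b' + d ^ 3 +
      y ^ 30))
    (h3 : d * b ≤ K * (d * y ^ 3 + d * R * n + β * R * b + R * y ^ 17 + d ^ 2 * R + y ^ 30))
    (h4 : d * S ≤ K * (d * n + d * y ^ 4 * b + β * (S + D * n + b) + D * y ^ 17 +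
      d ^ 2 * D * (b + b') + d ^ 3 * D + d * y ^ 21 + y ^ 28))
    (h5 : d ^ 2 ≤ 2 * d * S + K * (β * b + y ^ 17 + d ^ 2 * b' + d ^ 3 + y ^ 30)) : False := by
  have hd0 : 0 < d := lt_of_lt_of_le (by positivity) hd1
  have hK0 : 0 < K := by linarith
  have hD0 : 0 < D := by
    by_contra h
    push Not at h
    have : D * y ^ 2 ≤ 0 := mul_nonpos_of_nonpos_of_nonneg h (by positivity)
    linarith
  have hR0 : 0 < R := by
    by_contra h
    push Not at h
    have : R * y ^ 3 ≤ 0 := mul_nonpos_of_nonpos_of_nonneg h (by positivity)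
    linarith
  -- powers of `y`
  have yp : ∀ {a b : ℕ}, a ≤ b → y ^ b ≤ y ^ a := fun h => pow_le_pow_of_le_one hy0.le hy1 h
  -- powers of `K`
  have kp : ∀ {a b : ℕ}, a ≤ b → K ^ a ≤ K ^ b := fun h => pow_le_pow_right₀ hK h
  have hK2 : 1 ≤ K ^ 2 := one_le_pow₀ hK
  have hyc : 0 < y + c := by linarith
  have hsm3 : (y + c) * (18 * K ^ 3) ≤ 1 := by
    refine le_trans (mul_le_mul_of_nonneg_left ?_ hyc.le) hsm
    have := kp (a := 3) (b := 6) (by norm_num)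
    have h0 : 0 < K ^ 3 := by positivity
    nlinarith
  have hcK : c * K ≤ 1 / 2 := by
    have e1 : K ≤ K ^ 3 := by
      have := kp (a := 1) (b := 3) (by norm_num)
      rwa [pow_one] at this
    have e2 : c * K ≤ (y + c) * K ^ 3 := by
      refine mul_le_mul (by linarith) e1 hK0.le hyc.le
    have e3 : (y + c) * K ^ 3 ≤ 1 / 18 := by linarith
    linarith
  -- relations between `d`, `D`, `R` and `y`
  have dD : d * D ≤ y ^ 4 := by
    have : d * D ≤ y ^ 6 * D := mul_le_mul_of_nonneg_right hd2 hD0.le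
    have e : y ^ 6 * D = y ^ 4 := by
      calc y ^ 6 * D = y ^ 4 * (D * y ^ 2) := by ring
        _ = y ^ 4 := by rw [hD, mul_one]
    linarith
  have dR : d * R ≤ y ^ 3 := by
    have : d * R ≤ y ^ 6 * R := mul_le_mul_of_nonneg_right hd2 hR0.le
    have e : y ^ 6 * R = y ^ 3 := by
      calc y ^ 6 * R = y ^ 3 * (R * y ^ 3) := by ring
        _ = y ^ 3 := by rw [hR, mul_one]
    linarith
  have yd : ∀ k : ℕ, y ^ (k + 6) ≤ 2 * y ^ k * d := by
    intro k
    have : y ^ k * (y ^ 6 / 2) ≤ y ^ k * d := mul_le_mul_of_nonneg_left hd1 (by positivity)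
    calc y ^ (k + 6) = 2 * (y ^ k * (y ^ 6 / 2)) := by ring
      _ ≤ 2 * (y ^ k * d) := by linarith
      _ = 2 * y ^ k * d := by ring
  -- (ii)
  have h2' : n ≤ 6 * K ^ 2 * ((y ^ 4 + c * y ^ 3) * b + y ^ 11) := by
    have e1 : d * n ≤ d * (K * (y ^ 4 * b + c * y ^ 3 * b + 2 * y ^ 11 + y ^ 4 * b +
        y ^ 6 * b' + y ^ 12 + 2 * y ^ 24)) := by
      refine h2.trans ?_
      rw [mul_left_comm]
      refine mul_le_mul_of_nonneg_left ?_ hK0.le
      have f1 : β * b ≤ c * y ^ 3 * d * b := mul_le_mul_of_nonneg_right hβ hb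
      have f2 : y ^ 17 ≤ 2 * y ^ 11 * d := yd 11
      have f3 : d ^ 2 * D * b ≤ d * (y ^ 4 * b) := by
        have : d * b * (d * D) ≤ d * b * y ^ 4 := mul_le_mul_of_nonneg_left dD (by positivity)
        linarith
      have f4 : d ^ 2 * b' ≤ d * (y ^ 6 * b') := by
        have : d * b' * d ≤ d * b' * y ^ 6 := mul_le_mul_of_nonneg_left hd2 (by positivity)
        linarith
      have f5 : d ^ 3 ≤ d * y ^ 12 := by
        have : d * (d ^ 2) ≤ d * (y ^ 6) ^ 2 :=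
          mul_le_mul_of_nonneg_left (pow_le_pow_left₀ hd0.le hd2 2) hd0.le
        calc d ^ 3 = d * d ^ 2 := by ring
          _ ≤ d * (y ^ 6) ^ 2 := this
          _ = d * y ^ 12 := by ring
      have f6 : y ^ 30 ≤ 2 * y ^ 24 * d := yd 24
      linarith
    have e2 := main_cancel hd0 e1
    refine e2.trans ?_
    have f1 : y ^ 6 * b' ≤ 2 * (y ^ 4 * b) + K * y ^ 11 := by
      have g1 : y ^ 6 * b' ≤ y ^ 6 * (2 * b + K * y ^ 17) :=
        mul_le_mul_of_nonneg_left h1 (by positivity)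
      have g2 : y ^ 6 * b ≤ y ^ 4 * b := mul_le_mul_of_nonneg_right (yp (by norm_num)) hb
      have g3 : K * y ^ 23 ≤ K * y ^ 11 := mul_le_mul_of_nonneg_left (yp (by norm_num)) hK0.le
      calc y ^ 6 * b' ≤ y ^ 6 * (2 * b + K * y ^ 17) := g1
        _ = 2 * (y ^ 6 * b) + K * y ^ 23 := by ring
        _ ≤ _ := by linarith
    have f2 : y ^ 12 ≤ y ^ 11 := yp (by norm_num)
    have f3 : y ^ 24 ≤ y ^ 11 := yp (by norm_num)
    have f4 : K * (y ^ 4 * b + c * y ^ 3 * b + 2 * y ^ 11 + y ^ 4 * b + y ^ 6 * b' + y ^ 12 +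
        2 * y ^ 24) ≤ K * (4 * ((y ^ 4 + c * y ^ 3) * b) + (5 + K) * y ^ 11) := by
      refine mul_le_mul_of_nonneg_left ?_ hK0.le
      have g1 : 0 ≤ c * y ^ 3 * b := by positivity
      linarith
    refine f4.trans ?_
    have g1 : 0 ≤ (y ^ 4 + c * y ^ 3) * b := by positivity
    have g2 : 0 < y ^ 11 := by positivity
    have g3 : K * 4 ≤ 6 * K ^ 2 := by nlinarith
    have g4 : K * (5 + K) ≤ 6 * K ^ 2 := by nlinarith
    have g5 := mul_le_mul_of_nonneg_right g3 g1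
    have g6 := mul_le_mul_of_nonneg_right g4 g2.le
    linarith
  -- (iii)
  have h3' : b ≤ 24 * K ^ 3 * y ^ 3 := by
    have e1 : d * b ≤ d * (K * (y ^ 3 + R * n + c * b + 2 * y ^ 8 + y ^ 3 + 2 * y ^ 24)) := by
      refine h3.trans ?_
      rw [mul_left_comm]
      refine mul_le_mul_of_nonneg_left ?_ hK0.le
      have f1 : β * R * b ≤ d * (c * b) := by
        have g1 : β * (R * b) ≤ c * y ^ 3 * d * (R * b) :=
          mul_le_mul_of_nonneg_right hβ (by positivity)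
        calc β * R * b = β * (R * b) := by ring
          _ ≤ c * y ^ 3 * d * (R * b) := g1
          _ = d * (c * b) * (R * y ^ 3) := by ring
          _ = d * (c * b) := by rw [hR, mul_one]
      have f2 : R * y ^ 17 ≤ 2 * y ^ 8 * d := by
        calc R * y ^ 17 = (R * y ^ 3) * y ^ 14 := by ring
          _ = y ^ (8 + 6) := by rw [hR, one_mul]
          _ ≤ _ := yd 8
      have f3 : d ^ 2 * R ≤ d * y ^ 3 := by
        have : d * (d * R) ≤ d * y ^ 3 := mul_le_mul_of_nonneg_left dR hd0.le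
        linarith
      have f4 : y ^ 30 ≤ 2 * y ^ 24 * d := yd 24
      linarith
    have e2 := main_cancel hd0 e1
    have f1 : R * n ≤ 6 * K ^ 2 * ((y + c) * b + y ^ 8) := by
      have g1 : R * n ≤ R * (6 * K ^ 2 * ((y ^ 4 + c * y ^ 3) * b + y ^ 11)) :=
        mul_le_mul_of_nonneg_left h2' hR0.le
      calc R * n ≤ _ := g1
        _ = 6 * K ^ 2 * ((y + c) * b + y ^ 8) * (R * y ^ 3) := by ring
        _ = _ := by rw [hR, mul_one]
    have f2 : y ^ 8 ≤ y ^ 3 := yp (by norm_num)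
    have f3 : y ^ 24 ≤ y ^ 3 := yp (by norm_num)
    have f4 : c * b ≤ K ^ 2 * ((y + c) * b) := by
      have g1 : c * b ≤ (y + c) * b := mul_le_mul_of_nonneg_right (by linarith) hb
      have g2 : 1 * ((y + c) * b) ≤ K ^ 2 * ((y + c) * b) :=
        mul_le_mul_of_nonneg_right hK2 (by positivity)
      linarith
    have f5 : y ^ 3 ≤ K ^ 2 * y ^ 3 := by
      have : 1 * y ^ 3 ≤ K ^ 2 * y ^ 3 := mul_le_mul_of_nonneg_right hK2 (by positivity)
      linarith
    have f6 : b ≤ K * (7 * K ^ 2 * ((y + c) * b) + 12 * K ^ 2 * y ^ 3) := by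
      refine e2.trans (mul_le_mul_of_nonneg_left ?_ hK0.le)
      have g1 : 6 * K ^ 2 * y ^ 8 ≤ 6 * K ^ 2 * y ^ 3 :=
        mul_le_mul_of_nonneg_left f2 (by positivity)
      linarith
    have f7 : K * (7 * K ^ 2 * ((y + c) * b)) ≤ b / 2 := by
      have g1 : (y + c) * (14 * K ^ 3) ≤ 1 := by
        have : (y + c) * (14 * K ^ 3) ≤ (y + c) * (18 * K ^ 3) :=
          mul_le_mul_of_nonneg_left (by nlinarith [pow_pos hK0 3]) hyc.le
        linarith
      have g2 := mul_le_mul_of_nonneg_right g1 hb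
      linarith
    linarith
  have hB1 : (y ^ 4 + c * y ^ 3) * b ≤ 24 * K ^ 3 * (y ^ 7 + c * y ^ 6) := by
    have : (y ^ 4 + c * y ^ 3) * b ≤ (y ^ 4 + c * y ^ 3) * (24 * K ^ 3 * y ^ 3) :=
      mul_le_mul_of_nonneg_left h3' (by positivity)
    linarith
  -- (iv)
  have h4' : S ≤ 1000 * K ^ 6 * (y ^ 7 + c * y ^ 6) := by
    have e1 : d * S ≤ d * (K * (n + y ^ 4 * b + c * y ^ 3 * S + n + c * y ^ 3 * b + 2 * y ^ 9 +
        y ^ 4 * (b + b') + y ^ 10 + y ^ 21 + 2 * y ^ 22)) := by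
      refine h4.trans ?_
      rw [mul_left_comm]
      refine mul_le_mul_of_nonneg_left ?_ hK0.le
      have hc1 : c ≤ 1 := by nlinarith
      have f1 : β * (S + D * n + b) ≤ d * (c * y ^ 3 * S + n + c * y ^ 3 * b) := by
        have g1 : β * (S + D * n + b) ≤ c * y ^ 3 * d * (S + D * n + b) :=
          mul_le_mul_of_nonneg_right hβ (by positivity)
        have g2 : c * y ^ 3 * (D * n) ≤ n := by
          calc c * y ^ 3 * (D * n) = c * y * n * (D * y ^ 2) := by ring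
            _ = c * y * n := by rw [hD, mul_one]
            _ ≤ 1 * n := mul_le_mul_of_nonneg_right (by nlinarith) hn
            _ = n := one_mul n
        calc β * (S + D * n + b) ≤ _ := g1
          _ = d * (c * y ^ 3 * S + c * y ^ 3 * (D * n) + c * y ^ 3 * b) := by ring
          _ ≤ _ := mul_le_mul_of_nonneg_left (by linarith) hd0.le
      have f2 : D * y ^ 17 ≤ 2 * y ^ 9 * d := by
        calc D * y ^ 17 = (D * y ^ 2) * y ^ 15 := by ring
          _ = y ^ (9 + 6) := by rw [hD, one_mul]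
          _ ≤ _ := yd 9
      have f3 : d ^ 2 * D * (b + b') ≤ d * (y ^ 4 * (b + b')) := by
        have : d * (b + b') * (d * D) ≤ d * (b + b') * y ^ 4 :=
          mul_le_mul_of_nonneg_left dD (by positivity)
        linarith
      have f4 : d ^ 3 * D ≤ d * y ^ 10 := by
        have g1 : d * d * (d * D) ≤ d * d * y ^ 4 :=
          mul_le_mul_of_nonneg_left dD (by positivity)
        have g2 : d * y ^ 4 * d ≤ d * y ^ 4 * y ^ 6 :=
          mul_le_mul_of_nonneg_left hd2 (by positivity)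
        linarith
      have f5 : y ^ 28 ≤ 2 * y ^ 22 * d := yd 22
      linarith
    have e2 := main_cancel hd0 e1
    have f1 : y ^ 4 * (b + b') ≤ 3 * (y ^ 4 * b) + K * y ^ 9 := by
      have g1 : y ^ 4 * b' ≤ y ^ 4 * (2 * b + K * y ^ 17) :=
        mul_le_mul_of_nonneg_left h1 (by positivity)
      have g3 : K * y ^ 21 ≤ K * y ^ 9 := mul_le_mul_of_nonneg_left (yp (by norm_num)) hK0.le
      calc y ^ 4 * (b + b') = y ^ 4 * b + y ^ 4 * b' := by ring
        _ ≤ y ^ 4 * b + y ^ 4 * (2 * b + K * y ^ 17) := by linarith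
        _ = 3 * (y ^ 4 * b) + K * y ^ 21 := by ring
        _ ≤ _ := by linarith
    have f2 : y ^ 10 ≤ y ^ 9 := yp (by norm_num)
    have f3 : y ^ 21 ≤ y ^ 9 := yp (by norm_num)
    have f4 : y ^ 22 ≤ y ^ 9 := yp (by norm_num)
    have f5 : y ^ 11 ≤ y ^ 9 := yp (by norm_num)
    have f6 : K * (c * y ^ 3 * S) ≤ S / 2 := by
      have g1 : c * K * y ^ 3 ≤ 1 / 2 * 1 :=
        mul_le_mul hcK (pow_le_one₀ hy0.le hy1) (by positivity) (by norm_num)
      have g2 := mul_le_mul_of_nonneg_right g1 hS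
      linarith
    obtain ⟨X, hX⟩ : ∃ X, X = (y ^ 4 + c * y ^ 3) * b := ⟨_, rfl⟩
    have hX0 : 0 ≤ X := by rw [hX]; positivity
    rw [← hX] at h2' hB1
    have hy9 : 0 < y ^ 9 := by positivity
    have f7 : S / 2 ≤ K * (2 * n + 5 * X + (6 + K) * y ^ 9) := by
      have g1 : K * (n + y ^ 4 * b + c * y ^ 3 * S + n + c * y ^ 3 * b + 2 * y ^ 9 +
          y ^ 4 * (b + b') + y ^ 10 + y ^ 21 + 2 * y ^ 22) ≤ K * (c * y ^ 3 * S) +
          K * (2 * n + 5 * X + (6 + K) * y ^ 9) := by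
        rw [← mul_add]
        refine mul_le_mul_of_nonneg_left ?_ hK0.le
        have g3 : 0 ≤ c * y ^ 3 * b := by positivity
        have g4 : 0 ≤ y ^ 4 * b := by positivity
        rw [hX]
        linarith
      linarith
    have f8 : n ≤ 6 * K ^ 2 * (X + y ^ 9) :=
      h2'.trans (mul_le_mul_of_nonneg_left (by linarith) (by positivity))
    have f9 : S ≤ 38 * K ^ 3 * (X + y ^ 9) := by
      have g1 : 5 * X ≤ 5 * K ^ 2 * X := by
        have := mul_le_mul_of_nonneg_right hK2 hX0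
        linarith
      have g2 : (6 + K) * y ^ 9 ≤ 7 * K ^ 2 * y ^ 9 := by
        refine mul_le_mul_of_nonneg_right ?_ hy9.le
        nlinarith
      have g3 : K * (2 * n + 5 * X + (6 + K) * y ^ 9) ≤ K * (19 * K ^ 2 * (X + y ^ 9)) := by
        refine mul_le_mul_of_nonneg_left ?_ hK0.le
        have : 0 ≤ K ^ 2 * X := by positivity
        linarith
      linarith
    refine f9.trans ?_
    have g1 : y ^ 9 ≤ K ^ 3 * (y ^ 7 + c * y ^ 6) := by
      have k1 : y ^ 9 ≤ y ^ 7 := yp (by norm_num)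
      have k2 : 1 ≤ K ^ 3 := one_le_pow₀ hK
      have k3 : 0 ≤ c * y ^ 6 := by positivity
      have k4 : 1 * (y ^ 7 + c * y ^ 6) ≤ K ^ 3 * (y ^ 7 + c * y ^ 6) :=
        mul_le_mul_of_nonneg_right k2 (by positivity)
      linarith
    have g2 : 38 * K ^ 3 * (X + y ^ 9) ≤ 38 * K ^ 3 * (25 * K ^ 3 * (y ^ 7 + c * y ^ 6)) :=
      mul_le_mul_of_nonneg_left (by linarith) (by positivity)
    refine g2.trans ?_
    have g3 : 0 ≤ K ^ 6 * (y ^ 7 + c * y ^ 6) := by positivity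
    calc 38 * K ^ 3 * (25 * K ^ 3 * (y ^ 7 + c * y ^ 6)) =
        950 * (K ^ 6 * (y ^ 7 + c * y ^ 6)) := by ring
      _ ≤ 1000 * (K ^ 6 * (y ^ 7 + c * y ^ 6)) := by linarith
      _ = _ := by ring
  -- (v)
  have hy12 : 0 < y ^ 12 := by positivity
  have e1 : y ^ 12 / 4 ≤ d ^ 2 := by
    have := pow_le_pow_left₀ (by positivity) hd1 2
    calc y ^ 12 / 4 = (y ^ 6 / 2) ^ 2 := by ring
      _ ≤ _ := this
  have e2 : 2 * d * S ≤ 2000 * K ^ 6 * (y ^ 12 * (y + c)) := by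
    have g1 : d * S ≤ y ^ 6 * (1000 * K ^ 6 * (y ^ 7 + c * y ^ 6)) :=
      mul_le_mul hd2 h4' hS (by positivity)
    calc 2 * d * S = 2 * (d * S) := by ring
      _ ≤ 2 * (y ^ 6 * (1000 * K ^ 6 * (y ^ 7 + c * y ^ 6))) := by linarith
      _ = _ := by ring
  have e3 : β * b ≤ 24 * K ^ 3 * (y ^ 12 * (y + c)) := by
    have g1 : β ≤ c * y ^ 3 * y ^ 6 :=
      hβ.trans (mul_le_mul_of_nonneg_left hd2 (by positivity))
    have g2 : β * b ≤ c * y ^ 3 * y ^ 6 * (24 * K ^ 3 * y ^ 3) :=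
      mul_le_mul g1 h3' hb (by positivity)
    have g3 : 0 ≤ 24 * K ^ 3 * (y ^ 12 * y) := by positivity
    calc β * b ≤ _ := g2
      _ = 24 * K ^ 3 * (y ^ 12 * c) := by ring
      _ ≤ _ := by rw [mul_add, mul_add]; linarith
  have hy13 : y ^ 13 ≤ y ^ 12 * (y + c) := by
    have : 0 ≤ y ^ 12 * c := by positivity
    calc y ^ 13 = y ^ 12 * y := by ring
      _ ≤ _ := by rw [mul_add]; linarith
  have e4 : d ^ 2 * b' ≤ 49 * K ^ 3 * (y ^ 12 * (y + c)) := by
    have g1 : d ^ 2 ≤ y ^ 12 := by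
      have := pow_le_pow_left₀ hd0.le hd2 2
      calc d ^ 2 ≤ (y ^ 6) ^ 2 := this
        _ = y ^ 12 := by ring
    have g2 : b' ≤ 49 * K ^ 3 * y := by
      have k1 : y ^ 3 ≤ y := by simpa using yp (a := 1) (b := 3) (by norm_num)
      have k2 : y ^ 17 ≤ y := by simpa using yp (a := 1) (b := 17) (by norm_num)
      have k3 : K ≤ K ^ 3 := by simpa using kp (a := 1) (b := 3) (by norm_num)
      have k4 : 24 * K ^ 3 * y ^ 3 ≤ 24 * K ^ 3 * y :=
        mul_le_mul_of_nonneg_left k1 (by positivity)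
      have k5 : K * y ^ 17 ≤ K ^ 3 * y := mul_le_mul k3 k2 (by positivity) (by positivity)
      linarith
    have g3 : d ^ 2 * b' ≤ y ^ 12 * (49 * K ^ 3 * y) := mul_le_mul g1 g2 hb' (by positivity)
    have g4 : 49 * K ^ 3 * y ^ 13 ≤ 49 * K ^ 3 * (y ^ 12 * (y + c)) :=
      mul_le_mul_of_nonneg_left hy13 (by positivity)
    calc d ^ 2 * b' ≤ _ := g3
      _ = 49 * K ^ 3 * y ^ 13 := by ring
      _ ≤ _ := g4
  have e5 : d ^ 3 ≤ y ^ 12 * (y + c) := by
    have g1 : d ^ 3 ≤ (y ^ 6) ^ 3 := pow_le_pow_left₀ hd0.le hd2 3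
    have g2 : (y ^ 6) ^ 3 = y ^ 18 := by ring
    have g3 : y ^ 18 ≤ y ^ 13 := yp (by norm_num)
    linarith
  have e6 : y ^ 17 ≤ y ^ 12 * (y + c) := (yp (by norm_num : 13 ≤ 17)).trans hy13
  have e7 : y ^ 30 ≤ y ^ 12 * (y + c) := (yp (by norm_num : 13 ≤ 30)).trans hy13
  obtain ⟨Y, hY⟩ : ∃ Y, Y = y ^ 12 * (y + c) := ⟨_, rfl⟩
  rw [← hY] at e2 e3 e4 e5 e6 e7
  have hY0 : 0 < Y := by rw [hY]; positivity
  have hk3 : K ^ 3 ≤ K ^ 5 := kp (by norm_num)
  have hk1 : 1 ≤ K ^ 5 := one_le_pow₀ hK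
  have e8 : β * b + y ^ 17 + d ^ 2 * b' + d ^ 3 + y ^ 30 ≤ 76 * K ^ 5 * Y := by
    have g1 : K ^ 3 * Y ≤ K ^ 5 * Y := mul_le_mul_of_nonneg_right hk3 hY0.le
    have g2 : 1 * Y ≤ K ^ 5 * Y := mul_le_mul_of_nonneg_right hk1 hY0.le
    linarith
  have e9 : K * (β * b + y ^ 17 + d ^ 2 * b' + d ^ 3 + y ^ 30) ≤ K * (76 * K ^ 5 * Y) :=
    mul_le_mul_of_nonneg_left e8 hK0.le
  have e10 : K * (76 * K ^ 5 * Y) = 76 * K ^ 6 * Y := by ring
  have e11 : y ^ 12 / 4 ≤ 2076 * K ^ 6 * Y := by linarith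
  have e12 : 11000 * K ^ 6 * Y ≤ y ^ 12 := by
    have : y ^ 12 * ((y + c) * (11000 * K ^ 6)) ≤ y ^ 12 * 1 :=
      mul_le_mul_of_nonneg_left hsm hy12.le
    rw [hY]
    linarith
  have hKY : 0 < K ^ 6 * Y := by positivity
  nlinarith

end Pool.Agent.T3M
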