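import Mathlib
import Pool.Agent.T3M.AV

/-! Summation over time of the drift inequalities (helper52). -/

set_option autoImplicit false

namespace Pool.Agent.T3M

open Pool.Agent.Helper55.Vote Finset

/-! ### Nonnegativity -/

lemma main_kap_nonneg (D l : ℕ) : 0 ≤ kap D l := by
  unfold kap
  split_ifs with h1 h2
  · have h3 : (l : ℝ) ^ 2 ≤ (D : ℝ) ^ 2 :=
      pow_le_pow_left₀ (Nat.cast_nonneg l) (by exact_mod_cast h1) 2
    rcases Nat.eq_zero_or_pos D with h | h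
    · subst h
      simp
    · have hD : (0 : ℝ) < D := by exact_mod_cast h
      have h4 : (0 : ℝ) < (D : ℝ) ^ 2 := by positivity
      rw [sub_nonneg, div_le_one (by positivity)]
      linarith
  · positivity
  · exact le_rfl

lemma main_th_nonneg {D : ℕ} (hD : 1 ≤ D) : 0 ≤ th D := by
  unfold th
  have h1 : (1 : ℝ) ≤ D := by exact_mod_cast hD
  rw [sub_nonneg, div_le_one (by positivity)]
  linarith

lemma main_Psi_nonneg (u : ℤ → Sy) : 0 ≤ Psi u := by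
  unfold Psi
  linarith [nst_nonneg u, Bn_nonneg u]

lemma main_Zs_nonneg (D : ℕ) (u : ℤ → Sy) : 0 ≤ Zs D u :=
  fs_nonneg fun _ => mul_nonneg (ind_nonneg _) (main_kap_nonneg _ _)

lemma main_ZL_nonneg {D : ℕ} (hD : 1 ≤ D) (u : ℤ → Sy) : 0 ≤ ZL D u :=
  fs_nonneg fun _ => mul_nonneg (ind_nonneg _)
    (mul_nonneg (pow_nonneg (main_th_nonneg hD) _) (main_kap_nonneg _ _))

lemma main_SL_nonneg {D : ℕ} (hD : 1 ≤ D) (u : ℤ → Sy) : 0 ≤ SL D u :=
  fs_nonneg fun _ => mul_nonneg (ind_nonneg _) (pow_nonneg (main_th_nonneg hD) _)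

lemma main_Tq_nonneg (R : ℕ) (u : ℤ → Sy) : 0 ≤ Tq R u := by
  unfold Tq
  exact mul_nonneg (by positivity) (fs_nonneg fun _ => sq_nonneg _)

lemma main_bad_nonneg (P : Par) (m : ℕ) : 0 ≤ P.bad m := by
  have h1 := P.hd'
  unfold Par.bad
  positivity

/-! ### All inequalities with one constant -/

/-- the inequalities used, with one constant `M` -/
structure MainH (M : ℝ) : Prop where
  one : 1 ≤ M
  root : St_Root
  d1 : ∀ (u : ℤ → Sy) (N : ℕ), Rt u → Sup N u → Lg Psi u ≤ f3 u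
  d2 : ∀ (u : ℤ → Sy) (N R : ℕ), 3 ≤ R → Rt u → Sup N u →
    Bn u - M / R * nst u - M * R * kl u ≤ Lg (Tq R) u
  d3 : ∀ (u : ℤ → Sy) (N D : ℕ), 8 ≤ D → Rt u → Sup N u →
    Lg (Zs D) u + 1 / M * kl u ≤ M / (D : ℝ) ^ 2 * Bn u
  d4 : ∀ (u : ℤ → Sy) (N D : ℕ), 100 ≤ D → Rt u → Sup N u →
    Lg (ZL D) u + 1 / M * SL D u ≤ M * kl u + M / (D : ℝ) ^ 2 * Bn u
  d5a : ∀ (u : ℤ → Sy) (N : ℕ), Rt u → Sup N u → -M * Bn u ≤ Lb false Psi u
  d5b : ∀ (u : ℤ → Sy) (N R : ℕ), 3 ≤ R → Rt u → Sup N u → Lb false (Tq R) u ≤ M * R * Bn u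
  d5c : ∀ (u : ℤ → Sy) (N D : ℕ), 8 ≤ D → Rt u → Sup N u → -M * Bn u ≤ Lb false (Zs D) u
  d5d : ∀ (u : ℤ → Sy) (N D : ℕ), 100 ≤ D → Rt u → Sup N u →
    -M * (SL D u + D * kl u + Bn u) ≤ Lb false (ZL D) u
  f3 : ∀ (u : ℤ → Sy) (N D : ℕ), 2 ≤ D → Rt u → Sup N u → f3 u ≤ SL D u + SL D (rev u)
  refl : St_Refl
  psi : ∀ (P : Par) (t : ℕ), 244 ≤ t → t < P.T →
    P.EF Psi (t + 1) - P.EF Psi t ≤ P.dr Psi t - (P.e ^ 2 + P.d ^ 2) * P.Q (t - 122) +
      M * (P.d ^ 2 * P.b (t - 122) + P.d ^ 3 * P.Q (t - 244) + P.bad 60)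
  tq : ∀ (P : Par) (R t : ℕ), 3 ≤ R → R ≤ P.A → 244 ≤ t → t < P.T →
    P.dr (Tq R) t - M * (P.d ^ 2 * R * P.Q (t - 244) + P.bad 60) ≤
      P.EF (Tq R) (t + 1) - P.EF (Tq R) t
  zs : ∀ (P : Par) (D t : ℕ), 8 ≤ D → D ≤ P.A → 244 ≤ t → t < P.T →
    P.EF (Zs D) (t + 1) - P.EF (Zs D) t ≤ P.dr (Zs D) t +
      M * (P.d ^ 2 * D * P.AV Bn t + P.d ^ 2 * P.b (t - 122) + P.d ^ 3 * P.Q (t - 244) +
        P.bad 60)
  zl : ∀ (P : Par) (D t : ℕ), 100 ≤ D → D ≤ P.A → 244 ≤ t → t < P.T →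
    P.EF (ZL D) (t + 1) - P.EF (ZL D) t ≤ P.dr (ZL D) t +
      M * (P.d ^ 2 * D * (P.AV Bn t + P.b (t - 122)) + P.d ^ 3 * D * P.Q (t - 244) + P.d +
        D * P.bad 60)
  bt : ∀ (P : Par) (t : ℕ), M * P.d ≤ 1 → t < P.T → P.b t ≤ 2 * P.AV Bn t + M * P.bad 60
  bd : ∀ (P : Par) (D t : ℕ), 8 ≤ D → D ≤ P.A → t < P.T →
    P.AV nst t ≤ M * (P.Q t + P.bad 60) ∧ P.b t ≤ M * (P.Q t + P.bad 60) ∧
    P.EF Psi t ≤ M * (P.Q t + P.bad 60) ∧ P.EF (Zs D) t ≤ M * (P.Q t + P.bad 60) ∧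
    P.EF (ZL D) t ≤ M * D * (P.Q t + P.bad 60) ∧ P.EF (Tq D) t ≤ M * D * (P.Q t + P.bad 60)

lemma main_b_nonneg (h0 : St_Root) (P : Par) (t : ℕ) : 0 ≤ P.b t :=
  EF_nonneg P h0 (fun u _ _ => Bn_nonneg u) t

theorem main_H (h0 : St_Root) (h1 : St_D1) (h2 : St_D2) (h3 : St_D3) (h4 : St_D4)
    (h5a : St_D5a) (h5b : St_D5b) (h5c : St_D5c) (h5d : St_D5d) (hf : St_F3) (hr : St_Refl)
    (hp : St_P6Psi 60) (ht : St_P6T 60) (hz : St_P6Zs 60) (hl : St_P6ZL 60) (hb : St_Bt 60)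
    (hd : St_Bd 60) : ∃ M, MainH M := by
  obtain ⟨C2, c2, h2⟩ := h2
  obtain ⟨C3, c3, h3⟩ := h3
  obtain ⟨C4, c4, h4⟩ := h4
  obtain ⟨C5, c5, h5a⟩ := h5a
  obtain ⟨C6, c6, h5b⟩ := h5b
  obtain ⟨C7, c7, h5c⟩ := h5c
  obtain ⟨C8, c8, h5d⟩ := h5d
  obtain ⟨C9, c9, hp⟩ := hp
  obtain ⟨C10, c10, ht⟩ := ht
  obtain ⟨C11, c11, hz⟩ := hz
  obtain ⟨C12, c12, hl⟩ := hl
  obtain ⟨C13, c13, hb⟩ := hb
  obtain ⟨C14, c14, hd⟩ := hd
  obtain ⟨M, hM⟩ : ∃ M : ℝ, M = 1 + C2 + C3 + C4 + C5 + C6 + C7 + C8 + C9 + C10 + C11 + C12 +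
    C13 + C14 := ⟨_, rfl⟩
  have m1 : 1 ≤ M := by rw [hM]; linarith
  have m2 : C2 ≤ M := by rw [hM]; linarith
  have m3 : C3 ≤ M := by rw [hM]; linarith
  have m4 : C4 ≤ M := by rw [hM]; linarith
  have m5 : C5 ≤ M := by rw [hM]; linarith
  have m6 : C6 ≤ M := by rw [hM]; linarith
  have m7 : C7 ≤ M := by rw [hM]; linarith
  have m8 : C8 ≤ M := by rw [hM]; linarith
  have m9 : C9 ≤ M := by rw [hM]; linarith
  have m10 : C10 ≤ M := by rw [hM]; linarith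
  have m11 : C11 ≤ M := by rw [hM]; linarith
  have m12 : C12 ≤ M := by rw [hM]; linarith
  have m13 : C13 ≤ M := by rw [hM]; linarith
  have m14 : C14 ≤ M := by rw [hM]; linarith
  clear hM
  have hM0 : 0 < M := by linarith
  have hK : 2 * KK 60 = 244 := rfl
  have hK' : KK 60 = 122 := rfl
  have inv : ∀ {C : ℝ}, 0 < C → C ≤ M → 1 / M ≤ 1 / C := fun h h' =>
    one_div_le_one_div_of_le h h'
  refine ⟨M, ⟨m1, h0, h1, ?_, ?_, ?_, ?_, ?_, ?_, ?_, hf, hr, ?_, ?_, ?_, ?_, ?_, ?_⟩⟩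
  · intro u N R hR hu hs
    have e := h2 u N R hR hu hs
    have e1 : C2 / R * nst u ≤ M / R * nst u :=
      mul_le_mul_of_nonneg_right (div_le_div_of_nonneg_right m2 (Nat.cast_nonneg R))
        (nst_nonneg u)
    have e2 : C2 * R * kl u ≤ M * R * kl u :=
      mul_le_mul_of_nonneg_right (mul_le_mul_of_nonneg_right m2 (Nat.cast_nonneg R))
        (kl_nonneg u)
    linarith
  · intro u N D hD hu hs
    have e := h3 u N D hD hu hs
    have e1 : 1 / M * kl u ≤ 1 / C3 * kl u := mul_le_mul_of_nonneg_right (inv c3 m3) (kl_nonneg u)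
    have e2 : C3 / (D : ℝ) ^ 2 * Bn u ≤ M / (D : ℝ) ^ 2 * Bn u :=
      mul_le_mul_of_nonneg_right (div_le_div_of_nonneg_right m3 (by positivity)) (Bn_nonneg u)
    linarith
  · intro u N D hD hu hs
    have e := h4 u N D hD hu hs
    have e1 : 1 / M * SL D u ≤ 1 / C4 * SL D u :=
      mul_le_mul_of_nonneg_right (inv c4 m4) (main_SL_nonneg (by omega) u)
    have e2 : C4 / (D : ℝ) ^ 2 * Bn u ≤ M / (D : ℝ) ^ 2 * Bn u :=
      mul_le_mul_of_nonneg_right (div_le_div_of_nonneg_right m4 (by positivity)) (Bn_nonneg u)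
    have e3 : C4 * kl u ≤ M * kl u := mul_le_mul_of_nonneg_right m4 (kl_nonneg u)
    linarith
  · intro u N hu hs
    have e := h5a u N hu hs
    have e1 := mul_le_mul_of_nonneg_right m5 (Bn_nonneg u)
    linarith
  · intro u N R hR hu hs
    have e := h5b u N R hR hu hs
    have e1 : C6 * R * Bn u ≤ M * R * Bn u :=
      mul_le_mul_of_nonneg_right (mul_le_mul_of_nonneg_right m6 (Nat.cast_nonneg R))
        (Bn_nonneg u)
    linarith
  · intro u N D hD hu hs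
    have e := h5c u N D hD hu hs
    have e1 := mul_le_mul_of_nonneg_right m7 (Bn_nonneg u)
    linarith
  · intro u N D hD hu hs
    have e := h5d u N D hD hu hs
    have n1 := main_SL_nonneg (D := D) (by omega) u
    have n2 := kl_nonneg u
    have n3 := Bn_nonneg u
    have e1 := mul_le_mul_of_nonneg_right m8
      (show 0 ≤ SL D u + D * kl u + Bn u by positivity)
    linarith
  · intro P t h1 h2
    have e := hp P t (by rw [hK]; exact h1) h2
    rw [hK, hK'] at e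
    have n1 := main_b_nonneg h0 P (t - 122)
    have n2 := Q_nonneg P (t - 244)
    have n3 := main_bad_nonneg P 60
    have n4 := P.hd'
    have e1 := mul_le_mul_of_nonneg_right m9
      (show 0 ≤ P.d ^ 2 * P.b (t - 122) + P.d ^ 3 * P.Q (t - 244) + P.bad 60 by positivity)
    linarith
  · intro P R t h1 h2 h3 h4
    have e := ht P R t h1 h2 (by rw [hK]; exact h3) h4
    rw [hK] at e
    have n2 := Q_nonneg P (t - 244)
    have n3 := main_bad_nonneg P 60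
    have n4 := P.hd'
    have e1 := mul_le_mul_of_nonneg_right m10
      (show 0 ≤ P.d ^ 2 * R * P.Q (t - 244) + P.bad 60 by positivity)
    linarith
  · intro P D t h1 h2 h3 h4
    have e := hz P D t h1 h2 (by rw [hK]; exact h3) h4
    rw [hK, hK'] at e
    have n1 := main_b_nonneg h0 P (t - 122)
    have n2 := Q_nonneg P (t - 244)
    have n3 := main_bad_nonneg P 60
    have n4 := P.hd'
    have n5 := AV_nonneg P h0 (F := Bn) (fun u _ _ => Bn_nonneg u) t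
    have e1 := mul_le_mul_of_nonneg_right m11
      (show 0 ≤ P.d ^ 2 * D * P.AV Bn t + P.d ^ 2 * P.b (t - 122) + P.d ^ 3 * P.Q (t - 244) +
        P.bad 60 by positivity)
    linarith
  · intro P D t h1 h2 h3 h4
    have e := hl P D t h1 h2 (by rw [hK]; exact h3) h4
    rw [hK, hK'] at e
    have n1 := main_b_nonneg h0 P (t - 122)
    have n2 := Q_nonneg P (t - 244)
    have n3 := main_bad_nonneg P 60
    have n4 := P.hd'
    have n5 := AV_nonneg P h0 (F := Bn) (fun u _ _ => Bn_nonneg u) t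
    have e1 := mul_le_mul_of_nonneg_right m12
      (show 0 ≤ P.d ^ 2 * D * (P.AV Bn t + P.b (t - 122)) + P.d ^ 3 * D * P.Q (t - 244) + P.d +
        D * P.bad 60 by positivity)
    linarith
  · intro P t h1 h2
    have n3 := main_bad_nonneg P 60
    have n4 := P.hd'
    have e0 : C13 * P.d ≤ 1 := (mul_le_mul_of_nonneg_right m13 n4).trans h1
    have e := hb P t e0 h2
    have e1 := mul_le_mul_of_nonneg_right m13 n3
    linarith
  · intro P D t h1 h2 h3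
    obtain ⟨a1, a2, a3, a4, a5, a6⟩ := hd P D t h1 h2 h3
    have n2 := Q_nonneg P t
    have n3 := main_bad_nonneg P 60
    have n6 : 0 ≤ P.Q t + P.bad 60 := by positivity
    have e1 := mul_le_mul_of_nonneg_right m14 n6
    have e2 : C14 * D * (P.Q t + P.bad 60) ≤ M * D * (P.Q t + P.bad 60) :=
      mul_le_mul_of_nonneg_right (mul_le_mul_of_nonneg_right m14 (Nat.cast_nonneg D)) n6
    exact ⟨a1.trans e1, a2.trans e1, a3.trans e1, a4.trans e1, a5.trans e2, a6.trans e2⟩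

end Pool.Agent.T3M
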