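import Mathlib
import Pool.Agent.T3M.MMainB

/-! Summation over time of the drift inequalities (helper52). -/

set_option autoImplicit false

namespace Pool.Agent.T3M

open Pool.Agent.Helper55.Vote Finset

/-- an interval of times on which the expected number of stars is almost constant -/
structure Plat (P : Par) (t1 τ : ℕ) (Qi : ℝ) : Prop where
  pos : 0 < Qi
  tT : t1 + τ < P.T
  h244 : 244 ≤ t1
  lo : ∀ t, t1 ≤ t + 244 → t ≤ t1 + τ → Qi ≤ P.Q t
  up : ∀ t, t1 ≤ t + 244 → t ≤ t1 + τ → P.Q t ≤ 8 * Qi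

/-- the sum of the averages over the interval -/
noncomputable def sA (P : Par) (t1 τ : ℕ) (F : (ℤ → Sy) → ℝ) : ℝ :=
  ∑ j ∈ range τ, P.AV F (t1 + j)

/-- the shifted sum of the expected numbers of star edges -/
noncomputable def sb (P : Par) (t1 τ : ℕ) : ℝ := ∑ j ∈ range τ, P.b (t1 + j - 122)

lemma main_tel (g : ℕ → ℝ) (t1 τ : ℕ) :
    ∑ j ∈ range τ, (g (t1 + j + 1) - g (t1 + j)) = g (t1 + τ) - g t1 := by
  have h := Finset.sum_range_sub (fun j => g (t1 + j)) τ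
  simpa [add_assoc] using h

variable {M : ℝ} (H : MainH M) {P : Par} {t1 τ : ℕ} {Qi : ℝ} (hp : Plat P t1 τ Qi)

include H in
lemma main_M0 : 0 < M := by have := H.one; linarith

lemma main_dd : 0 ≤ P.d - P.e := sub_nonneg.2 P.hed

include H in
lemma sA_nonneg {F : (ℤ → Sy) → ℝ} (h : ∀ u, 0 ≤ F u) : 0 ≤ sA P t1 τ F :=
  Finset.sum_nonneg fun _ _ => AV_nonneg P H.root (fun u _ _ => h u) _

include H in
lemma sb_nonneg : 0 ≤ sb P t1 τ := Finset.sum_nonneg fun _ _ => main_b_nonneg H.root P _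

include hp in
lemma main_sQ : ∑ j ∈ range τ, P.Q (t1 + j - 244) ≤ τ * (8 * Qi) := by
  have h : ∑ j ∈ range τ, P.Q (t1 + j - 244) ≤ ∑ _j ∈ range τ, 8 * Qi := by
    refine Finset.sum_le_sum fun j hj => ?_
    have hj' := Finset.mem_range.1 hj
    have := hp.h244
    exact hp.up _ (by omega) (by omega)
  simpa using h

include hp in
lemma main_sQ' : τ * Qi ≤ ∑ j ∈ range τ, P.Q (t1 + j - 122) := by
  have h : ∑ _j ∈ range τ, Qi ≤ ∑ j ∈ range τ, P.Q (t1 + j - 122) := by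
    refine Finset.sum_le_sum fun j hj => ?_
    have hj' := Finset.mem_range.1 hj
    have := hp.h244
    exact hp.lo _ (by omega) (by omega)
  simpa using h

include H hp in
/-- (i) -/
lemma main_i (hMd : M * P.d ≤ 1) :
    sb P t1 τ ≤ 2 * sA P t1 τ Bn + M * (122 * (8 * Qi + P.bad 60) + τ * P.bad 60) := by
  have h244 := hp.h244
  have hA := P.hA
  have hT := hp.tT
  have hM0 := main_M0 H
  have e1 : sb P t1 τ ≤ ∑ j ∈ range (122 + τ), P.b (t1 - 122 + j) := by
    unfold sb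
    calc ∑ j ∈ range τ, P.b (t1 + j - 122) = ∑ j ∈ range τ, P.b (t1 - 122 + j) :=
          Finset.sum_congr rfl fun j _ => by rw [show t1 + j - 122 = t1 - 122 + j by omega]
      _ ≤ _ := Finset.sum_le_sum_of_subset_of_nonneg
          (Finset.range_subset_range.2 (by omega)) fun _ _ _ => main_b_nonneg H.root P _
  rw [Finset.sum_range_add] at e1
  have e2 : ∑ j ∈ range 122, P.b (t1 - 122 + j) ≤ 122 * (M * (8 * Qi + P.bad 60)) := by
    have h : ∑ j ∈ range 122, P.b (t1 - 122 + j) ≤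
        ∑ _j ∈ range 122, M * (8 * Qi + P.bad 60) := by
      refine Finset.sum_le_sum fun j hj => ?_
      have hj' := Finset.mem_range.1 hj
      refine ((H.bd P 8 _ le_rfl (by omega) (by omega)).2.1).trans ?_
      refine mul_le_mul_of_nonneg_left ?_ hM0.le
      have := hp.up (t1 - 122 + j) (by omega) (by omega)
      linarith
    refine h.trans (le_of_eq ?_)
    simp
  have e3 : ∑ j ∈ range τ, P.b (t1 - 122 + (122 + j)) ≤
      2 * sA P t1 τ Bn + τ * (M * P.bad 60) := by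
    have h : ∑ j ∈ range τ, P.b (t1 - 122 + (122 + j)) ≤
        ∑ j ∈ range τ, (2 * P.AV Bn (t1 + j) + M * P.bad 60) := by
      refine Finset.sum_le_sum fun j hj => ?_
      have hj' := Finset.mem_range.1 hj
      rw [show t1 - 122 + (122 + j) = t1 + j by omega]
      exact H.bt P _ hMd (by omega)
    refine h.trans (le_of_eq ?_)
    unfold sA
    rw [Finset.sum_add_distrib, ← Finset.mul_sum]
    simp
  linarith

include H hp in
/-- (ii) -/
lemma main_ii {D : ℕ} (hD : 8 ≤ D) (hDA : D ≤ P.A) :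
    P.d * (1 / M * sA P t1 τ kl) ≤ M * (8 * Qi + P.bad 60) +
      P.d * (M / (D : ℝ) ^ 2 * sA P t1 τ Bn) + (P.d - P.e) * (M * sA P t1 τ Bn) +
      M * (P.d ^ 2 * D * sA P t1 τ Bn + P.d ^ 2 * sb P t1 τ + P.d ^ 3 * (τ * (8 * Qi)) +
        τ * P.bad 60) := by
  have h244 := hp.h244
  have hT := hp.tT
  have hM0 := main_M0 H
  have hd0 := P.hd'
  have hdr : ∀ t, P.dr (Zs D) t ≤ P.d * (M / (D : ℝ) ^ 2 * P.AV Bn t - 1 / M * P.AV kl t) +
      (P.d - P.e) * (M * P.AV Bn t) := by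
    intro t
    unfold Par.dr
    have a1 : P.AV (Lg (Zs D)) t ≤
        P.AV (fun u => M / (D : ℝ) ^ 2 * Bn u - 1 / M * kl u) t :=
      AV_le P H.root (fun u hu hs => by have := H.d3 u P.A D hD hu hs; linarith) t
    rw [AV_sub, AV_smul, AV_smul] at a1
    have a2 : P.AV (fun u => -M * Bn u) t ≤ P.AV (Lb false (Zs D)) t :=
      AV_le P H.root (fun u hu hs => H.d5c u P.A D hD hu hs) t
    rw [AV_smul] at a2
    have a3 := mul_le_mul_of_nonneg_left a1 hd0
    have a4 := mul_le_mul_of_nonneg_left a2 (main_dd (P := P))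
    linarith
  have e1 : P.EF (Zs D) (t1 + τ) - P.EF (Zs D) t1 ≤ ∑ j ∈ range τ,
      (P.d * (M / (D : ℝ) ^ 2 * P.AV Bn (t1 + j) - 1 / M * P.AV kl (t1 + j)) +
        (P.d - P.e) * (M * P.AV Bn (t1 + j)) +
        M * (P.d ^ 2 * D * P.AV Bn (t1 + j) + P.d ^ 2 * P.b (t1 + j - 122) +
          P.d ^ 3 * P.Q (t1 + j - 244) + P.bad 60)) := by
    rw [← main_tel (fun t => P.EF (Zs D) t)]
    refine Finset.sum_le_sum fun j hj => ?_
    have hj' := Finset.mem_range.1 hj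
    have a1 := H.zs P D (t1 + j) hD hDA (by omega) (by omega)
    have a2 := hdr (t1 + j)
    linarith
  have e2 : ∑ j ∈ range τ,
      (P.d * (M / (D : ℝ) ^ 2 * P.AV Bn (t1 + j) - 1 / M * P.AV kl (t1 + j)) +
        (P.d - P.e) * (M * P.AV Bn (t1 + j)) +
        M * (P.d ^ 2 * D * P.AV Bn (t1 + j) + P.d ^ 2 * P.b (t1 + j - 122) +
          P.d ^ 3 * P.Q (t1 + j - 244) + P.bad 60)) =
      P.d * (M / (D : ℝ) ^ 2 * sA P t1 τ Bn - 1 / M * sA P t1 τ kl) +
        (P.d - P.e) * (M * sA P t1 τ Bn) +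
        M * (P.d ^ 2 * D * sA P t1 τ Bn + P.d ^ 2 * sb P t1 τ +
          P.d ^ 3 * ∑ j ∈ range τ, P.Q (t1 + j - 244) + τ * P.bad 60) := by
    unfold sA sb
    simp only [Finset.sum_add_distrib, Finset.sum_sub_distrib, ← Finset.mul_sum,
      Finset.sum_const, Finset.card_range, nsmul_eq_mul]
  rw [e2] at e1
  have e3 : 0 ≤ P.EF (Zs D) (t1 + τ) :=
    EF_nonneg P H.root (fun u _ _ => main_Zs_nonneg D u) _
  have e4 : P.EF (Zs D) t1 ≤ M * (8 * Qi + P.bad 60) := by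
    refine ((H.bd P D t1 hD hDA (by omega)).2.2.2.1).trans ?_
    refine mul_le_mul_of_nonneg_left ?_ hM0.le
    have := hp.up t1 (by omega) (by omega)
    linarith
  have e5 : P.d ^ 3 * ∑ j ∈ range τ, P.Q (t1 + j - 244) ≤ P.d ^ 3 * (τ * (8 * Qi)) :=
    mul_le_mul_of_nonneg_left (main_sQ hp) (by positivity)
  have e6 := mul_le_mul_of_nonneg_left e5 hM0.le
  linarith

include H hp in
/-- (iii) -/
lemma main_iii {R : ℕ} (hR : 8 ≤ R) (hRA : R ≤ P.A) :
    P.d * sA P t1 τ Bn ≤ P.d * (M / R * (M * (τ * (8 * Qi) + τ * P.bad 60))) +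
      P.d * (M * R * sA P t1 τ kl) + (P.d - P.e) * (M * R * sA P t1 τ Bn) +
      M * R * (8 * Qi + P.bad 60) + M * (P.d ^ 2 * R * (τ * (8 * Qi)) + τ * P.bad 60) := by
  have h244 := hp.h244
  have hT := hp.tT
  have hM0 := main_M0 H
  have hd0 := P.hd'
  have hdr : ∀ t, P.d * (P.AV Bn t - M / R * P.AV nst t - M * R * P.AV kl t) -
      (P.d - P.e) * (M * R * P.AV Bn t) ≤ P.dr (Tq R) t := by
    intro t
    unfold Par.dr
    have a1 : P.AV (fun u => Bn u - M / R * nst u - M * R * kl u) t ≤ P.AV (Lg (Tq R)) t :=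
      AV_le P H.root (fun u hu hs => H.d2 u P.A R (by omega) hu hs) t
    rw [AV_sub P (fun u => Bn u - M / R * nst u), AV_sub, AV_smul, AV_smul] at a1
    have a2 : P.AV (Lb false (Tq R)) t ≤ P.AV (fun u => M * R * Bn u) t :=
      AV_le P H.root (fun u hu hs => H.d5b u P.A R (by omega) hu hs) t
    rw [AV_smul] at a2
    have a3 := mul_le_mul_of_nonneg_left a1 hd0
    have a4 := mul_le_mul_of_nonneg_left a2 (main_dd (P := P))
    linarith
  have e1 : ∑ j ∈ range τ,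
      (P.d * (P.AV Bn (t1 + j) - M / R * P.AV nst (t1 + j) - M * R * P.AV kl (t1 + j)) -
        (P.d - P.e) * (M * R * P.AV Bn (t1 + j)) -
        M * (P.d ^ 2 * R * P.Q (t1 + j - 244) + P.bad 60)) ≤
      P.EF (Tq R) (t1 + τ) - P.EF (Tq R) t1 := by
    rw [← main_tel (fun t => P.EF (Tq R) t)]
    refine Finset.sum_le_sum fun j hj => ?_
    have hj' := Finset.mem_range.1 hj
    have a1 := H.tq P R (t1 + j) (by omega) hRA (by omega) (by omega)
    have a2 := hdr (t1 + j)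
    linarith
  have e2 : ∑ j ∈ range τ,
      (P.d * (P.AV Bn (t1 + j) - M / R * P.AV nst (t1 + j) - M * R * P.AV kl (t1 + j)) -
        (P.d - P.e) * (M * R * P.AV Bn (t1 + j)) -
        M * (P.d ^ 2 * R * P.Q (t1 + j - 244) + P.bad 60)) =
      P.d * (sA P t1 τ Bn - M / R * sA P t1 τ nst - M * R * sA P t1 τ kl) -
        (P.d - P.e) * (M * R * sA P t1 τ Bn) -
        M * (P.d ^ 2 * R * ∑ j ∈ range τ, P.Q (t1 + j - 244) + τ * P.bad 60) := by
    unfold sA
    simp only [Finset.sum_add_distrib, Finset.sum_sub_distrib, ← Finset.mul_sum,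
      Finset.sum_const, Finset.card_range, nsmul_eq_mul]
  rw [e2] at e1
  have e3 : 0 ≤ P.EF (Tq R) t1 := EF_nonneg P H.root (fun u _ _ => main_Tq_nonneg R u) _
  have e4 : P.EF (Tq R) (t1 + τ) ≤ M * R * (8 * Qi + P.bad 60) := by
    refine ((H.bd P R (t1 + τ) hR hRA (by omega)).2.2.2.2.2).trans ?_
    refine mul_le_mul_of_nonneg_left ?_ (by positivity)
    have := hp.up (t1 + τ) (by omega) (by omega)
    linarith
  have e5 : P.d ^ 2 * R * ∑ j ∈ range τ, P.Q (t1 + j - 244) ≤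
      P.d ^ 2 * R * (τ * (8 * Qi)) :=
    mul_le_mul_of_nonneg_left (main_sQ hp) (by positivity)
  have e6 := mul_le_mul_of_nonneg_left e5 hM0.le
  have e7 : sA P t1 τ nst ≤ M * (τ * (8 * Qi) + τ * P.bad 60) := by
    have h : sA P t1 τ nst ≤ ∑ _j ∈ range τ, M * (8 * Qi + P.bad 60) := by
      unfold sA
      refine Finset.sum_le_sum fun j hj => ?_
      have hj' := Finset.mem_range.1 hj
      refine ((H.bd P R (t1 + j) hR hRA (by omega)).1).trans ?_
      refine mul_le_mul_of_nonneg_left ?_ hM0.le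
      have := hp.up (t1 + j) (by omega) (by omega)
      linarith
    refine h.trans (le_of_eq ?_)
    simp only [Finset.sum_const, Finset.card_range, nsmul_eq_mul]
    ring
  have e8 : P.d * (M / R * sA P t1 τ nst) ≤
      P.d * (M / R * (M * (τ * (8 * Qi) + τ * P.bad 60))) :=
    mul_le_mul_of_nonneg_left (mul_le_mul_of_nonneg_left e7 (by positivity)) hd0
  linarith

include H hp in
/-- (iv) -/
lemma main_iv {D : ℕ} (hD : 100 ≤ D) (hDA : D ≤ P.A) :
    P.d * (1 / M * sA P t1 τ (SL D)) ≤ M * D * (8 * Qi + P.bad 60) +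
      P.d * (M * sA P t1 τ kl + M / (D : ℝ) ^ 2 * sA P t1 τ Bn) +
      (P.d - P.e) * (M * (sA P t1 τ (SL D) + D * sA P t1 τ kl + sA P t1 τ Bn)) +
      M * (P.d ^ 2 * D * (sA P t1 τ Bn + sb P t1 τ) + P.d ^ 3 * D * (τ * (8 * Qi)) +
        τ * P.d + τ * (D * P.bad 60)) := by
  have h244 := hp.h244
  have hT := hp.tT
  have hM0 := main_M0 H
  have hd0 := P.hd'
  have hdr : ∀ t, P.dr (ZL D) t ≤ P.d * (M * P.AV kl t + M / (D : ℝ) ^ 2 * P.AV Bn t -
      1 / M * P.AV (SL D) t) +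
      (P.d - P.e) * (M * (P.AV (SL D) t + D * P.AV kl t + P.AV Bn t)) := by
    intro t
    unfold Par.dr
    have a1 : P.AV (Lg (ZL D)) t ≤
        P.AV (fun u => (M * kl u + M / (D : ℝ) ^ 2 * Bn u) - 1 / M * SL D u) t :=
      AV_le P H.root (fun u hu hs => by have := H.d4 u P.A D hD hu hs; linarith) t
    rw [AV_sub, AV_add, AV_smul, AV_smul, AV_smul] at a1
    have a2 : P.AV (fun u => -M * ((SL D u + D * kl u) + Bn u)) t ≤
        P.AV (Lb false (ZL D)) t :=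
      AV_le P H.root (fun u hu hs => H.d5d u P.A D hD hu hs) t
    rw [AV_smul, AV_add P (fun u => SL D u + D * kl u), AV_add, AV_smul] at a2
    have a3 := mul_le_mul_of_nonneg_left a1 hd0
    have a4 := mul_le_mul_of_nonneg_left a2 (main_dd (P := P))
    linarith
  have e1 : P.EF (ZL D) (t1 + τ) - P.EF (ZL D) t1 ≤ ∑ j ∈ range τ,
      (P.d * (M * P.AV kl (t1 + j) + M / (D : ℝ) ^ 2 * P.AV Bn (t1 + j) -
        1 / M * P.AV (SL D) (t1 + j)) +
        (P.d - P.e) * (M * (P.AV (SL D) (t1 + j) + D * P.AV kl (t1 + j) + P.AV Bn (t1 + j))) +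
        M * (P.d ^ 2 * D * (P.AV Bn (t1 + j) + P.b (t1 + j - 122)) +
          P.d ^ 3 * D * P.Q (t1 + j - 244) + P.d + D * P.bad 60)) := by
    rw [← main_tel (fun t => P.EF (ZL D) t)]
    refine Finset.sum_le_sum fun j hj => ?_
    have hj' := Finset.mem_range.1 hj
    have a1 := H.zl P D (t1 + j) hD hDA (by omega) (by omega)
    have a2 := hdr (t1 + j)
    linarith
  have e2 : ∑ j ∈ range τ,
      (P.d * (M * P.AV kl (t1 + j) + M / (D : ℝ) ^ 2 * P.AV Bn (t1 + j) -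
        1 / M * P.AV (SL D) (t1 + j)) +
        (P.d - P.e) * (M * (P.AV (SL D) (t1 + j) + D * P.AV kl (t1 + j) + P.AV Bn (t1 + j))) +
        M * (P.d ^ 2 * D * (P.AV Bn (t1 + j) + P.b (t1 + j - 122)) +
          P.d ^ 3 * D * P.Q (t1 + j - 244) + P.d + D * P.bad 60)) =
      P.d * (M * sA P t1 τ kl + M / (D : ℝ) ^ 2 * sA P t1 τ Bn - 1 / M * sA P t1 τ (SL D)) +
        (P.d - P.e) * (M * (sA P t1 τ (SL D) + D * sA P t1 τ kl + sA P t1 τ Bn)) +
        M * (P.d ^ 2 * D * (sA P t1 τ Bn + sb P t1 τ) +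
          P.d ^ 3 * D * ∑ j ∈ range τ, P.Q (t1 + j - 244) + τ * P.d + τ * (D * P.bad 60)) := by
    unfold sA sb
    simp only [Finset.sum_add_distrib, Finset.sum_sub_distrib, ← Finset.mul_sum,
      Finset.sum_const, Finset.card_range, nsmul_eq_mul]
    ring
  rw [e2] at e1
  have e3 : 0 ≤ P.EF (ZL D) (t1 + τ) :=
    EF_nonneg P H.root (fun u _ _ => main_ZL_nonneg (by omega) u) _
  have e4 : P.EF (ZL D) t1 ≤ M * D * (8 * Qi + P.bad 60) := by
    refine ((H.bd P D t1 (by omega) hDA (by omega)).2.2.2.2.1).trans ?_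
    refine mul_le_mul_of_nonneg_left ?_ (by positivity)
    have := hp.up t1 (by omega) (by omega)
    linarith
  have e5 : P.d ^ 3 * D * ∑ j ∈ range τ, P.Q (t1 + j - 244) ≤
      P.d ^ 3 * D * (τ * (8 * Qi)) :=
    mul_le_mul_of_nonneg_left (main_sQ hp) (by positivity)
  have e6 := mul_le_mul_of_nonneg_left e5 hM0.le
  linarith

include H hp in
/-- (v) -/
lemma main_v {D : ℕ} (hD : 8 ≤ D) (hDA : D ≤ P.A) :
    P.d ^ 2 * (τ * Qi) ≤ P.d * (2 * sA P t1 τ (SL D)) + M * (8 * Qi + P.bad 60) +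
      (P.d - P.e) * (M * sA P t1 τ Bn) +
      M * (P.d ^ 2 * sb P t1 τ + P.d ^ 3 * (τ * (8 * Qi)) + τ * P.bad 60) := by
  have h244 := hp.h244
  have hT := hp.tT
  have hM0 := main_M0 H
  have hd0 := P.hd'
  have hdr : ∀ t, P.dr Psi t ≤ P.d * (2 * P.AV (SL D) t) + (P.d - P.e) * (M * P.AV Bn t) := by
    intro t
    unfold Par.dr
    have a1 : P.AV (Lg Psi) t ≤ P.AV (fun u => SL D u + SL D (rev u)) t :=
      AV_le P H.root (fun u hu hs => (H.d1 u P.A hu hs).trans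
        (H.f3 u P.A D (by omega) hu hs)) t
    rw [AV_add P (SL D) (fun u => SL D (rev u)), H.refl P (SL D) t] at a1
    have a2 : P.AV (fun u => -M * Bn u) t ≤ P.AV (Lb false Psi) t :=
      AV_le P H.root (fun u hu hs => H.d5a u P.A hu hs) t
    rw [AV_smul] at a2
    have a3 := mul_le_mul_of_nonneg_left a1 hd0
    have a4 := mul_le_mul_of_nonneg_left a2 (main_dd (P := P))
    linarith
  have e1 : P.EF Psi (t1 + τ) - P.EF Psi t1 ≤ ∑ j ∈ range τ,
      (P.d * (2 * P.AV (SL D) (t1 + j)) + (P.d - P.e) * (M * P.AV Bn (t1 + j)) -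
        (P.e ^ 2 + P.d ^ 2) * P.Q (t1 + j - 122) +
        M * (P.d ^ 2 * P.b (t1 + j - 122) + P.d ^ 3 * P.Q (t1 + j - 244) + P.bad 60)) := by
    rw [← main_tel (fun t => P.EF Psi t)]
    refine Finset.sum_le_sum fun j hj => ?_
    have hj' := Finset.mem_range.1 hj
    have a1 := H.psi P (t1 + j) (by omega) (by omega)
    have a2 := hdr (t1 + j)
    linarith
  have e2 : ∑ j ∈ range τ,
      (P.d * (2 * P.AV (SL D) (t1 + j)) + (P.d - P.e) * (M * P.AV Bn (t1 + j)) -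
        (P.e ^ 2 + P.d ^ 2) * P.Q (t1 + j - 122) +
        M * (P.d ^ 2 * P.b (t1 + j - 122) + P.d ^ 3 * P.Q (t1 + j - 244) + P.bad 60)) =
      P.d * (2 * sA P t1 τ (SL D)) + (P.d - P.e) * (M * sA P t1 τ Bn) -
        (P.e ^ 2 + P.d ^ 2) * ∑ j ∈ range τ, P.Q (t1 + j - 122) +
        M * (P.d ^ 2 * sb P t1 τ + P.d ^ 3 * ∑ j ∈ range τ, P.Q (t1 + j - 244) +
          τ * P.bad 60) := by
    unfold sA sb
    simp only [Finset.sum_add_distrib, Finset.sum_sub_distrib, ← Finset.mul_sum,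
      Finset.sum_const, Finset.card_range, nsmul_eq_mul]
  rw [e2] at e1
  have e3 : 0 ≤ P.EF Psi (t1 + τ) := EF_nonneg P H.root (fun u _ _ => main_Psi_nonneg u) _
  have e4 : P.EF Psi t1 ≤ M * (8 * Qi + P.bad 60) := by
    refine ((H.bd P D t1 hD hDA (by omega)).2.2.1).trans ?_
    refine mul_le_mul_of_nonneg_left ?_ hM0.le
    have := hp.up t1 (by omega) (by omega)
    linarith
  have e5 : P.d ^ 3 * ∑ j ∈ range τ, P.Q (t1 + j - 244) ≤ P.d ^ 3 * (τ * (8 * Qi)) :=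
    mul_le_mul_of_nonneg_left (main_sQ hp) (by positivity)
  have e6 := mul_le_mul_of_nonneg_left e5 hM0.le
  have e7 : P.d ^ 2 * (τ * Qi) ≤
      (P.e ^ 2 + P.d ^ 2) * ∑ j ∈ range τ, P.Q (t1 + j - 122) := by
    have g1 : P.d ^ 2 * (τ * Qi) ≤ P.d ^ 2 * ∑ j ∈ range τ, P.Q (t1 + j - 122) :=
      mul_le_mul_of_nonneg_left (main_sQ' hp) (by positivity)
    have g2 : 0 ≤ P.e ^ 2 * ∑ j ∈ range τ, P.Q (t1 + j - 122) :=
      mul_nonneg (by positivity) (Finset.sum_nonneg fun _ _ => Q_nonneg P _)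
    linarith
  linarith

end Pool.Agent.T3M
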