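import Mathlib
import Pool.Agent.T3M.MMainA
import Pool.Agent.T3M.MMainC

/-! Normalisation, plateau, choice of the parameters (helper52). -/

set_option autoImplicit false

namespace Pool.Agent.T3M

open Pool.Agent.Helper55.Vote Finset

/-- a nonincreasing sequence which does not decay fast is almost constant on a long interval -/
lemma main_plateau (δ : ℕ → ℝ) (hδ : Antitone δ) (h0 : δ 0 ≤ 1) (T k τ : ℕ) (hk : k * τ ≤ T)
    (hT : 1 ≤ (2 * (T : ℝ) + 1) * δ T) (h2 : 2 * (T : ℝ) + 1 < 2 ^ k) :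
    ∃ s, s + τ ≤ T ∧ δ s ≤ 2 * δ (s + τ) := by
  by_contra hcon
  push Not at hcon
  have hind : ∀ j, j ≤ k → 2 ^ j * δ (j * τ) ≤ 1 := by
    intro j
    induction j with
    | zero => intro _; simpa using h0
    | succ j ih =>
      intro hj
      have h3 : (j + 1) * τ ≤ k * τ := Nat.mul_le_mul_right τ hj
      have h4 : j * τ + τ = (j + 1) * τ := by ring
      have h5 := hcon (j * τ) (by omega)
      rw [h4] at h5
      have h6 := ih (by omega)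
      have h7 : (2 : ℝ) ^ j * (2 * δ ((j + 1) * τ)) ≤ 2 ^ j * δ (j * τ) :=
        mul_le_mul_of_nonneg_left h5.le (by positivity)
      calc (2 : ℝ) ^ (j + 1) * δ ((j + 1) * τ) = 2 ^ j * (2 * δ ((j + 1) * τ)) := by ring
        _ ≤ 1 := h7.trans h6
  have h8 := hind k le_rfl
  have h9 : δ T ≤ δ (k * τ) := hδ hk
  have hT0 : 0 < δ T := by
    by_contra h
    push Not at h
    have : (2 * (T : ℝ) + 1) * δ T ≤ 0 := mul_nonpos_of_nonneg_of_nonpos (by positivity) h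
    linarith
  have h10 : (2 : ℝ) ^ k * δ T ≤ 2 ^ k * δ (k * τ) := mul_le_mul_of_nonneg_left h9 (by positivity)
  have h11 : (2 * (T : ℝ) + 1) * δ T < 2 ^ k * δ T := mul_lt_mul_of_pos_right h2 hT0
  linarith

/-- the contradiction on a plateau, for a choice of the parameters in terms of `y` -/
lemma main_final {M : ℝ} (H : MainH M) {P : Par} {t1 τ : ℕ} {Qi : ℝ} (hp : Plat P t1 τ Qi)
    {D R : ℕ} (hD : 100 ≤ D) (hDA : D ≤ P.A) (hR : 8 ≤ R) (hRA : R ≤ P.A) {y c : ℝ}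
    (hy0 : 0 < y) (hy1 : y ≤ 1) (hc : 0 ≤ c)
    (hsm : (y + c) * (11000 * (1100 * M ^ 2) ^ 6) ≤ 1) (hd1 : y ^ 6 / 2 ≤ P.d)
    (hd2 : P.d ≤ y ^ 6) (hβ : P.d - P.e ≤ c * y ^ 3 * P.d) (hDy : (D : ℝ) * y ^ 2 = 1)
    (hRy : (R : ℝ) * y ^ 3 = 1) (hτ : 1 ≤ τ) (hτy : 1 / (τ : ℝ) ≤ y ^ 17)
    (hQ : 1 / Qi ≤ y ^ 21) (hbad : P.bad 60 ≤ y ^ 30) : False := by
  have hM1 := H.one
  have hM0 : 0 < M := by linarith
  have hd0 := P.hd'
  have hβ0 : 0 ≤ P.d - P.e := main_dd (P := P)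
  have hτ0 : (0 : ℝ) < τ := by exact_mod_cast hτ
  have hQ0 := hp.pos
  have hbad0 := main_bad_nonneg P 60
  have hD0 : (0 : ℝ) < D := by exact_mod_cast (by omega : 0 < D)
  have hR0 : (0 : ℝ) < R := by exact_mod_cast (by omega : 0 < R)
  have hMM : M ≤ M ^ 2 := by nlinarith
  have hQ1 : 1 ≤ Qi := by
    have h1 : y ^ 21 ≤ 1 := pow_le_one₀ hy0.le hy1
    have h2 : 1 / Qi ≤ 1 := hQ.trans h1
    rwa [div_le_one hQ0] at h2
  obtain ⟨Z, hZ⟩ : ∃ Z : ℝ, Z = τ * Qi := ⟨_, rfl⟩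
  have hZ0 : 0 < Z := by rw [hZ]; positivity
  have hQZ : Qi ≤ y ^ 17 * Z := by
    rw [div_le_iff₀ hτ0] at hτy
    have : 1 * Qi ≤ y ^ 17 * τ * Qi := mul_le_mul_of_nonneg_right hτy hQ0.le
    rw [hZ]; linarith
  have hτZ : (τ : ℝ) ≤ y ^ 21 * Z := by
    rw [div_le_iff₀ hQ0] at hQ
    have : 1 * (τ : ℝ) ≤ y ^ 21 * Qi * τ := mul_le_mul_of_nonneg_right hQ hτ0.le
    rw [hZ]; linarith
  have hbQ : P.bad 60 ≤ Qi := by
    have h1 : y ^ 30 ≤ 1 := pow_le_one₀ hy0.le hy1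
    linarith
  have hτb : τ * P.bad 60 ≤ y ^ 30 * Z := by
    have h1 : τ * P.bad 60 ≤ τ * y ^ 30 := mul_le_mul_of_nonneg_left hbad hτ0.le
    have h2 : τ * y ^ 30 * 1 ≤ τ * y ^ 30 * Qi := mul_le_mul_of_nonneg_left hQ1 (by positivity)
    rw [hZ]; linarith
  -- normalised quantities
  obtain ⟨b, hb⟩ : ∃ b : ℝ, b = sA P t1 τ Bn / Z := ⟨_, rfl⟩
  obtain ⟨b', hb'⟩ : ∃ b : ℝ, b = sb P t1 τ / Z := ⟨_, rfl⟩
  obtain ⟨n, hn⟩ : ∃ b : ℝ, b = sA P t1 τ kl / Z := ⟨_, rfl⟩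
  obtain ⟨S, hS⟩ : ∃ b : ℝ, b = sA P t1 τ (SL D) / Z := ⟨_, rfl⟩
  have nb : 0 ≤ b := by rw [hb]; exact div_nonneg (sA_nonneg H Bn_nonneg) hZ0.le
  have nb' : 0 ≤ b' := by rw [hb']; exact div_nonneg (sb_nonneg H) hZ0.le
  have nn : 0 ≤ n := by rw [hn]; exact div_nonneg (sA_nonneg H kl_nonneg) hZ0.le
  have nS : 0 ≤ S := by
    rw [hS]; exact div_nonneg (sA_nonneg H (main_SL_nonneg (by omega))) hZ0.le
  have eb : sA P t1 τ Bn = b * Z := by rw [hb, div_mul_cancel₀ _ hZ0.ne']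
  have eb' : sb P t1 τ = b' * Z := by rw [hb', div_mul_cancel₀ _ hZ0.ne']
  have en : sA P t1 τ kl = n * Z := by rw [hn, div_mul_cancel₀ _ hZ0.ne']
  have eS : sA P t1 τ (SL D) = S * Z := by rw [hS, div_mul_cancel₀ _ hZ0.ne']
  have eQ : (τ : ℝ) * (8 * Qi) = 8 * Z := by rw [hZ]; ring
  have hDD : 1 / (D : ℝ) ^ 2 = y ^ 4 := by
    rw [div_eq_iff (by positivity)]
    calc (1 : ℝ) = (D * y ^ 2) ^ 2 := by rw [hDy, one_pow]
      _ = y ^ 4 * (D : ℝ) ^ 2 := by ring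
  have hRR : 1 / (R : ℝ) = y ^ 3 := by
    rw [div_eq_iff hR0.ne', mul_comm, hRy]
  have hMd : M * P.d ≤ 1 := by
    have h1 : y ^ 6 ≤ y := by
      have := pow_le_pow_of_le_one hy0.le hy1 (show 1 ≤ 6 by norm_num)
      rwa [pow_one] at this
    have h2 : M ≤ 11000 * (1100 * M ^ 2) ^ 6 := by
      have h3 : (1 : ℝ) ≤ M ^ 10 := one_le_pow₀ hM1
      have h4 : M ^ 2 * 1 ≤ M ^ 2 * M ^ 10 := mul_le_mul_of_nonneg_left h3 (by positivity)
      have h5 : 11000 * (1100 * M ^ 2) ^ 6 = 11000 * 1100 ^ 6 * (M ^ 2 * M ^ 10) := by ring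
      rw [h5]
      nlinarith
    have h3 : y * M ≤ y * (11000 * (1100 * M ^ 2) ^ 6) := mul_le_mul_of_nonneg_left h2 hy0.le
    have h4 : 0 ≤ c * (11000 * (1100 * M ^ 2) ^ 6) := by positivity
    have h5 : M * P.d ≤ M * y := mul_le_mul_of_nonneg_left (hd2.trans h1) hM0.le
    linarith
  have r1 := main_i H hp hMd
  have r2 := main_ii H hp (D := D) (by omega) hDA
  have r3 := main_iii H hp hR hRA
  have r4 := main_iv H hp hD hDA
  have r5 := main_v H hp (D := D) (by omega) hDA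
  rw [eb, eb'] at r1
  rw [eb, eb', en, eQ] at r2
  rw [eb, en, eQ] at r3
  rw [eb, eb', en, eS, eQ] at r4
  rw [eb, eb', eS, eQ, ← hZ] at r5
  have hK1 : 1 ≤ 1100 * M ^ 2 := by nlinarith
  have hy17 : y ^ 30 ≤ y ^ 17 := pow_le_pow_of_le_one hy0.le hy1 (by norm_num)
  refine main_arith (1100 * M ^ 2) y c P.d (P.d - P.e) b b' n S D R hK1 hy0 hy1 hc hsm hd1 hd2
    hβ0 hβ hDy hRy nb nb' nn nS ?_ ?_ ?_ ?_ ?_
  · -- (i)
    refine main_cancel hZ0 ?_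
    have g1 : M * (122 * (8 * Qi + P.bad 60) + τ * P.bad 60) ≤ M * (1099 * (y ^ 17 * Z)) := by
      refine mul_le_mul_of_nonneg_left ?_ hM0.le
      have : y ^ 30 * Z ≤ y ^ 17 * Z := mul_le_mul_of_nonneg_right hy17 hZ0.le
      linarith
    have g2 : M * (1099 * (y ^ 17 * Z)) ≤ M ^ 2 * (1100 * (y ^ 17 * Z)) :=
      mul_le_mul hMM (by nlinarith [pow_pos hy0 17]) (by positivity) (by positivity)
    calc Z * b' = b' * Z := mul_comm _ _
      _ ≤ _ := r1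
      _ ≤ 2 * (b * Z) + M ^ 2 * (1100 * (y ^ 17 * Z)) := by linarith
      _ = _ := by ring
  · -- (ii)
    refine main_cancel hZ0 ?_
    have g0 : 8 * Qi + P.bad 60 ≤ 9 * (y ^ 17 * Z) := by linarith
    have g1 : M * (8 * Qi + P.bad 60) ≤ M * (9 * (y ^ 17 * Z)) :=
      mul_le_mul_of_nonneg_left g0 hM0.le
    have g2 : M / (D : ℝ) ^ 2 = M * y ^ 4 := by rw [← hDD]; ring
    rw [g2] at r2
    have g3 : P.d * (1 / M * (n * Z)) * M = Z * (P.d * n) := by field_simp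
    have g4 : M * (P.d ^ 2 * D * (b * Z) + P.d ^ 2 * (b' * Z) + P.d ^ 3 * (8 * Z) +
        τ * P.bad 60) ≤ M * (P.d ^ 2 * D * (b * Z) + P.d ^ 2 * (b' * Z) + P.d ^ 3 * (8 * Z) +
        y ^ 30 * Z) := mul_le_mul_of_nonneg_left (by linarith) hM0.le
    have g5 : P.d * (1 / M * (n * Z)) ≤ M * (9 * (P.d * y ^ 4 * b + (P.d - P.e) * b + y ^ 17 +
        P.d ^ 2 * D * b + P.d ^ 2 * b' + P.d ^ 3 + y ^ 30) * Z) := by
      have k1 : 0 ≤ M * (P.d * y ^ 4 * b * Z) := by positivity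
      have k2 : 0 ≤ M * ((P.d - P.e) * b * Z) := by positivity
      have k3 : 0 ≤ M * (P.d ^ 2 * D * b * Z) := by positivity
      have k4 : 0 ≤ M * (P.d ^ 2 * b' * Z) := by positivity
      have k5 : 0 ≤ M * (P.d ^ 3 * Z) := by positivity
      have k6 : 0 ≤ M * (y ^ 30 * Z) := by positivity
      have k7 : 0 ≤ M * (y ^ 17 * Z) := by positivity
      linarith
    have g6 := mul_le_mul_of_nonneg_right g5 hM0.le
    rw [g3] at g6
    refine g6.trans ?_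
    have k : 0 ≤ M ^ 2 * ((P.d * y ^ 4 * b + (P.d - P.e) * b + y ^ 17 +
        P.d ^ 2 * D * b + P.d ^ 2 * b' + P.d ^ 3 + y ^ 30) * Z) := by positivity
    linarith
  · -- (iii)
    refine main_cancel hZ0 ?_
    have g0 : 8 * Qi + P.bad 60 ≤ 9 * (y ^ 17 * Z) := by linarith
    have g1 : M * R * (8 * Qi + P.bad 60) ≤ M * R * (9 * (y ^ 17 * Z)) :=
      mul_le_mul_of_nonneg_left g0 (by positivity)
    have g2 : M / (R : ℝ) = M * y ^ 3 := by rw [← hRR]; ring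
    rw [g2] at r3
    have hy30 : y ^ 30 * Z ≤ Z := by
      have h1 : y ^ 30 ≤ 1 := pow_le_one₀ hy0.le hy1
      have := mul_le_mul_of_nonneg_right h1 hZ0.le
      linarith
    have g3 : P.d * (M * y ^ 3 * (M * (8 * Z + τ * P.bad 60))) ≤
        P.d * (M * y ^ 3 * (M * (9 * Z))) := by
      refine mul_le_mul_of_nonneg_left ?_ hd0
      refine mul_le_mul_of_nonneg_left ?_ (by positivity)
      exact mul_le_mul_of_nonneg_left (by linarith) hM0.le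
    have g4 : M * (P.d ^ 2 * R * (8 * Z) + τ * P.bad 60) ≤
        M * (P.d ^ 2 * R * (8 * Z) + y ^ 30 * Z) :=
      mul_le_mul_of_nonneg_left (by linarith) hM0.le
    have m1 : ∀ X : ℝ, 0 ≤ X → M * X ≤ M ^ 2 * X := fun X hX =>
      mul_le_mul_of_nonneg_right hMM hX
    have k1 := m1 (P.d * R * n * Z) (by positivity)
    have k2 := m1 ((P.d - P.e) * R * b * Z) (by positivity)
    have k3 := m1 (R * y ^ 17 * Z) (by positivity)
    have k4 := m1 (P.d ^ 2 * R * Z) (by positivity)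
    have k5 := m1 (y ^ 30 * Z) (by positivity)
    have l1 : 0 ≤ M ^ 2 * (P.d * R * n * Z) := by positivity
    have l2 : 0 ≤ M ^ 2 * ((P.d - P.e) * R * b * Z) := by positivity
    have l3 : 0 ≤ M ^ 2 * (R * y ^ 17 * Z) := by positivity
    have l4 : 0 ≤ M ^ 2 * (P.d ^ 2 * R * Z) := by positivity
    have l5 : 0 ≤ M ^ 2 * (y ^ 30 * Z) := by positivity
    have l6 : 0 ≤ M ^ 2 * (P.d * y ^ 3 * Z) := by positivity
    linarith
  · -- (iv)
    refine main_cancel hZ0 ?_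
    have g0 : 8 * Qi + P.bad 60 ≤ 9 * (y ^ 17 * Z) := by linarith
    have g1 : M * D * (8 * Qi + P.bad 60) ≤ M * D * (9 * (y ^ 17 * Z)) :=
      mul_le_mul_of_nonneg_left g0 (by positivity)
    have g2 : M / (D : ℝ) ^ 2 = M * y ^ 4 := by rw [← hDD]; ring
    rw [g2] at r4
    have g3 : P.d * (1 / M * (S * Z)) * M = Z * (P.d * S) := by field_simp
    have hDb : τ * (D * P.bad 60) ≤ y ^ 28 * Z := by
      have h1 : D * (τ * P.bad 60) ≤ D * (y ^ 30 * Z) := mul_le_mul_of_nonneg_left hτb hD0.le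
      calc τ * (D * P.bad 60) = D * (τ * P.bad 60) := by ring
        _ ≤ D * (y ^ 30 * Z) := h1
        _ = (D * y ^ 2) * (y ^ 28 * Z) := by ring
        _ = _ := by rw [hDy, one_mul]
    have hτd : τ * P.d ≤ P.d * y ^ 21 * Z := by
      have := mul_le_mul_of_nonneg_right hτZ hd0
      linarith
    have g4 : M * (P.d ^ 2 * D * (b * Z + b' * Z) + P.d ^ 3 * D * (8 * Z) + τ * P.d +
        τ * (D * P.bad 60)) ≤ M * (P.d ^ 2 * D * (b * Z + b' * Z) + P.d ^ 3 * D * (8 * Z) +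
        P.d * y ^ 21 * Z + y ^ 28 * Z) := mul_le_mul_of_nonneg_left (by linarith) hM0.le
    have g5 : P.d * (1 / M * (S * Z)) ≤ M * (9 * (P.d * n + P.d * y ^ 4 * b +
        (P.d - P.e) * (S + D * n + b) + D * y ^ 17 + P.d ^ 2 * D * (b + b') + P.d ^ 3 * D +
        P.d * y ^ 21 + y ^ 28) * Z) := by
      have k1 : 0 ≤ M * (P.d * n * Z) := by positivity
      have k2 : 0 ≤ M * (P.d * y ^ 4 * b * Z) := by positivity
      have k3 : 0 ≤ M * ((P.d - P.e) * (S + D * n + b) * Z) := by positivity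
      have k4 : 0 ≤ M * (D * y ^ 17 * Z) := by positivity
      have k5 : 0 ≤ M * (P.d ^ 2 * D * (b + b') * Z) := by positivity
      have k6 : 0 ≤ M * (P.d ^ 3 * D * Z) := by positivity
      have k7 : 0 ≤ M * (P.d * y ^ 21 * Z) := by positivity
      have k8 : 0 ≤ M * (y ^ 28 * Z) := by positivity
      linarith
    have g6 := mul_le_mul_of_nonneg_right g5 hM0.le
    rw [g3] at g6
    refine g6.trans ?_
    have k : 0 ≤ M ^ 2 * ((P.d * n + P.d * y ^ 4 * b +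
        (P.d - P.e) * (S + D * n + b) + D * y ^ 17 + P.d ^ 2 * D * (b + b') + P.d ^ 3 * D +
        P.d * y ^ 21 + y ^ 28) * Z) := by positivity
    linarith
  · -- (v)
    refine main_cancel hZ0 ?_
    have g0 : 8 * Qi + P.bad 60 ≤ 9 * (y ^ 17 * Z) := by linarith
    have g1 : M * (8 * Qi + P.bad 60) ≤ M * (9 * (y ^ 17 * Z)) :=
      mul_le_mul_of_nonneg_left g0 hM0.le
    have g4 : M * (P.d ^ 2 * (b' * Z) + P.d ^ 3 * (8 * Z) + τ * P.bad 60) ≤
        M * (P.d ^ 2 * (b' * Z) + P.d ^ 3 * (8 * Z) + y ^ 30 * Z) :=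
      mul_le_mul_of_nonneg_left (by linarith) hM0.le
    have m1 : ∀ X : ℝ, 0 ≤ X → M * X ≤ M ^ 2 * X := fun X hX =>
      mul_le_mul_of_nonneg_right hMM hX
    have k1 := m1 ((P.d - P.e) * b * Z) (by positivity)
    have k2 := m1 (y ^ 17 * Z) (by positivity)
    have k3 := m1 (P.d ^ 2 * b' * Z) (by positivity)
    have k4 := m1 (P.d ^ 3 * Z) (by positivity)
    have k5 := m1 (y ^ 30 * Z) (by positivity)
    have l1 : 0 ≤ M ^ 2 * ((P.d - P.e) * b * Z) := by positivity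
    have l2 : 0 ≤ M ^ 2 * (y ^ 17 * Z) := by positivity
    have l3 : 0 ≤ M ^ 2 * (P.d ^ 2 * b' * Z) := by positivity
    have l4 : 0 ≤ M ^ 2 * (P.d ^ 3 * Z) := by positivity
    have l5 : 0 ≤ M ^ 2 * (y ^ 30 * Z) := by positivity
    linarith

end Pool.Agent.T3M
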