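import Mathlib
import Pool.Agent.T3M.MMainD
import Pool.Agent.Helper55.Vote.Crit

/-! The conclusion: choice of the parameters (helper52). -/

set_option autoImplicit false

namespace Pool.Agent.T3M

open Pool.Agent.Helper55.Vote Finset

/-- the size `N` of the parameters for the rate `d` -/
lemma main_size {d : ℝ} (hd : 0 < d) {N₀ : ℕ} (hN₀ : 120 ≤ N₀) (h : d * (N₀ : ℝ) ^ 60 ≤ 1) :
    ∃ N : ℕ, N₀ ≤ N ∧ d * (N : ℝ) ^ 60 ≤ 1 ∧ 1 ≤ 2 * (d * (N : ℝ) ^ 60) := by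
  obtain ⟨x, hx⟩ : ∃ x : ℝ, x = (1 / d) ^ ((1 : ℝ) / 60) := ⟨_, rfl⟩
  have hx0 : 0 ≤ x := by rw [hx]; positivity
  have hx60 : x ^ 60 = 1 / d := by
    rw [hx, ← Real.rpow_natCast, ← Real.rpow_mul (by positivity)]
    norm_num
  refine ⟨⌊x⌋₊, ?_, ?_, ?_⟩
  · apply Nat.le_floor
    by_contra hcon
    push Not at hcon
    have h1 : x ^ 60 < (N₀ : ℝ) ^ 60 := pow_lt_pow_left₀ hcon hx0 (by norm_num)
    rw [hx60, div_lt_iff₀ hd] at h1
    linarith
  · have h1 : (⌊x⌋₊ : ℝ) ^ 60 ≤ x ^ 60 :=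
      pow_le_pow_left₀ (Nat.cast_nonneg _) (Nat.floor_le hx0) 60
    rw [hx60, le_div_iff₀ hd] at h1
    linarith
  · have hN : N₀ ≤ ⌊x⌋₊ := by
      apply Nat.le_floor
      by_contra hcon
      push Not at hcon
      have h1 : x ^ 60 < (N₀ : ℝ) ^ 60 := pow_lt_pow_left₀ hcon hx0 (by norm_num)
      rw [hx60, div_lt_iff₀ hd] at h1
      linarith
    obtain ⟨N, hNe⟩ : ∃ N : ℕ, N = ⌊x⌋₊ := ⟨_, rfl⟩
    rw [← hNe] at hN ⊢
    have hN120 : (120 : ℝ) ≤ N := by exact_mod_cast hN₀.trans hN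
    have h1 : x ^ 60 < ((N : ℝ) + 1) ^ 60 := by
      rw [hNe]
      exact pow_lt_pow_left₀ (Nat.lt_floor_add_one x) hx0 (by norm_num)
    rw [hx60, div_lt_iff₀ hd] at h1
    have h2 : 1 + (60 : ℕ) * (-1 / ((N : ℝ) + 1)) ≤ (1 + -1 / ((N : ℝ) + 1)) ^ 60 := by
      apply one_add_mul_le_pow
      rw [le_div_iff₀ (by positivity)]
      linarith
    have h3 : (1 + -1 / ((N : ℝ) + 1)) = N / (N + 1) := by
      field_simp
      ring
    have h4 : (1 : ℝ) / 2 ≤ 1 + (60 : ℕ) * (-1 / ((N : ℝ) + 1)) := by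
      have : (60 : ℕ) * (1 / ((N : ℝ) + 1)) ≤ 1 / 2 := by
        rw [mul_one_div, div_le_div_iff₀ (by positivity) (by norm_num)]
        push_cast
        linarith
      have e : (60 : ℕ) * (-1 / ((N : ℝ) + 1)) = -((60 : ℕ) * (1 / ((N : ℝ) + 1))) := by ring
      rw [e]
      linarith
    rw [h3, div_pow] at h2
    have h5 : (1 : ℝ) / 2 ≤ (N : ℝ) ^ 60 / ((N : ℝ) + 1) ^ 60 := h4.trans h2
    rw [le_div_iff₀ (by positivity)] at h5
    have h6 := mul_le_mul_of_nonneg_left h5 hd.le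
    linarith

lemma main_D_zero {e d : ℝ} (he : 0 ≤ e) (hd : 0 ≤ d) (h : e + d ≤ 1) :
    Pool.Agent.Helper55.Vote.D (law e d) N1 0 ≤ 1 := by
  have := law_prob he hd h
  unfold Pool.Agent.Helper55.Vote.D
  exact MeasureTheory.measureReal_le_one

theorem thm_Main (h0 : St_Root) (h1 : St_D1) (h2 : St_D2) (h3 : St_D3) (h4 : St_D4)
    (h5a : St_D5a) (h5b : St_D5b) (h5c : St_D5c) (h5d : St_D5d) (hf : St_F3) (hr : St_Refl)
    (hp : St_P6Psi 60) (ht : St_P6T 60) (hz : St_P6Zs 60) (hl : St_P6ZL 60) (hb : St_Bt 60)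
    (hbd : St_Bd 60) (hQ : St_Q) : St_Main := by
  obtain ⟨M, H⟩ := main_H h0 h1 h2 h3 h4 h5a h5b h5c h5d hf hr hp ht hz hl hb hbd
  have hM1 := H.one
  have hM0 : 0 < M := by linarith
  obtain ⟨K, hK⟩ : ∃ K : ℝ, K = 11000 * (1100 * M ^ 2) ^ 6 := ⟨_, rfl⟩
  have hK1 : 1 ≤ K := by
    have e1 : (1 : ℝ) ≤ 1100 * M ^ 2 := by nlinarith
    have e2 : (1 : ℝ) ≤ (1100 * M ^ 2) ^ 6 := one_le_pow₀ e1
    rw [hK]; linarith
  have hK0 : 0 < K := by linarith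
  obtain ⟨N₀, hN₀, hN₀K⟩ : ∃ N₀ : ℕ, 1024 ≤ N₀ ∧ 2 * K ≤ N₀ := by
    obtain ⟨n, hn⟩ := exists_nat_ge (2 * K)
    exact ⟨n + 1024, by omega, by push_cast; linarith⟩
  have hN₀r : (1024 : ℝ) ≤ N₀ := by exact_mod_cast hN₀
  have hN₀0 : (0 : ℝ) < N₀ := by linarith
  refine ⟨min (1 / (2 * K)) (1 / (N₀ : ℝ) ^ 60), lt_min (by positivity) (by positivity), ?_⟩
  intro e d he hed hdc hβ
  obtain ⟨c, hc⟩ : ∃ c : ℝ, c = min (1 / (2 * K)) (1 / (N₀ : ℝ) ^ 60) := ⟨_, rfl⟩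
  rw [← hc] at hdc hβ
  have hc0 : 0 ≤ c := by rw [hc]; exact le_min (by positivity) (by positivity)
  have hcK : c * K ≤ 1 / 2 := by
    have : c ≤ 1 / (2 * K) := by rw [hc]; exact min_le_left _ _
    rw [le_div_iff₀ (by positivity)] at this
    linarith
  have hd0 : 0 < d := lt_of_lt_of_le he hed
  have hdN₀ : d * (N₀ : ℝ) ^ 60 ≤ 1 := by
    have : d ≤ 1 / (N₀ : ℝ) ^ 60 := hdc.trans (by rw [hc]; exact min_le_right _ _)
    rwa [le_div_iff₀ (by positivity)] at this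
  obtain ⟨N, hN, hN1, hN2⟩ := main_size hd0 (by omega : 120 ≤ N₀) hdN₀
  by_contra hcon
  push Not at hcon
  -- real parameters
  have hNr : (N₀ : ℝ) ≤ N := by exact_mod_cast hN
  have hN0 : (0 : ℝ) < N := by linarith
  have hN1024 : 1024 ≤ N := hN₀.trans hN
  obtain ⟨x, hx⟩ : ∃ x : ℝ, x = 1 / N := ⟨_, rfl⟩
  have hx0 : 0 < x := by rw [hx]; positivity
  have hxN : (N : ℝ) * x = 1 := by rw [hx]; field_simp
  have hx1 : x ≤ 1 / 1024 := by
    rw [hx]; exact one_div_le_one_div_of_le (by norm_num) (by linarith)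
  obtain ⟨y, hy⟩ : ∃ y : ℝ, y = x ^ 10 := ⟨_, rfl⟩
  have hy0 : 0 < y := by rw [hy]; positivity
  have hyx : y ≤ x := by
    rw [hy]
    have := pow_le_pow_of_le_one hx0.le (by linarith) (show 1 ≤ 10 by norm_num)
    rwa [pow_one] at this
  have hy1 : y ≤ 1 := by linarith
  have NX : ∀ k : ℕ, (N : ℝ) ^ k * x ^ k = 1 := fun k => by rw [← mul_pow, hxN, one_pow]
  have hd2 : d ≤ y ^ 6 := by
    have e1 : y ^ 6 = x ^ 60 := by rw [hy]; ring
    have e2 := mul_le_mul_of_nonneg_right hN1 (pow_pos hx0 60).le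
    have e3 : d * (N : ℝ) ^ 60 * x ^ 60 = d := by rw [mul_assoc, NX, mul_one]
    rw [e1]; linarith
  have hd1 : y ^ 6 / 2 ≤ d := by
    have e1 : y ^ 6 = x ^ 60 := by rw [hy]; ring
    have e2 := mul_le_mul_of_nonneg_right hN2 (pow_pos hx0 60).le
    have e3 : d * (N : ℝ) ^ 60 * x ^ 60 = d := by rw [mul_assoc, NX, mul_one]
    rw [e1]; linarith
  have hd4 : d ≤ 1 / 4 := by
    have e1 : y ^ 6 ≤ y := by
      have := pow_le_pow_of_le_one hy0.le hy1 (show 1 ≤ 6 by norm_num)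
      rwa [pow_one] at this
    linarith
  have hβ' : d - e ≤ c * y ^ 3 * d := by
    refine hβ.trans ?_
    have e1 : d ^ (3 / 2 : ℝ) = d * √d := by
      rw [show (3 / 2 : ℝ) = 1 + 1 / 2 by norm_num, Real.rpow_add hd0, Real.rpow_one,
        Real.sqrt_eq_rpow]
    have e2 : √d ≤ y ^ 3 := by
      rw [Real.sqrt_le_left (by positivity)]
      calc d ≤ y ^ 6 := hd2
        _ = (y ^ 3) ^ 2 := by ring
    rw [e1]
    have e3 : c * (d * √d) ≤ c * (d * y ^ 3) :=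
      mul_le_mul_of_nonneg_left (mul_le_mul_of_nonneg_left e2 hd0.le) hc0
    linarith
  have hsm : (y + c) * K ≤ 1 := by
    have e1 : x * (2 * K) ≤ 1 := by
      have : x * (2 * K) ≤ x * N := mul_le_mul_of_nonneg_left (by linarith) hx0.le
      linarith
    have e2 : y * K ≤ x * K := mul_le_mul_of_nonneg_right hyx hK0.le
    linarith
  -- integer parameters
  obtain ⟨P, hPe, hPd, hPT, hPL, hPA⟩ : ∃ P : Par, P.e = e ∧ P.d = d ∧ P.T = N ^ 180 ∧
      P.L = N ^ 400 ∧ P.A = N ^ 400 + 20 * N ^ 180 + 100 := by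
    refine ⟨⟨e, d, N ^ 180, N ^ 400 + 20 * N ^ 180 + 100, N ^ 400,
      N ^ 400 + 20 * N ^ 180 + 102, he, hed, hd4, Nat.one_le_pow _ _ (by omega), le_rfl,
      le_rfl⟩, rfl, rfl, rfl, rfl, rfl⟩
  obtain ⟨δ, hδ⟩ : ∃ δ : ℕ → ℝ, δ = fun t => Pool.Agent.Helper55.Vote.D (law e d) N1 t :=
    ⟨_, rfl⟩
  have hsum : e + d ≤ 1 := by linarith
  have hprob := law_prob he.le hd0.le hsum
  have hanti : Antitone δ := by rw [hδ]; exact D_antitone (law e d) N1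
  have hδ0 : δ 0 ≤ 1 := by rw [hδ]; exact main_D_zero he.le hd0.le hsum
  have hδT : ∀ T : ℕ, 1 ≤ (2 * (T : ℝ) + 1) * δ T := fun T => by rw [hδ]; exact hcon T
  have hNone : 1 ≤ N := by omega
  have npow : ∀ {a b : ℕ}, a ≤ b → N ^ a ≤ N ^ b := fun h => Nat.pow_le_pow_right hNone h
  have nstep : ∀ a b : ℕ, b = a + 1 → 1024 * N ^ a ≤ N ^ b := by
    rintro a b rfl
    rw [pow_succ, mul_comm (N ^ a)]
    exact Nat.mul_le_mul_right _ hN1024
  have hpl := main_plateau δ hanti hδ0 (N ^ 180) (N ^ 5) (N ^ 174 + 245) (by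
      have e1 : N ^ 5 * (N ^ 174 + 245) = N ^ 179 + 245 * N ^ 5 := by ring
      have e2 := nstep 179 180 rfl
      have e3 : N ^ 5 ≤ N ^ 179 := npow (by norm_num)
      rw [e1]
      omega) (hδT _) (by
      have e1 : 2 * N ^ 180 + 1 < 2 ^ (N ^ 5) := by
        have f1 : N ^ 181 < 2 ^ (N * 181) := by
          rw [pow_mul]
          exact Nat.pow_lt_pow_left Nat.lt_two_pow_self (by norm_num)
        have f2 : N * 181 ≤ N ^ 5 := by
          have g1 : N * 181 ≤ N * N := Nat.mul_le_mul_left _ (by omega)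
          have g2 : N ^ 2 ≤ N ^ 5 := npow (by norm_num)
          have g3 : N * N = N ^ 2 := by ring
          omega
        have f3 : 2 ^ (N * 181) ≤ 2 ^ (N ^ 5) := Nat.pow_le_pow_right (by norm_num) f2
        have f4 := nstep 180 181 rfl
        have f5 : 1 ≤ N ^ 180 := Nat.one_le_pow _ _ (by omega)
        omega
      exact_mod_cast e1)
  obtain ⟨s0, hs1, hs2⟩ := hpl
  -- bounds for the number of stars
  have hTr : (P.T : ℝ) = (N : ℝ) ^ 180 := by rw [hPT]; push_cast; ring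
  have hLr : (P.L : ℝ) = (N : ℝ) ^ 400 := by rw [hPL]; push_cast; ring
  have hL0 : (0 : ℝ) < P.L := by rw [hLr]; positivity
  have hT0 : (0 : ℝ) < P.T := by rw [hTr]; positivity
  have hTT : (1 : ℝ) ≤ P.T := by
    rw [hTr]; exact one_le_pow₀ (by linarith)
  have hTL : 13 * (P.T : ℝ) ^ 2 ≤ 2 * P.L := by
    have e1 : 13 * N ^ 360 ≤ 2 * N ^ 400 := by
      have f1 := nstep 360 361 rfl
      have f2 : N ^ 361 ≤ N ^ 400 := npow (by norm_num)
      omega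
    have e2 : (13 : ℝ) * (N : ℝ) ^ 360 ≤ 2 * (N : ℝ) ^ 400 := by exact_mod_cast e1
    rw [hTr, hLr]
    calc 13 * ((N : ℝ) ^ 180) ^ 2 = 13 * (N : ℝ) ^ 360 := by ring
      _ ≤ _ := e2
  have hTLn : P.T ≤ P.L := by rw [hPT, hPL]; exact npow (by norm_num)
  have hup : ∀ t, t ≤ P.T → P.Q t ≤ 4 * P.L * δ t := by
    intro t ht
    have e1 := (hQ P t ht hTLn).2
    rw [hPe, hPd] at e1
    have e2 : 1 ≤ (2 * (P.T : ℝ) + 1) * δ t := by
      have f1 := hδT P.T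
      have f2 : δ P.T ≤ δ t := hanti ht
      exact f1.trans (mul_le_mul_of_nonneg_left f2 (by positivity))
    have e3 : 4 * (P.T : ℝ) * 1 ≤ 4 * P.T * ((2 * (P.T : ℝ) + 1) * δ t) :=
      mul_le_mul_of_nonneg_left e2 (by positivity)
    have e4 : 0 ≤ δ t := by
      by_contra h
      push Not at h
      have : (2 * (P.T : ℝ) + 1) * δ t ≤ 0 := mul_nonpos_of_nonneg_of_nonpos (by positivity) h.le
      linarith
    have e5 : (2 * (P.L : ℝ) + 1 + 4 * P.T * (2 * P.T + 1)) * δ t ≤ 4 * P.L * δ t := by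
      refine mul_le_mul_of_nonneg_right ?_ e4
      nlinarith
    have e6 : P.Q t ≤ (2 * (P.L : ℝ) + 1) * δ t + 4 * P.T := by rw [hδ]; exact e1
    linarith
  have hlo : ∀ t, t ≤ P.T → P.L * δ t ≤ P.Q t := by
    intro t ht
    have e1 := (hQ P t ht hTLn).1
    rw [hPe, hPd] at e1
    have e4 : 0 ≤ δ t := by rw [hδ]; exact MeasureTheory.measureReal_nonneg
    have e5 : (P.L : ℝ) * δ t ≤ (2 * ((P.L : ℝ) - P.T) + 1) * δ t := by
      refine mul_le_mul_of_nonneg_right ?_ e4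
      nlinarith
    have e6 : (2 * ((P.L : ℝ) - P.T) + 1) * δ t ≤ P.Q t := by rw [hδ]; exact e1
    linarith
  obtain ⟨Qi, hQi⟩ : ∃ Qi : ℝ, Qi = P.L * δ (s0 + (N ^ 174 + 245)) := ⟨_, rfl⟩
  have hend : 1 ≤ (2 * (P.T : ℝ) + 1) * δ (s0 + (N ^ 174 + 245)) := by
    have f1 := hδT P.T
    have f2 : δ P.T ≤ δ (s0 + (N ^ 174 + 245)) := hanti (by rw [hPT]; exact hs1)
    exact f1.trans (mul_le_mul_of_nonneg_left f2 (by positivity))
  have hQbig : (N : ℝ) ^ 210 ≤ Qi := by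
    have e1 : N ^ 210 * (2 * N ^ 180 + 1) ≤ N ^ 400 := by
      have f1 := nstep 180 181 rfl
      have f5 : 1 ≤ N ^ 180 := Nat.one_le_pow _ _ (by omega)
      have f2 : N ^ 210 * (2 * N ^ 180 + 1) ≤ N ^ 210 * N ^ 181 :=
        Nat.mul_le_mul_left _ (by omega)
      have f3 : N ^ 210 * N ^ 181 = N ^ 391 := by rw [← pow_add]
      have f4 : N ^ 391 ≤ N ^ 400 := npow (by norm_num)
      omega
    have e2 : (N : ℝ) ^ 210 * (2 * (N : ℝ) ^ 180 + 1) ≤ (N : ℝ) ^ 400 := by exact_mod_cast e1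
    have e3 : 0 < 2 * (N : ℝ) ^ 180 + 1 := by positivity
    have e4 : P.L * 1 ≤ P.L * ((2 * (P.T : ℝ) + 1) * δ (s0 + (N ^ 174 + 245))) :=
      mul_le_mul_of_nonneg_left hend hL0.le
    have e5 : (N : ℝ) ^ 210 * (2 * (N : ℝ) ^ 180 + 1) ≤ Qi * (2 * (N : ℝ) ^ 180 + 1) := by
      refine e2.trans ?_
      rw [hQi, ← hLr]
      rw [hTr] at e4
      linarith
    exact le_of_mul_le_mul_right e5 e3
  have hQi0 : 0 < Qi := lt_of_lt_of_le (by positivity) hQbig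
  have hplat : Plat P (s0 + 244) (N ^ 174) Qi := by
    refine ⟨hQi0, by rw [hPT]; omega, Nat.le_add_left 244 s0, ?_, ?_⟩
    · intro t ht1 ht2
      have hs1' : s0 + (N ^ 174 + 245) ≤ P.T := by rw [hPT]; exact hs1
      have e1 : δ (s0 + (N ^ 174 + 245)) ≤ δ t := hanti (by omega)
      have e2 := hlo t (by omega)
      rw [hQi]
      exact (mul_le_mul_of_nonneg_left e1 hL0.le).trans e2
    · intro t ht1 ht2
      have hs1' : s0 + (N ^ 174 + 245) ≤ P.T := by rw [hPT]; exact hs1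
      have e1 : δ t ≤ δ s0 := hanti (by omega)
      have e2 := hup t (by omega)
      have e3 : 4 * P.L * δ t ≤ 4 * P.L * (2 * δ (s0 + (N ^ 174 + 245))) :=
        mul_le_mul_of_nonneg_left (e1.trans hs2) (by positivity)
      rw [hQi]
      linarith
  -- the bad event
  have hbad : P.bad 60 ≤ y ^ 30 := by
    have e0 : (P.A : ℝ) ≤ 2 * (N : ℝ) ^ 400 := by
      have e1 : N ^ 400 + 20 * N ^ 180 + 100 ≤ 2 * N ^ 400 := by
        have f1 := nstep 180 181 rfl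
        have f2 : N ^ 181 ≤ N ^ 400 := npow (by norm_num)
        have f5 : 1 ≤ N ^ 180 := Nat.one_le_pow _ _ (by omega)
        omega
      rw [hPA]
      exact_mod_cast e1
    have hA0 : (0 : ℝ) ≤ P.A := Nat.cast_nonneg _
    have e1 : (P.A : ℝ) ^ 7 ≤ (2 * (N : ℝ) ^ 400) ^ 7 := pow_le_pow_left₀ hA0 e0 7
    have e2 : (2 * P.d) ^ 60 ≤ (2 * y ^ 6) ^ 60 := by
      rw [hPd]
      exact pow_le_pow_left₀ (by positivity) (by linarith) 60
    have e3 : P.bad 60 ≤ (N : ℝ) ^ 180 * (2 * (N : ℝ) ^ 400) ^ 7 * (2 * y ^ 6) ^ 60 := by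
      unfold Par.bad
      rw [hTr]
      exact mul_le_mul (mul_le_mul_of_nonneg_left e1 (by positivity)) e2
        (by rw [hPd]; positivity) (by positivity)
    refine e3.trans ?_
    have e4 : (N : ℝ) ^ 180 * (2 * (N : ℝ) ^ 400) ^ 7 * (2 * y ^ 6) ^ 60 =
        2 ^ 67 * ((N : ℝ) ^ 2980 * x ^ 2980) * x ^ 620 := by
      rw [hy]
      ring
    rw [e4, NX, mul_one]
    have e5 : y ^ 30 = x ^ 300 := by rw [hy]; ring
    have e6 : x ^ 620 = x ^ 7 * x ^ 313 * x ^ 300 := by ring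
    have e7 : x ^ 7 ≤ (1 / 1024) ^ 7 := pow_le_pow_left₀ hx0.le hx1 7
    have e8 : x ^ 313 ≤ 1 := pow_le_one₀ hx0.le (by linarith)
    have e9 : x ^ 7 * x ^ 313 ≤ (1 / 1024) ^ 7 * 1 :=
      mul_le_mul e7 e8 (by positivity) (by positivity)
    have e10 : (2 : ℝ) ^ 67 * (x ^ 7 * x ^ 313) ≤ 1 := by
      have : (2 : ℝ) ^ 67 * (x ^ 7 * x ^ 313) ≤ 2 ^ 67 * ((1 / 1024) ^ 7 * 1) :=
        mul_le_mul_of_nonneg_left e9 (by positivity)
      norm_num at this ⊢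
      linarith
    rw [e5, e6]
    have := mul_le_mul_of_nonneg_right e10 (pow_pos hx0 300).le
    linarith
  refine main_final H hplat (D := N ^ 20) (R := N ^ 30) (y := y) (c := c) ?_ ?_ ?_ ?_ hy0 hy1 hc0
    (by rw [← hK]; exact hsm) (by rw [hPd]; exact hd1) (by rw [hPd]; exact hd2)
    (by rw [hPd, hPe]; exact hβ') ?_ ?_ ?_ ?_ ?_ hbad
  · have f1 := nstep 19 20 rfl
    have f5 : 1 ≤ N ^ 19 := Nat.one_le_pow _ _ (by omega)
    omega
  · rw [hPA]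
    have f2 : N ^ 20 ≤ N ^ 400 := npow (by norm_num)
    omega
  · have f1 := nstep 29 30 rfl
    have f5 : 1 ≤ N ^ 29 := Nat.one_le_pow _ _ (by omega)
    omega
  · rw [hPA]
    have f2 : N ^ 30 ≤ N ^ 400 := npow (by norm_num)
    omega
  · push_cast
    rw [hy, ← pow_mul]
    exact NX 20
  · push_cast
    rw [hy, ← pow_mul]
    exact NX 30
  · exact Nat.one_le_pow _ _ (by omega)
  · push_cast
    rw [div_le_iff₀ (by positivity)]
    have e1 : y ^ 17 * (N : ℝ) ^ 174 = (N : ℝ) ^ 4 * ((N : ℝ) ^ 170 * x ^ 170) := by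
      rw [hy]; ring
    rw [e1, NX, mul_one]
    exact one_le_pow₀ (by linarith)
  · rw [div_le_iff₀ hQi0]
    have e1 : y ^ 21 * (N : ℝ) ^ 210 = 1 := by
      have : y ^ 21 * (N : ℝ) ^ 210 = (N : ℝ) ^ 210 * x ^ 210 := by rw [hy]; ring
      rw [this, NX]
    have e2 : y ^ 21 * (N : ℝ) ^ 210 ≤ y ^ 21 * Qi :=
      mul_le_mul_of_nonneg_left hQbig (by positivity)
    linarith

end Pool.Agent.T3M
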