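import Pool.Agent.T3M.Fin
import Pool.Agent.T3M.MMain

/-! The theorem on small, nearly symmetric noise (team, assembled by helper91). -/

set_option autoImplicit false

namespace Pool.Agent.T3M

theorem fin_thmMain : St_Main :=
  thm_Main thm_Root thm_D1 thm_D2 thm_D3 thm_D4 thm_D5a thm_D5b thm_D5c fin_D5d thm_F3 thm_Refl
    fin_P6Psi fin_P6T fin_P6Zs fin_P6ZL fin_Bt fin_Bd fin_Q

theorem fin_main : ∃ c : ℝ, 0 < c ∧ ∀ z p : ℤ, 0 < p → ∀ ep de : ℝ, 0 < ep →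
    0 < de → max ep de ≤ c → |ep - de| ≤ c * (max ep de) ^ (3 / 2 : ℝ) →
    Pool.Agent.Helper55.Vote.Ergodic {z - p, z, z + p} ep de :=
  thm_Crit fin_thmMain

end Pool.Agent.T3M
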